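import Pool.Agent.CRV.Stmts

/-!
# Module ALLP of S15681: real induction
-/

set_option autoImplicit false

open MeasureTheory Complex Set Filter Topology
open scoped Real

namespace Pool.Agent.CRV

namespace ALLPAux

/-- the local step around a point `s ∈ [π/ρ, π/2]` -/
theorem allp_local (ρ b2 : ℝ) (T : ℝ → ℝ) (P : ℝ → ℝ → Prop) (hρ : 2 ≤ ρ)
    (hTc : ContinuousOn T (Icc 0 (π / 2))) (hTm : StrictMonoOn T (Icc 0 (π / 2)))
    (hstep : ∀ φa φt φm : ℝ, 0 < φa → φa ≠ b2 → φa < φt → φt < φm → φm ≤ π / 2 →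
      ρ * (φm - φa) < π → T φa < -Real.cos (ρ * (φt - φa)) * T φt →
      ∀ ε > 0, ∃ ε' > 0, ∀ φb : ℝ, φt < φb → φb < φm → P ε' φb → P ε φt)
    (s : ℝ) (hs1 : π / ρ ≤ s) (hs2 : s ≤ π / 2) :
    ∃ δ > 0, ∀ φt : ℝ, s - δ < φt → φt ≤ s → φt < π / 2 → ∀ ε > 0, ∃ ε' > 0,
      ∀ φb : ℝ, φt < φb → φb < s + δ → φb < π / 2 → P ε' φb → P ε φt := by
  have hρ0 : 0 < ρ := by linarith
  have hpi := Real.pi_pos
  have hπρ : 0 < π / ρ := div_pos hpi hρ0
  have hs0 : 0 < s := lt_of_lt_of_le hπρ hs1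
  have hsm : s ∈ Icc 0 (π / 2) := ⟨hs0.le, hs2⟩
  -- choose θ
  have h0m : s - π / ρ ∈ Icc 0 (π / 2) := ⟨by linarith, by linarith⟩
  have hlt : T (s - π / ρ) < T s := hTm h0m hsm (by linarith)
  -- function of θ
  have hc1 : ContinuousWithinAt (fun θ : ℝ => T (s - θ / ρ)) (Icc 0 π) π := by
    have h1 : ContinuousWithinAt T (Icc 0 (π / 2)) (s - π / ρ) := hTc _ h0m
    refine ContinuousWithinAt.comp (t := Icc 0 (π / 2)) (f := fun θ : ℝ => s - θ / ρ) (g := T)
      h1 ?_ ?_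
    · exact (continuous_const.sub (continuous_id.div_const ρ)).continuousWithinAt
    · intro θ hθ
      have h2 : θ / ρ ≤ π / ρ := div_le_div_of_nonneg_right hθ.2 hρ0.le
      have h3 : 0 ≤ θ / ρ := div_nonneg hθ.1 hρ0.le
      exact ⟨by linarith, by linarith⟩
  have hc2 : ContinuousWithinAt (fun θ : ℝ => -Real.cos θ * T s) (Icc 0 π) π :=
    ((Real.continuous_cos.neg).mul continuous_const).continuousWithinAt
  have hev : ∀ᶠ θ in 𝓝[Icc 0 π] π, T (s - θ / ρ) < -Real.cos θ * T s := by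
    refine hc1.eventually_lt hc2 ?_
    simpa using hlt
  have hev2 : ∀ᶠ θ in 𝓝[<] π, T (s - θ / ρ) < -Real.cos θ * T s := by
    have h3 : 𝓝[<] π ≤ 𝓝[Icc 0 π] π := by
      rw [← nhdsWithin_Ioo_eq_nhdsLT hpi]
      exact nhdsWithin_mono _ Ioo_subset_Icc_self
    exact h3 hev
  have hev3 : ∀ᶠ θ in 𝓝[<] π, θ ∈ Ioo 0 π := Ioo_mem_nhdsLT hpi
  have hev4 : ∀ᶠ θ in 𝓝[<] π, s - θ / ρ ≠ b2 := by
    -- only one value is excluded
    have h5 : ∀ᶠ θ in 𝓝[<] π, θ ∈ Ioo ((if ρ * (s - b2) < π then max 0 (ρ * (s - b2)) else 0)) π := by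
      refine Ioo_mem_nhdsLT ?_
      split_ifs with h
      · exact max_lt hpi h
      · exact hpi
    filter_upwards [h5] with θ hθ heq
    have h6 : θ = ρ * (s - b2) := by
      have h7 : ρ * (s - b2) = ρ * (θ / ρ) := by rw [← heq]; ring
      rw [h7]
      field_simp
    split_ifs at hθ with h
    · have := hθ.1
      have h7 := le_max_right (0 : ℝ) (ρ * (s - b2))
      linarith
    · exact h (h6 ▸ hθ.2)
  obtain ⟨θ, hθ1, hθ2, hθ3⟩ := (hev2.and (hev3.and hev4)).exists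
  obtain ⟨hθ0, hθπ⟩ := hθ2
  set φa := s - θ / ρ with hφa
  have hθρ : θ / ρ < π / ρ := div_lt_div_of_pos_right hθπ hρ0
  have hθρ0 : 0 < θ / ρ := div_pos hθ0 hρ0
  have hφa0 : 0 < φa := by simp only [hφa]; linarith
  have hφas : φa < s := by simp only [hφa]; linarith
  have hρs : ρ * (s - φa) = θ := by
    simp only [hφa]
    field_simp
    ring
  -- continuity in φt
  have hc3 : ContinuousWithinAt (fun φ : ℝ => -Real.cos (ρ * (φ - φa)) * T φ) (Icc 0 (π / 2)) s := by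
    refine ContinuousWithinAt.mul ?_ (hTc s hsm)
    exact ((Real.continuous_cos.comp (continuous_const.mul (continuous_id.sub
      continuous_const))).neg).continuousWithinAt
  have hev5 : ∀ᶠ φ in 𝓝[Icc 0 (π / 2)] s, T φa < -Real.cos (ρ * (φ - φa)) * T φ := by
    refine (continuousWithinAt_const (b := T φa)).eventually_lt hc3 ?_
    show T φa < -Real.cos (ρ * (s - φa)) * T s
    rw [hρs]
    exact hθ1
  rw [Filter.Eventually, mem_nhdsWithin_iff_exists_mem_nhds_inter] at hev5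
  obtain ⟨u, hu, hu2⟩ := hev5
  obtain ⟨δ1, hδ1, hball⟩ := Metric.mem_nhds_iff.1 hu
  -- δ
  have hd2 : 0 < (π - θ) / (2 * ρ) := div_pos (by linarith) (by linarith)
  refine ⟨min δ1 (min (s - φa) ((π - θ) / (2 * ρ))), ?_, ?_⟩
  · exact lt_min hδ1 (lt_min (by linarith) hd2)
  intro φt h1 h2 h3 ε hε
  set δ := min δ1 (min (s - φa) ((π - θ) / (2 * ρ))) with hδ
  have hδa : δ ≤ δ1 := min_le_left _ _
  have hδb : δ ≤ s - φa := (min_le_right _ _).trans (min_le_left _ _)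
  have hδc : δ ≤ (π - θ) / (2 * ρ) := (min_le_right _ _).trans (min_le_right _ _)
  have hδ0 : 0 < δ := lt_min hδ1 (lt_min (by linarith) hd2)
  have hφat : φa < φt := by linarith
  have hφt0 : 0 < φt := by linarith
  have hφtu : φt ∈ u := by
    apply hball
    rw [Metric.mem_ball, Real.dist_eq, abs_lt]
    constructor <;> linarith
  have hcond : T φa < -Real.cos (ρ * (φt - φa)) * T φt := hu2 ⟨hφtu, hφt0.le, h3.le⟩
  have hm : ρ * (min (s + δ) (π / 2) - φa) < π := by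
    have h4 : min (s + δ) (π / 2) ≤ s + δ := min_le_left _ _
    have h5 : ρ * (min (s + δ) (π / 2) - φa) ≤ ρ * (s + δ - φa) :=
      mul_le_mul_of_nonneg_left (by linarith) hρ0.le
    have h6 : ρ * (s + δ - φa) = θ + ρ * δ := by
      rw [← hρs]; ring
    have h7 : ρ * δ ≤ ρ * ((π - θ) / (2 * ρ)) := mul_le_mul_of_nonneg_left hδc hρ0.le
    have h8 : ρ * ((π - θ) / (2 * ρ)) = (π - θ) / 2 := by
      field_simp
    linarith
  obtain ⟨ε', hε', h⟩ := hstep φa φt (min (s + δ) (π / 2)) hφa0 hθ3 hφat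
    (lt_min (by linarith) h3) (min_le_right _ _) hm hcond ε hε
  exact ⟨ε', hε', fun φb h9 h10 h11 hP => h φb h9 (lt_min h10 h11) hP⟩

end ALLPAux

open ALLPAux

theorem allp : Stmt_ALLP := by
  intro ρ b2 T P hρ hTc hTm hT0 hbase hstep
  have hρ0 : 0 < ρ := by linarith
  have hpi := Real.pi_pos
  have hπρ : 0 < π / ρ := div_pos hpi hρ0
  have hπρ2 : π / ρ ≤ π / 2 := div_le_div_of_nonneg_left hpi.le (by norm_num) hρ
  -- the set of good left end points
  let S : Set ℝ := {s | s ≤ π / 2 ∧ ∀ φ : ℝ, s < φ → φ < π / 2 → ∀ ε > 0, P ε φ}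
  have hkey : ∃ s ∈ S, s < π / ρ := by
    by_contra hcon
    push Not at hcon
    have hne : S.Nonempty := ⟨π / 2, le_rfl, fun φ h1 h2 => absurd h1 (not_lt.2 h2.le)⟩
    have hbdd : BddBelow S := ⟨π / ρ, fun s hs => hcon s hs⟩
    set s₀ := sInf S with hs₀
    have hs1 : π / ρ ≤ s₀ := le_csInf hne hcon
    have hs2 : s₀ ≤ π / 2 := csInf_le hbdd ⟨le_rfl, fun φ h1 h2 => absurd h1 (not_lt.2 h2.le)⟩
    have hgood : ∀ φ : ℝ, s₀ < φ → φ < π / 2 → ∀ ε > 0, P ε φ := by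
      intro φ h1 h2
      obtain ⟨s, hs, hs3⟩ := exists_lt_of_csInf_lt hne h1
      exact hs.2 φ hs3 h2
    obtain ⟨δ, hδ, hloc⟩ := allp_local ρ b2 T P hρ hTc hTm hstep s₀ hs1 hs2
    have hmem : s₀ - δ / 2 ∈ S := by
      refine ⟨by linarith, ?_⟩
      intro φ h1 h2 ε hε
      rcases lt_or_ge s₀ φ with h3 | h3
      · exact hgood φ h3 h2 ε hε
      · obtain ⟨ε', hε', h4⟩ := hloc φ (by linarith) h3 h2 ε hε
        rcases lt_or_ge s₀ (π / 2) with h5 | h5
        · have h6 : s₀ < min (s₀ + δ) (π / 2) := lt_min (by linarith) h5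
          obtain ⟨φb, h7, h8⟩ := exists_between h6
          have h9 := lt_of_lt_of_le h8 (min_le_left _ _)
          have h10 := lt_of_lt_of_le h8 (min_le_right _ _)
          exact h4 φb (lt_of_le_of_lt h3 h7) h9 h10 (hgood φb h7 h10 ε' hε')
        · obtain ⟨κ, hκ, h6⟩ := hbase ε' hε'
          have h7 : max φ (π / 2 - κ) < π / 2 := max_lt h2 (by linarith)
          obtain ⟨φb, h8, h9⟩ := exists_between h7
          have h10 := lt_of_le_of_lt (le_max_left _ _) h8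
          have h11 := lt_of_le_of_lt (le_max_right _ _) h8
          exact h4 φb h10 (by linarith) h9 (h6 φb h11 h9)
    have := csInf_le hbdd hmem
    linarith
  obtain ⟨s, hs, hslt⟩ := hkey
  refine ⟨(max s 0 + π / ρ) / 2, ?_, ?_, ?_⟩
  · have := le_max_right s 0
    linarith
  · have : max s 0 < π / ρ := max_lt hslt hπρ
    linarith
  · intro φ h1 h2
    have h3 : max s 0 < π / ρ := max_lt hslt hπρ
    have h4 := le_max_left s 0
    exact hs.2 φ (by linarith) h2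

end Pool.Agent.CRV
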