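import Pool.Agent.CRV.Stmts

/-!
# Module APL of S15681: almost-analytic Phragmen-Lindelof principle in a half-strip
-/

set_option autoImplicit false

open MeasureTheory Complex Set Filter Topology
open scoped Real

namespace Pool.Agent.CRV

namespace APLAux

/-- the integral of `(y + κ sin θ)^2` over the circle -/
theorem apl_integral (y κ : ℝ) :
    ∫ θ in (0 : ℝ)..(2 * π), (y + κ * Real.sin θ) ^ 2 = 2 * π * (y ^ 2 + κ ^ 2 / 2) := by
  have h1 : ∀ θ : ℝ, (y + κ * Real.sin θ) ^ 2 =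
      y ^ 2 + (2 * y * κ) * Real.sin θ + κ ^ 2 * Real.sin θ ^ 2 := by
    intro θ; ring
  simp_rw [h1]
  have hi1 : IntervalIntegrable (fun _ : ℝ => y ^ 2) volume 0 (2 * π) :=
    Continuous.intervalIntegrable (by fun_prop) _ _
  have hi2 : IntervalIntegrable (fun θ : ℝ => (2 * y * κ) * Real.sin θ) volume 0 (2 * π) :=
    (Continuous.intervalIntegrable (by fun_prop) _ _)
  have hi3 : IntervalIntegrable (fun θ : ℝ => κ ^ 2 * Real.sin θ ^ 2) volume 0 (2 * π) :=
    (Continuous.intervalIntegrable (by fun_prop) _ _)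
  rw [intervalIntegral.integral_add (hi1.add hi2) hi3, intervalIntegral.integral_add hi1 hi2,
    intervalIntegral.integral_const, intervalIntegral.integral_const_mul,
    intervalIntegral.integral_const_mul, integral_sin, integral_sin_sq]
  simp
  ring

/-- mean value inequality with the weight `(im z - a)^2` -/
theorem apl_mean {H : ℂ → ℂ} {z₀ : ℂ} {κ a S : ℝ} (hκ : 0 < κ)
    (hH : DifferentiableOn ℂ H (Metric.closedBall z₀ κ))
    (hb : ∀ z ∈ Metric.sphere z₀ κ, ‖H z‖ ≤ S - (z.im - a) ^ 2) :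
    ‖H z₀‖ ≤ S - (z₀.im - a) ^ 2 - κ ^ 2 / 2 := by
  have hcl : closure (Metric.ball z₀ κ) = Metric.closedBall z₀ κ := closure_ball z₀ hκ.ne'
  have hH' : DiffContOnCl ℂ H (Metric.ball z₀ |κ|) := by
    rw [abs_of_pos hκ]
    refine DifferentiableOn.diffContOnCl ?_
    rw [hcl]
    exact hH
  have hmv := hH'.circleAverage
  rw [Real.circleAverage_def] at hmv
  have hpi := Real.pi_pos
  have h1 : ‖H z₀‖ ≤ (2 * π)⁻¹ * ∫ θ in (0 : ℝ)..(2 * π), (S - (z₀.im - a + κ * Real.sin θ) ^ 2) := by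
    rw [← hmv, norm_smul, Real.norm_of_nonneg (by positivity)]
    refine mul_le_mul_of_nonneg_left ?_ (by positivity)
    refine intervalIntegral.norm_integral_le_of_norm_le (by positivity) ?_ ?_
    · refine Eventually.of_forall fun θ _ => ?_
      have h2 := hb (circleMap z₀ κ θ) (circleMap_mem_sphere z₀ hκ.le θ)
      have h3 : (circleMap z₀ κ θ).im = z₀.im + κ * Real.sin θ := by
        simp [circleMap, Complex.exp_ofReal_mul_I_im]
      rw [h3] at h2
      have h4 : z₀.im + κ * Real.sin θ - a = z₀.im - a + κ * Real.sin θ := by ring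
      rw [h4] at h2
      exact h2
    · exact Continuous.intervalIntegrable (by fun_prop) _ _
  have h2 : ∫ θ in (0 : ℝ)..(2 * π), (S - (z₀.im - a + κ * Real.sin θ) ^ 2) =
      2 * π * (S - ((z₀.im - a) ^ 2 + κ ^ 2 / 2)) := by
    have hi1 : IntervalIntegrable (fun _ : ℝ => S) volume 0 (2 * π) :=
      Continuous.intervalIntegrable (by fun_prop) _ _
    have hi2 : IntervalIntegrable (fun θ : ℝ => (z₀.im - a + κ * Real.sin θ) ^ 2) volume 0 (2 * π) :=
      Continuous.intervalIntegrable (by fun_prop) _ _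
    rw [intervalIntegral.integral_sub hi1 hi2, apl_integral, intervalIntegral.integral_const]
    simp
    ring
  rw [h2] at h1
  have h3 : (2 * π)⁻¹ * (2 * π * (S - ((z₀.im - a) ^ 2 + κ ^ 2 / 2))) =
      S - ((z₀.im - a) ^ 2 + κ ^ 2 / 2) := by
    field_simp
  rw [h3] at h1
  linarith

/-- `B e^{ρx} - c e^{ρ₁ x}` is bounded above. -/
theorem apl_real (ρ ρ₁ B c : ℝ) (h : ρ < ρ₁) (hc : 0 < c) (hρ : 0 < ρ) :
    ∃ M : ℝ, ∀ x : ℝ, B * Real.exp (ρ * x) - c * Real.exp (ρ₁ * x) ≤ M := by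
  set x0 := Real.log (|B| / c + 1) / (ρ₁ - ρ) with hx0
  have hd : 0 < ρ₁ - ρ := by linarith
  have hpos : 0 < |B| / c + 1 := by positivity
  refine ⟨|B| * Real.exp (ρ * x0), fun x => ?_⟩
  have hB : B * Real.exp (ρ * x) ≤ |B| * Real.exp (ρ * x) :=
    mul_le_mul_of_nonneg_right (le_abs_self _) (Real.exp_pos _).le
  rcases le_or_gt x x0 with hx | hx
  · have h1 : |B| * Real.exp (ρ * x) ≤ |B| * Real.exp (ρ * x0) :=
      mul_le_mul_of_nonneg_left (Real.exp_le_exp.2 (mul_le_mul_of_nonneg_left hx hρ.le))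
        (abs_nonneg _)
    have h2 : 0 ≤ c * Real.exp (ρ₁ * x) := by positivity
    linarith
  · have h1 : |B| / c + 1 ≤ Real.exp ((ρ₁ - ρ) * x) := by
      rw [← Real.log_le_iff_le_exp hpos]
      rw [hx0, div_lt_iff₀ hd] at hx
      linarith
    have h2 : |B| ≤ c * Real.exp ((ρ₁ - ρ) * x) := by
      have h3 : |B| = c * (|B| / c) := by field_simp
      rw [h3]
      exact mul_le_mul_of_nonneg_left (by linarith) hc.le
    have h3 : Real.exp (ρ₁ * x) = Real.exp ((ρ₁ - ρ) * x) * Real.exp (ρ * x) := by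
      rw [← Real.exp_add]; congr 1; ring
    have h4 : |B| * Real.exp (ρ * x) ≤ c * Real.exp (ρ₁ * x) := by
      rw [h3, ← mul_assoc]
      exact mul_le_mul_of_nonneg_right h2 (Real.exp_pos _).le
    have h5 : 0 ≤ |B| * Real.exp (ρ * x0) := by positivity
    linarith

end APLAux

open APLAux

theorem apl : Stmt_APL := by
  intro ρ a b κ ξ₀ B F hρ hab hρab hκ hgr hlay hloc
  have hpi := Real.pi_pos
  have hba : 0 < b - a := by linarith
  -- choice of `ρ₁`
  obtain ⟨ρ₁, hρ₁, hρ₁'⟩ : ∃ ρ₁, ρ < ρ₁ ∧ ρ₁ < π / (b - a) :=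
    exists_between ((lt_div_iff₀ hba).2 hρab)
  have hρ₁0 : 0 < ρ₁ := hρ.trans hρ₁
  have hρ₁ab : ρ₁ * (b - a) < π := (lt_div_iff₀ hba).1 hρ₁'
  set c := Real.cos (ρ₁ * (b - a) / 2) with hc
  have hc0 : 0 < c := Real.cos_pos_of_mem_Ioo ⟨by
    have : 0 < ρ₁ * (b - a) := mul_pos hρ₁0 hba
    linarith, by linarith⟩
  -- the multiplier
  let P : ℝ → ℂ → ℂ := fun e z => exp (-(e : ℂ) * exp ((ρ₁ : ℂ) * (z - (((a + b) / 2 : ℝ) : ℂ) * I)))
  have hPnorm : ∀ (e : ℝ) (z : ℂ), ‖P e z‖ =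
      Real.exp (-e * (Real.exp (ρ₁ * z.re) * Real.cos (ρ₁ * (z.im - (a + b) / 2)))) := by
    intro e z
    simp only [P]
    rw [Complex.norm_exp]
    congr 1
    have h1 : (-(e : ℂ) * exp ((ρ₁ : ℂ) * (z - (((a + b) / 2 : ℝ) : ℂ) * I))).re =
        -e * (exp ((ρ₁ : ℂ) * (z - (((a + b) / 2 : ℝ) : ℂ) * I))).re := by
      rw [← ofReal_neg, Complex.re_ofReal_mul]
    rw [h1, Complex.exp_re]
    have h2 : ((ρ₁ : ℂ) * (z - (((a + b) / 2 : ℝ) : ℂ) * I)).re = ρ₁ * z.re := by
      rw [Complex.re_ofReal_mul]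
      simp
    have h3 : ((ρ₁ : ℂ) * (z - (((a + b) / 2 : ℝ) : ℂ) * I)).im = ρ₁ * (z.im - (a + b) / 2) := by
      rw [Complex.im_ofReal_mul]
      congr 1
      rw [Complex.sub_im, Complex.im_ofReal_mul, Complex.I_im, mul_one]
    rw [h2, h3]
  have hcos : ∀ y : ℝ, a ≤ y → y ≤ b → c ≤ Real.cos (ρ₁ * (y - (a + b) / 2)) := by
    intro y hy1 hy2
    rw [← Real.cos_abs (ρ₁ * (y - (a + b) / 2))]
    refine Real.cos_le_cos_of_nonneg_of_le_pi (abs_nonneg _) (by linarith) ?_
    rw [abs_mul, abs_of_pos hρ₁0, mul_div_assoc]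
    refine mul_le_mul_of_nonneg_left ?_ hρ₁0.le
    rw [abs_le]
    constructor <;> linarith
  have hPle : ∀ (e : ℝ) (z : ℂ), 0 < e → a ≤ z.im → z.im ≤ b →
      ‖P e z‖ ≤ Real.exp (-(e * c * Real.exp (ρ₁ * z.re))) := by
    intro e z he h1 h2
    rw [hPnorm]
    refine Real.exp_le_exp.2 ?_
    have h3 := hcos z.im h1 h2
    have h4 : 0 < Real.exp (ρ₁ * z.re) := Real.exp_pos _
    have h5 : e * (Real.exp (ρ₁ * z.re) * c) ≤
        e * (Real.exp (ρ₁ * z.re) * Real.cos (ρ₁ * (z.im - (a + b) / 2))) :=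
      mul_le_mul_of_nonneg_left (mul_le_mul_of_nonneg_left h3 h4.le) he.le
    linarith
  have hP1 : ∀ (e : ℝ) (z : ℂ), 0 < e → a ≤ z.im → z.im ≤ b → ‖P e z‖ ≤ 1 := by
    intro e z he h1 h2
    refine (hPle e z he h1 h2).trans (Real.exp_le_one_iff.2 ?_)
    have : 0 < e * c * Real.exp (ρ₁ * z.re) := by positivity
    linarith
  have hPd : ∀ e : ℝ, Differentiable ℂ (P e) := by
    intro e
    simp only [P]
    fun_prop
  -- the constant
  set C := max 1 (Real.exp (|B| * Real.exp (ρ * (ξ₀ + κ)))) + (b - a) ^ 2 with hC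
  have hkey : ∀ e : ℝ, 0 < e → ∀ z : ℂ, a ≤ z.im → z.im ≤ b → ξ₀ ≤ z.re →
      ‖F z‖ * ‖P e z‖ ≤ C := by
    intro e he
    set u : ℂ → ℝ := fun z => ‖F z‖ * ‖P e z‖ + (z.im - a) ^ 2 with hu
    set D : Set ℂ := {z : ℂ | a ≤ z.im ∧ z.im ≤ b ∧ ξ₀ ≤ z.re} with hD
    obtain ⟨M, hM⟩ := apl_real ρ ρ₁ B (e * c) hρ₁ (mul_pos he hc0) hρ
    have hsq : ∀ z ∈ D, (z.im - a) ^ 2 ≤ (b - a) ^ 2 := by
      rintro z ⟨h1, h2, -⟩
      exact pow_le_pow_left₀ (by linarith) (by linarith) 2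
    have hbdd : BddAbove (u '' D) := by
      refine ⟨Real.exp M + (b - a) ^ 2, ?_⟩
      rintro _ ⟨z, hz, rfl⟩
      refine add_le_add ?_ (hsq z hz)
      obtain ⟨h1, h2, h3⟩ := hz
      calc ‖F z‖ * ‖P e z‖ ≤ Real.exp (B * Real.exp (ρ * z.re)) *
            Real.exp (-(e * c * Real.exp (ρ₁ * z.re))) :=
            mul_le_mul (hgr z h1 h2 h3) (hPle e z he h1 h2) (norm_nonneg _) (Real.exp_pos _).le
        _ = Real.exp (B * Real.exp (ρ * z.re) - e * c * Real.exp (ρ₁ * z.re)) := by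
            rw [← Real.exp_add]; congr 1
        _ ≤ Real.exp M := Real.exp_le_exp.2 (hM z.re)
    have hne : (u '' D).Nonempty :=
      ⟨_, ⟨(ξ₀ : ℂ) + (a : ℂ) * I, ⟨by simp, by simpa using hab.le, by simp⟩, rfl⟩⟩
    set S := sSup (u '' D) with hS
    have hle : ∀ z ∈ D, u z ≤ S := fun z hz => le_csSup hbdd ⟨z, hz, rfl⟩
    -- pointwise bound
    have hpt : ∀ z ∈ D, u z ≤ max C (S - κ ^ 2 / 4) := by
      intro z hz
      have hzD := hz
      obtain ⟨h1, h2, h3⟩ := hz
      by_cases hl : (a ≤ z.im ∧ z.im ≤ a + κ) ∨ (b - κ ≤ z.im ∧ z.im ≤ b)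
      · refine le_trans ?_ (le_max_left _ _)
        refine add_le_add ?_ (hsq z hzD)
        refine le_trans ?_ (le_max_left _ _)
        calc ‖F z‖ * ‖P e z‖ ≤ 1 * 1 :=
              mul_le_mul (hlay z h3 hl) (hP1 e z he h1 h2) (norm_nonneg _) zero_le_one
          _ = 1 := by norm_num
      · push Not at hl
        have h4 : a + κ < z.im := hl.1 h1
        have h5 : z.im < b - κ := by
          by_contra hcon
          push Not at hcon
          exact absurd h2 (not_le.2 (hl.2 hcon))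
        rcases le_or_gt (ξ₀ + κ) z.re with h6 | h6
        · -- interior point
          refine le_trans ?_ (le_max_right _ _)
          obtain ⟨G, hG1, hG2, hG3⟩ := hloc z h4.le h5.le h6
          have hsub : ∀ w ∈ Metric.sphere z κ, w ∈ D := by
            intro w hw
            rw [mem_sphere_iff_norm] at hw
            have h7 : |(w - z).im| ≤ κ := (Complex.abs_im_le_norm _).trans hw.le
            have h8 : |(w - z).re| ≤ κ := (Complex.abs_re_le_norm _).trans hw.le
            rw [Complex.sub_im, abs_le] at h7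
            rw [Complex.sub_re, abs_le] at h8
            exact ⟨by linarith [h7.1], by linarith [h7.2], by linarith [h8.1]⟩
          have hmean := apl_mean (H := fun w => G w * P e w) (z₀ := z) (κ := κ) (a := a)
            (S := S + κ ^ 2 / 4) hκ (hG1.mul (hPd e).differentiableOn) ?_
          · rw [norm_mul, hG2] at hmean
            show ‖F z‖ * ‖P e z‖ + (z.im - a) ^ 2 ≤ S - κ ^ 2 / 4
            linarith
          · intro w hw
            have hwD := hsub w hw
            have h7 := hle w hwD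
            have h8 : ‖F w‖ * ‖P e w‖ + (w.im - a) ^ 2 ≤ S := h7
            have h9 := hP1 e w he hwD.1 hwD.2.1
            have h10 : ‖G w‖ ≤ ‖F w‖ + κ ^ 2 / 4 := by
              calc ‖G w‖ = ‖F w + (G w - F w)‖ := by congr 1; ring
                _ ≤ ‖F w‖ + ‖G w - F w‖ := norm_add_le _ _
                _ ≤ ‖F w‖ + κ ^ 2 / 4 := by linarith [hG3 w hw]
            show ‖G w * P e w‖ ≤ _
            rw [norm_mul]
            calc ‖G w‖ * ‖P e w‖ ≤ (‖F w‖ + κ ^ 2 / 4) * ‖P e w‖ :=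
                  mul_le_mul_of_nonneg_right h10 (norm_nonneg _)
              _ = ‖F w‖ * ‖P e w‖ + κ ^ 2 / 4 * ‖P e w‖ := by ring
              _ ≤ ‖F w‖ * ‖P e w‖ + κ ^ 2 / 4 * 1 := by
                  have : 0 ≤ κ ^ 2 / 4 := by positivity
                  have := mul_le_mul_of_nonneg_left h9 this
                  linarith
              _ ≤ S + κ ^ 2 / 4 - (w.im - a) ^ 2 := by linarith
        · refine le_trans ?_ (le_max_left _ _)
          refine add_le_add ?_ (hsq z hzD)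
          refine le_trans ?_ (le_max_right _ _)
          calc ‖F z‖ * ‖P e z‖ ≤ Real.exp (B * Real.exp (ρ * z.re)) * 1 :=
                mul_le_mul (hgr z h1 h2 h3) (hP1 e z he h1 h2) (norm_nonneg _) (Real.exp_pos _).le
            _ ≤ Real.exp (|B| * Real.exp (ρ * (ξ₀ + κ))) := by
                rw [mul_one]
                refine Real.exp_le_exp.2 ?_
                refine mul_le_mul (le_abs_self _) (Real.exp_le_exp.2 ?_) (Real.exp_pos _).le
                  (abs_nonneg _)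
                exact mul_le_mul_of_nonneg_left h6.le hρ.le
    have hSC : S ≤ C := by
      have h1 : S ≤ max C (S - κ ^ 2 / 4) := by
        refine csSup_le hne ?_
        rintro _ ⟨z, hz, rfl⟩
        exact hpt z hz
      rcases le_max_iff.1 h1 with h2 | h2
      · exact h2
      · have : 0 < κ ^ 2 / 4 := by positivity
        linarith
    intro z h1 h2 h3
    have h4 := hle z ⟨h1, h2, h3⟩
    have h5 : ‖F z‖ * ‖P e z‖ + (z.im - a) ^ 2 ≤ S := h4
    have h6 : 0 ≤ (z.im - a) ^ 2 := sq_nonneg _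
    linarith
  -- `e → 0`
  refine ⟨C, fun z h1 h2 h3 => ?_⟩
  have hlim : Tendsto (fun e : ℝ => ‖F z‖ * ‖P e z‖) (𝓝[>] 0) (𝓝 (‖F z‖ * ‖P 0 z‖)) := by
    have hcont : Continuous (fun e : ℝ => ‖F z‖ * ‖P e z‖) := by
      simp only [P]
      fun_prop
    exact (hcont.tendsto 0).mono_left nhdsWithin_le_nhds
  have h0 : ‖P 0 z‖ = 1 := by simp [P]
  rw [h0, mul_one] at hlim
  refine le_of_tendsto hlim ?_
  filter_upwards [self_mem_nhdsWithin] with e he
  exact hkey e he z h1 h2 h3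

end Pool.Agent.CRV
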