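import Pool.Agent.CRV.TAIL

/-!
# APRI: a priori bound of the `L^2` norm of `Y`
-/

set_option autoImplicit false

open MeasureTheory Complex Set Filter Topology
open scoped Real

namespace Pool.Agent.CRV

noncomputable section

theorem PP_zero {α : ℝ} (hα : 0 < α) (F : FS α) (a b l : ℂ) :
    PP F a b l 0 = ‖b‖ ^ 2 + ‖l‖ * ‖a‖ ^ 2 := by
  simp [PP, FS.y, FS.dy, F.C0, F.S0, F.dC0, F.dS0, Real.zero_rpow hα.ne']

theorem apri (hG : Stmt_GRON) (hT : Stmt_TAIL) (hO : Stmt_ORD) : Stmt_APRI := by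
  intro α hα hα' F ψ₁ ψ₂ hψ1 hψ12 hψ2 ε hε
  set c := Real.cos ψ₂ with hc
  set s := Real.sin ψ₁ with hs
  have hc0 : 0 < c := Real.cos_pos_of_mem_Ioo ⟨by linarith, hψ2⟩
  have hs0 : 0 < s := Real.sin_pos_of_pos_of_lt_pi hψ1 (by linarith)
  have hρ := one_le_rho hα hα'
  set C : ℝ := Real.exp (1 / c) / c + Real.exp (1 / c) with hC
  have hCp : 0 < C := by positivity
  obtain ⟨R₁, hR₁⟩ := hT α hα hα' F ψ₁ ψ₂ hψ1 hψ12 hψ2 (ε / 2) (by positivity)
  obtain ⟨R₂, hR21, hR₂⟩ := exists_growth C (ε / 2) (rho α) (by positivity) hρ 1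
  refine ⟨max R₁ R₂, fun l hl h3 h4 a b hY => ?_⟩
  have htail := hR₁ l ((le_max_left _ _).trans hl) h3 h4 a b hY
  have hgrow := hR₂ ‖l‖ ((le_max_right _ _).trans hl)
  rw [pow_one] at hgrow
  obtain ⟨hre, him, him', hre'⟩ := sector_bd hψ1 hψ2 h3 h4
  set r := ‖l‖ with hr
  have hr1 : 1 ≤ r := hR21.trans ((le_max_right _ _).trans hl)
  have hr0 : 0 < r := by linarith
  have hrere : 0 < l.re := lt_of_lt_of_le (by positivity) hre
  have hh0 : 0 < l.im := lt_of_lt_of_le (by positivity) him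
  set X₁ := x1 α l with hX1
  have hX1n : 0 ≤ X₁ := x1_nonneg l hh0.le
  have hX1α : X₁ ^ α = l.im := x1_rpow hα l hh0.le
  have hX1le : X₁ ≤ r ^ rho α := by
    calc X₁ = l.im ^ (1 / α) := rfl
      _ ≤ r ^ (1 / α) := Real.rpow_le_rpow hh0.le him' (by positivity)
      _ ≤ r ^ rho α := by
        refine Real.rpow_le_rpow_of_exponent_le hr1 ?_
        unfold rho
        linarith
  have hrr : r ≤ r ^ rho α := by
    calc r = r ^ (1 : ℝ) := (Real.rpow_one r).symm
      _ ≤ r ^ rho α := Real.rpow_le_rpow_of_exponent_le hr1 hρ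
  set N := ‖a‖ ^ 2 + ‖b‖ ^ 2 with hN
  have hN0 : 0 ≤ N := by positivity
  have hP0 : PP F a b l 0 ≤ r * N := by
    rw [PP_zero hα, ← hr, hN]
    have : ‖b‖ ^ 2 ≤ r * ‖b‖ ^ 2 := le_mul_of_one_le_left (sq_nonneg _) hr1
    linarith
  have hcont : Continuous fun t : ℝ => (kf α l t).im :=
    Complex.continuous_im.comp (cont_kf hα hrere)
  have hgr : ∀ x ∈ Icc 0 X₁, PP F a b l x ≤ r * N * Real.exp (2 * Tf α l + 1 / c) := by
    intro x hx
    have g1 := hG α hα hα' F a b l hrere 0 x le_rfl hx.1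
    have g2 : ∫ t in (0 : ℝ)..x, |(kf α l t).im| ≤ Tf α l := by
      have h1 : ∫ t in (0 : ℝ)..x, |(kf α l t).im| ≤ ∫ t in (0 : ℝ)..X₁, |(kf α l t).im| := by
        refine intervalIntegral.integral_mono_interval le_rfl hx.1 hx.2 ?_
          (hcont.abs.intervalIntegrable _ _)
        exact Eventually.of_forall fun t => abs_nonneg _
      have h2 : ∫ t in (0 : ℝ)..X₁, |(kf α l t).im| = Tf α l := by
        rw [Tf, If]
        refine intervalIntegral.integral_congr fun t ht => ?_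
        rw [uIcc_of_le hX1n] at ht
        refine abs_of_nonneg (kf_im_nonneg hrere ?_)
        rw [← hX1α]
        exact Real.rpow_le_rpow ht.1 ht.2 hα.le
      rw [← h2]
      exact h1
    have g3 : x ^ α / l.re ≤ 1 / c := by
      have t1 : x ^ α ≤ r := by
        refine le_trans ?_ him'
        rw [← hX1α]
        exact Real.rpow_le_rpow hx.1 hx.2 hα.le
      rw [div_le_div_iff₀ hrere hc0]
      have t3 : x ^ α * c ≤ r * c := mul_le_mul_of_nonneg_right t1 hc0.le
      linarith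
    refine g1.trans ?_
    refine mul_le_mul hP0 (Real.exp_le_exp.2 (by linarith)) (Real.exp_pos _).le (by positivity)
  have hint := (hO α hα hα' F)
  obtain ⟨K, hK⟩ := hint
  have hi := (hK a b l hY).1
  have hsplit : ∫ x in Ioi (0 : ℝ), ‖F.y a b l x‖ ^ 2 =
      (∫ x in Ioc 0 X₁, ‖F.y a b l x‖ ^ 2) + ∫ x in Ioi X₁, ‖F.y a b l x‖ ^ 2 := by
    rw [← Ioc_union_Ioi_eq_Ioi hX1n]
    exact setIntegral_union (Ioc_disjoint_Ioi le_rfl) measurableSet_Ioi
      (hi.mono_set Ioc_subset_Ioi_self) (hi.mono_set (Ioi_subset_Ioi hX1n))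
  rw [hsplit]
  set e := Real.exp (2 * Tf α l) with he
  have he0 : 0 < e := Real.exp_pos _
  have hA : ∫ x in Ioc 0 X₁, ‖F.y a b l x‖ ^ 2 ≤ r ^ rho α * (N * e * (Real.exp (1 / c) / c)) := by
    have hb : ∀ x ∈ Ioc 0 X₁, ‖F.y a b l x‖ ^ 2 ≤ N * e * (Real.exp (1 / c) / c) := by
      intro x hx
      have h1 := (PP_bound F a b l hrere x).2
      have h2 := hgr x ⟨hx.1.le, hx.2⟩
      refine h1.trans ?_
      calc PP F a b l x / l.re ≤ r * N * Real.exp (2 * Tf α l + 1 / c) / (c * r) :=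
            div_le_div₀ (by positivity) h2 (by positivity) hre
        _ = N * e * (Real.exp (1 / c) / c) := by
            rw [Real.exp_add, he]
            field_simp
    calc ∫ x in Ioc 0 X₁, ‖F.y a b l x‖ ^ 2
        ≤ ∫ _x in Ioc 0 X₁, N * e * (Real.exp (1 / c) / c) :=
          setIntegral_mono_on (hi.mono_set Ioc_subset_Ioi_self)
            (integrableOn_const (by simp)) measurableSet_Ioc hb
      _ = X₁ * (N * e * (Real.exp (1 / c) / c)) := by
          rw [setIntegral_const, smul_eq_mul, measureReal_def, Real.volume_Ioc, sub_zero,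
            ENNReal.toReal_ofReal hX1n]
      _ ≤ r ^ rho α * (N * e * (Real.exp (1 / c) / c)) :=
          mul_le_mul_of_nonneg_right hX1le (by positivity)
  have hB : ∫ x in Ioi X₁, ‖F.y a b l x‖ ^ 2 ≤
      Real.exp (ε / 2 * r ^ rho α) * (r ^ rho α * N * e * Real.exp (1 / c)) := by
    refine htail.trans (mul_le_mul_of_nonneg_left ?_ (Real.exp_pos _).le)
    refine (hgr X₁ ⟨hX1n, le_rfl⟩).trans ?_
    rw [Real.exp_add, ← he]
    have : r * (N * (e * Real.exp (1 / c))) ≤ r ^ rho α * (N * (e * Real.exp (1 / c))) :=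
      mul_le_mul_of_nonneg_right hrr (by positivity)
    linarith
  have he1 : 1 ≤ Real.exp (ε / 2 * r ^ rho α) := by
    rw [← Real.exp_zero]
    exact Real.exp_le_exp.2 (by positivity)
  calc (∫ x in Ioc 0 X₁, ‖F.y a b l x‖ ^ 2) + ∫ x in Ioi X₁, ‖F.y a b l x‖ ^ 2
      ≤ r ^ rho α * (N * e * (Real.exp (1 / c) / c)) +
        Real.exp (ε / 2 * r ^ rho α) * (r ^ rho α * N * e * Real.exp (1 / c)) := add_le_add hA hB
    _ ≤ Real.exp (ε / 2 * r ^ rho α) * (r ^ rho α * (N * e * (Real.exp (1 / c) / c))) +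
        Real.exp (ε / 2 * r ^ rho α) * (r ^ rho α * N * e * Real.exp (1 / c)) := by
        have h1 : 0 ≤ r ^ rho α * (N * e * (Real.exp (1 / c) / c)) := by positivity
        have h2 := le_mul_of_one_le_left h1 he1
        linarith
    _ = (C * r ^ rho α) * Real.exp (ε / 2 * r ^ rho α) * (e * N) := by
        rw [hC]
        ring
    _ ≤ Real.exp (ε / 2 * r ^ rho α) * Real.exp (ε / 2 * r ^ rho α) * (e * N) :=
        mul_le_mul_of_nonneg_right (mul_le_mul_of_nonneg_right hgrow (Real.exp_pos _).le)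
          (by positivity)
    _ = Real.exp (2 * Tf α l + ε * r ^ rho α) * N := by
        rw [← Real.exp_add, he, ← mul_assoc, ← Real.exp_add]
        ring_nf

end

end Pool.Agent.CRV
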