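import Pool.Agent.CRV.Util23

set_option autoImplicit false

open MeasureTheory Complex Set Filter Topology
open scoped Real

namespace Pool.Agent.CRV

noncomputable section

namespace U23

/-- `Im (l e^{-2 i β}) = |l| sin (arg l - 2 β)` -/
lemma im_mu (l : ℂ) (θ : ℝ) :
    (l * exp (-(θ : ℂ) * I)).im = ‖l‖ * Real.sin (arg l - θ) := by
  have h1 : l * exp (-(θ : ℂ) * I) = (‖l‖ : ℂ) * exp (((arg l - θ : ℝ) : ℂ) * I) := by
    conv_lhs => rw [← Complex.norm_mul_exp_arg_mul_I l]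
    rw [mul_assoc, ← Complex.exp_add]
    congr 2
    push_cast
    ring
  rw [h1, Complex.im_ofReal_mul, Complex.exp_ofReal_mul_I_im]

/-- bound of both data by the boundary functional -/
lemma zher_bdr (hZ : Stmt_ZHER) {α : ℝ} (h0 : 0 < α) (h1 : α ≤ 2 / 3) (F : FS α)
    (a b l : ℂ) (hab : IsY F a b l) (him : (l * exp (-(2 * beta α) * I)).im ≠ 0) (s : Bool) :
    bdr s a b ≠ 0 ∧ ‖a‖ ^ 2 + ‖b‖ ^ 2 ≤
      (1 + (8 * (1 + ‖l‖) ^ 2 * (1 + 1 / |(l * exp (-(2 * beta α) * I)).im|)) ^ 2) *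
        ‖bdr s a b‖ ^ 2 := by
  obtain ⟨ha, hb, h2, h3⟩ := hZ α h0 h1 F a b l hab him
  set C := 8 * (1 + ‖l‖) ^ 2 * (1 + 1 / |(l * exp (-(2 * beta α) * I)).im|) with hC
  have hC0 : 0 ≤ C := by rw [hC]; positivity
  cases s with
  | true =>
    simp only [bdr, if_true]
    refine ⟨ha, ?_⟩
    have := pow_le_pow_left₀ (norm_nonneg _) h2 2
    rw [mul_pow] at this
    linarith
  | false =>
    simp only [bdr, Bool.false_eq_true, if_false]
    refine ⟨hb, ?_⟩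
    have := pow_le_pow_left₀ (norm_nonneg _) h3 2
    rw [mul_pow] at this
    linarith

lemma beta_pos {α : ℝ} (h0 : 0 < α) : 0 < beta α := by
  unfold beta
  have := Real.pi_pos
  positivity

lemma two_beta_lt {α : ℝ} (h0 : 0 < α) : 2 * beta α < π / 2 := by
  unfold beta
  have hp := Real.pi_pos
  have : 2 * (π / (2 * (α + 2))) = π / (α + 2) := by
    field_simp
  rw [this]
  apply div_lt_div_of_pos_left hp (by norm_num) (by linarith)

end U23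

open U23

theorem aprie (hAPRI : Stmt_APRI) (hORD : Stmt_ORD) (hZ : Stmt_ZHER) (hY : Stmt_Y) :
    Stmt_APRIE := by
  intro α h0 h1 F s f E hf hE ψ₁ ψ₂ hψ₁ hψ₁₂ hψ₂ hoff ε hε
  obtain ⟨R₁, hapri⟩ := hAPRI α h0 h1 F ψ₁ ψ₂ hψ₁ hψ₁₂ hψ₂ ε hε
  obtain ⟨K₂, hord⟩ := hORD α h0 h1 F
  set A : ℝ := Real.sqrt (∫ x in Ioi (0 : ℝ), ‖f x‖ ^ 2) with hA
  have hA0 : 0 ≤ A := Real.sqrt_nonneg _
  have hβ := beta_pos h0
  have hβ2 := two_beta_lt h0
  -- constant c with |sin (arg l - 2 β)| ≥ c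
  obtain ⟨c, hc, hcs⟩ : ∃ c > 0, ∀ θ : ℝ, ψ₁ ≤ θ → θ ≤ ψ₂ → c ≤ |Real.sin (θ - 2 * beta α)| := by
    rcases hoff with h | h
    · refine ⟨Real.sin (ψ₁ - 2 * beta α), Real.sin_pos_of_pos_of_lt_pi (by linarith)
        (by linarith), ?_⟩
      intro θ h2 h3
      have : Real.sin (ψ₁ - 2 * beta α) ≤ Real.sin (θ - 2 * beta α) := by
        apply Real.sin_le_sin_of_le_of_le_pi_div_two <;> linarith
      exact this.trans (le_abs_self _)
    · refine ⟨Real.sin (2 * beta α - ψ₂), Real.sin_pos_of_pos_of_lt_pi (by linarith)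
        (by linarith), ?_⟩
      intro θ h2 h3
      have : Real.sin (2 * beta α - ψ₂) ≤ Real.sin (2 * beta α - θ) := by
        apply Real.sin_le_sin_of_le_of_le_pi_div_two <;> linarith
      refine this.trans ?_
      have e : Real.sin (2 * beta α - θ) = -Real.sin (θ - 2 * beta α) := by
        rw [← Real.sin_neg, neg_sub]
      rw [e]
      exact neg_le_abs _
  set C₁ : ℝ := 1 + 1 / c with hC₁
  have hC₁0 : 0 < C₁ := by rw [hC₁]; positivity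
  -- polynomial versus exponential
  obtain ⟨R₂, hR₂⟩ : ∃ R₂ : ℝ, ∀ x : ℝ, R₂ ≤ x →
      A ^ 2 * (1 + (8 * (1 + x) ^ 2 * C₁) ^ 2) ≤ Real.exp (ε * x) := by
    have ho := isLittleO_pow_exp_pos_mul_atTop (k := 4) hε
    set D : ℝ := A ^ 2 * (1 + 1024 * C₁ ^ 2) + 1 with hD
    have hD0 : 0 < D := by rw [hD]; positivity
    have hev := ho.def (inv_pos.2 hD0)
    obtain ⟨R₃, hR₃⟩ := hev.exists_forall_of_atTop
    refine ⟨max R₃ 1, fun x hx => ?_⟩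
    have hx3 : R₃ ≤ x := (le_max_left _ _).trans hx
    have hx1 : 1 ≤ x := (le_max_right _ _).trans hx
    have hq := hR₃ x hx3
    rw [Real.norm_of_nonneg (by positivity), Real.norm_of_nonneg (Real.exp_pos _).le] at hq
    have hq2 : D * x ^ 4 ≤ Real.exp (ε * x) := by
      have := mul_le_mul_of_nonneg_left hq hD0.le
      rwa [mul_inv_cancel_left₀ hD0.ne'] at this
    refine le_trans ?_ hq2
    have h4 : (1 + x) ^ 4 ≤ 16 * x ^ 4 := by
      have : (1 + x) ^ 4 ≤ (2 * x) ^ 4 := pow_le_pow_left₀ (by linarith) (by linarith) 4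
      calc (1 + x) ^ 4 ≤ (2 * x) ^ 4 := this
        _ = 16 * x ^ 4 := by ring
    have hx4 : 1 ≤ x ^ 4 := one_le_pow₀ hx1
    have e1 : 1 + (8 * (1 + x) ^ 2 * C₁) ^ 2 ≤ (1 + 1024 * C₁ ^ 2) * x ^ 4 := by
      have : (8 * (1 + x) ^ 2 * C₁) ^ 2 = 64 * C₁ ^ 2 * (1 + x) ^ 4 := by ring
      rw [this]
      have hC2 : 0 ≤ 64 * C₁ ^ 2 := by positivity
      nlinarith [mul_le_mul_of_nonneg_left h4 hC2]
    have hA2 : 0 ≤ A ^ 2 := sq_nonneg _
    calc A ^ 2 * (1 + (8 * (1 + x) ^ 2 * C₁) ^ 2) ≤ A ^ 2 * ((1 + 1024 * C₁ ^ 2) * x ^ 4) :=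
          mul_le_mul_of_nonneg_left e1 hA2
      _ ≤ D * x ^ 4 := by
          rw [hD]
          have : 0 ≤ x ^ 4 := by positivity
          nlinarith
  refine ⟨max (max R₁ R₂) 1, fun l hl ha1 ha2 => ?_⟩
  have hlR₁ : R₁ ≤ ‖l‖ := ((le_max_left _ _).trans (le_max_left _ _)).trans hl
  have hlR₂ : R₂ ≤ ‖l‖ := ((le_max_right _ _).trans (le_max_left _ _)).trans hl
  have hl1 : 1 ≤ ‖l‖ := (le_max_right _ _).trans hl
  obtain ⟨a, b, hab⟩ := exists_isY hY h0 h1 F l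
  have him : (l * exp (-(2 * beta α) * I)).im = ‖l‖ * Real.sin (arg l - 2 * beta α) := by
    have := im_mu l (2 * beta α)
    push_cast at this
    exact this
  have habs : c ≤ |(l * exp (-(2 * beta α) * I)).im| := by
    rw [him, abs_mul, abs_of_nonneg (norm_nonneg l)]
    have := hcs (arg l) ha1 ha2
    nlinarith [norm_nonneg l]
  have hne : (l * exp (-(2 * beta α) * I)).im ≠ 0 := by
    intro h
    rw [h, abs_zero] at habs
    linarith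
  obtain ⟨hb0, hb⟩ := zher_bdr hZ h0 h1 F a b l hab hne s
  obtain ⟨hint, -⟩ := hord a b l hab
  have hEl := hE.2 l a b hab
  have hcs2 := cs f (fun x : ℝ => F.y a b l x) hf (meas_y F a b l) hint
  rw [← hEl, norm_mul] at hcs2
  have hpos : 0 < ‖bdr s a b‖ := norm_pos_iff.2 hb0
  have hsq := pow_le_pow_left₀ (by positivity) hcs2 2
  rw [mul_pow, mul_pow, ← hA,
    Real.sq_sqrt (x := ∫ x in Ioi (0 : ℝ), ‖F.y a b l x‖ ^ 2)
      (integral_nonneg fun x => by positivity)] at hsq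
  have hap := hapri l hlR₁ ha1 ha2 a b hab
  have hfac : 1 + (8 * (1 + ‖l‖) ^ 2 * (1 + 1 / |(l * exp (-(2 * beta α) * I)).im|)) ^ 2 ≤
      1 + (8 * (1 + ‖l‖) ^ 2 * C₁) ^ 2 := by
    have : 1 / |(l * exp (-(2 * beta α) * I)).im| ≤ 1 / c := one_div_le_one_div_of_le hc habs
    rw [hC₁]
    gcongr
  have hexp0 : 0 ≤ Real.exp (2 * Tf α l + ε * ‖l‖ ^ rho α) := (Real.exp_pos _).le
  have hA2 : 0 ≤ A ^ 2 := sq_nonneg _
  have hchain : ‖E l‖ ^ 2 * ‖bdr s a b‖ ^ 2 ≤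
      (A ^ 2 * (1 + (8 * (1 + ‖l‖) ^ 2 * C₁) ^ 2)) *
        Real.exp (2 * Tf α l + ε * ‖l‖ ^ rho α) * ‖bdr s a b‖ ^ 2 := by
    calc ‖E l‖ ^ 2 * ‖bdr s a b‖ ^ 2 ≤ A ^ 2 * ∫ x in Ioi (0 : ℝ), ‖F.y a b l x‖ ^ 2 := hsq
      _ ≤ A ^ 2 * (Real.exp (2 * Tf α l + ε * ‖l‖ ^ rho α) * (‖a‖ ^ 2 + ‖b‖ ^ 2)) :=
          mul_le_mul_of_nonneg_left hap hA2
      _ ≤ A ^ 2 * (Real.exp (2 * Tf α l + ε * ‖l‖ ^ rho α) *
            ((1 + (8 * (1 + ‖l‖) ^ 2 * C₁) ^ 2) * ‖bdr s a b‖ ^ 2)) := by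
          apply mul_le_mul_of_nonneg_left _ hA2
          apply mul_le_mul_of_nonneg_left _ hexp0
          exact hb.trans (mul_le_mul_of_nonneg_right hfac (by positivity))
      _ = _ := by ring
  have h5 := le_of_mul_le_mul_right hchain (by positivity)
  have hρ := rho_ge_two h0 h1
  have hlρ : ‖l‖ ≤ ‖l‖ ^ rho α := by
    calc ‖l‖ = ‖l‖ ^ (1 : ℝ) := (Real.rpow_one _).symm
      _ ≤ _ := Real.rpow_le_rpow_of_exponent_le hl1 (by linarith)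
  have h6 : A ^ 2 * (1 + (8 * (1 + ‖l‖) ^ 2 * C₁) ^ 2) ≤ Real.exp (ε * ‖l‖ ^ rho α) :=
    (hR₂ ‖l‖ hlR₂).trans (Real.exp_le_exp.2 (mul_le_mul_of_nonneg_left hlρ hε.le))
  have h7 : ‖E l‖ ^ 2 ≤ (Real.exp (Tf α l + ε * ‖l‖ ^ rho α)) ^ 2 := by
    refine h5.trans ((mul_le_mul_of_nonneg_right h6 hexp0).trans (le_of_eq ?_))
    rw [← Real.exp_add, ← Real.exp_nat_mul]
    congr 1
    push_cast
    ring
  exact le_of_sq_le_sq h7 (Real.exp_pos _).le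
where
  le_of_sq_le_sq {x y : ℝ} (h : x ^ 2 ≤ y ^ 2) (hy : 0 ≤ y) : x ≤ y := by
    exact (abs_le_of_sq_le_sq' h hy).2

end

end Pool.Agent.CRV
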