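import Pool.Agent.CRV.KF

/-!
BASE: `P_ε(φ)` for `φ` slightly below `π/2`.
-/

set_option autoImplicit false

open MeasureTheory Complex Set Filter Topology
open scoped Real

namespace Pool.Agent.CRV

namespace Base

open KF

/-- GRON below `x_1`. -/
theorem gron_below (hG : Stmt_GRON) {α : ℝ} (hα : 0 < α) (hα' : α ≤ 2 / 3) (F : FS α)
    (a b : ℂ) {l : ℂ} {c : ℝ} (hc : 0 < c) (hl : 0 < l.re) (hcl : c * ‖l‖ ≤ l.re)
    {u v : ℝ} (hu : 0 ≤ u) (huv : u ≤ v) (hv : v ^ α ≤ l.im) :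
    PP F a b l v ≤ PP F a b l u * Real.exp (2 * (If α l v - If α l u) + 1 / c) := by
  have h := hG α hα hα' F a b l hl u v hu huv
  have hPP : 0 ≤ PP F a b l u := by unfold PP; positivity
  refine h.trans (mul_le_mul_of_nonneg_left (Real.exp_le_exp.2 ?_) hPP)
  have h1 : (∫ t in u..v, |(kf α l t).im|) = If α l v - If α l u := by
    rw [If_sub hα hl]
    refine intervalIntegral.integral_congr fun t ht => ?_
    rw [uIcc_of_le huv] at ht
    exact abs_of_nonneg (kf_im_nonneg hl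
      ((Real.rpow_le_rpow (hu.trans ht.1) ht.2 hα.le).trans hv))
  rw [h1]
  have h2 : v ^ α / l.re ≤ 1 / c := by
    rw [div_le_div_iff₀ hl hc]
    have : l.im ≤ ‖l‖ := (le_abs_self _).trans (Complex.abs_im_le_norm l)
    nlinarith
  linarith

/-- `‖y‖² ≤ PP / Re l`. -/
theorem y_sq_le {α : ℝ} (F : FS α) (a b : ℂ) {l : ℂ} (hl : 0 < l.re) (x : ℝ) :
    ‖F.y a b l x‖ ^ 2 ≤ PP F a b l x / l.re := by
  rw [le_div_iff₀ hl]
  unfold PP
  have h1 : l.re ≤ ‖l - I * ((x ^ α : ℝ) : ℂ)‖ := by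
    have := Complex.re_le_norm (l - I * ((x ^ α : ℝ) : ℂ))
    rwa [re_arg] at this
  have h2 : 0 ≤ ‖F.dy a b l x‖ ^ 2 := by positivity
  have h3 : 0 ≤ ‖F.y a b l x‖ ^ 2 := by positivity
  nlinarith


/-- `‖y'‖ ≤ (1+K) √‖l‖ ‖y‖`. -/
theorem dy_le {α : ℝ} (F : FS α) {a b l : ℂ} {x K : ℝ} (hx : 0 ≤ x) (hxi : x ^ α ≤ l.im)
    (hL : 1 ≤ ‖l‖) (hK : 0 ≤ K)
    (h : ‖F.dy a b l x - I * kf α l x * F.y a b l x‖ ≤ K / Real.sqrt ‖l‖ * ‖F.y a b l x‖) :
    ‖F.dy a b l x‖ ≤ (1 + K) * Real.sqrt ‖l‖ * ‖F.y a b l x‖ := by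
  have hs1 : 1 ≤ Real.sqrt ‖l‖ := by
    rw [show (1 : ℝ) = Real.sqrt 1 by simp]
    exact Real.sqrt_le_sqrt hL
  have hk : ‖kf α l x‖ ≤ Real.sqrt ‖l‖ := by
    rw [← Real.sqrt_sq (norm_nonneg (kf α l x)), norm_kf_sq]
    exact Real.sqrt_le_sqrt (norm_arg_le hx hxi)
  have h1 : ‖F.dy a b l x‖ ≤ ‖I * kf α l x * F.y a b l x‖ +
      K / Real.sqrt ‖l‖ * ‖F.y a b l x‖ := by
    calc ‖F.dy a b l x‖ = ‖I * kf α l x * F.y a b l x +
          (F.dy a b l x - I * kf α l x * F.y a b l x)‖ := by congr 1; ring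
      _ ≤ _ := (norm_add_le _ _).trans (by linarith)
  have h2 : ‖I * kf α l x * F.y a b l x‖ ≤ Real.sqrt ‖l‖ * ‖F.y a b l x‖ := by
    rw [norm_mul, norm_mul, Complex.norm_I, one_mul]
    exact mul_le_mul_of_nonneg_right hk (norm_nonneg _)
  have h3 : K / Real.sqrt ‖l‖ ≤ K * Real.sqrt ‖l‖ := by
    rw [div_le_iff₀ (by linarith)]
    nlinarith [mul_nonneg hK (by nlinarith : (0:ℝ) ≤ Real.sqrt ‖l‖ * Real.sqrt ‖l‖ - 1)]
  have h4 := mul_le_mul_of_nonneg_right h3 (norm_nonneg (F.y a b l x))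
  nlinarith [norm_nonneg (F.y a b l x)]

/-- WKB energy is controlled by `‖y‖²`. -/
theorem PP_le {α : ℝ} (F : FS α) {a b l : ℂ} {x K : ℝ} (hx : 0 ≤ x) (hxi : x ^ α ≤ l.im)
    (hL : 1 ≤ ‖l‖) (hK : 0 ≤ K)
    (h : ‖F.dy a b l x - I * kf α l x * F.y a b l x‖ ≤ K / Real.sqrt ‖l‖ * ‖F.y a b l x‖) :
    PP F a b l x ≤ ((1 + K) ^ 2 + 1) * ‖l‖ * ‖F.y a b l x‖ ^ 2 := by
  have h1 := dy_le F hx hxi hL hK h
  have h2 : ‖F.dy a b l x‖ ^ 2 ≤ (1 + K) ^ 2 * ‖l‖ * ‖F.y a b l x‖ ^ 2 := by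
    calc ‖F.dy a b l x‖ ^ 2 ≤ ((1 + K) * Real.sqrt ‖l‖ * ‖F.y a b l x‖) ^ 2 :=
          pow_le_pow_left₀ (norm_nonneg _) h1 2
      _ = (1 + K) ^ 2 * ‖l‖ * ‖F.y a b l x‖ ^ 2 := by
          rw [mul_pow, mul_pow, Real.sq_sqrt (norm_nonneg _)]
  unfold PP
  have h3 := mul_le_mul_of_nonneg_right (norm_arg_le hx hxi)
    (by positivity : 0 ≤ ‖F.y a b l x‖ ^ 2)
  nlinarith

/-- comparison of the boundary data. -/
theorem a_le_bdr {α : ℝ} (hα : 0 < α) (F : FS α) (s : Bool) {a b l : ℂ} {K : ℝ} (hK : 0 ≤ K)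
    (hL : (K + 1) ^ 2 ≤ ‖l‖)
    (h : ‖F.dy a b l (0 : ℝ) - I * kf α l 0 * F.y a b l (0 : ℝ)‖ ≤
      K / Real.sqrt ‖l‖ * ‖F.y a b l (0 : ℝ)‖) :
    ‖a‖ ≤ ‖bdr s a b‖ := by
  cases s with
  | true => simp [bdr]
  | false =>
    simp only [bdr, Bool.false_eq_true, if_false]
    simp only [ofReal_zero, FS.dy_zero, FS.y_zero] at h
    have hs : K + 1 ≤ Real.sqrt ‖l‖ := by
      rw [← Real.sqrt_sq (by linarith : 0 ≤ K + 1)]
      exact Real.sqrt_le_sqrt hL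
    have hk : ‖kf α l 0‖ = Real.sqrt ‖l‖ := by
      rw [← Real.sqrt_sq (norm_nonneg (kf α l 0)), norm_kf_sq]
      simp [Real.zero_rpow hα.ne']
    have h1 : Real.sqrt ‖l‖ * ‖a‖ ≤ ‖b‖ + K / Real.sqrt ‖l‖ * ‖a‖ := by
      calc Real.sqrt ‖l‖ * ‖a‖ = ‖I * kf α l 0 * a‖ := by
            rw [norm_mul, norm_mul, Complex.norm_I, one_mul, hk]
        _ = ‖b - (b - I * kf α l 0 * a)‖ := by congr 1; ring
        _ ≤ ‖b‖ + ‖b - I * kf α l 0 * a‖ := norm_sub_le _ _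
        _ ≤ _ := by linarith
    have h2 : K / Real.sqrt ‖l‖ ≤ K := div_le_self hK (by linarith)
    have h3 := mul_le_mul_of_nonneg_right h2 (norm_nonneg a)
    have h4 := mul_le_mul_of_nonneg_right hs (norm_nonneg a)
    nlinarith [norm_nonneg a]

/-- the difference of two normalised solutions. -/
theorem diff_formula {α : ℝ} (F : FS α) (s : Bool) {a b M l x : ℂ} (h1 : bdr s a b ≠ 0)
    (h2 : bdr s 1 M ≠ 0) :
    F.y a b l x / bdr s a b - F.y 1 M l x / bdr s 1 M =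
      (b - M * a) / (bdr s a b * bdr s 1 M) *
        F.y (if s then 0 else -1) (if s then 1 else 0) l x := by
  cases s with
  | true =>
    simp only [bdr, if_true] at *
    unfold FS.y
    field_simp
    ring
  | false =>
    simp only [bdr, Bool.false_eq_true, if_false] at *
    unfold FS.y
    field_simp
    ring

theorem x1_le {α : ℝ} (hα : 0 < α) {l : ℂ} (him : 0 < l.im) : x1 α l ≤ ‖l‖ ^ (1 / α) := by
  unfold x1
  exact Real.rpow_le_rpow him.le ((le_abs_self _).trans (Complex.abs_im_le_norm l))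
    (by positivity)

theorem x1_rpow {α : ℝ} (hα : 0 < α) {l : ℂ} (him : 0 < l.im) : x1 α l ^ α = l.im := by
  unfold x1
  rw [← Real.rpow_mul him.le, one_div, inv_mul_cancel₀ hα.ne', Real.rpow_one]

/-- `x_q`. -/
noncomputable def xq (α q : ℝ) (l : ℂ) : ℝ := (q * l.im) ^ (1 / α)

theorem xq_rpow {α q : ℝ} (hα : 0 < α) (hq : 0 < q) {l : ℂ} (him : 0 < l.im) :
    xq α q l ^ α = q * l.im := by
  unfold xq
  rw [← Real.rpow_mul (by positivity), one_div, inv_mul_cancel₀ hα.ne', Real.rpow_one]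

theorem xq_pos {α q : ℝ} (hq : 0 < q) {l : ℂ} (him : 0 < l.im) : 0 < xq α q l := by
  unfold xq
  positivity

theorem xq_eq {α q : ℝ} (hq : 0 < q) {l : ℂ} (him : 0 < l.im) :
    xq α q l = q ^ (1 / α) * x1 α l := by
  unfold xq x1
  exact Real.mul_rpow hq.le him.le

theorem xq_le_x1 {α q : ℝ} (hα : 0 < α) (hq : 0 < q) (hq1 : q < 1) {l : ℂ} (him : 0 < l.im) :
    xq α q l ≤ x1 α l := by
  unfold xq x1
  refine Real.rpow_le_rpow (by positivity) ?_ (by positivity)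
  nlinarith


theorem memLp_of_cont {g : ℝ → ℂ} (hg : ContinuousOn g (Ici 0)) {u v : ℝ} (hu : 0 ≤ u) :
    MemLp g 2 (volume.restrict (Ioc u v)) := by
  have hc : ContinuousOn g (Icc u v) := hg.mono fun x hx => hu.trans hx.1
  obtain ⟨C, hC⟩ := (isCompact_Icc.bddAbove_image hc.norm)
  have hm : AEStronglyMeasurable g (volume.restrict (Ioc u v)) :=
    (hc.mono Ioc_subset_Icc_self).aestronglyMeasurable measurableSet_Ioc
  refine MemLp.of_bound hm C ?_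
  filter_upwards [ae_restrict_mem measurableSet_Ioc] with x hx
  exact hC (mem_image_of_mem _ (Ioc_subset_Icc_self hx))

/-- sup bound for the `L^2` norm on a bounded interval. -/
theorem sqrt_int_le {g : ℝ → ℂ} (hg : ContinuousOn g (Ici 0)) {u v B X : ℝ} (hu : 0 ≤ u)
    (huv : u ≤ v) (hB : 0 ≤ B) (hvX : v ≤ X)
    (h : ∀ x, u < x → x ≤ v → ‖g x‖ ≤ B) :
    Real.sqrt (∫ x in Ioc u v, ‖g x‖ ^ 2) ≤ (1 + X) * B := by
  have h1 : ∫ x in Ioc u v, ‖g x‖ ^ 2 ≤ ∫ x in Ioc u v, B ^ 2 := by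
    refine setIntegral_mono_on ?_ ?_ measurableSet_Ioc ?_
    · exact (memLp_of_cont hg hu).integrable_norm_pow (by norm_num)
    · exact integrableOn_const (by simp)
    · intro x hx
      exact pow_le_pow_left₀ (norm_nonneg _) (h x hx.1 hx.2) 2
  have h2 : ∫ x in Ioc u v, B ^ 2 = (v - u) * B ^ 2 := by
    rw [setIntegral_const, Real.volume_real_Ioc_of_le huv, smul_eq_mul]
  have hX : 0 ≤ X := hu.trans (huv.trans hvX)
  have h3 : ∫ x in Ioc u v, ‖g x‖ ^ 2 ≤ ((1 + X) * B) ^ 2 := by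
    rw [h2] at h1
    refine h1.trans ?_
    rw [mul_pow]
    refine mul_le_mul_of_nonneg_right ?_ (by positivity)
    nlinarith
  calc Real.sqrt (∫ x in Ioc u v, ‖g x‖ ^ 2) ≤ Real.sqrt (((1 + X) * B) ^ 2) :=
        Real.sqrt_le_sqrt h3
    _ = (1 + X) * B := Real.sqrt_sq (by positivity)

/-- the decomposition of `D_x`. -/
theorem decomp {α : ℝ} (F : FS α) (Mp : ℂ → ℂ) (s : Bool) (f : ℝ → ℂ) (E : ℂ → ℂ)
    (hf : L2f f) (hE : IsE F s f E) {a b l : ℂ} (hY : IsY F a b l)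
    (hint : IntegrableOn (fun x : ℝ => ‖F.y a b l x‖ ^ 2) (Ioi 0))
    (h1 : bdr s a b ≠ 0) (h2 : bdr s 1 (Mp l) ≠ 0) {u v : ℝ} (hu : 0 ≤ u) (huv : u ≤ v) :
    Dx F Mp s f E l v = (∫ x in Ioi u, f x * F.y a b l x) / bdr s a b +
      (b - Mp l * a) / (bdr s a b * bdr s 1 (Mp l)) *
        (∫ x in Ioc 0 u, f x * F.y (if s then 0 else -1) (if s then 1 else 0) l x) -
      ∫ x in Ioc u v, f x * mP F Mp s l x := by
  have hYm : MemLp (fun x : ℝ => F.y a b l x) 2 (volume.restrict (Ioi 0)) := by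
    rw [memLp_two_iff_integrable_sq_norm]
    · exact hint
    · exact ((F.continuousOn_y a b l).mono Ioi_subset_Ici_self).aestronglyMeasurable
        measurableSet_Ioi
  have hfY : IntegrableOn (fun x : ℝ => f x * F.y a b l x) (Ioi 0) := hf.integrable_mul hYm
  have hcm : ContinuousOn (fun x : ℝ => mP F Mp s l x) (Ici 0) := by
    unfold mP
    exact (F.continuousOn_y 1 (Mp l) l).div_const _
  have hfm : ∀ p q : ℝ, 0 ≤ p → IntegrableOn (fun x : ℝ => f x * mP F Mp s l x) (Ioc p q) := by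
    intro p q hp
    exact (hf.mono (fun x hx => lt_of_le_of_lt hp hx.1)).integrable_mul (memLp_of_cont hcm hp)
  have e1 : E l = (∫ x in Ioi (0 : ℝ), f x * F.y a b l x) / bdr s a b := by
    rw [eq_div_iff h1]
    exact hE.2 l a b hY
  have e2 : ∫ x in Ioi (0 : ℝ), f x * F.y a b l x =
      (∫ x in Ioc 0 u, f x * F.y a b l x) + ∫ x in Ioi u, f x * F.y a b l x := by
    rw [← Ioc_union_Ioi_eq_Ioi hu]
    exact setIntegral_union (Ioc_disjoint_Ioi le_rfl) measurableSet_Ioi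
      (hfY.mono_set Ioc_subset_Ioi_self) (hfY.mono_set (Ioi_subset_Ioi hu))
  have e3 : ∫ t in (0 : ℝ)..v, f t * mP F Mp s l t =
      (∫ x in Ioc 0 u, f x * mP F Mp s l x) + ∫ x in Ioc u v, f x * mP F Mp s l x := by
    rw [intervalIntegral.integral_of_le (hu.trans huv), ← Ioc_union_Ioc_eq_Ioc hu huv]
    exact setIntegral_union (Set.Ioc_disjoint_Ioc_of_le le_rfl) measurableSet_Ioc
      (hfm 0 u le_rfl) (hfm u v hu)
  have e4 : (∫ x in Ioc 0 u, f x * F.y a b l x) / bdr s a b -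
      ∫ x in Ioc 0 u, f x * mP F Mp s l x =
      (b - Mp l * a) / (bdr s a b * bdr s 1 (Mp l)) *
        (∫ x in Ioc 0 u, f x * F.y (if s then 0 else -1) (if s then 1 else 0) l x) := by
    rw [← integral_div, ← integral_sub, ← integral_const_mul]
    · refine integral_congr_ae (Eventually.of_forall fun x => ?_)
      have := diff_formula F s (x := (x : ℂ)) (l := l) h1 h2
      simp only [mP]
      calc f x * F.y a b l x / bdr s a b - f x * (F.y 1 (Mp l) l x / bdr s 1 (Mp l))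
          = f x * (F.y a b l x / bdr s a b - F.y 1 (Mp l) l x / bdr s 1 (Mp l)) := by ring
        _ = _ := by rw [this]; ring
    · exact (hfY.mono_set Ioc_subset_Ioi_self).div_const _
    · exact hfm 0 u le_rfl
  unfold Dx
  rw [e1, e2, e3, ← e4]
  ring


/-- third term. -/
theorem T3 {α : ℝ} (hα : 0 < α) (F : FS α) (Mp : ℂ → ℂ) (s : Bool) (f : ℝ → ℂ)
    (hf : L2f f) {l : ℂ} {q B0 : ℝ} (hl : 0 < l.re) (him : 0 < l.im) (hq : 0 < q) (hq1 : q < 1)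
    (hmP : ∀ x : ℝ, 0 ≤ x → x ^ α ≤ 2 * ‖l‖ → ‖mP F Mp s l x‖ ≤ Real.exp (-If α l x + B0)) :
    ‖∫ x in Ioc (xq α q l) (x1 α l), f x * mP F Mp s l x‖ ≤
      Real.sqrt (∫ x in Ioi (0 : ℝ), ‖f x‖ ^ 2) *
        ((1 + x1 α l) * Real.exp (-If α l (xq α q l) + B0)) := by
  have hxq := xq_pos (α := α) hq him
  have hle := xq_le_x1 (α := α) hα hq hq1 him
  have hcm : ContinuousOn (fun x : ℝ => mP F Mp s l x) (Ici 0) := by
    unfold mP
    exact (F.continuousOn_y 1 (Mp l) l).div_const _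
  refine (hf.cs (fun x hx => hxq.trans hx.1) _ (memLp_of_cont hcm hxq.le)).trans ?_
  refine mul_le_mul_of_nonneg_left ?_ (Real.sqrt_nonneg _)
  refine sqrt_int_le hcm hxq.le hle (Real.exp_pos _).le le_rfl ?_
  intro x h1 h2
  have h3 : x ^ α ≤ l.im := by
    rw [← x1_rpow hα him]
    exact Real.rpow_le_rpow (hxq.le.trans h1.le) h2 hα.le
  have him2 : l.im ≤ ‖l‖ := (le_abs_self _).trans (Complex.abs_im_le_norm l)
  refine (hmP x (hxq.le.trans h1.le) (by linarith [norm_nonneg l])).trans ?_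
  apply Real.exp_le_exp.2
  have := If_mono hα hl hxq.le h1.le h3
  linarith

theorem If_zero (α : ℝ) (l : ℂ) : If α l 0 = 0 := by simp [If]

/-- second term: the solution `y_s`. -/
theorem T2a (hG : Stmt_GRON) {α : ℝ} (hα : 0 < α) (hα' : α ≤ 2 / 3) (F : FS α) (s : Bool)
    (f : ℝ → ℂ) (hf : L2f f) {l : ℂ} {c q : ℝ} (hc : 0 < c) (hl : 0 < l.re)
    (hcl : c * ‖l‖ ≤ l.re) (hL : 1 ≤ ‖l‖) (him : 0 < l.im) (hq : 0 < q) (hq1 : q < 1) :
    ‖∫ x in Ioc 0 (xq α q l), f x * F.y (if s then 0 else -1) (if s then 1 else 0) l x‖ ≤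
      Real.sqrt (∫ x in Ioi (0 : ℝ), ‖f x‖ ^ 2) *
        ((1 + x1 α l) * ((1 + 1 / c) * Real.exp (If α l (xq α q l) + 1 / (2 * c)))) := by
  have hxq := xq_pos (α := α) hq him
  have hle := xq_le_x1 (α := α) hα hq hq1 him
  have hcm := F.continuousOn_y (if s then 0 else -1) (if s then 1 else 0) l
  refine (hf.cs (fun x hx => hx.1) _ (memLp_of_cont hcm le_rfl)).trans ?_
  refine mul_le_mul_of_nonneg_left ?_ (Real.sqrt_nonneg _)
  refine sqrt_int_le hcm le_rfl hxq.le (by positivity) hle ?_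
  intro x h1 h2
  have hxq2 : xq α q l ^ α ≤ l.im := by
    rw [xq_rpow hα hq him]; nlinarith
  have h3 : x ^ α ≤ l.im := (Real.rpow_le_rpow h1.le h2 hα.le).trans hxq2
  have h4 := gron_below hG hα hα' F (if s then 0 else -1) (if s then 1 else 0) hc hl hcl
    le_rfl h1.le h3
  have h5 := y_sq_le F (if s then 0 else -1) (if s then 1 else 0) hl x
  have h6 : PP F (if s then 0 else -1) (if s then 1 else 0) l 0 ≤ ‖l‖ := by
    unfold PP
    cases s <;> simp [Real.zero_rpow hα.ne', hL]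
  have h7 := If_mono hα hl h1.le h2 hxq2
  rw [If_zero] at h4
  have h8 : PP F (if s then 0 else -1) (if s then 1 else 0) l x ≤
      ‖l‖ * Real.exp (2 * If α l (xq α q l) + 1 / c) := by
    refine h4.trans (mul_le_mul h6 (Real.exp_le_exp.2 (by linarith)) (Real.exp_pos _).le
      (norm_nonneg _))
  have h9 : ‖F.y (if s then 0 else -1) (if s then 1 else 0) l x‖ ^ 2 ≤
      ((1 + 1 / c) * Real.exp (If α l (xq α q l) + 1 / (2 * c))) ^ 2 := by
    refine h5.trans ?_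
    rw [div_le_iff₀ hl]
    refine h8.trans ?_
    have e1 : ((1 + 1 / c) * Real.exp (If α l (xq α q l) + 1 / (2 * c))) ^ 2 =
        (1 + 1 / c) ^ 2 * Real.exp (2 * If α l (xq α q l) + 1 / c) := by
      rw [mul_pow, ← Real.exp_nat_mul]
      congr 2
      push_cast
      field_simp
    rw [e1]
    have e2 : 1 ≤ (1 + 1 / c) ^ 2 * c := by
      have : (1 + 1 / c) ^ 2 * c = c + 2 + 1 / c := by field_simp; ring
      rw [this]
      have : 0 < 1 / c := by positivity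
      linarith
    have e3 : ‖l‖ ≤ (1 + 1 / c) ^ 2 * l.re := by
      calc ‖l‖ = 1 * ‖l‖ := (one_mul _).symm
        _ ≤ ((1 + 1 / c) ^ 2 * c) * ‖l‖ := mul_le_mul_of_nonneg_right e2 (norm_nonneg _)
        _ = (1 + 1 / c) ^ 2 * (c * ‖l‖) := by ring
        _ ≤ _ := mul_le_mul_of_nonneg_left hcl (by positivity)
    calc ‖l‖ * Real.exp (2 * If α l (xq α q l) + 1 / c)
        ≤ ((1 + 1 / c) ^ 2 * l.re) * Real.exp (2 * If α l (xq α q l) + 1 / c) :=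
          mul_le_mul_of_nonneg_right e3 (Real.exp_pos _).le
      _ = _ := by ring
  exact (abs_le_of_sq_le_sq' h9 (by positivity)).2

/-- second term: the coefficient. -/
theorem T2b {α : ℝ} (hα : 0 < α) (F : FS α) (s : Bool) {a b M l : ℂ} {q K B0 : ℝ}
    (hK : 0 ≤ K) (hL : (K + 1) ^ 2 ≤ ‖l‖) (him : 0 < l.im) (hq : 0 < q) (hq1 : q < 1)
    (hX0 : ‖F.dy 1 M l (0 : ℝ) - I * kf α l 0 * F.y 1 M l (0 : ℝ)‖ ≤
      K / Real.sqrt ‖l‖ * ‖F.y 1 M l (0 : ℝ)‖)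
    (hY0 : ‖F.dy a b l (0 : ℝ) - I * kf α l 0 * F.y a b l (0 : ℝ)‖ ≤
      K / Real.sqrt ‖l‖ * ‖F.y a b l (0 : ℝ)‖)
    (hXq : ‖F.dy 1 M l (xq α q l) - I * kf α l (xq α q l) * F.y 1 M l (xq α q l)‖ ≤
      K / Real.sqrt ‖l‖ * ‖F.y 1 M l (xq α q l)‖)
    (hYq : ‖F.dy a b l (xq α q l) - I * kf α l (xq α q l) * F.y a b l (xq α q l)‖ ≤
      K / Real.sqrt ‖l‖ * ‖F.y a b l (xq α q l)‖)
    (hXl : ‖F.y 1 M l (xq α q l)‖ ≤ Real.exp (-If α l (xq α q l) + B0))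
    (hYl : ‖F.y a b l (xq α q l)‖ ≤ ‖a‖ * Real.exp (-If α l (xq α q l) + B0))
    (h1 : bdr s a b ≠ 0) :
    ‖(b - M * a) / (bdr s a b * bdr s 1 M)‖ ≤
      2 * (1 + K) * Real.sqrt ‖l‖ * Real.exp (2 * (-If α l (xq α q l) + B0)) := by
  have hL1 : 1 ≤ ‖l‖ := by nlinarith
  have hxq := xq_pos (α := α) hq him
  have hxq2 : xq α q l ^ α ≤ l.im := by
    rw [xq_rpow hα hq him]; nlinarith
  have e1 := dy_le F hxq.le hxq2 hL1 hK hXq
  have e2 := dy_le F hxq.le hxq2 hL1 hK hYq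
  have e3 : ‖(1 : ℂ)‖ ≤ ‖bdr s 1 M‖ := a_le_bdr hα F s hK hL hX0
  have e4 : ‖a‖ ≤ ‖bdr s a b‖ := a_le_bdr hα F s hK hL hY0
  rw [norm_one] at e3
  have hW : ‖b - M * a‖ ≤ 2 * (1 + K) * Real.sqrt ‖l‖ *
      (‖F.y 1 M l (xq α q l)‖ * ‖F.y a b l (xq α q l)‖) := by
    have hw := F.wronskian 1 M a b l (xq α q l) (ofReal_mem_Dom hxq.le)
    rw [one_mul] at hw
    rw [← hw]
    calc _ ≤ ‖F.y 1 M l (xq α q l) * F.dy a b l (xq α q l)‖ +
          ‖F.dy 1 M l (xq α q l) * F.y a b l (xq α q l)‖ := norm_sub_le _ _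
      _ = ‖F.y 1 M l (xq α q l)‖ * ‖F.dy a b l (xq α q l)‖ +
          ‖F.dy 1 M l (xq α q l)‖ * ‖F.y a b l (xq α q l)‖ := by rw [norm_mul, norm_mul]
      _ ≤ ‖F.y 1 M l (xq α q l)‖ * ((1 + K) * Real.sqrt ‖l‖ * ‖F.y a b l (xq α q l)‖) +
          ((1 + K) * Real.sqrt ‖l‖ * ‖F.y 1 M l (xq α q l)‖) * ‖F.y a b l (xq α q l)‖ := by
          gcongr
      _ = _ := by ring
  have hXY : ‖F.y 1 M l (xq α q l)‖ * ‖F.y a b l (xq α q l)‖ ≤
      ‖a‖ * Real.exp (2 * (-If α l (xq α q l) + B0)) := by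
    calc _ ≤ Real.exp (-If α l (xq α q l) + B0) *
          (‖a‖ * Real.exp (-If α l (xq α q l) + B0)) := by gcongr
      _ = ‖a‖ * (Real.exp (-If α l (xq α q l) + B0) * Real.exp (-If α l (xq α q l) + B0)) := by
          ring
      _ = _ := by rw [← Real.exp_add, ← two_mul]
  have hbp : 0 < ‖bdr s a b‖ := norm_pos_iff.2 h1
  rw [norm_div, norm_mul, div_le_iff₀ (by nlinarith)]
  have hC : 0 ≤ 2 * (1 + K) * Real.sqrt ‖l‖ := by positivity
  calc ‖b - M * a‖ ≤ 2 * (1 + K) * Real.sqrt ‖l‖ *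
        (‖a‖ * Real.exp (2 * (-If α l (xq α q l) + B0))) :=
        hW.trans (mul_le_mul_of_nonneg_left hXY hC)
    _ = 2 * (1 + K) * Real.sqrt ‖l‖ * Real.exp (2 * (-If α l (xq α q l) + B0)) * ‖a‖ := by ring
    _ ≤ 2 * (1 + K) * Real.sqrt ‖l‖ * Real.exp (2 * (-If α l (xq α q l) + B0)) *
        (‖bdr s a b‖ * ‖bdr s 1 M‖) := by
        refine mul_le_mul_of_nonneg_left ?_ (by positivity)
        nlinarith


/-- first term. -/
theorem T1 (hG : Stmt_GRON) {α : ℝ} (hα : 0 < α) (hα' : α ≤ 2 / 3) (F : FS α) (s : Bool)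
    (f : ℝ → ℂ) (hf : L2f f) {a b l : ℂ} {c q K B0 B1 : ℝ} (hc : 0 < c) (hl : 0 < l.re)
    (hcl : c * ‖l‖ ≤ l.re) (hK : 0 ≤ K) (hL : (K + 1) ^ 2 ≤ ‖l‖) (him : 0 < l.im)
    (hq : 0 < q) (hq1 : q < 1)
    (hint : IntegrableOn (fun x : ℝ => ‖F.y a b l x‖ ^ 2) (Ioi 0))
    (hY0 : ‖F.dy a b l (0 : ℝ) - I * kf α l 0 * F.y a b l (0 : ℝ)‖ ≤
      K / Real.sqrt ‖l‖ * ‖F.y a b l (0 : ℝ)‖)
    (hYq : ‖F.dy a b l (xq α q l) - I * kf α l (xq α q l) * F.y a b l (xq α q l)‖ ≤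
      K / Real.sqrt ‖l‖ * ‖F.y a b l (xq α q l)‖)
    (hYl : ‖F.y a b l (xq α q l)‖ ≤ ‖a‖ * Real.exp (-If α l (xq α q l) + B0))
    (hT : ∫ x in Ioi (x1 α l), ‖F.y a b l x‖ ^ 2 ≤ Real.exp B1 * PP F a b l (x1 α l))
    (h1 : bdr s a b ≠ 0) :
    ‖(∫ x in Ioi (xq α q l), f x * F.y a b l x) / bdr s a b‖ ≤
      Real.sqrt (∫ x in Ioi (0 : ℝ), ‖f x‖ ^ 2) *
        (((1 + K) ^ 2 + 2) * (1 + x1 α l / c + ‖l‖ * Real.exp B1) *
          Real.exp (-If α l (xq α q l) + B0 + (Tf α l - If α l (xq α q l)) + 1 / (2 * c))) := by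
  have hL1 : 1 ≤ ‖l‖ := by nlinarith
  have hxq := xq_pos (α := α) hq him
  have hle := xq_le_x1 (α := α) hα hq hq1 him
  have hx1 : 0 < x1 α l := hxq.trans_le hle
  have hxq2 : xq α q l ^ α ≤ l.im := by
    rw [xq_rpow hα hq him]; nlinarith
  have hx12 : x1 α l ^ α ≤ l.im := (x1_rpow hα him).le
  have e4 : ‖a‖ ≤ ‖bdr s a b‖ := a_le_bdr hα F s hK hL hY0
  have hbp : 0 < ‖bdr s a b‖ := norm_pos_iff.2 h1
  set Iq := If α l (xq α q l) with hIq
  set C1 : ℝ := (1 + K) ^ 2 + 1 with hC1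
  have hC1p : 1 ≤ C1 := by rw [hC1]; nlinarith
  -- the WKB energy at `x_q`
  have hPq : PP F a b l (xq α q l) ≤ C1 * ‖l‖ * (‖a‖ ^ 2 * Real.exp (2 * (-Iq + B0))) := by
    refine (PP_le F hxq.le hxq2 hL1 hK hYq).trans ?_
    refine mul_le_mul_of_nonneg_left ?_ (by positivity)
    calc ‖F.y a b l (xq α q l)‖ ^ 2 ≤ (‖a‖ * Real.exp (-Iq + B0)) ^ 2 :=
          pow_le_pow_left₀ (norm_nonneg _) hYl 2
      _ = _ := by
          rw [mul_pow, ← Real.exp_nat_mul]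
          norm_num
  -- growth up to `x_1`
  have hgr : ∀ x, xq α q l ≤ x → x ≤ x1 α l → PP F a b l x ≤
      C1 * ‖l‖ * (‖a‖ ^ 2 * Real.exp (2 * (-Iq + B0))) *
        Real.exp (2 * (Tf α l - Iq) + 1 / c) := by
    intro x h2 h3
    have hxi : x ^ α ≤ l.im :=
      (Real.rpow_le_rpow (hxq.le.trans h2) h3 hα.le).trans hx12
    have h4 := gron_below hG hα hα' F a b hc hl hcl hxq.le h2 hxi
    have h5 : If α l x ≤ Tf α l := If_mono hα hl (hxq.le.trans h2) h3 hx12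
    have hPPx : 0 ≤ PP F a b l (xq α q l) := by unfold PP; positivity
    refine h4.trans (mul_le_mul hPq (Real.exp_le_exp.2 (by linarith)) (Real.exp_pos _).le
      (by positivity))
  have hYm : MemLp (fun x : ℝ => F.y a b l x) 2 (volume.restrict (Ioi 0)) := by
    rw [memLp_two_iff_integrable_sq_norm]
    · exact hint
    · exact ((F.continuousOn_y a b l).mono Ioi_subset_Ici_self).aestronglyMeasurable
        measurableSet_Ioi
  have hss : Ioi (xq α q l) ⊆ Ioi (0 : ℝ) := Ioi_subset_Ioi hxq.le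
  have hcs := hf.cs hss (fun x : ℝ => F.y a b l x)
    (MemLp.mono_measure (Measure.restrict_mono hss le_rfl) hYm)
  set W : ℝ := C1 * (‖a‖ ^ 2 * Real.exp (2 * (-Iq + B0))) *
        Real.exp (2 * (Tf α l - Iq) + 1 / c) with hW
  have hWp : 0 ≤ W := by rw [hW]; positivity
  have hI1 : ∫ x in Ioc (xq α q l) (x1 α l), ‖F.y a b l x‖ ^ 2 ≤ x1 α l / c * W := by
    have h2 : ∫ x in Ioc (xq α q l) (x1 α l), ‖F.y a b l x‖ ^ 2 ≤
        ∫ x in Ioc (xq α q l) (x1 α l), W / c := by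
      refine setIntegral_mono_on ?_ (integrableOn_const (by simp)) measurableSet_Ioc ?_
      · exact hint.mono_set (fun x hx => hxq.trans hx.1)
      · intro x hx
        refine (y_sq_le F a b hl x).trans ?_
        have h3 := hgr x hx.1.le hx.2
        rw [div_le_div_iff₀ hl hc]
        calc PP F a b l x * c ≤ (C1 * ‖l‖ * (‖a‖ ^ 2 * Real.exp (2 * (-Iq + B0))) *
              Real.exp (2 * (Tf α l - Iq) + 1 / c)) * c :=
              mul_le_mul_of_nonneg_right h3 hc.le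
          _ = W * (c * ‖l‖) := by rw [hW]; ring
          _ ≤ W * l.re := mul_le_mul_of_nonneg_left hcl hWp
    refine h2.trans ?_
    rw [setIntegral_const, Real.volume_real_Ioc_of_le hle, smul_eq_mul]
    calc (x1 α l - xq α q l) * (W / c) ≤ x1 α l * (W / c) :=
          mul_le_mul_of_nonneg_right (by linarith) (by positivity)
      _ = _ := by ring
  have hI2 : ∫ x in Ioi (x1 α l), ‖F.y a b l x‖ ^ 2 ≤ ‖l‖ * Real.exp B1 * W := by
    refine hT.trans ?_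
    calc Real.exp B1 * PP F a b l (x1 α l) ≤ Real.exp B1 *
          (C1 * ‖l‖ * (‖a‖ ^ 2 * Real.exp (2 * (-Iq + B0))) *
        Real.exp (2 * (Tf α l - Iq) + 1 / c)) :=
          mul_le_mul_of_nonneg_left (hgr _ hle le_rfl) (Real.exp_pos _).le
      _ = _ := by rw [hW]; ring
  have hI : ∫ x in Ioi (xq α q l), ‖F.y a b l x‖ ^ 2 ≤
      (x1 α l / c + ‖l‖ * Real.exp B1) * W := by
    rw [← Ioc_union_Ioi_eq_Ioi hle, setIntegral_union (Ioc_disjoint_Ioi le_rfl)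
      measurableSet_Ioi (hint.mono_set (fun x hx => hxq.trans hx.1))
      (hint.mono_set (Ioi_subset_Ioi hx1.le))]
    linarith
  -- square root
  set Z : ℝ := x1 α l / c + ‖l‖ * Real.exp B1 with hZ
  have hZp : 0 ≤ Z := by rw [hZ]; positivity
  have hsq : Real.sqrt (∫ x in Ioi (xq α q l), ‖F.y a b l x‖ ^ 2) ≤
      (1 + Z) * (C1 * (‖a‖ * Real.exp (-Iq + B0 + (Tf α l - Iq) + 1 / (2 * c)))) := by
    refine Real.sqrt_le_iff.2 ⟨by positivity, hI.trans ?_⟩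
    have e1 : (‖a‖ * Real.exp (-Iq + B0 + (Tf α l - Iq) + 1 / (2 * c))) ^ 2 =
        ‖a‖ ^ 2 * Real.exp (2 * (-Iq + B0)) * Real.exp (2 * (Tf α l - Iq) + 1 / c) := by
      rw [mul_pow, ← Real.exp_nat_mul, mul_assoc, ← Real.exp_add]
      congr 2
      push_cast
      field_simp
      ring
    calc Z * W ≤ (1 + Z) ^ 2 * (C1 ^ 2 *
          (‖a‖ * Real.exp (-Iq + B0 + (Tf α l - Iq) + 1 / (2 * c))) ^ 2) := by
          rw [e1, hW]
          have g1 : Z ≤ (1 + Z) ^ 2 := by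
            have e : (1 + Z) ^ 2 = 1 + 2 * Z + Z ^ 2 := by ring
            rw [e]
            have : 0 ≤ Z ^ 2 := sq_nonneg Z
            linarith
          have g2 : C1 ≤ C1 ^ 2 := le_self_pow₀ hC1p (by norm_num)
          have g3 : 0 ≤ ‖a‖ ^ 2 * Real.exp (2 * (-Iq + B0)) *
            Real.exp (2 * (Tf α l - Iq) + 1 / c) := by positivity
          calc Z * (C1 * (‖a‖ ^ 2 * Real.exp (2 * (-Iq + B0))) *
                Real.exp (2 * (Tf α l - Iq) + 1 / c)) = Z * (C1 * (‖a‖ ^ 2 *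
                Real.exp (2 * (-Iq + B0)) * Real.exp (2 * (Tf α l - Iq) + 1 / c))) := by ring
            _ ≤ (1 + Z) ^ 2 * (C1 ^ 2 * (‖a‖ ^ 2 *
                Real.exp (2 * (-Iq + B0)) * Real.exp (2 * (Tf α l - Iq) + 1 / c))) := by
                gcongr
      _ = _ := by ring
  rw [norm_div, div_le_iff₀ hbp]
  refine hcs.trans ?_
  have hN := Real.sqrt_nonneg (∫ x in Ioi (0 : ℝ), ‖f x‖ ^ 2)
  calc Real.sqrt (∫ x in Ioi (0 : ℝ), ‖f x‖ ^ 2) *
        Real.sqrt (∫ x in Ioi (xq α q l), ‖F.y a b l x‖ ^ 2)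
      ≤ Real.sqrt (∫ x in Ioi (0 : ℝ), ‖f x‖ ^ 2) *
        ((1 + Z) * (C1 * (‖bdr s a b‖ *
          Real.exp (-Iq + B0 + (Tf α l - Iq) + 1 / (2 * c))))) := by
        refine mul_le_mul_of_nonneg_left (hsq.trans ?_) hN
        gcongr
    _ ≤ _ := by
        have g : C1 ≤ (1 + K) ^ 2 + 2 := by rw [hC1]; linarith
        have g4 : (1 + x1 α l / c + ‖l‖ * Real.exp B1) = 1 + Z := by rw [hZ]; ring
        rw [g4]
        calc Real.sqrt (∫ x in Ioi (0 : ℝ), ‖f x‖ ^ 2) *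
            ((1 + Z) * (C1 * (‖bdr s a b‖ *
              Real.exp (-Iq + B0 + (Tf α l - Iq) + 1 / (2 * c))))) =
            Real.sqrt (∫ x in Ioi (0 : ℝ), ‖f x‖ ^ 2) * (C1 * (1 + Z) *
              Real.exp (-Iq + B0 + (Tf α l - Iq) + 1 / (2 * c))) * ‖bdr s a b‖ := by ring
          _ ≤ _ := by gcongr


/-- polynomial factors and `exp(K L^{ρ-1})` are absorbed by `exp(ε L^ρ)`. -/
theorem asym {A m K ε ρ : ℝ} (hA : 0 < A) (hm : 0 ≤ m) (_hK : 0 ≤ K) (hε : 0 < ε) (hρ : 2 ≤ ρ) :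
    ∃ R : ℝ, 1 ≤ R ∧ ∀ L : ℝ, R ≤ L →
      A * L ^ m * Real.exp (K * L ^ (ρ - 1)) ≤ Real.exp (ε * L ^ ρ) := by
  refine ⟨max 1 (max (3 * K / ε) (max (3 * m / ε) (3 * |Real.log A| / ε))), le_max_left _ _, ?_⟩
  intro L hL
  have h1 : 1 ≤ L := (le_max_left _ _).trans hL
  have h2 : 3 * K / ε ≤ L := ((le_max_left _ _).trans (le_max_right _ _)).trans hL
  have h3 : 3 * m / ε ≤ L :=
    (((le_max_left _ _).trans (le_max_right _ _)).trans (le_max_right _ _)).trans hL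
  have h4 : 3 * |Real.log A| / ε ≤ L :=
    (((le_max_right _ _).trans (le_max_right _ _)).trans (le_max_right _ _)).trans hL
  rw [div_le_iff₀ hε] at h2 h3 h4
  have hL0 : 0 < L := by linarith
  have e1 : L ^ ρ = L * L ^ (ρ - 1) := by
    rw [Real.rpow_sub_one hL0.ne']
    field_simp
  have e2 : L ≤ L ^ (ρ - 1) := by
    calc L = L ^ (1 : ℝ) := (Real.rpow_one L).symm
      _ ≤ _ := Real.rpow_le_rpow_of_exponent_le h1 (by linarith)
  have hp : 0 < L ^ (ρ - 1) := Real.rpow_pos_of_pos hL0 _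
  have g1 : K * L ^ (ρ - 1) ≤ ε / 3 * L ^ ρ := by
    rw [e1]
    have : K ≤ ε / 3 * L := by linarith
    calc K * L ^ (ρ - 1) ≤ (ε / 3 * L) * L ^ (ρ - 1) := mul_le_mul_of_nonneg_right this hp.le
      _ = _ := by ring
  have g2 : m * Real.log L ≤ ε / 3 * L ^ ρ := by
    have q1 : Real.log L ≤ L := by
      have := Real.log_le_sub_one_of_pos hL0
      linarith
    have q2 : m ≤ ε / 3 * L := by linarith
    calc m * Real.log L ≤ m * L := mul_le_mul_of_nonneg_left q1 hm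
      _ ≤ (ε / 3 * L) * L ^ (ρ - 1) := mul_le_mul q2 e2 hL0.le (by positivity)
      _ = ε / 3 * L ^ ρ := by rw [e1]; ring
  have g3 : Real.log A ≤ ε / 3 * L ^ ρ := by
    have q1 : Real.log A ≤ ε / 3 * L := (le_abs_self _).trans (by linarith)
    have q2 : L ≤ L ^ ρ := by
      rw [e1]; nlinarith
    calc Real.log A ≤ ε / 3 * L := q1
      _ ≤ _ := mul_le_mul_of_nonneg_left q2 (by positivity)
  have e3 : A * L ^ m * Real.exp (K * L ^ (ρ - 1)) =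
      Real.exp (Real.log A + m * Real.log L + K * L ^ (ρ - 1)) := by
    rw [Real.exp_add, Real.exp_add, Real.exp_log hA, mul_comm m (Real.log L),
      ← Real.rpow_def_of_pos hL0]
  rw [e3]
  apply Real.exp_le_exp.2
  linarith

theorem rho_ge {α : ℝ} (hα : 0 < α) (hα' : α ≤ 2 / 3) : 2 ≤ rho α := by
  unfold rho
  have : (3 : ℝ) / 2 ≤ 1 / α := by
    rw [le_div_iff₀ hα]
    linarith
  linarith

set_option maxHeartbeats 2000000 in
/-- the combined estimate. -/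
theorem main_est (hG : Stmt_GRON) {α : ℝ} (hα : 0 < α) (hα' : α ≤ 2 / 3) (F : FS α) (Mp : ℂ → ℂ)
    (s : Bool) (f : ℝ → ℂ) (E : ℂ → ℂ) (hf : L2f f) (hE : IsE F s f E)
    {a b l : ℂ} {c q K B0 B1 : ℝ} (hc : 0 < c) (hl : 0 < l.re)
    (hcl : c * ‖l‖ ≤ l.re) (hK : 0 ≤ K) (hL : (K + 1) ^ 2 ≤ ‖l‖) (him : 0 < l.im)
    (hq : 0 < q) (hq1 : q < 1) (hB0 : 0 ≤ B0) (hB1 : 0 ≤ B1) (hY : IsY F a b l)
    (hint : IntegrableOn (fun x : ℝ => ‖F.y a b l x‖ ^ 2) (Ioi 0))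
    (hX0 : ‖F.dy 1 (Mp l) l (0 : ℝ) - I * kf α l 0 * F.y 1 (Mp l) l (0 : ℝ)‖ ≤
      K / Real.sqrt ‖l‖ * ‖F.y 1 (Mp l) l (0 : ℝ)‖)
    (hY0 : ‖F.dy a b l (0 : ℝ) - I * kf α l 0 * F.y a b l (0 : ℝ)‖ ≤
      K / Real.sqrt ‖l‖ * ‖F.y a b l (0 : ℝ)‖)
    (hXq : ‖F.dy 1 (Mp l) l (xq α q l) - I * kf α l (xq α q l) * F.y 1 (Mp l) l (xq α q l)‖ ≤
      K / Real.sqrt ‖l‖ * ‖F.y 1 (Mp l) l (xq α q l)‖)
    (hYq : ‖F.dy a b l (xq α q l) - I * kf α l (xq α q l) * F.y a b l (xq α q l)‖ ≤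
      K / Real.sqrt ‖l‖ * ‖F.y a b l (xq α q l)‖)
    (hXl : ‖F.y 1 (Mp l) l (xq α q l)‖ ≤ Real.exp (-If α l (xq α q l) + B0))
    (hYl : ‖F.y a b l (xq α q l)‖ ≤ ‖a‖ * Real.exp (-If α l (xq α q l) + B0))
    (hmP : ∀ x : ℝ, 0 ≤ x → x ^ α ≤ 2 * ‖l‖ → ‖mP F Mp s l x‖ ≤ Real.exp (-If α l x + B0))
    (hT : ∫ x in Ioi (x1 α l), ‖F.y a b l x‖ ^ 2 ≤ Real.exp B1 * PP F a b l (x1 α l))
    (h1 : bdr s a b ≠ 0) (h2 : bdr s 1 (Mp l) ≠ 0) :
    ‖Dx F Mp s f E l (x1 α l)‖ ≤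
      Real.sqrt (∫ x in Ioi (0 : ℝ), ‖f x‖ ^ 2) *
        ((((1 + K) ^ 2 + 2) * (2 + 1 / c) + 4 * (1 + K) * (1 + 1 / c) + 2) *
          Real.exp (1 / (2 * c))) * ‖l‖ ^ (1 + 1 / α) *
        Real.exp (-If α l (xq α q l) + 2 * B0 + (Tf α l - If α l (xq α q l)) + B1) := by
  have hL1 : 1 ≤ ‖l‖ := by nlinarith
  have hL0 : 0 < ‖l‖ := by linarith
  have hxq := xq_pos (α := α) hq him
  have hle := xq_le_x1 (α := α) hα hq hq1 him
  have hx1 : 0 < x1 α l := hxq.trans_le hle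
  have hx12 : x1 α l ^ α ≤ l.im := (x1_rpow hα him).le
  have he1 : 0 ≤ Tf α l - If α l (xq α q l) := by
    have := If_mono hα hl hxq.le hle hx12
    unfold Tf
    linarith
  have hT1 := T1 hG hα hα' F s f hf hc hl hcl hK hL him hq hq1 hint hY0 hYq hYl hT h1
  have hT2a := T2a hG hα hα' F s f hf hc hl hcl hL1 him hq hq1
  have hT2b := T2b hα F s (a := a) (b := b) hK hL him hq hq1 hX0 hY0 hXq hYq hXl hYl h1
  have hT3 := T3 hα F Mp s f hf hl him hq hq1 hmP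
  have hdec := decomp F Mp s f E hf hE hY hint h1 h2 hxq.le hle
  set N := Real.sqrt (∫ x in Ioi (0 : ℝ), ‖f x‖ ^ 2) with hN
  have hN0 : 0 ≤ N := Real.sqrt_nonneg _
  set Iq := If α l (xq α q l) with hIq
  set e1 := Tf α l - Iq with he1d
  have hm : ‖l‖ ^ (1 + 1 / α) = ‖l‖ * ‖l‖ ^ (1 / α) := by
    rw [Real.rpow_add hL0, Real.rpow_one]
  have hpow1 : 1 ≤ ‖l‖ ^ (1 / α) := Real.one_le_rpow hL1 (by positivity)
  have hx1L := x1_le hα him
  have hsqL : Real.sqrt ‖l‖ ≤ ‖l‖ := by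
    rw [Real.sqrt_le_left (by linarith)]
    nlinarith
  have hc1 : 0 < 1 / c := by positivity
  set P := ‖l‖ ^ (1 + 1 / α) with hP
  have hP1 : 1 ≤ P := Real.one_le_rpow hL1 (by positivity)
  have hPx : x1 α l ≤ P := by
    rw [hm]; nlinarith
  have hPL : ‖l‖ ≤ P := by
    rw [hm]; nlinarith
  have hPxL : Real.sqrt ‖l‖ * (1 + x1 α l) ≤ 2 * P := by
    rw [hm]
    calc Real.sqrt ‖l‖ * (1 + x1 α l) ≤ ‖l‖ * (2 * ‖l‖ ^ (1 / α)) :=
          mul_le_mul hsqL (by linarith) (by positivity) hL0.le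
      _ = _ := by ring
  set M0 := Real.exp (-Iq + 2 * B0 + e1 + B1) with hM0
  have hM0p : 0 < M0 := Real.exp_pos _
  set ec := Real.exp (1 / (2 * c)) with hec
  have hec1 : 1 ≤ ec := Real.one_le_exp (by positivity)
  -- T1
  have b1 : ‖(∫ x in Ioi (xq α q l), f x * F.y a b l x) / bdr s a b‖ ≤
      N * (((1 + K) ^ 2 + 2) * (2 + 1 / c) * ec) * P * M0 := by
    refine hT1.trans ?_
    have hexp1 : 1 ≤ Real.exp B1 := Real.one_le_exp hB1
    have k1 : 1 + x1 α l / c + ‖l‖ * Real.exp B1 ≤ (2 + 1 / c) * P * Real.exp B1 := by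
      have k2 : x1 α l / c ≤ 1 / c * P * Real.exp B1 := by
        calc x1 α l / c = 1 / c * x1 α l * 1 := by ring
          _ ≤ 1 / c * P * Real.exp B1 := by gcongr
      have k3 : 1 ≤ P * Real.exp B1 := by nlinarith
      have k4 : ‖l‖ * Real.exp B1 ≤ P * Real.exp B1 := by gcongr
      calc 1 + x1 α l / c + ‖l‖ * Real.exp B1 ≤ P * Real.exp B1 + 1 / c * P * Real.exp B1 +
            P * Real.exp B1 := by linarith
        _ = _ := by ring
    have k5 : Real.exp B1 * Real.exp (-Iq + B0 + e1 + 1 / (2 * c)) ≤ ec * M0 := by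
      rw [hec, hM0, ← Real.exp_add, ← Real.exp_add]
      apply Real.exp_le_exp.2
      linarith
    calc N * (((1 + K) ^ 2 + 2) * (1 + x1 α l / c + ‖l‖ * Real.exp B1) *
          Real.exp (-Iq + B0 + e1 + 1 / (2 * c))) ≤
        N * (((1 + K) ^ 2 + 2) * ((2 + 1 / c) * P * Real.exp B1) *
          Real.exp (-Iq + B0 + e1 + 1 / (2 * c))) := by gcongr
      _ = N * ((1 + K) ^ 2 + 2) * (2 + 1 / c) * P *
          (Real.exp B1 * Real.exp (-Iq + B0 + e1 + 1 / (2 * c))) := by ring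
      _ ≤ N * ((1 + K) ^ 2 + 2) * (2 + 1 / c) * P * (ec * M0) := by gcongr
      _ = _ := by ring
  -- T2
  have b2 : ‖(b - Mp l * a) / (bdr s a b * bdr s 1 (Mp l)) *
        (∫ x in Ioc 0 (xq α q l), f x * F.y (if s then 0 else -1) (if s then 1 else 0) l x)‖ ≤
      N * (4 * (1 + K) * (1 + 1 / c) * ec) * P * M0 := by
    rw [norm_mul]
    have k5 : Real.exp (2 * (-Iq + B0)) * Real.exp (Iq + 1 / (2 * c)) ≤ ec * M0 := by
      rw [hec, hM0, ← Real.exp_add, ← Real.exp_add]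
      apply Real.exp_le_exp.2
      linarith
    calc _ ≤ (2 * (1 + K) * Real.sqrt ‖l‖ * Real.exp (2 * (-Iq + B0))) *
          (N * ((1 + x1 α l) * ((1 + 1 / c) * Real.exp (Iq + 1 / (2 * c))))) :=
          mul_le_mul hT2b hT2a (norm_nonneg _) (by positivity)
      _ = N * (2 * (1 + K) * (1 + 1 / c)) * (Real.sqrt ‖l‖ * (1 + x1 α l)) *
          (Real.exp (2 * (-Iq + B0)) * Real.exp (Iq + 1 / (2 * c))) := by ring
      _ ≤ N * (2 * (1 + K) * (1 + 1 / c)) * (2 * P) * (ec * M0) := by gcongr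
      _ = _ := by ring
  -- T3
  have b3 : ‖∫ x in Ioc (xq α q l) (x1 α l), f x * mP F Mp s l x‖ ≤
      N * (2 * ec) * P * M0 := by
    refine hT3.trans ?_
    have k5 : Real.exp (-Iq + B0) ≤ ec * M0 := by
      rw [hec, hM0, ← Real.exp_add]
      apply Real.exp_le_exp.2
      have : 0 ≤ 1 / (2 * c) := by positivity
      linarith
    calc N * ((1 + x1 α l) * Real.exp (-Iq + B0)) ≤ N * ((2 * P) * (ec * M0)) := by
          gcongr
          linarith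
      _ = _ := by ring
  rw [hdec]
  calc _ ≤ ‖(∫ x in Ioi (xq α q l), f x * F.y a b l x) / bdr s a b +
        (b - Mp l * a) / (bdr s a b * bdr s 1 (Mp l)) *
        (∫ x in Ioc 0 (xq α q l), f x * F.y (if s then 0 else -1) (if s then 1 else 0) l x)‖ +
        ‖∫ x in Ioc (xq α q l) (x1 α l), f x * mP F Mp s l x‖ := norm_sub_le _ _
    _ ≤ (‖(∫ x in Ioi (xq α q l), f x * F.y a b l x) / bdr s a b‖ +
        ‖(b - Mp l * a) / (bdr s a b * bdr s 1 (Mp l)) *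
        (∫ x in Ioc 0 (xq α q l), f x * F.y (if s then 0 else -1) (if s then 1 else 0) l x)‖) +
        ‖∫ x in Ioc (xq α q l) (x1 α l), f x * mP F Mp s l x‖ := by
        gcongr
        exact norm_add_le _ _
    _ ≤ (N * (((1 + K) ^ 2 + 2) * (2 + 1 / c) * ec) * P * M0 +
        N * (4 * (1 + K) * (1 + 1 / c) * ec) * P * M0) + N * (2 * ec) * P * M0 := by
        linarith
    _ = _ := by ring


end Base

open Base in
set_option maxHeartbeats 2000000 in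
/-- BASE. -/
theorem base (hO1 : Stmt_O1) (hO2 : Stmt_O2) (hLX : Stmt_LOGX) (hLY : Stmt_LOGY)
    (hG : Stmt_GRON) (hTail : Stmt_TAIL) (hOrd : Stmt_ORD) (hYe : Stmt_Y) (hMPB : Stmt_MPB)
    (hTSC : Stmt_TSC) (hTG1 : Stmt_TG1) (hTG3 : Stmt_TG3) : Stmt_BASE := by
  intro α hα hα' F Mp hMp s f E hf hE ε hε
  have hρ := rho_ge hα hα'
  set ε₁ : ℝ := ε / 5 with hε₁
  have hε₁p : 0 < ε₁ := by positivity
  -- choice of `q`
  obtain ⟨q, hq, hq1, hqa⟩ : ∃ q : ℝ, 0 < q ∧ q < 1 ∧ 2 * (1 - q ^ (1 / α)) ≤ ε₁ := by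
    set u : ℝ := max (1 / 2) (1 - ε₁ / 2) with hu
    have hu0 : 0 < u := lt_of_lt_of_le (by norm_num) (le_max_left _ _)
    have hu1 : u < 1 := max_lt (by norm_num) (by linarith)
    refine ⟨u ^ α, Real.rpow_pos_of_pos hu0 _, Real.rpow_lt_one hu0.le hu1 hα, ?_⟩
    rw [← Real.rpow_mul hu0.le, mul_one_div_cancel hα.ne', Real.rpow_one]
    have := le_max_right (1 / 2) (1 - ε₁ / 2)
    rw [← hu] at this
    linarith
  obtain ⟨κ2, K2, R2, hκ2, hκ2', hK2, hR2, h2⟩ := hO2 α hα hα' F q hq hq1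
  obtain ⟨κ4, K4, R4, hκ4, hκ4', hK4, hR4, h4⟩ := hLY α hα hα' F q hq hq1
  refine ⟨min κ2 κ4, lt_min hκ2 hκ4, ?_⟩
  intro φ hφ1 hφ2
  have hφ12 : π / 2 - κ2 < φ := by
    have := min_le_left κ2 κ4
    linarith
  have hφ14 : π / 2 - κ4 < φ := by
    have := min_le_right κ2 κ4
    linarith
  have hpi := Real.pi_pos
  have hφ0 : 0 < φ := by linarith
  obtain ⟨hTc, hTm, hT0⟩ := hTG1 α hα hα'
  -- continuity of `Th`
  have hcont : ContinuousAt (Th α) φ :=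
    hTc.continuousAt (Icc_mem_nhds hφ0 hφ2)
  obtain ⟨δ, hδ, hδ'⟩ := Metric.continuousAt_iff.1 hcont ε₁ hε₁p
  set r : ℝ := min (δ / 2) (min (min ((φ - (π / 2 - κ2)) / 2) ((φ - (π / 2 - κ4)) / 2))
    (min ((π / 2 - φ) / 2) (φ / 2))) with hr
  have hr1 : r ≤ δ / 2 := min_le_left _ _
  have hr2 : r ≤ (φ - (π / 2 - κ2)) / 2 :=
    ((min_le_right _ _).trans (min_le_left _ _)).trans (min_le_left _ _)
  have hr3 : r ≤ (φ - (π / 2 - κ4)) / 2 :=
    ((min_le_right _ _).trans (min_le_left _ _)).trans (min_le_right _ _)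
  have hr4 : r ≤ (π / 2 - φ) / 2 :=
    ((min_le_right _ _).trans (min_le_right _ _)).trans (min_le_left _ _)
  have hr5 : r ≤ φ / 2 :=
    ((min_le_right _ _).trans (min_le_right _ _)).trans (min_le_right _ _)
  have hr0 : 0 < r := by
    refine lt_min (by linarith) (lt_min (lt_min (by linarith) (by linarith))
      (lt_min (by linarith) (by linarith)))
  have hψ1 : 0 < φ - r := by linarith
  have hψ12 : φ - r ≤ φ + r := by linarith
  have hψ2 : φ + r < π / 2 := by linarith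
  set c : ℝ := Real.cos (φ + r) with hc
  have hc0 : 0 < c := Real.cos_pos_of_mem_Ioo ⟨by linarith, hψ2⟩
  obtain ⟨K1, R1, hK1, hR1, h1⟩ := hO1 α hα hα' F c hc0
  obtain ⟨K3, R3, hK3, hR3, h3⟩ := hLX α hα hα' F c hc0
  obtain ⟨K5, R5, hK5, hR5, h5⟩ := hMPB α hα hα' F Mp hMp s (φ - r) (φ + r) hψ1 hψ12 hψ2
  obtain ⟨R6, h6⟩ := hTail α hα hα' F (φ - r) (φ + r) hψ1 hψ12 hψ2 ε₁ hε₁p
  set K : ℝ := max K1 K2 with hKd
  have hK0 : 0 < K := lt_max_of_lt_left hK1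
  set K0 : ℝ := max K3 (max K4 K5) with hK0d
  have hK00 : 0 < K0 := lt_max_of_lt_left hK3
  set A : ℝ := Real.sqrt (∫ x in Ioi (0 : ℝ), ‖f x‖ ^ 2) *
        ((((1 + K) ^ 2 + 2) * (2 + 1 / c) + 4 * (1 + K) * (1 + 1 / c) + 2) *
          Real.exp (1 / (2 * c))) + 1 with hA
  have hA0 : 0 < A := by positivity
  obtain ⟨R7, hR7, h7⟩ := asym (A := A) (m := 1 + 1 / α) (K := 2 * K0) (ε := ε₁) (ρ := rho α)
    hA0 (by positivity) (by positivity) hε₁p hρ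
  refine ⟨r, hr0, max (max R1 (max R2 R3)) (max (max R4 (max R5 R6)) (max R7 ((K + 1) ^ 2))), ?_⟩
  intro l hl harg
  have hlR1 : R1 ≤ ‖l‖ := ((le_max_left _ _).trans (le_max_left _ _)).trans hl
  have hlR2 : R2 ≤ ‖l‖ :=
    (((le_max_left _ _).trans (le_max_right _ _)).trans (le_max_left _ _)).trans hl
  have hlR3 : R3 ≤ ‖l‖ :=
    (((le_max_right _ _).trans (le_max_right _ _)).trans (le_max_left _ _)).trans hl
  have hlR4 : R4 ≤ ‖l‖ :=
    (((le_max_left _ _).trans (le_max_left _ _)).trans (le_max_right _ _)).trans hl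
  have hlR5 : R5 ≤ ‖l‖ :=
    ((((le_max_left _ _).trans (le_max_right _ _)).trans (le_max_left _ _)).trans
      (le_max_right _ _)).trans hl
  have hlR6 : R6 ≤ ‖l‖ :=
    ((((le_max_right _ _).trans (le_max_right _ _)).trans (le_max_left _ _)).trans
      (le_max_right _ _)).trans hl
  have hlR7 : R7 ≤ ‖l‖ :=
    (((le_max_left _ _).trans (le_max_right _ _)).trans (le_max_right _ _)).trans hl
  have hlK : (K + 1) ^ 2 ≤ ‖l‖ :=
    (((le_max_right _ _).trans (le_max_right _ _)).trans (le_max_right _ _)).trans hl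
  have hL1 : 1 ≤ ‖l‖ := hR1.trans hlR1
  have hL0 : 0 < ‖l‖ := by linarith
  obtain ⟨ha1, ha2⟩ := abs_le.1 harg
  have harg1 : φ - r ≤ arg l := by linarith
  have harg2 : arg l ≤ φ + r := by linarith
  have harg0 : 0 < arg l := by linarith
  have hargpi : arg l < π / 2 := by linarith
  have hre : l.re = ‖l‖ * Real.cos (arg l) := (Complex.norm_mul_cos_arg l).symm
  have himeq : l.im = ‖l‖ * Real.sin (arg l) := (Complex.norm_mul_sin_arg l).symm
  have hcl : c * ‖l‖ ≤ l.re := by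
    rw [hre, mul_comm]
    refine mul_le_mul_of_nonneg_left ?_ hL0.le
    exact Real.cos_le_cos_of_nonneg_of_le_pi harg0.le (by linarith) harg2
  have hlre : 0 < l.re := lt_of_lt_of_le (by positivity) hcl
  have him : 0 < l.im := by
    rw [himeq]
    exact mul_pos hL0 (Real.sin_pos_of_pos_of_lt_pi harg0 (by linarith))
  have hQ1 : l ∈ Q1 := ⟨hlre, him⟩
  have himL : l.im ≤ ‖l‖ := (le_abs_self _).trans (Complex.abs_im_le_norm l)
  -- the decaying solution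
  obtain ⟨af, bf, _, _, Kd, γd, x0d, hdec⟩ := hYe α hα hα' F (‖l‖ + 1) (by linarith)
  have hY : IsY F (af l) (bf l) l := ⟨Kd, γd, x0d, hdec l (by simp)⟩
  set a := af l with ha
  set b := bf l with hb
  have hX : IsX F 1 (Mp l) l := hMp.2 l hQ1
  have hargκ2 : π / 2 - κ2 ≤ arg l := by linarith
  have hargκ4 : π / 2 - κ4 ≤ arg l := by linarith
  have hxq := xq_pos (α := α) hq him
  have hxqr := xq_rpow (α := α) hα hq him
  have hle := xq_le_x1 (α := α) hα hq hq1 him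
  have hx1p : 0 < x1 α l := hxq.trans_le hle
  have h0r : (0 : ℝ) ^ α ≤ q * l.im := by
    rw [Real.zero_rpow hα.ne']; positivity
  have hs0 : 0 < Real.sqrt ‖l‖ := Real.sqrt_pos.2 hL0
  -- O1, O2 with the common constant
  have mono1 : ∀ z : ℂ, K1 / Real.sqrt ‖l‖ * ‖z‖ ≤ K / Real.sqrt ‖l‖ * ‖z‖ := fun z => by
    have := le_max_left K1 K2
    gcongr
  have mono2 : ∀ z : ℂ, K2 / Real.sqrt ‖l‖ * ‖z‖ ≤ K / Real.sqrt ‖l‖ * ‖z‖ := fun z => by
    have := le_max_right K1 K2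
    gcongr
  have hX0 := (h1 l hlR1 hcl him 1 (Mp l) hX 0 le_rfl
    (by rw [Real.zero_rpow hα.ne']; positivity)).2.trans (mono1 _)
  have hXq := (h1 l hlR1 hcl him 1 (Mp l) hX (xq α q l) hxq.le
    (by rw [hxqr]; nlinarith)).2.trans (mono1 _)
  have hY0 := (h2 l hlR2 hargκ2 hargpi a b hY 0 le_rfl h0r).2.trans (mono2 _)
  have hYq := (h2 l hlR2 hargκ2 hargpi a b hY (xq α q l) hxq.le hxqr.le).2.trans (mono2 _)
  -- logs
  set B0 : ℝ := K0 * ‖l‖ ^ (rho α - 1) with hB0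
  have hpw : 0 ≤ ‖l‖ ^ (rho α - 1) := Real.rpow_nonneg hL0.le _
  have hB0p : 0 ≤ B0 := by positivity
  have hK3' : K3 * ‖l‖ ^ (rho α - 1) ≤ B0 := mul_le_mul_of_nonneg_right (le_max_left _ _) hpw
  have hK4' : K4 * ‖l‖ ^ (rho α - 1) ≤ B0 :=
    mul_le_mul_of_nonneg_right ((le_max_left _ _).trans (le_max_right _ _)) hpw
  have hK5' : K5 * ‖l‖ ^ (rho α - 1) ≤ B0 :=
    mul_le_mul_of_nonneg_right ((le_max_right _ _).trans (le_max_right _ _)) hpw
  have hXl : ‖F.y 1 (Mp l) l (xq α q l)‖ ≤ Real.exp (-If α l (xq α q l) + B0) := by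
    have := ((h3 l hlR3 hcl him 1 (Mp l) hX).2 (xq α q l) hxq.le (by rw [hxqr]; nlinarith)).2
    rw [norm_one, one_mul] at this
    exact this.trans (Real.exp_le_exp.2 (by linarith))
  have hYl : ‖F.y a b l (xq α q l)‖ ≤ ‖a‖ * Real.exp (-If α l (xq α q l) + B0) := by
    have := ((h4 l hlR4 hargκ4 hargpi a b hY).2 (xq α q l) hxq.le hxqr.le).2
    refine this.trans (mul_le_mul_of_nonneg_left (Real.exp_le_exp.2 (by linarith))
      (norm_nonneg _))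
  have hane : a ≠ 0 := (h4 l hlR4 hargκ4 hargpi a b hY).1
  have hb1 : bdr s a b ≠ 0 := by
    have := a_le_bdr hα F s hK0.le hlK hY0
    intro h0
    rw [h0, norm_zero] at this
    exact hane (norm_le_zero_iff.1 this)
  obtain ⟨hb2, hmP'⟩ := h5 l hlR5 harg1 harg2
  have hmP : ∀ x : ℝ, 0 ≤ x → x ^ α ≤ 2 * ‖l‖ →
      ‖mP F Mp s l x‖ ≤ Real.exp (-If α l x + B0) := fun x hx hx' =>
    (hmP' x hx hx').trans (Real.exp_le_exp.2 (by linarith))
  obtain ⟨Ko, hOrd'⟩ := hOrd α hα hα' F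
  have hint := (hOrd' a b l hY).1
  have hT := h6 l hlR6 harg1 harg2 a b hY
  have hB1p : 0 ≤ ε₁ * ‖l‖ ^ rho α := mul_nonneg hε₁p.le (Real.rpow_nonneg hL0.le _)
  have hmain := main_est hG hα hα' F Mp s f E hf hE hc0 hlre hcl hK0.le hlK him hq hq1 hB0p
    hB1p hY hint hX0 hY0 hXq hYq hXl hYl hmP hT hb1 hb2
  -- `T - I(x_q)` is small
  have hTI : Tf α l - If α l (xq α q l) ≤ ε₁ * ‖l‖ ^ rho α := by
    have h8 := hTG3 α hα hα' l hQ1 (xq α q l) hxq.le (by rw [hxqr]; nlinarith)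
    have h9 : |xq α q l - x1 α l| = (1 - q ^ (1 / α)) * x1 α l := by
      rw [abs_sub_comm, abs_of_nonneg (by linarith), xq_eq hq him]
      ring
    rw [h9] at h8
    have h10 : Real.sqrt ‖l‖ * ‖l‖ ^ (1 / α) = ‖l‖ ^ rho α := by
      rw [Real.sqrt_eq_rpow, ← Real.rpow_add hL0]
      rfl
    have h11 : 0 ≤ 1 - q ^ (1 / α) := by
      have := Real.rpow_le_one hq.le hq1.le (by positivity : 0 ≤ 1 / α)
      linarith
    calc Tf α l - If α l (xq α q l) ≤ |If α l (xq α q l) - Tf α l| := by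
          rw [abs_sub_comm]; exact le_abs_self _
      _ ≤ 2 * Real.sqrt ‖l‖ * ((1 - q ^ (1 / α)) * x1 α l) := h8
      _ ≤ 2 * Real.sqrt ‖l‖ * ((1 - q ^ (1 / α)) * ‖l‖ ^ (1 / α)) := by
          have := x1_le hα him
          gcongr
      _ = (2 * (1 - q ^ (1 / α))) * (Real.sqrt ‖l‖ * ‖l‖ ^ (1 / α)) := by ring
      _ ≤ ε₁ * (Real.sqrt ‖l‖ * ‖l‖ ^ (1 / α)) := by gcongr
      _ = ε₁ * ‖l‖ ^ rho α := by rw [h10]
  have hTh : (Th α φ - ε₁) * ‖l‖ ^ rho α ≤ Tf α l := by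
    rw [hTSC α hα hα' l hQ1, mul_comm]
    refine mul_le_mul_of_nonneg_left ?_ (Real.rpow_nonneg hL0.le _)
    have h12 : dist (arg l) φ < δ := by
      rw [Real.dist_eq]
      linarith
    have h13 := hδ' h12
    rw [Real.dist_eq] at h13
    have := (abs_lt.1 h13).1
    linarith
  refine hmain.trans ?_
  have h14 := h7 ‖l‖ hlR7
  have hA' : Real.sqrt (∫ x in Ioi (0 : ℝ), ‖f x‖ ^ 2) *
        ((((1 + K) ^ 2 + 2) * (2 + 1 / c) + 4 * (1 + K) * (1 + 1 / c) + 2) *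
          Real.exp (1 / (2 * c))) ≤ A := by rw [hA]; linarith
  have hPp : 0 ≤ ‖l‖ ^ (1 + 1 / α) := Real.rpow_nonneg hL0.le _
  calc _ ≤ A * ‖l‖ ^ (1 + 1 / α) *
        Real.exp (-If α l (xq α q l) + 2 * B0 + (Tf α l - If α l (xq α q l)) +
          ε₁ * ‖l‖ ^ rho α) := by gcongr
    _ = (A * ‖l‖ ^ (1 + 1 / α) * Real.exp (2 * K0 * ‖l‖ ^ (rho α - 1))) *
        Real.exp (-If α l (xq α q l) + (Tf α l - If α l (xq α q l)) +
          ε₁ * ‖l‖ ^ rho α) := by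
        rw [mul_assoc (A * ‖l‖ ^ (1 + 1 / α)), ← Real.exp_add]
        congr 2
        rw [hB0]
        ring
    _ ≤ Real.exp (ε₁ * ‖l‖ ^ rho α) *
        Real.exp (-If α l (xq α q l) + (Tf α l - If α l (xq α q l)) +
          ε₁ * ‖l‖ ^ rho α) := mul_le_mul_of_nonneg_right h14 (Real.exp_pos _).le
    _ ≤ _ := by
        rw [← Real.exp_add]
        apply Real.exp_le_exp.2
        have h15 : ε = 5 * ε₁ := by rw [hε₁]; ring
        rw [h15]
        linarith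

end Pool.Agent.CRV
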