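import Pool.Agent.CRV.Stmts

/-!
Small shared tools: Cauchy-Schwarz in the form used everywhere, `L^2` membership of `y`.
-/

set_option autoImplicit false

open MeasureTheory Complex Set Filter Topology
open scoped Real

namespace Pool.Agent.CRV

/-- Cauchy-Schwarz. -/
theorem cs_bound {μ : Measure ℝ} (f g : ℝ → ℂ) (hf : MemLp f 2 μ) (hg : MemLp g 2 μ) :
    ‖∫ x, f x * g x ∂μ‖ ≤
      Real.sqrt (∫ x, ‖f x‖ ^ 2 ∂μ) * Real.sqrt (∫ x, ‖g x‖ ^ 2 ∂μ) := by
  have hpq : (2 : ℝ).HolderConjugate 2 := by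
    rw [Real.holderConjugate_iff]
    constructor <;> norm_num
  have h := integral_mul_norm_le_Lp_mul_Lq (μ := μ) (f := f) (g := g) hpq
    (by simpa using hf) (by simpa using hg)
  have h1 : ‖∫ x, f x * g x ∂μ‖ ≤ ∫ x, ‖f x‖ * ‖g x‖ ∂μ := by
    refine (norm_integral_le_integral_norm _).trans (le_of_eq ?_)
    simp
  refine h1.trans (h.trans (le_of_eq ?_))
  rw [Real.sqrt_eq_rpow, Real.sqrt_eq_rpow]
  norm_num

/-- restriction of `L2f` to a subset of `(0,∞)`. -/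
theorem L2f.mono {f : ℝ → ℂ} (hf : L2f f) {s : Set ℝ} (hs : s ⊆ Ioi (0 : ℝ)) :
    MemLp f 2 (volume.restrict s) :=
  MemLp.mono_measure (Measure.restrict_mono hs le_rfl) hf

/-- `∫_s |f|^2 ≤ ∫_{(0,∞)} |f|^2`. -/
theorem L2f.sq_le {f : ℝ → ℂ} (hf : L2f f) {s : Set ℝ} (hs : s ⊆ Ioi (0 : ℝ)) :
    ∫ x in s, ‖f x‖ ^ 2 ≤ ∫ x in Ioi (0 : ℝ), ‖f x‖ ^ 2 := by
  refine setIntegral_mono_set ?_ ?_ (LE.le.eventuallyLE hs)
  · exact hf.integrable_norm_pow (by norm_num)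
  · exact Eventually.of_forall fun x => by positivity

/-- Cauchy-Schwarz on a subset of `(0,∞)`. -/
theorem L2f.cs {f : ℝ → ℂ} (hf : L2f f) {s : Set ℝ} (hs : s ⊆ Ioi (0 : ℝ)) (g : ℝ → ℂ)
    (hg : MemLp g 2 (volume.restrict s)) :
    ‖∫ x in s, f x * g x‖ ≤ Real.sqrt (∫ x in Ioi (0 : ℝ), ‖f x‖ ^ 2) *
      Real.sqrt (∫ x in s, ‖g x‖ ^ 2) := by
  refine (cs_bound f g (hf.mono hs) hg).trans ?_
  exact mul_le_mul_of_nonneg_right (Real.sqrt_le_sqrt (hf.sq_le hs)) (Real.sqrt_nonneg _)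

/-- the real half-line lies in `Dom`. -/
theorem ofReal_mem_Dom {x : ℝ} (hx : 0 ≤ x) : (x : ℂ) ∈ Dom := by
  rcases eq_or_lt_of_le hx with h | h
  · left; rw [← h]; simp
  · right; exact ofReal_mem_slitPlane.2 h

/-- continuity of `y` along the real half-line. -/
theorem FS.continuousOn_y {α : ℝ} (F : FS α) (a b l : ℂ) :
    ContinuousOn (fun x : ℝ => F.y a b l x) (Ici 0) := by
  have hmap : MapsTo (fun x : ℝ => ((x : ℂ), l)) (Ici 0) (Dom ×ˢ univ) := fun x hx =>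
    ⟨ofReal_mem_Dom hx, mem_univ _⟩
  have hc : ContinuousOn (fun x : ℝ => ((x : ℂ), l)) (Ici 0) := by fun_prop
  unfold FS.y
  exact (continuousOn_const.mul (F.cC.comp hc hmap)).add
    (continuousOn_const.mul (F.cS.comp hc hmap))

/-- continuity of `dy` along the real half-line. -/
theorem FS.continuousOn_dy {α : ℝ} (F : FS α) (a b l : ℂ) :
    ContinuousOn (fun x : ℝ => F.dy a b l x) (Ici 0) := by
  have hmap : MapsTo (fun x : ℝ => ((x : ℂ), l)) (Ici 0) (Dom ×ˢ univ) := fun x hx =>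
    ⟨ofReal_mem_Dom hx, mem_univ _⟩
  have hc : ContinuousOn (fun x : ℝ => ((x : ℂ), l)) (Ici 0) := by fun_prop
  unfold FS.dy
  exact (continuousOn_const.mul (F.cdC.comp hc hmap)).add
    (continuousOn_const.mul (F.cdS.comp hc hmap))

/-- derivative of `y` at complex points. -/
theorem FS.hasDerivAt_y {α : ℝ} (F : FS α) (a b l x : ℂ) (hx : x ∈ slitPlane) :
    HasDerivAt (fun z => F.y a b l z) (F.dy a b l x) x := by
  unfold FS.y FS.dy
  exact ((F.hC l x hx).const_mul a).add ((F.hS l x hx).const_mul b)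

/-- derivative of `dy` at complex points. -/
theorem FS.hasDerivAt_dy {α : ℝ} (F : FS α) (a b l x : ℂ) (hx : x ∈ slitPlane) :
    HasDerivAt (fun z => F.dy a b l z) ((I * x ^ (α : ℂ) - l) * F.y a b l x) x := by
  unfold FS.y FS.dy
  have h := ((F.hdC l x hx).const_mul a).add ((F.hdS l x hx).const_mul b)
  refine h.congr_deriv ?_
  ring

/-- derivative of `y` along the real half-line. -/
theorem FS.hasDerivAt_y_real {α : ℝ} (F : FS α) (a b l : ℂ) {x : ℝ} (hx : 0 < x) :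
    HasDerivAt (fun t : ℝ => F.y a b l t) (F.dy a b l x) x :=
  (F.hasDerivAt_y a b l x (ofReal_mem_slitPlane.2 hx)).comp_ofReal

/-- derivative of `dy` along the real half-line. -/
theorem FS.hasDerivAt_dy_real {α : ℝ} (F : FS α) (a b l : ℂ) {x : ℝ} (hx : 0 < x) :
    HasDerivAt (fun t : ℝ => F.dy a b l t)
      ((I * ((x ^ α : ℝ) : ℂ) - l) * F.y a b l x) x := by
  have h := (F.hasDerivAt_dy a b l x (ofReal_mem_slitPlane.2 hx)).comp_ofReal
  rwa [← Complex.ofReal_cpow hx.le] at h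

@[simp] theorem FS.y_zero {α : ℝ} (F : FS α) (a b l : ℂ) : F.y a b l 0 = a := by
  simp [FS.y, F.C0, F.S0]

@[simp] theorem FS.dy_zero {α : ℝ} (F : FS α) (a b l : ℂ) : F.dy a b l 0 = b := by
  simp [FS.dy, F.dC0, F.dS0]

/-- Wronskian of two solutions. -/
theorem FS.wronskian {α : ℝ} (F : FS α) (a b a' b' l x : ℂ) (hx : x ∈ Dom) :
    F.y a b l x * F.dy a' b' l x - F.dy a b l x * F.y a' b' l x = a * b' - b * a' := by
  have h := F.wr x hx l
  unfold FS.y FS.dy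
  linear_combination (a * b' - b * a') * h

end Pool.Agent.CRV
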