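import Pool.Agent.CRV.HolPar

/-! Modules DAN and U2: integrals over `[0, x]` are entire. -/

set_option autoImplicit false

open MeasureTheory Complex Set Filter Topology
open scoped Real

namespace Pool.Agent.CRV

theorem mem_Dom_of_nonneg {t : ℝ} (ht : 0 ≤ t) : (t : ℂ) ∈ Dom := by
  rcases ht.eq_or_lt with h | h
  · exact Or.inl (by rw [← h]; simp)
  · exact Or.inr (Complex.ofReal_mem_slitPlane.2 h)

theorem L2f.integrableOn {f : ℝ → ℂ} (hf : L2f f) (x : ℝ) : IntegrableOn f (Ioc 0 x) := by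
  have h1 : MemLp f 2 (volume.restrict (Ioc 0 x)) :=
    hf.mono_measure (Measure.restrict_mono (fun t ht => ht.1) le_rfl)
  exact h1.integrable (by norm_num)

/-- continuity in `t` of a kernel on `[0, ∞)` -/
theorem ker_cont {g : ℂ → ℂ → ℂ} (hg : ContinuousOn (fun p : ℂ × ℂ => g p.1 p.2) (Dom ×ˢ univ))
    (l : ℂ) : ContinuousOn (fun t : ℝ => g t l) (Ici 0) := by
  refine hg.comp (f := fun t : ℝ => ((t : ℂ), l)) (by fun_prop) ?_
  intro t ht
  exact ⟨mem_Dom_of_nonneg ht, mem_univ _⟩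

/-- local bound of a kernel -/
theorem ker_bd {g : ℂ → ℂ → ℂ} (hg : ContinuousOn (fun p : ℂ × ℂ => g p.1 p.2) (Dom ×ˢ univ))
    (x : ℝ) (l₀ : ℂ) (r : ℝ) :
    ∃ M : ℝ, 0 ≤ M ∧ ∀ t : ℝ, 0 ≤ t → t ≤ x → ∀ l ∈ Metric.closedBall l₀ r, ‖g t l‖ ≤ M := by
  have hc : IsCompact ((Icc (0 : ℝ) x) ×ˢ (Metric.closedBall l₀ r)) :=
    isCompact_Icc.prod (isCompact_closedBall _ _)
  have hcont : ContinuousOn (fun p : ℝ × ℂ => g p.1 p.2)
      ((Icc (0 : ℝ) x) ×ˢ (Metric.closedBall l₀ r)) := by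
    refine hg.comp (f := fun p : ℝ × ℂ => ((p.1 : ℂ), p.2)) (by fun_prop) ?_
    rintro ⟨t, l⟩ ⟨ht, _⟩
    exact ⟨mem_Dom_of_nonneg ht.1, mem_univ _⟩
  obtain ⟨M, hM⟩ := hc.exists_bound_of_continuousOn hcont
  refine ⟨max M 0, le_max_right _ _, fun t h0 h1 l hl => (hM (t, l) ⟨⟨h0, h1⟩, hl⟩).trans
    (le_max_left _ _)⟩

/-- integrals over `[0, x]` of `f` times a kernel are entire -/
theorem ker_entire {f : ℝ → ℂ} {g : ℂ → ℂ → ℂ} {x : ℝ} (hx : 0 ≤ x)
    (hf : IntegrableOn f (Ioc 0 x))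
    (hg : ContinuousOn (fun p : ℂ × ℂ => g p.1 p.2) (Dom ×ˢ univ))
    (ha : ∀ z ∈ Dom, Differentiable ℂ (fun l => g z l)) :
    Differentiable ℂ (fun l => ∫ t in (0 : ℝ)..x, f t * g t l) := by
  intro l₀
  obtain ⟨M, hM0, hM⟩ := ker_bd hg x l₀ 1
  have h := holPar (μ := volume.restrict (Ioc 0 x)) (U := Metric.ball l₀ 1) Metric.isOpen_ball
    (fun l t => f t * g t l) (fun t => ‖f t‖ * M) (hf.norm.mul_const M)
    (fun l _ => by
      refine hf.aestronglyMeasurable.mul ?_
      exact ((ker_cont hg l).mono (fun t ht => ht.1.le)).aestronglyMeasurable measurableSet_Ioc)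
    (by
      filter_upwards [ae_restrict_mem measurableSet_Ioc] with t ht
      exact ((ha t (mem_Dom_of_nonneg ht.1.le)).const_mul (f t)).differentiableOn)
    (by
      filter_upwards [ae_restrict_mem measurableSet_Ioc] with t ht l hl
      rw [norm_mul]
      exact mul_le_mul_of_nonneg_left (hM t ht.1.le ht.2 l (Metric.ball_subset_closedBall hl))
        (norm_nonneg _))
  have h2 := (h l₀ (Metric.mem_ball_self one_pos)).differentiableAt
    (Metric.isOpen_ball.mem_nhds (Metric.mem_ball_self one_pos))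
  simpa only [intervalIntegral.integral_of_le hx] using h2

theorem ker_intble {f : ℝ → ℂ} {g : ℂ → ℂ → ℂ} {x : ℝ} (hx : 0 ≤ x)
    (hf : IntegrableOn f (Ioc 0 x))
    (hg : ContinuousOn (fun p : ℂ × ℂ => g p.1 p.2) (Dom ×ˢ univ)) (l : ℂ) :
    IntervalIntegrable (fun t => f t * g t l) volume 0 x := by
  have h1 : IntervalIntegrable f volume 0 x := (intervalIntegrable_iff_integrableOn_Ioc_of_le hx).2 hf
  refine h1.mul_continuousOn ?_
  rw [uIcc_of_le hx]
  exact (ker_cont hg l).mono (fun t ht => ht.1)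

theorem dan : Stmt_DAN := by
  intro α _ _ F Mp hMp s f E hf hE x hx l hl hb
  have hfx := hf.integrableOn x
  have hM : DifferentiableAt ℂ Mp l := by
    have hopen : IsOpen Q1 :=
      (isOpen_lt continuous_const Complex.continuous_re).inter
        (isOpen_lt continuous_const Complex.continuous_im)
    exact (hMp.1 l hl).differentiableAt (hopen.mem_nhds hl)
  have hbd : DifferentiableAt ℂ (fun z => bdr s 1 (Mp z)) l := by
    unfold bdr
    cases s
    · simpa using hM
    · simp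
  have h1 := ker_entire hx hfx F.cC F.aC l
  have h2 := ker_entire hx hfx F.cS F.aS l
  have heq : (fun z => Dx F Mp s f E z x) = fun z => E z -
      ((∫ t in (0 : ℝ)..x, f t * F.C t z) + Mp z * ∫ t in (0 : ℝ)..x, f t * F.S t z) /
        bdr s 1 (Mp z) := by
    funext z
    unfold Dx mP FS.y
    congr 1
    rw [← intervalIntegral.integral_const_mul, ← intervalIntegral.integral_add
      (ker_intble hx hfx F.cC z) ((ker_intble hx hfx F.cS z).const_mul _),
      ← intervalIntegral.integral_div]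
    refine intervalIntegral.integral_congr fun t _ => ?_
    ring
  rw [heq]
  exact (hE l).sub ((h1.add (hM.mul h2)).div hbd hb)

theorem u2 : Stmt_U2 := by
  intro α _ _ F f hf x hx
  have hfx := hf.integrableOn x
  have heq : (fun l => uf F f l x) = fun l =>
      F.C x l * (∫ t in (0 : ℝ)..x, f t * F.S t l) - F.S x l * ∫ t in (0 : ℝ)..x, f t * F.C t l := by
    funext l
    unfold uf
    rw [← intervalIntegral.integral_const_mul, ← intervalIntegral.integral_const_mul,
      ← intervalIntegral.integral_sub ((ker_intble hx hfx F.cS l).const_mul _)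
        ((ker_intble hx hfx F.cC l).const_mul _)]
    refine intervalIntegral.integral_congr fun t _ => ?_
    ring
  refine ⟨?_, ?_⟩
  · rw [heq]
    exact ((F.aC x (mem_Dom_of_nonneg hx)).mul (ker_entire hx hfx F.cS F.aS)).sub
      ((F.aS x (mem_Dom_of_nonneg hx)).mul (ker_entire hx hfx F.cC F.aC))
  · -- bounds
    set N : ℝ := ∫ t in (0 : ℝ)..x, ‖f t‖ with hN
    have hN0 : 0 ≤ N := intervalIntegral.integral_nonneg hx (fun t _ => norm_nonneg _)
    set c : ℝ := x ^ α with hc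
    have hc0 : 0 ≤ c := Real.rpow_nonneg hx _
    let B : ℂ → ℝ := fun l => 4 * (1 + x) * (1 + ‖l‖ + c) * Real.exp (x * Real.sqrt (‖l‖ + c))
    have hB0 : ∀ l, 0 ≤ B l := fun l => by positivity
    have hB : ∀ l : ℂ, ∀ t : ℝ, 0 ≤ t → t ≤ x → ‖F.C t l‖ ≤ B l ∧ ‖F.S t l‖ ≤ B l := by
      intro l t h0 h1
      have h := F.bd t (mem_Dom_of_nonneg h0) l
      have hnt : ‖(t : ℂ)‖ = t := by rw [Complex.norm_real, Real.norm_of_nonneg h0]
      rw [hnt] at h
      have hta : t ^ α ≤ c := Real.rpow_le_rpow h0 h1 (by linarith)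
      have h2 : 4 * (1 + t) * (1 + ‖l‖ + t ^ α) * Real.exp (t * Real.sqrt (‖l‖ + t ^ α)) ≤ B l := by
        have hta0 : 0 ≤ t ^ α := Real.rpow_nonneg h0 _
        have e1 : Real.sqrt (‖l‖ + t ^ α) ≤ Real.sqrt (‖l‖ + c) :=
          Real.sqrt_le_sqrt (by linarith)
        have e2 : t * Real.sqrt (‖l‖ + t ^ α) ≤ x * Real.sqrt (‖l‖ + c) :=
          mul_le_mul h1 e1 (Real.sqrt_nonneg _) hx
        have e3 := Real.exp_le_exp.2 e2
        show _ ≤ 4 * (1 + x) * (1 + ‖l‖ + c) * Real.exp (x * Real.sqrt (‖l‖ + c))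
        gcongr
      have n1 := norm_nonneg (F.C t l)
      have n2 := norm_nonneg (F.dC t l)
      have n3 := norm_nonneg (F.S t l)
      have n4 := norm_nonneg (F.dS t l)
      constructor <;> linarith
    have hu : ∀ l, ‖uf F f l x‖ ≤ 2 * B l ^ 2 * N := by
      intro l
      unfold uf
      have h1 : ‖∫ t in (0 : ℝ)..x, (F.C x l * F.S t l - F.S x l * F.C t l) * f t‖ ≤
          |∫ t in (0 : ℝ)..x, 2 * B l ^ 2 * ‖f t‖| := by
        refine intervalIntegral.norm_integral_le_abs_of_norm_le ?_ ?_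
        · rw [uIoc_of_le hx]
          filter_upwards [ae_restrict_mem measurableSet_Ioc] with t ht
          rw [norm_mul]
          refine mul_le_mul_of_nonneg_right ?_ (norm_nonneg _)
          obtain ⟨a1, a2⟩ := hB l t ht.1.le ht.2
          obtain ⟨b1, b2⟩ := hB l x hx le_rfl
          calc ‖F.C x l * F.S t l - F.S x l * F.C t l‖ ≤
              ‖F.C x l * F.S t l‖ + ‖F.S x l * F.C t l‖ := norm_sub_le _ _
            _ = ‖F.C x l‖ * ‖F.S t l‖ + ‖F.S x l‖ * ‖F.C t l‖ := by rw [norm_mul, norm_mul]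
            _ ≤ B l * B l + B l * B l := by
              gcongr <;> exact hB0 l
            _ = 2 * B l ^ 2 := by ring
        · have h3 : IntervalIntegrable (fun t => ‖f t‖) volume 0 x :=
            ((intervalIntegrable_iff_integrableOn_Ioc_of_le hx).2 hfx).norm
          exact h3.const_mul _
      rw [intervalIntegral.integral_const_mul, abs_of_nonneg (by positivity)] at h1
      exact h1
    -- the exponential bound
    refine ⟨Real.log (2 * N * (4 * (1 + x) * (1 + c)) ^ 2 + 1) + 2 * x * Real.sqrt c + 2 * x + 4, ?_⟩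
    intro l
    set s := Real.sqrt ‖l‖ with hs
    have hs0 : 0 ≤ s := Real.sqrt_nonneg _
    have hs2 : ‖l‖ = s ^ 2 := (Real.sq_sqrt (norm_nonneg l)).symm
    have e1 : Real.sqrt (‖l‖ + c) ≤ s + Real.sqrt c := by
      rw [Real.sqrt_le_left (by positivity)]
      have := Real.sq_sqrt hc0
      nlinarith [mul_nonneg hs0 (Real.sqrt_nonneg c)]
    have e2 : 1 + ‖l‖ + c ≤ (1 + c) * Real.exp (2 * s) := by
      have h3 : 1 + s ≤ Real.exp s := by linarith [Real.add_one_le_exp s]
      have h4 : (1 + s) ^ 2 ≤ Real.exp (2 * s) := by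
        rw [show (2 : ℝ) * s = s + s by ring, Real.exp_add]
        nlinarith [Real.exp_pos s]
      have h5 : 1 + ‖l‖ + c ≤ (1 + c) * (1 + s) ^ 2 := by
        rw [hs2]; nlinarith [mul_nonneg hc0 hs0, mul_nonneg hc0 (sq_nonneg s)]
      exact h5.trans (mul_le_mul_of_nonneg_left h4 (by linarith))
    have e3 : B l ≤ (4 * (1 + x) * (1 + c)) * Real.exp (2 * s + x * (s + Real.sqrt c)) := by
      show 4 * (1 + x) * (1 + ‖l‖ + c) * Real.exp (x * Real.sqrt (‖l‖ + c)) ≤ _
      rw [Real.exp_add]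
      calc 4 * (1 + x) * (1 + ‖l‖ + c) * Real.exp (x * Real.sqrt (‖l‖ + c)) ≤
          4 * (1 + x) * ((1 + c) * Real.exp (2 * s)) * Real.exp (x * (s + Real.sqrt c)) := by
            gcongr
        _ = _ := by ring
    have e4 : B l ^ 2 ≤ (4 * (1 + x) * (1 + c)) ^ 2 *
        Real.exp (2 * (2 * s + x * (s + Real.sqrt c))) := by
      refine (pow_le_pow_left₀ (hB0 l) e3 2).trans_eq ?_
      rw [mul_pow _ (Real.exp _), ← Real.exp_nat_mul]
      norm_num
    set A : ℝ := 2 * N * (4 * (1 + x) * (1 + c)) ^ 2 with hA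
    have hA0 : 0 ≤ A := by positivity
    calc ‖uf F f l x‖ ≤ 2 * B l ^ 2 * N := hu l
      _ ≤ 2 * ((4 * (1 + x) * (1 + c)) ^ 2 * Real.exp (2 * (2 * s + x * (s + Real.sqrt c)))) * N := by
        gcongr
      _ = A * Real.exp (2 * (2 * s + x * (s + Real.sqrt c))) := by rw [hA]; ring
      _ ≤ (A + 1) * Real.exp (2 * (2 * s + x * (s + Real.sqrt c))) := by
        gcongr; linarith
      _ = Real.exp (Real.log (A + 1) + 2 * (2 * s + x * (s + Real.sqrt c))) := by
        rw [Real.exp_add, Real.exp_log (by linarith)]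
      _ ≤ _ := by
        apply Real.exp_le_exp.2
        have hl : 0 ≤ Real.log (A + 1) := Real.log_nonneg (by linarith)
        have hq := Real.sqrt_nonneg c
        nlinarith [mul_nonneg hl hs0, mul_nonneg hx hs0, mul_nonneg hx hq,
          mul_nonneg (mul_nonneg hx hq) hs0]

end Pool.Agent.CRV
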