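import Pool.Agent.CRV.XUYU

set_option autoImplicit false

open MeasureTheory Complex Set Filter Topology
open scoped Real

namespace Pool.Agent.CRV

/-- A continuous function that decays exponentially beyond `T`, decays exponentially. -/
theorem exists_decay (g : ℝ → ℂ) (K γ T : ℝ) (hγ : 0 < γ) (hc : ContinuousOn g (Ici 0))
    (h : ∀ t : ℝ, 0 ≤ t → T ≤ t → ‖g t‖ ≤ K * Real.exp (-(γ * t))) :
    ∃ K' : ℝ, ∀ t : ℝ, 0 ≤ t → ‖g t‖ ≤ K' * Real.exp (-(γ * t)) := by
  obtain ⟨M, hM⟩ := (isCompact_Icc (a := (0 : ℝ)) (b := T)).exists_bound_of_continuousOn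
    (hc.mono (fun t ht => ht.1))
  refine ⟨max K (M * Real.exp (γ * T)), fun t ht => ?_⟩
  rcases le_or_gt T t with h1 | h1
  · refine (h t ht h1).trans ?_
    gcongr
    exact le_max_left _ _
  · have h2 := hM t ⟨ht, h1.le⟩
    have hM0 : 0 ≤ M := (norm_nonneg _).trans h2
    have h3 : 1 ≤ Real.exp (γ * T) * Real.exp (-(γ * t)) := by
      rw [← Real.exp_add]
      apply Real.one_le_exp
      nlinarith
    calc ‖g t‖ ≤ M * 1 := by rw [mul_one]; exact h2
      _ ≤ M * (Real.exp (γ * T) * Real.exp (-(γ * t))) := by gcongr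
      _ = (M * Real.exp (γ * T)) * Real.exp (-(γ * t)) := by ring
      _ ≤ _ := by
        gcongr
        exact le_max_right _ _

theorem FS.continuousOn_y_Dom {α : ℝ} (F : FS α) (a b l : ℂ) :
    ContinuousOn (fun x => F.y a b l x) Dom := by
  unfold FS.y
  have h1 : ContinuousOn (fun x => F.C x l) Dom :=
    F.cC.comp (f := fun x : ℂ => (x, l)) (by fun_prop) (fun x hx => ⟨hx, mem_univ _⟩)
  have h2 : ContinuousOn (fun x => F.S x l) Dom :=
    F.cS.comp (f := fun x : ℂ => (x, l)) (by fun_prop) (fun x hx => ⟨hx, mem_univ _⟩)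
  exact (continuousOn_const.mul h1).add (continuousOn_const.mul h2)

theorem FS.continuousOn_dy_Dom {α : ℝ} (F : FS α) (a b l : ℂ) :
    ContinuousOn (fun x => F.dy a b l x) Dom := by
  unfold FS.dy
  have h1 : ContinuousOn (fun x => F.dC x l) Dom :=
    F.cdC.comp (f := fun x : ℂ => (x, l)) (by fun_prop) (fun x hx => ⟨hx, mem_univ _⟩)
  have h2 : ContinuousOn (fun x => F.dS x l) Dom :=
    F.cdS.comp (f := fun x : ℂ => (x, l)) (by fun_prop) (fun x hx => ⟨hx, mem_univ _⟩)
  exact (continuousOn_const.mul h1).add (continuousOn_const.mul h2)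

theorem dlx : Stmt_DLX := by
  intro α _ _ F a b l h x hx
  obtain ⟨_, K, γ, κ, hγ, hκ, hκ', hb⟩ := h
  have hπ := Real.pi_pos
  have hD : ∀ t : ℝ, 0 ≤ t → (x : ℂ) + t * I ∈ Dom := by
    intro t ht
    rcases hx.eq_or_lt with hx0 | hx0
    · rcases ht.eq_or_lt with ht0 | ht0
      · left; rw [← hx0, ← ht0]; simp
      · right; right; simp; exact ht0.ne'
    · right; left; simp; exact hx0
  have hsin : 0 < Real.sin κ := Real.sin_pos_of_pos_of_lt_pi hκ (by linarith)
  have hK : 0 ≤ K := by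
    have := (hb (π / 2) ⟨by linarith, le_rfl⟩ 0 le_rfl).1
    simp only [mul_zero, neg_zero, Real.exp_zero, mul_one] at this
    exact (norm_nonneg _).trans this
  have hmain : ∀ t : ℝ, 0 ≤ t → x / Real.sin κ ≤ t →
      ‖F.y a b l (x + t * I)‖ ≤ K * Real.exp (-(γ * t)) ∧
      ‖F.dy a b l (x + t * I)‖ ≤ K * Real.exp (-(γ * t)) := by
    intro t ht hT
    rcases ht.eq_or_lt with ht0 | ht0
    · have hx0 : x = 0 := by
        rw [← ht0, div_le_iff₀ hsin, zero_mul] at hT
        linarith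
      have := hb (π / 2) ⟨by linarith, le_rfl⟩ 0 le_rfl
      rw [hx0, ← ht0]
      simpa using this
    set z : ℂ := x + t * I with hz
    have hre : z.re = x := by simp [hz]
    have him : z.im = t := by simp [hz]
    have hz0 : z ≠ 0 := fun h => by rw [h] at him; simp at him; linarith
    have hnz : 0 < ‖z‖ := norm_pos_iff.2 hz0
    have htz : t ≤ ‖z‖ := by
      have := Complex.abs_im_le_norm z
      rw [him, abs_of_nonneg ht] at this; exact this
    have harg : π / 2 - κ ≤ arg z := by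
      have h1 : 0 ≤ arg z := Complex.arg_nonneg_iff.2 (by rw [him]; exact ht)
      have h2 : Real.cos (arg z) ≤ Real.cos (π / 2 - κ) := by
        rw [Complex.cos_arg hz0, hre, Real.cos_pi_div_two_sub, div_le_iff₀ hnz]
        rw [div_le_iff₀ hsin] at hT
        nlinarith
      exact (Real.strictAntiOn_cos.le_iff_ge ⟨h1, Complex.arg_le_pi z⟩
        ⟨by linarith, by linarith⟩).1 h2
    have harg' : arg z ≤ π / 2 := by
      exact (Complex.abs_arg_le_pi_div_two_iff.2 (by rw [hre]; exact hx)) |> abs_le.1 |>.2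
    have h3 := hb (arg z) ⟨harg, harg'⟩ ‖z‖ hnz.le
    rw [Complex.norm_mul_exp_arg_mul_I] at h3
    have h4 : K * Real.exp (-(γ * ‖z‖)) ≤ K * Real.exp (-(γ * t)) := by
      gcongr
    exact ⟨h3.1.trans h4, h3.2.trans h4⟩
  have hcont : Continuous (fun t : ℝ => (x : ℂ) + t * I) := by fun_prop
  obtain ⟨K1, hK1⟩ := exists_decay (fun t => F.y a b l (x + t * I)) K γ (x / Real.sin κ) hγ
    ((F.continuousOn_y_Dom a b l).comp hcont.continuousOn (fun t ht => hD t ht))
    (fun t ht hT => (hmain t ht hT).1)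
  obtain ⟨K2, hK2⟩ := exists_decay (fun t => F.dy a b l (x + t * I)) K γ (x / Real.sin κ) hγ
    ((F.continuousOn_dy_Dom a b l).comp hcont.continuousOn (fun t ht => hD t ht))
    (fun t ht hT => (hmain t ht hT).2)
  refine ⟨max K1 K2, γ, hγ, fun t ht => ⟨(hK1 t ht).trans ?_, (hK2 t ht).trans ?_⟩⟩
  · gcongr; exact le_max_left _ _
  · gcongr; exact le_max_right _ _

theorem dly : Stmt_DLY := by
  intro α _ _ F a b l h x hx η hη hη'
  obtain ⟨K, γ, x₀, _, hγ, hx₀, hb⟩ := h
  have hπ := Real.pi_pos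
  have hcos : 0 < Real.cos η := Real.cos_pos_of_mem_Ioo ⟨by linarith, by linarith⟩
  have hsin : Real.sin η ≤ 0 := Real.sin_nonpos_of_nonpos_of_neg_pi_le hη' (by linarith)
  have hs : 0 < Real.cos η + Real.sin η := by
    have h1 : 0 < Real.sin (η + π / 4) :=
      Real.sin_pos_of_pos_of_lt_pi (by linarith) (by linarith)
    rw [Real.sin_add, Real.sin_pi_div_four, Real.cos_pi_div_four] at h1
    have h2 : (0 : ℝ) < √2 / 2 := by positivity
    nlinarith
  have hre : ∀ (y t : ℝ), ((y : ℂ) + t * exp (η * I)).re = y + t * Real.cos η := by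
    intro y t
    rw [Complex.add_re, Complex.ofReal_re, Complex.re_ofReal_mul, Complex.exp_ofReal_mul_I_re]
  have him : ∀ (y t : ℝ), ((y : ℂ) + t * exp (η * I)).im = t * Real.sin η := by
    intro y t
    rw [Complex.add_im, Complex.ofReal_im, Complex.im_ofReal_mul, Complex.exp_ofReal_mul_I_im,
      zero_add]
  have hD : ∀ t : ℝ, 0 ≤ t → (x : ℂ) + t * exp (η * I) ∈ Dom := by
    intro t ht
    rcases ht.eq_or_lt with ht0 | ht0
    · rcases hx.eq_or_lt with hx0 | hx0
      · left; rw [← hx0, ← ht0]; simp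
      · exact mem_Dom_of_re_pos (by rw [hre, ← ht0]; linarith)
    · exact mem_Dom_of_re_pos (by rw [hre]; positivity)
  have hK : 0 ≤ K := by
    have := (hb 0 ⟨by linarith, le_rfl⟩ 0 le_rfl).1
    simp only [mul_zero, neg_zero, Real.exp_zero, mul_one] at this
    exact (norm_nonneg _).trans this
  set T := |x₀ - x| / (Real.cos η + Real.sin η) with hT
  have hmain : ∀ t : ℝ, 0 ≤ t → T ≤ t →
      ‖F.y a b l (x + t * exp (η * I))‖ ≤ (K * Real.exp (γ * |x₀ - x|)) * Real.exp (-(γ * t)) ∧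
      ‖F.dy a b l (x + t * exp (η * I))‖ ≤
        (K * Real.exp (γ * |x₀ - x|)) * Real.exp (-(γ * t)) := by
    intro t ht hTt
    set z : ℂ := ((x - x₀ : ℝ) : ℂ) + t * exp (η * I) with hz
    have hzre : z.re = x - x₀ + t * Real.cos η := hre _ _
    have hzim : z.im = t * Real.sin η := him _ _
    have h1 : x₀ - x ≤ t * (Real.cos η + Real.sin η) := by
      rw [hT, div_le_iff₀ hs] at hTt
      exact (le_abs_self _).trans hTt
    have himn : z.im ≤ 0 := by rw [hzim]; nlinarith
    have h2 : -z.im ≤ z.re := by rw [hzre, hzim]; nlinarith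
    have hre0 : 0 ≤ z.re := by linarith
    have hxz : (x : ℂ) + t * exp (η * I) = (x₀ : ℂ) + (‖z‖ : ℂ) * exp ((arg z : ℂ) * I) := by
      rw [Complex.norm_mul_exp_arg_mul_I, hz]; push_cast; ring
    have hnorm : t - |x₀ - x| ≤ ‖z‖ := by
      have h3 : ‖(t : ℂ) * exp (η * I)‖ = t := by
        rw [norm_mul, Complex.norm_exp_ofReal_mul_I, mul_one, Complex.norm_real,
          Real.norm_of_nonneg ht]
      have h4 : (t : ℂ) * exp (η * I) = z + ((x₀ - x : ℝ) : ℂ) := by
        rw [hz]; push_cast; ring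
      have h5 : ‖((x₀ - x : ℝ) : ℂ)‖ = |x₀ - x| := by
        rw [Complex.norm_real, Real.norm_eq_abs]
      have h6 := norm_add_le z ((x₀ - x : ℝ) : ℂ)
      rw [← h4, h3, h5] at h6
      linarith
    have harg : arg z ∈ Icc (-(π / 4)) (0 : ℝ) := by
      rcases eq_or_ne z 0 with hz0 | hz0
      · rw [hz0, Complex.arg_zero]
        exact ⟨by linarith, le_rfl⟩
      have hnz : 0 < ‖z‖ := norm_pos_iff.2 hz0
      have habs := Complex.abs_arg_le_pi_div_two_iff.2 hre0
      have hle : arg z ≤ 0 := by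
        rcases himn.eq_or_lt with h0 | h0
        · have : arg z = 0 := Complex.arg_eq_zero_iff.2 ⟨hre0, h0⟩
          rw [this]
        · exact (Complex.arg_neg_iff.2 h0).le
      refine ⟨?_, hle⟩
      have h5 : Real.cos (π / 4) ≤ Real.cos (-(arg z)) := by
        rw [Real.cos_neg, Complex.cos_arg hz0, Real.cos_pi_div_four, le_div_iff₀ hnz]
        have h6 : ‖z‖ ^ 2 ≤ 2 * z.re ^ 2 := by
          rw [← Complex.normSq_eq_norm_sq, Complex.normSq_apply]
          nlinarith
        have h7 : (√2 / 2 * ‖z‖) ^ 2 ≤ z.re ^ 2 := by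
          have : √2 ^ 2 = (2 : ℝ) := Real.sq_sqrt (by norm_num)
          nlinarith
        exact le_of_sq_le_sq h7 hre0
      have h8 := (Real.strictAntiOn_cos.le_iff_ge (a := π / 4) (b := -(arg z))
        ⟨by linarith, by linarith⟩ ⟨by linarith, by linarith [abs_le.1 habs]⟩).1 h5
      linarith
    have h3 := hb (arg z) harg ‖z‖ (norm_nonneg _)
    rw [← hxz] at h3
    have h4 : K * Real.exp (-(γ * ‖z‖)) ≤ (K * Real.exp (γ * |x₀ - x|)) * Real.exp (-(γ * t)) := by
      rw [mul_assoc, ← Real.exp_add]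
      gcongr
      nlinarith
    exact ⟨h3.1.trans h4, h3.2.trans h4⟩
  have hcont : Continuous (fun t : ℝ => (x : ℂ) + t * exp (η * I)) := by fun_prop
  obtain ⟨K1, hK1⟩ := exists_decay (fun t => F.y a b l (x + t * exp (η * I))) _ γ T hγ
    ((F.continuousOn_y_Dom a b l).comp hcont.continuousOn (fun t ht => hD t ht))
    (fun t ht hT => (hmain t ht hT).1)
  obtain ⟨K2, hK2⟩ := exists_decay (fun t => F.dy a b l (x + t * exp (η * I))) _ γ T hγ
    ((F.continuousOn_dy_Dom a b l).comp hcont.continuousOn (fun t ht => hD t ht))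
    (fun t ht hT => (hmain t ht hT).2)
  refine ⟨max K1 K2, γ, hγ, fun t ht => ⟨(hK1 t ht).trans ?_, (hK2 t ht).trans ?_⟩⟩
  · gcongr; exact le_max_left _ _
  · gcongr; exact le_max_right _ _

end Pool.Agent.CRV
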