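import Mathlib

/-!
# MP_182276_mp / S15681 : completeness of root vectors of `-d^2/dx^2 + i|x|^alpha`

Definitions and exact statements of all modules.  The paper proof is in
`/team-store/MP_182276_mp_PROOF.md`.
-/

set_option autoImplicit false

open MeasureTheory Complex Set Filter Topology
open scoped Real

namespace Pool.Agent.CRV

noncomputable section

/-- The slit plane together with the origin. -/
def Dom : Set ℂ := {x : ℂ | x = 0 ∨ x ∈ slitPlane}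

/-- Open first quadrant. -/
def Q1 : Set ℂ := {l : ℂ | 0 < l.re ∧ 0 < l.im}

/-- A fundamental system `C, S` (with `x`-derivatives `dC, dS`) of the equation
`y'' = (i x^alpha - l) y` on the slit plane, normalised at `0`.
Arguments: first `x`, then `l`. -/
structure FS (α : ℝ) where
  C : ℂ → ℂ → ℂ
  dC : ℂ → ℂ → ℂ
  S : ℂ → ℂ → ℂ
  dS : ℂ → ℂ → ℂ
  hC : ∀ l x : ℂ, x ∈ slitPlane → HasDerivAt (fun z => C z l) (dC x l) x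
  hdC : ∀ l x : ℂ, x ∈ slitPlane →
    HasDerivAt (fun z => dC z l) ((I * x ^ (α : ℂ) - l) * C x l) x
  hS : ∀ l x : ℂ, x ∈ slitPlane → HasDerivAt (fun z => S z l) (dS x l) x
  hdS : ∀ l x : ℂ, x ∈ slitPlane →
    HasDerivAt (fun z => dS z l) ((I * x ^ (α : ℂ) - l) * S x l) x
  C0 : ∀ l : ℂ, C 0 l = 1
  dC0 : ∀ l : ℂ, dC 0 l = 0
  S0 : ∀ l : ℂ, S 0 l = 0
  dS0 : ∀ l : ℂ, dS 0 l = 1
  cC : ContinuousOn (fun p : ℂ × ℂ => C p.1 p.2) (Dom ×ˢ univ)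
  cdC : ContinuousOn (fun p : ℂ × ℂ => dC p.1 p.2) (Dom ×ˢ univ)
  cS : ContinuousOn (fun p : ℂ × ℂ => S p.1 p.2) (Dom ×ˢ univ)
  cdS : ContinuousOn (fun p : ℂ × ℂ => dS p.1 p.2) (Dom ×ˢ univ)
  aC : ∀ x ∈ Dom, Differentiable ℂ (fun l => C x l)
  adC : ∀ x ∈ Dom, Differentiable ℂ (fun l => dC x l)
  aS : ∀ x ∈ Dom, Differentiable ℂ (fun l => S x l)
  adS : ∀ x ∈ Dom, Differentiable ℂ (fun l => dS x l)
  bd : ∀ x ∈ Dom, ∀ l : ℂ, ‖C x l‖ + ‖dC x l‖ + ‖S x l‖ + ‖dS x l‖ ≤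
    4 * (1 + ‖x‖) * (1 + ‖l‖ + ‖x‖ ^ α) * Real.exp (‖x‖ * Real.sqrt (‖l‖ + ‖x‖ ^ α))
  /-- Wronskian -/
  wr : ∀ x ∈ Dom, ∀ l : ℂ, C x l * dS x l - dC x l * S x l = 1

/-- The solution with data `y 0 = a`, `y' 0 = b`. -/
def FS.y {α : ℝ} (F : FS α) (a b l x : ℂ) : ℂ := a * F.C x l + b * F.S x l

/-- Its derivative in `x`. -/
def FS.dy {α : ℝ} (F : FS α) (a b l x : ℂ) : ℂ := a * F.dC x l + b * F.dS x l

/-- `y` decays exponentially in the sector with apex `x₀ ≥ 0` and directions `[-π/4, 0]`. -/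
def DecY {α : ℝ} (F : FS α) (K γ x₀ : ℝ) (a b l : ℂ) : Prop :=
  (a ≠ 0 ∨ b ≠ 0) ∧ 0 < γ ∧ 0 ≤ x₀ ∧
    ∀ η ∈ Icc (-(π / 4)) (0 : ℝ), ∀ t : ℝ, 0 ≤ t →
      ‖F.y a b l (x₀ + t * exp (η * I))‖ ≤ K * Real.exp (-(γ * t)) ∧
      ‖F.dy a b l (x₀ + t * exp (η * I))‖ ≤ K * Real.exp (-(γ * t))

/-- `(a, b)` are the data of a nonzero solution decaying at `+∞`. -/
def IsY {α : ℝ} (F : FS α) (a b l : ℂ) : Prop := ∃ K γ x₀ : ℝ, DecY F K γ x₀ a b l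

/-- `(a, b)` are the data of a nonzero solution decaying exponentially in the sector with apex `0`
and directions `[π/2 - κ, π/2]`. -/
def IsX {α : ℝ} (F : FS α) (a b l : ℂ) : Prop :=
  (a ≠ 0 ∨ b ≠ 0) ∧ ∃ K γ κ : ℝ, 0 < γ ∧ 0 < κ ∧ κ ≤ π / 4 ∧
    ∀ η ∈ Icc (π / 2 - κ) (π / 2), ∀ t : ℝ, 0 ≤ t →
      ‖F.y a b l (t * exp (η * I))‖ ≤ K * Real.exp (-(γ * t)) ∧
      ‖F.dy a b l (t * exp (η * I))‖ ≤ K * Real.exp (-(γ * t))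

/-- boundary functional: `true` is Dirichlet (`y 0`), `false` is Neumann (`y' 0`). -/
def bdr (s : Bool) (a b : ℂ) : ℂ := if s then a else b

/-- exponent `ρ = 1/2 + 1/α`. -/
def rho (α : ℝ) : ℝ := 1 / 2 + 1 / α

/-- angle `β = π/(2(α+2))`; all eigenvalues lie on the ray `arg l = 2β`. -/
def beta (α : ℝ) : ℝ := π / (2 * (α + 2))

/-- `k(t) = sqrt (l - i t^α)`, principal branch. -/
def kf (α : ℝ) (l : ℂ) (t : ℝ) : ℂ := (l - I * ((t ^ α : ℝ) : ℂ)) ^ (1 / 2 : ℂ)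

/-- `I(x) = ∫_0^x Im k`. -/
def If (α : ℝ) (l : ℂ) (x : ℝ) : ℝ := ∫ t in (0 : ℝ)..x, (kf α l t).im

/-- `x_1(l) = (Im l)^{1/α}`. -/
def x1 (α : ℝ) (l : ℂ) : ℝ := l.im ^ (1 / α)

/-- `T(l) = I(x_1(l))`. -/
def Tf (α : ℝ) (l : ℂ) : ℝ := If α l (x1 α l)

/-- angular part of `T`. -/
def Th (α ψ : ℝ) : ℝ := Tf α (exp (ψ * I))

/-- WKB energy `|y'|^2 + |k|^2 |y|^2` on the real line. -/
def PP {α : ℝ} (F : FS α) (a b l : ℂ) (x : ℝ) : ℝ :=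
  ‖F.dy a b l x‖ ^ 2 + ‖l - I * ((x ^ α : ℝ) : ℂ)‖ * ‖F.y a b l x‖ ^ 2

/-- `Mp` is the Weyl function of the solutions decaying upwards. -/
def HX {α : ℝ} (F : FS α) (Mp : ℂ → ℂ) : Prop :=
  DifferentiableOn ℂ Mp Q1 ∧ ∀ l ∈ Q1, IsX F 1 (Mp l) l

/-- `m^+(x,l)`, normalised by the boundary functional. -/
def mP {α : ℝ} (F : FS α) (Mp : ℂ → ℂ) (s : Bool) (l : ℂ) (x : ℝ) : ℂ :=
  F.y 1 (Mp l) l x / bdr s 1 (Mp l)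

/-- `E` is entire and `E(l) * bdr(Y) = ∫ f Y` for every decaying solution `Y`. -/
def IsE {α : ℝ} (F : FS α) (s : Bool) (f : ℝ → ℂ) (E : ℂ → ℂ) : Prop :=
  Differentiable ℂ E ∧ ∀ l a b : ℂ, IsY F a b l →
    E l * bdr s a b = ∫ x in Ioi (0 : ℝ), f x * F.y a b l x

/-- `D_x(l) = E(l) - ∫_0^x f m^+`. -/
def Dx {α : ℝ} (F : FS α) (Mp : ℂ → ℂ) (s : Bool) (f : ℝ → ℂ) (E : ℂ → ℂ) (l : ℂ) (x : ℝ) : ℂ :=
  E l - ∫ t in (0 : ℝ)..x, f t * mP F Mp s l t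

/-- the decay statement `P_ε(φ)`. -/
def PE {α : ℝ} (F : FS α) (Mp : ℂ → ℂ) (s : Bool) (f : ℝ → ℂ) (E : ℂ → ℂ) (ε φ : ℝ) : Prop :=
  ∃ r > 0, ∃ R : ℝ, ∀ l : ℂ, R ≤ ‖l‖ → |arg l - φ| ≤ r →
    ‖Dx F Mp s f E l (x1 α l)‖ ≤ Real.exp (-((Th α φ - ε) * ‖l‖ ^ rho α))

/-- `f ∈ L^2(0,∞)`. -/
def L2f (f : ℝ → ℂ) : Prop := MemLp f 2 (volume.restrict (Ioi (0 : ℝ)))

end

end Pool.Agent.CRV
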