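import Pool.Agent.CRV.Stmts

/-!
# Module EF : eigenfunctions on the line
-/

set_option autoImplicit false

open MeasureTheory Complex Set Filter Topology
open scoped Real

namespace Pool.Agent.CRV

noncomputable section

theorem ef_ofReal_mem_Dom {x : ℝ} (hx : 0 ≤ x) : (x : ℂ) ∈ Dom := by
  rcases hx.eq_or_lt with h | h
  · left; rw [← h]; simp
  · right; exact Complex.ofReal_mem_slitPlane.2 h

theorem ef_cont_y {α : ℝ} (F : FS α) (a b l : ℂ) :
    ContinuousOn (fun x : ℝ => F.y a b l x) (Ici 0) := by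
  have h1 : ContinuousOn (fun x : ℝ => F.C x l) (Ici 0) := by
    have := F.cC.comp (f := fun x : ℝ => ((x : ℂ), l)) (s := Ici (0:ℝ))
      (by fun_prop) (fun x hx => ⟨ef_ofReal_mem_Dom hx, mem_univ _⟩)
    exact this
  have h2 : ContinuousOn (fun x : ℝ => F.S x l) (Ici 0) := by
    have := F.cS.comp (f := fun x : ℝ => ((x : ℂ), l)) (s := Ici (0:ℝ))
      (by fun_prop) (fun x hx => ⟨ef_ofReal_mem_Dom hx, mem_univ _⟩)
    exact this
  unfold FS.y
  exact (continuousOn_const.mul h1).add (continuousOn_const.mul h2)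

theorem ef_cont_dy {α : ℝ} (F : FS α) (a b l : ℂ) :
    ContinuousOn (fun x : ℝ => F.dy a b l x) (Ici 0) := by
  have h1 : ContinuousOn (fun x : ℝ => F.dC x l) (Ici 0) := by
    have := F.cdC.comp (f := fun x : ℝ => ((x : ℂ), l)) (s := Ici (0:ℝ))
      (by fun_prop) (fun x hx => ⟨ef_ofReal_mem_Dom hx, mem_univ _⟩)
    exact this
  have h2 : ContinuousOn (fun x : ℝ => F.dS x l) (Ici 0) := by
    have := F.cdS.comp (f := fun x : ℝ => ((x : ℂ), l)) (s := Ici (0:ℝ))
      (by fun_prop) (fun x hx => ⟨ef_ofReal_mem_Dom hx, mem_univ _⟩)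
    exact this
  unfold FS.dy
  exact (continuousOn_const.mul h1).add (continuousOn_const.mul h2)

theorem ef_deriv_y {α : ℝ} (F : FS α) (a b l : ℂ) {x : ℝ} (hx : 0 < x) :
    HasDerivAt (fun t : ℝ => F.y a b l t) (F.dy a b l x) x := by
  have hs : (x : ℂ) ∈ slitPlane := Complex.ofReal_mem_slitPlane.2 hx
  have h := ((F.hC l x hs).const_mul a).add ((F.hS l x hs).const_mul b)
  have h' := HasDerivAt.comp_ofReal (e := fun z => F.y a b l z) (e' := F.dy a b l x) (z := x) h
  exact h'

theorem ef_deriv_dy {α : ℝ} (F : FS α) (a b l : ℂ) {x : ℝ} (hx : 0 < x) :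
    HasDerivAt (fun t : ℝ => F.dy a b l t)
      ((I * (((x ^ α : ℝ)) : ℂ) - l) * F.y a b l x) x := by
  have hs : (x : ℂ) ∈ slitPlane := Complex.ofReal_mem_slitPlane.2 hx
  have h := ((F.hdC l x hs).const_mul a).add ((F.hdS l x hs).const_mul b)
  have h' := HasDerivAt.comp_ofReal (e := fun z => F.dy a b l z)
    (e' := a * ((I * (x : ℂ) ^ (α : ℂ) - l) * F.C x l) + b * ((I * (x : ℂ) ^ (α : ℂ) - l) * F.S x l))
    (z := x) h
  convert h' using 1
  rw [Complex.ofReal_cpow hx.le]
  unfold FS.y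
  ring

theorem ef_cont_even (h : ℝ → ℂ) (hc : ContinuousOn h (Ici 0)) : Continuous (fun x : ℝ => h |x|) := by
  rw [← continuousOn_univ]
  exact hc.comp continuous_abs.continuousOn (fun x _ => abs_nonneg x)

theorem ef_cont_odd (h : ℝ → ℂ) (hc : ContinuousOn h (Ici 0)) (h0 : h 0 = 0) :
    Continuous (fun x : ℝ => ((Real.sign x : ℝ) : ℂ) * h |x|) := by
  have he := ef_cont_even h hc
  have : (fun x : ℝ => ((Real.sign x : ℝ) : ℂ) * h |x|) =
      fun x : ℝ => if (0:ℝ) ≤ x then h |x| else -(h |x|) := by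
    funext x
    rcases lt_trichotomy x 0 with hx | hx | hx
    · rw [Real.sign_of_neg hx, if_neg (not_le.2 hx)]; push_cast; ring
    · subst hx; simp [h0]
    · rw [Real.sign_of_pos hx, if_pos hx.le]; push_cast; ring
  rw [this]
  refine Continuous.if_le he he.neg continuous_const continuous_id ?_
  intro x hx
  rw [← hx]
  simp [h0]

/-- first derivative of `ext` -/
def ext1 {α : ℝ} (F : FS α) (s : Bool) (a b l : ℂ) (x : ℝ) : ℂ :=
  (if s then 1 else ((Real.sign x : ℝ) : ℂ)) * F.dy a b l ((|x| : ℝ) : ℂ)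

theorem ef_ext_cont {α : ℝ} (F : FS α) (s : Bool) (a b l : ℂ) (h : bdr s a b = 0) :
    Continuous (ext F s a b l) := by
  cases s with
  | true =>
    have ha : a = 0 := by simpa [bdr] using h
    have := ef_cont_odd (fun x : ℝ => F.y a b l x) (ef_cont_y F a b l)
      (by simp [FS.y, F.C0, F.S0, ha])
    refine this.congr ?_
    intro x
    simp [ext]
  | false =>
    have := ef_cont_even (fun x : ℝ => F.y a b l x) (ef_cont_y F a b l)
    convert this using 1
    funext x
    simp [ext]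

theorem ef_ext1_cont {α : ℝ} (F : FS α) (s : Bool) (a b l : ℂ) (h : bdr s a b = 0) :
    Continuous (ext1 F s a b l) := by
  cases s with
  | false =>
    have hb : b = 0 := by simpa [bdr] using h
    have := ef_cont_odd (fun x : ℝ => F.dy a b l x) (ef_cont_dy F a b l)
      (by simp [FS.dy, F.dC0, F.dS0, hb])
    refine this.congr ?_
    intro x
    simp [ext1]
  | true =>
    have := ef_cont_even (fun x : ℝ => F.dy a b l x) (ef_cont_dy F a b l)
    convert this using 1
    funext x
    simp [ext1]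

theorem ef_ext_deriv_ne {α : ℝ} (F : FS α) (s : Bool) (a b l : ℂ) {x : ℝ} (hx : x ≠ 0) :
    HasDerivAt (ext F s a b l) (ext1 F s a b l x) x := by
  rcases lt_or_gt_of_ne hx with h | h
  · have h1 : HasDerivAt (fun t : ℝ => F.y a b l ((-t : ℝ) : ℂ)) (-(F.dy a b l ((-x : ℝ) : ℂ))) x := by
      have := (ef_deriv_y F a b l (x := -x) (by linarith)).scomp x (hasDerivAt_neg x)
      simpa [Function.comp_def] using this
    have h2 := h1.const_mul (if s then (-1 : ℂ) else 1)
    have h3 : (fun t : ℝ => (if s then (-1 : ℂ) else 1) * F.y a b l ((-t : ℝ) : ℂ)) =ᶠ[𝓝 x]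
        ext F s a b l := by
      filter_upwards [Iio_mem_nhds h] with t ht
      have ht' : t < 0 := ht
      simp only [ext]
      rw [abs_of_neg ht', Real.sign_of_neg ht']
      cases s <;> simp
    refine (h2.congr_of_eventuallyEq h3.symm).congr_deriv ?_
    unfold ext1
    rw [abs_of_neg h, Real.sign_of_neg h]
    cases s <;> simp
  · have h1 := ef_deriv_y F a b l h
    have h3 : (fun t : ℝ => F.y a b l (t : ℂ)) =ᶠ[𝓝 x] ext F s a b l := by
      filter_upwards [Ioi_mem_nhds h] with t ht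
      have ht' : 0 < t := ht
      simp only [ext]
      rw [abs_of_pos ht', Real.sign_of_pos ht']
      cases s <;> simp
    refine (h1.congr_of_eventuallyEq h3.symm).congr_deriv ?_
    unfold ext1
    rw [abs_of_pos h, Real.sign_of_pos h]
    cases s <;> simp

theorem ef_ext1_deriv_ne {α : ℝ} (F : FS α) (s : Bool) (a b l : ℂ) {x : ℝ} (hx : x ≠ 0) :
    HasDerivAt (ext1 F s a b l)
      ((I * (((|x| ^ α : ℝ)) : ℂ) - l) * ext F s a b l x) x := by
  rcases lt_or_gt_of_ne hx with h | h
  · have h1 : HasDerivAt (fun t : ℝ => F.dy a b l ((-t : ℝ) : ℂ))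
        (-((I * ((((-x) ^ α : ℝ)) : ℂ) - l) * F.y a b l ((-x : ℝ) : ℂ))) x := by
      have := (ef_deriv_dy F a b l (x := -x) (by linarith)).scomp x (hasDerivAt_neg x)
      simpa [Function.comp_def] using this
    have h2 := h1.const_mul (if s then (1 : ℂ) else -1)
    have h3 : (fun t : ℝ => (if s then (1 : ℂ) else -1) * F.dy a b l ((-t : ℝ) : ℂ)) =ᶠ[𝓝 x]
        ext1 F s a b l := by
      filter_upwards [Iio_mem_nhds h] with t ht
      have ht' : t < 0 := ht
      simp only [ext1]
      rw [abs_of_neg ht', Real.sign_of_neg ht']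
      cases s <;> simp
    refine (h2.congr_of_eventuallyEq h3.symm).congr_deriv ?_
    unfold ext
    rw [abs_of_neg h, Real.sign_of_neg h]
    cases s <;> simp
  · have h1 := ef_deriv_dy F a b l h
    have h3 : (fun t : ℝ => F.dy a b l (t : ℂ)) =ᶠ[𝓝 x] ext1 F s a b l := by
      filter_upwards [Ioi_mem_nhds h] with t ht
      have ht' : 0 < t := ht
      simp only [ext1]
      rw [abs_of_pos ht', Real.sign_of_pos ht']
      cases s <;> simp
    refine (h1.congr_of_eventuallyEq h3.symm).congr_deriv ?_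
    unfold ext
    rw [abs_of_pos h, Real.sign_of_pos h]
    cases s <;> simp

theorem ef_ext2_cont {α : ℝ} (hα : 0 < α) (F : FS α) (s : Bool) (a b l : ℂ) (h : bdr s a b = 0) :
    Continuous (fun x : ℝ => (I * (((|x| ^ α : ℝ)) : ℂ) - l) * ext F s a b l x) := by
  have h1 := ef_ext_cont F s a b l h
  have h2 : Continuous (fun x : ℝ => (|x| ^ α : ℝ)) :=
    continuous_abs.rpow_const (fun x => Or.inr hα.le)
  have h3 : Continuous (fun x : ℝ => (((|x| ^ α : ℝ)) : ℂ)) := Complex.continuous_ofReal.comp h2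
  exact ((continuous_const.mul h3).sub continuous_const).mul h1

theorem ef_ext_deriv {α : ℝ} (F : FS α) (s : Bool) (a b l : ℂ) (h : bdr s a b = 0) (x : ℝ) :
    HasDerivAt (ext F s a b l) (ext1 F s a b l x) x := by
  by_cases hx : x = 0
  · subst hx
    exact hasDerivAt_of_hasDerivAt_of_ne (g := ext1 F s a b l)
      (fun y hy => ef_ext_deriv_ne F s a b l hy)
      (ef_ext_cont F s a b l h).continuousAt (ef_ext1_cont F s a b l h).continuousAt
  · exact ef_ext_deriv_ne F s a b l hx

theorem ef_ext1_deriv {α : ℝ} (hα : 0 < α) (F : FS α) (s : Bool) (a b l : ℂ) (h : bdr s a b = 0)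
    (x : ℝ) : HasDerivAt (ext1 F s a b l)
      ((I * (((|x| ^ α : ℝ)) : ℂ) - l) * ext F s a b l x) x := by
  by_cases hx : x = 0
  · subst hx
    exact hasDerivAt_of_hasDerivAt_of_ne
      (g := fun x : ℝ => (I * (((|x| ^ α : ℝ)) : ℂ) - l) * ext F s a b l x)
      (fun y hy => ef_ext1_deriv_ne F s a b l hy)
      (ef_ext1_cont F s a b l h).continuousAt (ef_ext2_cont hα F s a b l h).continuousAt
  · exact ef_ext1_deriv_ne F s a b l hx

theorem ef_integrable_exp_abs {γ : ℝ} (hγ : 0 < γ) :
    Integrable (fun x : ℝ => Real.exp (-(γ * |x|))) := by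
  have h1 : IntegrableOn (fun x : ℝ => Real.exp (-(γ * |x|))) (Ioi 0) := by
    refine (integrableOn_exp_mul_Ioi (a := -γ) (by linarith) 0).congr_fun ?_ measurableSet_Ioi
    intro x hx
    have hx' : 0 < x := hx
    simp only
    rw [abs_of_pos hx']
    ring_nf
  have h2 : IntegrableOn (fun x : ℝ => Real.exp (-(γ * |x|))) (Iic 0) := by
    refine (integrableOn_exp_mul_Iic (a := γ) hγ 0).congr_fun ?_ measurableSet_Iic
    intro x hx
    have hx' : x ≤ 0 := hx
    simp only
    rw [abs_of_nonpos hx']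
    ring_nf
  have h3 := h2.union h1
  rw [Iic_union_Ioi, integrableOn_univ] at h3
  exact h3

theorem EF_proof (hDLY : Stmt_DLY) : Stmt_EF := by
  intro α hα hα' F s a b l hY hb
  have hd1 : deriv (ext F s a b l) = ext1 F s a b l :=
    funext fun x => (ef_ext_deriv F s a b l hb x).deriv
  have hd2 : deriv (ext1 F s a b l) =
      fun x : ℝ => (I * (((|x| ^ α : ℝ)) : ℂ) - l) * ext F s a b l x :=
    funext fun x => (ef_ext1_deriv hα F s a b l hb x).deriv
  refine ⟨?_, ?_, ?_⟩
  · have h2 : ContDiff ℝ (1 + 1) (ext F s a b l) := by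
      rw [contDiff_succ_iff_deriv]
      refine ⟨fun x => (ef_ext_deriv F s a b l hb x).differentiableAt, by simp, ?_⟩
      rw [hd1, contDiff_one_iff_deriv]
      refine ⟨fun x => (ef_ext1_deriv hα F s a b l hb x).differentiableAt, ?_⟩
      rw [hd2]
      exact ef_ext2_cont hα F s a b l hb
    have : (1 + 1 : WithTop ℕ∞) = 2 := by norm_num
    rwa [this] at h2
  · obtain ⟨K, γ, hγ, hK⟩ := hDLY α hα hα' F a b l hY 0 le_rfl 0 (by linarith [Real.pi_pos]) le_rfl
    have hbound : ∀ x : ℝ, ‖ext F s a b l x‖ ≤ K * Real.exp (-(γ * |x|)) := by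
      intro x
      have h1 := (hK |x| (abs_nonneg x)).1
      have h2 : ((0 : ℝ) : ℂ) + ((|x| : ℝ) : ℂ) * exp (((0 : ℝ) : ℂ) * I) = ((|x| : ℝ) : ℂ) := by
        simp
      rw [h2] at h1
      refine le_trans ?_ h1
      unfold ext
      rw [norm_mul]
      have h3 : ‖(if s then ((Real.sign x : ℝ) : ℂ) else 1)‖ ≤ 1 := by
        cases s with
        | false => simp
        | true =>
          simp only [if_true]
          rcases lt_trichotomy x 0 with hx | hx | hx
          · rw [Real.sign_of_neg hx]; simp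
          · subst hx; simp
          · rw [Real.sign_of_pos hx]; simp
      calc ‖(if s then ((Real.sign x : ℝ) : ℂ) else 1)‖ * ‖F.y a b l ((|x| : ℝ) : ℂ)‖
          ≤ 1 * ‖F.y a b l ((|x| : ℝ) : ℂ)‖ := by gcongr
        _ = _ := one_mul _
    have hm : AEStronglyMeasurable (ext F s a b l) (volume : Measure ℝ) :=
      (ef_ext_cont F s a b l hb).aestronglyMeasurable
    rw [memLp_two_iff_integrable_sq_norm hm]
    have hi : Integrable (fun x : ℝ => K ^ 2 * Real.exp (-((2 * γ) * |x|))) :=
      (ef_integrable_exp_abs (by linarith : 0 < 2 * γ)).const_mul _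
    refine hi.mono' (hm.norm.pow 2) ?_
    refine Filter.Eventually.of_forall fun x => ?_
    have h1 := hbound x
    have h2 : ‖ext F s a b l x‖ ^ 2 ≤ (K * Real.exp (-(γ * |x|))) ^ 2 := by gcongr
    rw [Real.norm_of_nonneg (by positivity)]
    refine h2.trans (le_of_eq ?_)
    rw [mul_pow, ← Real.exp_nat_mul]
    congr 2
    push_cast
    ring
  · intro x
    rw [hd1, hd2]
    ring

end

end Pool.Agent.CRV
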