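import Pool.Agent.CRV.Stmts

set_option autoImplicit false

open MeasureTheory Complex Set Filter Topology
open scoped Real

namespace Pool.Agent.CRV

theorem en : Stmt_EN := by
  intro Q w dw B K γ hγ hQc hwc hdwc hw hdw hQ hwb hdwb
  have hexp : IntegrableOn (fun t : ℝ => Real.exp (-(γ * t))) (Ioi 0) := by
    have := exp_neg_integrableOn_Ioi 0 hγ
    simpa using this
  have hmeas : ∀ {E : Type} [TopologicalSpace E] [TopologicalSpace.PseudoMetrizableSpace E]
      [SecondCountableTopology E] {f : ℝ → E},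
      ContinuousOn f (Ici 0) → AEStronglyMeasurable f (volume.restrict (Ioi 0)) := by
    intro E _ _ _ f hf
    exact (hf.mono Ioi_subset_Ici_self).aestronglyMeasurable measurableSet_Ioi
  have hK0 : 0 ≤ K := by
    have := (norm_nonneg _).trans (hwb 0 le_rfl)
    simpa using this
  have hee : ∀ t : ℝ, 0 ≤ t → (K * Real.exp (-(γ * t))) ^ 2 ≤ K ^ 2 * Real.exp (-(γ * t)) := by
    intro t ht
    have h1 : Real.exp (-(γ * t)) ≤ 1 := by
      rw [Real.exp_le_one_iff]
      have : 0 ≤ γ * t := by positivity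
      linarith
    have h2 : 0 < Real.exp (-(γ * t)) := Real.exp_pos _
    rw [mul_pow]
    apply mul_le_mul_of_nonneg_left _ (by positivity)
    nlinarith
  have hsq : ∀ (v : ℝ → ℂ), ContinuousOn v (Ici 0) →
      (∀ t : ℝ, 0 ≤ t → ‖v t‖ ≤ K * Real.exp (-(γ * t))) →
      IntegrableOn (fun t => ‖v t‖ ^ 2) (Ioi 0) := by
    intro v hvc hv
    refine Integrable.mono' (hexp.const_mul (K ^ 2)) (hmeas (by fun_prop)) ?_
    rw [ae_restrict_iff' measurableSet_Ioi]
    filter_upwards with t ht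
    have ht' : (0 : ℝ) ≤ t := le_of_lt ht
    rw [norm_pow, norm_norm]
    exact (pow_le_pow_left₀ (norm_nonneg _) (hv t ht') 2).trans (hee t ht')
  have i1 := hsq dw hdwc hdwb
  have i2 := hsq w hwc hwb
  have ht1 : ∀ t : ℝ, 0 ≤ t → (1 + t) * Real.exp (-(γ * t)) ≤ 1 + 1 / γ := by
    intro t ht
    have h1 : Real.exp (-(γ * t)) ≤ 1 := by
      rw [Real.exp_le_one_iff]
      have : 0 ≤ γ * t := by positivity
      linarith
    have h2 : γ * t + 1 ≤ Real.exp (γ * t) := Real.add_one_le_exp _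
    have h3 : γ * t * Real.exp (-(γ * t)) ≤ 1 := by
      rw [Real.exp_neg, ← div_eq_mul_inv, div_le_one (Real.exp_pos _)]
      linarith
    have h4 : t * Real.exp (-(γ * t)) ≤ 1 / γ := by
      rw [le_div_iff₀ hγ]
      linarith
    linarith
  have i3 : IntegrableOn (fun t => Q t * ((‖w t‖ ^ 2 : ℝ) : ℂ)) (Ioi 0) := by
    refine Integrable.mono' (hexp.const_mul (|B| * K ^ 2 * (1 + 1 / γ)))
      (hmeas (by fun_prop)) ?_
    rw [ae_restrict_iff' measurableSet_Ioi]
    filter_upwards with t ht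
    have ht' : (0 : ℝ) ≤ t := le_of_lt ht
    rw [norm_mul, Complex.norm_real, norm_pow, norm_norm]
    have h1 : ‖Q t‖ ≤ |B| * (1 + t) :=
      (hQ t ht').trans (mul_le_mul_of_nonneg_right (le_abs_self B) (by linarith))
    have h2 : ‖w t‖ ^ 2 ≤ K ^ 2 * (Real.exp (-(γ * t)) * Real.exp (-(γ * t))) := by
      refine (pow_le_pow_left₀ (norm_nonneg _) (hwb t ht') 2).trans (le_of_eq ?_)
      ring
    calc ‖Q t‖ * ‖w t‖ ^ 2 ≤ |B| * (1 + t) * (K ^ 2 * (Real.exp (-(γ * t)) * Real.exp (-(γ * t)))) :=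
          mul_le_mul h1 h2 (by positivity) (by positivity)
      _ = |B| * K ^ 2 * ((1 + t) * Real.exp (-(γ * t))) * Real.exp (-(γ * t)) := by ring
      _ ≤ |B| * K ^ 2 * (1 + 1 / γ) * Real.exp (-(γ * t)) := by
          apply mul_le_mul_of_nonneg_right _ (Real.exp_pos _).le
          apply mul_le_mul_of_nonneg_left (ht1 t ht') (by positivity)
  refine ⟨i1, i2, i3, ?_⟩
  have i1' : IntegrableOn (fun t => ((‖dw t‖ ^ 2 : ℝ) : ℂ)) (Ioi 0) := i1.ofReal
  have hint := integral_Ioi_of_hasDerivAt_of_tendsto (a := (0 : ℝ))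
    (f := fun t => dw t * (starRingEnd ℂ) (w t))
    (f' := fun t => ((‖dw t‖ ^ 2 : ℝ) : ℂ) + Q t * ((‖w t‖ ^ 2 : ℝ) : ℂ)) (m := 0)
    (by
      apply ContinuousWithinAt.mul
      · exact hdwc 0 (mem_Ici.2 le_rfl)
      · exact Complex.continuous_conj.continuousAt.comp_continuousWithinAt
          (hwc 0 (mem_Ici.2 le_rfl)))
    (by
      intro t ht
      have h1 := hdw t ht
      have h2 := (hw t ht).star
      have h3 := h1.mul h2
      have e : ((‖dw t‖ ^ 2 : ℝ) : ℂ) + Q t * ((‖w t‖ ^ 2 : ℝ) : ℂ) =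
          Q t * w t * star (w t) + dw t * star (dw t) := by
        have e1 : ((‖dw t‖ ^ 2 : ℝ) : ℂ) = dw t * star (dw t) := by
          rw [← Complex.normSq_eq_norm_sq, ← Complex.mul_conj]
          rfl
        have e2 : ((‖w t‖ ^ 2 : ℝ) : ℂ) = w t * star (w t) := by
          rw [← Complex.normSq_eq_norm_sq, ← Complex.mul_conj]
          rfl
        rw [e1, e2]
        ring
      rw [e]
      exact h3)
    (i1'.add i3)
    (by
      rw [tendsto_zero_iff_norm_tendsto_zero]
      have hlim : Tendsto (fun t : ℝ => K ^ 2 * Real.exp (-(γ * t))) atTop (𝓝 0) := by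
        rw [show (0 : ℝ) = K ^ 2 * 0 by ring]
        apply Tendsto.const_mul
        apply Real.tendsto_exp_atBot.comp
        apply tendsto_neg_atTop_atBot.comp
        exact tendsto_id.const_mul_atTop hγ
      refine squeeze_zero' (Eventually.of_forall fun t => norm_nonneg _) ?_ hlim
      filter_upwards [eventually_ge_atTop (0 : ℝ)] with t ht
      rw [norm_mul, RCLike.norm_conj]
      calc ‖dw t‖ * ‖w t‖ ≤ (K * Real.exp (-(γ * t))) * (K * Real.exp (-(γ * t))) :=
            mul_le_mul (hdwb t ht) (hwb t ht) (norm_nonneg _) ((norm_nonneg _).trans (hdwb t ht))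
        _ = (K * Real.exp (-(γ * t))) ^ 2 := by ring
        _ ≤ _ := hee t ht)
  rw [zero_sub, integral_add i1' i3, integral_complex_ofReal] at hint
  exact hint

end Pool.Agent.CRV
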