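import Pool.Agent.CRV.APRIE

set_option autoImplicit false

open MeasureTheory Complex Set Filter Topology
open scoped Real

namespace Pool.Agent.CRV

noncomputable section

namespace U23

lemma isY_ne {α : ℝ} {F : FS α} {a b l : ℂ} (h : IsY F a b l) : a ≠ 0 ∨ b ≠ 0 := by
  obtain ⟨K, γ, x₀, h1⟩ := h
  exact h1.1

/-- proportionality of the data of two decaying solutions -/
lemma prop_of_YU (hYU : Stmt_YU) {α : ℝ} (h0 : 0 < α) (h1 : α ≤ 2 / 3) (F : FS α)
    {a b a' b' l : ℂ} (h : IsY F a b l) (h' : IsY F a' b' l) :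
    ∃ t : ℂ, t ≠ 0 ∧ a' = t * a ∧ b' = t * b := by
  have e := hYU α h0 h1 F l a b a' b' h h'
  -- a * b' = a' * b
  rcases isY_ne h with ha | hb
  · refine ⟨a' / a, ?_, by field_simp, ?_⟩
    · intro h2
      have ha' : a' = 0 := by
        rcases div_eq_zero_iff.1 h2 with h3 | h3
        · exact h3
        · exact absurd h3 ha
      rw [ha', zero_mul] at e
      rcases mul_eq_zero.1 e with h3 | h3
      · exact ha h3
      · rcases isY_ne h' with h4 | h4
        · exact h4 ha'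
        · exact h4 h3
    · field_simp
      rw [mul_comm b' a, e]
  · refine ⟨b' / b, ?_, ?_, by field_simp⟩
    · intro h2
      have hb' : b' = 0 := by
        rcases div_eq_zero_iff.1 h2 with h3 | h3
        · exact h3
        · exact absurd h3 hb
      rw [hb', mul_zero] at e
      rcases mul_eq_zero.1 e.symm with h3 | h3
      · rcases isY_ne h' with h4 | h4
        · exact h4 h3
        · exact h4 hb'
      · exact hb h3
    · field_simp
      rw [← e, mul_comm]

lemma y_smul {α : ℝ} (F : FS α) (t a b l x : ℂ) :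
    F.y (t * a) (t * b) l x = t * F.y a b l x := by
  unfold FS.y; ring

lemma bdr_smul (s : Bool) (t a b : ℂ) : bdr s (t * a) (t * b) = t * bdr s a b := by
  cases s <;> simp [bdr]

lemma int_smul {α : ℝ} (F : FS α) (f : ℝ → ℂ) (t a b l : ℂ) :
    ∫ x in Ioi (0 : ℝ), f x * F.y (t * a) (t * b) l x =
      t * ∫ x in Ioi (0 : ℝ), f x * F.y a b l x := by
  rw [← MeasureTheory.integral_const_mul]
  congr 1
  funext x
  rw [y_smul]; ring

/-- zeros of the boundary functional are simple -/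
lemma simple_zero (hZ : Stmt_ZHER) {α : ℝ} (h0 : 0 < α) (h1 : α ≤ 2 / 3) (F : FS α) (s : Bool)
    (R : ℝ) (a b : ℂ → ℂ) (ha : DifferentiableOn ℂ a (Metric.ball 0 R))
    (hb : DifferentiableOn ℂ b (Metric.ball 0 R))
    (hab : ∀ l ∈ Metric.ball (0 : ℂ) R, IsY F (a l) (b l) l) (l₀ : ℂ)
    (hl₀ : l₀ ∈ Metric.ball (0 : ℂ) R) (hz : bdr s (a l₀) (b l₀) = 0) (d : ℂ)
    (hd : HasDerivAt (fun l => bdr s (a l) (b l)) d l₀) : d ≠ 0 := by
  intro hd0
  set θ : ℝ := 2 * beta α with hθ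
  have hcast : (-(2 * (beta α : ℂ)) * I) = (-((θ : ℝ) : ℂ) * I) := by rw [hθ]; push_cast; ring
  set u : ℂ := exp (-(θ : ℂ) * I) with hu
  set v : ℂ := I * exp ((θ : ℂ) * I) with hv
  have huv : v * u = I := by
    rw [hu, hv, mul_assoc, ← Complex.exp_add]; simp
  have hvn : ‖v‖ = 1 := by
    rw [hv, norm_mul, Complex.norm_I, one_mul, Complex.norm_exp_ofReal_mul_I]
  -- `Im (l₀ u) = 0`
  have him0 : (l₀ * u).im = 0 := by
    by_contra hne
    have := hZ α h0 h1 F (a l₀) (b l₀) l₀ (hab l₀ hl₀) (by rw [hcast]; exact hne)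
    cases s
    · exact this.2.1 (by simpa [bdr] using hz)
    · exact this.1 (by simpa [bdr] using hz)
  have hnhds : Metric.ball (0 : ℂ) R ∈ 𝓝 l₀ := Metric.isOpen_ball.mem_nhds hl₀
  have hac : ContinuousAt a l₀ := (ha.differentiableAt hnhds).continuousAt
  have hbc : ContinuousAt b l₀ := (hb.differentiableAt hnhds).continuousAt
  set o : ℂ → ℂ := fun l => bdr (!s) (a l) (b l) with ho
  have hoc : ContinuousAt o l₀ := by
    cases s
    · simpa [ho, bdr] using hac
    · simpa [ho, bdr] using hbc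
  have ho0 : o l₀ ≠ 0 := by
    rcases isY_ne (hab l₀ hl₀) with h | h
    · cases s
      · simpa [ho, bdr] using h
      · exact absurd (by simpa [bdr] using hz) h
    · cases s
      · exact absurd (by simpa [bdr] using hz) h
      · simpa [ho, bdr] using h
  -- the line
  set p : ℝ → ℂ := fun t => l₀ + t * v with hp
  have hpc : Tendsto p (𝓝[>] 0) (𝓝 l₀) := by
    have : ContinuousAt p 0 := by
      apply Continuous.continuousAt
      exact continuous_const.add (Complex.continuous_ofReal.mul continuous_const)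
    have h2 : Tendsto p (𝓝 0) (𝓝 (p 0)) := this
    have h3 : p 0 = l₀ := by simp [hp]
    rw [h3] at h2
    exact h2.mono_left nhdsWithin_le_nhds
  have hpd : HasDerivAt p v 0 := by
    have h2 : HasDerivAt (fun t : ℝ => (t : ℂ)) 1 (0 : ℝ) := Complex.ofRealCLM.hasDerivAt
    have h3 := (h2.mul_const v).const_add l₀
    simpa [hp] using h3
  have hφ : HasDerivAt (fun t : ℝ => bdr s (a (p t)) (b (p t))) (v • d) 0 := by
    have h3 : p 0 = l₀ := by simp [hp]
    have h4 : HasDerivAt (fun l => bdr s (a l) (b l)) d (p 0) := by rw [h3]; exact hd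
    exact HasDerivAt.scomp (0 : ℝ) h4 hpd
  rw [hd0, smul_zero] at hφ
  have hsl := hasDerivAt_iff_tendsto_slope_zero.1 hφ
  have h3 : p 0 = l₀ := by simp [hp]
  simp only [zero_add, h3, hz, sub_zero] at hsl
  have hsl' : Tendsto (fun t : ℝ => t⁻¹ • bdr s (a (p t)) (b (p t))) (𝓝[>] 0) (𝓝 0) :=
    hsl.mono_left (nhdsWithin_mono _ (fun t ht => ne_of_gt ht))
  have hL : Tendsto (fun t : ℝ => ‖o (p t)‖) (𝓝[>] 0) (𝓝 ‖o l₀‖) :=
    (hoc.tendsto.comp hpc).norm
  have hRr : Tendsto (fun t : ℝ => 8 * (1 + ‖p t‖) ^ 2 * (t + 1) *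
      ‖t⁻¹ • bdr s (a (p t)) (b (p t))‖) (𝓝[>] 0)
      (𝓝 (8 * (1 + ‖l₀‖) ^ 2 * (0 + 1) * ‖(0 : ℂ)‖)) := by
    apply Tendsto.mul _ hsl'.norm
    apply Tendsto.mul
    · exact ((hpc.norm.const_add 1).pow 2).const_mul 8
    · have : Tendsto (fun t : ℝ => t) (𝓝[>] 0) (𝓝 0) := tendsto_id.mono_left nhdsWithin_le_nhds
      exact this.add_const 1
  have hle : ∀ᶠ t : ℝ in 𝓝[>] 0, ‖o (p t)‖ ≤ 8 * (1 + ‖p t‖) ^ 2 * (t + 1) *
      ‖t⁻¹ • bdr s (a (p t)) (b (p t))‖ := by
    filter_upwards [hpc.eventually hnhds, self_mem_nhdsWithin] with t ht ht0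
    have ht0' : (0 : ℝ) < t := ht0
    have him : (p t * u).im = t := by
      have : p t * u = l₀ * u + t * I := by
        simp only [hp]
        rw [add_mul, mul_assoc, huv]
      rw [this, Complex.add_im, him0]
      simp
    have hne : (p t * exp (-(2 * beta α) * I)).im ≠ 0 := by
      rw [hcast, him]; exact ht0'.ne'
    obtain ⟨-, -, z1, z2⟩ := hZ α h0 h1 F (a (p t)) (b (p t)) (p t) (hab _ ht) hne
    rw [hcast, him, abs_of_pos ht0'] at z1 z2
    have e1 : 8 * (1 + ‖p t‖) ^ 2 * (t + 1) * ‖t⁻¹ • bdr s (a (p t)) (b (p t))‖ =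
        8 * (1 + ‖p t‖) ^ 2 * (1 + 1 / t) * ‖bdr s (a (p t)) (b (p t))‖ := by
      rw [norm_smul, norm_inv, Real.norm_of_nonneg ht0'.le]
      field_simp
    rw [e1]
    cases s
    · simpa [ho, bdr] using z2
    · simpa [ho, bdr] using z1
  have hfin := le_of_tendsto_of_tendsto hL hRr hle
  rw [norm_zero, mul_zero] at hfin
  exact ho0 (norm_le_zero_iff.1 hfin)

/-- local quotient -/
lemma local_E (hNHOL : Stmt_NHOL) (hY : Stmt_Y) (hYU : Stmt_YU) (hZ : Stmt_ZHER)
    {α : ℝ} (h0 : 0 < α) (h1 : α ≤ 2 / 3) (F : FS α) (s : Bool) (f : ℝ → ℂ) (hf : L2f f)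
    (horth : ∀ l a b : ℂ, IsY F a b l → bdr s a b = 0 →
      ∫ x in Ioi (0 : ℝ), f x * F.y a b l x = 0) (R : ℝ) (hR : 0 < R) :
    ∃ E : ℂ → ℂ, DifferentiableOn ℂ E (Metric.ball 0 R) ∧
      (∀ l ∈ Metric.ball (0 : ℂ) R, ∀ a b : ℂ, IsY F a b l →
        E l * bdr s a b = ∫ x in Ioi (0 : ℝ), f x * F.y a b l x) ∧
      ∀ l₀ ∈ Metric.ball (0 : ℂ) R, ∀ᶠ l in 𝓝[≠] l₀, ∃ a b : ℂ, IsY F a b l ∧ bdr s a b ≠ 0 := by
  obtain ⟨a, b, ha, hb, K, γ, x₀, hdec⟩ := hY α h0 h1 F R hR
  have hab : ∀ l ∈ Metric.ball (0 : ℂ) R, IsY F (a l) (b l) l :=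
    fun l hl => ⟨K, γ, x₀, hdec l hl⟩
  have hN := hNHOL α h0 h1 F f hf R K γ x₀ a b hR ha hb hdec
  set N : ℂ → ℂ := fun l => ∫ x in Ioi (0 : ℝ), f x * F.y (a l) (b l) l x with hNd
  set g : ℂ → ℂ := fun l => bdr s (a l) (b l) with hgd
  have hg : DifferentiableOn ℂ g (Metric.ball 0 R) := by
    cases s
    · simpa [hgd, bdr] using hb
    · simpa [hgd, bdr] using ha
  have hsz : ∀ l₀ ∈ Metric.ball (0 : ℂ) R, g l₀ = 0 → deriv g l₀ ≠ 0 := by
    intro l₀ hl₀ hz
    exact simple_zero hZ h0 h1 F s R a b ha hb hab l₀ hl₀ hz (deriv g l₀)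
      (hg.differentiableAt (Metric.isOpen_ball.mem_nhds hl₀)).hasDerivAt
  have hN0 : ∀ l₀ ∈ Metric.ball (0 : ℂ) R, g l₀ = 0 → N l₀ = 0 :=
    fun l₀ hl₀ hz => horth l₀ _ _ (hab l₀ hl₀) hz
  classical
  set E : ℂ → ℂ := fun l => if g l = 0 then deriv N l / deriv g l else N l / g l with hE
  refine ⟨E, ?_, ?_, ?_⟩
  · intro l₀ hl₀
    have hnhds : Metric.ball (0 : ℂ) R ∈ 𝓝 l₀ := Metric.isOpen_ball.mem_nhds hl₀
    apply DifferentiableAt.differentiableWithinAt
    have hgd0 := hg.differentiableAt hnhds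
    have hNd0 := hN.differentiableAt hnhds
    by_cases hz : g l₀ = 0
    · have hd := hsz l₀ hl₀ hz
      have hNz := hN0 l₀ hl₀ hz
      have dN : DifferentiableAt ℂ (dslope N l₀) l₀ :=
        ((Complex.differentiableOn_dslope hnhds).2 hN).differentiableAt hnhds
      have dg : DifferentiableAt ℂ (dslope g l₀) l₀ :=
        ((Complex.differentiableOn_dslope hnhds).2 hg).differentiableAt hnhds
      have hval : dslope g l₀ l₀ ≠ 0 := by rw [dslope_same]; exact hd
      have hq : DifferentiableAt ℂ (fun l => dslope N l₀ l / dslope g l₀ l) l₀ := dN.div dg hval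
      have heq : E =ᶠ[𝓝 l₀] fun l => dslope N l₀ l / dslope g l₀ l := by
        filter_upwards [dg.continuousAt.eventually_ne hval] with l hl
        by_cases hll : l = l₀
        · rw [hll]
          simp only [hE, hz, if_true, dslope_same]
        · have hsub : l - l₀ ≠ 0 := sub_ne_zero.2 hll
          rw [dslope_of_ne _ hll, slope_def_field, hz, sub_zero] at hl
          have hgl : g l ≠ 0 := by
            intro h
            rw [h, zero_div] at hl
            exact hl rfl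
          rw [dslope_of_ne _ hll, dslope_of_ne _ hll, slope_def_field, slope_def_field, hz,
            hNz, sub_zero, sub_zero]
          simp only [hE, hgl, if_false]
          field_simp
      exact hq.congr_of_eventuallyEq heq
    · have hq : DifferentiableAt ℂ (fun l => N l / g l) l₀ := hNd0.div hgd0 hz
      have heq : E =ᶠ[𝓝 l₀] fun l => N l / g l := by
        filter_upwards [hgd0.continuousAt.eventually_ne hz] with l hl
        simp only [hE, hl, if_false]
      exact hq.congr_of_eventuallyEq heq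
  · intro l hl a' b' h'
    obtain ⟨t, ht, e1, e2⟩ := prop_of_YU hYU h0 h1 F (hab l hl) h'
    rw [e1, e2, bdr_smul, int_smul]
    have hint : ∫ x in Ioi (0 : ℝ), f x * F.y (a l) (b l) l x = N l := rfl
    have hbd : bdr s (a l) (b l) = g l := rfl
    rw [hint, hbd]
    by_cases hz : g l = 0
    · rw [hz, hN0 l hl hz]; simp
    · simp only [hE, hz, if_false]
      field_simp
  · intro l₀ hl₀
    have hnhds : Metric.ball (0 : ℂ) R ∈ 𝓝 l₀ := Metric.isOpen_ball.mem_nhds hl₀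
    have hgd0 := hg.differentiableAt hnhds
    have hgne : ∀ᶠ l in 𝓝[≠] l₀, g l ≠ 0 := by
      by_cases hz : g l₀ = 0
      · have := hgd0.hasDerivAt.eventually_ne (c := 0) (hsz l₀ hl₀ hz)
        exact this
      · exact (hgd0.continuousAt.eventually_ne hz).filter_mono nhdsWithin_le_nhds
    filter_upwards [hgne, mem_nhdsWithin_of_mem_nhds hnhds] with l h1 h2
    exact ⟨a l, b l, hab l h2, h1⟩

end U23

open U23

theorem ent (hNHOL : Stmt_NHOL) (hY : Stmt_Y) (hYU : Stmt_YU) (hZ : Stmt_ZHER) : Stmt_ENT := by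
  intro α h0 h1 F s f hf horth
  have hloc := fun n : ℕ => local_E hNHOL hY hYU hZ h0 h1 F s f hf horth ((n : ℝ) + 1)
    (by positivity)
  choose E hEd hEi hEne using hloc
  have hagree : ∀ n m : ℕ, ∀ l : ℂ, l ∈ Metric.ball (0 : ℂ) ((n : ℝ) + 1) →
      l ∈ Metric.ball (0 : ℂ) ((m : ℝ) + 1) → E n l = E m l := by
    intro n m l hn hm
    have nn : Metric.ball (0 : ℂ) ((n : ℝ) + 1) ∈ 𝓝 l := Metric.isOpen_ball.mem_nhds hn
    have nm : Metric.ball (0 : ℂ) ((m : ℝ) + 1) ∈ 𝓝 l := Metric.isOpen_ball.mem_nhds hm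
    have cn : Tendsto (E n) (𝓝[≠] l) (𝓝 (E n l)) :=
      ((hEd n).differentiableAt nn).continuousAt.tendsto.mono_left nhdsWithin_le_nhds
    have cm : Tendsto (E m) (𝓝[≠] l) (𝓝 (E m l)) :=
      ((hEd m).differentiableAt nm).continuousAt.tendsto.mono_left nhdsWithin_le_nhds
    have heq : E n =ᶠ[𝓝[≠] l] E m := by
      filter_upwards [hEne n l hn, mem_nhdsWithin_of_mem_nhds nn, mem_nhdsWithin_of_mem_nhds nm]
        with z hz h2 h3
      obtain ⟨a, b, hab, hbd⟩ := hz
      have e1 := hEi n z h2 a b hab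
      have e2 := hEi m z h3 a b hab
      exact mul_right_cancel₀ hbd (e1.trans e2.symm)
    exact tendsto_nhds_unique (cn.congr' heq) cm
  have hmem : ∀ l : ℂ, l ∈ Metric.ball (0 : ℂ) ((⌈‖l‖⌉₊ : ℝ) + 1) := by
    intro l
    rw [mem_ball_zero_iff]
    have := Nat.le_ceil ‖l‖
    linarith
  refine ⟨fun l => E ⌈‖l‖⌉₊ l, ?_, ?_⟩
  · intro l₀
    set m := ⌈‖l₀‖ + 1⌉₊ with hm
    have hm1 : ‖l₀‖ + 1 ≤ m := Nat.le_ceil _
    have hl₀ : l₀ ∈ Metric.ball (0 : ℂ) ((m : ℝ) + 1) := by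
      rw [mem_ball_zero_iff]; linarith
    have hd := (hEd m).differentiableAt (Metric.isOpen_ball.mem_nhds hl₀)
    apply hd.congr_of_eventuallyEq
    have hev : ∀ᶠ l : ℂ in 𝓝 l₀, ‖l‖ < ‖l₀‖ + 1 :=
      continuous_norm.continuousAt.eventually_lt continuousAt_const (by linarith)
    filter_upwards [hev] with l hl
    apply hagree _ _ l (hmem l)
    rw [mem_ball_zero_iff]; linarith
  · intro l a b hab
    exact hEi _ l (hmem l) a b hab

end

end Pool.Agent.CRV
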