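import Pool.Agent.CRV.Util23

set_option autoImplicit false

open MeasureTheory Complex Set Filter Topology
open scoped Real

namespace Pool.Agent.CRV

noncomputable section

namespace U23

lemma shift_int (g : ℝ → ℝ) (x₂ : ℝ) :
    (IntegrableOn (fun t => g (x₂ + t)) (Ioi 0) ↔ IntegrableOn g (Ioi x₂)) ∧
    ∫ t in Ioi (0 : ℝ), g (x₂ + t) = ∫ x in Ioi x₂, g x := by
  have hmp : MeasurePreserving (fun t : ℝ => x₂ + t) volume volume :=
    measurePreserving_add_left volume x₂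
  have hme : MeasurableEmbedding (fun t : ℝ => x₂ + t) := measurableEmbedding_addLeft x₂
  have hpre : (fun t : ℝ => x₂ + t) ⁻¹' (Ioi x₂) = Ioi 0 := by
    ext t
    simp
  constructor
  · have := hmp.integrableOn_comp_preimage hme (f := g) (s := Ioi x₂)
    rw [hpre] at this
    exact this
  · have := hmp.setIntegral_preimage_emb hme g (Ioi x₂)
    rw [hpre] at this
    exact this

/-- integrability and bound beyond `x₂` when `x₂^α ≥ 4 |l| + 4`. -/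
lemma tail_bd (hEN : Stmt_EN) (hDLY : Stmt_DLY) {α : ℝ} (h0 : 0 < α) (h1 : α ≤ 2 / 3) (F : FS α)
    (a b l : ℂ) (hab : IsY F a b l) (x₂ : ℝ) (hx₂ : 0 ≤ x₂) (hx₂' : 4 * ‖l‖ + 4 ≤ x₂ ^ α) :
    IntegrableOn (fun x : ℝ => ‖F.y a b l x‖ ^ 2) (Ioi x₂) ∧
    ∫ x in Ioi x₂, ‖F.y a b l x‖ ^ 2 ≤ ‖F.dy a b l x₂‖ * ‖F.y a b l x₂‖ := by
  obtain ⟨K, γ, hγ, hdec⟩ := hDLY α h0 h1 F a b l hab x₂ hx₂ 0 (by linarith [Real.pi_pos]) le_rfl
  have hdec' : ∀ t : ℝ, 0 ≤ t → ‖F.y a b l ((x₂ + t : ℝ) : ℂ)‖ ≤ K * Real.exp (-(γ * t)) ∧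
      ‖F.dy a b l ((x₂ + t : ℝ) : ℂ)‖ ≤ K * Real.exp (-(γ * t)) := by
    intro t ht
    have := hdec t ht
    simp only [ofReal_zero, zero_mul, Complex.exp_zero, mul_one] at this
    push_cast
    exact this
  set w : ℝ → ℂ := fun t => F.y a b l ((x₂ + t : ℝ) : ℂ) with hw
  set dw : ℝ → ℂ := fun t => F.dy a b l ((x₂ + t : ℝ) : ℂ) with hdw
  set Q : ℝ → ℂ := fun t => I * (((x₂ + t) ^ α : ℝ) : ℂ) - l with hQ
  have hmap : MapsTo (fun t : ℝ => x₂ + t) (Ici 0) (Ici 0) := by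
    intro t ht
    exact add_nonneg hx₂ ht
  have hcs : ContinuousOn (fun t : ℝ => x₂ + t) (Ici 0) :=
    (continuous_const.add continuous_id).continuousOn
  have cw : ContinuousOn w (Ici 0) := (cont_y F a b l).comp hcs hmap
  have cdw : ContinuousOn dw (Ici 0) := (cont_dy F a b l).comp hcs hmap
  have cQ : ContinuousOn Q (Ici 0) := by
    apply ContinuousOn.sub _ continuousOn_const
    apply continuousOn_const.mul
    apply Complex.continuous_ofReal.comp_continuousOn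
    exact hcs.rpow_const (fun t _ => Or.inr h0.le)
  have dw1 : ∀ t : ℝ, 0 < t → HasDerivAt w (dw t) t := by
    intro t ht
    have hp : (0 : ℝ) < x₂ + t := by linarith
    have h := (hasDeriv_y F a b l (real_mem_slit hp)).comp_ofReal
    exact h.comp_const_add x₂ t
  have dw2 : ∀ t : ℝ, 0 < t → HasDerivAt dw (Q t * w t) t := by
    intro t ht
    have hp : (0 : ℝ) < x₂ + t := by linarith
    have h := (hasDeriv_dy F a b l (real_mem_slit hp)).comp_ofReal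
    have h' := h.comp_const_add x₂ t
    have e : (I * ((x₂ + t : ℝ) : ℂ) ^ (α : ℂ) - l) * F.y a b l ((x₂ + t : ℝ) : ℂ) = Q t * w t := by
      simp only [hQ, hw]
      rw [Complex.ofReal_cpow hp.le]
    rw [← e]
    exact h'
  have hα1 : α ≤ 1 := by linarith
  have bQ : ∀ t : ℝ, 0 ≤ t → ‖Q t‖ ≤ (1 + x₂ + ‖l‖) * (1 + t) := by
    intro t ht
    have hp : (0 : ℝ) ≤ x₂ + t := by linarith
    have e1 : (x₂ + t) ^ α ≤ 1 + (x₂ + t) := by
      rcases le_total (x₂ + t) 1 with h | h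
      · have := Real.rpow_le_one hp h h0.le
        linarith
      · have := Real.rpow_le_rpow_of_exponent_le h hα1
        rw [Real.rpow_one] at this
        linarith
    have e2 : ‖Q t‖ ≤ (x₂ + t) ^ α + ‖l‖ := by
      refine (norm_sub_le _ _).trans ?_
      rw [norm_mul, Complex.norm_I, one_mul, Complex.norm_real, Real.norm_of_nonneg
        (Real.rpow_nonneg hp _)]
    have : 0 ≤ ‖l‖ := norm_nonneg _
    nlinarith
  obtain ⟨i1, i2, i3, hid⟩ := hEN Q w dw (1 + x₂ + ‖l‖) K γ hγ cQ cw cdw dw1 dw2 bQ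
    (fun t ht => (hdec' t ht).1) (fun t ht => (hdec' t ht).2)
  -- rotate
  set e : ℂ := exp ((-(π / 4) : ℝ) * I) with he
  have hee : e = (Real.sqrt 2 / 2 : ℝ) - (Real.sqrt 2 / 2 : ℝ) * I := by
    rw [he, Complex.exp_mul_I, ← Complex.ofReal_cos, ← Complex.ofReal_sin, Real.cos_neg,
      Real.sin_neg, Real.cos_pi_div_four, Real.sin_pi_div_four]
    push_cast
    ring
  have hen : ‖e‖ = 1 := by
    rw [he, Complex.norm_exp_ofReal_mul_I]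
  have hs2 : (1 : ℝ) ≤ Real.sqrt 2 := Real.one_le_sqrt.2 (by norm_num)
  have hQre : ∀ t : ℝ, 0 ≤ t → 1 ≤ (e * Q t).re := by
    intro t ht
    have hp : (0 : ℝ) ≤ x₂ + t := by linarith
    have e1 : 4 * ‖l‖ + 4 ≤ (x₂ + t) ^ α :=
      hx₂'.trans (Real.rpow_le_rpow hx₂ (by linarith) h0.le)
    have e2 : (e * Q t).re = Real.sqrt 2 / 2 * (x₂ + t) ^ α - (e * l).re := by
      have : e * Q t = e * I * (((x₂ + t) ^ α : ℝ) : ℂ) - e * l := by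
        simp only [hQ]; ring
      rw [this, Complex.sub_re, Complex.re_mul_ofReal]
      congr 2
      rw [hee]
      simp
    have e3 : (e * l).re ≤ ‖l‖ := by
      refine (Complex.re_le_norm _).trans ?_
      rw [norm_mul, hen, one_mul]
    rw [e2]
    have : 0 ≤ ‖l‖ := norm_nonneg _
    nlinarith
  have hre := congrArg (fun z : ℂ => (e * z).re) hid
  simp only [mul_add, Complex.add_re] at hre
  have r1 : 0 ≤ (e * ((∫ t in Ioi (0 : ℝ), ‖dw t‖ ^ 2 : ℝ) : ℂ)).re := by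
    rw [Complex.re_mul_ofReal]
    have : 0 ≤ e.re := by
      rw [hee]; simp
      positivity
    exact mul_nonneg this (integral_nonneg fun t => by positivity)
  have r2 : ∫ t in Ioi (0 : ℝ), ‖w t‖ ^ 2 ≤
      (e * ∫ t in Ioi (0 : ℝ), Q t * ((‖w t‖ ^ 2 : ℝ) : ℂ)).re := by
    rw [← MeasureTheory.integral_const_mul]
    have i4 : IntegrableOn (fun t => e * (Q t * ((‖w t‖ ^ 2 : ℝ) : ℂ))) (Ioi 0) :=
      i3.const_mul e
    have hcomm := Complex.reCLM.integral_comp_comm i4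
    simp only [Complex.reCLM_apply] at hcomm
    rw [← hcomm]
    apply setIntegral_mono_on i2 _ measurableSet_Ioi
    · intro t ht
      have ht' : (0 : ℝ) ≤ t := le_of_lt ht
      have : (e * (Q t * ((‖w t‖ ^ 2 : ℝ) : ℂ))).re = (e * Q t).re * ‖w t‖ ^ 2 := by
        rw [← mul_assoc, Complex.re_mul_ofReal]
      rw [this]
      have h1 := hQre t ht'
      have h2 : 0 ≤ ‖w t‖ ^ 2 := by positivity
      nlinarith
    · exact i4.re
  have r3 : (e * -(dw 0 * (starRingEnd ℂ) (w 0))).re ≤ ‖dw 0‖ * ‖w 0‖ := by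
    refine (Complex.re_le_norm _).trans ?_
    rw [norm_mul, hen, one_mul, norm_neg, norm_mul, Complex.norm_conj]
  have hw0 : w 0 = F.y a b l x₂ := by simp [hw]
  have hdw0 : dw 0 = F.dy a b l x₂ := by simp [hdw]
  have hmain : ∫ t in Ioi (0 : ℝ), ‖w t‖ ^ 2 ≤ ‖F.dy a b l x₂‖ * ‖F.y a b l x₂‖ := by
    rw [← hw0, ← hdw0]
    linarith
  obtain ⟨s1, s2⟩ := shift_int (fun x : ℝ => ‖F.y a b l x‖ ^ 2) x₂
  refine ⟨s1.1 i2, ?_⟩
  rw [← s2]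
  exact hmain

/-- pointwise bound from `FS.bd`. -/
lemma pt_bd {α : ℝ} (h0 : 0 < α) (F : FS α) (a b l : ℂ) (x x₂ : ℝ) (hx : 0 ≤ x) (hxx : x ≤ x₂) :
    ‖F.y a b l x‖ ≤ (‖a‖ + ‖b‖) * (4 * (1 + x₂) * (1 + ‖l‖ + x₂ ^ α) *
      Real.exp (x₂ * Real.sqrt (‖l‖ + x₂ ^ α))) ∧
    ‖F.dy a b l x‖ ≤ (‖a‖ + ‖b‖) * (4 * (1 + x₂) * (1 + ‖l‖ + x₂ ^ α) *
      Real.exp (x₂ * Real.sqrt (‖l‖ + x₂ ^ α))) := by
  have hb := F.bd x (real_mem_dom hx) l
  rw [Complex.norm_real, Real.norm_of_nonneg hx] at hb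
  have hpow : x ^ α ≤ x₂ ^ α := Real.rpow_le_rpow hx hxx h0.le
  have hx2 : 0 ≤ x₂ := hx.trans hxx
  have hxα : 0 ≤ x ^ α := Real.rpow_nonneg hx _
  have hl : 0 ≤ ‖l‖ := norm_nonneg _
  have hM : 4 * (1 + x) * (1 + ‖l‖ + x ^ α) * Real.exp (x * Real.sqrt (‖l‖ + x ^ α)) ≤
      4 * (1 + x₂) * (1 + ‖l‖ + x₂ ^ α) * Real.exp (x₂ * Real.sqrt (‖l‖ + x₂ ^ α)) := by
    gcongr
  have hb2 := hb.trans hM
  set M := 4 * (1 + x₂) * (1 + ‖l‖ + x₂ ^ α) * Real.exp (x₂ * Real.sqrt (‖l‖ + x₂ ^ α)) with hMd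
  have n1 := norm_nonneg (F.C x l)
  have n2 := norm_nonneg (F.dC x l)
  have n3 := norm_nonneg (F.S x l)
  have n4 := norm_nonneg (F.dS x l)
  have na := norm_nonneg a
  have nb := norm_nonneg b
  constructor
  · unfold FS.y
    refine (norm_add_le _ _).trans ?_
    rw [norm_mul, norm_mul, add_mul]
    exact add_le_add (mul_le_mul_of_nonneg_left (by linarith) na)
      (mul_le_mul_of_nonneg_left (by linarith) nb)
  · unfold FS.dy
    refine (norm_add_le _ _).trans ?_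
    rw [norm_mul, norm_mul, add_mul]
    exact add_le_add (mul_le_mul_of_nonneg_left (by linarith) na)
      (mul_le_mul_of_nonneg_left (by linarith) nb)

lemma pow_add_one_le (ρ Λ : ℝ) (hρ : 0 ≤ ρ) (hΛ : 0 ≤ Λ) :
    (Λ + 1) ^ ρ ≤ 2 ^ ρ * (1 + Λ ^ ρ) := by
  rcases le_total Λ 1 with h | h
  · have h1 : (Λ + 1) ^ ρ ≤ 2 ^ ρ := Real.rpow_le_rpow (by linarith) (by linarith) hρ
    have h2 : 0 ≤ Λ ^ ρ := Real.rpow_nonneg hΛ _
    have h3 : 0 < (2 : ℝ) ^ ρ := Real.rpow_pos_of_pos (by norm_num) _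
    nlinarith
  · have h1 : (Λ + 1) ^ ρ ≤ (2 * Λ) ^ ρ := Real.rpow_le_rpow (by linarith) (by linarith) hρ
    rw [Real.mul_rpow (by norm_num) hΛ] at h1
    have h3 : 0 < (2 : ℝ) ^ ρ := Real.rpow_pos_of_pos (by norm_num) _
    nlinarith

/-- final numerical estimate -/
lemma num_bd {α : ℝ} (h0 : 0 < α) (h1 : α ≤ 2 / 3) (Λ x₂ : ℝ) (hΛ : 0 ≤ Λ)
    (hx₂ : x₂ = (4 * Λ + 4) ^ (1 / α)) :
    2 * (1 + x₂) * (4 * (1 + x₂) * (1 + Λ + x₂ ^ α) *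
      Real.exp (x₂ * Real.sqrt (Λ + x₂ ^ α))) ^ 2 ≤
    Real.exp ((4 + 9 * (5 ^ rho α * 2 ^ rho α)) * (1 + Λ ^ rho α)) := by
  have hbase : (1 : ℝ) ≤ 4 * Λ + 4 := by linarith
  have hinv : 1 ≤ 1 / α := by
    rw [le_div_iff₀ h0]; linarith
  have hxα : x₂ ^ α = 4 * Λ + 4 := by
    rw [hx₂, ← Real.rpow_mul (by linarith)]
    rw [one_div_mul_cancel h0.ne', Real.rpow_one]
  have hx2ge : 4 * Λ + 4 ≤ x₂ := by
    rw [hx₂]
    calc 4 * Λ + 4 = (4 * Λ + 4) ^ (1 : ℝ) := (Real.rpow_one _).symm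
      _ ≤ _ := Real.rpow_le_rpow_of_exponent_le hbase hinv
  rw [hxα]
  set σ := Real.sqrt (Λ + (4 * Λ + 4)) with hσ
  have hσ1 : 1 ≤ σ := Real.one_le_sqrt.2 (by linarith)
  have hx2pos : 0 ≤ x₂ := by linarith
  set Z := x₂ * σ with hZ
  have hxZ : x₂ ≤ Z := by
    rw [hZ]; nlinarith
  -- Z ≤ (5 (Λ + 1)) ^ ρ
  have hZle : Z ≤ 5 ^ rho α * 2 ^ rho α * (1 + Λ ^ rho α) := by
    have hρ : rho α = 1 / α + 1 / 2 := by unfold rho; ring
    have e1 : x₂ ≤ (5 * (Λ + 1)) ^ (1 / α) := by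
      rw [hx₂]
      exact Real.rpow_le_rpow (by linarith) (by linarith) (by positivity)
    have e2 : σ ≤ (5 * (Λ + 1)) ^ (1 / 2 : ℝ) := by
      rw [hσ, Real.sqrt_eq_rpow]
      exact Real.rpow_le_rpow (by linarith) (by linarith) (by norm_num)
    have e3 : Z ≤ (5 * (Λ + 1)) ^ rho α := by
      rw [hρ, Real.rpow_add (by linarith), hZ]
      exact mul_le_mul e1 e2 (by linarith) (Real.rpow_nonneg (by linarith) _)
    have hρ0 : 0 ≤ rho α := by rw [hρ]; positivity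
    have e4 : (5 * (Λ + 1)) ^ rho α ≤ 5 ^ rho α * (2 ^ rho α * (1 + Λ ^ rho α)) := by
      rw [Real.mul_rpow (by norm_num) (by linarith)]
      exact mul_le_mul_of_nonneg_left (pow_add_one_le _ _ hρ0 hΛ)
        (Real.rpow_nonneg (by norm_num) _)
    linarith
  -- elementary exponential bounds
  have a1 : 1 + x₂ ≤ Real.exp Z := by
    have := Real.add_one_le_exp Z
    linarith
  have a2 : 1 + Λ + (4 * Λ + 4) ≤ Real.exp (2 * Z) := by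
    have := Real.add_one_le_exp (2 * Z)
    linarith
  have a3 : (32 : ℝ) ≤ Real.exp 4 := by
    have h := Real.add_one_le_exp (1 : ℝ)
    have h' : Real.exp 4 = (Real.exp 1) ^ 4 := by
      rw [← Real.exp_nat_mul]; norm_num
    have h2 : (2.7182818283 : ℝ) < Real.exp 1 := Real.exp_one_gt_d9
    rw [h']
    calc (32 : ℝ) ≤ (2.7182818283 : ℝ) ^ 4 := by norm_num
      _ ≤ _ := pow_le_pow_left₀ (by norm_num) h2.le 4
  have hLHS : 2 * (1 + x₂) * (4 * (1 + x₂) * (1 + Λ + (4 * Λ + 4)) * Real.exp Z) ^ 2 ≤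
      Real.exp (4 + 9 * Z) := by
    have b0 : 0 ≤ 1 + x₂ := by linarith
    have b1 : 0 ≤ 1 + Λ + (4 * Λ + 4) := by linarith
    have hE : Real.exp (4 + 9 * Z) = Real.exp 4 * (Real.exp Z * (Real.exp Z * Real.exp (2 * Z) *
        Real.exp Z) ^ 2) := by
      rw [← Real.exp_add, ← Real.exp_add, ← Real.exp_nat_mul, ← Real.exp_add, ← Real.exp_add]
      congr 1
      push_cast
      ring
    rw [hE]
    calc 2 * (1 + x₂) * (4 * (1 + x₂) * (1 + Λ + (4 * Λ + 4)) * Real.exp Z) ^ 2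
        = 32 * ((1 + x₂) * ((1 + x₂) * (1 + Λ + (4 * Λ + 4)) * Real.exp Z) ^ 2) := by ring
      _ ≤ Real.exp 4 * (Real.exp Z * (Real.exp Z * Real.exp (2 * Z) * Real.exp Z) ^ 2) := by
          gcongr
  refine hLHS.trans ?_
  apply Real.exp_le_exp.2
  have c1 : 0 ≤ Λ ^ rho α := Real.rpow_nonneg hΛ _
  nlinarith

end U23

open U23

theorem ord (hEN : Stmt_EN) (hDLY : Stmt_DLY) : Stmt_ORD := by
  intro α h0 h1 F
  refine ⟨4 + 9 * (5 ^ rho α * 2 ^ rho α), fun a b l hab => ?_⟩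
  obtain ⟨x₂, hx₂⟩ : ∃ x₂ : ℝ, x₂ = (4 * ‖l‖ + 4) ^ (1 / α) := ⟨_, rfl⟩
  have hl : 0 ≤ ‖l‖ := norm_nonneg _
  have hx0 : 0 ≤ x₂ := by
    rw [hx₂]; exact Real.rpow_nonneg (by linarith) _
  have hxα : x₂ ^ α = 4 * ‖l‖ + 4 := by
    rw [hx₂, ← Real.rpow_mul (by linarith)]
    rw [one_div_mul_cancel h0.ne', Real.rpow_one]
  obtain ⟨t1, t2⟩ := tail_bd hEN hDLY h0 h1 F a b l hab x₂ hx0 hxα.ge
  have hunion : Ioi (0 : ℝ) = Ioc 0 x₂ ∪ Ioi x₂ := (Ioc_union_Ioi_eq_Ioi hx0).symm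
  have hcont : ContinuousOn (fun x : ℝ => ‖F.y a b l x‖ ^ 2) (Icc 0 x₂) :=
    (((cont_y F a b l).mono Icc_subset_Ici_self).norm).pow 2
  have hfin : IntegrableOn (fun x : ℝ => ‖F.y a b l x‖ ^ 2) (Ioc 0 x₂) :=
    (hcont.integrableOn_Icc).mono_set Ioc_subset_Icc_self
  have hint : IntegrableOn (fun x : ℝ => ‖F.y a b l x‖ ^ 2) (Ioi 0) := by
    rw [hunion]
    exact hfin.union t1
  refine ⟨hint, ?_⟩
  set M := 4 * (1 + x₂) * (1 + ‖l‖ + x₂ ^ α) * Real.exp (x₂ * Real.sqrt (‖l‖ + x₂ ^ α)) with hM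
  have hM0 : 0 ≤ M := by
    rw [hM]
    have : 0 ≤ x₂ ^ α := Real.rpow_nonneg hx0 _
    positivity
  have hpt : ∀ x : ℝ, 0 ≤ x → x ≤ x₂ → ‖F.y a b l x‖ ≤ (‖a‖ + ‖b‖) * M ∧
      ‖F.dy a b l x‖ ≤ (‖a‖ + ‖b‖) * M := fun x hx hxx => pt_bd h0 F a b l x x₂ hx hxx
  have hab2 : (‖a‖ + ‖b‖) ^ 2 ≤ 2 * (‖a‖ ^ 2 + ‖b‖ ^ 2) := by
    nlinarith [sq_nonneg (‖a‖ - ‖b‖)]
  have hN0 : 0 ≤ (‖a‖ + ‖b‖) * M := by positivity
  have i1 : ∫ x in Ioc 0 x₂, ‖F.y a b l x‖ ^ 2 ≤ x₂ * ((‖a‖ + ‖b‖) * M) ^ 2 := by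
    have hle : ∫ x in Ioc 0 x₂, ‖F.y a b l x‖ ^ 2 ≤ ∫ x in Ioc 0 x₂, ((‖a‖ + ‖b‖) * M) ^ 2 := by
      apply setIntegral_mono_on hfin _ measurableSet_Ioc
      · intro x hx
        exact pow_le_pow_left₀ (norm_nonneg _) (hpt x hx.1.le hx.2).1 2
      · exact integrableOn_const (by simp)
    refine hle.trans (le_of_eq ?_)
    rw [setIntegral_const, Measure.real, Real.volume_Ioc, sub_zero, ENNReal.toReal_ofReal hx0,
      smul_eq_mul]
  have i2 : ∫ x in Ioi x₂, ‖F.y a b l x‖ ^ 2 ≤ ((‖a‖ + ‖b‖) * M) ^ 2 := by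
    refine t2.trans ?_
    obtain ⟨p1, p2⟩ := hpt x₂ hx0 le_rfl
    rw [sq]
    exact mul_le_mul p2 p1 (norm_nonneg _) hN0
  have hsplit : ∫ x in Ioi (0 : ℝ), ‖F.y a b l x‖ ^ 2 =
      (∫ x in Ioc 0 x₂, ‖F.y a b l x‖ ^ 2) + ∫ x in Ioi x₂, ‖F.y a b l x‖ ^ 2 := by
    rw [hunion]
    exact setIntegral_union (Set.disjoint_left.2 fun x hx hx' => not_lt.2 hx.2 hx')
      measurableSet_Ioi hfin t1
  rw [hsplit]
  have hnum := num_bd h0 h1 ‖l‖ x₂ hl hx₂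
  rw [← hM] at hnum
  calc (∫ x in Ioc 0 x₂, ‖F.y a b l x‖ ^ 2) + ∫ x in Ioi x₂, ‖F.y a b l x‖ ^ 2
      ≤ x₂ * ((‖a‖ + ‖b‖) * M) ^ 2 + ((‖a‖ + ‖b‖) * M) ^ 2 := add_le_add i1 i2
    _ = ((1 + x₂) * M ^ 2) * (‖a‖ + ‖b‖) ^ 2 := by ring
    _ ≤ ((1 + x₂) * M ^ 2) * (2 * (‖a‖ ^ 2 + ‖b‖ ^ 2)) :=
        mul_le_mul_of_nonneg_left hab2 (by positivity)
    _ = (2 * (1 + x₂) * M ^ 2) * (‖a‖ ^ 2 + ‖b‖ ^ 2) := by ring
    _ ≤ _ := mul_le_mul_of_nonneg_right hnum (by positivity)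

end

end Pool.Agent.CRV
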