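import Pool.Agent.CRV.APRIE
import Pool.Agent.CRV.ORD

set_option autoImplicit false

open MeasureTheory Complex Set Filter Topology
open scoped Real

namespace Pool.Agent.CRV

noncomputable section

namespace U23

/-- bound off the ray -/
lemma off_ray (hORD : Stmt_ORD) (hZ : Stmt_ZHER) (hY : Stmt_Y) {α : ℝ} (h0 : 0 < α)
    (h1 : α ≤ 2 / 3) (F : FS α) (s : Bool) (f : ℝ → ℂ) (E : ℂ → ℂ) (hf : L2f f)
    (hE : IsE F s f E) : ∃ A K : ℝ, 0 ≤ A ∧ 0 ≤ K ∧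
    ∀ l : ℂ, (l * exp (-(2 * beta α) * I)).im ≠ 0 →
      ‖E l‖ * |(l * exp (-(2 * beta α) * I)).im| ≤ A * Real.exp (K * (1 + ‖l‖ ^ rho α)) *
        (1 + ‖l‖) ^ 2 * (|(l * exp (-(2 * beta α) * I)).im| + 1) := by
  obtain ⟨K₂, hord⟩ := hORD α h0 h1 F
  set A : ℝ := Real.sqrt (∫ x in Ioi (0 : ℝ), ‖f x‖ ^ 2) with hA
  have hA0 : 0 ≤ A := Real.sqrt_nonneg _
  refine ⟨9 * A, |K₂|, by positivity, abs_nonneg _, fun l him => ?_⟩
  obtain ⟨a, b, hab⟩ := exists_isY hY h0 h1 F l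
  obtain ⟨hb0, hb⟩ := zher_bdr hZ h0 h1 F a b l hab him s
  obtain ⟨hint, hbd⟩ := hord a b l hab
  have hEl := hE.2 l a b hab
  have hcs2 := cs f (fun x : ℝ => F.y a b l x) hf (meas_y F a b l) hint
  rw [← hEl, norm_mul, ← hA] at hcs2
  have hpos : 0 < ‖bdr s a b‖ := norm_pos_iff.2 hb0
  set m := |(l * exp (-(2 * beta α) * I)).im| with hm
  have hm0 : 0 < m := abs_pos.2 him
  set C := 8 * (1 + ‖l‖) ^ 2 * (1 + 1 / m) with hC
  have hl : 0 ≤ ‖l‖ := norm_nonneg _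
  have hC0 : 0 ≤ C := by rw [hC]; positivity
  have hΛ : 0 ≤ ‖l‖ ^ rho α := Real.rpow_nonneg hl _
  have hsq1 : Real.sqrt (∫ x in Ioi (0 : ℝ), ‖F.y a b l x‖ ^ 2) ≤
      Real.exp (|K₂| * (1 + ‖l‖ ^ rho α)) * ((1 + C) * ‖bdr s a b‖) := by
    apply Real.sqrt_le_iff.2
    refine ⟨by positivity, hbd.trans ?_⟩
    have e1 : Real.exp (K₂ * (1 + ‖l‖ ^ rho α)) ≤ Real.exp (|K₂| * (1 + ‖l‖ ^ rho α)) ^ 2 := by
      rw [← Real.exp_nat_mul]
      apply Real.exp_le_exp.2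
      have h2 : K₂ * (1 + ‖l‖ ^ rho α) ≤ |K₂| * (1 + ‖l‖ ^ rho α) :=
        mul_le_mul_of_nonneg_right (le_abs_self _) (by linarith)
      have h3 : 0 ≤ |K₂| * (1 + ‖l‖ ^ rho α) := by positivity
      push_cast
      linarith
    have e2 : 1 + C ^ 2 ≤ (1 + C) ^ 2 := by nlinarith
    calc Real.exp (K₂ * (1 + ‖l‖ ^ rho α)) * (‖a‖ ^ 2 + ‖b‖ ^ 2)
        ≤ Real.exp (|K₂| * (1 + ‖l‖ ^ rho α)) ^ 2 * ((1 + C ^ 2) * ‖bdr s a b‖ ^ 2) :=
          mul_le_mul e1 hb (by positivity) (by positivity)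
      _ ≤ Real.exp (|K₂| * (1 + ‖l‖ ^ rho α)) ^ 2 * ((1 + C) ^ 2 * ‖bdr s a b‖ ^ 2) := by
          gcongr
      _ = _ := by ring
  have h4 : ‖E l‖ * ‖bdr s a b‖ ≤
      (A * Real.exp (|K₂| * (1 + ‖l‖ ^ rho α)) * (1 + C)) * ‖bdr s a b‖ := by
    refine hcs2.trans ((mul_le_mul_of_nonneg_left hsq1 hA0).trans (le_of_eq ?_))
    ring
  have h5 := le_of_mul_le_mul_right h4 hpos
  have h6 : (1 + C) * m ≤ 9 * (1 + ‖l‖) ^ 2 * (m + 1) := by
    have e1 : C * m = 8 * (1 + ‖l‖) ^ 2 * (m + 1) := by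
      rw [hC]; field_simp
    have e2 : m ≤ (1 + ‖l‖) ^ 2 * (m + 1) := by
      have : 1 ≤ (1 + ‖l‖) ^ 2 := one_le_pow₀ (by linarith)
      nlinarith
    rw [add_mul, one_mul, e1]
    linarith
  have hex : 0 ≤ A * Real.exp (|K₂| * (1 + ‖l‖ ^ rho α)) := by positivity
  calc ‖E l‖ * m ≤ (A * Real.exp (|K₂| * (1 + ‖l‖ ^ rho α)) * (1 + C)) * m :=
        mul_le_mul_of_nonneg_right h5 hm0.le
    _ = (A * Real.exp (|K₂| * (1 + ‖l‖ ^ rho α))) * ((1 + C) * m) := by ring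
    _ ≤ (A * Real.exp (|K₂| * (1 + ‖l‖ ^ rho α))) * (9 * (1 + ‖l‖) ^ 2 * (m + 1)) :=
        mul_le_mul_of_nonneg_left h6 hex
    _ = _ := by ring

lemma norm_sq_sub_one (z : ℂ) (hz : ‖z‖ = 1) : ‖z ^ 2 - 1‖ = 2 * |z.im| := by
  have h1 : z * (starRingEnd ℂ) z = 1 := by
    rw [Complex.mul_conj, Complex.normSq_eq_norm_sq, hz]; simp
  have h2 : z ^ 2 - 1 = z * (z - (starRingEnd ℂ) z) := by
    rw [mul_sub, h1]; ring
  rw [h2, norm_mul, hz, one_mul, Complex.sub_conj, norm_mul, Complex.norm_I,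
    mul_one, Complex.norm_real, norm_mul]
  simp

/-- removing the ray by the maximum principle -/
lemma near_ray (θ : ℝ) (E : ℂ → ℂ) (hE : Differentiable ℂ E) (B : ℝ) (hB : 0 ≤ B) (l₀ : ℂ)
    (him : |(l₀ * exp (-(θ : ℂ) * I)).im| ≤ 1)
    (hbd : ∀ l : ℂ, ‖l‖ ≤ ‖l₀‖ + 1 → (l * exp (-(θ : ℂ) * I)).im ≠ 0 →
      |(l * exp (-(θ : ℂ) * I)).im| ≤ 1 → ‖E l‖ * |(l * exp (-(θ : ℂ) * I)).im| ≤ B) :
    ‖E l₀‖ ≤ 2 * B := by
  set u : ℂ := exp (-(θ : ℂ) * I) with hu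
  have hun : ‖u‖ = 1 := by
    rw [hu, show (-(θ : ℂ) * I) = ((-θ : ℝ) : ℂ) * I by push_cast; ring,
      Complex.norm_exp_ofReal_mul_I]
  set c : ℝ := (l₀ * u).re with hc
  set v : ℂ := exp ((θ : ℂ) * I) with hv
  have huv : u * v = 1 := by
    rw [hu, hv, ← Complex.exp_add]; simp
  set lc : ℂ := (c : ℂ) * v with hlc
  have hlcu : lc * u = c := by
    rw [hlc, mul_assoc, mul_comm v u, huv, mul_one]
  have hdist : ∀ l : ℂ, l * u - c = (l - lc) * u := by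
    intro l; rw [sub_mul, hlcu]
  set H : ℂ → ℂ := fun l => E l * ((l * u - c) ^ 2 - 1) with hH
  have hHd : Differentiable ℂ H := by
    apply hE.mul
    exact ((((differentiable_id.mul_const u).sub_const _).pow 2).sub_const 1)
  have hnc : ‖lc‖ ≤ ‖l₀‖ := by
    have h1 : ‖lc‖ = |c| := by
      have := congrArg norm hlcu
      rw [norm_mul, hun, mul_one, Complex.norm_real] at this
      exact this
    rw [h1]
    refine (Complex.abs_re_le_norm _).trans ?_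
    rw [norm_mul, hun, mul_one]
  have hmax := Complex.norm_le_of_forall_mem_frontier_norm_le (U := Metric.ball lc 1) (f := H)
    (C := 2 * B) Metric.isBounded_ball hHd.diffContOnCl
  have hfr : ∀ z ∈ frontier (Metric.ball lc 1), ‖H z‖ ≤ 2 * B := by
    intro z hz
    rw [frontier_ball lc one_ne_zero, mem_sphere_iff_norm] at hz
    have hz1 : ‖z * u - c‖ = 1 := by rw [hdist, norm_mul, hz, hun, one_mul]
    have him' : (z * u - c).im = (z * u).im := by simp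
    have e1 := norm_sq_sub_one _ hz1
    rw [him'] at e1
    simp only [hH]
    rw [norm_mul, e1]
    by_cases h0 : (z * u).im = 0
    · rw [h0]; simp; exact hB
    · have hz2 : ‖z‖ ≤ ‖l₀‖ + 1 := by
        calc ‖z‖ = ‖lc + (z - lc)‖ := by congr 1; ring
          _ ≤ ‖lc‖ + ‖z - lc‖ := norm_add_le _ _
          _ ≤ ‖l₀‖ + 1 := by rw [hz]; linarith
      have hz3 : |(z * u).im| ≤ 1 := by
        rw [← him', ← hz1]
        exact Complex.abs_im_le_norm _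
      have := hbd z hz2 h0 hz3
      nlinarith
  have hl0 : l₀ ∈ closure (Metric.ball lc 1) := by
    rw [closure_ball lc one_ne_zero, mem_closedBall_iff_norm]
    have e : l₀ * u - c = ((l₀ * u).im : ℂ) * I := by
      apply Complex.ext
      · simp [hc]
      · simp
    have h2 : ‖l₀ - lc‖ = |(l₀ * u).im| := by
      have h3 := congrArg norm (hdist l₀)
      rw [norm_mul, hun, mul_one] at h3
      rw [← h3, e, norm_mul, Complex.norm_I, mul_one, Complex.norm_real, Real.norm_eq_abs]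
    rw [h2]
    exact him
  have hfin := hmax hfr hl0
  have hval : ‖E l₀‖ ≤ ‖H l₀‖ := by
    simp only [hH]
    rw [norm_mul]
    have e : l₀ * u - c = ((l₀ * u).im : ℂ) * I := by
      apply Complex.ext
      · simp [hc]
      · simp
    have e2 : (l₀ * u - c) ^ 2 - 1 = (((-(((l₀ * u).im) ^ 2) - 1 : ℝ)) : ℂ) := by
      rw [e, mul_pow, Complex.I_sq]
      push_cast
      ring
    rw [e2, Complex.norm_real, Real.norm_eq_abs]
    have h3 : 1 ≤ |(-(((l₀ * u).im) ^ 2) - 1 : ℝ)| := by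
      rw [abs_of_nonpos (by nlinarith [sq_nonneg (l₀ * u).im])]
      nlinarith [sq_nonneg (l₀ * u).im]
    nlinarith [norm_nonneg (E l₀)]
  exact hval.trans hfin

end U23

open U23

theorem eord (hORD : Stmt_ORD) (hZ : Stmt_ZHER) (hY : Stmt_Y) : Stmt_EORD := by
  intro α h0 h1 F s f E hf hE
  obtain ⟨A, K, hA, hK, hoff⟩ := off_ray hORD hZ hY h0 h1 F s f E hf hE
  have hρ := rho_ge_two h0 h1
  set ρ := rho α with hρd
  -- uniform bound
  have key : ∀ l : ℂ, ‖E l‖ ≤ 4 * (A * Real.exp (K * (1 + (‖l‖ + 1) ^ ρ)) * (2 + ‖l‖) ^ 2) := by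
    intro l
    have hl : 0 ≤ ‖l‖ := norm_nonneg _
    have hB0 : 0 ≤ A * Real.exp (K * (1 + (‖l‖ + 1) ^ ρ)) * (2 + ‖l‖) ^ 2 := by positivity
    have hmono : ∀ z : ℂ, ‖z‖ ≤ ‖l‖ + 1 →
        A * Real.exp (K * (1 + ‖z‖ ^ ρ)) * (1 + ‖z‖) ^ 2 ≤
          A * Real.exp (K * (1 + (‖l‖ + 1) ^ ρ)) * (2 + ‖l‖) ^ 2 := by
      intro z hz
      have e1 : ‖z‖ ^ ρ ≤ (‖l‖ + 1) ^ ρ := Real.rpow_le_rpow (norm_nonneg _) hz (by linarith)
      have e2 : 1 + ‖z‖ ≤ 2 + ‖l‖ := by linarith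
      have e3 : 0 ≤ 1 + ‖z‖ := by positivity
      gcongr
    by_cases hc : |(l * exp (-(2 * beta α) * I)).im| ≤ 1
    · have hcast : (-(2 * (beta α : ℂ)) * I) = (-((2 * beta α : ℝ) : ℂ) * I) := by push_cast; ring
      have hn := near_ray (2 * beta α) E hE.1
        (2 * (A * Real.exp (K * (1 + (‖l‖ + 1) ^ ρ)) * (2 + ‖l‖) ^ 2)) (by positivity) l
        (by rw [← hcast]; exact hc) (by
          intro z hz him him1
          rw [← hcast] at him him1 ⊢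
          refine (hoff z him).trans ?_
          have e1 := hmono z hz
          have e2 : 0 ≤ A * Real.exp (K * (1 + ‖z‖ ^ ρ)) * (1 + ‖z‖) ^ 2 := by positivity
          nlinarith)
      linarith
    · push Not at hc
      have him : (l * exp (-(2 * beta α) * I)).im ≠ 0 := by
        intro h; rw [h, abs_zero] at hc; linarith
      have h2 := hoff l him
      have e1 := hmono l (by linarith)
      set m := |(l * exp (-(2 * beta α) * I)).im| with hm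
      have e2 : 0 ≤ A * Real.exp (K * (1 + ‖l‖ ^ ρ)) * (1 + ‖l‖) ^ 2 := by positivity
      have h3 : ‖E l‖ * m ≤ (2 * (A * Real.exp (K * (1 + (‖l‖ + 1) ^ ρ)) * (2 + ‖l‖) ^ 2)) * m := by
        refine h2.trans ?_
        nlinarith
      have h4 := le_of_mul_le_mul_right h3 (by linarith)
      linarith
  refine ⟨4 * A + (K * (1 + 2 ^ ρ) + 2 * 2 ^ ρ), fun l => ?_⟩
  have hl : 0 ≤ ‖l‖ := norm_nonneg _
  have hp := pow_add_one_le ρ ‖l‖ (by linarith) hl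
  have hΛ : 0 ≤ ‖l‖ ^ ρ := Real.rpow_nonneg hl _
  have h2p : 0 < (2 : ℝ) ^ ρ := Real.rpow_pos_of_pos (by norm_num) _
  have hl1 : ‖l‖ + 1 ≤ (‖l‖ + 1) ^ ρ := by
    calc ‖l‖ + 1 = (‖l‖ + 1) ^ (1 : ℝ) := (Real.rpow_one _).symm
      _ ≤ _ := Real.rpow_le_rpow_of_exponent_le (by linarith) (by linarith)
  refine (key l).trans ?_
  have a1 : 4 * A ≤ Real.exp (4 * A) := by
    have := Real.add_one_le_exp (4 * A)
    linarith
  have a2 : (2 + ‖l‖) ^ 2 ≤ Real.exp (2 * (‖l‖ + 1)) := by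
    have := Real.add_one_le_exp (‖l‖ + 1)
    calc (2 + ‖l‖) ^ 2 ≤ (Real.exp (‖l‖ + 1)) ^ 2 := pow_le_pow_left₀ (by linarith) (by linarith) 2
      _ = _ := by rw [← Real.exp_nat_mul]; push_cast; rfl
  calc 4 * (A * Real.exp (K * (1 + (‖l‖ + 1) ^ ρ)) * (2 + ‖l‖) ^ 2)
      = (4 * A) * (Real.exp (K * (1 + (‖l‖ + 1) ^ ρ)) * (2 + ‖l‖) ^ 2) := by ring
    _ ≤ Real.exp (4 * A) * (Real.exp (K * (1 + (‖l‖ + 1) ^ ρ)) * Real.exp (2 * (‖l‖ + 1))) := by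
        gcongr
    _ = Real.exp (4 * A + (K * (1 + (‖l‖ + 1) ^ ρ) + 2 * (‖l‖ + 1))) := by
        rw [← Real.exp_add, ← Real.exp_add]
    _ ≤ _ := by
        apply Real.exp_le_exp.2
        have b1 : K * (1 + (‖l‖ + 1) ^ ρ) ≤ K * ((1 + 2 ^ ρ) * (1 + ‖l‖ ^ ρ)) := by
          apply mul_le_mul_of_nonneg_left _ hK
          nlinarith
        have b2 : 2 * (‖l‖ + 1) ≤ 2 * (2 ^ ρ * (1 + ‖l‖ ^ ρ)) := by linarith
        have b3 : 4 * A ≤ 4 * A * (1 + ‖l‖ ^ ρ) := by nlinarith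
        nlinarith

end

end Pool.Agent.CRV
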