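import Pool.Agent.CRV.Step

set_option autoImplicit false

open MeasureTheory Complex Set Filter Topology
open scoped Real

namespace Pool.Agent.CRV

open StepAux

theorem ebd (hMPL2 : Stmt_MPL2) (hTG1 : Stmt_TG1) : Stmt_EBD := by
  intro α hα hα' F Mp hMp s f E hf hE φ hφ hPE
  obtain ⟨hTc, hTm, hT0⟩ := hTG1 α hα hα'
  have hT : 0 < Th α φ := by
    rw [← hT0]
    exact hTm ⟨le_rfl, by linarith [Real.pi_pos]⟩ ⟨hφ.1.le, hφ.2.le⟩ hφ.1
  obtain ⟨r, hr, R, hR⟩ := hPE (Th α φ / 2) (by positivity)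
  set r' := min r (min (φ / 2) ((π / 2 - φ) / 2)) with hr'
  have h1 : r' ≤ r := min_le_left _ _
  have h2 : r' ≤ φ / 2 := (min_le_right _ _).trans (min_le_left _ _)
  have h3 : r' ≤ (π / 2 - φ) / 2 := (min_le_right _ _).trans (min_le_right _ _)
  have hr'0 : 0 < r' := lt_min hr (lt_min (by linarith [hφ.1]) (by linarith [hφ.2]))
  obtain ⟨K2, R2, hK2, hR2, hML⟩ := hMPL2 α hα hα' F Mp hMp s (φ - r') (φ + r')
    (by linarith [hφ.1]) (by linarith) (by linarith [hφ.2])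
  refine ⟨r', hr'0, 1 + Real.sqrt (∫ x in Ioi (0:ℝ), ‖f x‖ ^ 2) * Real.sqrt K2, max R R2, ?_⟩
  intro l hl hal
  have hl0 : l ≠ 0 := by
    rintro rfl
    rw [norm_zero] at hl
    linarith [le_max_right R R2]
  have hR' := hR l ((le_max_left _ _).trans hl) (hal.trans h1)
  have h4 : 0 < arg l := by linarith [(abs_le.1 hal).1, hφ.1]
  have h5 : arg l < π / 2 := by linarith [(abs_le.1 hal).2, hφ.2]
  have hQ : l ∈ Q1 := by
    have := exp_mem_Q1 (z := Complex.log l) (by rwa [Complex.log_im]) (by rwa [Complex.log_im])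
    rwa [Complex.exp_log hl0] at this
  have h6 := hML l ((le_max_right _ _).trans hl) (by linarith [(abs_le.1 hal).1])
    (by linarith [(abs_le.1 hal).2])
  have h7 := cs_interval f (fun x => mP F Mp s l x) hf 0 _ le_rfl (x1_nonneg (α := α) hQ.2)
      ((cont_mP F Mp s _).mono fun x hx => hx.1)
  have h8 : ‖Dx F Mp s f E l (x1 α l)‖ ≤ 1 := by
    refine hR'.trans ?_
    rw [Real.exp_le_one_iff]
    have : 0 ≤ ‖l‖ ^ rho α := Real.rpow_nonneg (norm_nonneg _) _
    nlinarith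
  have e1 : E l = Dx F Mp s f E l (x1 α l) + ∫ t in (0:ℝ)..(x1 α l), f t * mP F Mp s l t := by
    unfold Dx; ring
  rw [e1]
  refine (norm_add_le _ _).trans (add_le_add h8 (h7.trans ?_))
  exact mul_le_mul_of_nonneg_left (Real.sqrt_le_sqrt h6) (Real.sqrt_nonneg _)

end Pool.Agent.CRV
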