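import Pool.Agent.CRV.Stmts

/-!
# Modules FIN and U3: Phragmen-Lindelof in a sector and the abstract conclusion
-/

set_option autoImplicit false

open MeasureTheory Complex Set Filter Topology
open scoped Real

namespace Pool.Agent.CRV

namespace FINAux

/-- Phragmen-Lindelof in a closed sector for an entire function of finite order. -/
theorem sector_bdd {g : ℂ → ℂ} (hg : Differentiable ℂ g) {ρ K a b C : ℝ} (hab : a < b)
    (h : ρ * (b - a) < π) (hgr : ∀ l : ℂ, ‖g l‖ ≤ Real.exp (K * (1 + ‖l‖ ^ ρ)))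
    (hρ : 0 < ρ)
    (ha : ∀ r : ℝ, 0 < r → ‖g (r * exp (a * I))‖ ≤ C)
    (hb : ∀ r : ℝ, 0 < r → ‖g (r * exp (b * I))‖ ≤ C)
    (r : ℝ) (hr : 0 < r) (θ : ℝ) (hθ : θ ∈ Icc a b) : ‖g (r * exp (θ * I))‖ ≤ C := by
  have hexp : ∀ z : ℂ, exp z = ((Real.exp z.re : ℝ) : ℂ) * exp ((z.im : ℂ) * I) := by
    intro z
    rw [ofReal_exp, ← Complex.exp_add, re_add_im]
  have hnorm : ∀ z : ℂ, ‖exp z‖ ^ ρ = Real.exp (ρ * z.re) := by
    intro z
    rw [Complex.norm_exp, ← Real.exp_mul, mul_comm]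
  have hz : (r : ℂ) * exp (θ * I) = exp ((Real.log r : ℝ) + θ * I) := by
    rw [Complex.exp_add, ← ofReal_exp, Real.exp_log hr]
  have key := PhragmenLindelof.horizontal_strip (a := a) (b := b) (C := C)
    (f := fun w : ℂ => g (exp w)) (z := (Real.log r : ℝ) + θ * I)
    ((hg.comp Complex.differentiable_exp).diffContOnCl) ?_ ?_ ?_ ?_ ?_
  · rw [hz]
    exact key
  · refine ⟨ρ, ?_, |K|, ?_⟩
    · rw [lt_div_iff₀ (by linarith)]
      exact h
    · refine Asymptotics.IsBigO.of_bound (Real.exp |K|) (Eventually.of_forall fun z => ?_)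
      rw [Real.norm_of_nonneg (Real.exp_pos _).le, ← Real.exp_add]
      refine (hgr _).trans (Real.exp_le_exp.2 ?_)
      rw [hnorm]
      have h1 : Real.exp (ρ * z.re) ≤ Real.exp (ρ * |z.re|) :=
        Real.exp_le_exp.2 (mul_le_mul_of_nonneg_left (le_abs_self _) hρ.le)
      have h2 : 0 ≤ Real.exp (ρ * z.re) := (Real.exp_pos _).le
      calc K * (1 + Real.exp (ρ * z.re)) ≤ |K| * (1 + Real.exp (ρ * z.re)) :=
            mul_le_mul_of_nonneg_right (le_abs_self _) (by linarith)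
        _ ≤ |K| * (1 + Real.exp (ρ * |z.re|)) :=
            mul_le_mul_of_nonneg_left (by linarith) (abs_nonneg _)
        _ = |K| + |K| * Real.exp (ρ * |z.re|) := by ring
  · intro z hz'
    show ‖g (exp z)‖ ≤ C
    rw [hexp z, hz']
    exact ha _ (Real.exp_pos _)
  · intro z hz'
    show ‖g (exp z)‖ ≤ C
    rw [hexp z, hz']
    exact hb _ (Real.exp_pos _)
  · simpa using hθ.1
  · simpa using hθ.2

/-- an entire function bounded outside a compact set, which tends to zero in some directions, is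
zero -/
theorem eq_zero_of_bdd {g : ℂ → ℂ} (hg : Differentiable ℂ g) {C R : ℝ}
    (hb : ∀ l : ℂ, R ≤ ‖l‖ → ‖g l‖ ≤ C)
    (h0 : ∀ δ > 0, ∀ ε > 0, ∃ R : ℝ, ∀ l : ℂ, R ≤ ‖l‖ →
      (l.re ≤ -(δ * ‖l‖) ∨ l.im ≤ -(δ * ‖l‖)) → ‖g l‖ ≤ ε) : ∀ l : ℂ, g l = 0 := by
  obtain ⟨M, hM⟩ := (isCompact_closedBall (0 : ℂ) R).exists_bound_of_continuousOn
    hg.continuous.continuousOn
  have hbd : Bornology.IsBounded (range g) := by
    rw [isBounded_iff_forall_norm_le]
    refine ⟨max C M, ?_⟩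
    rintro _ ⟨l, rfl⟩
    rcases le_or_gt R ‖l‖ with h | h
    · exact (hb l h).trans (le_max_left _ _)
    · exact (hM l (by simpa using h.le)).trans (le_max_right _ _)
  have hconst : ∀ l, g l = g 0 := fun l => hg.apply_eq_apply_of_bounded hbd l 0
  have hzero : g 0 = 0 := by
    by_contra hne
    have hpos : 0 < ‖g 0‖ := norm_pos_iff.2 hne
    obtain ⟨R', hR'⟩ := h0 1 one_pos (‖g 0‖ / 2) (by linarith)
    have h1 := hR' (-((|R'| : ℝ) : ℂ)) (by
      rw [norm_neg, norm_real, Real.norm_eq_abs, abs_abs]; exact le_abs_self _) (by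
      left
      rw [norm_neg, norm_real, Real.norm_eq_abs, abs_abs]
      simp)
    rw [hconst] at h1
    linarith
  intro l
  rw [hconst, hzero]

/-- `E` tends to zero on rays outside the closed quadrant -/
theorem out_ray {g : ℂ → ℂ} (hg : Differentiable ℂ g)
    (h0 : ∀ δ > 0, ∀ ε > 0, ∃ R : ℝ, ∀ l : ℂ, R ≤ ‖l‖ →
      (l.re ≤ -(δ * ‖l‖) ∨ l.im ≤ -(δ * ‖l‖)) → ‖g l‖ ≤ ε) {δ : ℝ} (hδ : 0 < δ) :
    ∃ C : ℝ, ∀ l : ℂ, (l.re ≤ -(δ * ‖l‖) ∨ l.im ≤ -(δ * ‖l‖)) → ‖g l‖ ≤ C := by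
  obtain ⟨R, hR⟩ := h0 δ hδ 1 one_pos
  obtain ⟨M, hM⟩ := (isCompact_closedBall (0 : ℂ) R).exists_bound_of_continuousOn
    hg.continuous.continuousOn
  refine ⟨max 1 M, fun l hl => ?_⟩
  rcases le_or_gt R ‖l‖ with h | h
  · exact (hR l h hl).trans (le_max_left _ _)
  · exact (hM l (by simpa using h.le)).trans (le_max_right _ _)

/-- in polar coordinates: outside the region, the argument is in `[-d, π/2 + d]` -/
theorem arg_mem_of_not_out {l : ℂ} (hl : l ≠ 0) {d : ℝ} (hd : 0 < d) (hd' : d ≤ π / 4)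
    (h : ¬ (l.re ≤ -(Real.sin d * ‖l‖) ∨ l.im ≤ -(Real.sin d * ‖l‖))) :
    arg l ∈ Icc (-d) (π / 2 + d) := by
  push Not at h
  obtain ⟨h1, h2⟩ := h
  have hn : 0 < ‖l‖ := norm_pos_iff.2 hl
  have hpi := Real.pi_pos
  have hc : -Real.sin d < Real.cos (arg l) := by
    rw [Complex.cos_arg hl, lt_div_iff₀ hn]
    linarith
  have hs : -Real.sin d < Real.sin (arg l) := by
    rw [Complex.sin_arg, lt_div_iff₀ hn]
    linarith
  have ha1 : -π < arg l := neg_pi_lt_arg l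
  have ha2 : arg l ≤ π := arg_le_pi l
  have hsd : Real.sin d ≤ Real.sin (π / 4) :=
    Real.sin_le_sin_of_le_of_le_pi_div_two (by linarith) (by linarith) hd'
  have hsd0 : 0 < Real.sin d := Real.sin_pos_of_pos_of_lt_pi hd (by linarith)
  constructor
  · by_contra hcon
    push Not at hcon
    rcases le_or_gt (-(π / 2)) (arg l) with h3 | h3
    · have h4 : Real.sin (arg l) < Real.sin (-d) :=
        Real.sin_lt_sin_of_lt_of_le_pi_div_two h3 (by linarith) hcon
      rw [Real.sin_neg] at h4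
      linarith
    · -- third quadrant
      have h4 : Real.cos (arg l) < 0 := by
        rw [← Real.cos_neg]
        exact Real.cos_neg_of_pi_div_two_lt_of_lt (by linarith) (by linarith)
      have h5 : Real.sin (arg l) < 0 := Real.sin_neg_of_neg_of_neg_pi_lt (by linarith) ha1
      have h6 := Real.sin_sq_add_cos_sq (arg l)
      have h7 : Real.sin (arg l) ^ 2 < Real.sin d ^ 2 := by
        nlinarith
      have h8 : Real.cos (arg l) ^ 2 < Real.sin d ^ 2 := by
        nlinarith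
      have h9 : Real.sin d ^ 2 ≤ Real.sin (π / 4) ^ 2 := by
        nlinarith
      rw [Real.sin_pi_div_four] at h9
      have h10 : (√2 / 2 : ℝ) ^ 2 = 1 / 2 := by
        rw [div_pow, Real.sq_sqrt (by norm_num)]; norm_num
      rw [h10] at h9
      linarith
  · by_contra hcon
    push Not at hcon
    have h4 : Real.cos (arg l) < Real.cos (π / 2 + d) :=
      Real.cos_lt_cos_of_nonneg_of_le_pi (by linarith) ha2 hcon
    rw [add_comm, Real.cos_add_pi_div_two] at h4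
    linarith

theorem polar (l : ℂ) : l = ((‖l‖ : ℝ) : ℂ) * exp ((arg l : ℝ) * I) :=
  (Complex.norm_mul_exp_arg_mul_I l).symm

theorem ray_low {r d : ℝ} (hr : 0 < r) :
    ((r : ℂ) * exp (((-d : ℝ) : ℂ) * I)).im ≤
      -(Real.sin d * ‖((r : ℂ) * exp (((-d : ℝ) : ℂ) * I))‖) := by
  rw [norm_mul, Complex.norm_exp_ofReal_mul_I, norm_real, Real.norm_of_nonneg hr.le, mul_one,
    Complex.im_ofReal_mul, Complex.exp_ofReal_mul_I_im, Real.sin_neg]
  linarith

theorem ray_high {r d : ℝ} (hr : 0 < r) :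
    ((r : ℂ) * exp (((π / 2 + d : ℝ) : ℂ) * I)).re ≤
      -(Real.sin d * ‖((r : ℂ) * exp (((π / 2 + d : ℝ) : ℂ) * I))‖) := by
  rw [norm_mul, Complex.norm_exp_ofReal_mul_I, norm_real, Real.norm_of_nonneg hr.le, mul_one,
    Complex.re_ofReal_mul, Complex.exp_ofReal_mul_I_re, add_comm, Real.cos_add_pi_div_two]
  linarith

end FINAux

open FINAux

theorem u3 : Stmt_U3 := by
  intro K g hg hgr h0
  have hpi := Real.pi_pos
  have hd : 0 < π / 4 := by positivity
  have hs : 0 < Real.sin (π / 4) := Real.sin_pos_of_pos_of_lt_pi hd (by linarith)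
  obtain ⟨C, hC⟩ := out_ray hg h0 hs
  refine eq_zero_of_bdd hg (C := C) (R := 1) ?_ h0
  intro l hl
  have hl0 : 0 < ‖l‖ := by linarith
  by_cases hout : l.re ≤ -(Real.sin (π / 4) * ‖l‖) ∨ l.im ≤ -(Real.sin (π / 4) * ‖l‖)
  · exact hC l hout
  · have harg := arg_mem_of_not_out (norm_pos_iff.1 hl0) hd le_rfl hout
    have h1 := sector_bdd hg (ρ := 1 / 2) (K := K) (a := -(π / 4)) (b := π / 2 + π / 4) (C := C)
      (by linarith) (by linarith) (by
        intro l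
        rw [← Real.sqrt_eq_rpow]
        exact hgr l) (by norm_num)
      (fun r hr => hC _ (Or.inr (ray_low hr))) (fun r hr => hC _ (Or.inl (ray_high hr)))
      ‖l‖ hl0 (arg l) harg
    rw [polar l]
    exact h1

theorem fin : Stmt_FIN := by
  intro ρ K φ₀ E hρ hE hgr hφ₀ hφ₀' hloc h0
  have hpi := Real.pi_pos
  have hρ0 : 0 < ρ := by linarith
  have hπρ : 0 < π / ρ := div_pos hpi hρ0
  have hπρ2 : π / ρ ≤ π / 2 := div_le_div_of_nonneg_left hpi.le (by norm_num) hρ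
  set d := min ((π / ρ - φ₀) / 2) (π / (4 * ρ)) with hd
  have hd1 : d ≤ (π / ρ - φ₀) / 2 := min_le_left _ _
  have hd2 : d ≤ π / ρ / 4 := by
    have : π / (4 * ρ) = π / ρ / 4 := by field_simp
    rw [← this]
    exact min_le_right _ _
  have hd0 : 0 < d := lt_min (by linarith) (by positivity)
  have hd4 : d ≤ π / 4 := by linarith
  have hs : 0 < Real.sin d := Real.sin_pos_of_pos_of_lt_pi hd0 (by linarith)
  obtain ⟨C1, hC1⟩ := out_ray hE h0 hs
  -- compactness on the middle sector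
  have hmid : ∃ K R : ℝ, ∀ l : ℂ, R ≤ ‖l‖ → arg l ∈ Icc φ₀ (π / 2 - d) → ‖E l‖ ≤ K := by
    refine (isCompact_Icc (a := φ₀) (b := π / 2 - d)).induction_on
      (p := fun s => ∃ K R : ℝ, ∀ l : ℂ, R ≤ ‖l‖ → arg l ∈ s → ‖E l‖ ≤ K) ?_ ?_ ?_ ?_
    · exact ⟨0, 0, fun l _ h => absurd h (notMem_empty _)⟩
    · rintro s t hst ⟨K, R, h⟩
      exact ⟨K, R, fun l h1 h2 => h l h1 (hst h2)⟩
    · rintro s t ⟨K1, R1, h1⟩ ⟨K2, R2, h2⟩
      refine ⟨max K1 K2, max R1 R2, fun l h3 h4 => ?_⟩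
      rcases h4 with h4 | h4
      · exact (h1 l ((le_max_left _ _).trans h3) h4).trans (le_max_left _ _)
      · exact (h2 l ((le_max_right _ _).trans h3) h4).trans (le_max_right _ _)
    · intro φ hφ
      obtain ⟨r, hr, K1, R1, h1⟩ := hloc φ hφ.1 (by linarith [hφ.2])
      refine ⟨Metric.closedBall φ r, mem_nhdsWithin_of_mem_nhds
        (Metric.closedBall_mem_nhds φ hr), K1, R1, fun l h2 h3 => h1 l h2 ?_⟩
      rw [Metric.mem_closedBall, Real.dist_eq] at h3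
      exact h3
  obtain ⟨K2, R2, h2⟩ := hmid
  obtain ⟨M, hM⟩ := (isCompact_closedBall (0 : ℂ) R2).exists_bound_of_continuousOn
    hE.continuous.continuousOn
  set C := max C1 (max K2 M) with hCdef
  have hC1' : C1 ≤ C := le_max_left _ _
  have hK2' : K2 ≤ C := (le_max_left _ _).trans (le_max_right _ _)
  have hM' : M ≤ C := (le_max_right _ _).trans (le_max_right _ _)
  have hmid' : ∀ l : ℂ, arg l ∈ Icc φ₀ (π / 2 - d) → ‖E l‖ ≤ C := by
    intro l hl
    rcases le_or_gt R2 ‖l‖ with h | h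
    · exact (h2 l h hl).trans hK2'
    · exact (hM l (by simpa using h.le)).trans hM'
  have hray : ∀ θ : ℝ, θ ∈ Icc φ₀ (π / 2 - d) → ∀ r : ℝ, 0 < r → ‖E (r * exp (θ * I))‖ ≤ C := by
    intro θ hθ r hr
    refine hmid' _ ?_
    rw [Complex.arg_real_mul _ hr, Complex.exp_mul_I, Complex.arg_cos_add_sin_mul_I]
    · exact hθ
    · exact ⟨by linarith [hθ.1], by linarith [hθ.2]⟩
  refine eq_zero_of_bdd hE (C := C) (R := 1) ?_ h0
  intro l hl
  have hl0 : 0 < ‖l‖ := by linarith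
  by_cases hout : l.re ≤ -(Real.sin d * ‖l‖) ∨ l.im ≤ -(Real.sin d * ‖l‖)
  · exact (hC1 l hout).trans hC1'
  · have harg := arg_mem_of_not_out (norm_pos_iff.1 hl0) hd0 hd4 hout
    have hlow : ∀ r : ℝ, 0 < r → ‖E (r * exp (((-d : ℝ) : ℂ) * I))‖ ≤ C :=
      fun r hr => (hC1 _ (Or.inr (ray_low hr))).trans hC1'
    have hhigh : ∀ r : ℝ, 0 < r → ‖E (r * exp (((π / 2 + d : ℝ) : ℂ) * I))‖ ≤ C :=
      fun r hr => (hC1 _ (Or.inl (ray_high hr))).trans hC1'
    have hφm : φ₀ ≤ π / 2 - d := by linarith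
    rcases le_or_gt (arg l) φ₀ with h3 | h3
    · rw [polar l]
      refine sector_bdd hE (ρ := ρ) (K := K) (a := -d) (b := φ₀) (C := C) (by linarith) ?_ hgr hρ0
        hlow (hray φ₀ ⟨le_rfl, hφm⟩) ‖l‖ hl0 (arg l) ⟨harg.1, h3⟩
      have h4 : φ₀ - -d < π / ρ := by linarith
      calc ρ * (φ₀ - -d) < ρ * (π / ρ) := mul_lt_mul_of_pos_left h4 hρ0
        _ = π := by field_simp
    rcases le_or_gt (arg l) (π / 2 - d) with h4 | h4
    · exact hmid' l ⟨h3.le, h4⟩
    · rw [polar l]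
      refine sector_bdd hE (ρ := ρ) (K := K) (a := π / 2 - d) (b := π / 2 + d) (C := C)
        (by linarith) ?_ hgr hρ0
        (hray (π / 2 - d) ⟨hφm, le_rfl⟩) hhigh ‖l‖ hl0 (arg l) ⟨h4.le, harg.2⟩
      have h5 : π / 2 + d - (π / 2 - d) < π / ρ := by linarith
      calc ρ * (π / 2 + d - (π / 2 - d)) < ρ * (π / ρ) := mul_lt_mul_of_pos_left h5 hρ0
        _ = π := by field_simp

end Pool.Agent.CRV
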