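import Pool.Agent.CRV.Stmts

/-!
# Module FRZ : the frozen statement S15681 from the half-line theorem
-/

set_option autoImplicit false

open MeasureTheory Complex Set Filter Topology
open scoped Real

namespace Pool.Agent.CRV

noncomputable section

/-- even/odd part on the half-line (`s = true`: odd) -/
def frzPart (s : Bool) (f : ℝ → ℂ) (x : ℝ) : ℂ := f x + (if s then -1 else 1) * f (-x)

theorem frz_memLp_neg {f : ℝ → ℂ} (hf : MemLp f 2 (volume : Measure ℝ)) :
    MemLp (fun x => f (-x)) 2 (volume : Measure ℝ) := by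
  have := hf.comp_measurePreserving (Measure.measurePreserving_neg (volume : Measure ℝ))
  exact this

theorem frz_L2f {f : ℝ → ℂ} (hf : MemLp f 2 (volume : Measure ℝ)) (s : Bool) :
    L2f (frzPart s f) := by
  have h1 : MemLp (frzPart s f) 2 (volume : Measure ℝ) := by
    unfold frzPart
    exact hf.add ((frz_memLp_neg hf).const_mul _)
  exact h1.restrict _

theorem frz_ext_neg {α : ℝ} (F : FS α) (s : Bool) (a b l : ℂ) (x : ℝ) :
    ext F s a b l (-x) = (if s then -1 else 1) * ext F s a b l x := by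
  unfold ext
  rw [abs_neg]
  cases s with
  | false => simp
  | true =>
    simp only [if_true]
    rcases lt_trichotomy x 0 with hx | hx | hx
    · rw [Real.sign_of_neg hx, Real.sign_of_pos (by linarith : 0 < -x)]
      push_cast; ring
    · subst hx; simp
    · rw [Real.sign_of_pos hx, Real.sign_of_neg (by linarith : -x < 0)]
      push_cast; ring

theorem frz_split {h : ℝ → ℂ} (hi : Integrable h (volume : Measure ℝ)) :
    ∫ x, h x = ∫ x in Ioi (0 : ℝ), (h x + h (-x)) := by
  have h1 := intervalIntegral.integral_Iic_add_Ioi (f := h) (b := (0:ℝ)) (μ := (volume : Measure ℝ))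
    hi.integrableOn hi.integrableOn
  have h2 := integral_comp_neg_Ioi (0 : ℝ) h
  rw [neg_zero] at h2
  have h3 : Integrable (fun x => h (-x)) (volume : Measure ℝ) := hi.comp_neg
  rw [← h1, integral_add hi.integrableOn h3.integrableOn, h2, add_comm]

theorem frz_half {α : ℝ} (F : FS α) (s : Bool) (a b l : ℂ) {f : ℝ → ℂ}
    (hf : MemLp f 2 (volume : Measure ℝ)) (he : MemLp (ext F s a b l) 2 (volume : Measure ℝ))
    (h0 : ∫ x, ext F s a b l x * f x = 0) :
    ∫ x in Ioi (0 : ℝ), frzPart s f x * F.y a b l x = 0 := by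
  have hi : Integrable (fun x => ext F s a b l x * f x) (volume : Measure ℝ) :=
    he.integrable_mul hf
  rw [frz_split hi] at h0
  rw [← h0]
  refine setIntegral_congr_fun measurableSet_Ioi ?_
  intro x hx
  have hx' : 0 < x := hx
  simp only
  rw [frz_ext_neg]
  have h1 : ext F s a b l x = F.y a b l x := by
    unfold ext
    rw [abs_of_pos hx', Real.sign_of_pos hx']
    cases s <;> simp
  rw [h1]
  unfold frzPart
  ring

theorem frz_ae_zero {f : ℝ → ℂ}
    (h1 : frzPart true f =ᵐ[volume.restrict (Ioi (0 : ℝ))] 0)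
    (h2 : frzPart false f =ᵐ[volume.restrict (Ioi (0 : ℝ))] 0) :
    f =ᵐ[(volume : Measure ℝ)] 0 := by
  have h3 : ∀ᵐ x ∂(volume : Measure ℝ), x ∈ Ioi (0:ℝ) → frzPart true f x = 0 :=
    (ae_restrict_iff' measurableSet_Ioi).1 h1
  have h4 : ∀ᵐ x ∂(volume : Measure ℝ), x ∈ Ioi (0:ℝ) → frzPart false f x = 0 :=
    (ae_restrict_iff' measurableSet_Ioi).1 h2
  have h5 : ∀ᵐ x ∂(volume : Measure ℝ), 0 < x → f x = 0 ∧ f (-x) = 0 := by
    filter_upwards [h3, h4] with x hx1 hx2 hx
    have e1 := hx1 hx
    have e2 := hx2 hx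
    unfold frzPart at e1 e2
    simp only [if_true, Bool.false_eq_true, if_false] at e1 e2
    constructor
    · linear_combination (e1 + e2) / 2
    · linear_combination (e2 - e1) / 2
  have h6 : ∀ᵐ x ∂(volume : Measure ℝ), 0 < -x → f (-x) = 0 ∧ f (- -x) = 0 :=
    (Measure.measurePreserving_neg (volume : Measure ℝ)).quasiMeasurePreserving.ae h5
  have h7 : ∀ᵐ x ∂(volume : Measure ℝ), x ≠ 0 := by
    simp [ae_iff]
  filter_upwards [h5, h6, h7] with x hx1 hx2 hx3
  rcases lt_or_gt_of_ne hx3 with hx | hx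
  · have := (hx2 (by linarith)).2
    simpa using this
  · exact (hx1 hx).1

theorem FRZ_proof (hFS : Stmt_FS) (hEF : Stmt_EF) (hHALF : Stmt_HALF) : Stmt_S15681 := by
  intro α hα hα'
  obtain ⟨F⟩ := hFS α hα hα'
  rw [Submodule.topologicalClosure_eq_top_iff, Submodule.eq_bot_iff]
  intro g hg
  rw [Submodule.mem_orthogonal] at hg
  -- the conjugate
  let f : ℝ → ℂ := fun x => (starRingEnd ℂ) (g x)
  have hf : MemLp f 2 (volume : Measure ℝ) := (Lp.memLp g).star
  have hort : ∀ (s : Bool) (l a b : ℂ), IsY F a b l → bdr s a b = 0 →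
      ∫ x in Ioi (0 : ℝ), frzPart s f x * F.y a b l x = 0 := by
    intro s l a b hY hb
    obtain ⟨hc, hm, hode⟩ := hEF α hα hα' F s a b l hY hb
    refine frz_half F s a b l hf hm ?_
    have hmem : hm.toLp (ext F s a b l) ∈ Submodule.span ℂ
        {F : Lp ℂ 2 (volume : Measure ℝ) |
          ∃ (μ : ℂ) (n : ℕ) (φ : ℕ → ℝ → ℂ), φ 0 = 0 ∧
            (∀ k, k ≤ n → ContDiff ℝ 2 (φ k) ∧ MemLp (φ k) 2 (volume : Measure ℝ)) ∧
            (∀ k, k < n → ∀ x : ℝ,
              -deriv (deriv (φ (k + 1))) x
                + Complex.I * (((|x| ^ α : ℝ)) : ℂ) * φ (k + 1) x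
                - μ * φ (k + 1) x = φ k x) ∧
            (⇑F) =ᵐ[(volume : Measure ℝ)] φ n} := by
      refine Submodule.subset_span ?_
      refine ⟨l, 1, fun k => if k = 0 then 0 else ext F s a b l, by simp, ?_, ?_, ?_⟩
      · intro k _
        by_cases hk : k = 0
        · simp only [hk, if_true]
          exact ⟨contDiff_const, MemLp.zero⟩
        · simp only [hk, if_false]
          exact ⟨hc, hm⟩
      · intro k hk x
        have hk0 : k = 0 := by omega
        subst hk0
        simp only [Nat.zero_add, one_ne_zero, if_false, if_true]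
        exact hode x
      · simp only [one_ne_zero, if_false]
        exact hm.coeFn_toLp
    have h1 := hg _ hmem
    rw [MeasureTheory.L2.inner_def] at h1
    have h2 : ∫ x, ext F s a b l x * f x =
        (starRingEnd ℂ) (∫ x, inner ℂ ((hm.toLp (ext F s a b l)) x) (g x)) := by
      rw [← integral_conj]
      refine integral_congr_ae ?_
      filter_upwards [hm.coeFn_toLp] with x hx
      rw [hx]
      simp only [RCLike.inner_apply, map_mul, Complex.conj_conj, f]
      ring
    rw [h2, h1, map_zero]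
  have hz : f =ᵐ[(volume : Measure ℝ)] 0 :=
    frz_ae_zero (hHALF α hα hα' F true _ (frz_L2f hf true) (hort true))
      (hHALF α hα hα' F false _ (frz_L2f hf false) (hort false))
  have hz' : g =ᵐ[(volume : Measure ℝ)] 0 := by
    filter_upwards [hz] with x hx
    have : (starRingEnd ℂ) (g x) = 0 := hx
    simpa using this
  exact (Lp.eq_zero_iff_ae_eq_zero).2 hz'

end

end Pool.Agent.CRV
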