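import Pool.Agent.CRV.Stmts

/-!
# Module FS : the fundamental system as a double series
-/

set_option autoImplicit false

open MeasureTheory Complex Set Filter Topology
open scoped Real Nat

namespace Pool.Agent.CRV

noncomputable section

namespace FSAux

/-- exponent -/
def pe (α σ : ℝ) (j k : ℕ) : ℝ := 2 * j + (α + 2) * k + σ

/-- coefficients -/
def cf (α σ : ℝ) : ℕ → ℕ → ℝ
  | 0, 0 => 1
  | j + 1, 0 => cf α σ j 0 / (pe α σ (j + 1) 0 * (pe α σ (j + 1) 0 - 1))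
  | 0, k + 1 => cf α σ 0 k / (pe α σ 0 (k + 1) * (pe α σ 0 (k + 1) - 1))
  | j + 1, k + 1 => (cf α σ j (k + 1) + cf α σ (j + 1) k) /
      (pe α σ (j + 1) (k + 1) * (pe α σ (j + 1) (k + 1) - 1))
termination_by j k => j + k

/-- general term -/
def tm (α σ : ℝ) (a : ℕ → ℕ → ℝ) (l x : ℂ) (i : ℕ × ℕ) : ℂ :=
  (a i.1 i.2 : ℂ) * (-l) ^ i.1 * I ^ i.2 * x ^ ((pe α σ i.1 i.2 : ℝ) : ℂ)

/-- the series -/
def Ser (α σ : ℝ) (a : ℕ → ℕ → ℝ) (l x : ℂ) : ℂ := ∑' i : ℕ × ℕ, tm α σ a l x i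

/-- coefficient bound -/
def Bd (a : ℕ → ℕ → ℝ) (b : ℕ → ℝ) : Prop :=
  ∀ j k : ℕ, |a j k| ≤ ((j + k).choose j : ℝ) * b (j + k)

lemma pe_nonneg {α σ : ℝ} (hα : 0 < α) (hσ : 0 ≤ σ) (j k : ℕ) : 0 ≤ pe α σ j k := by
  unfold pe; positivity

lemma pe_ge {α σ : ℝ} (hα : 0 < α) (j k : ℕ) : 2 * ((j + k : ℕ) : ℝ) + σ ≤ pe α σ j k := by
  unfold pe
  push_cast
  have : 0 ≤ α * k := by positivity
  nlinarith

lemma norm_tm {α σ : ℝ} (hα : 0 < α) (hσ : 0 ≤ σ) (a : ℕ → ℕ → ℝ) (l x : ℂ) (i : ℕ × ℕ) :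
    ‖tm α σ a l x i‖ =
      |a i.1 i.2| * (‖l‖ * ‖x‖ ^ 2) ^ i.1 * (‖x‖ ^ (α + 2)) ^ i.2 * ‖x‖ ^ σ := by
  have hx := norm_nonneg x
  unfold tm
  rw [norm_mul, norm_mul, norm_mul, norm_pow, norm_pow, norm_neg, Complex.norm_I, one_pow,
    Complex.norm_real, Real.norm_eq_abs, Complex.norm_cpow_real, pe,
    Real.rpow_add_of_nonneg hx (by positivity) hσ,
    Real.rpow_add_of_nonneg hx (by positivity) (by positivity), Real.rpow_mul hx, Real.rpow_mul hx,
    Real.rpow_natCast, Real.rpow_natCast, mul_pow, Real.rpow_two]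
  ring

/-- double series summation -/
lemma hasSum_double {b : ℕ → ℝ} (hb : ∀ n, 0 ≤ b n) {U V : ℝ} (hU : 0 ≤ U) (hV : 0 ≤ V) {T : ℝ}
    (hs : HasSum (fun n => b n * (U + V) ^ n) T) :
    HasSum (fun i : ℕ × ℕ => ((i.1 + i.2).choose i.1 : ℝ) * b (i.1 + i.2) * U ^ i.1 * V ^ i.2)
      T := by
  set f : ℕ × ℕ → ℝ :=
    fun i => ((i.1 + i.2).choose i.1 : ℝ) * b (i.1 + i.2) * U ^ i.1 * V ^ i.2 with hf
  have hnn : ∀ i, 0 ≤ f i := fun i => by
    have := hb (i.1 + i.2)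
    simp only [hf]; positivity
  have key : ∀ n : ℕ, ∑ i ∈ Finset.HasAntidiagonal.antidiagonal n, f i = b n * (U + V) ^ n := by
    intro n
    rw [(Commute.all U V).add_pow', Finset.mul_sum]
    refine Finset.sum_congr rfl ?_
    intro i hi
    rw [Finset.HasAntidiagonal.mem_antidiagonal] at hi
    simp only [hf, hi, nsmul_eq_mul]
    ring
  rw [← Finset.HasAntidiagonal.sigmaAntidiagonalEquivProd.hasSum_iff]
  have h1 : ∀ n : ℕ, HasSum (fun c : Finset.HasAntidiagonal.antidiagonal n =>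
      (f ∘ Finset.HasAntidiagonal.sigmaAntidiagonalEquivProd) ⟨n, c⟩) (b n * (U + V) ^ n) := by
    intro n
    rw [← key n]
    have := hasSum_fintype (fun c : Finset.HasAntidiagonal.antidiagonal n =>
      (f ∘ Finset.HasAntidiagonal.sigmaAntidiagonalEquivProd) ⟨n, c⟩)
    convert this using 1
    rw [← Finset.sum_coe_sort]
    rfl
  have hsum : Summable (f ∘ Finset.HasAntidiagonal.sigmaAntidiagonalEquivProd) := by
    refine (summable_sigma_of_nonneg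
      (f := f ∘ Finset.HasAntidiagonal.sigmaAntidiagonalEquivProd) (fun _ => hnn _)).2
      ⟨fun n => (h1 n).summable, ?_⟩
    convert hs.summable using 1
    ext n
    exact (h1 n).tsum_eq
  exact (HasSum.sigma_of_hasSum hs h1 hsum)

lemma summable_b {b : ℕ → ℝ} (hb : ∀ n, 0 ≤ b n) (hb' : ∀ n, b n ≤ 1 / ((2 * n)! : ℝ)) {s : ℝ}
    (hs : 0 ≤ s) : Summable (fun n => b n * s ^ n) := by
  have h := (Real.hasSum_cosh (Real.sqrt s)).summable
  refine Summable.of_nonneg_of_le (fun n => mul_nonneg (hb n) (pow_nonneg hs n)) (fun n => ?_) h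
  rw [pow_mul, Real.sq_sqrt hs, div_eq_inv_mul, ← one_div]
  exact mul_le_mul_of_nonneg_right (hb' n) (pow_nonneg hs n)

/-- majorant of the terms -/
def maj (α σ : ℝ) (b : ℕ → ℝ) (L X : ℝ) (i : ℕ × ℕ) : ℝ :=
  (((i.1 + i.2).choose i.1 : ℝ) * b (i.1 + i.2) * (L * X ^ 2) ^ i.1 * (X ^ (α + 2)) ^ i.2) * X ^ σ

lemma summable_maj {α σ : ℝ} {b : ℕ → ℝ} (hb : ∀ n, 0 ≤ b n)
    (hb' : ∀ n, b n ≤ 1 / ((2 * n)! : ℝ)) {L X : ℝ} (hL : 0 ≤ L) (hX : 0 ≤ X) :
    Summable (maj α σ b L X) := by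
  unfold maj
  refine Summable.mul_right _ ?_
  have h := summable_b hb hb' (s := L * X ^ 2 + X ^ (α + 2)) (by positivity)
  exact (hasSum_double hb (by positivity) (by positivity) h.hasSum).summable

lemma norm_tm_le {α σ : ℝ} (hα : 0 < α) (hσ : 0 ≤ σ) {a : ℕ → ℕ → ℝ} {b : ℕ → ℝ} (hab : Bd a b)
    (hb : ∀ n, 0 ≤ b n) {l x : ℂ} {L X : ℝ} (hl : ‖l‖ ≤ L) (hx : ‖x‖ ≤ X) (i : ℕ × ℕ) :
    ‖tm α σ a l x i‖ ≤ maj α σ b L X i := by
  rw [norm_tm hα hσ]
  unfold maj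
  have hL : 0 ≤ L := (norm_nonneg _).trans hl
  have hX : 0 ≤ X := (norm_nonneg _).trans hx
  have hb1 := hb (i.1 + i.2)
  have h1 := hab i.1 i.2
  have h2 : ‖x‖ ^ (α + 2) ≤ X ^ (α + 2) :=
    Real.rpow_le_rpow (norm_nonneg _) hx (by positivity)
  have h3 : ‖x‖ ^ σ ≤ X ^ σ := Real.rpow_le_rpow (norm_nonneg _) hx hσ
  gcongr

lemma summable_tm {α σ : ℝ} (hα : 0 < α) (hσ : 0 ≤ σ) {a : ℕ → ℕ → ℝ} {b : ℕ → ℝ} (hab : Bd a b)
    (hb : ∀ n, 0 ≤ b n) (hb' : ∀ n, b n ≤ 1 / ((2 * n)! : ℝ)) (l x : ℂ) :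
    Summable (tm α σ a l x) :=
  Summable.of_norm_bounded (summable_maj (α := α) (σ := σ) hb hb' (norm_nonneg l) (norm_nonneg x))
    (fun i => norm_tm_le hα hσ hab hb le_rfl le_rfl i)

lemma norm_Ser_le {α σ : ℝ} (hα : 0 < α) (hσ : 0 ≤ σ) {a : ℕ → ℕ → ℝ} {b : ℕ → ℝ} (hab : Bd a b)
    (hb : ∀ n, 0 ≤ b n) (l x : ℂ) {T : ℝ}
    (hT : HasSum (fun n => b n * (‖l‖ * ‖x‖ ^ 2 + ‖x‖ ^ (α + 2)) ^ n) T) :
    ‖Ser α σ a l x‖ ≤ T * ‖x‖ ^ σ := by
  have h := (hasSum_double hb (U := ‖l‖ * ‖x‖ ^ 2) (V := ‖x‖ ^ (α + 2)) (by positivity)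
    (by positivity) hT).mul_right (‖x‖ ^ σ)
  unfold Ser
  exact tsum_of_norm_bounded h (fun i => norm_tm_le hα hσ hab hb le_rfl le_rfl i)

lemma hasSum_congr' {f g : ℕ × ℕ → ℂ} {D : ℂ} (h : ∀ i, f i = g i) :
    HasSum f D ↔ HasSum g D := by
  rw [funext h]

/-! ### coefficients -/

lemma cf_rec {α σ : ℝ} (j k : ℕ) (h : j + k ≠ 0) :
    cf α σ j k = ((if j = 0 then 0 else cf α σ (j - 1) k) + (if k = 0 then 0 else cf α σ j (k - 1)))
      / (pe α σ j k * (pe α σ j k - 1)) := by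
  rcases j with _ | j <;> rcases k with _ | k
  · simp at h
  · rw [cf]; simp
  · rw [cf]; simp
  · rw [cf]; simp


/-- basic majorant sequence -/
def bs (s : ℕ) (n : ℕ) : ℝ := 1 / ((2 * n + s)! : ℝ)

lemma bs_nonneg (s n : ℕ) : 0 ≤ bs s n := by unfold bs; positivity

lemma bs_le (s n : ℕ) : bs s n ≤ 1 / ((2 * n)! : ℝ) := by
  unfold bs
  have h : ((2 * n)! : ℝ) ≤ ((2 * n + s)! : ℝ) := by
    exact_mod_cast Nat.factorial_le (by omega)
  have h0 : (0 : ℝ) < ((2 * n)! : ℝ) := by positivity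
  exact one_div_le_one_div_of_le h0 h

lemma bs_succ (s n : ℕ) : bs s n = bs (s + 1) n * (2 * n + s + 1) := by
  unfold bs
  have h0 : ((2 * n + s)! : ℝ) ≠ 0 := by positivity
  have h1 : (2 * (n : ℝ) + s + 1) ≠ 0 := by positivity
  have : ((2 * n + (s + 1))! : ℝ) = (2 * n + s + 1) * ((2 * n + s)! : ℝ) := by
    have : (2 * n + (s + 1))! = (2 * n + s + 1) * (2 * n + s)! := by
      rw [← add_assoc, Nat.factorial_succ]
    rw [this]; push_cast; ring
  rw [this]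
  field_simp

lemma bs_shift (s n : ℕ) : bs (s + 2) n = bs s (n + 1) := by
  unfold bs
  congr 3
  ring

lemma cf_bound {α : ℝ} (hα : 0 < α) (s : ℕ) (hs : s ≤ 1) (n : ℕ) : ∀ j k : ℕ, j + k = n →
    0 ≤ cf α s j k ∧ cf α s j k ≤ (n.choose j : ℝ) * bs s n := by
  induction n with
  | zero =>
    intro j k h
    have hj : j = 0 := by omega
    have hk : k = 0 := by omega
    subst hj hk
    rw [cf]
    interval_cases s <;> simp [bs]
  | succ n ih =>
    intro j k h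
    have hne : j + k ≠ 0 := by omega
    rw [cf_rec j k hne]
    set N : ℝ := (if j = 0 then 0 else cf α s (j - 1) k) + (if k = 0 then 0 else cf α s j (k - 1))
      with hN
    have hN0 : 0 ≤ N := by
      rw [hN]
      apply add_nonneg
      · split_ifs with h1
        · exact le_rfl
        · exact (ih (j - 1) k (by omega)).1
      · split_ifs with h1
        · exact le_rfl
        · exact (ih j (k - 1) (by omega)).1
    have hb := bs_nonneg s n
    have hN1 : N ≤ ((n + 1).choose j : ℝ) * bs s n := by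
      have e1 : (if j = 0 then 0 else cf α s (j - 1) k) ≤
          (if j = 0 then 0 else (n.choose (j - 1) : ℝ)) * bs s n := by
        split_ifs with h1
        · simp
        · exact (ih (j - 1) k (by omega)).2
      have e2 : (if k = 0 then 0 else cf α s j (k - 1)) ≤ (n.choose j : ℝ) * bs s n := by
        split_ifs with h1
        · positivity
        · exact (ih j (k - 1) (by omega)).2
      have e3 : ((n + 1).choose j : ℝ) = (if j = 0 then 0 else (n.choose (j - 1) : ℝ)) +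
          (n.choose j : ℝ) := by
        rcases j with _ | j
        · simp
        · simp only [Nat.add_sub_cancel, Nat.choose_succ_succ]
          push_cast
          simp
      rw [e3, add_mul]
      exact add_le_add e1 e2
    have hp := pe_ge (σ := (s : ℝ)) hα j k
    rw [h] at hp
    push_cast at hp
    have hs0 : (0 : ℝ) ≤ s := by positivity
    have hn0 : (0 : ℝ) ≤ n := by positivity
    have hbb : bs s n = bs s (n + 1) * ((2 * n + s + 1) * (2 * (n + 1) + s)) := by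
      rw [bs_succ s n, bs_succ (s + 1) n, ← bs_shift s n]
      push_cast
      ring
    have hq : (2 * (n : ℝ) + s + 1) * (2 * (n + 1) + s) ≤ pe α s j k * (pe α s j k - 1) := by
      nlinarith
    have hq0 : 0 < (2 * (n : ℝ) + s + 1) * (2 * (n + 1) + s) := by positivity
    refine ⟨div_nonneg hN0 (hq0.le.trans hq), ?_⟩
    rw [div_le_iff₀ (hq0.trans_le hq)]
    refine hN1.trans ?_
    rw [hbb, ← mul_assoc]
    have hb' := bs_nonneg s (n + 1)
    exact mul_le_mul_of_nonneg_left hq (by positivity)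

lemma Bd_cf {α : ℝ} (hα : 0 < α) (s : ℕ) (hs : s ≤ 1) : Bd (cf α s) (bs s) := by
  intro j k
  obtain ⟨h1, h2⟩ := cf_bound hα s hs (j + k) j k rfl
  rwa [abs_of_nonneg h1]

/-- divided coefficients -/
def Ad (α : ℝ) (s : ℕ) (δ : ℝ) (j k : ℕ) : ℝ := cf α s j k / (pe α s j k + δ + 1)

lemma Bd_Ad {α : ℝ} (hα : 0 < α) (s : ℕ) (hs : s ≤ 1) {δ : ℝ} (hδ : 0 ≤ δ) :
    Bd (Ad α s δ) (bs (s + 1)) := by
  intro j k
  obtain ⟨h1, h2⟩ := cf_bound hα s hs (j + k) j k rfl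
  have hp := pe_ge (σ := (s : ℝ)) hα j k
  have hs0 : (0 : ℝ) ≤ s := by positivity
  have hn0 : (0 : ℝ) ≤ (j + k : ℕ) := by positivity
  have hpos : 0 < pe α s j k + δ + 1 := by linarith
  unfold Ad
  rw [abs_of_nonneg (div_nonneg h1 hpos.le), div_le_iff₀ hpos]
  refine h2.trans ?_
  rw [bs_succ s (j + k), ← mul_assoc]
  have hb' := bs_nonneg (s + 1) (j + k)
  exact mul_le_mul_of_nonneg_left (by linarith) (by positivity)

/-! ### derivative in `x` -/

lemma hasDerivAt_Ser {α σ : ℝ} (hα : 0 < α) (hσ : 0 ≤ σ) {a : ℕ → ℕ → ℝ} {b : ℕ → ℝ}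
    (hab : Bd a b) (hb : ∀ n, 0 ≤ b n) (hb' : ∀ n, b n ≤ 1 / ((2 * n)! : ℝ)) (l : ℂ) {x : ℂ}
    (hx : x ∈ slitPlane) {D : ℂ}
    (hD : HasSum (fun i : ℕ × ℕ => (a i.1 i.2 : ℂ) * (-l) ^ i.1 * I ^ i.2 *
      (((pe α σ i.1 i.2 : ℝ) : ℂ) * x ^ (((pe α σ i.1 i.2 : ℝ) : ℂ) - 1))) D) :
    HasDerivAt (fun z => Ser α σ a l z) D x := by
  set U : Set ℂ := slitPlane ∩ Metric.ball 0 (‖x‖ + 1) with hU
  have hUo : IsOpen U := isOpen_slitPlane.inter Metric.isOpen_ball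
  have hxU : x ∈ U := ⟨hx, by simp⟩
  have hdz : ∀ (i : ℕ × ℕ) (w : ℂ), w ∈ slitPlane → HasDerivAt (fun z => tm α σ a l z i)
      ((a i.1 i.2 : ℂ) * (-l) ^ i.1 * I ^ i.2 *
      (((pe α σ i.1 i.2 : ℝ) : ℂ) * w ^ (((pe α σ i.1 i.2 : ℝ) : ℂ) - 1))) w := by
    intro i w hw
    have := (hasDerivAt_id w).cpow_const (c := ((pe α σ i.1 i.2 : ℝ) : ℂ)) hw
    have h2 := this.const_mul ((a i.1 i.2 : ℂ) * (-l) ^ i.1 * I ^ i.2)
    simp only [id, mul_one] at h2
    exact h2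
  have hdiff : ∀ i : ℕ × ℕ, DifferentiableOn ℂ (fun z => tm α σ a l z i) U :=
    fun i w hw => (hdz i w hw.1).differentiableAt.differentiableWithinAt
  have hle : ∀ (i : ℕ × ℕ) (w : ℂ), w ∈ U → ‖tm α σ a l w i‖ ≤ maj α σ b ‖l‖ (‖x‖ + 1) i := by
    intro i w hw
    refine norm_tm_le hα hσ hab hb le_rfl ?_ i
    have := hw.2
    rw [mem_ball_zero_iff] at this
    exact this.le
  have hsm := summable_maj (α := α) (σ := σ) hb hb' (norm_nonneg l) (X := ‖x‖ + 1) (by positivity)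
  have h1 := hasSum_deriv_of_summable_norm hsm hdiff hUo hle hxU
  have h2 := differentiableOn_tsum_of_summable_norm hsm hdiff hUo hle
  have h3 : DifferentiableAt ℂ (fun z => ∑' i, tm α σ a l z i) x :=
    h2.differentiableAt (hUo.mem_nhds hxU)
  have h4 : deriv (fun z => ∑' i, tm α σ a l z i) x = D := by
    refine h1.unique ?_
    exact (hasSum_congr' fun i => (hdz i x hx).deriv).mpr hD
  have h5 := h3.hasDerivAt
  rw [h4] at h5
  exact h5

/-- `y` -/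
def yy (α : ℝ) (s : ℕ) (l x : ℂ) : ℂ := Ser α s (cf α s) l x

/-- `y'` -/
def dyy (α : ℝ) (s : ℕ) (l x : ℂ) : ℂ :=
  s + (-l) * Ser α (s + 1) (Ad α s 0) l x + I * Ser α (s + α + 1) (Ad α s α) l x

lemma hasSum_Ser {α σ : ℝ} (hα : 0 < α) (hσ : 0 ≤ σ) {a : ℕ → ℕ → ℝ} {b : ℕ → ℝ}
    (hab : Bd a b) (hb : ∀ n, 0 ≤ b n) (hb' : ∀ n, b n ≤ 1 / ((2 * n)! : ℝ)) (l x : ℂ) :
    HasSum (tm α σ a l x) (Ser α σ a l x) :=
  (summable_tm hα hσ hab hb hb' l x).hasSum

lemma hasDerivAt_dyy {α : ℝ} (hα : 0 < α) (s : ℕ) (hs : s ≤ 1) (l : ℂ) {x : ℂ}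
    (hx : x ∈ slitPlane) :
    HasDerivAt (fun z => dyy α s l z) ((I * x ^ (α : ℂ) - l) * yy α s l x) x := by
  have hx0 : x ≠ 0 := slitPlane_ne_zero hx
  have hy := hasSum_Ser hα (σ := (s : ℝ)) (by positivity) (Bd_cf hα s hs) (bs_nonneg s) (bs_le s)
    l x
  have hs0 : (0 : ℝ) ≤ s := by positivity
  have hA : HasDerivAt (fun z => Ser α (s + 1) (Ad α s 0) l z) (yy α s l x) x := by
    refine hasDerivAt_Ser hα (by positivity) (Bd_Ad hα s hs le_rfl) (bs_nonneg _) (bs_le _) l hx ?_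
    refine (hasSum_congr' fun i => ?_).mpr hy
    unfold tm
    have hp := pe_ge (σ := (s : ℝ)) hα i.1 i.2
    have hn0 : (0 : ℝ) ≤ (i.1 + i.2 : ℕ) := by positivity
    have hpos : pe α s i.1 i.2 + 0 + 1 ≠ 0 := by
      have : 0 < pe α s i.1 i.2 + 0 + 1 := by linarith
      exact this.ne'
    have e1 : pe α (s + 1) i.1 i.2 = pe α s i.1 i.2 + 1 := by unfold pe; ring
    rw [e1]
    have e2 : (((pe α s i.1 i.2 + 1 : ℝ) : ℂ) - 1) = ((pe α s i.1 i.2 : ℝ) : ℂ) := by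
      push_cast; ring
    rw [e2]
    have e3 : ((Ad α s 0 i.1 i.2 : ℝ) : ℂ) * ((pe α s i.1 i.2 + 1 : ℝ) : ℂ) = (cf α s i.1 i.2 : ℂ) := by
      rw [← Complex.ofReal_mul]
      congr 1
      unfold Ad
      rw [add_zero] at *
      field_simp
    rw [← e3]
    ring
  have hB : HasDerivAt (fun z => Ser α (s + α + 1) (Ad α s α) l z) (x ^ (α : ℂ) * yy α s l x) x := by
    refine hasDerivAt_Ser hα (by positivity) (Bd_Ad hα s hs hα.le) (bs_nonneg _) (bs_le _) l hx ?_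
    refine (hasSum_congr' fun i => ?_).mpr (hy.mul_left (x ^ (α : ℂ)))
    unfold tm
    have hp := pe_ge (σ := (s : ℝ)) hα i.1 i.2
    have hn0 : (0 : ℝ) ≤ (i.1 + i.2 : ℕ) := by positivity
    have hpos : pe α s i.1 i.2 + α + 1 ≠ 0 := by
      have : 0 < pe α s i.1 i.2 + α + 1 := by linarith
      exact this.ne'
    have e1 : pe α (s + α + 1) i.1 i.2 = pe α s i.1 i.2 + α + 1 := by unfold pe; ring
    rw [e1]
    have e2 : (((pe α s i.1 i.2 + α + 1 : ℝ) : ℂ) - 1) = ((pe α s i.1 i.2 : ℝ) : ℂ) + (α : ℂ) := by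
      push_cast; ring
    rw [e2, Complex.cpow_add _ _ hx0]
    have e3 : ((Ad α s α i.1 i.2 : ℝ) : ℂ) * ((pe α s i.1 i.2 + α + 1 : ℝ) : ℂ) =
        (cf α s i.1 i.2 : ℂ) := by
      rw [← Complex.ofReal_mul]
      congr 1
      unfold Ad
      field_simp
    rw [← e3]
    ring
  have h := ((hA.const_mul (-l)).const_add (s : ℂ)).add (hB.const_mul I)
  have e : (I * x ^ (α : ℂ) - l) * yy α s l x =
      -l * yy α s l x + I * (x ^ (α : ℂ) * yy α s l x) := by ring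
  rw [e]
  exact h

lemma injA : Function.Injective (fun i : ℕ × ℕ => (i.1 + 1, i.2)) := by
  rintro ⟨a, b⟩ ⟨c, d⟩ h
  simpa using h

lemma injB : Function.Injective (fun i : ℕ × ℕ => (i.1, i.2 + 1)) := by
  rintro ⟨a, b⟩ ⟨c, d⟩ h
  simpa using h

lemma hasDerivAt_yy {α : ℝ} (hα : 0 < α) (s : ℕ) (hs : s ≤ 1) (l : ℂ) {x : ℂ}
    (hx : x ∈ slitPlane) :
    HasDerivAt (fun z => yy α s l z) (dyy α s l x) x := by
  have hx0 : x ≠ 0 := slitPlane_ne_zero hx
  refine hasDerivAt_Ser hα (by positivity) (Bd_cf hα s hs) (bs_nonneg _) (bs_le _) l hx ?_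
  have hA := (hasSum_Ser hα (σ := (s : ℝ) + 1) (by positivity) (Bd_Ad hα s hs le_rfl)
    (bs_nonneg _) (bs_le _) l x).mul_left (-l)
  have hB := (hasSum_Ser hα (σ := (s : ℝ) + α + 1) (by positivity) (Bd_Ad hα s hs hα.le)
    (bs_nonneg _) (bs_le _) l x).mul_left I
  -- the three families
  set g0 : ℕ × ℕ → ℂ := fun i => if i = (0, 0) then (s : ℂ) else 0 with hg0
  set g1 : ℕ × ℕ → ℂ := fun i => if i.1 = 0 then 0 else (-l) * tm α (s + 1) (Ad α s 0) l x (i.1 - 1, i.2)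
    with hg1
  set g2 : ℕ × ℕ → ℂ := fun i => if i.2 = 0 then 0 else I * tm α (s + α + 1) (Ad α s α) l x (i.1, i.2 - 1)
    with hg2
  have h0 : HasSum g0 (s : ℂ) := by
    rw [hg0]
    exact hasSum_ite_eq (0, 0) (s : ℂ)
  have h1 : HasSum g1 (-l * Ser α (s + 1) (Ad α s 0) l x) := by
    rw [← injA.hasSum_iff]
    · refine (hasSum_congr' fun i => ?_).mpr hA
      simp [hg1]
    · intro i hi
      rw [hg1]
      change (if i.1 = 0 then 0 else _) = _
      split_ifs with h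
      · rfl
      · exfalso
        apply hi
        refine ⟨(i.1 - 1, i.2), ?_⟩
        ext
        · simp; omega
        · simp
  have h2 : HasSum g2 (I * Ser α (s + α + 1) (Ad α s α) l x) := by
    rw [← injB.hasSum_iff]
    · refine (hasSum_congr' fun i => ?_).mpr hB
      simp [hg2]
    · intro i hi
      rw [hg2]
      change (if i.2 = 0 then 0 else _) = _
      split_ifs with h
      · rfl
      · exfalso
        apply hi
        refine ⟨(i.1, i.2 - 1), ?_⟩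
        ext
        · simp
        · simp; omega
  refine (hasSum_congr' fun i => ?_).mpr ((h0.add h1).add h2)
  obtain ⟨j, k⟩ := i
  simp only [hg0, hg1, hg2, Prod.mk.injEq]
  by_cases hjk : j + k = 0
  · have hj : j = 0 := by omega
    have hk : k = 0 := by omega
    subst hj hk
    have e : pe α s 0 0 = s := by unfold pe; simp
    have e' : cf α s 0 0 = 1 := by rw [cf]
    rw [e, e']
    interval_cases s <;> simp
  · have hrec := cf_rec (α := α) (σ := (s : ℝ)) j k hjk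
    have hp := pe_ge (σ := (s : ℝ)) hα j k
    have hs0 : (0 : ℝ) ≤ s := by positivity
    have hn1 : (1 : ℝ) ≤ (j + k : ℕ) := by
      have : 1 ≤ j + k := by omega
      exact_mod_cast this
    have hp2 : 2 ≤ pe α s j k := by linarith
    have hp0 : pe α s j k ≠ 0 := by linarith
    have hp1 : pe α s j k - 1 ≠ 0 := by
      have : 0 < pe α s j k - 1 := by linarith
      exact this.ne'
    have hne : ¬ (j = 0 ∧ k = 0) := by omega
    rw [if_neg hne, zero_add]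
    -- first shifted term
    have t1 : (if j = 0 then 0 else (-l) * tm α (s + 1) (Ad α s 0) l x (j - 1, k)) =
        (((if j = 0 then 0 else cf α s (j - 1) k) / (pe α s j k - 1) : ℝ) : ℂ) *
          ((-l) ^ j * I ^ k * x ^ (((pe α s j k : ℝ) : ℂ) - 1)) := by
      split_ifs with h
      · simp
      · obtain ⟨j', rfl⟩ := Nat.exists_eq_succ_of_ne_zero h
        simp only [Nat.succ_eq_add_one, Nat.add_sub_cancel]
        unfold tm Ad
        simp only
        have e1 : ((pe α (s + 1) j' k : ℝ) : ℂ) = ((pe α s (j' + 1) k : ℝ) : ℂ) - 1 := by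
          unfold pe; push_cast; ring
        have e2 : pe α s j' k + 0 + 1 = pe α s (j' + 1) k - 1 := by
          unfold pe; push_cast; ring
        rw [e1, e2, pow_succ]
        ring
    have t2 : (if k = 0 then 0 else I * tm α (s + α + 1) (Ad α s α) l x (j, k - 1)) =
        (((if k = 0 then 0 else cf α s j (k - 1)) / (pe α s j k - 1) : ℝ) : ℂ) *
          ((-l) ^ j * I ^ k * x ^ (((pe α s j k : ℝ) : ℂ) - 1)) := by
      split_ifs with h
      · simp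
      · obtain ⟨k', rfl⟩ := Nat.exists_eq_succ_of_ne_zero h
        simp only [Nat.succ_eq_add_one, Nat.add_sub_cancel]
        unfold tm Ad
        simp only
        have e1 : ((pe α (s + α + 1) j k' : ℝ) : ℂ) = ((pe α s j (k' + 1) : ℝ) : ℂ) - 1 := by
          unfold pe; push_cast; ring
        have e2 : pe α s j k' + α + 1 = pe α s j (k' + 1) - 1 := by
          unfold pe; push_cast; ring
        rw [e1, e2, pow_succ I]
        ring
    rw [t1, t2, ← add_mul, ← Complex.ofReal_add, ← add_div]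
    have hc : ((if j = 0 then 0 else cf α s (j - 1) k) + (if k = 0 then 0 else cf α s j (k - 1))) /
        (pe α s j k - 1) = cf α s j k * pe α s j k := by
      rw [hrec]
      field_simp
    rw [hc]
    push_cast
    ring

/-! ### continuity and holomorphy in `l` -/

lemma continuousOn_cpow_Dom {q : ℝ} (hq : 0 ≤ q) :
    ContinuousOn (fun x : ℂ => x ^ ((q : ℝ) : ℂ)) Dom := by
  rcases hq.eq_or_lt with h | h
  · subst h
    simp [continuousOn_const]
  · intro x hx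
    rcases hx with hx | hx
    · subst hx
      exact (continuousAt_cpow_const_of_re_pos (by simp) (by simpa using h)).continuousWithinAt
    · exact (continuousAt_cpow_const hx).continuousWithinAt

lemma continuousOn_Ser {α σ : ℝ} (hα : 0 < α) (hσ : 0 ≤ σ) {a : ℕ → ℕ → ℝ} {b : ℕ → ℝ}
    (hab : Bd a b) (hb : ∀ n, 0 ≤ b n) (hb' : ∀ n, b n ≤ 1 / ((2 * n)! : ℝ)) :
    ContinuousOn (fun p : ℂ × ℂ => Ser α σ a p.2 p.1) (Dom ×ˢ univ) := by
  intro p hp
  set V : Set (ℂ × ℂ) := Metric.ball 0 (‖p.1‖ + 1) ×ˢ Metric.ball 0 (‖p.2‖ + 1) with hV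
  have hVo : IsOpen V := Metric.isOpen_ball.prod Metric.isOpen_ball
  have hpV : p ∈ V := ⟨by simp, by simp⟩
  have hc : ContinuousOn (fun p : ℂ × ℂ => ∑' i, tm α σ a p.2 p.1 i) ((Dom ×ˢ univ) ∩ V) := by
    refine continuousOn_tsum (u := maj α σ b (‖p.2‖ + 1) (‖p.1‖ + 1)) ?_
      (summable_maj hb hb' (by positivity) (by positivity)) ?_
    · intro i
      unfold tm
      refine ContinuousOn.mul ?_ ?_
      · fun_prop
      · exact (continuousOn_cpow_Dom (pe_nonneg hα hσ i.1 i.2)).comp continuousOn_fst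
          (fun q hq => hq.1.1)
    · intro i q hq
      have h1 := hq.2.1
      have h2 := hq.2.2
      rw [mem_ball_zero_iff] at h1 h2
      exact norm_tm_le hα hσ hab hb h2.le h1.le i
  have := hc p ⟨hp, hpV⟩
  rwa [continuousWithinAt_inter (hVo.mem_nhds hpV)] at this

lemma differentiable_Ser {α σ : ℝ} (hα : 0 < α) (hσ : 0 ≤ σ) {a : ℕ → ℕ → ℝ} {b : ℕ → ℝ}
    (hab : Bd a b) (hb : ∀ n, 0 ≤ b n) (hb' : ∀ n, b n ≤ 1 / ((2 * n)! : ℝ)) (x : ℂ) :
    Differentiable ℂ (fun l => Ser α σ a l x) := by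
  intro l
  have h2 := differentiableOn_tsum_of_summable_norm (F := fun i l => tm α σ a l x i)
    (u := maj α σ b (‖l‖ + 1) ‖x‖) (U := Metric.ball 0 (‖l‖ + 1))
    (summable_maj hb hb' (by positivity) (by positivity)) ?_ Metric.isOpen_ball ?_
  · exact h2.differentiableAt (Metric.isOpen_ball.mem_nhds (by simp))
  · intro i
    unfold tm
    fun_prop
  · intro i w hw
    rw [mem_ball_zero_iff] at hw
    exact norm_tm_le hα hσ hab hb hw.le le_rfl i

/-! ### values at `0` -/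

lemma Ser_zero {α σ : ℝ} (hα : 0 < α) (hσ : 0 < σ) (a : ℕ → ℕ → ℝ) (l : ℂ) :
    Ser α σ a l 0 = 0 := by
  unfold Ser
  have : ∀ i, tm α σ a l 0 i = 0 := by
    intro i
    unfold tm
    have hp := pe_ge (σ := σ) hα i.1 i.2
    have hn0 : (0 : ℝ) ≤ (i.1 + i.2 : ℕ) := by positivity
    have hpos : (0 : ℝ) < pe α σ i.1 i.2 := by linarith
    rw [Complex.zero_cpow (by exact_mod_cast hpos.ne'), mul_zero]
  simp [this]

lemma yy_zero0 {α : ℝ} (hα : 0 < α) (l : ℂ) : yy α 0 l 0 = 1 := by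
  unfold yy Ser
  rw [tsum_eq_single (0, 0)]
  · unfold tm
    have e : pe α ((0 : ℕ) : ℝ) 0 0 = 0 := by unfold pe; simp
    have e' : cf α ((0 : ℕ) : ℝ) 0 0 = 1 := by rw [cf]
    simp only [e, e']
    simp
  · intro i hi
    unfold tm
    have hp := pe_ge (σ := ((0 : ℕ) : ℝ)) hα i.1 i.2
    have hn0 : (1 : ℝ) ≤ (i.1 + i.2 : ℕ) := by
      have : 1 ≤ i.1 + i.2 := by
        by_contra h
        apply hi
        ext <;> simp <;> omega
      exact_mod_cast this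
    have hpos : (0 : ℝ) < pe α ((0 : ℕ) : ℝ) i.1 i.2 := by
      push_cast at *
      linarith
    rw [Complex.zero_cpow (by exact_mod_cast hpos.ne'), mul_zero]

lemma yy_zero1 {α : ℝ} (hα : 0 < α) (l : ℂ) : yy α 1 l 0 = 0 := by
  unfold yy
  exact Ser_zero hα (by simp) _ l

lemma dyy_zero {α : ℝ} (hα : 0 < α) (s : ℕ) (l : ℂ) : dyy α s l 0 = s := by
  unfold dyy
  rw [Ser_zero hα (by positivity), Ser_zero hα (by positivity)]
  simp

/-! ### bounds -/

/-- `r` -/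
def rr (α : ℝ) (l x : ℂ) : ℝ := ‖x‖ * Real.sqrt (‖l‖ + ‖x‖ ^ α)

lemma rr_sq {α : ℝ} (hα : 0 < α) (l x : ℂ) :
    rr α l x ^ 2 = ‖l‖ * ‖x‖ ^ 2 + ‖x‖ ^ (α + 2) := by
  unfold rr
  rw [mul_pow, Real.sq_sqrt (by positivity), mul_add,
    Real.rpow_add_of_nonneg (norm_nonneg x) hα.le (by norm_num), Real.rpow_two]
  ring

lemma rr_nonneg (α : ℝ) (l x : ℂ) : 0 ≤ rr α l x := by unfold rr; positivity

lemma cosh_le_exp {r : ℝ} (hr : 0 ≤ r) : Real.cosh r ≤ Real.exp r := by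
  rw [Real.cosh_eq]
  have : Real.exp (-r) ≤ Real.exp r := Real.exp_le_exp.2 (by linarith)
  linarith

lemma hasSum_bs0 {α : ℝ} (hα : 0 < α) (l x : ℂ) :
    HasSum (fun n => bs 0 n * (‖l‖ * ‖x‖ ^ 2 + ‖x‖ ^ (α + 2)) ^ n) (Real.cosh (rr α l x)) := by
  have h := Real.hasSum_cosh (rr α l x)
  convert h using 2 with n
  rw [← rr_sq hα, ← pow_mul]
  unfold bs
  simp [div_eq_inv_mul]

lemma hasSum_bs_le {α : ℝ} (hα : 0 < α) (s : ℕ) (l x : ℂ) : ∃ T : ℝ,
    HasSum (fun n => bs s n * (‖l‖ * ‖x‖ ^ 2 + ‖x‖ ^ (α + 2)) ^ n) T ∧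
      T ≤ Real.exp (rr α l x) := by
  have h0 := hasSum_bs0 hα l x
  have hle : ∀ n, bs s n * (‖l‖ * ‖x‖ ^ 2 + ‖x‖ ^ (α + 2)) ^ n ≤
      bs 0 n * (‖l‖ * ‖x‖ ^ 2 + ‖x‖ ^ (α + 2)) ^ n := by
    intro n
    have := bs_le s n
    have e : bs 0 n = 1 / ((2 * n)! : ℝ) := by unfold bs; simp
    rw [e]
    exact mul_le_mul_of_nonneg_right this (by positivity)
  have hs : Summable (fun n => bs s n * (‖l‖ * ‖x‖ ^ 2 + ‖x‖ ^ (α + 2)) ^ n) :=
    Summable.of_nonneg_of_le (fun n => mul_nonneg (bs_nonneg s n) (by positivity)) hle h0.summable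
  exact ⟨_, hs.hasSum, (hasSum_le hle hs.hasSum h0).trans (cosh_le_exp (rr_nonneg α l x))⟩

lemma hasSum_bs2 {α : ℝ} (hα : 0 < α) (l x : ℂ) : ∃ T : ℝ,
    HasSum (fun n => bs 2 n * (‖l‖ * ‖x‖ ^ 2 + ‖x‖ ^ (α + 2)) ^ n) T ∧
      1 + (‖l‖ * ‖x‖ ^ 2 + ‖x‖ ^ (α + 2)) * T ≤ Real.exp (rr α l x) := by
  obtain ⟨T, hT, -⟩ := hasSum_bs_le hα 2 l x
  refine ⟨T, hT, ?_⟩
  have h0 := hasSum_bs0 hα l x
  have h1 := hT.mul_left (‖l‖ * ‖x‖ ^ 2 + ‖x‖ ^ (α + 2))
  have h2 : HasSum (fun n => bs 0 (n + 1) * (‖l‖ * ‖x‖ ^ 2 + ‖x‖ ^ (α + 2)) ^ (n + 1))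
      ((‖l‖ * ‖x‖ ^ 2 + ‖x‖ ^ (α + 2)) * T) := by
    have e : (fun n => (‖l‖ * ‖x‖ ^ 2 + ‖x‖ ^ (α + 2)) *
        (bs 2 n * (‖l‖ * ‖x‖ ^ 2 + ‖x‖ ^ (α + 2)) ^ n)) =
        (fun n => bs 0 (n + 1) * (‖l‖ * ‖x‖ ^ 2 + ‖x‖ ^ (α + 2)) ^ (n + 1)) := by
      funext n
      rw [← bs_shift]
      ring
    rw [← e]
    exact h1
  have h3 := (hasSum_nat_add_iff (f := fun n => bs 0 n *
    (‖l‖ * ‖x‖ ^ 2 + ‖x‖ ^ (α + 2)) ^ n) 1).1 h2
  have h4 := h3.unique h0
  simp only [Finset.range_one, Finset.sum_singleton, pow_zero, mul_one] at h4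
  have e : bs 0 0 = 1 := by unfold bs; simp
  rw [e] at h4
  have := cosh_le_exp (rr_nonneg α l x)
  linarith

lemma bound_all {α : ℝ} (hα : 0 < α) (l x : ℂ) :
    ‖yy α 0 l x‖ + ‖dyy α 0 l x‖ + ‖yy α 1 l x‖ + ‖dyy α 1 l x‖ ≤
    4 * (1 + ‖x‖) * (1 + ‖l‖ + ‖x‖ ^ α) * Real.exp (‖x‖ * Real.sqrt (‖l‖ + ‖x‖ ^ α)) := by
  set E := Real.exp (rr α l x) with hE
  have hE1 : 1 ≤ E := Real.one_le_exp (rr_nonneg α l x)
  have hx := norm_nonneg x
  have hl := norm_nonneg l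
  have hxα : 0 ≤ ‖x‖ ^ α := by positivity
  have b1 : ‖yy α 0 l x‖ ≤ E := by
    obtain ⟨T, hT, hT'⟩ := hasSum_bs_le hα 0 l x
    have := norm_Ser_le hα (σ := ((0 : ℕ) : ℝ)) (by simp) (Bd_cf hα 0 (by norm_num)) (bs_nonneg 0)
      l x hT
    unfold yy
    refine this.trans ?_
    simpa using hT'
  have b3 : ‖yy α 1 l x‖ ≤ ‖x‖ * E := by
    obtain ⟨T, hT, hT'⟩ := hasSum_bs_le hα 1 l x
    have := norm_Ser_le hα (σ := ((1 : ℕ) : ℝ)) (by simp) (Bd_cf hα 1 (by norm_num)) (bs_nonneg 1)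
      l x hT
    unfold yy
    refine this.trans ?_
    rw [Nat.cast_one, Real.rpow_one, mul_comm]
    exact mul_le_mul_of_nonneg_left hT' hx
  have b2 : ‖dyy α 0 l x‖ ≤ ‖x‖ * (‖l‖ + ‖x‖ ^ α) * E := by
    obtain ⟨T, hT, hT'⟩ := hasSum_bs_le hα (0 + 1) l x
    have hA := norm_Ser_le hα (σ := ((0 : ℕ) : ℝ) + 1) (by positivity)
      (Bd_Ad hα 0 (by norm_num) le_rfl) (bs_nonneg _) l x hT
    have hB := norm_Ser_le hα (σ := ((0 : ℕ) : ℝ) + α + 1) (by positivity)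
      (Bd_Ad hα 0 (by norm_num) hα.le) (bs_nonneg _) l x hT
    have e1 : ‖x‖ ^ (((0 : ℕ) : ℝ) + 1) = ‖x‖ := by simp
    have e2 : ‖x‖ ^ (((0 : ℕ) : ℝ) + α + 1) = ‖x‖ ^ α * ‖x‖ := by
      rw [Nat.cast_zero, zero_add, Real.rpow_add_of_nonneg hx hα.le (by norm_num), Real.rpow_one]
    rw [e1] at hA
    rw [e2] at hB
    unfold dyy
    rw [Nat.cast_zero, zero_add]
    calc ‖-l * Ser α (((0 : ℕ) : ℝ) + 1) (Ad α 0 0) l x +
          I * Ser α (((0 : ℕ) : ℝ) + α + 1) (Ad α 0 α) l x‖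
        ≤ ‖l‖ * ‖Ser α (((0 : ℕ) : ℝ) + 1) (Ad α 0 0) l x‖ +
          ‖Ser α (((0 : ℕ) : ℝ) + α + 1) (Ad α 0 α) l x‖ := by
          refine (norm_add_le _ _).trans ?_
          rw [norm_mul, norm_mul, norm_neg, Complex.norm_I, one_mul]
      _ ≤ ‖l‖ * (T * ‖x‖) + T * (‖x‖ ^ α * ‖x‖) := by gcongr
      _ = ‖x‖ * (‖l‖ + ‖x‖ ^ α) * T := by ring
      _ ≤ _ := by gcongr
  have b4 : ‖dyy α 1 l x‖ ≤ E := by
    obtain ⟨T, hT, hT'⟩ := hasSum_bs2 hα l x
    have hA := norm_Ser_le hα (σ := ((1 : ℕ) : ℝ) + 1) (by positivity)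
      (Bd_Ad hα 1 (by norm_num) le_rfl) (bs_nonneg _) l x hT
    have hB := norm_Ser_le hα (σ := ((1 : ℕ) : ℝ) + α + 1) (by positivity)
      (Bd_Ad hα 1 (by norm_num) hα.le) (bs_nonneg _) l x hT
    have e1 : ‖x‖ ^ (((1 : ℕ) : ℝ) + 1) = ‖x‖ ^ 2 := by
      rw [Nat.cast_one, one_add_one_eq_two, Real.rpow_two]
    have e2 : ‖x‖ ^ (((1 : ℕ) : ℝ) + α + 1) = ‖x‖ ^ (α + 2) := by
      congr 1
      push_cast
      ring
    rw [e1] at hA
    rw [e2] at hB
    unfold dyy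
    calc ‖((1 : ℕ) : ℂ) + -l * Ser α (((1 : ℕ) : ℝ) + 1) (Ad α 1 0) l x +
          I * Ser α (((1 : ℕ) : ℝ) + α + 1) (Ad α 1 α) l x‖
        ≤ 1 + ‖l‖ * ‖Ser α (((1 : ℕ) : ℝ) + 1) (Ad α 1 0) l x‖ +
          ‖Ser α (((1 : ℕ) : ℝ) + α + 1) (Ad α 1 α) l x‖ := by
          refine (norm_add_le _ _).trans ?_
          refine add_le_add ((norm_add_le _ _).trans ?_) ?_
          · rw [norm_mul, norm_neg]; simp
          · rw [norm_mul, Complex.norm_I, one_mul]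
      _ ≤ 1 + ‖l‖ * (T * ‖x‖ ^ 2) + T * ‖x‖ ^ (α + 2) := by gcongr
      _ = 1 + (‖l‖ * ‖x‖ ^ 2 + ‖x‖ ^ (α + 2)) * T := by ring
      _ ≤ E := hT'
  have hfin : E + ‖x‖ * (‖l‖ + ‖x‖ ^ α) * E + ‖x‖ * E + E ≤
      4 * (1 + ‖x‖) * (1 + ‖l‖ + ‖x‖ ^ α) * E := by
    have : E + ‖x‖ * (‖l‖ + ‖x‖ ^ α) * E + ‖x‖ * E + E =
      (2 + ‖x‖ * (‖l‖ + ‖x‖ ^ α) + ‖x‖) * E := by ring
    rw [this]
    have hE0 : 0 ≤ E := by linarith
    refine mul_le_mul_of_nonneg_right ?_ hE0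
    have : 0 ≤ ‖x‖ * (‖l‖ + ‖x‖ ^ α) := by positivity
    nlinarith
  have : Real.exp (‖x‖ * Real.sqrt (‖l‖ + ‖x‖ ^ α)) = E := rfl
  rw [this]
  linarith

lemma wronskian {α : ℝ} (hα : 0 < α) (x : ℂ) (hx : x ∈ Dom) (l : ℂ)
    (hc : ContinuousOn (fun z : ℂ => yy α 0 l z * dyy α 1 l z - dyy α 0 l z * yy α 1 l z) Dom) :
    yy α 0 l x * dyy α 1 l x - dyy α 0 l x * yy α 1 l x = 1 := by
  set W : ℂ → ℂ := fun z => yy α 0 l z * dyy α 1 l z - dyy α 0 l z * yy α 1 l z with hW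
  have hW0 : W 0 = 1 := by
    simp only [hW]
    rw [yy_zero0 hα, yy_zero1 hα, dyy_zero hα 1, dyy_zero hα 0]
    simp
  have hder : ∀ z ∈ slitPlane, HasDerivAt W 0 z := by
    intro z hz
    have h1 := hasDerivAt_yy hα 0 (by norm_num) l hz
    have h2 := hasDerivAt_dyy hα 0 (by norm_num) l hz
    have h3 := hasDerivAt_yy hα 1 le_rfl l hz
    have h4 := hasDerivAt_dyy hα 1 le_rfl l hz
    have h := (h1.mul h4).sub (h2.mul h3)
    exact h.congr_deriv (by ring)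
  rcases hx with hx | hx
  · rw [hx]; exact hW0
  · -- along the segment from `0` to `x`
    set g : ℝ → ℂ := fun t => W (t * x) with hg
    have hmem : ∀ t : ℝ, 0 < t → (t : ℂ) * x ∈ slitPlane := by
      intro t ht
      rw [Complex.mem_slitPlane_iff] at hx ⊢
      rcases hx with h | h
      · left; simpa using mul_pos ht h
      · right; simpa using ⟨ht.ne', h⟩
    have hgc : ContinuousOn g (Icc 0 1) := by
      refine hc.comp (by fun_prop) ?_
      intro t ht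
      rcases ht.1.eq_or_lt with h | h
      · left; simp [← h]
      · right; exact hmem t h
    have hgd : ∀ t ∈ Ico (0 : ℝ) 1, HasDerivWithinAt g 0 (Ici t) t ∨ t = 0 := by
      intro t ht
      rcases ht.1.eq_or_lt with h | h
      · right; exact h.symm
      · left
        have h1 := hder _ (hmem t h)
        have h2 : HasDerivAt (fun t : ℝ => (t : ℂ) * x) x t := by
          simpa using (Complex.ofRealCLM.hasDerivAt (x := t)).mul_const x
        have h3' := HasDerivAt.comp (h₂ := W) t h1 h2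
        rw [zero_mul] at h3'
        have h3 : HasDerivAt g 0 t := h3'
        exact h3.hasDerivWithinAt
    -- constant on `[s,1]`
    have hconst : ∀ s ∈ Ioc (0 : ℝ) 1, g 1 = g s := by
      intro s hs
      refine constant_of_has_deriv_right_zero (a := s) (b := 1) (hgc.mono ?_) ?_ 1 ⟨hs.2, le_rfl⟩
      · exact Icc_subset_Icc_left hs.1.le
      · intro t ht
        have ht0 : 0 < t := hs.1.trans_le ht.1
        rcases hgd t ⟨ht0.le, ht.2⟩ with h | h
        · exact h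
        · exact absurd h ht0.ne'
    have hlim : Tendsto g (𝓝[>] 0) (𝓝 (g 0)) := by
      have := hgc 0 ⟨le_rfl, zero_le_one⟩
      have h2 : ContinuousWithinAt g (Ioc 0 1) 0 := this.mono Ioc_subset_Icc_self
      have h3 := h2.tendsto
      rwa [nhdsWithin_Ioc_eq_nhdsGT zero_lt_one] at h3
    have hlim2 : Tendsto g (𝓝[>] 0) (𝓝 (g 1)) := by
      refine tendsto_const_nhds.congr' ?_
      filter_upwards [Ioc_mem_nhdsGT (zero_lt_one' ℝ)] with s hs
      exact hconst s hs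
    have h01 : g 1 = g 0 := tendsto_nhds_unique hlim2 hlim
    have : W x = W 0 := by simpa [hg] using h01
    rw [hW0] at this
    exact this

end FSAux

open FSAux in
/-- Module FS. -/
theorem fs : Stmt_FS := by
  intro α hα _
  have cy : ∀ s : ℕ, s ≤ 1 → ContinuousOn (fun p : ℂ × ℂ => yy α s p.2 p.1) (Dom ×ˢ univ) :=
    fun s hs => continuousOn_Ser hα (by positivity) (Bd_cf hα s hs) (bs_nonneg _) (bs_le _)
  have ay : ∀ s : ℕ, s ≤ 1 → ∀ x : ℂ, Differentiable ℂ (fun l => yy α s l x) :=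
    fun s hs x => differentiable_Ser hα (by positivity) (Bd_cf hα s hs) (bs_nonneg _) (bs_le _) x
  have cA : ∀ s : ℕ, s ≤ 1 → ContinuousOn (fun p : ℂ × ℂ => Ser α ((s : ℝ) + 1) (Ad α s 0) p.2 p.1)
      (Dom ×ˢ univ) := fun s hs => continuousOn_Ser hα (by positivity) (Bd_Ad hα s hs le_rfl)
    (bs_nonneg _) (bs_le _)
  have cB : ∀ s : ℕ, s ≤ 1 → ContinuousOn
      (fun p : ℂ × ℂ => Ser α ((s : ℝ) + α + 1) (Ad α s α) p.2 p.1)
      (Dom ×ˢ univ) := fun s hs => continuousOn_Ser hα (by positivity) (Bd_Ad hα s hs hα.le)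
    (bs_nonneg _) (bs_le _)
  have cd : ∀ s : ℕ, s ≤ 1 → ContinuousOn (fun p : ℂ × ℂ => dyy α s p.2 p.1) (Dom ×ˢ univ) := by
    intro s hs
    unfold dyy
    have h1 := cA s hs
    have h2 := cB s hs
    fun_prop
  have ad : ∀ s : ℕ, s ≤ 1 → ∀ x : ℂ, Differentiable ℂ (fun l => dyy α s l x) := by
    intro s hs x
    unfold dyy
    have h1 := differentiable_Ser hα (σ := (s : ℝ) + 1) (by positivity) (Bd_Ad hα s hs le_rfl)
      (bs_nonneg _) (bs_le _) x
    have h2 := differentiable_Ser hα (σ := (s : ℝ) + α + 1) (by positivity) (Bd_Ad hα s hs hα.le)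
      (bs_nonneg _) (bs_le _) x
    fun_prop
  have hslice : ∀ (f : ℂ → ℂ → ℂ), ContinuousOn (fun p : ℂ × ℂ => f p.1 p.2) (Dom ×ˢ univ) →
      ∀ l : ℂ, ContinuousOn (fun z => f z l) Dom := by
    intro f hf l
    exact hf.comp (f := fun z : ℂ => (z, l)) (by fun_prop) (fun z hz => ⟨hz, mem_univ _⟩)
  exact ⟨{ C := fun x l => yy α 0 l x
           dC := fun x l => dyy α 0 l x
           S := fun x l => yy α 1 l x
           dS := fun x l => dyy α 1 l x
           hC := fun l x hx => hasDerivAt_yy hα 0 (by norm_num) l hx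
           hdC := fun l x hx => hasDerivAt_dyy hα 0 (by norm_num) l hx
           hS := fun l x hx => hasDerivAt_yy hα 1 le_rfl l hx
           hdS := fun l x hx => hasDerivAt_dyy hα 1 le_rfl l hx
           C0 := fun l => yy_zero0 hα l
           dC0 := fun l => by simpa using dyy_zero hα 0 l
           S0 := fun l => yy_zero1 hα l
           dS0 := fun l => by simpa using dyy_zero hα 1 l
           cC := cy 0 (by norm_num)
           cdC := cd 0 (by norm_num)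
           cS := cy 1 le_rfl
           cdS := cd 1 le_rfl
           aC := fun x _ => ay 0 (by norm_num) x
           adC := fun x _ => ad 0 (by norm_num) x
           aS := fun x _ => ay 1 le_rfl x
           adS := fun x _ => ad 1 le_rfl x
           bd := fun x _ l => bound_all hα l x
           wr := fun x hx l => wronskian hα x hx l
             (((hslice (fun x l => yy α 0 l x) (cy 0 (by norm_num)) l).mul
               (hslice (fun x l => dyy α 1 l x) (cd 1 le_rfl) l)).sub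
               ((hslice (fun x l => dyy α 0 l x) (cd 0 (by norm_num)) l).mul
                 (hslice (fun x l => yy α 1 l x) (cy 1 le_rfl) l))) }⟩

end

end Pool.Agent.CRV
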