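import Pool.Agent.CRV.KBasic

/-!
# GRON: growth of the WKB energy
-/

set_option autoImplicit false

open MeasureTheory Complex Set Filter Topology
open scoped Real

namespace Pool.Agent.CRV

noncomputable section

variable {α : ℝ}

theorem hasDerivAt_norm_q (l : ℂ) (hl : 0 < l.re) {x : ℝ} (hx : 0 < x) :
    HasDerivAt (fun t : ℝ => ‖l - I * ((t ^ α : ℝ) : ℂ)‖)
      (-((l.im - x ^ α) * (α * x ^ (α - 1)) / ‖l - I * ((x ^ α : ℝ) : ℂ)‖)) x := by
  have h1 : ∀ t : ℝ, ‖l - I * ((t ^ α : ℝ) : ℂ)‖ = Real.sqrt (l.re ^ 2 + (l.im - t ^ α) ^ 2) := by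
    intro t
    rw [Complex.norm_eq_sqrt_sq_add_sq, q_re, q_im]
  have h2 : HasDerivAt (fun t : ℝ => t ^ α) (α * x ^ (α - 1)) x :=
    Real.hasDerivAt_rpow_const (Or.inl hx.ne')
  have h3 : HasDerivAt (fun t : ℝ => l.re ^ 2 + (l.im - t ^ α) ^ 2)
      (2 * (l.im - x ^ α) * -(α * x ^ (α - 1))) x := by
    have h4 := ((h2.const_sub l.im).pow 2).const_add (l.re ^ 2)
    refine h4.congr_deriv ?_
    ring
  have h5 : l.re ^ 2 + (l.im - x ^ α) ^ 2 ≠ 0 := by positivity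
  have h6 := h3.sqrt h5
  simp only [h1]
  refine h6.congr_deriv ?_
  have h7 : Real.sqrt (l.re ^ 2 + (l.im - x ^ α) ^ 2) ≠ 0 := by positivity
  field_simp

theorem hasDerivAt_PP (F : FS α) (a b l : ℂ) (hl : 0 < l.re) {x : ℝ} (hx : 0 < x) :
    HasDerivAt (fun t : ℝ => PP F a b l t)
      (2 * ((starRingEnd ℂ) (F.dy a b l x) * F.y a b l x *
        (((‖l - I * ((x ^ α : ℝ) : ℂ)‖ : ℝ) : ℂ) - (l - I * ((x ^ α : ℝ) : ℂ)))).re +
        (-((l.im - x ^ α) * (α * x ^ (α - 1)) / ‖l - I * ((x ^ α : ℝ) : ℂ)‖)) *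
          ‖F.y a b l x‖ ^ 2) x := by
  have h1 := (hasDerivAt_dy_real F a b l hx).norm_sq
  have h2 := (hasDerivAt_y_real F a b l hx).norm_sq
  have h3 := hasDerivAt_norm_q (α := α) l hl hx
  have h4 := h1.add (h3.mul h2)
  refine h4.congr_deriv ?_
  simp only [Complex.inner]
  set y := F.y a b l x
  set d := F.dy a b l x
  set n := ‖l - I * ((x ^ α : ℝ) : ℂ)‖
  set p : ℂ := I * ((x ^ α : ℝ) : ℂ)
  have e1 : ((starRingEnd ℂ) d * ((p - l) * y)).re + n * ((starRingEnd ℂ) y * d).re =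
      ((starRingEnd ℂ) d * y * ((n : ℂ) - (l - p))).re := by
    simp only [Complex.mul_re, Complex.mul_im, Complex.conj_re, Complex.conj_im, Complex.sub_re,
      Complex.sub_im, Complex.ofReal_re, Complex.ofReal_im]
    ring
  rw [← e1]
  ring

theorem deriv_PP_le (F : FS α) (a b l : ℂ) (hl : 0 < l.re) (hα : 0 < α) {x : ℝ} (hx : 0 < x) :
    2 * ((starRingEnd ℂ) (F.dy a b l x) * F.y a b l x *
        (((‖l - I * ((x ^ α : ℝ) : ℂ)‖ : ℝ) : ℂ) - (l - I * ((x ^ α : ℝ) : ℂ)))).re +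
        (-((l.im - x ^ α) * (α * x ^ (α - 1)) / ‖l - I * ((x ^ α : ℝ) : ℂ)‖)) *
          ‖F.y a b l x‖ ^ 2 ≤
      (2 * |(kf α l x).im| + α * x ^ (α - 1) / l.re) * PP F a b l x := by
  have h1 := Complex.re_le_norm ((starRingEnd ℂ) (F.dy a b l x) * F.y a b l x *
        (((‖l - I * ((x ^ α : ℝ) : ℂ)‖ : ℝ) : ℂ) - (l - I * ((x ^ α : ℝ) : ℂ))))
  rw [norm_mul, norm_mul, RCLike.norm_conj, norm_sub_q] at h1
  have h2 : ‖F.dy a b l x‖ * ‖F.y a b l x‖ * (2 * ‖kf α l x‖ * |(kf α l x).im|) ≤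
      |(kf α l x).im| * PP F a b l x := by
    have h3 : 2 * (‖F.dy a b l x‖ * (‖kf α l x‖ * ‖F.y a b l x‖)) ≤ PP F a b l x := by
      unfold PP
      rw [← kf_norm_sq]
      nlinarith [sq_nonneg (‖F.dy a b l x‖ - ‖kf α l x‖ * ‖F.y a b l x‖)]
    have h4 := mul_le_mul_of_nonneg_left h3 (abs_nonneg (kf α l x).im)
    nlinarith
  set n := ‖l - I * ((x ^ α : ℝ) : ℂ)‖ with hn
  have hn0 : 0 < n := lt_of_lt_of_le hl (re_le_norm_q l x)
  have h5 : |l.im - x ^ α| ≤ n := by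
    have := Complex.abs_im_le_norm (l - I * ((x ^ α : ℝ) : ℂ))
    rwa [q_im] at this
  have hp : 0 ≤ α * x ^ (α - 1) := by positivity
  have h6 : -((l.im - x ^ α) * (α * x ^ (α - 1)) / n) ≤ α * x ^ (α - 1) := by
    rw [← neg_div, div_le_iff₀ hn0]
    have : -(l.im - x ^ α) ≤ n := (neg_le_abs _).trans h5
    nlinarith
  have h7 : (-((l.im - x ^ α) * (α * x ^ (α - 1)) / n)) * ‖F.y a b l x‖ ^ 2 ≤
      α * x ^ (α - 1) / l.re * PP F a b l x := by
    have h8 : ‖F.y a b l x‖ ^ 2 ≤ PP F a b l x / l.re := by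
      rw [le_div_iff₀ hl]
      unfold PP
      rw [← hn]
      have := re_le_norm_q (α := α) l x
      rw [← hn] at this
      nlinarith [sq_nonneg ‖F.dy a b l x‖, sq_nonneg ‖F.y a b l x‖]
    calc (-((l.im - x ^ α) * (α * x ^ (α - 1)) / n)) * ‖F.y a b l x‖ ^ 2
        ≤ α * x ^ (α - 1) * ‖F.y a b l x‖ ^ 2 :=
          mul_le_mul_of_nonneg_right h6 (sq_nonneg _)
      _ ≤ α * x ^ (α - 1) * (PP F a b l x / l.re) := mul_le_mul_of_nonneg_left h8 hp
      _ = α * x ^ (α - 1) / l.re * PP F a b l x := by ring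
  nlinarith

theorem gron : Stmt_GRON := by
  intro α hα _ F a b l hl x₁ x₂ hx1 hx12
  have hcont : Continuous fun t : ℝ => |(kf α l t).im| :=
    (Complex.continuous_im.comp (cont_kf hα hl)).abs
  set Φ : ℝ → ℝ := fun x => 2 * (∫ t in x₁..x, |(kf α l t).im|) + (x ^ α - x₁ ^ α) / l.re with hΦ
  have hΦd : ∀ x : ℝ, 0 < x → HasDerivAt Φ (2 * |(kf α l x).im| + α * x ^ (α - 1) / l.re) x := by
    intro x hx
    have h1 : HasDerivAt (fun x => ∫ t in x₁..x, |(kf α l t).im|) |(kf α l x).im| x :=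
      intervalIntegral.integral_hasDerivAt_right (hcont.intervalIntegrable _ _)
        (hcont.stronglyMeasurableAtFilter _ _) hcont.continuousAt
    have h2 : HasDerivAt (fun t : ℝ => t ^ α) (α * x ^ (α - 1)) x :=
      Real.hasDerivAt_rpow_const (Or.inl hx.ne')
    exact (h1.const_mul 2).add ((h2.sub_const _).div_const _)
  have hΦc : Continuous Φ := by
    have h1 : Continuous fun x => ∫ t in x₁..x, |(kf α l t).im| :=
      intervalIntegral.continuous_primitive (fun _ _ => hcont.intervalIntegrable _ _) _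
    exact (continuous_const.mul h1).add (((cont_rpow hα).sub continuous_const).div_const _)
  have hG : AntitoneOn (fun x => PP F a b l x * Real.exp (-Φ x)) (Icc x₁ x₂) := by
    refine antitoneOn_of_deriv_nonpos (convex_Icc _ _) ?_ ?_ ?_
    · exact ((contOn_PP F a b l hα).mono fun x hx => hx1.trans hx.1).mul
        (Real.continuous_exp.comp hΦc.neg).continuousOn
    · intro x hx
      rw [interior_Icc] at hx
      have hx0 : 0 < x := lt_of_le_of_lt hx1 hx.1
      exact ((hasDerivAt_PP F a b l hl hx0).mul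
        (hΦd x hx0).neg.exp).differentiableAt.differentiableWithinAt
    · intro x hx
      rw [interior_Icc] at hx
      have hx0 : 0 < x := lt_of_le_of_lt hx1 hx.1
      have h1 := (hasDerivAt_PP F a b l hl hx0).mul (hΦd x hx0).neg.exp
      have h2 : deriv (fun x => PP F a b l x * Real.exp (-Φ x)) x = _ := h1.deriv
      rw [h2]
      have h3 := deriv_PP_le F a b l hl hα hx0
      have h4 := Real.exp_pos (-Φ x)
      simp only [Pi.neg_apply]
      generalize Real.exp (-Φ x) = e at h4 ⊢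
      generalize 2 * |(kf α l x).im| + α * x ^ (α - 1) / l.re = g at h3 ⊢
      have h5 := mul_le_mul_of_nonneg_right h3 h4.le
      linarith
  have h1 := hG (left_mem_Icc.2 hx12) (right_mem_Icc.2 hx12) hx12
  have h2 : Φ x₁ = 0 := by simp [hΦ]
  simp only [h2, neg_zero, Real.exp_zero, mul_one] at h1
  have h3 : PP F a b l x₂ ≤ PP F a b l x₁ * Real.exp (Φ x₂) := by
    have h4 := mul_le_mul_of_nonneg_right h1 (Real.exp_pos (Φ x₂)).le
    rwa [mul_assoc, ← Real.exp_add, neg_add_cancel, Real.exp_zero, mul_one] at h4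
  refine h3.trans (mul_le_mul_of_nonneg_left (Real.exp_le_exp.2 ?_) (PP_nonneg _ _ _ _ _))
  rw [hΦ]
  have h5 : (x₂ ^ α - x₁ ^ α) / l.re ≤ x₂ ^ α / l.re := by
    have : 0 ≤ x₁ ^ α := Real.rpow_nonneg hx1 _
    gcongr
    linarith
  simp only
  linarith

end

end Pool.Agent.CRV
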