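import Pool.Agent.CRV.Stmts

set_option autoImplicit false

open MeasureTheory Complex Set Filter Topology
open scoped Real

namespace Pool.Agent.CRV

namespace HLaux

/-- continuous version of a solution of `w'' = Q w` on the half-line -/
structure Sol (Q w dw : ℝ → ℂ) : Prop where
  cw : Continuous w
  cdw : Continuous dw
  hw : ∀ t : ℝ, 0 < t → HasDerivAt w (dw t) t
  hdw : ∀ t : ℝ, 0 < t → HasDerivAt dw (Q t * w t) t

noncomputable def gg (c₀ c₁ : ℝ) (w dw : ℝ → ℂ) (t : ℝ) : ℝ := c₀ * ‖dw t‖ ^ 2 + c₁ * ‖w t‖ ^ 2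

noncomputable def GG (c₀ c₁ : ℝ) (w dw : ℝ → ℂ) (T : ℝ) : ℝ := ∫ t in (0 : ℝ)..T, gg c₀ c₁ w dw t

noncomputable def NN (ω : ℝ) (w dw : ℝ → ℂ) (t : ℝ) : ℝ :=
  (exp (ω * I) * (dw t * (starRingEnd ℂ) (w t))).re

theorem Sol.add_smul {Q w dw v dv : ℝ → ℂ} (h : Sol Q w dw) (h' : Sol Q v dv) (m : ℂ) :
    Sol Q (fun t => w t + m * v t) (fun t => dw t + m * dv t) := by
  refine ⟨h.cw.add (continuous_const.mul h'.cw), h.cdw.add (continuous_const.mul h'.cdw), ?_, ?_⟩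
  · intro t ht
    exact (h.hw t ht).add ((h'.hw t ht).const_mul m)
  · intro t ht
    have := (h.hdw t ht).add ((h'.hdw t ht).const_mul m)
    have e : Q t * (w t + m * v t) = Q t * w t + m * (Q t * v t) := by ring
    rw [e]
    exact this

theorem gg_cont {c₀ c₁ : ℝ} {Q w dw : ℝ → ℂ} (h : Sol Q w dw) : Continuous (gg c₀ c₁ w dw) := by
  unfold gg
  exact (continuous_const.mul (h.cdw.norm.pow 2)).add (continuous_const.mul (h.cw.norm.pow 2))

theorem gg_nonneg {c₀ c₁ : ℝ} (hc₀ : 0 < c₀) (hc₁ : 0 < c₁) (w dw : ℝ → ℂ) (t : ℝ) :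
    0 ≤ gg c₀ c₁ w dw t := by
  unfold gg; positivity

theorem GG_deriv {c₀ c₁ : ℝ} {Q w dw : ℝ → ℂ} (h : Sol Q w dw) (t : ℝ) :
    HasDerivAt (GG c₀ c₁ w dw) (gg c₀ c₁ w dw t) t := by
  exact intervalIntegral.integral_hasDerivAt_right ((gg_cont h).intervalIntegrable _ _)
    (gg_cont h).stronglyMeasurable.stronglyMeasurableAtFilter (gg_cont h).continuousAt

theorem GG_mono {c₀ c₁ : ℝ} (hc₀ : 0 < c₀) (hc₁ : 0 < c₁) {Q w dw : ℝ → ℂ} (h : Sol Q w dw) :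
    Monotone (GG c₀ c₁ w dw) := by
  refine monotone_of_deriv_nonneg (fun t => (GG_deriv h t).differentiableAt) ?_
  intro t
  rw [(GG_deriv h t).deriv]
  exact gg_nonneg hc₀ hc₁ w dw t

theorem GG_zero (c₀ c₁ : ℝ) (w dw : ℝ → ℂ) : GG c₀ c₁ w dw 0 = 0 := by
  unfold GG; simp

theorem GG_sub {c₀ c₁ : ℝ} {Q w dw : ℝ → ℂ} (h : Sol Q w dw) (a b : ℝ) :
    GG c₀ c₁ w dw b - GG c₀ c₁ w dw a = ∫ t in a..b, gg c₀ c₁ w dw t := by
  unfold GG
  rw [intervalIntegral.integral_interval_sub_left ((gg_cont h).intervalIntegrable _ _)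
    ((gg_cont h).intervalIntegrable _ _)]

theorem NN_cont (ω : ℝ) {Q w dw : ℝ → ℂ} (h : Sol Q w dw) : Continuous (NN ω w dw) := by
  unfold NN
  exact Complex.continuous_re.comp (continuous_const.mul
    (h.cdw.mul (Complex.continuous_conj.comp h.cw)))

theorem NN_deriv (ω : ℝ) {Q w dw : ℝ → ℂ} (h : Sol Q w dw) {t : ℝ} (ht : 0 < t) :
    HasDerivAt (NN ω w dw)
      ((exp (ω * I) * Q t).re * ‖w t‖ ^ 2 + Real.cos ω * ‖dw t‖ ^ 2) t := by
  have h1 : HasDerivAt (fun t => (starRingEnd ℂ) (w t)) ((starRingEnd ℂ) (dw t)) t :=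
    (h.hw t ht).star
  have h2 := ((h.hdw t ht).mul h1).const_mul (exp (ω * I))
  have h3 := Complex.reCLM.hasFDerivAt.comp_hasDerivAt t h2
  have h4 : Complex.reCLM (exp (ω * I) * (Q t * w t * (starRingEnd ℂ) (w t) +
      dw t * (starRingEnd ℂ) (dw t))) =
      (exp (ω * I) * Q t).re * ‖w t‖ ^ 2 + Real.cos ω * ‖dw t‖ ^ 2 := by
    have e1 : exp (ω * I) * (Q t * w t * (starRingEnd ℂ) (w t) +
      dw t * (starRingEnd ℂ) (dw t)) = (exp (ω * I) * Q t) * ((‖w t‖ ^ 2 : ℝ) : ℂ) +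
        exp (ω * I) * ((‖dw t‖ ^ 2 : ℝ) : ℂ) := by
      rw [mul_assoc (Q t), Complex.mul_conj, Complex.mul_conj, Complex.normSq_eq_norm_sq,
        Complex.normSq_eq_norm_sq]
      ring
    rw [e1]
    simp only [Complex.reCLM_apply, Complex.add_re, Complex.re_mul_ofReal,
      Complex.exp_ofReal_mul_I_re]
  rw [h4] at h3
  exact h3

theorem NN_abs {c₀ c₁ : ℝ} (hc₀ : 0 < c₀) (hc₁ : 0 < c₁) (ω : ℝ) (w dw : ℝ → ℂ) (t : ℝ) :
    2 * Real.sqrt (c₀ * c₁) * |NN ω w dw t| ≤ gg c₀ c₁ w dw t := by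
  have h1 : |NN ω w dw t| ≤ ‖dw t‖ * ‖w t‖ := by
    unfold NN
    refine (Complex.abs_re_le_norm _).trans ?_
    rw [norm_mul, norm_mul, Complex.norm_exp_ofReal_mul_I, one_mul, RCLike.norm_conj]
  have h2 : 2 * Real.sqrt (c₀ * c₁) * (‖dw t‖ * ‖w t‖) ≤ gg c₀ c₁ w dw t := by
    unfold gg
    rw [Real.sqrt_mul hc₀.le]
    have e0 := Real.sq_sqrt hc₀.le
    have e1 := Real.sq_sqrt hc₁.le
    nlinarith [sq_nonneg (Real.sqrt c₀ * ‖dw t‖ - Real.sqrt c₁ * ‖w t‖)]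
  refine le_trans ?_ h2
  have : 0 ≤ 2 * Real.sqrt (c₀ * c₁) := by positivity
  exact mul_le_mul_of_nonneg_left h1 this

/-- the basic coercivity inequality -/
theorem G_le_N {c₀ c₁ : ℝ} {ω : ℝ} {Q w dw : ℝ → ℂ}
    (hω : c₀ ≤ Real.cos ω) (hQ : ∀ t : ℝ, 0 ≤ t → c₁ ≤ (exp (ω * I) * Q t).re)
    (h : Sol Q w dw) {a b : ℝ} (ha : 0 ≤ a) (hab : a ≤ b) :
    GG c₀ c₁ w dw b - GG c₀ c₁ w dw a ≤ NN ω w dw b - NN ω w dw a := by
  have hm : MonotoneOn (fun t => NN ω w dw t - GG c₀ c₁ w dw t) (Ici 0) := by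
    refine monotoneOn_of_deriv_nonneg (convex_Ici 0) ?_ ?_ ?_
    · exact ((NN_cont ω h).sub
        (continuous_iff_continuousAt.2 fun t => (GG_deriv h t).continuousAt)).continuousOn
    · intro t ht
      rw [interior_Ici] at ht
      exact (((NN_deriv ω h ht).sub (GG_deriv h t)).differentiableAt).differentiableWithinAt
    · intro t ht
      rw [interior_Ici] at ht
      have ht' : (0 : ℝ) < t := ht
      have e := ((NN_deriv ω h ht).sub (GG_deriv (c₀ := c₀) (c₁ := c₁) h t)).deriv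
      have e' : deriv (fun t => NN ω w dw t - GG c₀ c₁ w dw t) t = _ := e
      rw [e']
      have h1 := mul_le_mul_of_nonneg_right (hQ t ht'.le) (sq_nonneg ‖w t‖)
      have h2 := mul_le_mul_of_nonneg_right hω (sq_nonneg ‖dw t‖)
      unfold gg
      linarith
  have := hm (mem_Ici.2 ha) (mem_Ici.2 (ha.trans hab)) hab
  simp only at this
  linarith

/-- `(∫ f)² ≤ ∫ f²` on an interval of length one -/
theorem sq_int_le {f : ℝ → ℝ} (hf : Continuous f) (a : ℝ) :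
    (∫ t in a..(a + 1), f t) ^ 2 ≤ ∫ t in a..(a + 1), f t ^ 2 := by
  set J := ∫ t in a..(a + 1), f t with hJ
  have h0 : 0 ≤ ∫ t in a..(a + 1), (f t - J) ^ 2 :=
    intervalIntegral.integral_nonneg (by linarith) fun t _ => sq_nonneg _
  have h1 : ∫ t in a..(a + 1), (f t - J) ^ 2 =
      (∫ t in a..(a + 1), f t ^ 2) - 2 * J * J + J ^ 2 := by
    have e1 : (fun t => (f t - J) ^ 2) = fun t => (f t ^ 2 - 2 * J * f t) + J ^ 2 := by
      funext t; ring
    rw [e1, intervalIntegral.integral_add, intervalIntegral.integral_sub,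
      intervalIntegral.integral_const_mul, intervalIntegral.integral_const, ← hJ]
    · simp
    · exact (hf.pow 2).intervalIntegrable _ _
    · exact (continuous_const.mul hf).intervalIntegrable _ _
    · exact ((hf.pow 2).sub (continuous_const.mul hf)).intervalIntegrable _ _
    · exact continuous_const.intervalIntegrable _ _
  rw [h1] at h0
  nlinarith

/-- averaging: if `u` is continuous with continuous derivative `v` on `(0,∞)`, then
`|u a| ≤ ∫ (|u| + |v|)` on the unit interval -/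
theorem avg {u v : ℝ → ℂ} (hu : Continuous u) (hv : Continuous v)
    (hd : ∀ t : ℝ, 0 < t → HasDerivAt u (v t) t) {a : ℝ} (ha : 0 ≤ a) :
    ‖u a‖ ≤ ∫ t in a..(a + 1), (‖u t‖ + ‖v t‖) := by
  have h1 : ∀ t ∈ Icc a (a + 1), ‖u a‖ - (∫ τ in a..(a + 1), ‖v τ‖) ≤ ‖u t‖ := by
    intro t ht
    have h2 : ∫ τ in a..t, v τ = u t - u a := by
      refine intervalIntegral.integral_eq_sub_of_hasDerivAt_of_le ht.1 hu.continuousOn ?_
        (hv.intervalIntegrable _ _)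
      intro x hx
      exact hd x (lt_of_le_of_lt ha hx.1)
    have h3 : ‖∫ τ in a..t, v τ‖ ≤ ∫ τ in a..(a + 1), ‖v τ‖ := by
      refine (intervalIntegral.norm_integral_le_integral_norm ht.1).trans ?_
      refine intervalIntegral.integral_mono_interval le_rfl ht.1 ht.2 ?_
        (hv.norm.intervalIntegrable _ _)
      exact Filter.Eventually.of_forall fun x => norm_nonneg _
    rw [h2] at h3
    have h4 : ‖u a‖ ≤ ‖u t‖ + ‖u t - u a‖ := by
      have := norm_sub_norm_le (u a) (u t)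
      rw [norm_sub_rev] at this
      linarith
    linarith
  have h5 : ∫ t in a..(a + 1), (‖u a‖ - (∫ τ in a..(a + 1), ‖v τ‖)) ≤
      ∫ t in a..(a + 1), ‖u t‖ := by
    refine intervalIntegral.integral_mono_on (by linarith) (continuous_const.intervalIntegrable _ _)
      (hu.norm.intervalIntegrable _ _) h1
  rw [intervalIntegral.integral_const] at h5
  rw [intervalIntegral.integral_add (hu.norm.intervalIntegrable _ _)
    (hv.norm.intervalIntegrable _ _)]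
  simp only [add_sub_cancel_left, one_smul] at h5
  linarith

/-- averaging with squares, for `w'` -/
theorem avg_dw {c₀ c₁ B₁ : ℝ} (hc₀ : 0 < c₀) (hc₁ : 0 < c₁) {Q w dw : ℝ → ℂ} (hQc : Continuous Q)
    (h : Sol Q w dw) {a : ℝ} (ha : 0 ≤ a) (hQ : ∀ t ∈ Icc a (a + 1), ‖Q t‖ ≤ B₁) :
    ‖dw a‖ ^ 2 ≤ (2 / c₀ + 2 * B₁ ^ 2 / c₁) * (GG c₀ c₁ w dw (a + 1) - GG c₀ c₁ w dw a) := by
  have h1 := avg h.cdw (hQc.mul h.cw) h.hdw ha
  have hcont : Continuous fun t => ‖dw t‖ + ‖Q t * w t‖ := h.cdw.norm.add (hQc.mul h.cw).norm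
  have h2 := sq_int_le hcont a
  have h3 : ‖dw a‖ ^ 2 ≤ ∫ t in a..(a + 1), (‖dw t‖ + ‖Q t * w t‖) ^ 2 := by
    refine le_trans ?_ h2
    exact pow_le_pow_left₀ (norm_nonneg _) h1 2
  refine h3.trans ?_
  rw [GG_sub h, ← intervalIntegral.integral_const_mul]
  refine intervalIntegral.integral_mono_on (by linarith) ((hcont.pow 2).intervalIntegrable _ _)
    ((continuous_const.mul (gg_cont h)).intervalIntegrable _ _) ?_
  intro t ht
  have hB := hQ t ht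
  have hB0 : 0 ≤ B₁ := (norm_nonneg _).trans hB
  rw [norm_mul]
  have e1 : ‖Q t‖ * ‖w t‖ ≤ B₁ * ‖w t‖ := mul_le_mul_of_nonneg_right hB (norm_nonneg _)
  have e2 : (‖dw t‖ + ‖Q t‖ * ‖w t‖) ^ 2 ≤ (‖dw t‖ + B₁ * ‖w t‖) ^ 2 := by
    refine pow_le_pow_left₀ (by positivity) (by linarith) 2
  have e3 : (‖dw t‖ + B₁ * ‖w t‖) ^ 2 ≤ 2 * ‖dw t‖ ^ 2 + 2 * (B₁ * ‖w t‖) ^ 2 := by
    nlinarith [sq_nonneg (‖dw t‖ - B₁ * ‖w t‖)]
  have e4 : 2 * ‖dw t‖ ^ 2 + 2 * (B₁ * ‖w t‖) ^ 2 ≤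
      (2 / c₀ + 2 * B₁ ^ 2 / c₁) * gg c₀ c₁ w dw t := by
    unfold gg
    have e5 : (2 / c₀ + 2 * B₁ ^ 2 / c₁) * (c₀ * ‖dw t‖ ^ 2 + c₁ * ‖w t‖ ^ 2) =
        2 * ‖dw t‖ ^ 2 + 2 * (B₁ * ‖w t‖) ^ 2 +
        (2 * c₁ / c₀ * ‖w t‖ ^ 2 + 2 * B₁ ^ 2 * c₀ / c₁ * ‖dw t‖ ^ 2) := by
      field_simp
      ring
    rw [e5]
    have : 0 ≤ 2 * c₁ / c₀ * ‖w t‖ ^ 2 + 2 * B₁ ^ 2 * c₀ / c₁ * ‖dw t‖ ^ 2 := by positivity
    linarith
  linarith

/-- averaging with squares, for `w` -/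
theorem avg_w {c₀ c₁ : ℝ} (hc₀ : 0 < c₀) (hc₁ : 0 < c₁) {Q w dw : ℝ → ℂ}
    (h : Sol Q w dw) {a : ℝ} (ha : 0 ≤ a) :
    ‖w a‖ ^ 2 ≤ (2 / c₀ + 2 / c₁) * (GG c₀ c₁ w dw (a + 1) - GG c₀ c₁ w dw a) := by
  have h1 := avg h.cw h.cdw h.hw ha
  have hcont : Continuous fun t => ‖w t‖ + ‖dw t‖ := h.cw.norm.add h.cdw.norm
  have h2 := sq_int_le hcont a
  have h3 : ‖w a‖ ^ 2 ≤ ∫ t in a..(a + 1), (‖w t‖ + ‖dw t‖) ^ 2 := by
    refine le_trans ?_ h2
    exact pow_le_pow_left₀ (norm_nonneg _) h1 2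
  refine h3.trans ?_
  rw [GG_sub h, ← intervalIntegral.integral_const_mul]
  refine intervalIntegral.integral_mono_on (by linarith) ((hcont.pow 2).intervalIntegrable _ _)
    ((continuous_const.mul (gg_cont h)).intervalIntegrable _ _) ?_
  intro t ht
  have e3 : (‖w t‖ + ‖dw t‖) ^ 2 ≤ 2 * ‖dw t‖ ^ 2 + 2 * ‖w t‖ ^ 2 := by
    nlinarith [sq_nonneg (‖dw t‖ - ‖w t‖)]
  have e4 : 2 * ‖dw t‖ ^ 2 + 2 * ‖w t‖ ^ 2 ≤ (2 / c₀ + 2 / c₁) * gg c₀ c₁ w dw t := by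
    unfold gg
    have e5 : (2 / c₀ + 2 / c₁) * (c₀ * ‖dw t‖ ^ 2 + c₁ * ‖w t‖ ^ 2) =
        2 * ‖dw t‖ ^ 2 + 2 * ‖w t‖ ^ 2 +
        (2 * c₁ / c₀ * ‖w t‖ ^ 2 + 2 * c₀ / c₁ * ‖dw t‖ ^ 2) := by
      field_simp
      ring
    rw [e5]
    have : 0 ≤ 2 * c₁ / c₀ * ‖w t‖ ^ 2 + 2 * c₀ / c₁ * ‖dw t‖ ^ 2 := by positivity
    linarith
  linarith

theorem GG_nonneg {c₀ c₁ : ℝ} (hc₀ : 0 < c₀) (hc₁ : 0 < c₁) {Q w dw : ℝ → ℂ} (h : Sol Q w dw)
    {T : ℝ} (hT : 0 ≤ T) : 0 ≤ GG c₀ c₁ w dw T := by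
  rw [← GG_zero c₀ c₁ w dw]
  exact GG_mono hc₀ hc₁ h hT

theorem GG_smul (c₀ c₁ : ℝ) (w dw : ℝ → ℂ) (m : ℂ) (T : ℝ) :
    GG c₀ c₁ (fun t => m * w t) (fun t => m * dw t) T = ‖m‖ ^ 2 * GG c₀ c₁ w dw T := by
  unfold GG
  rw [← intervalIntegral.integral_const_mul]
  congr 1
  funext t
  unfold gg
  simp only [norm_mul, mul_pow]
  ring

theorem GG_add_le {c₀ c₁ : ℝ} (hc₀ : 0 < c₀) (hc₁ : 0 < c₁) {Q w dw v dv u du : ℝ → ℂ}
    (h : Sol Q w dw) (h' : Sol Q v dv) (h'' : Sol Q u du) {m : ℂ}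
    (hu : ∀ t, m * u t = w t - v t) (hdu : ∀ t, m * du t = dw t - dv t) {T : ℝ} (hT : 0 ≤ T) :
    ‖m‖ ^ 2 * GG c₀ c₁ u du T ≤ 2 * GG c₀ c₁ w dw T + 2 * GG c₀ c₁ v dv T := by
  rw [← GG_smul]
  have hs : Sol Q (fun t => m * u t) (fun t => m * du t) := by
    refine ⟨continuous_const.mul h''.cw, continuous_const.mul h''.cdw, ?_, ?_⟩
    · intro t ht
      exact (h''.hw t ht).const_mul m
    · intro t ht
      have := (h''.hdw t ht).const_mul m
      have e : Q t * (m * u t) = m * (Q t * u t) := by ring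
      rw [e]
      exact this
  unfold GG
  rw [← intervalIntegral.integral_const_mul, ← intervalIntegral.integral_const_mul,
    ← intervalIntegral.integral_add]
  · refine intervalIntegral.integral_mono_on hT ((gg_cont hs).intervalIntegrable _ _)
      (((continuous_const.mul (gg_cont h)).add
        (continuous_const.mul (gg_cont h'))).intervalIntegrable _ _) ?_
    intro t _
    unfold gg
    simp only [hu, hdu]
    have a1 : ‖w t - v t‖ ≤ ‖w t‖ + ‖v t‖ := norm_sub_le _ _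
    have a2 : ‖dw t - dv t‖ ≤ ‖dw t‖ + ‖dv t‖ := norm_sub_le _ _
    have b1 : ‖w t - v t‖ ^ 2 ≤ 2 * ‖w t‖ ^ 2 + 2 * ‖v t‖ ^ 2 := by
      have := pow_le_pow_left₀ (norm_nonneg _) a1 2
      nlinarith [sq_nonneg (‖w t‖ - ‖v t‖)]
    have b2 : ‖dw t - dv t‖ ^ 2 ≤ 2 * ‖dw t‖ ^ 2 + 2 * ‖dv t‖ ^ 2 := by
      have := pow_le_pow_left₀ (norm_nonneg _) a2 2
      nlinarith [sq_nonneg (‖dw t‖ - ‖dv t‖)]
    nlinarith [mul_le_mul_of_nonneg_left b1 hc₁.le, mul_le_mul_of_nonneg_left b2 hc₀.le]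
  · exact (continuous_const.mul (gg_cont h)).intervalIntegrable _ _
  · exact (continuous_const.mul (gg_cont h')).intervalIntegrable _ _

/-- a solution with bounded energy decays exponentially -/
theorem decay {c₀ c₁ M : ℝ} (hc₀ : 0 < c₀) (hc₁ : 0 < c₁) {ω : ℝ} {Q w dw : ℝ → ℂ}
    (hω : c₀ ≤ Real.cos ω) (hQ : ∀ t : ℝ, 0 ≤ t → c₁ ≤ (exp (ω * I) * Q t).re)
    (h : Sol Q w dw) (hM : ∀ T : ℝ, 0 ≤ T → GG c₀ c₁ w dw T ≤ M) {t T : ℝ} (ht : 0 ≤ t)
    (htT : t ≤ T) :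
    GG c₀ c₁ w dw T - GG c₀ c₁ w dw t ≤ M * Real.exp (-(2 * Real.sqrt (c₀ * c₁) * t)) := by
  set γ := Real.sqrt (c₀ * c₁) with hγ
  have hγ0 : 0 < γ := Real.sqrt_pos.2 (mul_pos hc₀ hc₁)
  -- N ≤ 0
  have hN : ∀ t₁ : ℝ, 0 ≤ t₁ → NN ω w dw t₁ ≤ 0 := by
    intro t₁ ht₁
    by_contra hcon
    push Not at hcon
    set δ := NN ω w dw t₁ with hδ
    set T' := t₁ + (M + 1) / (2 * γ * δ) with hT'
    have hM0 : 0 ≤ M := (GG_nonneg hc₀ hc₁ h le_rfl).trans (hM 0 le_rfl)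
    have hT1 : t₁ ≤ T' := by
      rw [hT']
      have : 0 ≤ (M + 1) / (2 * γ * δ) := by positivity
      linarith
    have h1 : ∫ τ in t₁..T', (2 * γ * δ) ≤ ∫ τ in t₁..T', gg c₀ c₁ w dw τ := by
      refine intervalIntegral.integral_mono_on hT1 (continuous_const.intervalIntegrable _ _)
        ((gg_cont h).intervalIntegrable _ _) ?_
      intro τ hτ
      have e1 := G_le_N hω hQ h ht₁ hτ.1
      have e2 : GG c₀ c₁ w dw t₁ ≤ GG c₀ c₁ w dw τ := GG_mono hc₀ hc₁ h hτ.1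
      have e3 : δ ≤ NN ω w dw τ := by linarith
      have e4 := NN_abs hc₀ hc₁ ω w dw τ
      have e5 : 2 * γ * δ ≤ 2 * γ * |NN ω w dw τ| :=
        mul_le_mul_of_nonneg_left (e3.trans (le_abs_self _)) (by positivity)
      exact e5.trans e4
    rw [intervalIntegral.integral_const, ← GG_sub h, smul_eq_mul] at h1
    have h2 : (T' - t₁) * (2 * γ * δ) = M + 1 := by
      rw [hT']
      field_simp
      ring
    rw [h2] at h1
    have h3 := hM T' (ht₁.trans hT1)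
    have h4 := GG_nonneg hc₀ hc₁ h ht₁
    linarith
  -- the function `(G T - G t) e^{2γt}` is antitone on `[0,T]`
  have hA : AntitoneOn (fun x => (GG c₀ c₁ w dw T - GG c₀ c₁ w dw x) * Real.exp (2 * γ * x))
      (Icc 0 T) := by
    have hd : ∀ x : ℝ, HasDerivAt
        (fun x => (GG c₀ c₁ w dw T - GG c₀ c₁ w dw x) * Real.exp (2 * γ * x))
        ((0 - gg c₀ c₁ w dw x) * Real.exp (2 * γ * x) +
          (GG c₀ c₁ w dw T - GG c₀ c₁ w dw x) * (Real.exp (2 * γ * x) * (2 * γ))) x := by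
      intro x
      have e1 : HasDerivAt (fun x : ℝ => 2 * γ * x) (2 * γ) x := by
        simpa using (hasDerivAt_id x).const_mul (2 * γ)
      exact ((hasDerivAt_const x (GG c₀ c₁ w dw T)).sub (GG_deriv h x)).mul e1.exp
    refine antitoneOn_of_deriv_nonpos (convex_Icc 0 T) ?_ ?_ ?_
    · exact fun x _ => (hd x).continuousAt.continuousWithinAt
    · exact fun x _ => (hd x).differentiableAt.differentiableWithinAt
    · intro x hx
      rw [interior_Icc] at hx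
      rw [(hd x).deriv]
      have e1 := G_le_N hω hQ h hx.1.le hx.2.le
      have e2 := hN T (hx.1.le.trans hx.2.le)
      have e3 := NN_abs hc₀ hc₁ ω w dw x
      have e4 : GG c₀ c₁ w dw T - GG c₀ c₁ w dw x ≤ |NN ω w dw x| := by
        have := neg_le_abs (NN ω w dw x)
        linarith
      have e5 : 2 * γ * (GG c₀ c₁ w dw T - GG c₀ c₁ w dw x) ≤ gg c₀ c₁ w dw x := by
        refine le_trans ?_ e3
        exact mul_le_mul_of_nonneg_left e4 (by positivity)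
      have e6 : (0 - gg c₀ c₁ w dw x) * Real.exp (2 * γ * x) +
          (GG c₀ c₁ w dw T - GG c₀ c₁ w dw x) * (Real.exp (2 * γ * x) * (2 * γ)) =
          -((gg c₀ c₁ w dw x - 2 * γ * (GG c₀ c₁ w dw T - GG c₀ c₁ w dw x)) *
            Real.exp (2 * γ * x)) := by ring
      rw [e6, neg_nonpos]
      exact mul_nonneg (by linarith) (Real.exp_pos _).le
  have h1 := hA ⟨le_rfl, ht.trans htT⟩ ⟨ht, htT⟩ ht
  simp only [mul_zero, Real.exp_zero, mul_one, GG_zero, sub_zero] at h1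
  have h2 := h1.trans (hM T (ht.trans htT))
  rw [Real.exp_neg, ← div_eq_mul_inv, le_div_iff₀ (Real.exp_pos _)]
  exact h2

/-- lower bounds for the solution vanishing at `0` -/
theorem s_lower {c₀ c₁ B₁ : ℝ} (hc₀ : 0 < c₀) (hc₁ : 0 < c₁) {ω : ℝ} {Q s ds : ℝ → ℂ}
    (hQc : Continuous Q)
    (hω : c₀ ≤ Real.cos ω) (hQ : ∀ t : ℝ, 0 ≤ t → c₁ ≤ (exp (ω * I) * Q t).re)
    (hQB : ∀ t ∈ Icc (0 : ℝ) 1, ‖Q t‖ ≤ B₁)
    (h : Sol Q s ds) (h0 : s 0 = 0) (h1 : ‖ds 0‖ = 1) :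
    (∀ t : ℝ, 0 < t → s t ≠ 0) ∧ ∀ T : ℝ, 1 ≤ T →
      Real.exp (2 * Real.sqrt (c₀ * c₁) * (T - 1)) ≤
        (2 / c₀ + 2 * B₁ ^ 2 / c₁) * GG c₀ c₁ s ds T := by
  have hN0 : NN ω s ds 0 = 0 := by simp [NN, h0]
  have hGN : ∀ t : ℝ, 0 ≤ t → GG c₀ c₁ s ds t ≤ NN ω s ds t := by
    intro t ht
    have := G_le_N hω hQ h le_rfl ht
    rw [hN0, GG_zero] at this
    linarith
  constructor
  · intro t ht hst
    have e1 : 0 < GG c₀ c₁ s ds t := by
      unfold GG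
      refine intervalIntegral.integral_pos ht (gg_cont h).continuousOn
        (fun x _ => gg_nonneg hc₀ hc₁ s ds x) ⟨0, ⟨le_rfl, ht.le⟩, ?_⟩
      unfold gg
      rw [h1, h0]
      simp [hc₀]
    have e2 := hGN t ht.le
    have e3 : NN ω s ds t = 0 := by simp [NN, hst]
    linarith
  · intro T hT
    set γ := Real.sqrt (c₀ * c₁) with hγ
    have hγ0 : 0 < γ := Real.sqrt_pos.2 (mul_pos hc₀ hc₁)
    have hA : MonotoneOn (fun x => GG c₀ c₁ s ds x * Real.exp (-(2 * γ * x))) (Ici 0) := by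
      have hd : ∀ x : ℝ, HasDerivAt
          (fun x => GG c₀ c₁ s ds x * Real.exp (-(2 * γ * x)))
          (gg c₀ c₁ s ds x * Real.exp (-(2 * γ * x)) +
            GG c₀ c₁ s ds x * (Real.exp (-(2 * γ * x)) * (-(2 * γ)))) x := by
        intro x
        have e1 : HasDerivAt (fun x : ℝ => -(2 * γ * x)) (-(2 * γ)) x := by
          have e0 : HasDerivAt (fun x : ℝ => 2 * γ * x) (2 * γ) x := by
            simpa using (hasDerivAt_id x).const_mul (2 * γ)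
          exact e0.fun_neg
        exact (GG_deriv h x).mul e1.exp
      refine monotoneOn_of_deriv_nonneg (convex_Ici 0) ?_ ?_ ?_
      · exact fun x _ => (hd x).continuousAt.continuousWithinAt
      · exact fun x _ => (hd x).differentiableAt.differentiableWithinAt
      · intro x hx
        rw [interior_Ici] at hx
        have hx' : (0 : ℝ) < x := hx
        rw [(hd x).deriv]
        have e3 := NN_abs hc₀ hc₁ ω s ds x
        have e4 : GG c₀ c₁ s ds x ≤ |NN ω s ds x| := (hGN x hx'.le).trans (le_abs_self _)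
        have e5 : 2 * γ * GG c₀ c₁ s ds x ≤ gg c₀ c₁ s ds x := by
          refine le_trans ?_ e3
          exact mul_le_mul_of_nonneg_left e4 (by positivity)
        have e6 : gg c₀ c₁ s ds x * Real.exp (-(2 * γ * x)) +
            GG c₀ c₁ s ds x * (Real.exp (-(2 * γ * x)) * (-(2 * γ))) =
            (gg c₀ c₁ s ds x - 2 * γ * GG c₀ c₁ s ds x) * Real.exp (-(2 * γ * x)) := by ring
        rw [e6]
        exact mul_nonneg (by linarith) (Real.exp_pos _).le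
    have h2 := hA (mem_Ici.2 zero_le_one) (mem_Ici.2 (zero_le_one.trans hT)) hT
    simp only at h2
    have h3 := avg_dw hc₀ hc₁ hQc h le_rfl (B₁ := B₁) (by simpa using hQB)
    rw [h1, GG_zero] at h3
    simp only [zero_add, one_pow, sub_zero] at h3
    set k := 2 / c₀ + 2 * B₁ ^ 2 / c₁ with hk
    have hk0 : 0 < k := by positivity
    have h4 : Real.exp (2 * γ * (T - 1)) =
        Real.exp (2 * γ * T) * Real.exp (-(2 * γ * 1)) := by
      rw [← Real.exp_add]; ring_nf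
    have h5 : GG c₀ c₁ s ds T = GG c₀ c₁ s ds T * Real.exp (-(2 * γ * T)) * Real.exp (2 * γ * T) := by
      rw [mul_assoc, ← Real.exp_add]; simp
    rw [h4, h5]
    have h6 : Real.exp (-(2 * γ * 1)) ≤ k * (GG c₀ c₁ s ds 1 * Real.exp (-(2 * γ * 1))) := by
      rw [← mul_assoc]
      have := mul_le_mul_of_nonneg_right h3 (Real.exp_pos (-(2 * γ * 1))).le
      simpa using this
    have h7 : k * (GG c₀ c₁ s ds 1 * Real.exp (-(2 * γ * 1))) ≤
        k * (GG c₀ c₁ s ds T * Real.exp (-(2 * γ * T))) := mul_le_mul_of_nonneg_left h2 hk0.le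
    calc Real.exp (2 * γ * T) * Real.exp (-(2 * γ * 1))
        ≤ Real.exp (2 * γ * T) * (k * (GG c₀ c₁ s ds T * Real.exp (-(2 * γ * T)))) :=
          mul_le_mul_of_nonneg_left (h6.trans h7) (Real.exp_pos _).le
      _ = k * (GG c₀ c₁ s ds T * Real.exp (-(2 * γ * T)) * Real.exp (2 * γ * T)) := by ring

/-- the bound for `m_T` and the energy of `w_T` -/
theorem mT_bound {c₀ c₁ B₁ : ℝ} (hc₀ : 0 < c₀) (hc₁ : 0 < c₁) {ω : ℝ} {Q c dc s ds : ℝ → ℂ}
    (hQc : Continuous Q)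
    (hω : c₀ ≤ Real.cos ω) (hQ : ∀ t : ℝ, 0 ≤ t → c₁ ≤ (exp (ω * I) * Q t).re)
    (hQB : ∀ t ∈ Icc (0 : ℝ) 1, ‖Q t‖ ≤ B₁)
    (hc : Sol Q c dc) (hs : Sol Q s ds) (c0 : c 0 = 1) (dc0 : dc 0 = 0) (s0 : s 0 = 0)
    (ds0 : ‖ds 0‖ = 1) {T : ℝ} (hT : 1 ≤ T) (m : ℂ) (hm : c T + m * s T = 0) :
    GG c₀ c₁ (fun t => c t + m * s t) (fun t => dc t + m * ds t) T ≤
      2 / c₀ + 2 * B₁ ^ 2 / c₁ := by
  have hw := hc.add_smul hs m
  have h1 := G_le_N hω hQ hw le_rfl (zero_le_one.trans hT)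
  have hNT : NN ω (fun t => c t + m * s t) (fun t => dc t + m * ds t) T = 0 := by
    simp [NN, hm]
  have hN0 : |NN ω (fun t => c t + m * s t) (fun t => dc t + m * ds t) 0| ≤ ‖m‖ := by
    unfold NN
    refine (Complex.abs_re_le_norm _).trans ?_
    simp only [c0, s0, dc0, mul_zero, add_zero, zero_add, map_one, mul_one]
    rw [norm_mul, norm_mul, Complex.norm_exp_ofReal_mul_I, one_mul, ds0, mul_one]
  rw [GG_zero, hNT] at h1
  have h2 : GG c₀ c₁ (fun t => c t + m * s t) (fun t => dc t + m * ds t) T ≤ ‖m‖ := by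
    have := neg_le_abs (NN ω (fun t => c t + m * s t) (fun t => dc t + m * ds t) 0)
    linarith
  have h3 := avg_dw hc₀ hc₁ hQc hw le_rfl (B₁ := B₁) (by simpa using hQB)
  rw [GG_zero] at h3
  simp only [dc0, zero_add, norm_mul, ds0, mul_one, sub_zero] at h3
  set k := 2 / c₀ + 2 * B₁ ^ 2 / c₁ with hk
  have hk0 : 0 < k := by positivity
  have h4 : GG c₀ c₁ (fun t => c t + m * s t) (fun t => dc t + m * ds t) 1 ≤
      GG c₀ c₁ (fun t => c t + m * s t) (fun t => dc t + m * ds t) T := GG_mono hc₀ hc₁ hw hT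
  have h5 : ‖m‖ ^ 2 ≤ k * ‖m‖ := h3.trans (mul_le_mul_of_nonneg_left (h4.trans h2) hk0.le)
  have h6 : ‖m‖ ≤ k := by
    by_contra hcon
    push Not at hcon
    have : 0 < ‖m‖ := hk0.trans hcon
    nlinarith
  exact h2.trans h6

theorem quad_exp {γ t : ℝ} (hγ : 0 < γ) (ht : 0 ≤ t) :
    (2 + t) ^ 2 ≤ (8 + 4 / γ ^ 2) * Real.exp (γ * t) := by
  have h1 := Real.quadratic_le_exp_of_nonneg (mul_nonneg hγ.le ht)
  have h2 : (8 + 4 / γ ^ 2) * (1 + γ * t + (γ * t) ^ 2 / 2) ≤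
      (8 + 4 / γ ^ 2) * Real.exp (γ * t) := mul_le_mul_of_nonneg_left h1 (by positivity)
  refine le_trans ?_ h2
  have h3 : (8 + 4 / γ ^ 2) * (1 + γ * t + (γ * t) ^ 2 / 2) =
      8 + 2 * t ^ 2 + (8 * (γ * t) + 4 * (γ * t) ^ 2 + 4 / γ ^ 2 + 4 / γ ^ 2 * (γ * t)) := by
    field_simp
    ring
  rw [h3]
  have h4 : 0 ≤ 8 * (γ * t) + 4 * (γ * t) ^ 2 + 4 / γ ^ 2 + 4 / γ ^ 2 * (γ * t) := by positivity
  nlinarith [sq_nonneg (t - 2)]

/-- the theorem for functions continuous on the whole line -/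
theorem main_cont (c₀ c₁ B : ℝ) (hc₀ : 0 < c₀) (hc₁ : 0 < c₁) (hB : 0 < B) :
    ∃ K > 0, ∃ γ > 0,
    ∀ (Q c dc s ds : ℝ → ℂ) (ω : ℝ), c₀ ≤ Real.cos ω → Continuous Q → Sol Q c dc → Sol Q s ds →
    c 0 = 1 → dc 0 = 0 → s 0 = 0 → ‖ds 0‖ = 1 →
    (∀ t : ℝ, 0 ≤ t → c₁ ≤ (exp (ω * I) * Q t).re) → (∀ t : ℝ, 0 ≤ t → ‖Q t‖ ≤ B * (1 + t)) →
    (∀ t : ℝ, 0 < t → s t ≠ 0) ∧ ∃ m : ℂ,
      (∀ t : ℝ, 1 ≤ t → ‖c t / s t + m‖ ≤ K * Real.exp (-(γ * t))) ∧
      (∀ t : ℝ, 0 ≤ t → ‖c t + m * s t‖ ≤ K * Real.exp (-(γ * t)) ∧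
        ‖dc t + m * ds t‖ ≤ K * Real.exp (-(γ * t))) := by
  set γ₀ := Real.sqrt (c₀ * c₁) with hγ
  have hγ0 : 0 < γ₀ := Real.sqrt_pos.2 (mul_pos hc₀ hc₁)
  set k := 2 / c₀ + 2 * (B * 2) ^ 2 / c₁ with hk
  have hk0 : 0 < k := by positivity
  set K₂ := (2 / c₀ + 2 / c₁) * (10 * k) with hK₂
  set K₃ := (2 / c₀ + 2 * B ^ 2 * (8 + 4 / γ₀ ^ 2) / c₁) * (10 * k) with hK₃
  have hK₂0 : 0 < K₂ := by positivity
  have hK₃0 : 0 < K₃ := by positivity
  refine ⟨2 * k * Real.exp γ₀ + Real.sqrt K₂ + Real.sqrt K₃, by positivity, γ₀ / 2, by positivity,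
    ?_⟩
  intro Q c dc s ds ω hω hQc hc hs c0 dc0 s0 ds0 hQ hQB'
  have hQB : ∀ t ∈ Icc (0 : ℝ) 1, ‖Q t‖ ≤ B * 2 := by
    intro t ht
    refine (hQB' t ht.1).trans ?_
    exact mul_le_mul_of_nonneg_left (by linarith [ht.2]) hB.le
  obtain ⟨hs0, hsl⟩ := s_lower hc₀ hc₁ hQc hω hQ hQB hs s0 ds0
  refine ⟨hs0, ?_⟩
  -- `μ T = - c T / s T`
  set μ : ℝ → ℂ := fun T => -(c T / s T) with hμ
  have hμ0 : ∀ T : ℝ, 1 ≤ T → c T + μ T * s T = 0 := by
    intro T hT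
    have := hs0 T (zero_lt_one.trans_le hT)
    rw [hμ]
    field_simp
    ring
  have hE : ∀ T : ℝ, 1 ≤ T →
      GG c₀ c₁ (fun t => c t + μ T * s t) (fun t => dc t + μ T * ds t) T ≤ k := by
    intro T hT
    exact mT_bound hc₀ hc₁ hQc hω hQ hQB hc hs c0 dc0 s0 ds0 hT (μ T) (hμ0 T hT)
  have hdiff : ∀ T T' : ℝ, 1 ≤ T → T ≤ T' → ‖μ T - μ T'‖ ^ 2 * GG c₀ c₁ s ds T ≤ 4 * k := by
    intro T T' hT hTT'
    have h1 := GG_add_le hc₀ hc₁ (hc.add_smul hs (μ T)) (hc.add_smul hs (μ T')) hs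
      (m := μ T - μ T') (by intro t; ring) (by intro t; ring) (zero_le_one.trans hT)
    have h2 := hE T hT
    have h3 := hE T' (hT.trans hTT')
    have h4 : GG c₀ c₁ (fun t => c t + μ T' * s t) (fun t => dc t + μ T' * ds t) T ≤
        GG c₀ c₁ (fun t => c t + μ T' * s t) (fun t => dc t + μ T' * ds t) T' :=
      GG_mono hc₀ hc₁ (hc.add_smul hs (μ T')) hTT'
    linarith
  have hGs0 : ∀ T : ℝ, 0 ≤ T → 0 ≤ GG c₀ c₁ s ds T := fun T hT => GG_nonneg hc₀ hc₁ hs hT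
  have hstep : ∀ (T : ℝ) (z : ℂ), 1 ≤ T → ‖z‖ ^ 2 * GG c₀ c₁ s ds T ≤ 4 * k →
      ‖z‖ ≤ 2 * k * Real.exp (-(γ₀ * (T - 1))) := by
    intro T z hT h1
    have h2 := hsl T hT
    have h3 : ‖z‖ ^ 2 * Real.exp (2 * γ₀ * (T - 1)) ≤ 4 * k ^ 2 := by
      calc ‖z‖ ^ 2 * Real.exp (2 * γ₀ * (T - 1))
          ≤ ‖z‖ ^ 2 * (k * GG c₀ c₁ s ds T) := mul_le_mul_of_nonneg_left h2 (sq_nonneg _)
        _ = k * (‖z‖ ^ 2 * GG c₀ c₁ s ds T) := by ring
        _ ≤ k * (4 * k) := mul_le_mul_of_nonneg_left h1 hk0.le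
        _ = 4 * k ^ 2 := by ring
    have h4 : (‖z‖ * Real.exp (γ₀ * (T - 1))) ^ 2 ≤ (2 * k) ^ 2 := by
      rw [mul_pow, ← Real.exp_nat_mul]
      have : ((2 : ℕ) : ℝ) * (γ₀ * (T - 1)) = 2 * γ₀ * (T - 1) := by push_cast; ring
      rw [this]
      linarith
    have h5 := abs_le_of_sq_le_sq h4 (by positivity)
    rw [Real.exp_neg, ← div_eq_mul_inv, le_div_iff₀ (Real.exp_pos _)]
    exact (le_abs_self _).trans h5
  have hcau : CauchySeq fun n : ℕ => μ ((n : ℝ) + 1) := by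
    refine cauchySeq_of_le_tendsto_0 (fun n : ℕ => 2 * (2 * k * Real.exp (-(γ₀ * n)))) ?_ ?_
    · intro n m N hn hm
      have key : ∀ n : ℕ, N ≤ n → dist (μ ((N : ℝ) + 1)) (μ ((n : ℝ) + 1)) ≤
          2 * k * Real.exp (-(γ₀ * N)) := by
        intro n hn
        rw [dist_eq_norm]
        have hNn : (N : ℝ) + 1 ≤ (n : ℝ) + 1 := by
          have : (N : ℝ) ≤ n := by exact_mod_cast hn
          linarith
        have hN1 : (1 : ℝ) ≤ (N : ℝ) + 1 := by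
          have : (0 : ℝ) ≤ N := Nat.cast_nonneg N
          linarith
        have := hstep ((N : ℝ) + 1) _ hN1 (hdiff _ _ hN1 hNn)
        simpa using this
      have h1 := key n hn
      have h2 := key m hm
      have h3 := dist_triangle_left (μ ((n : ℝ) + 1)) (μ ((m : ℝ) + 1)) (μ ((N : ℝ) + 1))
      linarith
    · have h1 : Tendsto (fun n : ℕ => γ₀ * (n : ℝ)) atTop atTop :=
        Tendsto.const_mul_atTop hγ0 tendsto_natCast_atTop_atTop
      have h2 := Real.tendsto_exp_neg_atTop_nhds_zero.comp h1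
      have h3 := (h2.const_mul (2 * k)).const_mul 2
      simpa using h3
  obtain ⟨m, hm⟩ := cauchySeq_tendsto_of_complete hcau
  -- `|m - m_T|² G_s(T) ≤ 4k`
  have hmT : ∀ T : ℝ, 1 ≤ T → ‖μ T - m‖ ^ 2 * GG c₀ c₁ s ds T ≤ 4 * k := by
    intro T hT
    have h1 : Tendsto (fun n : ℕ => ‖μ T - μ ((n : ℝ) + 1)‖ ^ 2 * GG c₀ c₁ s ds T) atTop
        (𝓝 (‖μ T - m‖ ^ 2 * GG c₀ c₁ s ds T)) :=
      ((tendsto_const_nhds.sub hm).norm.pow 2).mul_const _
    refine le_of_tendsto h1 ?_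
    obtain ⟨N, hN⟩ := exists_nat_ge T
    filter_upwards [eventually_ge_atTop N] with n hn
    refine hdiff T _ hT ?_
    have : (N : ℝ) ≤ n := by exact_mod_cast hn
    linarith
  have hw := hc.add_smul hs m
  -- energy of `w`
  have hEw1 : ∀ T : ℝ, 1 ≤ T →
      GG c₀ c₁ (fun t => c t + m * s t) (fun t => dc t + m * ds t) T ≤ 10 * k := by
    intro T hT
    have h1 := GG_add_le hc₀ hc₁ (hc.add_smul hs (μ T))
      (v := fun t => (μ T - m) * s t) (dv := fun t => (μ T - m) * ds t) (Q := Q)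
      (u := fun t => c t + m * s t) (du := fun t => dc t + m * ds t) ?_ hw
      (m := 1) (by intro t; ring) (by intro t; ring) (zero_le_one.trans hT)
    · rw [GG_smul] at h1
      have h2 := hE T hT
      have h3 := hmT T hT
      simp only [norm_one, one_pow, one_mul] at h1
      linarith
    · refine ⟨continuous_const.mul hs.cw, continuous_const.mul hs.cdw, ?_, ?_⟩
      · intro t ht
        exact (hs.hw t ht).const_mul _
      · intro t ht
        have := (hs.hdw t ht).const_mul (μ T - m)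
        have e : Q t * ((μ T - m) * s t) = (μ T - m) * (Q t * s t) := by ring
        rw [e]
        exact this
  have hEw : ∀ T : ℝ, 0 ≤ T →
      GG c₀ c₁ (fun t => c t + m * s t) (fun t => dc t + m * ds t) T ≤ 10 * k := by
    intro T _
    exact (GG_mono hc₀ hc₁ hw (le_max_left T 1)).trans (hEw1 _ (le_max_right T 1))
  have hdec : ∀ t : ℝ, 0 ≤ t → _ := fun t ht =>
    decay hc₀ hc₁ hω hQ hw hEw ht (by linarith : t ≤ t + 1)
  refine ⟨m, ?_, ?_⟩
  · intro t ht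
    have h1 := hstep t _ ht (hmT t ht)
    have h2 : c t / s t + m = -(μ t - m) := by
      rw [hμ]; ring
    rw [h2, norm_neg]
    refine h1.trans ?_
    have h3 : Real.exp (-(γ₀ * (t - 1))) ≤ Real.exp γ₀ * Real.exp (-(γ₀ / 2 * t)) := by
      rw [← Real.exp_add]
      apply Real.exp_le_exp.2
      nlinarith
    have h4 : 2 * k * Real.exp (-(γ₀ * (t - 1))) ≤
        2 * k * (Real.exp γ₀ * Real.exp (-(γ₀ / 2 * t))) :=
      mul_le_mul_of_nonneg_left h3 (by positivity)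
    refine h4.trans ?_
    have h5 : 0 ≤ (Real.sqrt K₂ + Real.sqrt K₃) * Real.exp (-(γ₀ / 2 * t)) := by positivity
    nlinarith
  · intro t ht
    have hd := hdec t ht
    have hexp : Real.exp (-(2 * γ₀ * t)) = Real.exp (-(γ₀ * t)) * Real.exp (-(γ₀ * t)) := by
      rw [← Real.exp_add]; ring_nf
    have hexp2 : Real.exp (-(γ₀ * t)) = Real.exp (-(γ₀ / 2 * t)) ^ 2 := by
      rw [← Real.exp_nat_mul]; push_cast; ring_nf
    have hle1 : Real.exp (-(γ₀ * t)) ≤ 1 := by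
      rw [Real.exp_le_one_iff]
      have := mul_nonneg hγ0.le ht
      linarith
    have hp : 0 < Real.exp (-(γ₀ * t)) := Real.exp_pos _
    constructor
    · have h1 := avg_w hc₀ hc₁ hw ht
      have h2 : ‖c t + m * s t‖ ^ 2 ≤ K₂ * Real.exp (-(γ₀ / 2 * t)) ^ 2 := by
        rw [← hexp2]
        refine h1.trans ?_
        have h3 := mul_le_mul_of_nonneg_left hd (by positivity : 0 ≤ 2 / c₀ + 2 / c₁)
        refine h3.trans ?_
        rw [hK₂, hexp]
        have h4 : Real.exp (-(γ₀ * t)) * Real.exp (-(γ₀ * t)) ≤ Real.exp (-(γ₀ * t)) := by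
          nlinarith
        have h5 : (2 / c₀ + 2 / c₁) * (10 * k * (Real.exp (-(γ₀ * t)) * Real.exp (-(γ₀ * t)))) =
          (2 / c₀ + 2 / c₁) * (10 * k) * (Real.exp (-(γ₀ * t)) * Real.exp (-(γ₀ * t))) := by ring
        rw [h5]
        exact mul_le_mul_of_nonneg_left h4 (by positivity)
      have h3 : ‖c t + m * s t‖ ≤ Real.sqrt K₂ * Real.exp (-(γ₀ / 2 * t)) := by
        have h4 : ‖c t + m * s t‖ ^ 2 ≤ (Real.sqrt K₂ * Real.exp (-(γ₀ / 2 * t))) ^ 2 := by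
          rw [mul_pow, Real.sq_sqrt hK₂0.le]
          exact h2
        exact (le_abs_self _).trans (abs_le_of_sq_le_sq h4 (by positivity))
      refine h3.trans ?_
      have h5 : 0 ≤ (2 * k * Real.exp γ₀ + Real.sqrt K₃) * Real.exp (-(γ₀ / 2 * t)) := by
        positivity
      nlinarith
    · have hQB2 : ∀ τ ∈ Icc t (t + 1), ‖Q τ‖ ≤ B * (2 + t) := by
        intro τ hτ
        refine (hQB' τ (ht.trans hτ.1)).trans ?_
        exact mul_le_mul_of_nonneg_left (by linarith [hτ.2]) hB.le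
      have h1 := avg_dw hc₀ hc₁ hQc hw ht hQB2
      have h2 : ‖dc t + m * ds t‖ ^ 2 ≤ K₃ * Real.exp (-(γ₀ / 2 * t)) ^ 2 := by
        rw [← hexp2]
        refine h1.trans ?_
        have h3 := mul_le_mul_of_nonneg_left hd
          (by positivity : 0 ≤ 2 / c₀ + 2 * (B * (2 + t)) ^ 2 / c₁)
        refine h3.trans ?_
        rw [hK₃, hexp]
        have h4 : (2 / c₀ + 2 * (B * (2 + t)) ^ 2 / c₁) * Real.exp (-(γ₀ * t)) ≤
            2 / c₀ + 2 * B ^ 2 * (8 + 4 / γ₀ ^ 2) / c₁ := by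
          have q1 := quad_exp hγ0 ht
          have q2 : (2 + t) ^ 2 * Real.exp (-(γ₀ * t)) ≤ 8 + 4 / γ₀ ^ 2 := by
            have := mul_le_mul_of_nonneg_right q1 hp.le
            rw [mul_assoc, ← Real.exp_add] at this
            simpa using this
          have q3 : 2 / c₀ * Real.exp (-(γ₀ * t)) ≤ 2 / c₀ * 1 :=
            mul_le_mul_of_nonneg_left hle1 (by positivity)
          have q4 : 2 * (B * (2 + t)) ^ 2 / c₁ * Real.exp (-(γ₀ * t)) =
            2 * B ^ 2 / c₁ * ((2 + t) ^ 2 * Real.exp (-(γ₀ * t))) := by ring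
          have q5 : 2 * B ^ 2 / c₁ * ((2 + t) ^ 2 * Real.exp (-(γ₀ * t))) ≤
            2 * B ^ 2 / c₁ * (8 + 4 / γ₀ ^ 2) := mul_le_mul_of_nonneg_left q2 (by positivity)
          have q6 : 2 * B ^ 2 * (8 + 4 / γ₀ ^ 2) / c₁ = 2 * B ^ 2 / c₁ * (8 + 4 / γ₀ ^ 2) := by ring
          rw [add_mul, q4, q6]
          linarith
        calc (2 / c₀ + 2 * (B * (2 + t)) ^ 2 / c₁) *
              (10 * k * (Real.exp (-(γ₀ * t)) * Real.exp (-(γ₀ * t))))
            = ((2 / c₀ + 2 * (B * (2 + t)) ^ 2 / c₁) * Real.exp (-(γ₀ * t))) *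
              (10 * k * Real.exp (-(γ₀ * t))) := by ring
          _ ≤ (2 / c₀ + 2 * B ^ 2 * (8 + 4 / γ₀ ^ 2) / c₁) * (10 * k * Real.exp (-(γ₀ * t))) :=
              mul_le_mul_of_nonneg_right h4 (by positivity)
          _ = _ := by ring
      have h3 : ‖dc t + m * ds t‖ ≤ Real.sqrt K₃ * Real.exp (-(γ₀ / 2 * t)) := by
        have h4 : ‖dc t + m * ds t‖ ^ 2 ≤ (Real.sqrt K₃ * Real.exp (-(γ₀ / 2 * t))) ^ 2 := by
          rw [mul_pow, Real.sq_sqrt hK₃0.le]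
          exact h2
        exact (le_abs_self _).trans (abs_le_of_sq_le_sq h4 (by positivity))
      refine h3.trans ?_
      have h5 : 0 ≤ (2 * k * Real.exp γ₀ + Real.sqrt K₂) * Real.exp (-(γ₀ / 2 * t)) := by
        positivity
      nlinarith

end HLaux

open HLaux in
theorem hl : Stmt_HL := by
  intro c₀ c₁ B hc₀ hc₁ hB
  obtain ⟨K, hK, γ, hγ, H⟩ := main_cont c₀ c₁ B hc₀ hc₁ hB
  refine ⟨K, hK, γ, hγ, ?_⟩
  intro Q c dc s ds e ω hω he cQ cc cdc cs cds hc hdc hs hds c0 dc0 s0 ds0 hQ hQB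
  -- extend all functions continuously to the line
  have hext : ∀ f : ℝ → ℂ, ContinuousOn f (Ici 0) → Continuous fun t => f (max t 0) := by
    intro f hf
    refine hf.comp_continuous (continuous_id.max continuous_const) ?_
    intro t
    exact mem_Ici.2 (le_max_right t 0)
  have heq : ∀ (f : ℝ → ℂ) (t : ℝ), 0 ≤ t → f (max t 0) = f t := by
    intro f t ht
    rw [max_eq_left ht]
  have hder : ∀ (f : ℝ → ℂ) (f' : ℂ) (t : ℝ), 0 < t → HasDerivAt f f' t →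
      HasDerivAt (fun t => f (max t 0)) f' t := by
    intro f f' t ht h
    refine h.congr_of_eventuallyEq ?_
    filter_upwards [lt_mem_nhds ht] with x hx
    exact heq f x hx.le
  have hSc : Sol (fun t => Q (max t 0)) (fun t => c (max t 0)) (fun t => dc (max t 0)) := by
    refine ⟨hext c cc, hext dc cdc, ?_, ?_⟩
    · intro t ht
      have := hder c _ t ht (hc t ht)
      simp only [heq _ t ht.le]
      exact this
    · intro t ht
      have := hder dc _ t ht (hdc t ht)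
      simp only [heq _ t ht.le]
      exact this
  have hSs : Sol (fun t => Q (max t 0)) (fun t => s (max t 0)) (fun t => ds (max t 0)) := by
    refine ⟨hext s cs, hext ds cds, ?_, ?_⟩
    · intro t ht
      have := hder s _ t ht (hs t ht)
      simp only [heq _ t ht.le]
      exact this
    · intro t ht
      have := hder ds _ t ht (hds t ht)
      simp only [heq _ t ht.le]
      exact this
  have h := H (fun t => Q (max t 0)) (fun t => c (max t 0)) (fun t => dc (max t 0))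
    (fun t => s (max t 0)) (fun t => ds (max t 0)) ω hω (hext Q cQ) hSc hSs
    (by simp [c0]) (by simp [dc0]) (by simp [s0]) (by simp [ds0, he])
    (by intro t ht; simp only [heq _ t ht]; exact hQ t ht)
    (by intro t ht; simp only [heq _ t ht]; exact hQB t ht)
  obtain ⟨h1, m, h2, h3⟩ := h
  refine ⟨?_, m, ?_, ?_⟩
  · intro t ht
    have := h1 t ht
    simpa only [heq _ t ht.le] using this
  · intro t ht
    have := h2 t ht
    simpa only [heq _ t (zero_le_one.trans ht)] using this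
  · intro t ht
    have := h3 t ht
    simpa only [heq _ t ht] using this

end Pool.Agent.CRV
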