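import Pool.Agent.CRV.Frame

set_option autoImplicit false

open MeasureTheory Complex Set Filter Topology
open scoped Real

namespace Pool.Agent.CRV

noncomputable section

theorem FS.hasDeriv_y_real {α : ℝ} (F : FS α) (a b l : ℂ) {t : ℝ} (ht : 0 < t) :
    HasDerivAt (fun t : ℝ => F.y a b l t) (F.dy a b l t) t :=
  (F.hasDeriv_y a b l (slit_of_pos ht)).comp_ofReal

theorem FS.hasDeriv_dy_real {α : ℝ} (F : FS α) (a b l : ℂ) {t : ℝ} (ht : 0 < t) :
    HasDerivAt (fun t : ℝ => F.dy a b l t) ((I * ((t ^ α : ℝ) : ℂ) - l) * F.y a b l t) t := by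
  have := (F.hasDeriv_dy a b l (slit_of_pos ht)).comp_ofReal
  rw [Complex.ofReal_cpow ht.le α]
  exact this

theorem FS.cont_y_real {α : ℝ} (F : FS α) (a b l : ℂ) :
    ContinuousOn (fun t : ℝ => F.y a b l t) (Ici 0) :=
  (F.cont_y a b l).comp (f := fun t : ℝ => (t : ℂ)) (by fun_prop) (fun _ ht => dom_real ht)

theorem FS.cont_dy_real {α : ℝ} (F : FS α) (a b l : ℂ) :
    ContinuousOn (fun t : ℝ => F.dy a b l t) (Ici 0) :=
  (F.cont_dy a b l).comp (f := fun t : ℝ => (t : ℂ)) (by fun_prop) (fun _ ht => dom_real ht)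

theorem hasDeriv_If {α : ℝ} (hα : 0 < α) {l : ℂ} (hl : 0 < l.re) (x : ℝ) :
    HasDerivAt (If α l) ((kf α l x).im) x := by
  have hc : Continuous (fun t => (kf α l t).im) := Complex.continuous_im.comp (kf_cont hα hl)
  exact intervalIntegral.integral_hasDerivAt_right (hc.intervalIntegrable _ _)
    (hc.stronglyMeasurableAtFilter _ _) hc.continuousAt

theorem If_zero (α : ℝ) (l : ℂ) : If α l 0 = 0 := by simp [If]

/-- two-sided Gronwall for a solution with `y' = i k y + O(M) y`. -/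
theorem log_int {α : ℝ} (hα : 0 < α) (F : FS α) (a b l : ℂ) (hl : 0 < l.re) {X M : ℝ} (hX : 0 ≤ X)
    (h : ∀ t : ℝ, 0 ≤ t → t ≤ X →
      ‖F.dy a b l t - I * kf α l t * F.y a b l t‖ ≤ M * ‖F.y a b l t‖) :
    ‖a‖ * Real.exp (-If α l X - M * X) ≤ ‖F.y a b l X‖ ∧
      ‖F.y a b l X‖ ≤ ‖a‖ * Real.exp (-If α l X + M * X) := by
  -- g_σ(t) = ‖y‖² exp(2 If + σ t)
  have hderiv : ∀ σ t : ℝ, 0 < t → HasDerivAt
      (fun t : ℝ => ‖F.y a b l t‖ ^ 2 * Real.exp (2 * If α l t + σ * t))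
      ((2 * inner ℝ (F.y a b l t) (F.dy a b l t)) * Real.exp (2 * If α l t + σ * t)
        + ‖F.y a b l t‖ ^ 2 * (Real.exp (2 * If α l t + σ * t) * (2 * (kf α l t).im + σ))) t := by
    intro σ t ht
    have h1 := (F.hasDeriv_y_real a b l ht).norm_sq
    have h2 := ((((hasDeriv_If hα hl t).const_mul 2).add
      ((hasDerivAt_id t).const_mul σ))).exp
    have h3 := h1.mul h2
    refine HasDerivAt.congr_deriv (f := fun t : ℝ => ‖F.y a b l t‖ ^ 2 *
      Real.exp (2 * If α l t + σ * t)) h3 ?_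
    simp
  have hval : ∀ σ t : ℝ,
      ((2 * inner ℝ (F.y a b l t) (F.dy a b l t)) * Real.exp (2 * If α l t + σ * t)
        + ‖F.y a b l t‖ ^ 2 * (Real.exp (2 * If α l t + σ * t) * (2 * (kf α l t).im + σ)))
      = Real.exp (2 * If α l t + σ * t) *
        (2 * inner ℝ (F.y a b l t) (F.dy a b l t - I * kf α l t * F.y a b l t)
          + σ * ‖F.y a b l t‖ ^ 2) := by
    intro σ t
    have e1 : inner ℝ (F.y a b l t) (F.dy a b l t - I * kf α l t * F.y a b l t)
        = inner ℝ (F.y a b l t) (F.dy a b l t) + (kf α l t).im * ‖F.y a b l t‖ ^ 2 := by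
      rw [inner_sub_right]
      have : inner ℝ (F.y a b l t) (I * kf α l t * F.y a b l t)
          = -((kf α l t).im * ‖F.y a b l t‖ ^ 2) := by
        rw [Complex.inner, Complex.sq_norm, Complex.normSq_apply]
        simp only [Complex.mul_re, Complex.mul_im, Complex.conj_re, Complex.conj_im,
          Complex.I_re, Complex.I_im]
        ring
      rw [this]; ring
    rw [e1]; ring
  have hbd : ∀ t : ℝ, 0 ≤ t → t ≤ X →
      |2 * inner ℝ (F.y a b l t) (F.dy a b l t - I * kf α l t * F.y a b l t)|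
        ≤ 2 * M * ‖F.y a b l t‖ ^ 2 := by
    intro t ht htX
    have h1 := abs_real_inner_le_norm (F.y a b l t) (F.dy a b l t - I * kf α l t * F.y a b l t)
    have h2 := h t ht htX
    rw [abs_mul, abs_two]
    have h3 : ‖F.y a b l t‖ * ‖F.dy a b l t - I * kf α l t * F.y a b l t‖
        ≤ ‖F.y a b l t‖ * (M * ‖F.y a b l t‖) :=
      mul_le_mul_of_nonneg_left h2 (norm_nonneg _)
    nlinarith
  have hcont : ∀ σ : ℝ, ContinuousOn
      (fun t : ℝ => ‖F.y a b l t‖ ^ 2 * Real.exp (2 * If α l t + σ * t)) (Icc 0 X) := by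
    intro σ
    have h1 : ContinuousOn (fun t : ℝ => F.y a b l t) (Icc 0 X) :=
      (F.cont_y_real a b l).mono Icc_subset_Ici_self
    have h2 : Continuous (If α l) :=
      continuous_iff_continuousAt.2 (fun t => (hasDeriv_If hα hl t).continuousAt)
    exact (h1.norm.pow 2).mul (by fun_prop)
  have hanti : AntitoneOn
      (fun t : ℝ => ‖F.y a b l t‖ ^ 2 * Real.exp (2 * If α l t + (-(2 * M)) * t)) (Icc 0 X) := by
    apply antitoneOn_of_deriv_nonpos (convex_Icc 0 X) (hcont _)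
    · intro t ht
      rw [interior_Icc] at ht
      exact (hderiv _ t ht.1).differentiableAt.differentiableWithinAt
    · intro t ht
      rw [interior_Icc] at ht
      rw [(hderiv _ t ht.1).deriv, hval]
      have h1 := (abs_le.1 (hbd t ht.1.le ht.2.le)).2
      exact mul_nonpos_of_nonneg_of_nonpos (Real.exp_pos _).le (by linarith)
  have hmono : MonotoneOn
      (fun t : ℝ => ‖F.y a b l t‖ ^ 2 * Real.exp (2 * If α l t + (2 * M) * t)) (Icc 0 X) := by
    apply monotoneOn_of_deriv_nonneg (convex_Icc 0 X) (hcont _)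
    · intro t ht
      rw [interior_Icc] at ht
      exact (hderiv _ t ht.1).differentiableAt.differentiableWithinAt
    · intro t ht
      rw [interior_Icc] at ht
      rw [(hderiv _ t ht.1).deriv, hval]
      have h1 := (abs_le.1 (hbd t ht.1.le ht.2.le)).1
      exact mul_nonneg (Real.exp_pos _).le (by linarith)
  have hA := hanti (left_mem_Icc.2 hX) (right_mem_Icc.2 hX) hX
  have hM := hmono (left_mem_Icc.2 hX) (right_mem_Icc.2 hX) hX
  simp only [ofReal_zero, F.y_zero, If_zero, mul_zero, add_zero, Real.exp_zero, mul_one] at hA hM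
  constructor
  · refine (pow_le_pow_iff_left₀ (by positivity) (norm_nonneg _) two_ne_zero).1 ?_
    rw [mul_pow, ← Real.exp_nat_mul]
    have e1 : (((2 : ℕ) : ℝ)) * (-If α l X - M * X) = -(2 * If α l X + 2 * M * X) := by
      push_cast; ring
    rw [e1]
    calc ‖a‖ ^ 2 * Real.exp (-(2 * If α l X + 2 * M * X))
        ≤ (‖F.y a b l X‖ ^ 2 * Real.exp (2 * If α l X + 2 * M * X))
          * Real.exp (-(2 * If α l X + 2 * M * X)) :=
          mul_le_mul_of_nonneg_right hM (Real.exp_pos _).le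
      _ = ‖F.y a b l X‖ ^ 2 := by
        rw [mul_assoc, ← Real.exp_add]; simp
  · refine (pow_le_pow_iff_left₀ (norm_nonneg _) (by positivity) two_ne_zero).1 ?_
    rw [mul_pow, ← Real.exp_nat_mul]
    have e1 : (((2 : ℕ) : ℝ)) * (-If α l X + M * X) = -(2 * If α l X + -(2 * M) * X) := by
      push_cast; ring
    rw [e1]
    calc ‖F.y a b l X‖ ^ 2 = (‖F.y a b l X‖ ^ 2 * Real.exp (2 * If α l X + -(2 * M) * X))
          * Real.exp (-(2 * If α l X + -(2 * M) * X)) := by
          rw [mul_assoc, ← Real.exp_add]; simp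
      _ ≤ ‖a‖ ^ 2 * Real.exp (-(2 * If α l X + -(2 * M) * X)) :=
          mul_le_mul_of_nonneg_right hA (Real.exp_pos _).le

/-- `x / √‖l‖ ≤ 2^{1/α} ‖l‖^{ρ-1}`. -/
theorem x_over_sqrt {α : ℝ} (hα : 0 < α) {L x : ℝ} (hL : 0 < L) (hx : 0 ≤ x) (h : x ^ α ≤ 2 * L) :
    x / Real.sqrt L ≤ 2 ^ (1 / α) * L ^ (rho α - 1) := by
  have h1 : x ≤ (2 * L) ^ (1 / α) := by
    have h2 := Real.rpow_le_rpow (Real.rpow_nonneg hx α) h (by positivity : 0 ≤ 1 / α)
    rw [← Real.rpow_mul hx, mul_one_div_cancel hα.ne', Real.rpow_one] at h2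
    exact h2
  rw [div_le_iff₀ (Real.sqrt_pos.2 hL)]
  refine h1.trans (le_of_eq ?_)
  rw [Real.mul_rpow (by norm_num) hL.le, mul_assoc, Real.sqrt_eq_rpow, ← Real.rpow_add hL]
  congr 2
  unfold rho
  ring

theorem logx (h1 : Stmt_O1) : Stmt_LOGX := by
  intro α hα hα' F c hc
  obtain ⟨K, R, hK, hR, H⟩ := h1 α hα hα' F c hc
  refine ⟨K * 2 ^ (1 / α), R, by positivity, hR, ?_⟩
  intro l hl hre him a b hX
  have hl0 : 0 < ‖l‖ := lt_of_lt_of_le one_pos (hR.trans hl)
  have hre0 : 0 < l.re := lt_of_lt_of_le (mul_pos hc hl0) hre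
  have hO := H l hl hre him a b hX
  constructor
  · have := (hO 0 le_rfl (by rw [Real.zero_rpow hα.ne']; positivity)).1
    simpa [F.y_zero] using this
  · intro x hx hxl
    have hb : K / Real.sqrt ‖l‖ * x ≤ K * 2 ^ (1 / α) * ‖l‖ ^ (rho α - 1) := by
      have := mul_le_mul_of_nonneg_left (x_over_sqrt hα hl0 hx hxl) hK.le
      calc K / Real.sqrt ‖l‖ * x = K * (x / Real.sqrt ‖l‖) := by ring
        _ ≤ _ := this
        _ = _ := by ring
    obtain ⟨g1, g2⟩ := log_int hα F a b l hre0 hx (M := K / Real.sqrt ‖l‖) (fun t ht htx =>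
      (hO t ht ((Real.rpow_le_rpow ht htx hα.le).trans hxl)).2)
    constructor
    · refine le_trans (mul_le_mul_of_nonneg_left (Real.exp_le_exp.2 ?_) (norm_nonneg _)) g1
      linarith
    · refine g2.trans (mul_le_mul_of_nonneg_left (Real.exp_le_exp.2 ?_) (norm_nonneg _))
      linarith

theorem logy (h2 : Stmt_O2) : Stmt_LOGY := by
  intro α hα hα' F q hq0 hq1
  obtain ⟨κ, K, R, hκ, hκ', hK, hR, H⟩ := h2 α hα hα' F q hq0 hq1
  refine ⟨κ, K * 2 ^ (1 / α), R, hκ, hκ', by positivity, hR, ?_⟩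
  intro l hl harg1 harg2 a b hY
  have hl0 : 0 < ‖l‖ := lt_of_lt_of_le one_pos (hR.trans hl)
  have hπ := Real.pi_pos
  have hre0 : 0 < l.re := by
    rw [← Complex.norm_mul_cos_arg l]
    exact mul_pos hl0 (Real.cos_pos_of_mem_Ioo ⟨by linarith, harg2⟩)
  have him0 : 0 < l.im := by
    rw [← Complex.norm_mul_sin_arg l]
    exact mul_pos hl0 (Real.sin_pos_of_pos_of_lt_pi (by linarith) (by linarith))
  have him1 : l.im ≤ ‖l‖ := (le_abs_self _).trans (Complex.abs_im_le_norm l)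
  have hO := H l hl harg1 harg2 a b hY
  constructor
  · have := (hO 0 le_rfl (by rw [Real.zero_rpow hα.ne']; positivity)).1
    simpa [F.y_zero] using this
  · intro x hx hxl
    have hxl2 : x ^ α ≤ 2 * ‖l‖ := by
      refine hxl.trans ?_
      nlinarith
    have hb : K / Real.sqrt ‖l‖ * x ≤ K * 2 ^ (1 / α) * ‖l‖ ^ (rho α - 1) := by
      have := mul_le_mul_of_nonneg_left (x_over_sqrt hα hl0 hx hxl2) hK.le
      calc K / Real.sqrt ‖l‖ * x = K * (x / Real.sqrt ‖l‖) := by ring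
        _ ≤ _ := this
        _ = _ := by ring
    obtain ⟨g1, g2⟩ := log_int hα F a b l hre0 hx (M := K / Real.sqrt ‖l‖) (fun t ht htx =>
      (hO t ht ((Real.rpow_le_rpow ht htx hα.le).trans hxl)).2)
    constructor
    · refine le_trans (mul_le_mul_of_nonneg_left (Real.exp_le_exp.2 ?_) (norm_nonneg _)) g1
      linarith
    · refine g2.trans (mul_le_mul_of_nonneg_left (Real.exp_le_exp.2 ?_) (norm_nonneg _))
      linarith

end

end Pool.Agent.CRV
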