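import Pool.Agent.CRV.LogXY

set_option autoImplicit false

open MeasureTheory Complex Set Filter Topology
open scoped Real

namespace Pool.Agent.CRV

noncomputable section

/-- the sector `ψ₁ ≤ arg l ≤ ψ₂`. -/
theorem sector_re {ψ₁ ψ₂ : ℝ} (h1 : 0 < ψ₁) (h12 : ψ₁ ≤ ψ₂) (h2 : ψ₂ < π / 2) {l : ℂ}
    (ha : ψ₁ ≤ arg l) (hb : arg l ≤ ψ₂) :
    0 < Real.cos ψ₂ ∧ 0 < Real.sin ψ₁ ∧ Real.cos ψ₂ * ‖l‖ ≤ l.re ∧ Real.sin ψ₁ * ‖l‖ ≤ l.im := by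
  have hπ := Real.pi_pos
  refine ⟨Real.cos_pos_of_mem_Ioo ⟨by linarith, h2⟩,
    Real.sin_pos_of_pos_of_lt_pi h1 (by linarith), ?_, ?_⟩
  · rw [← Complex.norm_mul_cos_arg l, mul_comm]
    exact mul_le_mul_of_nonneg_left (Real.cos_le_cos_of_nonneg_of_le_pi (by linarith)
      (by linarith) hb) (norm_nonneg l)
  · rw [← Complex.norm_mul_sin_arg l, mul_comm]
    exact mul_le_mul_of_nonneg_left (Real.sin_le_sin_of_le_of_le_pi_div_two (by linarith)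
      (by linarith) ha) (norm_nonneg l)

theorem kf_zero {α : ℝ} (hα : 0 < α) (l : ℂ) : kf α l 0 = l ^ (1 / 2 : ℂ) := by
  unfold kf
  rw [Real.zero_rpow hα.ne']
  simp

/-- two-sided bound for `Mp`. -/
theorem mp_bound (h1 : Stmt_O1) {α : ℝ} (hα : 0 < α) (hα' : α ≤ 2 / 3) (F : FS α) (Mp : ℂ → ℂ)
    (hM : HX F Mp) {ψ₁ ψ₂ : ℝ} (hψ : 0 < ψ₁) (hψ' : ψ₁ ≤ ψ₂) (hψ₂ : ψ₂ < π / 2) :
    ∃ R : ℝ, 1 ≤ R ∧ ∀ l : ℂ, R ≤ ‖l‖ → ψ₁ ≤ arg l → arg l ≤ ψ₂ →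
      1 ≤ ‖Mp l‖ ∧ ‖Mp l‖ ≤ 2 * Real.sqrt ‖l‖ := by
  have hc : 0 < Real.cos ψ₂ := Real.cos_pos_of_mem_Ioo ⟨by linarith, hψ₂⟩
  obtain ⟨K, R, hK, hR, H⟩ := h1 α hα hα' F (Real.cos ψ₂) hc
  refine ⟨max R ((K + 1) ^ 2), hR.trans (le_max_left _ _), ?_⟩
  intro l hl ha hb
  have hlR : R ≤ ‖l‖ := (le_max_left _ _).trans hl
  have hlK : (K + 1) ^ 2 ≤ ‖l‖ := (le_max_right _ _).trans hl
  have hl0 : 0 < ‖l‖ := lt_of_lt_of_le one_pos (hR.trans hlR)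
  obtain ⟨_, s1, s2, s3⟩ := sector_re hψ hψ' hψ₂ ha hb
  have hre : 0 < l.re := lt_of_lt_of_le (mul_pos hc hl0) s2
  have him : 0 < l.im := lt_of_lt_of_le (mul_pos s1 hl0) s3
  have hX := hM.2 l ⟨hre, him⟩
  have hO := (H l hlR s2 him 1 (Mp l) hX 0 le_rfl (by rw [Real.zero_rpow hα.ne']; positivity)).2
  simp only [ofReal_zero, F.y_zero, F.dy_zero, mul_one, norm_one, kf_zero hα] at hO
  have hk : ‖I * l ^ (1 / 2 : ℂ)‖ = Real.sqrt ‖l‖ := by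
    rw [norm_mul, Complex.norm_I, one_mul, half_norm]
  have hs : K + 1 ≤ Real.sqrt ‖l‖ := by
    rw [← Real.sqrt_sq (by linarith : 0 ≤ K + 1)]
    exact Real.sqrt_le_sqrt hlK
  have hs0 : 0 < Real.sqrt ‖l‖ := by linarith
  have hKs : K / Real.sqrt ‖l‖ ≤ K := by
    rw [div_le_iff₀ hs0]
    nlinarith
  have t1 : ‖I * l ^ (1 / 2 : ℂ)‖ ≤ ‖Mp l‖ + ‖Mp l - I * l ^ (1 / 2 : ℂ)‖ := by
    calc ‖I * l ^ (1 / 2 : ℂ)‖ = ‖Mp l - (Mp l - I * l ^ (1 / 2 : ℂ))‖ := by congr 1; ring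
      _ ≤ _ := norm_sub_le _ _
  have t2 : ‖Mp l‖ ≤ ‖Mp l - I * l ^ (1 / 2 : ℂ)‖ + ‖I * l ^ (1 / 2 : ℂ)‖ := by
    calc ‖Mp l‖ = ‖(Mp l - I * l ^ (1 / 2 : ℂ)) + I * l ^ (1 / 2 : ℂ)‖ := by congr 1; ring
      _ ≤ _ := norm_add_le _ _
  rw [hk] at t1 t2
  constructor
  · linarith
  · linarith

theorem mpb (h1 : Stmt_O1) (h2 : Stmt_LOGX) : Stmt_MPB := by
  intro α hα hα' F Mp hM s ψ₁ ψ₂ hψ hψ' hψ₂
  have hc : 0 < Real.cos ψ₂ := Real.cos_pos_of_mem_Ioo ⟨by linarith, hψ₂⟩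
  obtain ⟨K, R, hK, hR, H⟩ := h2 α hα hα' F (Real.cos ψ₂) hc
  obtain ⟨R', hR', H'⟩ := mp_bound h1 hα hα' F Mp hM hψ hψ' hψ₂
  refine ⟨K, max R R', hK, hR.trans (le_max_left _ _), ?_⟩
  intro l hl ha hb
  have hlR : R ≤ ‖l‖ := (le_max_left _ _).trans hl
  have hlR' : R' ≤ ‖l‖ := (le_max_right _ _).trans hl
  have hl0 : 0 < ‖l‖ := lt_of_lt_of_le one_pos (hR.trans hlR)
  obtain ⟨_, s1, s2, s3⟩ := sector_re hψ hψ' hψ₂ ha hb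
  have hre : 0 < l.re := lt_of_lt_of_le (mul_pos hc hl0) s2
  have him : 0 < l.im := lt_of_lt_of_le (mul_pos s1 hl0) s3
  have hX := hM.2 l ⟨hre, him⟩
  obtain ⟨m1, m2⟩ := H' l hlR' ha hb
  have hbdr : 1 ≤ ‖bdr s 1 (Mp l)‖ := by
    unfold bdr
    cases s
    · simpa using m1
    · simp
  constructor
  · intro h
    rw [h] at hbdr
    simp at hbdr
    linarith
  · intro x hx hxl
    obtain ⟨_, hb2⟩ := H l hlR s2 him 1 (Mp l) hX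
    have h3 := (hb2 x hx hxl).2
    rw [norm_one, one_mul] at h3
    unfold mP
    rw [norm_div]
    exact (div_le_self (norm_nonneg _) hbdr).trans h3

end

end Pool.Agent.CRV
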