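import Pool.Agent.CRV.Frame

set_option autoImplicit false

open MeasureTheory Complex Set Filter Topology
open scoped Real

namespace Pool.Agent.CRV

noncomputable section

theorem dir_I : Dir I := ⟨by simp, by simp⟩

theorem o1 (hP : Stmt_PAIR) (hD : Stmt_DLX) : Stmt_O1 := by
  intro α hα hα' F c hc
  obtain ⟨K, hK, L₀, hL₀, H⟩ := pair_frame hP c (Real.sqrt c) hc (Real.sqrt_pos.2 hc)
  refine ⟨K, max 1 L₀, hK, le_max_left _ _, ?_⟩
  intro l hl hre him a b hX x hx hxl
  have hα1 : α ≤ 1 := by linarith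
  have hl0 : 0 < ‖l‖ := lt_of_lt_of_le one_pos ((le_max_left _ _).trans hl)
  have hlre : 0 ≤ l.re := le_trans (by positivity) hre
  obtain ⟨K', γ, hγ, hdec⟩ := hD α hα hα' F a b l hX x hx
  have hcast : ((x : ℂ) ^ (α : ℂ)) = ((x ^ α : ℝ) : ℂ) := (Complex.ofReal_cpow hx α).symm
  have main := H α hα hα' F a b l I (kf α l x) x 0 ‖l‖ K' γ dir_I hx
    ((le_max_right _ _).trans hl) hγ hdec (by simp) ?_ ?_ ?_ ?_ hX.1
  · refine ⟨main.1, ?_⟩
    have e1 : I * F.dy a b l x + kf α l x * F.y a b l x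
        = I * (F.dy a b l x - I * kf α l x * F.y a b l x) := by
      linear_combination (kf α l x * F.y a b l x) * Complex.I_mul_I
    have h2 := main.2
    rw [e1, norm_mul, Complex.norm_I, one_mul] at h2
    exact h2
  · intro t ht
    have e1 : exp (((0 : ℝ) : ℂ) * I) * (I ^ 2 * (I * ((x : ℂ) + t * I) ^ (α : ℂ) - l))
        = l - I * ((x : ℂ) + t * I) ^ (α : ℂ) := by
      simp
    rw [e1]
    have h1 : 0 ≤ (((x : ℂ) + t * I) ^ (α : ℂ)).im := cpow_im_nonneg hα hα1 (by simpa using ht)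
    simp only [Complex.sub_re, Complex.mul_re, Complex.I_re, Complex.I_im, zero_mul, one_mul]
    linarith
  · rw [kf_sq, hcast]
    simp
  · refine le_trans ?_ (kf_re_ge hlre x)
    rw [← Real.sqrt_mul hc.le]
    exact Real.sqrt_le_sqrt hre
  · rw [hcast]
    refine (norm_sub_le _ _).trans ?_
    rw [norm_mul, Complex.norm_I, one_mul, Complex.norm_real,
      Real.norm_of_nonneg (Real.rpow_nonneg hx α)]
    linarith

end

end Pool.Agent.CRV
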