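import Pool.Agent.CRV.Frame

set_option autoImplicit false

open MeasureTheory Complex Set Filter Topology
open scoped Real

namespace Pool.Agent.CRV

noncomputable section

/-- direction `-π/8` -/
def e8 : ℂ := exp (((-(π / 8) : ℝ) : ℂ) * I)

theorem e8_re : e8.re = Real.cos (π / 8) := by
  unfold e8
  rw [Complex.exp_ofReal_mul_I_re, Real.cos_neg]

theorem e8_im : e8.im = -Real.sin (π / 8) := by
  unfold e8
  rw [Complex.exp_ofReal_mul_I_im, Real.sin_neg]

theorem cos8_pos : 0 < Real.cos (π / 8) :=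
  Real.cos_pos_of_mem_Ioo ⟨by linarith [Real.pi_pos], by linarith [Real.pi_pos]⟩

theorem sin8_pos : 0 < Real.sin (π / 8) :=
  Real.sin_pos_of_pos_of_lt_pi (by linarith [Real.pi_pos]) (by linarith [Real.pi_pos])

theorem dir_e8 : Dir e8 := ⟨Complex.norm_exp_ofReal_mul_I _, by rw [e8_re]; exact cos8_pos.le⟩

theorem arg_ray {x t : ℝ} (hx : 0 ≤ x) (ht : 0 < t) :
    -(π / 8) ≤ arg ((x : ℂ) + t * e8) ∧ arg ((x : ℂ) + t * e8) ≤ 0 := by
  set z : ℂ := (x : ℂ) + t * e8 with hz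
  have hre : z.re = x + t * Real.cos (π / 8) := by rw [hz]; simp [e8_re]
  have him : z.im = -(t * Real.sin (π / 8)) := by rw [hz]; simp [e8_im]
  have hrepos : 0 < z.re := by rw [hre]; have := mul_pos ht cos8_pos; linarith
  have himneg : z.im < 0 := by rw [him]; have := mul_pos ht sin8_pos; linarith
  have h0 : arg z < 0 := Complex.arg_neg_iff.2 himneg
  refine ⟨?_, h0.le⟩
  have h1 : |arg z| < π / 2 := Complex.abs_arg_lt_pi_div_two_iff.2 (Or.inl hrepos)
  have h2 : -(π / 2) < arg z := (abs_lt.1 h1).1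
  by_contra hcon
  push Not at hcon
  have h3 : Real.sin (arg z + π / 8) < 0 := by
    apply Real.sin_neg_of_neg_of_neg_pi_lt
    · linarith
    · linarith [Real.pi_pos]
  have h4 : ‖z‖ * Real.sin (arg z + π / 8) = x * Real.sin (π / 8) := by
    rw [Real.sin_add]
    have a1 : ‖z‖ * Real.cos (arg z) = z.re := Complex.norm_mul_cos_arg z
    have a2 : ‖z‖ * Real.sin (arg z) = z.im := Complex.norm_mul_sin_arg z
    calc ‖z‖ * (Real.sin (arg z) * Real.cos (π / 8) + Real.cos (arg z) * Real.sin (π / 8))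
        = (‖z‖ * Real.sin (arg z)) * Real.cos (π / 8) + (‖z‖ * Real.cos (arg z)) * Real.sin (π / 8) := by ring
      _ = z.im * Real.cos (π / 8) + z.re * Real.sin (π / 8) := by rw [a1, a2]
      _ = x * Real.sin (π / 8) := by rw [hre, him]; ring
  have h5 : 0 < ‖z‖ := by
    rw [norm_pos_iff]
    intro h
    rw [h] at hrepos
    simp at hrepos
  have h6 := mul_neg_of_pos_of_neg h5 h3
  rw [h4] at h6
  have := mul_nonneg hx sin8_pos.le
  linarith

theorem anti_ray {α : ℝ} (hα : 0 < α) (hα1 : α ≤ 1) {x : ℝ} (hx : 0 ≤ x) {t : ℝ} (ht : 0 ≤ t) :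
    (exp (((α * π / 16 : ℝ) : ℂ) * I) * ((x : ℂ) + t * e8) ^ (α : ℂ)).im
      ≤ x ^ α * Real.sin (α * π / 16) := by
  set ν : ℝ := α * π / 16 with hν
  have hanti : AntitoneOn (fun t : ℝ => (exp ((ν : ℂ) * I) * ((x : ℂ) + t * e8) ^ (α : ℂ)).im)
      (Ici 0) := by
    have hd : ∀ s : ℝ, 0 < s → HasDerivAt
        (fun t : ℝ => (exp ((ν : ℂ) * I) * ((x : ℂ) + t * e8) ^ (α : ℂ)).im)
        ((exp ((ν : ℂ) * I) * (e8 * ((α : ℂ) * ((x : ℂ) + s * e8) ^ ((α : ℂ) - 1)))).im) s := by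
      intro s hs
      have h1 := (cpow_hasDeriv_ray (α := α) dir_e8 hx hs).const_mul (exp ((ν : ℂ) * I))
      have h2 := Complex.imCLM.hasFDerivAt.comp_hasDerivAt s h1
      exact h2
    apply antitoneOn_of_deriv_nonpos (convex_Ici 0)
    · exact Complex.continuous_im.comp_continuousOn
        (continuousOn_const.mul (cpow_cont_ray hα dir_e8 hx))
    · intro s hs
      rw [interior_Ici] at hs
      exact (hd s hs).differentiableAt.differentiableWithinAt
    · intro s hs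
      rw [interior_Ici] at hs
      rw [(hd s hs).deriv]
      have hs' : 0 < s := hs
      obtain ⟨g1, g2⟩ := arg_ray hx hs'
      set z : ℂ := (x : ℂ) + s * e8 with hz
      have hz0 : z ≠ 0 := slitPlane_ne_zero (dir_e8.slit hx hs')
      have e1 : exp ((ν : ℂ) * I) * (e8 * ((α : ℂ) * z ^ ((α : ℂ) - 1)))
          = (α : ℂ) * exp (((ν + -(π / 8) : ℝ) : ℂ) * I + Complex.log z * ((α : ℂ) - 1)) := by
        rw [Complex.cpow_def_of_ne_zero hz0]
        unfold e8
        rw [Complex.exp_add]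
        have : (((ν + -(π / 8) : ℝ) : ℂ)) * I = (ν : ℂ) * I + ((-(π / 8) : ℝ) : ℂ) * I := by
          push_cast; ring
        rw [this, Complex.exp_add]
        ring
      rw [e1, Complex.im_ofReal_mul, Complex.exp_im]
      have e2 : ((((ν + -(π / 8) : ℝ) : ℂ)) * I + Complex.log z * ((α : ℂ) - 1)).im
          = (ν + -(π / 8)) + (α - 1) * arg z := by
        have : ((α : ℂ) - 1) = ((α - 1 : ℝ) : ℂ) := by push_cast; ring
        rw [this, Complex.add_im, Complex.im_mul_ofReal, Complex.log_im]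
        simp
        ring
      rw [e2]
      have h3 : Real.sin ((ν + -(π / 8)) + (α - 1) * arg z) ≤ 0 := by
        apply Real.sin_nonpos_of_nonpos_of_neg_pi_le
        · have : (α - 1) * arg z ≤ (1 - α) * (π / 8) := by nlinarith
          have hp := Real.pi_pos
          rw [hν]
          nlinarith [mul_pos hα hp]
        · have : 0 ≤ (α - 1) * arg z := mul_nonneg_of_nonpos_of_nonpos (by linarith) g2
          have hp := Real.pi_pos
          have : 0 ≤ ν := by rw [hν]; positivity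
          linarith
      exact mul_nonpos_of_nonneg_of_nonpos hα.le
        (mul_nonpos_of_nonneg_of_nonpos (Real.exp_pos _).le h3)
  have h := hanti (mem_Ici.2 le_rfl) (mem_Ici.2 ht) ht
  simp only [ofReal_zero, zero_mul, add_zero] at h
  refine h.trans (le_of_eq ?_)
  rw [← Complex.ofReal_cpow hx α, Complex.im_mul_ofReal, Complex.exp_ofReal_mul_I_im]
  ring

theorem cs8 : 1 / 2 ≤ Real.cos (π / 8) - Real.sin (π / 8) ∧ Real.sin (π / 8) ≤ 1 := by
  have h1 := Real.one_sub_sq_div_two_le_cos (x := π / 8)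
  have h2 := Real.sin_le (x := π / 8) (by positivity)
  have h3 := Real.pi_lt_d2
  have h4 := Real.pi_pos
  refine ⟨?_, Real.sin_le_one _⟩
  nlinarith

/-- lower bound of `Im (e k)`. -/
theorem im_ek {S p r A Bq : ℝ} (hS : 0 ≤ S) (hp : 0 ≤ p) (hA : 0 ≤ A) (h1 : p ^ 2 - r ^ 2 = A)
    (h2 : 2 * p * r = Bq) (hA' : A ≤ S ^ 2 / 100) (hB : S ^ 2 ≤ Bq) :
    S / 4 ≤ Real.cos (π / 8) * r - Real.sin (π / 8) * p := by
  obtain ⟨c1, c2⟩ := cs8
  have s0 := sin8_pos
  have hr : 0 ≤ r := by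
    by_contra hcon
    push Not at hcon
    have : 2 * p * r ≤ 0 := by nlinarith
    have hS0 : S ^ 2 ≤ 0 := by linarith
    have hS1 : S = 0 := by nlinarith
    have hA0 : A ≤ 0 := by rw [hS1] at hA'; simpa using hA'
    have : p ^ 2 = r ^ 2 := by linarith
    have hp0 : 0 < p := by nlinarith
    have : 2 * p * r < 0 := by nlinarith
    have : 0 ≤ Bq := by nlinarith
    linarith
  have hsum : Bq ≤ p ^ 2 + r ^ 2 := by nlinarith [sq_nonneg (p - r)]
  have hr2 : (7 / 10 * S) ^ 2 ≤ r ^ 2 := by nlinarith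
  have hr3 : 7 / 10 * S ≤ r := (pow_le_pow_iff_left₀ (by positivity) hr two_ne_zero).1 hr2
  have hp2 : p ^ 2 ≤ (r + S / 10) ^ 2 := by nlinarith [mul_nonneg hr hS]
  have hp3 : p ≤ r + S / 10 := (pow_le_pow_iff_left₀ hp (by positivity) two_ne_zero).1 hp2
  nlinarith [mul_nonneg s0.le hS, mul_le_mul_of_nonneg_left hp3 s0.le,
    mul_le_mul_of_nonneg_right c1 hr]

theorem o2 (hP : Stmt_PAIR) (hD : Stmt_DLY) : Stmt_O2 := by
  intro α hα hα' F q hq0 hq1
  have hα1 : α ≤ 1 := by linarith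
  have hπ := Real.pi_pos
  set ν : ℝ := α * π / 16 with hν
  have hν0 : 0 < ν := by rw [hν]; positivity
  have hν1 : ν ≤ π / 16 := by rw [hν]; nlinarith
  have hsν : 0 < Real.sin ν := Real.sin_pos_of_pos_of_lt_pi hν0 (by linarith)
  have hsν1 : Real.sin ν ≤ 1 := Real.sin_le_one _
  set κ : ℝ := (1 - q) * Real.sin ν / 200 with hκ
  have hq' : 0 < 1 - q := by linarith
  have hκ0 : 0 < κ := by rw [hκ]; positivity
  have hκ1 : κ ≤ (1 - q) / 2 / 100 := by
    rw [hκ]
    have : (1 - q) * Real.sin ν ≤ (1 - q) := by nlinarith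
    linarith
  have hκ2 : κ ≤ 1 / 200 := by linarith
  set m : ℝ := (1 - q) / 2 with hm
  have hm0 : 0 < m := by rw [hm]; linarith
  obtain ⟨K, hK, L₀, hL₀, H⟩ := pair_frame hP ((1 - q) * Real.sin ν / 2) (Real.sqrt m / 4)
    (by positivity) (by positivity)
  refine ⟨κ, K, max 1 L₀, hκ0, ?_, hK, le_max_left _ _, ?_⟩
  · have := Real.pi_gt_three
    linarith
  intro l hl harg1 harg2 a b hY x hx hxl
  have hl0 : 0 < ‖l‖ := lt_of_lt_of_le one_pos ((le_max_left _ _).trans hl)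
  obtain ⟨K', γ, hγ, hdec⟩ := hD α hα hα' F a b l hY x hx (-(π / 8)) (by linarith) (by linarith)
  have hcast : ((x : ℂ) ^ (α : ℂ)) = ((x ^ α : ℝ) : ℂ) := (Complex.ofReal_cpow hx α).symm
  -- the angle κ₁
  set κ₁ : ℝ := π / 2 - arg l with hκ₁
  have hκ₁0 : 0 < κ₁ := by rw [hκ₁]; linarith
  have hκ₁1 : κ₁ ≤ κ := by rw [hκ₁]; linarith
  have harg : arg l = π / 2 - κ₁ := by rw [hκ₁]; ring
  have hre : l.re = ‖l‖ * Real.sin κ₁ := by
    rw [← Complex.norm_mul_cos_arg l, harg, Real.cos_pi_div_two_sub]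
  have him : l.im = ‖l‖ * Real.cos κ₁ := by
    rw [← Complex.norm_mul_sin_arg l, harg, Real.sin_pi_div_two_sub]
  have hsin1 : Real.sin κ₁ ≤ κ₁ := Real.sin_le hκ₁0.le
  have hsin0 : 0 ≤ Real.sin κ₁ := Real.sin_nonneg_of_nonneg_of_le_pi hκ₁0.le (by
    have := Real.pi_gt_three
    linarith)
  have hcos1 : 1 - κ₁ ^ 2 / 2 ≤ Real.cos κ₁ := Real.one_sub_sq_div_two_le_cos
  have hcos2 : Real.cos κ₁ ≤ 1 := Real.cos_le_one _
  have hcos3 : 1 / 2 ≤ Real.cos κ₁ := by nlinarith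
  have hre0 : 0 ≤ l.re := by rw [hre]; positivity
  have hre1 : l.re ≤ ‖l‖ * κ := by
    rw [hre]
    exact mul_le_mul_of_nonneg_left (hsin1.trans hκ₁1) hl0.le
  have him1 : ‖l‖ / 2 ≤ l.im := by
    rw [him]
    nlinarith
  have him2 : l.im ≤ ‖l‖ := by
    rw [him]
    nlinarith
  have hxq : 0 ≤ x ^ α := Real.rpow_nonneg hx α
  have hxl2 : x ^ α ≤ q * ‖l‖ := hxl.trans (mul_le_mul_of_nonneg_left him2 hq0.le)
  have hxl3 : x ^ α ≤ ‖l‖ := by nlinarith
  -- the energy direction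
  set ω : ℝ := π / 4 + ν with hω
  have hωe : exp ((ω : ℂ) * I) * e8 ^ 2 = exp ((ν : ℂ) * I) := by
    unfold e8
    rw [← Complex.exp_nat_mul, ← Complex.exp_add]
    congr 1
    rw [hω]
    push_cast
    ring
  have hQid : ∀ u : ℂ, (exp ((ω : ℂ) * I) * (e8 ^ 2 * (I * u - l))).re
      = ‖l‖ * Real.sin (ν - κ₁) - (exp ((ν : ℂ) * I) * u).im := by
    intro u
    have e1 : exp ((ω : ℂ) * I) * (e8 ^ 2 * (I * u - l))
        = I * (exp ((ν : ℂ) * I) * u) - exp ((ν : ℂ) * I) * l := by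
      rw [← mul_assoc, hωe]; ring
    rw [e1, Complex.sub_re, Complex.I_mul_re]
    have e2 : (exp ((ν : ℂ) * I) * l).re = -(‖l‖ * Real.sin (ν - κ₁)) := by
      rw [Complex.mul_re, Complex.exp_ofReal_mul_I_re, Complex.exp_ofReal_mul_I_im, hre, him,
        Real.sin_sub ν κ₁]
      ring
    rw [e2]
    ring
  have hc₁ : ∀ t : ℝ, 0 ≤ t → (1 - q) * Real.sin ν / 2 * ‖l‖ ≤
      (exp ((ω : ℂ) * I) * (e8 ^ 2 * (I * ((x : ℂ) + t * e8) ^ (α : ℂ) - l))).re := by
    intro t ht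
    rw [hQid]
    have h1 := anti_ray hα hα1 hx ht
    have h2 : Real.sin ν - 2 * κ ≤ Real.sin (ν - κ₁) := by
      rw [Real.sin_sub]
      have hcν : Real.cos ν ≤ 1 := Real.cos_le_one _
      have hcν0 : 0 ≤ Real.cos ν := Real.cos_nonneg_of_mem_Icc ⟨by linarith, by linarith⟩
      have b1 : Real.sin ν - κ ≤ Real.sin ν * Real.cos κ₁ := by nlinarith
      have b2 : Real.cos ν * Real.sin κ₁ ≤ κ := by nlinarith
      linarith
    have h3 : x ^ α * Real.sin ν ≤ q * ‖l‖ * Real.sin ν := mul_le_mul_of_nonneg_right hxl2 hsν.le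
    have h4 : ‖l‖ * (Real.sin ν - 2 * κ) ≤ ‖l‖ * Real.sin (ν - κ₁) :=
      mul_le_mul_of_nonneg_left h2 hl0.le
    have h5 : ‖l‖ * (2 * κ) ≤ ‖l‖ * ((1 - q) * Real.sin ν / 2) := by
      apply mul_le_mul_of_nonneg_left _ hl0.le
      rw [hκ]
      have := mul_pos hq' hsν
      linarith
    have h1' : (exp ((ν : ℂ) * I) * ((x : ℂ) + t * e8) ^ (α : ℂ)).im ≤ x ^ α * Real.sin ν := h1
    nlinarith
  have main := H α hα hα' F a b l e8 (-(I * e8 * kf α l x)) x ω ‖l‖ K' γ dir_e8 hx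
    ((le_max_right _ _).trans hl) hγ hdec ?_ hc₁ ?_ ?_ ?_ hY.choose_spec.choose_spec.choose_spec.1
  · refine ⟨main.1, ?_⟩
    have e1 : e8 * F.dy a b l x + -(I * e8 * kf α l x) * F.y a b l x
        = e8 * (F.dy a b l x - I * kf α l x * F.y a b l x) := by ring
    have h2 := main.2
    rw [e1, norm_mul, dir_e8.norm, one_mul] at h2
    exact h2
  · apply Real.cos_nonneg_of_mem_Icc
    constructor
    · rw [hω]; linarith
    · rw [hω]; linarith
  · rw [hcast]
    have := kf_sq α l x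
    calc (-(I * e8 * kf α l x)) ^ 2 = (I * I) * (e8 ^ 2 * kf α l x ^ 2) := by ring
      _ = e8 ^ 2 * (I * ((x ^ α : ℝ) : ℂ) - l) := by
        rw [this, Complex.I_mul_I]; ring
  · have e1 : (-(I * e8 * kf α l x)).re
        = Real.cos (π / 8) * (kf α l x).im - Real.sin (π / 8) * (kf α l x).re := by
      rw [mul_assoc, Complex.neg_re, Complex.I_mul_re, Complex.mul_im, e8_re, e8_im]
      ring
    rw [e1]
    have hS : (Real.sqrt m * Real.sqrt ‖l‖) ^ 2 = m * ‖l‖ := by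
      rw [mul_pow, Real.sq_sqrt hm0.le, Real.sq_sqrt hl0.le]
    have := im_ek (S := Real.sqrt m * Real.sqrt ‖l‖) (p := (kf α l x).re) (r := (kf α l x).im)
      (A := l.re) (Bq := l.im - x ^ α) (by positivity) (half_re_nonneg _) hre0 (kf_re α l x)
      (kf_im α l x) ?_ ?_
    · calc Real.sqrt m / 4 * Real.sqrt ‖l‖ = Real.sqrt m * Real.sqrt ‖l‖ / 4 := by ring
        _ ≤ _ := this
    · rw [hS]
      have : ‖l‖ * κ ≤ ‖l‖ * (m / 100) := mul_le_mul_of_nonneg_left hκ1 hl0.le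
      linarith
    · rw [hS]
      have h1 : m * ‖l‖ ≤ (1 - q) * l.im := by
        rw [hm]
        have := mul_le_mul_of_nonneg_left him1 hq'.le
        linarith
      linarith
  · rw [hcast]
    refine (norm_sub_le _ _).trans ?_
    rw [norm_mul, Complex.norm_I, one_mul, Complex.norm_real, Real.norm_of_nonneg hxq]
    linarith

end

end Pool.Agent.CRV
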