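import Pool.Agent.CRV.CS

/-!
# Module OUT: outside the closed first quadrant (from EN and DLY)
-/

set_option autoImplicit false

open MeasureTheory Complex Set Filter Topology
open scoped Real

namespace Pool.Agent.CRV

/-- Abstract half-line estimates: `|w(0)|² ≤ μ ∫|w|² + μ⁻¹ ∫|w'|²`. -/
theorem out_w0 (w dw : ℝ → ℂ) (K γ μ : ℝ) (hγ : 0 < γ) (hμ : 0 < μ)
    (hw : ContinuousOn w (Ici 0)) (hdw : ContinuousOn dw (Ici 0))
    (hder : ∀ t : ℝ, 0 < t → HasDerivAt w (dw t) t)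
    (hdec : ∀ t : ℝ, 0 ≤ t → ‖w t‖ ≤ K * Real.exp (-(γ * t)))
    (i1 : IntegrableOn (fun t => ‖dw t‖ ^ 2) (Ioi 0))
    (i2 : IntegrableOn (fun t => ‖w t‖ ^ 2) (Ioi 0)) :
    ‖w 0‖ ^ 2 ≤ μ * (∫ t in Ioi (0 : ℝ), ‖w t‖ ^ 2) + μ⁻¹ * ∫ t in Ioi (0 : ℝ), ‖dw t‖ ^ 2 := by
  have hpt : ∀ t, |2 * inner ℝ (w t) (dw t)| ≤ μ * ‖w t‖ ^ 2 + μ⁻¹ * ‖dw t‖ ^ 2 := by
    intro t
    have h1 : |inner ℝ (w t) (dw t)| ≤ ‖w t‖ * ‖dw t‖ := abs_real_inner_le_norm _ _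
    have h2 : 2 * (‖w t‖ * ‖dw t‖) ≤ μ * ‖w t‖ ^ 2 + μ⁻¹ * ‖dw t‖ ^ 2 := by
      have h3 : 0 ≤ μ⁻¹ * (μ * ‖w t‖ - ‖dw t‖) ^ 2 := by positivity
      have h4 : μ⁻¹ * (μ * ‖w t‖ - ‖dw t‖) ^ 2 =
          μ * ‖w t‖ ^ 2 - 2 * (‖w t‖ * ‖dw t‖) + μ⁻¹ * ‖dw t‖ ^ 2 := by
        field_simp
        ring
      linarith
    rw [abs_mul, abs_two]
    linarith
  have hint0 : IntegrableOn (fun t => μ * ‖w t‖ ^ 2 + μ⁻¹ * ‖dw t‖ ^ 2) (Ioi 0) :=
    (i2.const_mul μ).add (i1.const_mul μ⁻¹)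
  have hmeas : AEStronglyMeasurable (fun t => 2 * inner ℝ (w t) (dw t))
      (volume.restrict (Ioi (0 : ℝ))) := by
    refine ContinuousOn.aestronglyMeasurable ?_ measurableSet_Ioi
    exact continuousOn_const.mul ((hw.mono Ioi_subset_Ici_self).inner
      (hdw.mono Ioi_subset_Ici_self))
  have hint : IntegrableOn (fun t => 2 * inner ℝ (w t) (dw t)) (Ioi 0) := by
    refine Integrable.mono' hint0 hmeas (Eventually.of_forall fun t => ?_)
    rw [Real.norm_eq_abs]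
    exact hpt t
  have hlim : Tendsto (fun t => ‖w t‖ ^ 2) atTop (𝓝 0) := by
    have h1 : Tendsto (fun t : ℝ => K * Real.exp (-(γ * t))) atTop (𝓝 0) := by
      have h2 : Tendsto (fun t : ℝ => Real.exp (-(γ * t))) atTop (𝓝 0) :=
        Real.tendsto_exp_neg_atTop_nhds_zero.comp (tendsto_id.const_mul_atTop hγ)
      simpa using h2.const_mul K
    have h3 : Tendsto (fun t => ‖w t‖) atTop (𝓝 0) := by
      refine squeeze_zero' (Eventually.of_forall fun t => norm_nonneg _) ?_ h1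
      filter_upwards [eventually_ge_atTop 0] with t ht using hdec t ht
    simpa using h3.pow 2
  have hFTC := integral_Ioi_of_hasDerivAt_of_tendsto (a := (0 : ℝ)) (f := fun t => ‖w t‖ ^ 2)
    (f' := fun t => 2 * inner ℝ (w t) (dw t))
    ((hw.norm.pow 2) 0 self_mem_Ici) (fun t ht => (hder t ht).norm_sq) hint hlim
  rw [zero_sub] at hFTC
  have h5 : -(∫ t in Ioi (0 : ℝ), (μ * ‖w t‖ ^ 2 + μ⁻¹ * ‖dw t‖ ^ 2)) ≤
      ∫ t in Ioi (0 : ℝ), 2 * inner ℝ (w t) (dw t) := by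
    rw [← integral_neg]
    refine integral_mono hint0.neg hint (fun t => ?_)
    exact (abs_le.1 (hpt t)).1
  rw [integral_add (i2.const_mul μ) (i1.const_mul μ⁻¹), integral_const_mul,
    integral_const_mul] at h5
  linarith

/-- `|w'(0)|² ≤ (2/h) ∫|w'|² + 8 h M² ∫|w|²` for `|Q| ≤ 2M` on `[0,h]`. -/
theorem out_dw0 (Q w dw : ℝ → ℂ) (h M : ℝ) (hh : 0 < h) (hM : 0 < M)
    (hQc : ContinuousOn Q (Ici 0))
    (hw : ContinuousOn w (Ici 0)) (hdw : ContinuousOn dw (Ici 0))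
    (hder : ∀ t : ℝ, 0 < t → HasDerivAt dw (Q t * w t) t)
    (hQ : ∀ t ∈ Icc 0 h, ‖Q t‖ ≤ 2 * M)
    (i1 : IntegrableOn (fun t => ‖dw t‖ ^ 2) (Ioi 0))
    (i2 : IntegrableOn (fun t => ‖w t‖ ^ 2) (Ioi 0)) :
    ‖dw 0‖ ^ 2 ≤ 2 / h * (∫ t in Ioi (0 : ℝ), ‖dw t‖ ^ 2) +
      8 * h * M ^ 2 * ∫ t in Ioi (0 : ℝ), ‖w t‖ ^ 2 := by
  set D := ∫ t in Ioi (0 : ℝ), ‖dw t‖ ^ 2 with hD
  set N := ∫ t in Ioi (0 : ℝ), ‖w t‖ ^ 2 with hN
  have hD0 : 0 ≤ D := integral_nonneg fun t => by positivity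
  have hN0 : 0 ≤ N := integral_nonneg fun t => by positivity
  rcases eq_or_lt_of_le (norm_nonneg (dw 0)) with hb | hb
  · rw [← hb]
    have : 0 ≤ 2 / h * D + 8 * h * M ^ 2 * N := by positivity
    simpa using this
  set β := ‖dw 0‖ with hβ
  have hsub : Icc (0 : ℝ) h ⊆ Ici 0 := Icc_subset_Ici_self
  have hcg : ContinuousOn (fun t : ℝ => ((h - t : ℝ) : ℂ) * dw t) (Icc 0 h) := by
    refine ContinuousOn.mul ?_ (hdw.mono hsub)
    fun_prop
  have hcg' : ContinuousOn (fun t : ℝ => -dw t + ((h - t : ℝ) : ℂ) * (Q t * w t)) (Icc 0 h) := by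
    refine ((hdw.mono hsub).neg).add (ContinuousOn.mul ?_ ((hQc.mono hsub).mul (hw.mono hsub)))
    fun_prop
  have hFTC : ∫ t in (0 : ℝ)..h, (-dw t + ((h - t : ℝ) : ℂ) * (Q t * w t)) =
      ((h - h : ℝ) : ℂ) * dw h - ((h - 0 : ℝ) : ℂ) * dw 0 := by
    refine intervalIntegral.integral_eq_sub_of_hasDeriv_right
      (f := fun t : ℝ => ((h - t : ℝ) : ℂ) * dw t) ?_ ?_ ?_
    · rwa [uIcc_of_le hh.le]
    · intro t ht
      rw [min_eq_left hh.le, max_eq_right hh.le] at ht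
      have e1 : HasDerivAt (fun t : ℝ => ((h - t : ℝ) : ℂ)) (-1) t := by
        have : HasDerivAt (fun t : ℝ => h - t) (-1) t := by
          simpa using (hasDerivAt_id t).const_sub h
        simpa using this.ofReal_comp
      have e2 := e1.mul (hder t ht.1)
      have e3 : -1 * dw t + ((h - t : ℝ) : ℂ) * (Q t * w t) =
          -dw t + ((h - t : ℝ) : ℂ) * (Q t * w t) := by ring
      rw [e3] at e2
      exact e2.hasDerivWithinAt
    · exact hcg'.intervalIntegrable_of_Icc hh.le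
  have hkey : h * β ≤ ∫ t in (0 : ℝ)..h, (‖dw t‖ + 2 * h * M * ‖w t‖) := by
    have e1 : ‖∫ t in (0 : ℝ)..h, (-dw t + ((h - t : ℝ) : ℂ) * (Q t * w t))‖ = h * β := by
      rw [hFTC]
      simp only [sub_self, ofReal_zero, zero_mul, sub_zero, zero_sub, norm_neg, norm_mul]
      rw [norm_real, Real.norm_of_nonneg hh.le]
    rw [← e1]
    refine intervalIntegral.norm_integral_le_of_norm_le hh.le ?_ ?_
    · refine Eventually.of_forall fun t ht => ?_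
      have ht' : t ∈ Icc 0 h := ⟨ht.1.le, ht.2⟩
      refine (norm_add_le _ _).trans ?_
      rw [norm_neg, norm_mul, norm_mul, norm_real, Real.norm_of_nonneg (sub_nonneg.2 ht.2)]
      have e2 : (h - t) * (‖Q t‖ * ‖w t‖) ≤ h * (2 * M * ‖w t‖) := by
        refine mul_le_mul (by linarith [ht.1]) ?_ (by positivity) hh.le
        exact mul_le_mul_of_nonneg_right (hQ t ht') (norm_nonneg _)
      linarith
    · refine ContinuousOn.intervalIntegrable_of_Icc hh.le ?_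
      exact (hdw.mono hsub).norm.add (continuousOn_const.mul (hw.mono hsub).norm)
  have hset : ∀ g : ℝ → ℂ, ContinuousOn g (Ici 0) → IntegrableOn (fun t => ‖g t‖ ^ 2) (Ioi 0) →
      IntervalIntegrable (fun t => ‖g t‖ ^ 2) volume 0 h ∧
      ∫ t in (0 : ℝ)..h, ‖g t‖ ^ 2 ≤ ∫ t in Ioi (0 : ℝ), ‖g t‖ ^ 2 := by
    intro g hg hi
    refine ⟨ContinuousOn.intervalIntegrable_of_Icc hh.le ((hg.mono hsub).norm.pow 2), ?_⟩
    rw [intervalIntegral.integral_of_le hh.le]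
    refine setIntegral_mono_set hi (Eventually.of_forall fun t => by positivity) ?_
    exact (LE.le.eventuallyLE Ioc_subset_Ioi_self)
  obtain ⟨j1, j2⟩ := hset dw hdw i1
  obtain ⟨j3, j4⟩ := hset w hw i2
  -- AM-GM
  set σ := β / 2 with hσ
  set τ := β / (4 * h * M) with hτ
  have hσ0 : 0 < σ := by rw [hσ]; linarith
  have hτ0 : 0 < τ := by rw [hτ]; positivity
  have hkey2 : ∫ t in (0 : ℝ)..h, (‖dw t‖ + 2 * h * M * ‖w t‖) ≤
      ∫ t in (0 : ℝ)..h, ((σ / 2 + h * M * τ) + ((2 * σ)⁻¹ * ‖dw t‖ ^ 2 + h * M * τ⁻¹ * ‖w t‖ ^ 2)) := by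
    refine intervalIntegral.integral_mono_on hh.le ?_ ?_ (fun t _ => ?_)
    · refine ContinuousOn.intervalIntegrable_of_Icc hh.le ?_
      exact (hdw.mono hsub).norm.add (continuousOn_const.mul (hw.mono hsub).norm)
    · exact intervalIntegrable_const.add ((j1.const_mul _).add (j3.const_mul _))
    · have e1 : ‖dw t‖ ≤ σ / 2 + (2 * σ)⁻¹ * ‖dw t‖ ^ 2 := by
        have h3 : 0 ≤ (2 * σ)⁻¹ * (σ - ‖dw t‖) ^ 2 := by positivity
        have h4 : (2 * σ)⁻¹ * (σ - ‖dw t‖) ^ 2 =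
            σ / 2 - ‖dw t‖ + (2 * σ)⁻¹ * ‖dw t‖ ^ 2 := by
          field_simp
          ring
        linarith
      have e2 : 2 * ‖w t‖ ≤ τ + τ⁻¹ * ‖w t‖ ^ 2 := by
        have h3 : 0 ≤ τ⁻¹ * (τ - ‖w t‖) ^ 2 := by positivity
        have h4 : τ⁻¹ * (τ - ‖w t‖) ^ 2 = τ - 2 * ‖w t‖ + τ⁻¹ * ‖w t‖ ^ 2 := by
          field_simp
          ring
        linarith
      have e3 : h * M * (2 * ‖w t‖) ≤ h * M * (τ + τ⁻¹ * ‖w t‖ ^ 2) :=
        mul_le_mul_of_nonneg_left e2 (by positivity)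
      nlinarith [e1, e3]
  have hkey3 : ∫ t in (0 : ℝ)..h, ((σ / 2 + h * M * τ) + ((2 * σ)⁻¹ * ‖dw t‖ ^ 2 +
      h * M * τ⁻¹ * ‖w t‖ ^ 2)) ≤ h * (σ / 2 + h * M * τ) + ((2 * σ)⁻¹ * D + h * M * τ⁻¹ * N) := by
    rw [intervalIntegral.integral_add intervalIntegrable_const ((j1.const_mul _).add (j3.const_mul _)),
      intervalIntegral.integral_add (j1.const_mul _) (j3.const_mul _),
      intervalIntegral.integral_const_mul, intervalIntegral.integral_const_mul,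
      intervalIntegral.integral_const, sub_zero, smul_eq_mul]
    gcongr
  have hfin : h * β ≤ h * (σ / 2 + h * M * τ) + ((2 * σ)⁻¹ * D + h * M * τ⁻¹ * N) :=
    hkey.trans (hkey2.trans hkey3)
  have e1 : h * (σ / 2 + h * M * τ) = h * β / 2 := by
    rw [hσ, hτ]
    field_simp
    ring
  have e2 : (2 * σ)⁻¹ = β⁻¹ := by rw [hσ]; congr 1; ring
  have e3 : h * M * τ⁻¹ = 4 * h ^ 2 * M ^ 2 * β⁻¹ := by
    rw [hτ, inv_div]
    field_simp
  rw [e1, e2, e3] at hfin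
  have e4 : h * β / 2 ≤ β⁻¹ * (D + 4 * h ^ 2 * M ^ 2 * N) := by
    calc h * β / 2 ≤ β⁻¹ * D + 4 * h ^ 2 * M ^ 2 * β⁻¹ * N := by linarith
      _ = β⁻¹ * (D + 4 * h ^ 2 * M ^ 2 * N) := by ring
  have e5 : h * β ^ 2 / 2 ≤ D + 4 * h ^ 2 * M ^ 2 * N := by
    have := mul_le_mul_of_nonneg_left e4 hb.le
    calc h * β ^ 2 / 2 = β * (h * β / 2) := by ring
      _ ≤ β * (β⁻¹ * (D + 4 * h ^ 2 * M ^ 2 * N)) := this
      _ = D + 4 * h ^ 2 * M ^ 2 * N := by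
        rw [← mul_assoc, mul_inv_cancel₀ hb.ne', one_mul]
  have e6 : 2 / h * D + 8 * h * M ^ 2 * N = 2 / h * (D + 4 * h ^ 2 * M ^ 2 * N) := by
    field_simp
    ring
  rw [e6]
  calc β ^ 2 = 2 / h * (h * β ^ 2 / 2) := by field_simp
    _ ≤ 2 / h * (D + 4 * h ^ 2 * M ^ 2 * N) := mul_le_mul_of_nonneg_left e5 (by positivity)

theorem rpow_le_one_add' {α t : ℝ} (hα : 0 < α) (hα' : α ≤ 1) (ht : 0 ≤ t) : t ^ α ≤ 1 + t := by
  rcases le_total t 1 with h | h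
  · have := Real.rpow_le_one ht h hα.le
    linarith
  · have := Real.rpow_le_rpow_of_exponent_le h hα'
    rw [Real.rpow_one] at this
    linarith

theorem out_proof (hEN : Stmt_EN) (hDLY : Stmt_DLY) : Stmt_OUT := by
  intro α hα hα' F δ hδ
  have hα1 : α ≤ 1 := by linarith
  refine ⟨((1 + 2 / δ) + (2 + 10 / δ)) / δ, 1, by positivity, le_rfl, ?_⟩
  intro l hl hquad a b hY s
  have hL0 : 0 < ‖l‖ := by linarith
  obtain ⟨K', γ, hγ, hdec⟩ := hDLY α hα hα' F a b l hY 0 le_rfl 0 (by linarith [Real.pi_pos]) le_rfl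
  have hdec' : ∀ t : ℝ, 0 ≤ t → ‖F.y a b l t‖ ≤ K' * Real.exp (-(γ * t)) ∧
      ‖F.dy a b l t‖ ≤ K' * Real.exp (-(γ * t)) := by
    intro t ht
    have := hdec t ht
    simpa using this
  set w : ℝ → ℂ := fun t => F.y a b l t with hw
  set dw : ℝ → ℂ := fun t => F.dy a b l t with hdw
  set Q : ℝ → ℂ := fun t => I * ((t ^ α : ℝ) : ℂ) - l with hQ
  have hwc : ContinuousOn w (Ici 0) := F.continuousOn_y a b l
  have hdwc : ContinuousOn dw (Ici 0) := F.continuousOn_dy a b l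
  have hrc : Continuous (fun t : ℝ => t ^ α) := Real.continuous_rpow_const hα.le
  have hQc : Continuous Q := by
    rw [hQ]
    exact (continuous_const.mul (continuous_ofReal.comp hrc)).sub continuous_const
  have hd1 : ∀ t : ℝ, 0 < t → HasDerivAt w (dw t) t := fun t ht => F.hasDerivAt_y_real a b l ht
  have hd2 : ∀ t : ℝ, 0 < t → HasDerivAt dw (Q t * w t) t :=
    fun t ht => F.hasDerivAt_dy_real a b l ht
  have hQn : ∀ t : ℝ, 0 ≤ t → ‖Q t‖ ≤ t ^ α + ‖l‖ := by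
    intro t ht
    refine (norm_sub_le _ _).trans ?_
    rw [norm_mul, norm_I, one_mul, norm_real, Real.norm_of_nonneg (Real.rpow_nonneg ht _)]
  have hQB : ∀ t : ℝ, 0 ≤ t → ‖Q t‖ ≤ (1 + ‖l‖) * (1 + t) := by
    intro t ht
    have h1 := hQn t ht
    have h2 := rpow_le_one_add' hα hα1 ht
    nlinarith [norm_nonneg l]
  obtain ⟨i1, i2, i3, hid⟩ := hEN Q w dw (1 + ‖l‖) K' γ hγ hQc.continuousOn hwc hdwc hd1 hd2 hQB
    (fun t ht => (hdec' t ht).1) (fun t ht => (hdec' t ht).2)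
  have hw0 : w 0 = a := by simp [hw]
  have hdw0 : dw 0 = b := by simp [hdw]
  rw [hw0, hdw0] at hid
  set N := ∫ t in Ioi (0 : ℝ), ‖w t‖ ^ 2 with hN
  set D := ∫ t in Ioi (0 : ℝ), ‖dw t‖ ^ 2 with hD
  have hN0 : 0 ≤ N := integral_nonneg fun t => by positivity
  have hD0 : 0 ≤ D := integral_nonneg fun t => by positivity
  set P := ‖a‖ * ‖b‖ with hP
  have hP0 : 0 ≤ P := by positivity
  -- real part
  have hre : (∫ t in Ioi (0 : ℝ), Q t * ((‖w t‖ ^ 2 : ℝ) : ℂ)).re = -l.re * N := by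
    have e1 : (∫ t in Ioi (0 : ℝ), Q t * ((‖w t‖ ^ 2 : ℝ) : ℂ)).re =
        ∫ t in Ioi (0 : ℝ), (Q t * ((‖w t‖ ^ 2 : ℝ) : ℂ)).re := (integral_re i3).symm
    rw [e1, hN, ← integral_const_mul]
    refine integral_congr_ae (Eventually.of_forall fun t => ?_)
    change (Q t * ((‖w t‖ ^ 2 : ℝ) : ℂ)).re = -l.re * ‖w t‖ ^ 2
    rw [re_mul_ofReal]
    simp [hQ]
  have him : -l.im * N ≤ (∫ t in Ioi (0 : ℝ), Q t * ((‖w t‖ ^ 2 : ℝ) : ℂ)).im := by
    have e1 : (∫ t in Ioi (0 : ℝ), Q t * ((‖w t‖ ^ 2 : ℝ) : ℂ)).im =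
        ∫ t in Ioi (0 : ℝ), (Q t * ((‖w t‖ ^ 2 : ℝ) : ℂ)).im := (integral_im i3).symm
    rw [e1, hN, ← integral_const_mul]
    refine setIntegral_mono_on (i2.const_mul _) i3.im measurableSet_Ioi (fun t ht => ?_)
    have ht0 : (0 : ℝ) < t := ht
    have e2 : (Q t * ((‖w t‖ ^ 2 : ℝ) : ℂ)).im = (t ^ α - l.im) * ‖w t‖ ^ 2 := by
      rw [im_mul_ofReal]
      simp [hQ]
    change _ ≤ (Q t * ((‖w t‖ ^ 2 : ℝ) : ℂ)).im
    rw [e2]
    have := mul_nonneg (Real.rpow_nonneg ht0.le α) (sq_nonneg ‖w t‖)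
    nlinarith
  have hbnd : ‖-(b * (starRingEnd ℂ) a)‖ = P := by
    rw [norm_neg, norm_mul, RCLike.norm_conj, hP, mul_comm]
  have hidre : D - l.re * N ≤ P := by
    have h1 := congrArg Complex.re hid
    rw [add_re, ofReal_re, hre] at h1
    have h2 := re_le_norm (-(b * (starRingEnd ℂ) a))
    rw [hbnd] at h2
    linarith
  have hidim : -l.im * N ≤ P := by
    have h1 := congrArg Complex.im hid
    rw [add_im, ofReal_im, zero_add] at h1
    have h2 := (abs_le.1 (abs_im_le_norm (-(b * (starRingEnd ℂ) a)))).2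
    rw [hbnd] at h2
    linarith
  have hNP : δ * ‖l‖ * N ≤ P := by
    rcases hquad with h | h
    · have h1 := mul_le_mul_of_nonneg_right h hN0
      nlinarith
    · have h1 := mul_le_mul_of_nonneg_right h hN0
      nlinarith
  have hNP' : ‖l‖ * N ≤ P / δ := by
    rw [le_div_iff₀ hδ]; linarith
  have hDP : D ≤ (1 + 1 / δ) * P := by
    have h1 : l.re * N ≤ ‖l‖ * N := mul_le_mul_of_nonneg_right (re_le_norm l) hN0
    have h2 : (1 + 1 / δ) * P = P + P / δ := by ring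
    rw [h2]; linarith
  set r := Real.sqrt ‖l‖ with hr
  have hr1 : 1 ≤ r := by rw [hr]; exact Real.one_le_sqrt.2 hl
  have hr0 : 0 < r := by linarith
  have hrr : r * r = ‖l‖ := Real.mul_self_sqrt hL0.le
  have ha2 : ‖a‖ ^ 2 ≤ (1 + 2 / δ) * P / r := by
    have h1 := out_w0 w dw K' γ r hγ hr0 hwc hdwc hd1 (fun t ht => (hdec' t ht).1) i1 i2
    rw [hw0] at h1
    rw [le_div_iff₀ hr0]
    calc ‖a‖ ^ 2 * r ≤ (r * N + r⁻¹ * D) * r := mul_le_mul_of_nonneg_right h1 hr0.le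
      _ = ‖l‖ * N + D := by
        rw [← hrr]
        field_simp
      _ ≤ P / δ + (1 + 1 / δ) * P := add_le_add hNP' hDP
      _ = (1 + 2 / δ) * P := by ring
  have hb2 : ‖b‖ ^ 2 ≤ (2 + 10 / δ) * P * r := by
    have h1 := out_dw0 Q w dw r⁻¹ ‖l‖ (inv_pos.2 hr0) hL0 hQc.continuousOn hwc hdwc hd2 (by
      intro t ht
      have h2 : t ≤ 1 := ht.2.trans (inv_le_one_of_one_le₀ hr1)
      have h3 := hQn t ht.1
      have h4 := Real.rpow_le_one ht.1 h2 hα.le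
      linarith) i1 i2
    rw [hdw0] at h1
    calc ‖b‖ ^ 2 ≤ 2 / r⁻¹ * D + 8 * r⁻¹ * ‖l‖ ^ 2 * N := h1
      _ = r * (2 * D + 8 * (‖l‖ * N)) := by
        have h5 : r⁻¹ * ‖l‖ ^ 2 = r * ‖l‖ := by
          rw [← hrr]; field_simp
        have h6 : 2 / r⁻¹ = 2 * r := by rw [div_inv_eq_mul]
        rw [h6, show 8 * r⁻¹ * ‖l‖ ^ 2 * N = 8 * (r⁻¹ * ‖l‖ ^ 2) * N by ring, h5]
        ring
      _ ≤ r * (2 * ((1 + 1 / δ) * P) + 8 * (P / δ)) := by gcongr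
      _ = (2 + 10 / δ) * P * r := by ring
  obtain ⟨_, _, _, hne, _⟩ := hY
  have hNL : N ≤ P / (δ * ‖l‖) := by
    rw [le_div_iff₀ (by positivity)]; linarith
  change bdr s a b ≠ 0 ∧ N ≤ ((1 + 2 / δ) + (2 + 10 / δ)) / δ / r * ‖bdr s a b‖ ^ 2
  cases s
  · -- Neumann
    have hb0 : b ≠ 0 := by
      intro h0
      rw [hP, h0, norm_zero, mul_zero, mul_zero, zero_div] at ha2
      have : a = 0 := by
        have h3 : ‖a‖ ^ 2 = 0 := le_antisymm ha2 (sq_nonneg _)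
        simpa using h3
      rcases hne with h | h
      · exact h this
      · exact h h0
    have hbp : 0 < ‖b‖ := norm_pos_iff.2 hb0
    have ha : ‖a‖ ≤ (1 + 2 / δ) * ‖b‖ := by
      rcases eq_or_lt_of_le (norm_nonneg a) with h | h
      · rw [← h]; positivity
      · have h1 : ‖a‖ * ‖a‖ ≤ ‖a‖ * ((1 + 2 / δ) * ‖b‖) := by
          calc ‖a‖ * ‖a‖ = ‖a‖ ^ 2 := by ring
            _ ≤ (1 + 2 / δ) * P / r := ha2
            _ ≤ (1 + 2 / δ) * P := div_le_self (by positivity) hr1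
            _ = ‖a‖ * ((1 + 2 / δ) * ‖b‖) := by rw [hP]; ring
        exact le_of_mul_le_mul_left h1 h
    refine ⟨by simpa [bdr] using hb0, ?_⟩
    have hbd : bdr false a b = b := rfl
    rw [hbd]
    refine hNL.trans ?_
    rw [div_le_iff₀ (by positivity)]
    have h1 : P ≤ (1 + 2 / δ) * ‖b‖ ^ 2 := by
      rw [hP]; nlinarith
    have h2 : ((1 + 2 / δ) + (2 + 10 / δ)) / δ / r * ‖b‖ ^ 2 * (δ * ‖l‖) =
        ((1 + 2 / δ) + (2 + 10 / δ)) * ‖b‖ ^ 2 * r := by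
      rw [← hrr]; field_simp
    rw [h2]
    calc P ≤ (1 + 2 / δ) * ‖b‖ ^ 2 := h1
      _ ≤ ((1 + 2 / δ) + (2 + 10 / δ)) * ‖b‖ ^ 2 := by
        refine mul_le_mul_of_nonneg_right ?_ (sq_nonneg _)
        have : 0 ≤ 2 + 10 / δ := by positivity
        linarith
      _ ≤ ((1 + 2 / δ) + (2 + 10 / δ)) * ‖b‖ ^ 2 * r :=
        le_mul_of_one_le_right (by positivity) hr1
  · -- Dirichlet
    have ha0 : a ≠ 0 := by
      intro h0
      rw [hP, h0, norm_zero, zero_mul, mul_zero, zero_mul] at hb2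
      have : b = 0 := by
        have h3 : ‖b‖ ^ 2 = 0 := le_antisymm hb2 (sq_nonneg _)
        simpa using h3
      rcases hne with h | h
      · exact h h0
      · exact h this
    have hap : 0 < ‖a‖ := norm_pos_iff.2 ha0
    have hb : ‖b‖ ≤ (2 + 10 / δ) * r * ‖a‖ := by
      rcases eq_or_lt_of_le (norm_nonneg b) with h | h
      · rw [← h]; positivity
      · have h1 : ‖b‖ * ‖b‖ ≤ ‖b‖ * ((2 + 10 / δ) * r * ‖a‖) := by
          calc ‖b‖ * ‖b‖ = ‖b‖ ^ 2 := by ring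
            _ ≤ (2 + 10 / δ) * P * r := hb2
            _ = ‖b‖ * ((2 + 10 / δ) * r * ‖a‖) := by rw [hP]; ring
        exact le_of_mul_le_mul_left h1 h
    refine ⟨by simpa [bdr] using ha0, ?_⟩
    have hbd : bdr true a b = a := rfl
    rw [hbd]
    refine hNL.trans ?_
    rw [div_le_iff₀ (by positivity)]
    have h1 : P ≤ (2 + 10 / δ) * r * ‖a‖ ^ 2 := by
      rw [hP]
      calc ‖a‖ * ‖b‖ ≤ ‖a‖ * ((2 + 10 / δ) * r * ‖a‖) :=
            mul_le_mul_of_nonneg_left hb hap.le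
        _ = (2 + 10 / δ) * r * ‖a‖ ^ 2 := by ring
    have h2 : ((1 + 2 / δ) + (2 + 10 / δ)) / δ / r * ‖a‖ ^ 2 * (δ * ‖l‖) =
        ((1 + 2 / δ) + (2 + 10 / δ)) * r * ‖a‖ ^ 2 := by
      rw [← hrr]; field_simp
    rw [h2]
    refine h1.trans ?_
    refine mul_le_mul_of_nonneg_right ?_ (sq_nonneg _)
    refine mul_le_mul_of_nonneg_right ?_ hr0.le
    have : 0 ≤ 1 + 2 / δ := by positivity
    linarith

end Pool.Agent.CRV
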