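import Pool.Agent.CRV.Util23

set_option autoImplicit false

open MeasureTheory Complex Set Filter Topology
open scoped Real

namespace Pool.Agent.CRV

noncomputable section

open U23

theorem oute (hOUT : Stmt_OUT) (hORD : Stmt_ORD) (hY : Stmt_Y) : Stmt_OUTE := by
  intro α h0 h1 F s f E hf hE δ hδ ε hε
  obtain ⟨K, R, hK, hR1, hout⟩ := hOUT α h0 h1 F δ hδ
  obtain ⟨K₂, hord⟩ := hORD α h0 h1 F
  set A : ℝ := Real.sqrt (∫ x in Ioi (0 : ℝ), ‖f x‖ ^ 2) with hA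
  have hA0 : 0 ≤ A := Real.sqrt_nonneg _
  -- choose R' with A * sqrt (K / sqrt R') ≤ ε
  have hlim : Tendsto (fun r : ℝ => A * Real.sqrt (K / Real.sqrt r)) atTop (𝓝 0) := by
    have e1 : Tendsto (fun r : ℝ => Real.sqrt r) atTop atTop := Real.tendsto_sqrt_atTop
    have e2 : Tendsto (fun r : ℝ => K / Real.sqrt r) atTop (𝓝 0) :=
      e1.const_div_atTop K
    have e3 : Tendsto (fun r : ℝ => Real.sqrt (K / Real.sqrt r)) atTop (𝓝 (Real.sqrt 0)) :=
      (Real.continuous_sqrt.tendsto 0).comp e2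
    have e4 := e3.const_mul A
    simpa using e4
  obtain ⟨R', hR'⟩ := (hlim.eventually (ge_mem_nhds hε)).exists_forall_of_atTop
  refine ⟨max R R', fun l hl hreg => ?_⟩
  have hlR : R ≤ ‖l‖ := (le_max_left _ _).trans hl
  have hlR' : R' ≤ ‖l‖ := (le_max_right _ _).trans hl
  obtain ⟨a, b, hab⟩ := exists_isY hY h0 h1 F l
  obtain ⟨hne, hb⟩ := hout l hlR hreg a b hab s
  obtain ⟨hint, -⟩ := hord a b l hab
  have hEl := hE.2 l a b hab
  have hcs := cs f (fun x : ℝ => F.y a b l x) hf (meas_y F a b l) hint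
  rw [← hEl, norm_mul] at hcs
  have hpos : 0 < ‖bdr s a b‖ := norm_pos_iff.2 hne
  have h3 : Real.sqrt (∫ x in Ioi (0 : ℝ), ‖F.y a b l x‖ ^ 2) ≤
      Real.sqrt (K / Real.sqrt ‖l‖) * ‖bdr s a b‖ := by
    refine (Real.sqrt_le_sqrt hb).trans (le_of_eq ?_)
    rw [Real.sqrt_mul (by positivity), Real.sqrt_sq (norm_nonneg _)]
  have h4 : ‖E l‖ * ‖bdr s a b‖ ≤ (A * Real.sqrt (K / Real.sqrt ‖l‖)) * ‖bdr s a b‖ := by
    refine hcs.trans ?_
    rw [mul_assoc]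
    exact mul_le_mul_of_nonneg_left h3 hA0
  have h5 := le_of_mul_le_mul_right h4 hpos
  exact h5.trans (hR' ‖l‖ hlR')

end

end Pool.Agent.CRV
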