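import Pool.Agent.CRV.CS

set_option autoImplicit false

open MeasureTheory Complex Set Filter Topology
open scoped Real

namespace Pool.Agent.CRV

theorem pair (hEN : Stmt_EN) : Stmt_PAIR := by
  intro c₁ c₂ hc₁ hc₂
  set K1 : ℝ := 2 / (c₁ * c₂) with hK1
  have hK1pos : 0 < K1 := by positivity
  refine ⟨2 * K1 + 2, by positivity, 1 + 1 / c₂ ^ 2, by positivity, ?_⟩
  intro Q w dw B K' γ ω L κ hL hγ hQc hwc hdwc hw hdw hQ hwb hdwb hω hcoer hκ hκre hQ0 hQd hne
  have hL1 : 1 ≤ L := by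
    have : (0 : ℝ) < 1 / c₂ ^ 2 := by positivity
    linarith
  have hL0 : 0 < L := by linarith
  have hLc : 1 / c₂ ^ 2 ≤ L := by linarith
  obtain ⟨i1, i2, i3, heq⟩ := hEN Q w dw B K' γ hγ hQc hwc hdwc hw hdw hQ hwb hdwb
  set S : ℝ := ∫ t in Ioi (0 : ℝ), ‖w t‖ ^ 2 with hS
  have hS0 : 0 ≤ S := integral_nonneg fun t => by positivity
  -- the coercivity estimate
  have hco : c₁ * L * S ≤ ‖dw 0‖ * ‖w 0‖ := by
    have hre := congrArg (fun z : ℂ => (exp (ω * I) * z).re) heq
    simp only [mul_add, add_re] at hre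
    have h1 : (exp (ω * I) * ((∫ t in Ioi (0 : ℝ), ‖dw t‖ ^ 2 : ℝ) : ℂ)).re =
        Real.cos ω * ∫ t in Ioi (0 : ℝ), ‖dw t‖ ^ 2 := by
      rw [Complex.re_mul_ofReal, Complex.exp_ofReal_mul_I_re]
    have h2 : (exp (ω * I) * ∫ t in Ioi (0 : ℝ), Q t * ((‖w t‖ ^ 2 : ℝ) : ℂ)).re =
        ∫ t in Ioi (0 : ℝ), (exp (ω * I) * Q t).re * ‖w t‖ ^ 2 := by
      rw [← integral_const_mul]
      have h3 := integral_re (μ := volume.restrict (Ioi (0 : ℝ))) (𝕜 := ℂ)
        (f := fun t => exp (ω * I) * (Q t * ((‖w t‖ ^ 2 : ℝ) : ℂ))) (i3.const_mul _)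
      simp only [RCLike.re_to_complex] at h3
      rw [← h3]
      congr 1
      funext t
      rw [← mul_assoc, Complex.re_mul_ofReal]
    have h4 : c₁ * L * S ≤ ∫ t in Ioi (0 : ℝ), (exp (ω * I) * Q t).re * ‖w t‖ ^ 2 := by
      rw [hS, ← integral_const_mul]
      apply setIntegral_mono_on (i2.const_mul _) _ measurableSet_Ioi
      · intro t ht
        exact mul_le_mul_of_nonneg_right (hcoer t (le_of_lt ht)) (by positivity)
      · have h5 := (i3.const_mul (exp (ω * I))).re
        refine h5.congr (Eventually.of_forall fun t => ?_)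
        simp only [RCLike.re_to_complex]
        rw [← mul_assoc, Complex.re_mul_ofReal]
    have h6 : 0 ≤ Real.cos ω * ∫ t in Ioi (0 : ℝ), ‖dw t‖ ^ 2 :=
      mul_nonneg hω (integral_nonneg fun t => by positivity)
    have h7 : (exp (ω * I) * -(dw 0 * (starRingEnd ℂ) (w 0))).re ≤ ‖dw 0‖ * ‖w 0‖ := by
      refine (Complex.re_le_norm _).trans (le_of_eq ?_)
      rw [norm_mul, Complex.norm_exp_ofReal_mul_I, one_mul, norm_neg, norm_mul, RCLike.norm_conj]
    rw [h1, h2] at hre
    linarith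
  -- the estimate of `dw 0 + κ w 0`
  set r : ℝ := κ.re with hr
  have hr1 : 1 ≤ r := by
    have h1 : 1 ≤ c₂ * Real.sqrt L := by
      have h2 : Real.sqrt (1 / c₂ ^ 2) ≤ Real.sqrt L := Real.sqrt_le_sqrt hLc
      rw [Real.sqrt_div zero_le_one, Real.sqrt_one, Real.sqrt_sq hc₂.le] at h2
      rw [div_le_iff₀ hc₂] at h2
      linarith
    linarith
  have hcs : ‖dw 0 + κ * w 0‖ ^ 2 ≤ 2 / r * S := by
    set f : ℝ → ℂ := fun t => (Q t - Q 0) * exp (-(κ * t)) with hf
    have hfn : ∀ t : ℝ, 0 ≤ t → ‖f t‖ ^ 2 ≤ 2 * Real.exp (-((2 * r - 1) * t)) := by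
      intro t ht
      have h1 : ‖f t‖ ≤ (1 + t) * Real.exp (-(r * t)) := by
        rw [hf]
        simp only
        rw [norm_mul, Complex.norm_exp]
        have : (-(κ * (t : ℂ))).re = -(r * t) := by
          rw [neg_re, Complex.re_mul_ofReal]
        rw [this]
        exact mul_le_mul_of_nonneg_right (hQd t ht) (Real.exp_pos _).le
      have h2 : (1 + t) ^ 2 ≤ 2 * Real.exp t := by
        have := Real.quadratic_le_exp_of_nonneg ht
        nlinarith
      calc ‖f t‖ ^ 2 ≤ ((1 + t) * Real.exp (-(r * t))) ^ 2 :=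
            pow_le_pow_left₀ (norm_nonneg _) h1 2
        _ = (1 + t) ^ 2 * (Real.exp (-(r * t)) * Real.exp (-(r * t))) := by ring
        _ ≤ 2 * Real.exp t * (Real.exp (-(r * t)) * Real.exp (-(r * t))) :=
            mul_le_mul_of_nonneg_right h2 (by positivity)
        _ = 2 * Real.exp (-((2 * r - 1) * t)) := by
            rw [mul_assoc, ← Real.exp_add, ← Real.exp_add]
            congr 2
            ring
    have hfc : ContinuousOn f (Ici 0) := by
      rw [hf]
      fun_prop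
    have hfm : AEStronglyMeasurable f (volume.restrict (Ioi (0 : ℝ))) :=
      (hfc.mono Ioi_subset_Ici_self).aestronglyMeasurable measurableSet_Ioi
    have h2r : 0 < 2 * r - 1 := by linarith
    have hexp : IntegrableOn (fun t : ℝ => Real.exp (-((2 * r - 1) * t))) (Ioi 0) := by
      have := exp_neg_integrableOn_Ioi 0 h2r
      refine this.congr_fun (fun t _ => ?_) measurableSet_Ioi
      simp only [neg_mul]
    have hfi : IntegrableOn (fun t => ‖f t‖ ^ 2) (Ioi 0) := by
      refine Integrable.mono' (hexp.const_mul 2) (hfm.norm.pow 2) ?_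
      rw [ae_restrict_iff' measurableSet_Ioi]
      filter_upwards with t ht
      have ht' : (0 : ℝ) ≤ t := le_of_lt ht
      rw [norm_pow, norm_norm]
      exact hfn t ht'
    have hfI : ∫ t in Ioi (0 : ℝ), ‖f t‖ ^ 2 ≤ 2 / r := by
      have h1 : ∫ t in Ioi (0 : ℝ), ‖f t‖ ^ 2 ≤
          ∫ t in Ioi (0 : ℝ), 2 * Real.exp (-((2 * r - 1) * t)) :=
        setIntegral_mono_on hfi (hexp.const_mul 2) measurableSet_Ioi
          (fun t ht => hfn t (le_of_lt ht))
      have h2 : ∫ t in Ioi (0 : ℝ), 2 * Real.exp (-((2 * r - 1) * t)) = 2 / (2 * r - 1) := by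
        rw [integral_const_mul]
        have h3 := integral_exp_mul_Ioi (a := -(2 * r - 1)) (by linarith) 0
        have h4 : ∫ t in Ioi (0 : ℝ), Real.exp (-((2 * r - 1) * t)) =
            ∫ t in Ioi (0 : ℝ), Real.exp (-(2 * r - 1) * t) := by
          congr 1
          funext t
          rw [neg_mul]
        rw [h4, h3, mul_zero, Real.exp_zero]
        field_simp
      rw [h2] at h1
      refine h1.trans ?_
      apply div_le_div_of_nonneg_left (by norm_num) (by linarith) (by linarith)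
    have hfL : MemLp f 2 (volume.restrict (Ioi (0 : ℝ))) :=
      (memLp_two_iff_integrable_sq_norm hfm).2 hfi
    have hwm : AEStronglyMeasurable w (volume.restrict (Ioi (0 : ℝ))) :=
      (hwc.mono Ioi_subset_Ici_self).aestronglyMeasurable measurableSet_Ioi
    have hwL : MemLp w 2 (volume.restrict (Ioi (0 : ℝ))) :=
      (memLp_two_iff_integrable_sq_norm hwm).2 i2
    have hint : IntegrableOn (fun t => f t * w t) (Ioi 0) := hwL.integrable_mul hfL |>.congr
      (Eventually.of_forall fun t => by simp [mul_comm])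
    have hftc := integral_Ioi_of_hasDerivAt_of_tendsto (a := (0 : ℝ))
      (f := fun t : ℝ => (dw t + κ * w t) * exp (-(κ * t)))
      (f' := fun t => f t * w t) (m := 0)
      (by
        apply ContinuousWithinAt.mul
        · exact (hdwc 0 (mem_Ici.2 le_rfl)).add
            (continuousWithinAt_const.mul (hwc 0 (mem_Ici.2 le_rfl)))
        · exact Continuous.continuousWithinAt (by fun_prop))
      (by
        intro t ht
        have h1 : HasDerivAt (fun t : ℝ => dw t + κ * w t) (Q t * w t + κ * dw t) t :=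
          (hdw t ht).add ((hw t ht).const_mul κ)
        have h2 : HasDerivAt (fun t : ℝ => exp (-(κ * t))) (exp (-(κ * t)) * (-κ)) t := by
          have h3 : HasDerivAt (fun t : ℝ => (-(κ * (t : ℂ)))) (-κ) t := by
            have := (Complex.ofRealCLM.hasDerivAt (x := t)).const_mul κ
            simp only [ofRealCLM_apply, ofReal_one, mul_one] at this
            exact this.fun_neg
          exact h3.cexp
        have h4 := h1.mul h2
        have e : f t * w t = (Q t * w t + κ * dw t) * exp (-(κ * t)) +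
            (dw t + κ * w t) * (exp (-(κ * t)) * (-κ)) := by
          rw [hf]
          simp only
          rw [← hκ]
          ring
        rw [e]
        exact h4)
      hint
      (by
        rw [tendsto_zero_iff_norm_tendsto_zero]
        have hlim : Tendsto (fun t : ℝ => (K' + ‖κ‖ * K') * Real.exp (-(γ * t))) atTop (𝓝 0) := by
          rw [show (0 : ℝ) = (K' + ‖κ‖ * K') * 0 by ring]
          apply Tendsto.const_mul
          apply Real.tendsto_exp_atBot.comp
          apply tendsto_neg_atTop_atBot.comp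
          exact tendsto_id.const_mul_atTop hγ
        refine squeeze_zero' (Eventually.of_forall fun t => norm_nonneg _) ?_ hlim
        filter_upwards [eventually_ge_atTop (0 : ℝ)] with t ht
        rw [norm_mul, Complex.norm_exp]
        have h1 : (-(κ * (t : ℂ))).re = -(r * t) := by
          rw [neg_re, Complex.re_mul_ofReal]
        have h2 : Real.exp (-(κ * (t : ℂ))).re ≤ 1 := by
          rw [h1, Real.exp_le_one_iff]
          have : 0 ≤ r * t := by positivity
          linarith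
        calc ‖dw t + κ * w t‖ * Real.exp (-(κ * (t : ℂ))).re ≤ ‖dw t + κ * w t‖ * 1 :=
              mul_le_mul_of_nonneg_left h2 (norm_nonneg _)
          _ = ‖dw t + κ * w t‖ := mul_one _
          _ ≤ ‖dw t‖ + ‖κ‖ * ‖w t‖ := by
              refine (norm_add_le _ _).trans ?_
              rw [norm_mul]
          _ ≤ K' * Real.exp (-(γ * t)) + ‖κ‖ * (K' * Real.exp (-(γ * t))) :=
              add_le_add (hdwb t ht) (mul_le_mul_of_nonneg_left (hwb t ht) (norm_nonneg _))
          _ = _ := by ring)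
    have h0 : ‖dw 0 + κ * w 0‖ = ‖∫ t in Ioi (0 : ℝ), f t * w t‖ := by
      rw [hftc, zero_sub, norm_neg]
      simp
    have hcsb := cs_bound f w hfL hwL
    rw [h0]
    calc ‖∫ t in Ioi (0 : ℝ), f t * w t‖ ^ 2 ≤
        (Real.sqrt (∫ t in Ioi (0 : ℝ), ‖f t‖ ^ 2) * Real.sqrt (∫ t in Ioi (0 : ℝ), ‖w t‖ ^ 2)) ^ 2 :=
          pow_le_pow_left₀ (norm_nonneg _) hcsb 2
      _ = (∫ t in Ioi (0 : ℝ), ‖f t‖ ^ 2) * S := by
          rw [mul_pow, Real.sq_sqrt (integral_nonneg fun t => by positivity),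
            Real.sq_sqrt (integral_nonneg fun t => by positivity)]
      _ ≤ 2 / r * S := mul_le_mul_of_nonneg_right hfI hS0
  -- conclusion
  set a : ℝ := ‖dw 0 + κ * w 0‖ with ha
  have ha0 : 0 ≤ a := norm_nonneg _
  have hsL : 0 < Real.sqrt L := Real.sqrt_pos.2 hL0
  have hsL1 : 1 ≤ Real.sqrt L := by
    rw [← Real.sqrt_one]
    exact Real.sqrt_le_sqrt hL1
  have hsLsq : Real.sqrt L * Real.sqrt L = L := Real.mul_self_sqrt hL0.le
  have hkey : a ^ 2 ≤ K1 / (L * Real.sqrt L) * (‖dw 0‖ * ‖w 0‖) := by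
    have h1 : S ≤ (‖dw 0‖ * ‖w 0‖) / (c₁ * L) := by
      rw [le_div_iff₀ (by positivity)]
      linarith
    have h2 : 2 / r ≤ 2 / (c₂ * Real.sqrt L) :=
      div_le_div_of_nonneg_left (by norm_num) (by positivity) hκre
    calc a ^ 2 ≤ 2 / r * S := hcs
      _ ≤ 2 / (c₂ * Real.sqrt L) * ((‖dw 0‖ * ‖w 0‖) / (c₁ * L)) :=
          mul_le_mul h2 h1 hS0 (by positivity)
      _ = K1 / (L * Real.sqrt L) * (‖dw 0‖ * ‖w 0‖) := by
          rw [hK1]
          field_simp
  have hκn : ‖κ‖ ≤ 2 * Real.sqrt L := by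
    have h1 : ‖κ‖ ^ 2 ≤ 3 * L := by
      rw [← norm_pow, hκ]
      exact hQ0
    have h2 : ‖κ‖ ^ 2 ≤ (2 * Real.sqrt L) ^ 2 := by
      rw [mul_pow, Real.sq_sqrt hL0.le]
      linarith
    exact (pow_le_pow_iff_left₀ (norm_nonneg _) (by positivity) two_ne_zero).1 h2
  have hdw0 : ‖dw 0‖ ≤ 2 * Real.sqrt L * ‖w 0‖ + a := by
    have h1 : dw 0 = (dw 0 + κ * w 0) - κ * w 0 := by ring
    rw [h1]
    refine (norm_sub_le _ _).trans ?_
    rw [norm_mul]
    have := mul_le_mul_of_nonneg_right hκn (norm_nonneg (w 0))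
    linarith
  have hw0 : w 0 ≠ 0 := by
    intro h0
    rw [h0, norm_zero, mul_zero, mul_zero] at hkey
    have : a = 0 := by nlinarith
    rw [ha, h0, mul_zero, add_zero, norm_eq_zero] at this
    rcases hne with h | h
    · exact h h0
    · exact h this
  refine ⟨hw0, ?_⟩
  have hw0' : 0 < ‖w 0‖ := norm_pos_iff.2 hw0
  by_contra hcon
  push Not at hcon
  -- y = a √L / |w 0|
  set y : ℝ := a * Real.sqrt L / ‖w 0‖ with hy
  have hay : a = y * ‖w 0‖ / Real.sqrt L := by
    rw [hy]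
    field_simp
  have hyK : 2 * K1 + 2 < y := by
    rw [hay] at hcon
    have h1 : (2 * K1 + 2) / Real.sqrt L * ‖w 0‖ < y / Real.sqrt L * ‖w 0‖ := by
      calc (2 * K1 + 2) / Real.sqrt L * ‖w 0‖ < y * ‖w 0‖ / Real.sqrt L := hcon
        _ = y / Real.sqrt L * ‖w 0‖ := by ring
    have h2 := lt_of_mul_lt_mul_right h1 hw0'.le
    rwa [div_lt_div_iff_of_pos_right hsL] at h2
  have h3 : a ^ 2 ≤ K1 / (L * Real.sqrt L) * ((2 * Real.sqrt L * ‖w 0‖ + a) * ‖w 0‖) := by
    refine hkey.trans ?_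
    apply mul_le_mul_of_nonneg_left _ (by positivity)
    exact mul_le_mul_of_nonneg_right hdw0 (norm_nonneg _)
  have h4 : y ^ 2 ≤ 2 * K1 + K1 * y / L := by
    have h5 : a ^ 2 * (L / ‖w 0‖ ^ 2) ≤
        K1 / (L * Real.sqrt L) * ((2 * Real.sqrt L * ‖w 0‖ + a) * ‖w 0‖) * (L / ‖w 0‖ ^ 2) :=
      mul_le_mul_of_nonneg_right h3 (by positivity)
    have h6 : a ^ 2 * (L / ‖w 0‖ ^ 2) = y ^ 2 := by
      rw [hy, div_pow, mul_pow, Real.sq_sqrt hL0.le]
      ring
    have h7 : K1 / (L * Real.sqrt L) * ((2 * Real.sqrt L * ‖w 0‖ + a) * ‖w 0‖) * (L / ‖w 0‖ ^ 2) =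
        2 * K1 + K1 * y / L := by
      rw [hay]
      have h8 : Real.sqrt L ^ 2 = L := Real.sq_sqrt hL0.le
      field_simp
      rw [h8]
    rw [h6, h7] at h5
    exact h5
  have hy0 : 0 < y := by linarith
  have h9 : K1 * y / L ≤ K1 * y := by
    apply div_le_self (by positivity) hL1
  nlinarith

end Pool.Agent.CRV
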