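import Pool.Agent.CRV.Stmts

set_option autoImplicit false

open MeasureTheory Complex Set Filter Topology
open scoped Real

namespace Pool.Agent.CRV

theorem rl : Stmt_RL := by
  intro g η₁ η₂ K γ M hγ hdiff hbound
  -- continuity of `M`
  have hK : Tendsto (fun n : ℕ => K * Real.exp (-(γ * Real.exp n))) atTop (𝓝 0) := by
    rw [show (0 : ℝ) = K * 0 by ring]
    apply Tendsto.const_mul
    apply Real.tendsto_exp_atBot.comp
    apply tendsto_neg_atTop_atBot.comp
    apply Tendsto.const_mul_atTop hγ
    exact Real.tendsto_exp_atTop.comp tendsto_natCast_atTop_atTop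
  have hK' : Tendsto (fun n : ℕ => |K| * Real.exp (-(γ * Real.exp n))) atTop (𝓝 0) := by
    rw [show (0 : ℝ) = |K| * 0 by ring]
    apply Tendsto.const_mul
    apply Real.tendsto_exp_atBot.comp
    apply tendsto_neg_atTop_atBot.comp
    apply Tendsto.const_mul_atTop hγ
    exact Real.tendsto_exp_atTop.comp tendsto_natCast_atTop_atTop
  have hpt : ∀ z : ℂ, ∀ n : ℕ, exp (z + n) = ((Real.exp (z.re + n) : ℝ) : ℂ) * exp (z.im * I) := by
    intro z n
    rw [Complex.ofReal_exp, ← Complex.exp_add]
    congr 1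
    push_cast
    nth_rewrite 1 [← Complex.re_add_im z]
    ring
  have h1 : ∀ z : ℂ, 0 ≤ z.re → ∀ n : ℕ, 1 ≤ Real.exp (z.re + n) := by
    intro z hz n
    apply Real.one_le_exp
    positivity
  have hmain : ∀ z : ℂ, 0 ≤ z.re → z.im ∈ Icc η₁ η₂ → ∀ n : ℕ,
      ‖g (exp (z + n)) - M z.im‖ ≤ |K| * Real.exp (-(γ * Real.exp n)) := by
    intro z hz hz' n
    rw [hpt]
    refine (hbound _ hz' _ (h1 z hz n)).trans ?_
    refine mul_le_mul (le_abs_self K) ?_ (Real.exp_pos _).le (abs_nonneg _)
    rw [Real.exp_le_exp, neg_le_neg_iff]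
    apply mul_le_mul_of_nonneg_left _ hγ.le
    rw [Real.exp_le_exp]
    linarith
  have hcont : ContinuousOn M (Icc η₁ η₂) := by
    have hu : TendstoUniformlyOn (fun (n : ℕ) (η : ℝ) => g (exp ((η : ℂ) * I + n))) M atTop
        (Icc η₁ η₂) := by
      rw [Metric.tendstoUniformlyOn_iff]
      intro ε hε
      filter_upwards [hK'.eventually (gt_mem_nhds hε)] with n hn η hη
      rw [dist_comm, dist_eq_norm]
      have := hmain ((η : ℂ) * I) (by simp) (by simpa using hη) n
      simp only [mul_im, ofReal_re, I_im, mul_one, ofReal_im, I_re, mul_zero, add_zero] at this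
      exact this.trans_lt hn
    refine hu.continuousOn (Eventually.frequently (Eventually.of_forall ?_))
    intro n η hη
    have hd : DifferentiableAt ℂ g (exp ((η : ℂ) * I + n)) := by
      rw [hpt]
      simp only [mul_im, ofReal_re, I_im, mul_one, ofReal_im, I_re, mul_zero, add_zero]
      exact hdiff η hη _ (h1 _ (by simp) n)
    have hc : ContinuousAt (fun η : ℝ => exp ((η : ℂ) * I + n)) η := by fun_prop
    exact (ContinuousAt.comp (f := fun η : ℝ => exp ((η : ℂ) * I + n)) (g := g)
      hd.continuousAt hc).continuousWithinAt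
  -- constant on the open interval
  have hopen : ∀ η ∈ Ioo η₁ η₂, ∀ η' ∈ Ioo η₁ η₂, M η = M η' := by
    set U : Set ℂ := {z : ℂ | 0 < z.re ∧ z.im ∈ Ioo η₁ η₂} with hU
    have hUo : IsOpen U := by
      have e : U = re ⁻¹' (Ioi 0) ∩ im ⁻¹' (Ioo η₁ η₂) := by
        ext z; simp [hU]
      rw [e]
      exact (isOpen_Ioi.preimage continuous_re).inter (isOpen_Ioo.preimage continuous_im)
    have hUc : Convex ℝ U := by
      have e : U = re ⁻¹' (Ioi 0) ∩ im ⁻¹' (Ioo η₁ η₂) := by
        ext z; simp [hU]
      rw [e]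
      exact ((convex_Ioi 0).linear_preimage Complex.reLm).inter
        ((convex_Ioo η₁ η₂).linear_preimage Complex.imLm)
    have hu : TendstoLocallyUniformlyOn (fun (n : ℕ) (z : ℂ) => g (exp (z + n)))
        (fun z => M z.im) atTop U := by
      apply TendstoUniformlyOn.tendstoLocallyUniformlyOn
      rw [Metric.tendstoUniformlyOn_iff]
      intro ε hε
      filter_upwards [hK'.eventually (gt_mem_nhds hε)] with n hn z hz
      rw [dist_comm, dist_eq_norm]
      exact (hmain z hz.1.le (Ioo_subset_Icc_self hz.2) n).trans_lt hn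
    have hd : DifferentiableOn ℂ (fun z : ℂ => M z.im) U := by
      refine hu.differentiableOn (Eventually.of_forall ?_) hUo
      intro n z hz
      have hd : DifferentiableAt ℂ g (exp (z + n)) := by
        rw [hpt]
        exact hdiff _ (Ioo_subset_Icc_self hz.2) _ (h1 _ hz.1.le n)
      exact (DifferentiableAt.comp z (f := fun z : ℂ => exp (z + n)) (g := g) hd
        (by fun_prop)).differentiableWithinAt
    have hd0 : U.EqOn (deriv (fun z : ℂ => M z.im)) 0 := by
      intro z hz
      have hda : HasDerivAt (fun z : ℂ => M z.im) (deriv (fun z : ℂ => M z.im) z) z :=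
        (hd.differentiableAt (hUo.mem_nhds hz)).hasDerivAt
      have h2 : HasDerivAt (fun s : ℝ => (fun z : ℂ => M z.im) (z + (s : ℂ)))
          (deriv (fun z : ℂ => M z.im) z) 0 := by
        have h3 : HasDerivAt (fun s : ℝ => z + (s : ℂ)) 1 0 := by
          simpa using (Complex.ofRealCLM.hasDerivAt (x := (0 : ℝ))).const_add z
        have h4 : HasDerivAt (fun z : ℂ => M z.im) (deriv (fun z : ℂ => M z.im) z)
            (z + ((0 : ℝ) : ℂ)) := by simpa using hda
        have h6 := HasDerivAt.comp_of_eq (x := (0 : ℝ)) (y := z + ((0 : ℝ) : ℂ)) h4 h3 rfl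
        rw [mul_one] at h6
        exact h6
      have h5 : HasDerivAt (fun s : ℝ => (fun z : ℂ => M z.im) (z + (s : ℂ))) 0 0 := by
        have : (fun s : ℝ => (fun z : ℂ => M z.im) (z + (s : ℂ))) = fun _ => M z.im := by
          funext s; simp
        rw [this]
        exact hasDerivAt_const _ _
      simpa using h2.unique h5
    intro η hη η' hη'
    have := hUo.is_const_of_deriv_eq_zero hUc.isPreconnected hd hd0
      (x := 1 + η * I) (y := 1 + η' * I) (by simpa [hU] using hη) (by simpa [hU] using hη')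
    simpa using this
  intro η hη η' hη'
  rcases eq_or_lt_of_le (hη.1.trans hη.2) with heq | hlt
  · have : η = η' := by
      have a1 := hη.1; have a2 := hη.2; have a3 := hη'.1; have a4 := hη'.2
      linarith
    rw [this]
  · have hmid : (η₁ + η₂) / 2 ∈ Ioo η₁ η₂ := ⟨by linarith, by linarith⟩
    have hE : EqOn M (fun _ => M ((η₁ + η₂) / 2)) (Ioo η₁ η₂) := fun x hx => hopen x hx _ hmid
    have hE' : EqOn M (fun _ => M ((η₁ + η₂) / 2)) (Icc η₁ η₂) := by
      refine hE.of_subset_closure hcont continuousOn_const Ioo_subset_Icc_self ?_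
      rw [closure_Ioo hlt.ne]
    rw [hE' hη, hE' hη']

end Pool.Agent.CRV
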