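import Pool.Agent.CRV.Stmts

set_option autoImplicit false

open MeasureTheory Complex Set Filter Topology
open scoped Real

namespace Pool.Agent.CRV.StepAux

noncomputable section

lemma ofReal_mem_Dom {x : ℝ} (hx : 0 ≤ x) : (x : ℂ) ∈ Dom := by
  rcases hx.eq_or_lt with h | h
  · left; simp [← h]
  · right; simp [Complex.mem_slitPlane_iff, h]

lemma cont_y {α : ℝ} (F : FS α) (a b l : ℂ) :
    ContinuousOn (fun x : ℝ => F.y a b l x) (Ici 0) := by
  have h1 : ContinuousOn (fun x : ℝ => ((x : ℂ), l)) (Ici (0:ℝ)) := by fun_prop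
  have hm : MapsTo (fun x : ℝ => ((x : ℂ), l)) (Ici (0:ℝ)) (Dom ×ˢ univ) := by
    intro x hx
    exact ⟨ofReal_mem_Dom hx, mem_univ _⟩
  have hC := F.cC.comp h1 hm
  have hS := F.cS.comp h1 hm
  unfold FS.y
  exact (continuousOn_const.mul hC).add (continuousOn_const.mul hS)

lemma cont_mP {α : ℝ} (F : FS α) (Mp : ℂ → ℂ) (s : Bool) (l : ℂ) :
    ContinuousOn (fun x : ℝ => mP F Mp s l x) (Ici 0) := by
  unfold mP
  exact (cont_y F _ _ _).div_const _

/-- Cauchy-Schwarz on an interval. -/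
lemma cs_interval (f g : ℝ → ℂ) (hf : L2f f) (a b : ℝ) (ha : 0 ≤ a) (hab : a ≤ b)
    (hg : ContinuousOn g (Icc a b)) :
    ‖∫ x in a..b, f x * g x‖ ≤
      Real.sqrt (∫ x in Ioi (0:ℝ), ‖f x‖ ^ 2) * Real.sqrt (∫ x in a..b, ‖g x‖ ^ 2) := by
  have hsub : Ioc a b ⊆ Ioi (0:ℝ) := fun x hx => lt_of_le_of_lt ha hx.1
  have hf' : MemLp f 2 (volume.restrict (Ioc a b)) :=
    hf.mono_measure (Measure.restrict_mono hsub le_rfl)
  have hg' : MemLp g 2 (volume.restrict (Ioc a b)) := by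
    obtain ⟨C, hC⟩ := isCompact_Icc.exists_bound_of_continuousOn hg
    have hmeas : AEStronglyMeasurable g (volume.restrict (Ioc a b)) :=
      (hg.mono Ioc_subset_Icc_self).aestronglyMeasurable measurableSet_Ioc
    refine MemLp.of_bound hmeas C ?_
    rw [ae_restrict_iff' measurableSet_Ioc]
    exact Eventually.of_forall fun x hx => hC x (Ioc_subset_Icc_self hx)
  have h1 : ‖∫ x in a..b, f x * g x‖ ≤ ∫ x in Ioc a b, ‖f x‖ * ‖g x‖ := by
    rw [intervalIntegral.integral_of_le hab]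
    calc ‖∫ x in Ioc a b, f x * g x‖ ≤ ∫ x in Ioc a b, ‖f x * g x‖ := norm_integral_le_integral_norm _
      _ = ∫ x in Ioc a b, ‖f x‖ * ‖g x‖ := by simp
  have h2 := integral_mul_norm_le_Lp_mul_Lq (μ := volume.restrict (Ioc a b)) (p := 2) (q := 2)
    (f := f) (g := g) (by constructor <;> norm_num) (by simpa using hf') (by simpa using hg')
  have h3 : ∫ x in Ioc a b, ‖f x‖ ^ 2 ≤ ∫ x in Ioi (0:ℝ), ‖f x‖ ^ 2 := by
    apply setIntegral_mono_set
    · exact hf.integrable_norm_pow (by norm_num)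
    · exact Eventually.of_forall fun x => by positivity
    · exact hsub.eventuallyLE
  have e1 : (∫ x in Ioc a b, ‖f x‖ ^ (2:ℝ)) ^ (1 / 2 : ℝ) = Real.sqrt (∫ x in Ioc a b, ‖f x‖ ^ 2) := by
    rw [Real.sqrt_eq_rpow]; simp
  have e2 : (∫ x in Ioc a b, ‖g x‖ ^ (2:ℝ)) ^ (1 / 2 : ℝ) = Real.sqrt (∫ x in a..b, ‖g x‖ ^ 2) := by
    rw [intervalIntegral.integral_of_le hab, Real.sqrt_eq_rpow]; simp
  rw [e1, e2] at h2
  refine h1.trans (h2.trans ?_)
  exact mul_le_mul_of_nonneg_right (Real.sqrt_le_sqrt h3) (Real.sqrt_nonneg _)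

lemma intervalIntegrable_f_mul (f g : ℝ → ℂ) (hf : L2f f) (a b : ℝ) (ha : 0 ≤ a) (hb : 0 ≤ b)
    (hg : ContinuousOn g (Ici 0)) : IntervalIntegrable (fun x => f x * g x) volume a b := by
  rw [intervalIntegrable_iff]
  have hsub : uIoc a b ⊆ Ioi (0:ℝ) := by
    intro x hx
    exact lt_of_le_of_lt (le_min ha hb) hx.1
  have hf' : MemLp f 2 (volume.restrict (uIoc a b)) :=
    hf.mono_measure (Measure.restrict_mono hsub le_rfl)
  have hsub2 : uIoc a b ⊆ uIcc a b := uIoc_subset_uIcc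
  have hsub3 : uIcc a b ⊆ Ici (0:ℝ) := by
    intro x hx
    exact le_trans (le_min ha hb) hx.1
  obtain ⟨C, hC⟩ := isCompact_uIcc.exists_bound_of_continuousOn (hg.mono hsub3)
  have hmeas : AEStronglyMeasurable g (volume.restrict (uIoc a b)) :=
    (hg.mono (hsub2.trans hsub3)).aestronglyMeasurable measurableSet_uIoc
  have hfi : IntegrableOn f (uIoc a b) := by
    have : IsFiniteMeasure (volume.restrict (uIoc a b)) := by
      refine ⟨?_⟩
      rw [Measure.restrict_apply_univ, uIoc, Real.volume_Ioc]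
      exact ENNReal.ofReal_lt_top
    exact (hf'.mono_exponent (by norm_num : (1:ENNReal) ≤ 2)).integrable le_rfl
  refine Integrable.mul_bdd (c := C) hfi hmeas ?_
  rw [ae_restrict_iff' measurableSet_uIoc]
  exact Eventually.of_forall fun x hx => hC x (hsub2 hx)

/-! ### elementary facts on `exp` -/

lemma exp_im (z : ℂ) : (exp z).im = Real.exp z.re * Real.sin z.im := Complex.exp_im z
lemma exp_re (z : ℂ) : (exp z).re = Real.exp z.re * Real.cos z.im := Complex.exp_re z

lemma exp_mem_Q1 {z : ℂ} (h0 : 0 < z.im) (h1 : z.im < π / 2) : exp z ∈ Q1 := by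
  refine ⟨?_, ?_⟩
  · rw [exp_re]
    exact mul_pos (Real.exp_pos _) (Real.cos_pos_of_mem_Ioo ⟨by linarith, h1⟩)
  · rw [exp_im]
    exact mul_pos (Real.exp_pos _) (Real.sin_pos_of_pos_of_lt_pi h0 (by linarith [Real.pi_pos]))

lemma norm_exp' (z : ℂ) : ‖exp z‖ = Real.exp z.re := Complex.norm_exp z

lemma arg_exp' {z : ℂ} (h0 : 0 < z.im) (h1 : z.im < π / 2) : arg (exp z) = z.im := by
  rw [Complex.arg_exp]
  exact (toIocMod_eq_self _).2 ⟨by linarith [Real.pi_pos], by linarith [Real.pi_pos]⟩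

lemma x1_exp {α : ℝ} {z : ℂ} (h0 : 0 < z.im) (h1 : z.im < π / 2) :
    x1 α (exp z) = Real.exp (z.re / α) * Real.sin z.im ^ (1 / α) := by
  have hs : 0 < Real.sin z.im := Real.sin_pos_of_pos_of_lt_pi h0 (by linarith [Real.pi_pos])
  unfold x1
  rw [exp_im, Real.mul_rpow (Real.exp_pos _).le hs.le, ← Real.exp_mul]
  congr 2
  ring

/-- `|a^p - b^p| ≤ p |a - b|` on `[0,1]`, `p ≥ 1`. -/
lemma rpow_lip {p a b : ℝ} (hp : 1 ≤ p) (ha : a ∈ Icc (0:ℝ) 1) (hb : b ∈ Icc (0:ℝ) 1) :
    |a ^ p - b ^ p| ≤ p * |a - b| := by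
  have h := Convex.norm_image_sub_le_of_norm_hasDerivWithin_le (𝕜 := ℝ) (f := fun x : ℝ => x ^ p)
    (f' := fun x => p * x ^ (p - 1)) (s := Icc (0:ℝ) 1) (C := p) (x := b) (y := a)
    (fun x _ => (Real.hasDerivAt_rpow_const (Or.inr hp)).hasDerivWithinAt) ?_ (convex_Icc 0 1) hb ha
  · simpa [Real.norm_eq_abs] using h
  · intro x hx
    have h1 : 0 ≤ x ^ (p - 1) := Real.rpow_nonneg hx.1 _
    have h2 : x ^ (p - 1) ≤ 1 := Real.rpow_le_one hx.1 hx.2 (by linarith)
    rw [Real.norm_eq_abs, abs_of_nonneg (by positivity)]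
    nlinarith

lemma x1_diff {α κ : ℝ} (hα : 0 < α) (hα1 : α ≤ 1) {z z₀ : ℂ} (h0 : 0 < z.im) (h1 : z.im < π / 2)
    (h0' : 0 < z₀.im) (h1' : z₀.im < π / 2) (hz : ‖z - z₀‖ ≤ κ) :
    |x1 α (exp z₀) - x1 α (exp z)| ≤
      Real.exp (z.re / α) * ((Real.exp (κ / α) - 1) + κ / α) := by
  have hp : 1 ≤ 1 / α := by rw [le_div_iff₀ hα]; linarith
  have hre : |z.re - z₀.re| ≤ κ := by
    have := Complex.abs_re_le_norm (z - z₀)
    rw [Complex.sub_re] at this
    exact this.trans hz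
  have him : |z.im - z₀.im| ≤ κ := by
    have := Complex.abs_im_le_norm (z - z₀)
    rw [Complex.sub_im] at this
    exact this.trans hz
  rw [x1_exp h0 h1, x1_exp h0' h1']
  have hs : 0 < Real.sin z.im := Real.sin_pos_of_pos_of_lt_pi h0 (by linarith [Real.pi_pos])
  have hs' : 0 < Real.sin z₀.im := Real.sin_pos_of_pos_of_lt_pi h0' (by linarith [Real.pi_pos])
  have e : Real.exp (z₀.re / α) * Real.sin z₀.im ^ (1 / α) - Real.exp (z.re / α) * Real.sin z.im ^ (1 / α)
      = Real.exp (z.re / α) * ((Real.exp ((z₀.re - z.re) / α) - 1) * Real.sin z₀.im ^ (1 / α)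
        + (Real.sin z₀.im ^ (1 / α) - Real.sin z.im ^ (1 / α))) := by
    have : Real.exp (z₀.re / α) = Real.exp (z.re / α) * Real.exp ((z₀.re - z.re) / α) := by
      rw [← Real.exp_add]; congr 1; ring
    rw [this]; ring
  rw [e, abs_mul, abs_of_pos (Real.exp_pos _)]
  refine mul_le_mul_of_nonneg_left ?_ (Real.exp_pos _).le
  have hsin : Real.sin z₀.im ^ (1 / α) ≤ 1 :=
    Real.rpow_le_one hs'.le (Real.sin_le_one _) (by positivity)
  have hsin0 : 0 ≤ Real.sin z₀.im ^ (1 / α) := Real.rpow_nonneg hs'.le _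
  have hκ : |(z₀.re - z.re) / α| ≤ κ / α := by
    rw [abs_div, abs_of_pos hα, abs_sub_comm]
    exact div_le_div_of_nonneg_right hre hα.le
  have hexp : |Real.exp ((z₀.re - z.re) / α) - 1| ≤ Real.exp (κ / α) - 1 := by
    set u := (z₀.re - z.re) / α
    rw [abs_le]
    constructor
    · have h1 : Real.exp (-(κ / α)) ≤ Real.exp u := Real.exp_le_exp.2 (by linarith [(abs_le.1 hκ).1])
      have h2 : 2 ≤ Real.exp (-(κ / α)) + Real.exp (κ / α) := by
        have := Real.add_one_le_exp (κ / α)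
        have := Real.add_one_le_exp (-(κ / α))
        linarith
      linarith
    · have h1 : Real.exp u ≤ Real.exp (κ / α) := Real.exp_le_exp.2 (by linarith [(abs_le.1 hκ).2])
      linarith
  have hlip : |Real.sin z₀.im ^ (1 / α) - Real.sin z.im ^ (1 / α)| ≤ κ / α := by
    have h2 := rpow_lip hp ⟨hs'.le, Real.sin_le_one z₀.im⟩ ⟨hs.le, Real.sin_le_one z.im⟩
    have h3 : |Real.sin z₀.im - Real.sin z.im| ≤ κ := by
      have := Real.abs_sin_sub_sin_le z₀.im z.im
      rw [abs_sub_comm z₀.im] at this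
      exact this.trans him
    calc _ ≤ 1 / α * |Real.sin z₀.im - Real.sin z.im| := h2
      _ ≤ 1 / α * κ := mul_le_mul_of_nonneg_left h3 (by positivity)
      _ = κ / α := by ring
  calc _ ≤ |(Real.exp ((z₀.re - z.re) / α) - 1) * Real.sin z₀.im ^ (1 / α)|
        + |Real.sin z₀.im ^ (1 / α) - Real.sin z.im ^ (1 / α)| := abs_add_le _ _
    _ ≤ (Real.exp (κ / α) - 1) + κ / α := by
        refine add_le_add ?_ hlip
        rw [abs_mul, abs_of_nonneg hsin0]
        calc _ ≤ |Real.exp ((z₀.re - z.re) / α) - 1| * 1 :=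
              mul_le_mul_of_nonneg_left hsin (abs_nonneg _)
          _ ≤ _ := by linarith

/-- the sinusoid as real part -/
def vv (ρ : ℝ) (w : ℂ) (ψ : ℝ) : ℝ := (w * exp ((ρ * ψ : ℝ) * I)).re

lemma continuous_vv (ρ : ℝ) (w : ℂ) : Continuous (vv ρ w) := by
  unfold vv
  fun_prop

lemma norm_exp_neg_w (ρ : ℝ) (w z : ℂ) :
    ‖exp (-(w * exp (ρ * z)))‖ = Real.exp (-(vv ρ w z.im * Real.exp (ρ * z.re))) := by
  rw [Complex.norm_exp]
  congr 1
  have : exp (ρ * z) = (Real.exp (ρ * z.re) : ℂ) * exp ((ρ * z.im : ℝ) * I) := by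
    rw [Complex.ofReal_exp, ← Complex.exp_add]
    congr 1
    apply Complex.ext <;> simp
  rw [this, Complex.neg_re]
  unfold vv
  have h2 : w * ((Real.exp (ρ * z.re) : ℂ) * exp ((ρ * z.im : ℝ) * I))
      = (Real.exp (ρ * z.re) : ℂ) * (w * exp ((ρ * z.im : ℝ) * I)) := by ring
  rw [h2, Complex.re_ofReal_mul]
  ring

lemma vv_formula (ρ T A e φt ψm ψ : ℝ) :
    vv ρ ((-(T : ℂ) + A * I) * exp (-(ρ * φt : ℝ) * I) + e * exp (-(ρ * ψm : ℝ) * I)) ψ
      = -T * Real.cos (ρ * (ψ - φt)) - A * Real.sin (ρ * (ψ - φt)) + e * Real.cos (ρ * (ψ - ψm)) := by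
  unfold vv
  rw [add_mul, mul_assoc, mul_assoc, ← Complex.exp_add, ← Complex.exp_add]
  have e1 : (-(ρ * φt : ℝ) * I + (ρ * ψ : ℝ) * I : ℂ) = ((ρ * (ψ - φt) : ℝ) : ℂ) * I := by
    push_cast; ring
  have e2 : (-(ρ * ψm : ℝ) * I + (ρ * ψ : ℝ) * I : ℂ) = ((ρ * (ψ - ψm) : ℝ) : ℂ) * I := by
    push_cast; ring
  rw [e1, e2]
  simp only [Complex.add_re, Complex.mul_re, Complex.exp_ofReal_mul_I_re, Complex.exp_ofReal_mul_I_im,
    Complex.neg_re, Complex.ofReal_re, Complex.ofReal_im, Complex.neg_im, Complex.add_im,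
    Complex.mul_im, Complex.I_re, Complex.I_im]
  ring

/-- Cauchy-Schwarz with a sup bound. -/
lemma cs_sup (f g : ℝ → ℂ) (hf : L2f f) (a b M : ℝ) (ha : 0 ≤ a) (hb : 0 ≤ b) (hM : 0 ≤ M)
    (hg : ContinuousOn g (Ici 0)) (hgM : ∀ t ∈ uIcc a b, ‖g t‖ ≤ M) :
    ‖∫ x in a..b, f x * g x‖ ≤
      Real.sqrt (∫ x in Ioi (0:ℝ), ‖f x‖ ^ 2) * (M * Real.sqrt |b - a|) := by
  wlog hab : a ≤ b generalizing a b
  · have := this b a hb ha (by rwa [uIcc_comm]) (le_of_not_ge hab)
    rw [intervalIntegral.integral_symm, norm_neg, abs_sub_comm]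
    exact this
  rw [uIcc_of_le hab] at hgM
  refine (cs_interval f g hf a b ha hab (hg.mono fun x hx => le_trans ha hx.1)).trans ?_
  refine mul_le_mul_of_nonneg_left ?_ (Real.sqrt_nonneg _)
  have h1 : ∫ x in a..b, ‖g x‖ ^ 2 ≤ M ^ 2 * |b - a| := by
    have := intervalIntegral.norm_integral_le_of_norm_le_const (f := fun x => ‖g x‖ ^ 2) (a := a)
      (b := b) (C := M ^ 2) ?_
    · exact (le_abs_self _).trans (by simpa [Real.norm_eq_abs] using this)
    · intro x hx
      rw [uIoc_of_le hab] at hx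
      have := hgM x ⟨hx.1.le, hx.2⟩
      rw [Real.norm_eq_abs, abs_of_nonneg (by positivity)]
      exact pow_le_pow_left₀ (norm_nonneg _) this 2
  calc Real.sqrt (∫ x in a..b, ‖g x‖ ^ 2) ≤ Real.sqrt (M ^ 2 * |b - a|) := Real.sqrt_le_sqrt h1
    _ = M * Real.sqrt |b - a| := by
      rw [Real.sqrt_mul (by positivity), Real.sqrt_sq hM]

lemma x1_nonneg {α : ℝ} {l : ℂ} (hl : 0 < l.im) : 0 ≤ x1 α l := Real.rpow_nonneg hl.le _

lemma x1_rpow {α : ℝ} (hα : 0 < α) {l : ℂ} (hl : 0 < l.im) : x1 α l ^ α = l.im := by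
  unfold x1
  rw [← Real.rpow_mul hl.le]
  have : 1 / α * α = 1 := by field_simp
  rw [this, Real.rpow_one]

lemma local_diff {α : ℝ} (hα : 0 < α) (hα' : α ≤ 2 / 3) (hTSC : Stmt_TSC) (hTG3 : Stmt_TG3)
    (F : FS α) (Mp : ℂ → ℂ) (s : Bool) (f : ℝ → ℂ) (hf : L2f f) (E : ℂ → ℂ) (κ K : ℝ)
    (hκ2 : Real.exp κ ≤ 2) {z z₀ : ℂ} (h0 : 0 < z.im) (h1 : z.im < π / 2)
    (h0' : 0 < z₀.im) (h1' : z₀.im < π / 2) (hz : ‖z - z₀‖ ≤ κ)
    (hm : ∀ x : ℝ, 0 ≤ x → x ^ α ≤ 2 * ‖exp z‖ →
      ‖mP F Mp s (exp z) x‖ ≤ Real.exp (-If α (exp z) x + K * ‖exp z‖ ^ (rho α - 1))) :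
    ‖Dx F Mp s f E (exp z) (x1 α (exp z₀)) - Dx F Mp s f E (exp z) (x1 α (exp z))‖ ≤
      Real.sqrt (∫ x in Ioi (0:ℝ), ‖f x‖ ^ 2) *
        (Real.exp (-(Th α z.im - 2 * ((Real.exp (κ / α) - 1) + κ / α)) * Real.exp (rho α * z.re)
          + K * Real.exp ((rho α - 1) * z.re)) *
        Real.sqrt (Real.exp (z.re / α) * ((Real.exp (κ / α) - 1) + κ / α))) := by
  set η := (Real.exp (κ / α) - 1) + κ / α with hη
  have hQ := exp_mem_Q1 h0 h1
  have hQ' := exp_mem_Q1 h0' h1'
  have hdiff := x1_diff (κ := κ) hα (by linarith) h0 h1 h0' h1' hz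
  rw [← hη] at hdiff
  have hx1 : 0 ≤ x1 α (exp z) := x1_nonneg hQ.2
  have hx1' : 0 ≤ x1 α (exp z₀) := x1_nonneg hQ'.2
  have hint : ∀ b : ℝ, 0 ≤ b → IntervalIntegrable (fun x => f x * mP F Mp s (exp z) x) volume 0 b :=
    fun b hb => intervalIntegrable_f_mul f _ hf 0 b le_rfl hb (cont_mP F Mp s _)
  have e1 : Dx F Mp s f E (exp z) (x1 α (exp z₀)) - Dx F Mp s f E (exp z) (x1 α (exp z))
      = ∫ t in (x1 α (exp z₀))..(x1 α (exp z)), f t * mP F Mp s (exp z) t := by
    unfold Dx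
    rw [← intervalIntegral.integral_interval_sub_left (hint _ hx1) (hint _ hx1')]
    ring
  rw [e1]
  have hre : |z.re - z₀.re| ≤ κ := by
    have := Complex.abs_re_le_norm (z - z₀)
    rw [Complex.sub_re] at this
    exact this.trans hz
  -- bound of x^α on the interval
  have hpow : ∀ t ∈ uIcc (x1 α (exp z₀)) (x1 α (exp z)), 0 ≤ t ∧ t ^ α ≤ 2 * ‖exp z‖ := by
    intro t ht
    have ht0 : 0 ≤ t := le_trans (le_min hx1' hx1) ht.1
    refine ⟨ht0, ?_⟩
    have hle : t ≤ max (x1 α (exp z₀)) (x1 α (exp z)) := ht.2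
    have h2 : t ^ α ≤ (max (x1 α (exp z₀)) (x1 α (exp z))) ^ α := Real.rpow_le_rpow ht0 hle hα.le
    refine h2.trans ?_
    rcases max_cases (x1 α (exp z₀)) (x1 α (exp z)) with h | h
    · rw [h.1, x1_rpow hα hQ'.2]
      have hn : ‖exp z₀‖ ≤ 2 * ‖exp z‖ := by
        rw [norm_exp', norm_exp']
        have : Real.exp z₀.re ≤ Real.exp (κ + z.re) :=
          Real.exp_le_exp.2 (by linarith [(abs_le.1 hre).1])
        rw [Real.exp_add] at this
        nlinarith [Real.exp_pos z.re]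
      exact ((le_abs_self _).trans (Complex.abs_im_le_norm _)).trans hn
    · rw [h.1, x1_rpow hα hQ.2]
      have := (le_abs_self _).trans (Complex.abs_im_le_norm (exp z))
      linarith [norm_nonneg (exp z)]
  have hTf : Tf α (exp z) = Real.exp (rho α * z.re) * Th α z.im := by
    rw [hTSC α hα hα' _ hQ, arg_exp' h0 h1, norm_exp', ← Real.exp_mul, mul_comm z.re]
  have hsup : ∀ t ∈ uIcc (x1 α (exp z₀)) (x1 α (exp z)), ‖mP F Mp s (exp z) t‖ ≤
      Real.exp (-(Th α z.im - 2 * η) * Real.exp (rho α * z.re)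
          + K * Real.exp ((rho α - 1) * z.re)) := by
    intro t ht
    obtain ⟨ht0, htp⟩ := hpow t ht
    refine (hm t ht0 htp).trans ?_
    rw [Real.exp_le_exp]
    have h3 := hTG3 α hα hα' _ hQ t ht0 htp
    have h4 : |t - x1 α (exp z)| ≤ Real.exp (z.re / α) * η := by
      refine le_trans ?_ hdiff
      rw [uIcc_comm] at ht
      have := abs_sub_left_of_mem_uIcc ht
      exact this
    have h5 : 2 * Real.sqrt ‖exp z‖ * |t - x1 α (exp z)| ≤ 2 * η * Real.exp (rho α * z.re) := by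
      have h6 : Real.sqrt ‖exp z‖ = Real.exp (z.re / 2) := by
        rw [norm_exp', ← Real.exp_half]
      rw [h6]
      have h7 : Real.exp (rho α * z.re) = Real.exp (z.re / 2) * Real.exp (z.re / α) := by
        rw [← Real.exp_add]; congr 1; unfold rho; ring
      rw [h7]
      have := Real.exp_pos (z.re / 2)
      nlinarith
    have h8 : ‖exp z‖ ^ (rho α - 1) = Real.exp ((rho α - 1) * z.re) := by
      rw [norm_exp', ← Real.exp_mul, mul_comm z.re]
    rw [h8]
    have h9 := (abs_le.1 (h3.trans h5)).1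
    rw [hTf] at h9
    nlinarith
  refine (cs_sup f _ hf _ _ _ hx1' hx1 (Real.exp_pos _).le (cont_mP F Mp s _) hsup).trans ?_
  refine mul_le_mul_of_nonneg_left ?_ (Real.sqrt_nonneg _)
  refine mul_le_mul_of_nonneg_left ?_ (Real.exp_pos _).le
  apply Real.sqrt_le_sqrt
  rw [abs_sub_comm]
  exact hdiff

/-! ### thresholds -/

lemma tendsto_exp_mul {ρ : ℝ} (hρ : 0 < ρ) : Tendsto (fun x : ℝ => Real.exp (ρ * x)) atTop atTop :=
  Real.tendsto_exp_atTop.comp (tendsto_id.const_mul_atTop hρ)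

lemma thr_lower {ρ c : ℝ} (C : ℝ) (hρ : 0 < ρ) (hc : 0 < c) :
    ∀ᶠ x : ℝ in atTop, Real.exp (-(c / 2) * Real.exp (ρ * x)) + C * Real.exp (-c * Real.exp (ρ * x)) ≤ 1 := by
  have h : Tendsto (fun x : ℝ => Real.exp (-(c / 2) * Real.exp (ρ * x)) +
      C * Real.exp (-c * Real.exp (ρ * x))) atTop (𝓝 (0 + C * 0)) := by
    refine Tendsto.add ?_ (Tendsto.const_mul C ?_)
    · exact Real.tendsto_exp_atBot.comp
        ((tendsto_exp_mul hρ).const_mul_atTop_of_neg (by linarith))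
    · exact Real.tendsto_exp_atBot.comp
        ((tendsto_exp_mul hρ).const_mul_atTop_of_neg (by linarith))
  have h2 : (0 : ℝ) + C * 0 < 1 := by norm_num
  exact (h.eventually_lt_const h2).mono fun x hx => hx.le

lemma thr_local {ρ c η δ α : ℝ} (N K : ℝ) (hρ : 1 ≤ ρ) (hc : 0 < c) (hδ : 0 < δ) :
    ∀ᶠ x : ℝ in atTop, N * (Real.exp (-c * Real.exp (ρ * x) + K * Real.exp ((ρ - 1) * x)) *
      Real.sqrt (Real.exp (x / α) * η)) ≤ δ := by
  have hρ0 : 0 < ρ := by linarith
  have hexp : Tendsto (fun x : ℝ => (-c * Real.exp (ρ * x) + K * Real.exp ((ρ - 1) * x)) + x / (2 * α))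
      atTop atBot := by
    have e : (fun x : ℝ => (-c * Real.exp (ρ * x) + K * Real.exp ((ρ - 1) * x)) + x / (2 * α))
        = fun x : ℝ => Real.exp (ρ * x) * (-c + K * Real.exp (-x) + (1 / (2 * α)) * (x ^ (1:ℝ) * Real.exp (-ρ * x))) := by
      funext x
      have e1 : Real.exp ((ρ - 1) * x) = Real.exp (ρ * x) * Real.exp (-x) := by
        rw [← Real.exp_add]; congr 1; ring
      have e2 : Real.exp (ρ * x) * Real.exp (-ρ * x) = 1 := by
        rw [← Real.exp_add]; simp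
      rw [e1, Real.rpow_one]
      calc _ = Real.exp (ρ * x) * (-c + K * Real.exp (-x)) + (1 / (2 * α)) * x * 1 := by ring
        _ = Real.exp (ρ * x) * (-c + K * Real.exp (-x)) +
            (1 / (2 * α)) * x * (Real.exp (ρ * x) * Real.exp (-ρ * x)) := by rw [e2]
        _ = _ := by ring
    rw [e]
    have h1 : Tendsto (fun x : ℝ => -c + K * Real.exp (-x) + (1 / (2 * α)) * (x ^ (1:ℝ) * Real.exp (-ρ * x)))
        atTop (𝓝 (-c + K * 0 + (1 / (2 * α)) * 0)) := by
      refine Tendsto.add (Tendsto.add tendsto_const_nhds (Tendsto.const_mul _ ?_))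
        (Tendsto.const_mul _ ?_)
      · exact Real.tendsto_exp_neg_atTop_nhds_zero
      · exact tendsto_rpow_mul_exp_neg_mul_atTop_nhds_zero 1 ρ hρ0
    exact (tendsto_exp_mul hρ0).atTop_mul_neg (by simpa using hc) h1
  have h : Tendsto (fun x : ℝ => (N * Real.sqrt η) * Real.exp ((-c * Real.exp (ρ * x) + K * Real.exp ((ρ - 1) * x)) + x / (2 * α)))
      atTop (𝓝 ((N * Real.sqrt η) * 0)) :=
    Tendsto.const_mul _ (Real.tendsto_exp_atBot.comp hexp)
  have h2 : (N * Real.sqrt η) * 0 < δ := by simpa using hδ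
  refine (h.eventually_lt_const h2).mono fun x hx => ?_
  refine le_trans (le_of_eq ?_) hx.le
  rw [Real.sqrt_mul (Real.exp_pos _).le, ← Real.exp_half, Real.exp_add _ (x / (2 * α))]
  have : x / α / 2 = x / (2 * α) := by ring
  rw [this]
  ring

lemma thr_final {ρ e : ℝ} (K : ℝ) (hρ : 0 < ρ) (he : 0 < e) :
    ∀ᶠ x : ℝ in atTop, K ≤ Real.exp (e * Real.exp (ρ * x)) := by
  have : Tendsto (fun x : ℝ => Real.exp (e * Real.exp (ρ * x))) atTop atTop :=
    Real.tendsto_exp_atTop.comp ((tendsto_exp_mul hρ).const_mul_atTop he)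
  exact this.eventually_ge_atTop K

end

end Pool.Agent.CRV.StepAux

namespace Pool.Agent.CRV

open StepAux

theorem step (hAPL : Stmt_APL) (hAPRIE : Stmt_APRIE) (hEORD : Stmt_EORD) (hMPB : Stmt_MPB)
    (hMPL2 : Stmt_MPL2) (hDAN : Stmt_DAN) (hTSC : Stmt_TSC) (hTG1 : Stmt_TG1) (hTG2 : Stmt_TG2)
    (hTG3 : Stmt_TG3) : Stmt_STEP := by
  intro α hα hα' F Mp hMp s f E hf hE φa φt φm h0 hne hat htm hmle hρm hTh ε hε
  have hρ2 : 2 ≤ rho α := by
    unfold rho
    have : (3 : ℝ) / 2 ≤ 1 / α := by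
      rw [le_div_iff₀ hα]
      linarith
    linarith
  obtain ⟨hTc, hTm, hT0⟩ := hTG1 α hα hα'
  have hφt : φt ∈ Ioo (0:ℝ) (π / 2) := ⟨by linarith, by linarith⟩
  obtain ⟨A, hA0, hA⟩ := hTG2 α hα hα' φt hφt
  have hTnn : ∀ ψ ∈ Icc (0:ℝ) (π / 2), 0 ≤ Th α ψ := by
    intro ψ hψ
    rw [← hT0]
    exact hTm.monotoneOn ⟨le_rfl, by linarith [Real.pi_pos]⟩ hψ hψ.1
  set cm := Real.cos (rho α * ((φm - φa) / 2)) with hcm
  have hcm0 : 0 < cm := by
    apply Real.cos_pos_of_mem_Ioo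
    constructor
    · have : 0 < rho α * ((φm - φa) / 2) := by
        apply mul_pos (by linarith)
        linarith
      linarith [Real.pi_pos]
    · nlinarith
  set e2 := ε / 3 with he2
  have he2pos : 0 < e2 := by positivity
  set c := e2 * cm with hc
  have hcpos : 0 < c := by positivity
  refine ⟨c / 2, by positivity, ?_⟩
  intro φb htb hbm hPE
  obtain ⟨r, hr, R, hR⟩ := hPE
  set ψm := (φa + φm) / 2 with hψm
  set w : ℂ := (-(Th α φt : ℂ) + A * I) * exp (-(rho α * φt : ℝ) * I) + e2 * exp (-(rho α * ψm : ℝ) * I)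
    with hw
  have hv : ∀ ψ, vv (rho α) w ψ = -Th α φt * Real.cos (rho α * (ψ - φt))
      - A * Real.sin (rho α * (ψ - φt)) + e2 * Real.cos (rho α * (ψ - ψm)) := by
    intro ψ
    exact vv_formula (rho α) (Th α φt) A e2 φt ψm ψ
  have hvc : Continuous (vv (rho α) w) := continuous_vv _ _
  have hρ0 : 0 < rho α := by linarith
  -- lower bound for cos
  have hcos : ∀ ψ ∈ Icc φa φb, cm ≤ Real.cos (rho α * (ψ - ψm)) := by
    intro ψ hψ
    rw [hcm, ← Real.cos_abs (rho α * (ψ - ψm))]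
    apply Real.cos_le_cos_of_nonneg_of_le_pi (abs_nonneg _)
    · nlinarith
    · rw [abs_mul, abs_of_pos hρ0]
      apply mul_le_mul_of_nonneg_left _ hρ0.le
      rw [abs_le, hψm]
      constructor <;> linarith [hψ.1, hψ.2]
  have hvT : ∀ ψ ∈ Icc φa φb, -Th α ψ + c ≤ vv (rho α) w ψ := by
    intro ψ hψ
    rw [hv]
    have h1 := hA ψ ⟨by linarith [hψ.1], by linarith [hψ.2]⟩ ?_
    · have h2 := hcos ψ hψ
      have h3 : e2 * cm ≤ e2 * Real.cos (rho α * (ψ - ψm)) := mul_le_mul_of_nonneg_left h2 he2pos.le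
      nlinarith
    · have h9 : |ψ - φt| ≤ φm - φa := by
        rw [abs_le]
        constructor <;> linarith [hψ.1, hψ.2]
      rw [le_div_iff₀ hρ0]
      nlinarith
  have hva : Th α φa + c < vv (rho α) w φa := by
    rw [hv]
    have h2 := hcos φa ⟨le_rfl, by linarith⟩
    have h3 : e2 * cm ≤ e2 * Real.cos (rho α * (φa - ψm)) := mul_le_mul_of_nonneg_left h2 he2pos.le
    have h4 : Real.cos (rho α * (φa - φt)) = Real.cos (rho α * (φt - φa)) := by
      rw [← Real.cos_neg]; congr 1; ring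
    have h5 : Real.sin (rho α * (φa - φt)) = -Real.sin (rho α * (φt - φa)) := by
      rw [← Real.sin_neg]; congr 1; ring
    have h6 : 0 ≤ Real.sin (rho α * (φt - φa)) := by
      apply Real.sin_nonneg_of_nonneg_of_le_pi
      · apply mul_nonneg hρ0.le; linarith
      · nlinarith
    rw [h4, h5]
    nlinarith
  have hvt : vv (rho α) w φt ≤ -Th α φt + e2 := by
    rw [hv]
    have := Real.cos_le_one (rho α * (φt - ψm))
    have : e2 * Real.cos (rho α * (φt - ψm)) ≤ e2 * 1 := mul_le_mul_of_nonneg_left this he2pos.le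
    simp
    linarith
  -- choose κ
  have hIn : Ioo (0:ℝ) (π / 2) ∈ 𝓝 φa := Ioo_mem_nhds h0 (by linarith)
  have hThca : ContinuousAt (Th α) φa :=
    hTc.continuousAt (mem_of_superset hIn Ioo_subset_Icc_self)
  have hev3 : ∀ᶠ ψ in 𝓝 φa, Th α ψ + c < vv (rho α) w ψ := by
    have h1 : ContinuousAt (fun ψ => Th α ψ + c) φa := hThca.add continuousAt_const
    exact h1.eventually_lt hvc.continuousAt hva
  have hev2 : ∀ᶠ ψ in 𝓝 φb, -Th α φb + c / 2 < vv (rho α) w ψ := by
    have h1 := hvT φb ⟨by linarith, le_rfl⟩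
    exact continuousAt_const.eventually_lt hvc.continuousAt (by linarith)
  obtain ⟨δ3, hδ3, hδ3'⟩ := Metric.eventually_nhds_iff.1 hev3
  obtain ⟨δ2, hδ2, hδ2'⟩ := Metric.eventually_nhds_iff.1 hev2
  have hη : Tendsto (fun κ : ℝ => (Real.exp (κ / α) - 1) + κ / α) (𝓝 0) (𝓝 0) := by
    have : Continuous (fun κ : ℝ => (Real.exp (κ / α) - 1) + κ / α) := by fun_prop
    have h := this.tendsto 0
    simpa using h
  have hex : Tendsto (fun κ : ℝ => Real.exp κ) (𝓝 0) (𝓝 1) := by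
    have h := Real.continuous_exp.tendsto 0
    simpa using h
  have hκex : ∃ κ : ℝ, 0 < κ ∧ κ < r ∧ κ < δ2 ∧ κ < δ3 ∧ κ < φt - φa ∧
      (2 * beta α < φa ∨ φa + κ < 2 * beta α) ∧ Real.exp κ < 2 ∧
      (Real.exp (κ / α) - 1) + κ / α < c / 4 := by
    have hb : ∀ᶠ κ : ℝ in 𝓝[>] 0, (2 * beta α < φa ∨ φa + κ < 2 * beta α) := by
      rcases lt_or_gt_of_ne hne with h | h
      · have : ∀ᶠ κ : ℝ in 𝓝[>] 0, κ < 2 * beta α - φa :=
          (eventually_lt_nhds (by linarith)).filter_mono nhdsWithin_le_nhds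
        exact this.mono fun κ hκ => Or.inr (by linarith)
      · exact Eventually.of_forall fun κ => Or.inl h
    have e1 : ∀ᶠ κ : ℝ in 𝓝[>] 0, κ < r :=
      (eventually_lt_nhds hr).filter_mono nhdsWithin_le_nhds
    have e2 : ∀ᶠ κ : ℝ in 𝓝[>] 0, κ < δ2 :=
      (eventually_lt_nhds hδ2).filter_mono nhdsWithin_le_nhds
    have e3 : ∀ᶠ κ : ℝ in 𝓝[>] 0, κ < δ3 :=
      (eventually_lt_nhds hδ3).filter_mono nhdsWithin_le_nhds
    have e4 : ∀ᶠ κ : ℝ in 𝓝[>] 0, κ < φt - φa :=
      (eventually_lt_nhds (by linarith)).filter_mono nhdsWithin_le_nhds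
    have e5 : ∀ᶠ κ : ℝ in 𝓝[>] 0, Real.exp κ < 2 :=
      (hex.eventually_lt_const (by norm_num)).filter_mono nhdsWithin_le_nhds
    have e6 : ∀ᶠ κ : ℝ in 𝓝[>] 0, (Real.exp (κ / α) - 1) + κ / α < c / 4 :=
      (hη.eventually_lt_const (by positivity)).filter_mono nhdsWithin_le_nhds
    have e0 : ∀ᶠ κ : ℝ in 𝓝[>] (0:ℝ), 0 < κ := self_mem_nhdsWithin
    obtain ⟨κ, h⟩ := (e0.and (e1.and (e2.and (e3.and (e4.and (hb.and (e5.and e6))))))).exists
    exact ⟨κ, h⟩
  obtain ⟨κ, hκ, hκr, hκ2, hκ3, hκt, hκβ, hκe, hκη⟩ := hκex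
  set η := (Real.exp (κ / α) - 1) + κ / α with hηdef
  -- constants from the modules
  obtain ⟨R1, hR1⟩ := hAPRIE α hα hα' F s f E hf hE φa (φa + κ) h0 (by linarith) (by linarith) hκβ
    (c / 2) (by positivity)
  obtain ⟨K2, R2, hK2, hR2, hML⟩ := hMPL2 α hα hα' F Mp hMp s φa φb h0 (by linarith) (by linarith)
  obtain ⟨K3, R3, hK3, hR3, hMB⟩ := hMPB α hα hα' F Mp hMp s φa φb h0 (by linarith) (by linarith)
  obtain ⟨K0, hK0⟩ := hEORD α hα hα' F s f E hf hE
  set N := Real.sqrt (∫ x in Ioi (0:ℝ), ‖f x‖ ^ 2) with hN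
  have hN0 : 0 ≤ N := Real.sqrt_nonneg _
  set C := N * Real.sqrt K2 with hC
  have hC0 : 0 ≤ C := by positivity
  obtain ⟨ξ4, hξ4⟩ := eventually_atTop.1 (thr_lower (ρ := rho α) (c := c) C hρ0 hcpos)
  obtain ⟨ξ5, hξ5⟩ := eventually_atTop.1 (thr_local (ρ := rho α) (c := c / 2) (η := η)
    (δ := κ ^ 2 / 4) (α := α) N K3 (by linarith) (by positivity) (by positivity))
  set ξ := max 0 (max R (max R1 (max R2 (max R3 (max ξ4 ξ5))))) with hξ
  have hξ0 : 0 ≤ ξ := le_max_left _ _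
  have hξR : R ≤ ξ := (le_max_left _ _).trans (le_max_right _ _)
  have hξR1 : R1 ≤ ξ := (le_max_left _ _).trans ((le_max_right _ _).trans (le_max_right _ _))
  have hξR2 : R2 ≤ ξ := (le_max_left _ _).trans ((le_max_right _ _).trans
    ((le_max_right _ _).trans (le_max_right _ _)))
  have hξR3 : R3 ≤ ξ := (le_max_left _ _).trans ((le_max_right _ _).trans
    ((le_max_right _ _).trans ((le_max_right _ _).trans (le_max_right _ _))))
  have hξξ4 : ξ4 ≤ ξ := (le_max_left _ _).trans ((le_max_right _ _).trans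
    ((le_max_right _ _).trans ((le_max_right _ _).trans ((le_max_right _ _).trans (le_max_right _ _)))))
  have hξξ5 : ξ5 ≤ ξ := (le_max_right _ _).trans ((le_max_right _ _).trans
    ((le_max_right _ _).trans ((le_max_right _ _).trans ((le_max_right _ _).trans (le_max_right _ _)))))
  clear_value ξ
  have hexpge : ∀ z : ℂ, ξ ≤ z.re → ∀ R' : ℝ, R' ≤ ξ → R' ≤ ‖exp z‖ := by
    intro z hz R' hR'
    rw [norm_exp']
    have := Real.add_one_le_exp z.re
    linarith
  -- the Q1 facts for the strip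
  have hstrip : ∀ z : ℂ, φa ≤ z.im → z.im ≤ φb → 0 < z.im ∧ z.im < π / 2 := by
    intro z h1 h2
    exact ⟨by linarith, by linarith⟩
  have hpowρ : ∀ z : ℂ, ‖exp z‖ ^ rho α = Real.exp (rho α * z.re) := by
    intro z
    rw [norm_exp', ← Real.exp_mul, mul_comm]
  -- L² bound
  have hint : ∀ z : ℂ, φa ≤ z.im → z.im ≤ φb → ξ ≤ z.re →
      ‖Dx F Mp s f E (exp z) (x1 α (exp z))‖ ≤ ‖E (exp z)‖ + C := by
    intro z h1 h2 h3
    obtain ⟨hz0, hz1⟩ := hstrip z h1 h2
    have hQ := exp_mem_Q1 hz0 hz1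
    have hx : 0 ≤ x1 α (exp z) := x1_nonneg hQ.2
    have h4 := hML (exp z) (hexpge z h3 R2 hξR2) (by rw [arg_exp' hz0 hz1]; exact h1)
      (by rw [arg_exp' hz0 hz1]; exact h2)
    have h5 := cs_interval f (fun x => mP F Mp s (exp z) x) hf 0 _ le_rfl hx
      ((cont_mP F Mp s _).mono fun x hx => hx.1)
    unfold Dx
    refine (norm_sub_le _ _).trans ?_
    refine add_le_add le_rfl (h5.trans ?_)
    exact mul_le_mul_of_nonneg_left (Real.sqrt_le_sqrt h4) hN0
  set G : ℂ → ℂ := fun z => Dx F Mp s f E (exp z) (x1 α (exp z)) * exp (-(w * exp (rho α * z)))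
    with hG
  have hGn : ∀ z : ℂ, ‖G z‖ = ‖Dx F Mp s f E (exp z) (x1 α (exp z))‖ *
      Real.exp (-(vv (rho α) w z.im * Real.exp (rho α * z.re))) := by
    intro z
    rw [hG]
    simp only
    rw [norm_mul, norm_exp_neg_w]
  -- bound for |vv|
  obtain ⟨V, hV⟩ := isCompact_Icc.exists_bound_of_continuousOn
    (hvc.continuousOn (s := Icc φa φb))
  have happ := hAPL (rho α) φa φb κ ξ ((|K0| + |K0|) + (C + 1) + |V|) G hρ0 (by linarith) (by nlinarith) hκ
    ?_ ?_ ?_
  rotate_left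
  · -- growth
    intro z h1 h2 h3
    rw [hGn]
    have ht1 : 1 ≤ Real.exp (rho α * z.re) := Real.one_le_exp (mul_nonneg hρ0.le (by linarith))
    set t := Real.exp (rho α * z.re) with ht
    have h4 := hint z h1 h2 h3
    have h5 : ‖E (exp z)‖ ≤ Real.exp ((|K0| + |K0|) * t) := by
      refine (hK0 _).trans ?_
      rw [Real.exp_le_exp, hpowρ]
      have := le_abs_self K0
      nlinarith [abs_nonneg K0]
    have h6 : ‖Dx F Mp s f E (exp z) (x1 α (exp z))‖ ≤ Real.exp (((|K0| + |K0|) + (C + 1)) * t) := by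
      have h7 : C ≤ Real.exp (C * t) - 1 := by
        have := Real.add_one_le_exp (C * t)
        nlinarith
      have h8 : 1 ≤ Real.exp (C * t) := Real.one_le_exp (by positivity)
      have h9 : 1 ≤ Real.exp ((|K0| + |K0|) * t) := Real.one_le_exp (by positivity)
      have h10 : 2 ≤ Real.exp (1 * t) := by
        have := Real.add_one_le_exp (1 * t)
        linarith
      have e1 : Real.exp (((|K0| + |K0|) + (C + 1)) * t)
          = Real.exp ((|K0| + |K0|) * t) * (Real.exp (C * t) * Real.exp (1 * t)) := by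
        rw [← Real.exp_add, ← Real.exp_add]; congr 1; ring
      rw [e1]
      calc _ ≤ Real.exp ((|K0| + |K0|) * t) + (Real.exp (C * t) - 1) := by linarith
        _ ≤ Real.exp ((|K0| + |K0|) * t) * Real.exp (C * t) * 2 := by nlinarith
        _ ≤ Real.exp ((|K0| + |K0|) * t) * Real.exp (C * t) * Real.exp (1 * t) :=
            mul_le_mul_of_nonneg_left h10 (by positivity)
        _ = _ := by ring
    have h7 : Real.exp (-(vv (rho α) w z.im * t)) ≤ Real.exp (|V| * t) := by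
      rw [Real.exp_le_exp]
      have h8 := hV z.im ⟨h1, h2⟩
      rw [Real.norm_eq_abs] at h8
      have h9 := (abs_le.1 h8).1
      have h10 := le_abs_self V
      nlinarith
    calc _ ≤ Real.exp (((|K0| + |K0|) + (C + 1)) * t) * Real.exp (|V| * t) :=
          mul_le_mul h6 h7 (Real.exp_pos _).le (Real.exp_pos _).le
      _ = _ := by rw [← Real.exp_add]; congr 1; ring
  · -- layers
    intro z h3 hlay
    rcases hlay with ⟨h1, h2⟩ | ⟨h1, h2⟩
    · -- lower layer
      have h2' : z.im ≤ φb := by linarith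
      obtain ⟨hz0, hz1⟩ := hstrip z h1 h2'
      have hQ := exp_mem_Q1 hz0 hz1
      rw [hGn]
      set t := Real.exp (rho α * z.re) with ht
      have ht0 : 0 < t := Real.exp_pos _
      have h4 := hint z h1 h2' h3
      have h5 := hR1 (exp z) (hexpge z h3 R1 hξR1) (by rw [arg_exp' hz0 hz1]; exact h1)
        (by rw [arg_exp' hz0 hz1]; exact h2)
      rw [hTSC α hα hα' _ hQ, arg_exp' hz0 hz1, hpowρ, ← ht] at h5
      have h6 : Th α z.im + c < vv (rho α) w z.im := by
        apply hδ3'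
        rw [Real.dist_eq, abs_lt]
        constructor <;> linarith
      have h7 : 0 ≤ Th α z.im := hTnn _ ⟨hz0.le, hz1.le⟩
      have h8 : Real.exp (-(vv (rho α) w z.im * t)) ≤ Real.exp (-((Th α z.im + c) * t)) := by
        rw [Real.exp_le_exp]
        nlinarith
      calc _ ≤ (Real.exp (t * Th α z.im + c / 2 * t) + C) * Real.exp (-((Th α z.im + c) * t)) := by
            apply mul_le_mul (h4.trans (add_le_add h5 le_rfl)) h8 (Real.exp_pos _).le (by positivity)
        _ = Real.exp (-(c / 2) * t) + C * Real.exp (-((Th α z.im + c) * t)) := by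
            rw [add_mul, ← Real.exp_add]
            congr 2
            ring
        _ ≤ Real.exp (-(c / 2) * t) + C * Real.exp (-c * t) := by
            have : Real.exp (-((Th α z.im + c) * t)) ≤ Real.exp (-c * t) := by
              rw [Real.exp_le_exp]
              nlinarith
            nlinarith
        _ ≤ 1 := hξ4 z.re (hξξ4.trans h3)
    · -- upper layer
      have h1' : φa ≤ z.im := by linarith
      obtain ⟨hz0, hz1⟩ := hstrip z h1' h2
      rw [hGn]
      set t := Real.exp (rho α * z.re) with ht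
      have ht0 : 0 < t := Real.exp_pos _
      have h4 := hR (exp z) (hexpge z h3 R hξR) (by
        rw [arg_exp' hz0 hz1, abs_le]
        constructor <;> linarith)
      rw [hpowρ, ← ht] at h4
      have h6 : -Th α φb + c / 2 < vv (rho α) w z.im := by
        apply hδ2'
        rw [Real.dist_eq, abs_lt]
        constructor <;> linarith
      calc _ ≤ Real.exp (-((Th α φb - c / 2) * t)) * Real.exp (-(vv (rho α) w z.im * t)) :=
            mul_le_mul_of_nonneg_right h4 (Real.exp_pos _).le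
        _ = Real.exp (-(((Th α φb - c / 2) + vv (rho α) w z.im) * t)) := by
            rw [← Real.exp_add]; congr 1; ring
        _ ≤ 1 := by
            rw [Real.exp_le_one_iff]
            nlinarith
  · -- local
    intro z₀ h1 h2 h3
    refine ⟨fun z => Dx F Mp s f E (exp z) (x1 α (exp z₀)) * exp (-(w * exp (rho α * z))), ?_, rfl, ?_⟩
    · intro z hz
      have hzn : ‖z - z₀‖ ≤ κ := by simpa [dist_eq_norm] using hz
      have hre : |z.re - z₀.re| ≤ κ := by
        have := Complex.abs_re_le_norm (z - z₀)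
        rw [Complex.sub_re] at this
        exact this.trans hzn
      have him : |z.im - z₀.im| ≤ κ := by
        have := Complex.abs_im_le_norm (z - z₀)
        rw [Complex.sub_im] at this
        exact this.trans hzn
      have hz1 : φa ≤ z.im := by linarith [(abs_le.1 him).1]
      have hz2 : z.im ≤ φb := by linarith [(abs_le.1 him).2]
      have hz3 : ξ ≤ z.re := by linarith [(abs_le.1 hre).1]
      obtain ⟨hz4, hz5⟩ := hstrip z hz1 hz2
      have hQ := exp_mem_Q1 hz4 hz5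
      have hb := (hMB (exp z) (hexpge z hz3 R3 hξR3) (by rw [arg_exp' hz4 hz5]; exact hz1)
        (by rw [arg_exp' hz4 hz5]; exact hz2)).1
      obtain ⟨hz6, hz7⟩ := hstrip z₀ (by linarith) (by linarith)
      have hQ' := exp_mem_Q1 hz6 hz7
      have hd := hDAN α hα hα' F Mp hMp s f E hf hE.1 (x1 α (exp z₀)) (x1_nonneg hQ'.2) (exp z) hQ hb
      have hd2 : DifferentiableAt ℂ (fun z => Dx F Mp s f E (exp z) (x1 α (exp z₀))) z :=
        hd.comp z Complex.differentiableAt_exp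
      refine (hd2.mul ?_).differentiableWithinAt
      fun_prop
    · intro z hz
      have hzn : ‖z - z₀‖ = κ := by simpa [dist_eq_norm] using hz
      have hre : |z.re - z₀.re| ≤ κ := by
        have := Complex.abs_re_le_norm (z - z₀)
        rw [Complex.sub_re] at this
        exact this.trans hzn.le
      have him : |z.im - z₀.im| ≤ κ := by
        have := Complex.abs_im_le_norm (z - z₀)
        rw [Complex.sub_im] at this
        exact this.trans hzn.le
      have hz1 : φa ≤ z.im := by linarith [(abs_le.1 him).1]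
      have hz2 : z.im ≤ φb := by linarith [(abs_le.1 him).2]
      have hz3 : ξ ≤ z.re := by linarith [(abs_le.1 hre).1]
      obtain ⟨hz4, hz5⟩ := hstrip z hz1 hz2
      obtain ⟨hz6, hz7⟩ := hstrip z₀ (by linarith) (by linarith)
      have hb := (hMB (exp z) (hexpge z hz3 R3 hξR3) (by rw [arg_exp' hz4 hz5]; exact hz1)
        (by rw [arg_exp' hz4 hz5]; exact hz2)).2
      have hl := local_diff hα hα' hTSC hTG3 F Mp s f hf E κ K3 hκe.le hz4 hz5 hz6 hz7 hzn.le hb
      rw [← hηdef, ← hN] at hl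
      have e1 : Dx F Mp s f E (exp z) (x1 α (exp z₀)) * exp (-(w * exp (rho α * z))) - G z
          = (Dx F Mp s f E (exp z) (x1 α (exp z₀)) - Dx F Mp s f E (exp z) (x1 α (exp z)))
            * exp (-(w * exp (rho α * z))) := by
        rw [hG]; ring
      rw [e1, norm_mul, norm_exp_neg_w]
      refine le_trans ?_ (hξ5 z.re (hξξ5.trans hz3))
      have hvz := hvT z.im ⟨hz1, hz2⟩
      calc _ ≤ (N * (Real.exp (-(Th α z.im - 2 * η) * Real.exp (rho α * z.re) +
            K3 * Real.exp ((rho α - 1) * z.re)) * Real.sqrt (Real.exp (z.re / α) * η))) *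
            Real.exp (-(vv (rho α) w z.im * Real.exp (rho α * z.re))) :=
            mul_le_mul_of_nonneg_right hl (Real.exp_pos _).le
        _ = N * (Real.exp ((-(Th α z.im - 2 * η) * Real.exp (rho α * z.re) +
            K3 * Real.exp ((rho α - 1) * z.re)) + (-(vv (rho α) w z.im * Real.exp (rho α * z.re))))
            * Real.sqrt (Real.exp (z.re / α) * η)) := by
            rw [Real.exp_add _ (-(vv (rho α) w z.im * Real.exp (rho α * z.re)))]; ring
        _ ≤ _ := by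
            refine mul_le_mul_of_nonneg_left ?_ hN0
            refine mul_le_mul_of_nonneg_right ?_ (Real.sqrt_nonneg _)
            rw [Real.exp_le_exp]
            have := Real.exp_pos (rho α * z.re)
            nlinarith
  -- conclusion
  obtain ⟨K, hK⟩ := happ
  have hevt : ∀ᶠ ψ in 𝓝 φt, vv (rho α) w ψ < -Th α φt + 2 * e2 := by
    exact hvc.continuousAt.eventually_lt continuousAt_const (by linarith)
  obtain ⟨δt, hδt, hδt'⟩ := Metric.eventually_nhds_iff.1 hevt
  obtain ⟨ξ6, hξ6⟩ := eventually_atTop.1 (thr_final (ρ := rho α) (e := e2) K hρ0 he2pos)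
  refine ⟨min (δt / 2) (min (φt - φa) (φb - φt)), ?_, Real.exp (max ξ ξ6), ?_⟩
  · exact lt_min (by positivity) (lt_min (by linarith) (by linarith))
  intro l hl hal
  have hl0 : l ≠ 0 := by
    rintro rfl
    rw [norm_zero] at hl
    exact absurd hl (not_le.2 (Real.exp_pos _))
  have hln : 0 < ‖l‖ := norm_pos_iff.2 hl0
  have hlexp : exp (Complex.log l) = l := Complex.exp_log hl0
  have hre : (Complex.log l).re = Real.log ‖l‖ := Complex.log_re l
  have him : (Complex.log l).im = arg l := Complex.log_im l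
  have hξl : max ξ ξ6 ≤ Real.log ‖l‖ := (Real.le_log_iff_exp_le hln).2 hl
  have ha1 : |arg l - φt| ≤ δt / 2 := hal.trans (min_le_left _ _)
  have ha2 : |arg l - φt| ≤ φt - φa := hal.trans ((min_le_right _ _).trans (min_le_left _ _))
  have ha3 : |arg l - φt| ≤ φb - φt := hal.trans ((min_le_right _ _).trans (min_le_right _ _))
  have hb := hK (Complex.log l) (by rw [him]; linarith [(abs_le.1 ha2).1])
    (by rw [him]; linarith [(abs_le.1 ha3).2]) (by rw [hre]; exact (le_max_left _ _).trans hξl)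
  rw [hGn, hlexp, hre, him] at hb
  have hpow : ‖l‖ ^ rho α = Real.exp (rho α * Real.log ‖l‖) := by
    rw [Real.rpow_def_of_pos hln, mul_comm]
  have hvl : vv (rho α) w (arg l) < -Th α φt + 2 * e2 := by
    apply hδt'
    rw [Real.dist_eq]
    linarith
  have h6 := hξ6 (Real.log ‖l‖) ((le_max_right _ _).trans hξl)
  rw [hpow]
  set t := Real.exp (rho α * Real.log ‖l‖) with ht
  have ht0 : 0 < t := Real.exp_pos _
  have h7 : ‖Dx F Mp s f E l (x1 α l)‖ ≤ K * Real.exp (vv (rho α) w (arg l) * t) := by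
    have h8 : ‖Dx F Mp s f E l (x1 α l)‖ =
        (‖Dx F Mp s f E l (x1 α l)‖ * Real.exp (-(vv (rho α) w (arg l) * t))) *
          Real.exp (vv (rho α) w (arg l) * t) := by
      rw [mul_assoc, ← Real.exp_add]
      simp
    rw [h8]
    exact mul_le_mul_of_nonneg_right hb (Real.exp_pos _).le
  refine h7.trans ?_
  calc K * Real.exp (vv (rho α) w (arg l) * t)
      ≤ Real.exp (e2 * t) * Real.exp (vv (rho α) w (arg l) * t) :=
        mul_le_mul_of_nonneg_right h6 (Real.exp_pos _).le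
    _ = Real.exp ((e2 + vv (rho α) w (arg l)) * t) := by rw [← Real.exp_add]; congr 1; ring
    _ ≤ Real.exp (-((Th α φt - ε) * t)) := by
        rw [Real.exp_le_exp]
        have : e2 + vv (rho α) w (arg l) ≤ -(Th α φt - ε) := by
          rw [he2] at hvl ⊢
          linarith
        nlinarith

end Pool.Agent.CRV
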