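import Pool.Agent.CRV.KBasic

/-!
# TAIL: the `L^2` norm of `Y` beyond `x_1`
-/

set_option autoImplicit false

open MeasureTheory Complex Set Filter Topology
open scoped Real

namespace Pool.Agent.CRV

noncomputable section

theorem shift_integral {E : Type*} [NormedAddCommGroup E] [NormedSpace ℝ E] (f : ℝ → E) (c : ℝ) :
    ∫ x in Ioi c, f x = ∫ t in Ioi (0 : ℝ), f (c + t) := by
  have h := (measurePreserving_add_left (volume : Measure ℝ) c).setIntegral_preimage_emb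
    (measurableEmbedding_addLeft c) f (Ioi c)
  rw [← h]
  congr 2
  simp

theorem shift_integrable {E : Type*} [NormedAddCommGroup E] (f : ℝ → E) (c : ℝ) :
    IntegrableOn f (Ioi c) ↔ IntegrableOn (fun t => f (c + t)) (Ioi (0 : ℝ)) := by
  have h := (measurePreserving_add_left (volume : Measure ℝ) c).integrableOn_comp_preimage
    (measurableEmbedding_addLeft c) (f := f) (s := Ioi c)
  rw [← h]
  simp [Function.comp_def]

theorem exists_growth (C δ ρ : ℝ) (hδ : 0 < δ) (hρ : 1 ≤ ρ) (n : ℕ) :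
    ∃ R : ℝ, 1 ≤ R ∧ ∀ r : ℝ, R ≤ r → C * (r ^ ρ) ^ n ≤ Real.exp (δ * r ^ ρ) := by
  have h1 : Tendsto (fun u : ℝ => (δ * u) ^ n * Real.exp (-(δ * u))) atTop (𝓝 0) :=
    (Real.tendsto_pow_mul_exp_neg_atTop_nhds_zero n).comp
      (tendsto_id.const_mul_atTop hδ)
  have h2 : Tendsto (fun u : ℝ => C / δ ^ n * ((δ * u) ^ n * Real.exp (-(δ * u)))) atTop (𝓝 0) := by
    simpa using h1.const_mul (C / δ ^ n)
  have h3 : ∀ᶠ u : ℝ in atTop, C / δ ^ n * ((δ * u) ^ n * Real.exp (-(δ * u))) < 1 :=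
    h2.eventually (gt_mem_nhds one_pos)
  obtain ⟨U, hU⟩ := eventually_atTop.1 h3
  refine ⟨max U 1, le_max_right _ _, fun r hr => ?_⟩
  have hr1 : 1 ≤ r := (le_max_right _ _).trans hr
  have hrU : U ≤ r ^ ρ := by
    calc U ≤ r := (le_max_left _ _).trans hr
      _ = r ^ (1 : ℝ) := (Real.rpow_one r).symm
      _ ≤ r ^ ρ := Real.rpow_le_rpow_of_exponent_le hr1 hρ
  have h4 := hU _ hrU
  have h5 : C / δ ^ n * ((δ * r ^ ρ) ^ n * Real.exp (-(δ * r ^ ρ))) =
      C * (r ^ ρ) ^ n * Real.exp (-(δ * r ^ ρ)) := by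
    rw [mul_pow]
    field_simp
  rw [h5, Real.exp_neg, ← div_eq_mul_inv, div_lt_one (Real.exp_pos _)] at h4
  exact h4.le

/-- Bounds in a sector. -/
theorem sector_bd {ψ₁ ψ₂ : ℝ} (h1 : 0 < ψ₁) (h2 : ψ₂ < π / 2) {l : ℂ}
    (h3 : ψ₁ ≤ arg l) (h4 : arg l ≤ ψ₂) :
    Real.cos ψ₂ * ‖l‖ ≤ l.re ∧ Real.sin ψ₁ * ‖l‖ ≤ l.im ∧ l.im ≤ ‖l‖ ∧ l.re ≤ ‖l‖ := by
  have e1 : l.re = ‖l‖ * Real.cos (arg l) := (Complex.norm_mul_cos_arg l).symm
  have e2 : l.im = ‖l‖ * Real.sin (arg l) := (Complex.norm_mul_sin_arg l).symm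
  have h5 : Real.cos ψ₂ ≤ Real.cos (arg l) :=
    Real.cos_le_cos_of_nonneg_of_le_pi (by linarith) (by linarith [Real.pi_pos]) h4
  have h6 : Real.sin ψ₁ ≤ Real.sin (arg l) :=
    Real.sin_le_sin_of_le_of_le_pi_div_two (by linarith [Real.pi_pos]) (by linarith) h3
  refine ⟨?_, ?_, ?_, Complex.re_le_norm l⟩
  · rw [e1, mul_comm]
    exact mul_le_mul_of_nonneg_left h5 (norm_nonneg _)
  · rw [e2, mul_comm]
    exact mul_le_mul_of_nonneg_left h6 (norm_nonneg _)
  · exact (le_abs_self _).trans (Complex.abs_im_le_norm l)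

variable {α : ℝ}

theorem one_le_rho (hα : 0 < α) (hα' : α ≤ 2 / 3) : 1 ≤ rho α := by
  unfold rho
  have : (3 : ℝ) / 2 ≤ 1 / α := by
    rw [le_div_iff₀ hα]
    linarith
  linarith

theorem PP_bound (F : FS α) (a b l : ℂ) (hl : 0 < l.re) (x : ℝ) :
    ‖F.dy a b l x‖ * ‖F.y a b l x‖ ≤ PP F a b l x / (2 * Real.sqrt l.re) ∧
      ‖F.y a b l x‖ ^ 2 ≤ PP F a b l x / l.re := by
  have hs : 0 < Real.sqrt l.re := Real.sqrt_pos.2 hl
  have h0 := re_le_norm_q (α := α) l x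
  have hs2 : Real.sqrt l.re ^ 2 = l.re := Real.sq_sqrt hl.le
  constructor
  · rw [le_div_iff₀ (by positivity)]
    unfold PP
    have h1 : Real.sqrt l.re ^ 2 * ‖F.y a b l x‖ ^ 2 ≤
        ‖l - I * ((x ^ α : ℝ) : ℂ)‖ * ‖F.y a b l x‖ ^ 2 := by
      rw [hs2]
      exact mul_le_mul_of_nonneg_right h0 (sq_nonneg _)
    nlinarith [sq_nonneg (‖F.dy a b l x‖ - Real.sqrt l.re * ‖F.y a b l x‖)]
  · rw [le_div_iff₀ hl]
    unfold PP
    nlinarith [sq_nonneg ‖F.dy a b l x‖, sq_nonneg ‖F.y a b l x‖]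

theorem rpow_add_le (hα : 0 < α) (hα' : α ≤ 2 / 3) {x t : ℝ} (hx : 0 ≤ x) (ht : 0 ≤ t) :
    (x + t) ^ α ≤ (1 + x) * (1 + t) := by
  calc (x + t) ^ α ≤ (1 + x + t) ^ α := Real.rpow_le_rpow (by linarith) (by linarith) hα.le
    _ ≤ (1 + x + t) ^ (1 : ℝ) := Real.rpow_le_rpow_of_exponent_le (by linarith) (by linarith)
    _ = 1 + x + t := Real.rpow_one _
    _ ≤ (1 + x) * (1 + t) := by nlinarith

/-- The energy identity for `y` beyond `x₀`: integrability and the imaginary part. -/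
theorem en_im (hEN : Stmt_EN) (hD : Stmt_DLY) (hα : 0 < α) (hα' : α ≤ 2 / 3) (F : FS α)
    (a b l : ℂ) (hY : IsY F a b l) {x₀ : ℝ} (hx₀ : 0 ≤ x₀) :
    IntegrableOn (fun t : ℝ => ‖F.y a b l ((x₀ + t : ℝ) : ℂ)‖ ^ 2) (Ioi 0) ∧
    IntegrableOn (fun t : ℝ => ((x₀ + t) ^ α - l.im) * ‖F.y a b l ((x₀ + t : ℝ) : ℂ)‖ ^ 2)
      (Ioi 0) ∧
    ∫ t in Ioi (0 : ℝ), ((x₀ + t) ^ α - l.im) * ‖F.y a b l ((x₀ + t : ℝ) : ℂ)‖ ^ 2 ≤
      ‖F.dy a b l x₀‖ * ‖F.y a b l x₀‖ := by
  obtain ⟨K, γ, hγ, hdec⟩ := hD α hα hα' F a b l hY x₀ hx₀ 0 (by linarith [Real.pi_pos]) le_rfl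
  have hdec' : ∀ t : ℝ, 0 ≤ t → ‖F.y a b l ((x₀ + t : ℝ) : ℂ)‖ ≤ K * Real.exp (-(γ * t)) ∧
      ‖F.dy a b l ((x₀ + t : ℝ) : ℂ)‖ ≤ K * Real.exp (-(γ * t)) := by
    intro t ht
    have h := hdec t ht
    have e : (x₀ : ℂ) + t * exp (((0 : ℝ) : ℂ) * I) = ((x₀ + t : ℝ) : ℂ) := by
      simp
    rwa [e] at h
  have hm : MapsTo (fun t : ℝ => x₀ + t) (Ici 0) (Ici 0) := fun t ht => by
    simp only [mem_Ici] at ht ⊢
    linarith
  have hcx : ContinuousOn (fun t : ℝ => x₀ + t) (Ici 0) :=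
    (continuous_const.add continuous_id).continuousOn
  have hw : ContinuousOn (fun t : ℝ => F.y a b l ((x₀ + t : ℝ) : ℂ)) (Ici 0) :=
    (contOn_y_real F a b l).comp hcx hm
  have hdw : ContinuousOn (fun t : ℝ => F.dy a b l ((x₀ + t : ℝ) : ℂ)) (Ici 0) :=
    (contOn_dy_real F a b l).comp hcx hm
  have hQ : Continuous (fun t : ℝ => I * (((x₀ + t) ^ α : ℝ) : ℂ) - l) :=
    (continuous_const.mul (continuous_ofReal.comp ((cont_rpow hα).comp
      (continuous_const.add continuous_id)))).sub continuous_const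
  obtain ⟨_, hi1, hi2, hE⟩ := hEN (fun t : ℝ => I * (((x₀ + t) ^ α : ℝ) : ℂ) - l)
    (fun t : ℝ => F.y a b l ((x₀ + t : ℝ) : ℂ)) (fun t : ℝ => F.dy a b l ((x₀ + t : ℝ) : ℂ))
    (1 + x₀ + ‖l‖) K γ hγ hQ.continuousOn hw hdw
    (fun t ht => by
      have h := hasDerivAt_y_real F a b l (x := x₀ + t) (by linarith)
      exact h.comp_const_add x₀ t)
    (fun t ht => by
      have h := hasDerivAt_dy_real F a b l (x := x₀ + t) (by linarith)
      exact h.comp_const_add x₀ t)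
    (fun t ht => by
      have h1 := rpow_add_le hα hα' hx₀ ht
      have h2 : 0 ≤ (x₀ + t) ^ α := Real.rpow_nonneg (by linarith) _
      calc ‖I * (((x₀ + t) ^ α : ℝ) : ℂ) - l‖ ≤ ‖I * (((x₀ + t) ^ α : ℝ) : ℂ)‖ + ‖l‖ :=
            norm_sub_le _ _
        _ = (x₀ + t) ^ α + ‖l‖ := by
            rw [norm_mul, Complex.norm_I, one_mul, Complex.norm_real, Real.norm_of_nonneg h2]
        _ ≤ (1 + x₀ + ‖l‖) * (1 + t) := by nlinarith [norm_nonneg l])
    (fun t ht => (hdec' t ht).1) (fun t ht => (hdec' t ht).2)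
  have e2 : ∀ t : ℝ, ((I * (((x₀ + t) ^ α : ℝ) : ℂ) - l) *
      ((‖F.y a b l ((x₀ + t : ℝ) : ℂ)‖ ^ 2 : ℝ) : ℂ)).im =
      ((x₀ + t) ^ α - l.im) * ‖F.y a b l ((x₀ + t : ℝ) : ℂ)‖ ^ 2 := by
    intro t
    rw [Complex.im_mul_ofReal]
    simp
  have hi3 : IntegrableOn (fun t : ℝ => ((x₀ + t) ^ α - l.im) *
      ‖F.y a b l ((x₀ + t : ℝ) : ℂ)‖ ^ 2) (Ioi 0) := by
    have h := hi2.im
    refine h.congr (Eventually.of_forall fun t => ?_)
    exact e2 t
  refine ⟨hi1, hi3, ?_⟩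
  have h4 := congrArg Complex.im hE
  rw [Complex.add_im, Complex.ofReal_im, zero_add] at h4
  have h5 : (∫ t in Ioi (0 : ℝ), (I * (((x₀ + t) ^ α : ℝ) : ℂ) - l) *
      ((‖F.y a b l ((x₀ + t : ℝ) : ℂ)‖ ^ 2 : ℝ) : ℂ)).im =
      ∫ t in Ioi (0 : ℝ), ((x₀ + t) ^ α - l.im) * ‖F.y a b l ((x₀ + t : ℝ) : ℂ)‖ ^ 2 := by
    have h := Complex.imCLM.integral_comp_comm hi2
    simp only [Complex.imCLM_apply] at h
    rw [← h]
    exact integral_congr_ae (Eventually.of_forall e2)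
  rw [h5] at h4
  rw [h4]
  have h6 : ((x₀ + 0 : ℝ) : ℂ) = x₀ := by simp
  rw [h6]
  calc (-(F.dy a b l x₀ * (starRingEnd ℂ) (F.y a b l x₀))).im
      ≤ |(-(F.dy a b l x₀ * (starRingEnd ℂ) (F.y a b l x₀))).im| := le_abs_self _
    _ ≤ ‖-(F.dy a b l x₀ * (starRingEnd ℂ) (F.y a b l x₀))‖ := Complex.abs_im_le_norm _
    _ = ‖F.dy a b l x₀‖ * ‖F.y a b l x₀‖ := by
        rw [norm_neg, norm_mul, RCLike.norm_conj]

theorem x1_nonneg (l : ℂ) (hl : 0 ≤ l.im) : 0 ≤ x1 α l := Real.rpow_nonneg hl _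

theorem x1_rpow (hα : 0 < α) (l : ℂ) (hl : 0 ≤ l.im) : x1 α l ^ α = l.im := by
  rw [x1, ← Real.rpow_mul hl, one_div_mul_cancel hα.ne', Real.rpow_one]

theorem tail (hG : Stmt_GRON) (hEN : Stmt_EN) (hD : Stmt_DLY) : Stmt_TAIL := by
  intro α hα hα' F ψ₁ ψ₂ hψ1 hψ12 hψ2 ε hε
  set c := Real.cos ψ₂ with hc
  set s := Real.sin ψ₁ with hs
  have hc0 : 0 < c := Real.cos_pos_of_mem_Ioo ⟨by linarith, hψ2⟩
  have hs0 : 0 < s := Real.sin_pos_of_pos_of_lt_pi hψ1 (by linarith)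
  set C₁ : ℝ := 2 ^ (1 / α) / Real.sqrt c with hC1
  have hC1p : 0 < C₁ := by positivity
  set d : ℝ := min 1 (ε / (2 * C₁)) with hd
  have hd0 : 0 < d := lt_min one_pos (by positivity)
  have hd1 : d ≤ 1 := min_le_left _ _
  have hdC : d * C₁ ≤ ε / 2 := by
    have h : d ≤ ε / (2 * C₁) := min_le_right _ _
    rw [le_div_iff₀ (by positivity)] at h
    linarith
  set C₂ : ℝ := 2 ^ (1 / α) * Real.exp (2 / c) / c with hC2
  set C₃ : ℝ := 1 / (d * s) / (2 * Real.sqrt c) with hC3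
  have hC2p : 0 < C₂ := by positivity
  have hC3p : 0 < C₃ := by positivity
  have hρ := one_le_rho hα hα'
  obtain ⟨R, hR1, hR⟩ := exists_growth (C₂ + C₃) (ε / 2) (rho α) (by positivity) hρ 1
  refine ⟨R, fun l hl h3 h4 a b hY => ?_⟩
  obtain ⟨hre, him, him', hre'⟩ := sector_bd hψ1 hψ2 h3 h4
  set r := ‖l‖ with hr
  have hr1 : 1 ≤ r := hR1.trans hl
  have hr0 : 0 < r := by linarith
  have hrere : 0 < l.re := lt_of_lt_of_le (by positivity) hre
  have hh0 : 0 < l.im := lt_of_lt_of_le (by positivity) him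
  set h := l.im with hh
  set X₁ := x1 α l with hX1
  have hX1n : 0 ≤ X₁ := x1_nonneg l hh0.le
  have hX1α : X₁ ^ α = h := x1_rpow hα l hh0.le
  set X₂ : ℝ := ((1 + d) * h) ^ (1 / α) with hX2
  have hX2n : 0 ≤ X₂ := Real.rpow_nonneg (by positivity) _
  have hX2α : X₂ ^ α = (1 + d) * h := by
    rw [hX2, ← Real.rpow_mul (by positivity), one_div_mul_cancel hα.ne', Real.rpow_one]
  have hX12 : X₁ ≤ X₂ := Real.rpow_le_rpow hh0.le
    (le_mul_of_one_le_left hh0.le (by linarith)) (by positivity)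
  have h2r : (1 + d) * h ≤ 2 * r := mul_le_mul (by linarith) him' hh0.le (by norm_num)
  have hX2le : X₂ ≤ 2 ^ (1 / α) * r ^ (1 / α) := by
    rw [← Real.mul_rpow (by norm_num) hr0.le]
    exact Real.rpow_le_rpow (by positivity) h2r (by positivity)
  have hrp : r ^ (1 / α) * (r / Real.sqrt r) = r ^ rho α := by
    rw [Real.div_sqrt, rho, Real.sqrt_eq_rpow, ← Real.rpow_add hr0, add_comm]
  have hrα : r ^ (1 / α) ≤ r ^ rho α := by
    refine Real.rpow_le_rpow_of_exponent_le hr1 ?_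
    unfold rho
    linarith
  have hrρ : 1 ≤ r ^ rho α := Real.one_le_rpow hr1 (by linarith)
  set P := PP F a b l X₁ with hP
  have hP0 : 0 ≤ P := PP_nonneg F a b l X₁
  -- growth up to X₂
  have hgr : ∀ x ∈ Icc X₁ X₂, ‖F.y a b l x‖ ^ 2 ≤
      P * Real.exp (ε / 2 * r ^ rho α + 2 / c) / (c * r) := by
    intro x hx
    have hx0 : 0 ≤ x := hX1n.trans hx.1
    have g1 := hG α hα hα' F a b l hrere X₁ x hX1n hx.1
    have g2 : ∫ t in X₁..x, |(kf α l t).im| ≤ ε / 4 * r ^ rho α := by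
      have hk : ∀ t ∈ Icc X₁ x, |(kf α l t).im| ≤ d * r / (2 * (Real.sqrt c * Real.sqrt r)) := by
        intro t ht
        have k1 := kf_imKB (α := α) (l := l) t
        have k2 := kf_re_geKB (α := α) hrere t
        have k3 : Real.sqrt c * Real.sqrt r ≤ (kf α l t).re := by
          rw [← Real.sqrt_mul hc0.le]
          exact (Real.sqrt_le_sqrt hre).trans k2
        have k4 : |l.im - t ^ α| ≤ d * r := by
          have t1 : h ≤ t ^ α := by
            rw [← hX1α]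
            exact Real.rpow_le_rpow hX1n ht.1 hα.le
          have t2 : t ^ α ≤ (1 + d) * h := by
            rw [← hX2α]
            exact Real.rpow_le_rpow (hX1n.trans ht.1) (ht.2.trans hx.2) hα.le
          have t3 : d * h ≤ d * r := mul_le_mul_of_nonneg_left him' hd0.le
          rw [abs_le]
          constructor
          · linarith
          · have t4 : 0 ≤ d * r := by positivity
            linarith
        rw [← k1, abs_mul, abs_mul, abs_of_pos (kf_re_pos hrere t), abs_two] at k4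
        rw [le_div_iff₀ (by positivity)]
        have k5 := mul_le_mul_of_nonneg_right k3 (abs_nonneg (kf α l t).im)
        linarith
      have hcont : Continuous fun t : ℝ => |(kf α l t).im| :=
        (Complex.continuous_im.comp (cont_kf hα hrere)).abs
      calc ∫ t in X₁..x, |(kf α l t).im|
          ≤ ∫ _t in X₁..x, d * r / (2 * (Real.sqrt c * Real.sqrt r)) :=
            intervalIntegral.integral_mono_on hx.1 (hcont.intervalIntegrable _ _)
              intervalIntegrable_const hk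
        _ = (x - X₁) * (d * r / (2 * (Real.sqrt c * Real.sqrt r))) := by
            rw [intervalIntegral.integral_const, smul_eq_mul]
        _ ≤ (2 ^ (1 / α) * r ^ (1 / α)) * (d * r / (2 * (Real.sqrt c * Real.sqrt r))) := by
            refine mul_le_mul_of_nonneg_right ?_ (by positivity)
            linarith [hx.2]
        _ = d * C₁ / 2 * (r ^ (1 / α) * (r / Real.sqrt r)) := by
            rw [hC1]
            field_simp
        _ = d * C₁ / 2 * r ^ rho α := by rw [hrp]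
        _ ≤ ε / 4 * r ^ rho α := mul_le_mul_of_nonneg_right (by linarith) (by positivity)
    have g3 : x ^ α / l.re ≤ 2 / c := by
      have t2 : x ^ α ≤ (1 + d) * h := by
        rw [← hX2α]
        exact Real.rpow_le_rpow hx0 hx.2 hα.le
      rw [div_le_div_iff₀ hrere hc0]
      have t3 : x ^ α * c ≤ 2 * r * c := mul_le_mul_of_nonneg_right (t2.trans h2r) hc0.le
      linarith
    have g4 : PP F a b l x ≤ P * Real.exp (ε / 2 * r ^ rho α + 2 / c) := by
      refine g1.trans (mul_le_mul_of_nonneg_left (Real.exp_le_exp.2 ?_) hP0)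
      linarith
    refine (PP_bound F a b l hrere x).2.trans ?_
    have g5 := PP_nonneg F a b l x
    exact div_le_div₀ (g5.trans g4) g4 (by positivity) hre
  -- the energy identity
  obtain ⟨hi1, hi2, hen⟩ := en_im hEN hD hα hα' F a b l hY hX1n
  set w : ℝ → ℝ := fun t => ‖F.y a b l ((X₁ + t : ℝ) : ℂ)‖ ^ 2 with hw
  set D := X₂ - X₁ with hD'
  have hD0 : 0 ≤ D := by linarith
  have hsplit : ∫ x in Ioi X₁, ‖F.y a b l x‖ ^ 2 =
      (∫ t in Ioc 0 D, w t) + ∫ t in Ioi D, w t := by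
    rw [shift_integral (fun x : ℝ => ‖F.y a b l x‖ ^ 2) X₁, ← Ioc_union_Ioi_eq_Ioi hD0]
    exact setIntegral_union (Ioc_disjoint_Ioi le_rfl) measurableSet_Ioi
      (hi1.mono_set Ioc_subset_Ioi_self) (hi1.mono_set (Ioi_subset_Ioi hD0))
  rw [hsplit]
  have hA : ∫ t in Ioc 0 D, w t ≤ C₂ * r ^ rho α * Real.exp (ε / 2 * r ^ rho α) * P := by
    have hb : ∀ t ∈ Ioc 0 D, w t ≤ P * Real.exp (ε / 2 * r ^ rho α + 2 / c) / (c * r) := by
      intro t ht
      exact hgr (X₁ + t) ⟨by linarith [ht.1], by linarith [ht.2]⟩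
    calc ∫ t in Ioc 0 D, w t
        ≤ ∫ _t in Ioc 0 D, P * Real.exp (ε / 2 * r ^ rho α + 2 / c) / (c * r) :=
          setIntegral_mono_on (hi1.mono_set Ioc_subset_Ioi_self)
            (integrableOn_const (by simp)) measurableSet_Ioc hb
      _ = D * (P * Real.exp (ε / 2 * r ^ rho α + 2 / c) / (c * r)) := by
          rw [setIntegral_const, smul_eq_mul, measureReal_def, Real.volume_Ioc, sub_zero,
            ENNReal.toReal_ofReal hD0]
      _ ≤ (2 ^ (1 / α) * r ^ rho α) * (P * Real.exp (ε / 2 * r ^ rho α + 2 / c) / c) := by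
          refine mul_le_mul ?_ ?_ (by positivity) (by positivity)
          · have : (2 : ℝ) ^ (1 / α) * r ^ (1 / α) ≤ 2 ^ (1 / α) * r ^ rho α :=
              mul_le_mul_of_nonneg_left hrα (by positivity)
            linarith
          · refine div_le_div_of_nonneg_left (by positivity) hc0 ?_
            exact le_mul_of_one_le_right hc0.le hr1
      _ = C₂ * r ^ rho α * Real.exp (ε / 2 * r ^ rho α) * P := by
          rw [hC2, Real.exp_add]
          ring
  have hB : ∫ t in Ioi D, w t ≤ C₃ * P := by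
    have hdh : 0 < d * h := by positivity
    have b1 : ∫ t in Ioi D, d * h * w t ≤
        ∫ t in Ioi (0 : ℝ), ((X₁ + t) ^ α - l.im) * w t := by
      have hmono : ∫ t in Ioi D, d * h * w t ≤ ∫ t in Ioi D, ((X₁ + t) ^ α - l.im) * w t := by
        refine setIntegral_mono_on ((hi1.mono_set (Ioi_subset_Ioi hD0)).const_mul _)
          (hi2.mono_set (Ioi_subset_Ioi hD0)) measurableSet_Ioi fun t ht => ?_
        have ht' : X₂ ≤ X₁ + t := by
          have : D < t := ht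
          linarith
        have t1 : (1 + d) * h ≤ (X₁ + t) ^ α := by
          rw [← hX2α]
          exact Real.rpow_le_rpow hX2n ht' hα.le
        refine mul_le_mul_of_nonneg_right ?_ (by positivity)
        linarith
      refine hmono.trans (setIntegral_mono_set hi2 ?_ (Ioi_subset_Ioi hD0).eventuallyLE)
      refine (ae_restrict_mem measurableSet_Ioi).mono fun t ht => ?_
      have ht' : 0 < t := ht
      have t1 : h ≤ (X₁ + t) ^ α := by
        rw [← hX1α]
        exact Real.rpow_le_rpow hX1n (by linarith) hα.le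
      exact mul_nonneg (by linarith) (by positivity)
    rw [integral_const_mul] at b1
    have b2 := (PP_bound F a b l hrere X₁).1
    have b3 : d * h * ∫ t in Ioi D, w t ≤ P / (2 * Real.sqrt l.re) := b1.trans (hen.trans b2)
    have b4 : Real.sqrt c ≤ Real.sqrt l.re :=
      Real.sqrt_le_sqrt ((le_mul_of_one_le_right hc0.le hr1).trans hre)
    have b5 : P / (2 * Real.sqrt l.re) ≤ P / (2 * Real.sqrt c) := by
      have : 0 < Real.sqrt c := Real.sqrt_pos.2 hc0
      exact div_le_div_of_nonneg_left hP0 (by positivity) (by linarith)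
    have b6 : 0 ≤ ∫ t in Ioi D, w t := setIntegral_nonneg measurableSet_Ioi fun t _ => by
      rw [hw]; positivity
    have b7 : d * s * ∫ t in Ioi D, w t ≤ P / (2 * Real.sqrt c) := by
      have : s ≤ h := (le_mul_of_one_le_right hs0.le hr1).trans him
      calc d * s * ∫ t in Ioi D, w t ≤ d * h * ∫ t in Ioi D, w t := by
            refine mul_le_mul_of_nonneg_right ?_ b6
            exact mul_le_mul_of_nonneg_left this hd0.le
        _ ≤ _ := b3.trans b5
    calc ∫ t in Ioi D, w t = (d * s * ∫ t in Ioi D, w t) / (d * s) := by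
          field_simp
      _ ≤ (P / (2 * Real.sqrt c)) / (d * s) := by gcongr
      _ = C₃ * P := by
          rw [hC3]
          field_simp
  have hfin := hR r hl
  rw [pow_one] at hfin
  have he1 : 1 ≤ Real.exp (ε / 2 * r ^ rho α) := by
    rw [← Real.exp_zero]
    exact Real.exp_le_exp.2 (by positivity)
  calc (∫ t in Ioc 0 D, w t) + ∫ t in Ioi D, w t
      ≤ C₂ * r ^ rho α * Real.exp (ε / 2 * r ^ rho α) * P + C₃ * P := add_le_add hA hB
    _ ≤ (C₂ + C₃) * r ^ rho α * Real.exp (ε / 2 * r ^ rho α) * P := by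
        have h2 : 1 ≤ r ^ rho α * Real.exp (ε / 2 * r ^ rho α) := one_le_mul_of_one_le_of_one_le hrρ he1
        have h1 : C₃ ≤ C₃ * (r ^ rho α * Real.exp (ε / 2 * r ^ rho α)) :=
          le_mul_of_one_le_right hC3p.le h2
        have h3 := mul_le_mul_of_nonneg_right h1 hP0
        linarith
    _ ≤ Real.exp (ε / 2 * r ^ rho α) * Real.exp (ε / 2 * r ^ rho α) * P :=
        mul_le_mul_of_nonneg_right (mul_le_mul_of_nonneg_right hfin (Real.exp_pos _).le) hP0
    _ = Real.exp (ε * r ^ rho α) * P := by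
        rw [← Real.exp_add]
        ring_nf

end

end Pool.Agent.CRV
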