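import Pool.Agent.CRV.Stmts

set_option autoImplicit false

open MeasureTheory Complex Set Filter Topology
open scoped Real

namespace Pool.Agent.CRV

namespace TGaux

/-- the radicand after scaling -/
noncomputable def gz (α ψ u : ℝ) : ℂ := exp (ψ * I) - I * ((Real.sin ψ * u ^ α : ℝ) : ℂ)

theorem gz_re (α ψ u : ℝ) : (gz α ψ u).re = Real.cos ψ := by
  unfold gz
  rw [Complex.sub_re, Complex.exp_ofReal_mul_I_re, Complex.I_mul_re, Complex.ofReal_im]
  simp

theorem gz_im (α ψ u : ℝ) : (gz α ψ u).im = Real.sin ψ - Real.sin ψ * u ^ α := by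
  unfold gz
  rw [Complex.sub_im, Complex.exp_ofReal_mul_I_im, Complex.I_mul_im, Complex.ofReal_re]

/-- the root after scaling -/
noncomputable def kk (α ψ u : ℝ) : ℂ := gz α ψ u ^ (1 / 2 : ℂ)

theorem kf_eq {α ψ u : ℝ} (hα : 0 < α) (h0 : 0 ≤ Real.sin ψ) (hu : 0 ≤ u) :
    kf α (exp (ψ * I)) (Real.sin ψ ^ (1 / α) * u) = kk α ψ u := by
  unfold kf kk gz
  rw [Real.mul_rpow (Real.rpow_nonneg h0 _) hu, ← Real.rpow_mul h0]
  have : 1 / α * α = 1 := by field_simp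
  rw [this, Real.rpow_one]

theorem continuousAt_sqrt {z : ℂ} (hz : 0 ≤ z.re) : ContinuousAt (fun z : ℂ => z ^ (1 / 2 : ℂ)) z := by
  by_cases h : z ∈ slitPlane
  · exact continuousAt_cpow_const h
  · have hz0 : z = 0 := by
      rw [Complex.mem_slitPlane_iff] at h
      push Not at h
      exact Complex.ext (le_antisymm h.1 hz) h.2
    subst hz0
    have h1 : ContinuousAt (fun x : ℂ × ℂ => x.1 ^ x.2) ((0 : ℂ), (1 / 2 : ℂ)) :=
      Complex.continuousAt_cpow_zero_of_re_pos (by norm_num)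
    exact ContinuousAt.comp (f := fun z : ℂ => (z, (1 / 2 : ℂ))) (x := 0) h1
      (by fun_prop)

/-- a version of the integrand continuous on the whole plane -/
noncomputable def kt (α ψ u : ℝ) : ℂ :=
  (((max (Real.cos ψ) 0 : ℝ) : ℂ) + ((Real.sin ψ - Real.sin ψ * u ^ α : ℝ) : ℂ) * I) ^ (1 / 2 : ℂ)

theorem kt_eq {α ψ u : ℝ} (hψ : 0 ≤ Real.cos ψ) : kt α ψ u = kk α ψ u := by
  unfold kt kk
  congr 1
  refine Complex.ext ?_ ?_
  · rw [gz_re, Complex.add_re, Complex.ofReal_re, Complex.re_ofReal_mul, Complex.I_re, mul_zero,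
      add_zero, max_eq_left hψ]
  · rw [gz_im, Complex.add_im, Complex.ofReal_im, Complex.im_ofReal_mul, Complex.I_im, mul_one,
      zero_add]

theorem kt_cont {α : ℝ} (hα : 0 < α) : Continuous (Function.uncurry (kt α)) := by
  rw [continuous_iff_continuousAt]
  rintro ⟨ψ, u⟩
  have h1 : Continuous (fun p : ℝ × ℝ => (((max (Real.cos p.1) 0 : ℝ) : ℂ) +
      ((Real.sin p.1 - Real.sin p.1 * p.2 ^ α : ℝ) : ℂ) * I)) := by
    have h2 : Continuous fun p : ℝ × ℝ => p.2 ^ α :=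
      continuous_snd.rpow_const fun _ => Or.inr hα.le
    have h3 : Continuous fun p : ℝ × ℝ => Real.sin p.1 := Real.continuous_sin.comp continuous_fst
    have h4 : Continuous fun p : ℝ × ℝ => Real.cos p.1 := Real.continuous_cos.comp continuous_fst
    exact (Complex.continuous_ofReal.comp (h4.max continuous_const)).add
      ((Complex.continuous_ofReal.comp (h3.sub (h3.mul h2))).mul continuous_const)
  refine ContinuousAt.comp (g := fun z : ℂ => z ^ (1 / 2 : ℂ))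
    (f := fun p : ℝ × ℝ => (((max (Real.cos p.1) 0 : ℝ) : ℂ) +
      ((Real.sin p.1 - Real.sin p.1 * p.2 ^ α : ℝ) : ℂ) * I)) (continuousAt_sqrt ?_)
      h1.continuousAt
  simp

/-- the scaled integral -/
noncomputable def hh (α ψ : ℝ) : ℂ := ∫ u in (0 : ℝ)..1, kk α ψ u

theorem kk_cont_u {α ψ : ℝ} (hα : 0 < α) (hψ : 0 ≤ Real.cos ψ) : Continuous (kk α ψ) := by
  have h1 : kk α ψ = kt α ψ := by
    funext u; exact (kt_eq hψ).symm
  rw [h1]
  have h2 : Continuous fun u : ℝ => Function.uncurry (kt α) (ψ, u) :=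
    (kt_cont hα).comp (Continuous.prodMk continuous_const continuous_id)
  exact h2

theorem Th_eq {α ψ : ℝ} (hα : 0 < α) (h0 : 0 ≤ Real.sin ψ) (hc : 0 ≤ Real.cos ψ) :
    Th α ψ = (((Real.sin ψ ^ (1 / α) : ℝ) : ℂ) * hh α ψ).im := by
  rw [Complex.im_ofReal_mul]
  unfold Th Tf If x1
  rw [Complex.exp_ofReal_mul_I_im]
  have h1 : (hh α ψ).im = ∫ u in (0 : ℝ)..1, (kk α ψ u).im := by
    have h2 := Complex.imCLM.intervalIntegral_comp_comm (μ := volume)
      ((kk_cont_u hα hc).intervalIntegrable 0 1)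
    exact h2.symm
  rw [h1]
  rcases h0.eq_or_lt with h | h
  · rw [← h, Real.zero_rpow (by positivity)]
    simp
  · set x := Real.sin ψ ^ (1 / α) with hx
    have hx0 : 0 < x := Real.rpow_pos_of_pos h _
    have h2 := intervalIntegral.integral_comp_mul_left (a := 0) (b := 1)
      (fun t => (kf α (exp (ψ * I)) t).im) hx0.ne'
    rw [mul_zero, mul_one] at h2
    have h3 : ∫ u in (0 : ℝ)..1, (kk α ψ u).im =
        ∫ u in (0 : ℝ)..1, (kf α (exp (ψ * I)) (x * u)).im := by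
      refine intervalIntegral.integral_congr ?_
      intro u hu
      rw [uIcc_of_le zero_le_one] at hu
      simp only
      rw [hx, kf_eq hα h0 hu.1]
    rw [h3, h2, smul_eq_mul, mul_inv_cancel_left₀ hx0.ne']

theorem Th_cont {α : ℝ} (hα : 0 < α) : ContinuousOn (Th α) (Icc 0 (π / 2)) := by
  have h1 : Continuous fun ψ : ℝ => (((Real.sin ψ ^ (1 / α) : ℝ) : ℂ) *
      ∫ u in (0 : ℝ)..1, kt α ψ u).im := by
    refine Complex.continuous_im.comp (Continuous.mul (Complex.continuous_ofReal.comp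
      (Real.continuous_sin.rpow_const fun _ => Or.inr (by positivity))) ?_)
    exact intervalIntegral.continuous_parametric_intervalIntegral_of_continuous' (kt_cont hα) 0 1
  refine h1.continuousOn.congr ?_
  intro ψ hψ
  have hc : 0 ≤ Real.cos ψ := Real.cos_nonneg_of_mem_Icc ⟨by linarith [hψ.1, Real.pi_pos], hψ.2⟩
  have hs : 0 ≤ Real.sin ψ := Real.sin_nonneg_of_mem_Icc ⟨hψ.1, by linarith [hψ.2, Real.pi_pos]⟩
  rw [Th_eq hα hs hc]
  simp only
  congr 2
  unfold hh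
  congr 1
  funext u
  exact (kt_eq hc).symm

theorem gz_slit {α ψ u : ℝ} (h : 0 < Real.cos ψ) : gz α ψ u ∈ slitPlane := by
  rw [Complex.mem_slitPlane_iff]
  left
  rw [gz_re]
  exact h

theorem kk_sq {α ψ u : ℝ} (h : 0 < Real.cos ψ) : kk α ψ u ^ 2 = gz α ψ u := by
  unfold kk
  have h0 : gz α ψ u ≠ 0 := Complex.slitPlane_ne_zero (gz_slit h)
  rw [sq, ← Complex.cpow_add _ _ h0]
  norm_num

theorem kk_norm {α ψ u : ℝ} (h : 0 < Real.cos ψ) : Real.cos ψ ≤ ‖kk α ψ u‖ ^ 2 := by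
  rw [← norm_pow, kk_sq h, ← gz_re α ψ u]
  exact (le_abs_self _).trans (Complex.abs_re_le_norm _)

theorem kk_ne {α ψ u : ℝ} (h : 0 < Real.cos ψ) : kk α ψ u ≠ 0 := by
  intro h0
  have := kk_norm (α := α) (u := u) h
  rw [h0] at this
  simp at this
  linarith

theorem sqrt_re_im {z : ℂ} (hz : z ≠ 0) :
    (z ^ (1 / 2 : ℂ)).re = Real.exp (Real.log ‖z‖ / 2) * Real.cos (arg z / 2) ∧
    (z ^ (1 / 2 : ℂ)).im = Real.exp (Real.log ‖z‖ / 2) * Real.sin (arg z / 2) := by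
  have h1 : z ^ (1 / 2 : ℂ) = exp (log z * (1 / 2)) := by
    rw [Complex.cpow_def_of_ne_zero hz]
  have h2 : (log z * (1 / 2)).re = Real.log ‖z‖ / 2 := by
    have : (1 / 2 : ℂ) = ((1 / 2 : ℝ) : ℂ) := by push_cast; rfl
    rw [this, Complex.re_mul_ofReal, Complex.log_re]
    ring
  have h3 : (log z * (1 / 2)).im = arg z / 2 := by
    have : (1 / 2 : ℂ) = ((1 / 2 : ℝ) : ℂ) := by push_cast; rfl
    rw [this, Complex.im_mul_ofReal, Complex.log_im]
    ring
  rw [h1, Complex.exp_re, Complex.exp_im, h2, h3]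
  exact ⟨rfl, rfl⟩

theorem sqrt_re_pos {z : ℂ} (hz : z ∈ slitPlane) : 0 < (z ^ (1 / 2 : ℂ)).re := by
  rw [(sqrt_re_im (Complex.slitPlane_ne_zero hz)).1]
  refine mul_pos (Real.exp_pos _) (Real.cos_pos_of_mem_Ioo ⟨?_, ?_⟩)
  · have := Complex.neg_pi_lt_arg z
    linarith
  · have h1 := Complex.arg_le_pi z
    have h2 : arg z ≠ π := Complex.slitPlane_arg_ne_pi hz
    have h3 : arg z < π := lt_of_le_of_ne h1 h2
    linarith

theorem sqrt_im_nonneg {z : ℂ} (hz : z ≠ 0) (h : 0 ≤ z.im) : 0 ≤ (z ^ (1 / 2 : ℂ)).im := by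
  rw [(sqrt_re_im hz).2]
  have h1 : 0 ≤ arg z := Complex.arg_nonneg_iff.2 h
  have h2 := Complex.arg_le_pi z
  exact mul_nonneg (Real.exp_pos _).le (Real.sin_nonneg_of_nonneg_of_le_pi (by linarith)
    (by linarith [Real.pi_pos]))

theorem sqrt_deriv_real {g : ℝ → ℂ} {g' : ℂ} {x : ℝ} (hg : HasDerivAt g g' x)
    (h : g x ∈ slitPlane) :
    HasDerivAt (fun x => g x ^ (1 / 2 : ℂ)) (g' / (2 * g x ^ (1 / 2 : ℂ))) x := by
  have h1 : HasDerivAt (fun z : ℂ => z ^ (1 / 2 : ℂ)) ((1 / 2 : ℂ) * g x ^ ((1 / 2 : ℂ) - 1)) (g x) :=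
    (Complex.hasStrictDerivAt_cpow_const h).hasDerivAt
  have h2 := h1.comp x hg
  have h0 : g x ≠ 0 := Complex.slitPlane_ne_zero h
  have h3 : g x ^ ((1 / 2 : ℂ) - 1) = (g x ^ (1 / 2 : ℂ))⁻¹ := by
    rw [← Complex.cpow_neg]
    norm_num
  rw [h3] at h2
  have h4 : (1 / 2 : ℂ) * (g x ^ (1 / 2 : ℂ))⁻¹ * g' = g' / (2 * g x ^ (1 / 2 : ℂ)) := by
    have hw : g x ^ (1 / 2 : ℂ) ≠ 0 := by
      rw [Ne, Complex.cpow_eq_zero_iff]
      exact fun h => h0 h.1
    generalize g x ^ (1 / 2 : ℂ) = w at hw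
    field_simp
  rw [h4] at h2
  exact h2

theorem gz_deriv (α ψ u : ℝ) : HasDerivAt (fun ψ => gz α ψ u)
    (I * exp (ψ * I) - I * ((Real.cos ψ * u ^ α : ℝ) : ℂ)) ψ := by
  unfold gz
  have h1 : HasDerivAt (fun ψ : ℝ => exp (ψ * I)) (I * exp (ψ * I)) ψ := by
    have e1 : HasDerivAt (fun ψ : ℝ => (ψ : ℂ) * I) I ψ := by
      have := (Complex.ofRealCLM.hasDerivAt (x := ψ)).mul_const I
      simpa using this
    have := e1.cexp
    rwa [mul_comm] at this
  have h2 : HasDerivAt (fun ψ : ℝ => ((Real.sin ψ * u ^ α : ℝ) : ℂ))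
      ((Real.cos ψ * u ^ α : ℝ) : ℂ) ψ :=
    ((Real.hasDerivAt_sin ψ).mul_const (u ^ α)).ofReal_comp
  exact h1.sub (h2.const_mul I)

theorem kk_deriv {α ψ u : ℝ} (h : 0 < Real.cos ψ) : HasDerivAt (fun ψ => kk α ψ u)
    ((I * exp (ψ * I) - I * ((Real.cos ψ * u ^ α : ℝ) : ℂ)) / (2 * kk α ψ u)) ψ :=
  sqrt_deriv_real (gz_deriv α ψ u) (gz_slit h)

theorem kk_deriv_u {α ψ u : ℝ} (hu : 0 < u) (h : 0 < Real.cos ψ) :
    HasDerivAt (fun u : ℝ => (u : ℂ) * kk α ψ u)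
      ((1 + α / 2) * kk α ψ u - α * (exp (ψ * I) / (2 * kk α ψ u))) u := by
  have h1 : HasDerivAt (fun u : ℝ => gz α ψ u)
      (-(I * ((Real.sin ψ * (α * u ^ (α - 1)) : ℝ) : ℂ))) u := by
    unfold gz
    have e1 : HasDerivAt (fun u : ℝ => u ^ α) (α * u ^ (α - 1)) u :=
      Real.hasDerivAt_rpow_const (Or.inl hu.ne')
    have e2 : HasDerivAt (fun u : ℝ => ((Real.sin ψ * u ^ α : ℝ) : ℂ))
      ((Real.sin ψ * (α * u ^ (α - 1)) : ℝ) : ℂ) u := (e1.const_mul (Real.sin ψ)).ofReal_comp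
    have e3 := (hasDerivAt_const u (exp (ψ * I))).sub (e2.const_mul I)
    rw [zero_sub] at e3
    exact e3
  have h2 := sqrt_deriv_real h1 (gz_slit h)
  have h3 : HasDerivAt (fun u : ℝ => (u : ℂ)) 1 u := Complex.ofRealCLM.hasDerivAt (x := u)
  have h4 := h3.mul h2
  have h5 : (1 : ℂ) * gz α ψ u ^ (1 / 2 : ℂ) +
      (u : ℂ) * (-(I * ((Real.sin ψ * (α * u ^ (α - 1)) : ℝ) : ℂ)) / (2 * gz α ψ u ^ (1 / 2 : ℂ))) =
      (1 + α / 2) * kk α ψ u - α * (exp (ψ * I) / (2 * kk α ψ u)) := by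
    have e1 : gz α ψ u ^ (1 / 2 : ℂ) = kk α ψ u := rfl
    rw [e1]
    have hk := kk_ne (α := α) (u := u) h
    have hs := kk_sq (α := α) (u := u) h
    have e2 : (u : ℂ) * ((Real.sin ψ * (α * u ^ (α - 1)) : ℝ) : ℂ) =
        α * ((Real.sin ψ * u ^ α : ℝ) : ℂ) := by
      have e3 : u ^ α = u * u ^ (α - 1) := by
        rw [Real.rpow_sub_one hu.ne']
        field_simp
      rw [e3]
      push_cast
      ring
    have e4 : exp (ψ * I) = kk α ψ u ^ 2 + I * ((Real.sin ψ * u ^ α : ℝ) : ℂ) := by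
      rw [hs]
      unfold gz
      ring
    rw [e4]
    have e5 : (u : ℂ) * (-(I * ((Real.sin ψ * (α * u ^ (α - 1)) : ℝ) : ℂ)) / (2 * kk α ψ u)) =
      -(I * (α * ((Real.sin ψ * u ^ α : ℝ) : ℂ))) / (2 * kk α ψ u) := by
      rw [← e2]; ring
    rw [e5]
    field_simp
    ring
  rw [h5] at h4
  exact h4

/-- `∫ e^{iψ}/(2k)` -/
noncomputable def JJ (α ψ : ℝ) : ℂ := ∫ u in (0 : ℝ)..1, exp (ψ * I) / (2 * kk α ψ u)

theorem inv_cont {α ψ : ℝ} (hα : 0 < α) (h : 0 < Real.cos ψ) :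
    Continuous fun u => exp (ψ * I) / (2 * kk α ψ u) :=
  continuous_const.div (continuous_const.mul (kk_cont_u hα h.le))
    fun u => mul_ne_zero two_ne_zero (kk_ne h)

theorem J_eq {α ψ : ℝ} (hα : 0 < α) (h : 0 < Real.cos ψ) :
    α * JJ α ψ = (1 + α / 2) * hh α ψ - ((Real.sqrt (Real.cos ψ) : ℝ) : ℂ) := by
  have h1 : ∫ u in (0 : ℝ)..1, ((1 + α / 2) * kk α ψ u - α * (exp (ψ * I) / (2 * kk α ψ u))) =
      ((1 : ℝ) : ℂ) * kk α ψ 1 - ((0 : ℝ) : ℂ) * kk α ψ 0 := by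
    refine intervalIntegral.integral_eq_sub_of_hasDerivAt_of_le zero_le_one ?_ ?_ ?_
      (f := fun u : ℝ => (u : ℂ) * kk α ψ u)
    · exact (Complex.continuous_ofReal.mul (kk_cont_u hα h.le)).continuousOn
    · intro u hu
      exact kk_deriv_u hu.1 h
    · exact ((continuous_const.mul (kk_cont_u hα h.le)).sub
        (continuous_const.mul (inv_cont hα h))).intervalIntegrable _ _
  rw [intervalIntegral.integral_sub, intervalIntegral.integral_const_mul,
    intervalIntegral.integral_const_mul] at h1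
  · have h2 : kk α ψ 1 = ((Real.sqrt (Real.cos ψ) : ℝ) : ℂ) := by
      have e1 : gz α ψ 1 = ((Real.cos ψ : ℝ) : ℂ) := by
        refine Complex.ext ?_ ?_
        · rw [gz_re, Complex.ofReal_re]
        · rw [gz_im, Complex.ofReal_im]; simp
      unfold kk
      rw [e1, Real.sqrt_eq_rpow, Complex.ofReal_cpow h.le]
      norm_num
    rw [h2] at h1
    have h3 : (1 + α / 2) * hh α ψ - α * JJ α ψ = ((Real.sqrt (Real.cos ψ) : ℝ) : ℂ) := by
      rw [hh, JJ, h1]
      simp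
    rw [← h3]
    ring
  · exact (continuous_const.mul (kk_cont_u hα h.le)).intervalIntegrable _ _
  · exact (continuous_const.mul (inv_cont hα h)).intervalIntegrable _ _

theorem hh_deriv0 {α ψ : ℝ} (hα : 0 < α) (hψ : ψ ∈ Ioo 0 (π / 2)) :
    HasDerivAt (hh α)
      (∫ u in (0 : ℝ)..1, (I * exp (ψ * I) - I * ((Real.cos ψ * u ^ α : ℝ) : ℂ)) /
        (2 * kk α ψ u)) ψ := by
  set b := (ψ + π / 2) / 2 with hb
  have hb1 : ψ < b := by rw [hb]; linarith [hψ.2]
  have hb2 : b < π / 2 := by rw [hb]; linarith [hψ.2]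
  have hcb : 0 < Real.cos b := Real.cos_pos_of_mem_Ioo ⟨by linarith [hψ.1, Real.pi_pos], hb2⟩
  have hcos : ∀ x ∈ Ioo 0 b, Real.cos b ≤ Real.cos x := by
    intro x hx
    exact Real.cos_le_cos_of_nonneg_of_le_pi hx.1.le (by linarith [Real.pi_pos]) hx.2.le
  have hs : Ioo 0 b ∈ 𝓝 ψ := Ioo_mem_nhds hψ.1 hb1
  refine (intervalIntegral.hasDerivAt_integral_of_dominated_loc_of_deriv_le
    (F := fun ψ u => kk α ψ u)
    (F' := fun ψ u => (I * exp (ψ * I) - I * ((Real.cos ψ * u ^ α : ℝ) : ℂ)) / (2 * kk α ψ u))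
    (bound := fun _ => 1 / Real.sqrt (Real.cos b)) hs ?_ ?_ ?_ ?_ ?_ ?_).2
  · filter_upwards [hs] with x hx
    exact (kk_cont_u hα (hcb.le.trans (hcos x hx))).aestronglyMeasurable
  · exact (kk_cont_u hα (hcb.le.trans (hcos ψ ⟨hψ.1, hb1⟩))).intervalIntegrable _ _
  · have hc := hcb.trans_le (hcos ψ ⟨hψ.1, hb1⟩)
    refine Continuous.aestronglyMeasurable ?_
    refine Continuous.div ?_ (continuous_const.mul (kk_cont_u hα hc.le))
      fun u => mul_ne_zero two_ne_zero (kk_ne hc)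
    exact continuous_const.sub (continuous_const.mul (Complex.continuous_ofReal.comp
      (continuous_const.mul (continuous_id.rpow_const fun _ => Or.inr hα.le))))
  · refine Filter.Eventually.of_forall ?_
    intro u hu x hx
    rw [uIoc_of_le zero_le_one] at hu
    have hc := hcb.trans_le (hcos x hx)
    rw [norm_div, norm_mul]
    have e1 : ‖I * exp (x * I) - I * ((Real.cos x * u ^ α : ℝ) : ℂ)‖ ≤ 2 := by
      refine (norm_sub_le _ _).trans ?_
      rw [norm_mul, norm_mul, Complex.norm_I, Complex.norm_exp_ofReal_mul_I, Complex.norm_real,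
        Real.norm_eq_abs, abs_mul]
      have e2 : |Real.cos x| ≤ 1 := Real.abs_cos_le_one x
      have e3 : |u ^ α| ≤ 1 := by
        rw [abs_of_nonneg (Real.rpow_nonneg hu.1.le _)]
        exact Real.rpow_le_one hu.1.le hu.2 hα.le
      have e4 : |Real.cos x| * |u ^ α| ≤ 1 * 1 :=
        mul_le_mul e2 e3 (abs_nonneg _) zero_le_one
      linarith
    have e5 : Real.sqrt (Real.cos b) ≤ ‖kk α x u‖ := by
      rw [Real.sqrt_le_left (norm_nonneg _)]
      exact (hcos x hx).trans (kk_norm hc)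
    have hsb : 0 < Real.sqrt (Real.cos b) := Real.sqrt_pos.2 hcb
    have e6 : ‖(2 : ℂ)‖ = 2 := by simp
    rw [e6, div_le_div_iff₀ (mul_pos two_pos (hsb.trans_le e5)) hsb]
    nlinarith [norm_nonneg (kk α x u)]
  · exact continuous_const.intervalIntegrable _ _
  · refine Filter.Eventually.of_forall ?_
    intro u _ x hx
    exact kk_deriv (hcb.trans_le (hcos x hx))

theorem hh_deriv {α ψ : ℝ} (hα : 0 < α) (hψ : ψ ∈ Ioo 0 (π / 2)) :
    HasDerivAt (hh α)
      ((I * rho α - (Real.cos ψ / Real.sin ψ / α : ℝ)) * hh α ψ -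
        (I - (Real.cos ψ / Real.sin ψ : ℝ)) * ((Real.sqrt (Real.cos ψ) / α : ℝ) : ℂ)) ψ := by
  have hc : 0 < Real.cos ψ := Real.cos_pos_of_mem_Ioo ⟨by linarith [hψ.1, Real.pi_pos], hψ.2⟩
  have hs : 0 < Real.sin ψ := Real.sin_pos_of_pos_of_lt_pi hψ.1 (by linarith [hψ.2, Real.pi_pos])
  have h1 := hh_deriv0 hα hψ
  have h2 : ∫ u in (0 : ℝ)..1, (I * exp (ψ * I) - I * ((Real.cos ψ * u ^ α : ℝ) : ℂ)) /
        (2 * kk α ψ u) = (I - (Real.cos ψ / Real.sin ψ : ℝ)) * JJ α ψ +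
          ((Real.cos ψ / Real.sin ψ / 2 : ℝ) : ℂ) * hh α ψ := by
    unfold JJ hh
    rw [← intervalIntegral.integral_const_mul, ← intervalIntegral.integral_const_mul,
      ← intervalIntegral.integral_add]
    · refine intervalIntegral.integral_congr ?_
      intro u hu
      simp only
      have hk := kk_ne (α := α) (u := u) hc
      have e4 : ((Real.sin ψ * u ^ α : ℝ) : ℂ) = -I * (exp (ψ * I) - kk α ψ u ^ 2) := by
        rw [kk_sq hc]
        unfold gz
        linear_combination ((Real.sin ψ * u ^ α : ℝ) : ℂ) * I_mul_I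
      have hs' : ((Real.sin ψ : ℝ) : ℂ) ≠ 0 := by exact_mod_cast hs.ne'
      have e5 : ((Real.cos ψ * u ^ α : ℝ) : ℂ) =
          ((Real.cos ψ : ℝ) : ℂ) / ((Real.sin ψ : ℝ) : ℂ) * ((Real.sin ψ * u ^ α : ℝ) : ℂ) := by
        rw [Complex.ofReal_mul, Complex.ofReal_mul]
        field_simp
      rw [e5, e4, Complex.ofReal_div, Complex.ofReal_div, Complex.ofReal_div]
      set cc := ((Real.cos ψ : ℝ) : ℂ)
      set ss := ((Real.sin ψ : ℝ) : ℂ)
      have e6 : I * (cc / ss * (-I * (exp (ψ * I) - kk α ψ u ^ 2))) =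
          cc / ss * (exp (ψ * I) - kk α ψ u ^ 2) := by
        linear_combination (-(cc / ss * (exp (ψ * I) - kk α ψ u ^ 2))) * I_mul_I
      rw [e6]
      push_cast
      field_simp
      ring
    · exact (continuous_const.mul (inv_cont hα hc)).intervalIntegrable _ _
    · exact (continuous_const.mul (kk_cont_u hα hc.le)).intervalIntegrable _ _
  rw [h2] at h1
  have h3 : JJ α ψ = rho α * hh α ψ - ((Real.sqrt (Real.cos ψ) / α : ℝ) : ℂ) := by
    have hα' : (α : ℂ) ≠ 0 := by exact_mod_cast hα.ne'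
    have := J_eq hα hc
    have e : JJ α ψ = (α * JJ α ψ) / α := by field_simp
    rw [e, this]
    unfold rho
    push_cast
    field_simp
    ring
  rw [h3] at h1
  refine h1.congr_deriv ?_
  have hα' : (α : ℂ) ≠ 0 := by exact_mod_cast hα.ne'
  have hs' : ((Real.sin ψ : ℝ) : ℂ) ≠ 0 := by exact_mod_cast hs.ne'
  unfold rho
  push_cast
  ring

/-- `Z = (sin ψ)^{1/α} h` -/
noncomputable def ZZ (α ψ : ℝ) : ℂ := ((Real.sin ψ ^ (1 / α) : ℝ) : ℂ) * hh α ψ

theorem ZZ_deriv {α ψ : ℝ} (hα : 0 < α) (hψ : ψ ∈ Ioo 0 (π / 2)) :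
    HasDerivAt (ZZ α)
      (I * rho α * ZZ α ψ - (I - (Real.cos ψ / Real.sin ψ : ℝ)) *
        ((Real.sin ψ ^ (1 / α) * Real.sqrt (Real.cos ψ) / α : ℝ) : ℂ)) ψ := by
  have hs : 0 < Real.sin ψ := Real.sin_pos_of_pos_of_lt_pi hψ.1 (by linarith [hψ.2, Real.pi_pos])
  have h1 : HasDerivAt (fun ψ => Real.sin ψ ^ (1 / α))
      (Real.cos ψ * (1 / α) * Real.sin ψ ^ (1 / α - 1)) ψ :=
    (Real.hasDerivAt_sin ψ).rpow_const (Or.inl hs.ne')
  have h2 := h1.ofReal_comp.mul (hh_deriv hα hψ)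
  refine HasDerivAt.congr_deriv (f := ZZ α) h2 ?_
  unfold ZZ
  have e1 : Real.sin ψ ^ (1 / α - 1) = Real.sin ψ ^ (1 / α) / Real.sin ψ := by
    rw [Real.rpow_sub_one hs.ne']
  rw [e1]
  have hα' : (α : ℂ) ≠ 0 := by exact_mod_cast hα.ne'
  have hs' : ((Real.sin ψ : ℝ) : ℂ) ≠ 0 := by exact_mod_cast hs.ne'
  push_cast
  ring

end TGaux

open TGaux in
theorem tg0 : Stmt_TG0 := by
  intro α hα _
  refine ⟨Th_cont hα, fun ψ => rho α * (ZZ α ψ).re -
    Real.sin ψ ^ (1 / α) * Real.sqrt (Real.cos ψ) / α, ?_⟩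
  intro ψ hψ
  have hc : 0 < Real.cos ψ := Real.cos_pos_of_mem_Ioo ⟨by linarith [hψ.1, Real.pi_pos], hψ.2⟩
  have hs : 0 < Real.sin ψ := Real.sin_pos_of_pos_of_lt_pi hψ.1 (by linarith [hψ.2, Real.pi_pos])
  have hThZ : Th α ψ = (ZZ α ψ).im := Th_eq hα hs.le hc.le
  refine ⟨?_, ?_, ?_⟩
  · have h1 := Complex.imCLM.hasFDerivAt.comp_hasDerivAt ψ (ZZ_deriv hα hψ)
    have h2 : HasDerivAt (Th α) (Complex.imCLM (I * rho α * ZZ α ψ -
        (I - (Real.cos ψ / Real.sin ψ : ℝ)) *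
        ((Real.sin ψ ^ (1 / α) * Real.sqrt (Real.cos ψ) / α : ℝ) : ℂ))) ψ := by
      refine h1.congr_of_eventuallyEq ?_
      filter_upwards [Ioo_mem_nhds hψ.1 hψ.2] with x hx
      have hcx : 0 < Real.cos x := Real.cos_pos_of_mem_Ioo ⟨by linarith [hx.1, Real.pi_pos], hx.2⟩
      have hsx : 0 < Real.sin x :=
        Real.sin_pos_of_pos_of_lt_pi hx.1 (by linarith [hx.2, Real.pi_pos])
      exact Th_eq hα hsx.le hcx.le
    refine h2.congr_deriv ?_
    rw [Complex.imCLM_apply, Complex.sub_im, Complex.im_mul_ofReal, mul_assoc, Complex.I_mul_im,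
      Complex.re_ofReal_mul, Complex.sub_im, Complex.I_im, Complex.ofReal_im]
    ring
  · -- positivity
    have h1 : rho α * (ZZ α ψ).re - Real.sin ψ ^ (1 / α) * Real.sqrt (Real.cos ψ) / α =
        Real.sin ψ ^ (1 / α) * (JJ α ψ).re := by
      have e1 := J_eq hα hc
      have e2 : (α * JJ α ψ).re = α * (JJ α ψ).re := Complex.re_ofReal_mul _ _
      have e3 : (((1 + α / 2) * hh α ψ - ((Real.sqrt (Real.cos ψ) : ℝ) : ℂ)).re) =
          (1 + α / 2) * (hh α ψ).re - Real.sqrt (Real.cos ψ) := by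
        rw [Complex.sub_re, Complex.ofReal_re]
        have : (1 + (α : ℂ) / 2) = ((1 + α / 2 : ℝ) : ℂ) := by push_cast; ring
        rw [this, Complex.re_ofReal_mul]
      rw [e1, e3] at e2
      have e4 : (ZZ α ψ).re = Real.sin ψ ^ (1 / α) * (hh α ψ).re := Complex.re_ofReal_mul _ _
      rw [e4]
      have e5 : (JJ α ψ).re = ((1 + α / 2) * (hh α ψ).re - Real.sqrt (Real.cos ψ)) / α := by
        rw [e2]; field_simp
      rw [e5]
      unfold rho
      field_simp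
      ring
    show 0 < rho α * (ZZ α ψ).re - Real.sin ψ ^ (1 / α) * Real.sqrt (Real.cos ψ) / α
    rw [h1]
    refine mul_pos (Real.rpow_pos_of_pos hs _) ?_
    have h2 : (JJ α ψ).re = ∫ u in (0 : ℝ)..1, (exp (ψ * I) / (2 * kk α ψ u)).re := by
      have h3 := Complex.reCLM.intervalIntegral_comp_comm (μ := volume)
        ((inv_cont hα hc).intervalIntegrable 0 1)
      exact h3.symm
    rw [h2]
    refine intervalIntegral.intervalIntegral_pos_of_pos_on
      ((Complex.continuous_re.comp (inv_cont hα hc)).intervalIntegrable _ _) ?_ zero_lt_one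
    intro u hu
    have hk := kk_ne (α := α) (u := u) hc
    have hre : 0 < (kk α ψ u).re := sqrt_re_pos (gz_slit hc)
    have him : 0 ≤ (kk α ψ u).im := by
      refine sqrt_im_nonneg (Complex.slitPlane_ne_zero (gz_slit hc)) ?_
      rw [gz_im]
      have : u ^ α ≤ 1 := Real.rpow_le_one hu.1.le hu.2.le hα.le
      nlinarith
    rw [Complex.div_re, Complex.exp_ofReal_mul_I_re, Complex.exp_ofReal_mul_I_im]
    have hn : 0 < Complex.normSq (2 * kk α ψ u) :=
      Complex.normSq_pos.2 (mul_ne_zero two_ne_zero hk)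
    have e1 : (2 * kk α ψ u).re = 2 * (kk α ψ u).re := by simp
    have e2 : (2 * kk α ψ u).im = 2 * (kk α ψ u).im := by simp
    rw [e1, e2]
    have p1 : 0 < Real.cos ψ * (2 * (kk α ψ u).re) / Complex.normSq (2 * kk α ψ u) := by positivity
    have p2 : 0 ≤ Real.sin ψ * (2 * (kk α ψ u).im) / Complex.normSq (2 * kk α ψ u) := by positivity
    linarith
  · have h1 := (Complex.reCLM.hasFDerivAt.comp_hasDerivAt ψ (ZZ_deriv hα hψ)).const_mul (rho α)
    have h2 : HasDerivAt (fun ψ => Real.sin ψ ^ (1 / α))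
        (Real.cos ψ * (1 / α) * Real.sin ψ ^ (1 / α - 1)) ψ :=
      (Real.hasDerivAt_sin ψ).rpow_const (Or.inl hs.ne')
    have h3 : HasDerivAt (fun ψ => Real.sqrt (Real.cos ψ))
        (-Real.sin ψ / (2 * Real.sqrt (Real.cos ψ))) ψ :=
      (Real.hasDerivAt_cos ψ).sqrt hc.ne'
    have h4 := h1.sub ((h2.mul h3).div_const α)
    refine HasDerivAt.congr_deriv (f := fun ψ => rho α * (ZZ α ψ).re -
      Real.sin ψ ^ (1 / α) * Real.sqrt (Real.cos ψ) / α) h4 ?_
    rw [hThZ]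
    have e0 : (Complex.reCLM (I * rho α * ZZ α ψ -
        (I - (Real.cos ψ / Real.sin ψ : ℝ)) *
        ((Real.sin ψ ^ (1 / α) * Real.sqrt (Real.cos ψ) / α : ℝ) : ℂ))) =
        -(rho α * (ZZ α ψ).im) + Real.cos ψ / Real.sin ψ *
          (Real.sin ψ ^ (1 / α) * Real.sqrt (Real.cos ψ) / α) := by
      rw [Complex.reCLM_apply, Complex.sub_re, Complex.re_mul_ofReal, mul_assoc, Complex.I_mul_re,
        Complex.im_ofReal_mul, Complex.sub_re, Complex.I_re, Complex.ofReal_re]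
      ring
    rw [e0]
    have e1 : Real.sin ψ ^ (1 / α - 1) = Real.sin ψ ^ (1 / α) / Real.sin ψ := by
      rw [Real.rpow_sub_one hs.ne']
    rw [e1]
    set P := Real.sin ψ ^ (1 / α)
    have hq : Real.sqrt (Real.cos ψ) ^ 2 = Real.cos ψ := Real.sq_sqrt hc.le
    set q := Real.sqrt (Real.cos ψ) with hqdef
    have hq0 : 0 < q := Real.sqrt_pos.2 hc
    have hpyth : Real.sin ψ ^ 2 + (q ^ 2) ^ 2 = 1 := by
      rw [hq]; exact Real.sin_sq_add_cos_sq ψ
    rw [← hq]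
    unfold rho
    set S := Real.sin ψ
    have hSne : S ≠ 0 := hs.ne'
    have hqne : q ≠ 0 := hq0.ne'
    field_simp
    have hpy : S ^ 2 = 1 - q ^ 4 := by nlinarith
    ring_nf
    rw [hpy]
    ring

end Pool.Agent.CRV
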