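import Pool.Agent.CRV.TG0

set_option autoImplicit false

open MeasureTheory Complex Set Filter Topology
open scoped Real

namespace Pool.Agent.CRV

open TGaux in
theorem tg1 : Stmt_TG1 := by
  intro α hα hα'
  obtain ⟨hc, T1, hT⟩ := tg0 α hα hα'
  refine ⟨hc, ?_, ?_⟩
  · refine strictMonoOn_of_deriv_pos (convex_Icc _ _) hc ?_
    intro ψ hψ
    rw [interior_Icc] at hψ
    rw [(hT ψ hψ).1.deriv]
    exact (hT ψ hψ).2.1
  · rw [Th_eq hα (by simp) (by simp)]
    rw [Real.sin_zero, Real.zero_rpow (by positivity)]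
    simp

theorem tg2 : Stmt_TG2 := by
  intro α hα hα' φ hφ
  obtain ⟨hc, T1, hT⟩ := tg0 α hα hα'
  have hρ : 0 < rho α := by unfold rho; positivity
  set ρ := rho α with hρdef
  have hT1φ := (hT φ hφ).2.1
  refine ⟨T1 φ / ρ, by positivity, ?_⟩
  set A := T1 φ / ρ with hA
  have hAρ : A * ρ = T1 φ := by rw [hA]; field_simp
  intro ψ₁ hψ₁ hd
  have hd' := abs_le.1 hd
  set w : ℝ → ℝ := fun ψ =>
    (T1 ψ + Th α φ * (ρ * Real.sin (ρ * (ψ - φ))) - A * (ρ * Real.cos (ρ * (ψ - φ)))) *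
      Real.sin (ρ * (ψ - ψ₁)) -
    ρ * (Th α ψ - Th α φ * Real.cos (ρ * (ψ - φ)) - A * Real.sin (ρ * (ψ - φ))) *
      Real.cos (ρ * (ψ - ψ₁)) with hw
  have hlin : ∀ c ψ : ℝ, HasDerivAt (fun ψ : ℝ => ρ * (ψ - c)) ρ ψ := by
    intro c ψ
    simpa using ((hasDerivAt_id ψ).sub_const c).const_mul ρ
  have hwd : ∀ ψ ∈ Ioo (0 : ℝ) (π / 2), HasDerivAt w
      (Real.sin ψ ^ (1 / α - 1) / (2 * α * Real.sqrt (Real.cos ψ)) * Real.sin (ρ * (ψ - ψ₁))) ψ := by
    intro ψ hψ
    obtain ⟨h1, _, h2⟩ := hT ψ hψ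
    have s1 := (hlin φ ψ).sin
    have c1 := (hlin φ ψ).cos
    have s2 := (hlin ψ₁ ψ).sin
    have c2 := (hlin ψ₁ ψ).cos
    have H := (((h2.add ((s1.const_mul ρ).const_mul (Th α φ))).sub
      ((c1.const_mul ρ).const_mul A)).mul s2).sub
      ((((h1.sub (c1.const_mul (Th α φ))).sub (s1.const_mul A)).const_mul ρ).mul c2)
    refine HasDerivAt.congr_deriv (f := w) H ?_
    simp only [Pi.add_apply, Pi.sub_apply]
    ring
  have hwφ : w φ = 0 := by
    simp only [hw, sub_self, mul_zero, Real.sin_zero, Real.cos_zero, mul_one, add_zero]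
    rw [hAρ]
    ring
  have hwψ₁ : w ψ₁ = -(ρ * (Th α ψ₁ - Th α φ * Real.cos (ρ * (ψ₁ - φ)) -
      A * Real.sin (ρ * (ψ₁ - φ)))) := by
    simp only [hw, sub_self, mul_zero, Real.sin_zero, Real.cos_zero, mul_one]
    ring
  have hg : ∀ ψ ∈ Ioo (0 : ℝ) (π / 2),
      0 ≤ Real.sin ψ ^ (1 / α - 1) / (2 * α * Real.sqrt (Real.cos ψ)) := by
    intro ψ hψ
    have hs : 0 < Real.sin ψ :=
      Real.sin_pos_of_pos_of_lt_pi hψ.1 (by linarith [hψ.2, Real.pi_pos])
    have := Real.rpow_nonneg hs.le (1 / α - 1)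
    positivity
  have hρπ : ρ * (π / ρ) = π := by field_simp
  have key : w ψ₁ ≤ 0 := by
    rcases le_total φ ψ₁ with h | h
    · -- `w` antitone on `[φ, ψ₁]`
      have hsub : ∀ x ∈ Icc φ ψ₁, x ∈ Ioo (0 : ℝ) (π / 2) := fun x hx =>
        ⟨hφ.1.trans_le hx.1, hx.2.trans_lt hψ₁.2⟩
      have hanti : AntitoneOn w (Icc φ ψ₁) := by
        refine antitoneOn_of_deriv_nonpos (convex_Icc _ _) ?_ ?_ ?_
        · exact fun x hx => (hwd x (hsub x hx)).continuousAt.continuousWithinAt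
        · intro x hx
          exact (hwd x (hsub x (interior_subset hx))).differentiableAt.differentiableWithinAt
        · intro x hx
          rw [interior_Icc] at hx
          have hx' := hsub x ⟨hx.1.le, hx.2.le⟩
          rw [(hwd x hx').deriv]
          refine mul_nonpos_of_nonneg_of_nonpos (hg x hx') ?_
          refine Real.sin_nonpos_of_nonpos_of_neg_pi_le ?_ ?_
          · exact mul_nonpos_of_nonneg_of_nonpos hρ.le (by linarith [hx.2])
          · have e1 : -(π / ρ) ≤ x - ψ₁ := by linarith [hx.1, hd'.2]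
            have e2 := mul_le_mul_of_nonneg_left e1 hρ.le
            rw [mul_neg, hρπ] at e2
            exact e2
      have := hanti ⟨le_rfl, h⟩ ⟨h, le_rfl⟩ h
      rwa [hwφ] at this
    · have hsub : ∀ x ∈ Icc ψ₁ φ, x ∈ Ioo (0 : ℝ) (π / 2) := fun x hx =>
        ⟨hψ₁.1.trans_le hx.1, hx.2.trans_lt hφ.2⟩
      have hmono : MonotoneOn w (Icc ψ₁ φ) := by
        refine monotoneOn_of_deriv_nonneg (convex_Icc _ _) ?_ ?_ ?_
        · exact fun x hx => (hwd x (hsub x hx)).continuousAt.continuousWithinAt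
        · intro x hx
          exact (hwd x (hsub x (interior_subset hx))).differentiableAt.differentiableWithinAt
        · intro x hx
          rw [interior_Icc] at hx
          have hx' := hsub x ⟨hx.1.le, hx.2.le⟩
          rw [(hwd x hx').deriv]
          refine mul_nonneg (hg x hx') ?_
          refine Real.sin_nonneg_of_nonneg_of_le_pi ?_ ?_
          · exact mul_nonneg hρ.le (by linarith [hx.1])
          · have e1 : x - ψ₁ ≤ π / ρ := by linarith [hx.2, hd'.1]
            have e2 := mul_le_mul_of_nonneg_left e1 hρ.le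
            rw [hρπ] at e2
            exact e2
      have := hmono ⟨le_rfl, h⟩ ⟨h, le_rfl⟩ h
      rwa [hwφ] at this
  rw [hwψ₁, neg_nonpos] at key
  have := nonneg_of_mul_nonneg_right key hρ
  linarith

end Pool.Agent.CRV
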