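import Pool.Agent.CRV.TG0

set_option autoImplicit false

open MeasureTheory Complex Set Filter Topology
open scoped Real

namespace Pool.Agent.CRV

namespace TSC3

theorem sqrt_real_mul {r : ℝ} (hr : 0 < r) {z : ℂ} (hz : z ≠ 0) :
    ((r : ℂ) * z) ^ (1 / 2 : ℂ) = ((r ^ (1 / 2 : ℝ) : ℝ) : ℂ) * z ^ (1 / 2 : ℂ) := by
  have hr' : (r : ℂ) ≠ 0 := by exact_mod_cast hr.ne'
  rw [Complex.cpow_def_of_ne_zero (mul_ne_zero hr' hz), Complex.log_ofReal_mul hr hz, add_mul,
    Complex.exp_add, ← Complex.cpow_def_of_ne_zero hz]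
  congr 1
  rw [Real.rpow_def_of_pos hr]
  push_cast
  rfl

end TSC3

open TSC3 in
theorem tsc : Stmt_TSC := by
  intro α hα _ l hl
  obtain ⟨h1, h2⟩ := hl
  have hl0 : l ≠ 0 := by
    intro h; rw [h] at h1; simp at h1
  set r := ‖l‖ with hr
  have hr0 : 0 < r := norm_pos_iff.2 hl0
  set ψ := arg l with hψ
  have hlr : l = (r : ℂ) * exp (ψ * I) := (Complex.norm_mul_exp_arg_mul_I l).symm
  have him : l.im = r * Real.sin ψ := by
    rw [hlr, Complex.im_ofReal_mul, Complex.exp_ofReal_mul_I_im]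
  have hre : l.re = r * Real.cos ψ := by
    rw [hlr, Complex.re_ofReal_mul, Complex.exp_ofReal_mul_I_re]
  have hs : 0 < Real.sin ψ := by
    rw [him] at h2
    exact (mul_pos_iff_of_pos_left hr0).1 h2
  have hc : 0 < Real.cos ψ := by
    rw [hre] at h1
    exact (mul_pos_iff_of_pos_left hr0).1 h1
  unfold Th Tf If x1
  rw [Complex.exp_ofReal_mul_I_im, him, Real.mul_rpow hr0.le hs.le]
  set c := r ^ (1 / α) with hcdef
  have hc0 : 0 < c := Real.rpow_pos_of_pos hr0 _
  have h3 := intervalIntegral.integral_comp_mul_left (a := 0) (b := Real.sin ψ ^ (1 / α))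
      (fun t => (kf α l t).im) hc0.ne'
  rw [mul_zero] at h3
  have h4 : ∫ t in (0 : ℝ)..(c * Real.sin ψ ^ (1 / α)), (kf α l t).im =
      c * ∫ u in (0 : ℝ)..(Real.sin ψ ^ (1 / α)), (kf α l (c * u)).im := by
    rw [h3, smul_eq_mul, mul_inv_cancel_left₀ hc0.ne']
  have h5 : ∫ u in (0 : ℝ)..(Real.sin ψ ^ (1 / α)), (kf α l (c * u)).im =
      ∫ u in (0 : ℝ)..(Real.sin ψ ^ (1 / α)), r ^ (1 / 2 : ℝ) * (kf α (exp (ψ * I)) u).im := by
    refine intervalIntegral.integral_congr ?_
    intro u hu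
    rw [uIcc_of_le (Real.rpow_nonneg hs.le _)] at hu
    simp only
    have e1 : kf α l (c * u) = ((r ^ (1 / 2 : ℝ) : ℝ) : ℂ) * kf α (exp (ψ * I)) u := by
      unfold kf
      rw [← sqrt_real_mul hr0]
      · congr 1
        rw [Real.mul_rpow hc0.le hu.1, hcdef, ← Real.rpow_mul hr0.le]
        have : 1 / α * α = 1 := by field_simp
        rw [this, Real.rpow_one, mul_sub, ← hlr]
        push_cast
        ring
      · intro h0
        have := congrArg Complex.re h0
        rw [Complex.sub_re, Complex.exp_ofReal_mul_I_re, Complex.I_mul_re, Complex.ofReal_im,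
          Complex.zero_re] at this
        linarith
    rw [e1, Complex.im_ofReal_mul]
  rw [h4, h5, intervalIntegral.integral_const_mul, ← mul_assoc]
  congr 1
  rw [hcdef, ← Real.rpow_add hr0]
  unfold rho
  congr 1
  ring

namespace TSC3

theorem kf_slit {α : ℝ} {l : ℂ} (hl : 0 < l.re) (t : ℝ) :
    l - I * ((t ^ α : ℝ) : ℂ) ∈ slitPlane := by
  rw [Complex.mem_slitPlane_iff]
  left
  rw [Complex.sub_re, Complex.I_mul_re, Complex.ofReal_im]
  linarith

theorem kf_cont {α : ℝ} (hα : 0 < α) {l : ℂ} (hl : 0 < l.re) : Continuous (kf α l) := by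
  rw [continuous_iff_continuousAt]
  intro t
  have h1 : Continuous fun t : ℝ => l - I * ((t ^ α : ℝ) : ℂ) :=
    continuous_const.sub (continuous_const.mul (Complex.continuous_ofReal.comp
      (continuous_id.rpow_const fun _ => Or.inr hα.le)))
  exact ContinuousAt.comp (g := fun z : ℂ => z ^ (1 / 2 : ℂ))
    (f := fun t : ℝ => l - I * ((t ^ α : ℝ) : ℂ)) (x := t)
    (continuousAt_cpow_const (kf_slit hl t)) h1.continuousAt

theorem kf_sq {α : ℝ} {l : ℂ} (hl : 0 < l.re) (t : ℝ) :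
    kf α l t ^ 2 = l - I * ((t ^ α : ℝ) : ℂ) := by
  unfold kf
  rw [sq, ← Complex.cpow_add _ _ (Complex.slitPlane_ne_zero (kf_slit hl t))]
  norm_num

end TSC3

open TSC3 in
theorem tg3 : Stmt_TG3 := by
  intro α hα _ l hl x hx hxl
  obtain ⟨h1, h2⟩ := hl
  have hcont := kf_cont hα h1
  have hx1 : 0 ≤ x1 α l := Real.rpow_nonneg h2.le _
  have hx1' : x1 α l ^ α = l.im := by
    unfold x1
    rw [← Real.rpow_mul h2.le]
    have : 1 / α * α = 1 := by field_simp
    rw [this, Real.rpow_one]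
  have h3 : If α l x - Tf α l = ∫ t in (x1 α l)..x, (kf α l t).im := by
    unfold Tf If
    exact intervalIntegral.integral_interval_sub_left
      ((Complex.continuous_im.comp hcont).intervalIntegrable _ _)
      ((Complex.continuous_im.comp hcont).intervalIntegrable _ _)
  rw [h3, ← Real.norm_eq_abs]
  refine intervalIntegral.norm_integral_le_of_norm_le_const ?_
  intro t ht
  have ht0 : 0 ≤ t := by
    have := (uIoc_subset_uIcc ht).1
    exact (le_min hx1 hx).trans this
  have ht1 : t ≤ max (x1 α l) x := (uIoc_subset_uIcc ht).2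
  have hta : t ^ α ≤ 2 * ‖l‖ := by
    rcases le_max_iff.1 ht1 with h | h
    · have := Real.rpow_le_rpow ht0 h hα.le
      rw [hx1'] at this
      have e : l.im ≤ ‖l‖ := (le_abs_self _).trans (Complex.abs_im_le_norm l)
      have := norm_nonneg l
      linarith
    · exact (Real.rpow_le_rpow ht0 h hα.le).trans hxl
  have h4 : ‖kf α l t‖ ^ 2 ≤ (2 * Real.sqrt ‖l‖) ^ 2 := by
    rw [← norm_pow, kf_sq h1, mul_pow, Real.sq_sqrt (norm_nonneg _)]
    refine (norm_sub_le _ _).trans ?_
    rw [norm_mul, Complex.norm_I, one_mul, Complex.norm_real, Real.norm_eq_abs,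
      abs_of_nonneg (Real.rpow_nonneg ht0 _)]
    have := norm_nonneg l
    linarith
  have h5 : ‖kf α l t‖ ≤ 2 * Real.sqrt ‖l‖ :=
    (le_abs_self _).trans (abs_le_of_sq_le_sq h4 (by positivity))
  rw [Real.norm_eq_abs]
  exact (Complex.abs_im_le_norm _).trans h5

end Pool.Agent.CRV
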