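import Pool.Agent.CRV.Stmts

/-!
# U1: the solution `u` of the inhomogeneous initial value problem tends to `0` outside the
closed first quadrant
-/

set_option autoImplicit false

open MeasureTheory Complex Set Filter Topology
open scoped Real

namespace Pool.Agent.CRV

namespace U1

/-! ## general facts -/

theorem cs2 {X : Type*} [MeasurableSpace X] {μ : Measure X} {f g : X → ℂ} (hf : MemLp f 2 μ)
    (hg : MemLp g 2 μ) :
    ‖∫ x, f x * g x ∂μ‖ ≤ Real.sqrt (∫ x, ‖f x‖ ^ 2 ∂μ) * Real.sqrt (∫ x, ‖g x‖ ^ 2 ∂μ) := by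
  have h2 : (2 : ENNReal) = ENNReal.ofReal 2 := by simp
  have h := integral_mul_norm_le_Lp_mul_Lq (μ := μ) (p := 2) (q := 2) Real.HolderConjugate.two_two
    (by rw [← h2]; exact hf) (by rw [← h2]; exact hg)
  refine (norm_integral_le_integral_norm _).trans ?_
  simp only [norm_mul]
  refine h.trans (le_of_eq ?_)
  simp only [Real.sqrt_eq_rpow]
  norm_num

theorem quad {c₀ c₁ u v : ℝ} (h0 : 0 < c₀) (h : 1 ≤ c₀ * c₁) :
    2 * (u * v) ≤ c₀ * u ^ 2 + c₁ * v ^ 2 := by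
  have h1 : 0 ≤ (c₀ * u - v) ^ 2 + (c₀ * c₁ - 1) * v ^ 2 :=
    add_nonneg (sq_nonneg _) (mul_nonneg (by linarith) (sq_nonneg _))
  have h2 : (c₀ * u - v) ^ 2 + (c₀ * c₁ - 1) * v ^ 2
      = c₀ * (c₀ * u ^ 2 + c₁ * v ^ 2 - 2 * (u * v)) := by ring
  rw [h2] at h1
  have h3 := nonneg_of_mul_nonneg_right h1 h0
  linarith

/-- derivative of `Re (p w' conj w)` -/
theorem hasDerivAt_N {Q w dw : ℝ → ℂ} {t : ℝ} (p : ℂ) (h1 : HasDerivAt w (dw t) t)
    (h2 : HasDerivAt dw (Q t * w t) t) :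
    HasDerivAt (fun t => (p * (dw t * (starRingEnd ℂ) (w t))).re)
      (p.re * ‖dw t‖ ^ 2 + (p * Q t).re * ‖w t‖ ^ 2) t := by
  have h3 : HasDerivAt (fun t => (starRingEnd ℂ) (w t)) ((starRingEnd ℂ) (dw t)) t := by
    have := h1.star
    simpa using this
  have h4 := ((h2.mul h3).const_mul p)
  have h5 := (Complex.reCLM.hasFDerivAt.comp_hasDerivAt t h4)
  refine (h5.congr_deriv ?_)
  simp only [Complex.reCLM_apply]
  rw [← Complex.normSq_eq_norm_sq, ← Complex.normSq_eq_norm_sq]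
  simp only [Complex.normSq_apply, Complex.mul_re, Complex.add_re, Complex.mul_im, Complex.add_im,
    Complex.conj_re, Complex.conj_im]
  ring

theorem hasDerivAt_normSq {w dw : ℝ → ℂ} {t : ℝ} (h1 : HasDerivAt w (dw t) t) :
    HasDerivAt (fun t => ‖w t‖ ^ 2) (2 * (dw t * (starRingEnd ℂ) (w t)).re) t := by
  have h3 : HasDerivAt (fun t => (starRingEnd ℂ) (w t)) ((starRingEnd ℂ) (dw t)) t := by
    have := h1.star
    simpa using this
  have h4 := h1.mul h3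
  have h5 := (Complex.reCLM.hasFDerivAt.comp_hasDerivAt t h4)
  have h6 : (fun t => ‖w t‖ ^ 2) = (⇑Complex.reCLM ∘ fun t => w t * (starRingEnd ℂ) (w t)) := by
    funext s
    simp only [Function.comp, Complex.reCLM_apply]
    rw [← Complex.normSq_eq_norm_sq, Complex.mul_conj]
    simp
  rw [h6]
  refine (h5.congr_deriv ?_)
  simp only [Complex.reCLM_apply, Complex.mul_re, Complex.add_re, Complex.conj_re,
    Complex.conj_im]
  ring

theorem re_conj_le (z w : ℂ) : |(z * (starRingEnd ℂ) w).re| ≤ ‖z‖ * ‖w‖ := by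
  refine (Complex.abs_re_le_norm _).trans ?_
  rw [norm_mul, RCLike.norm_conj]

/-- the energy of a solution vanishing at `0` -/
theorem energy_S {Q w dw : ℝ → ℂ} {x c₀ c₁ : ℝ} {p : ℂ} (hx : 0 ≤ x) (h0 : 0 < c₀)
    (h01 : 1 ≤ c₀ * c₁) (hp : c₀ ≤ p.re)
    (hQ : ContinuousOn Q (Icc 0 x)) (hw : ContinuousOn w (Icc 0 x))
    (hdw : ContinuousOn dw (Icc 0 x))
    (h1 : ∀ t ∈ Ioo 0 x, HasDerivAt w (dw t) t) (h2 : ∀ t ∈ Ioo 0 x, HasDerivAt dw (Q t * w t) t)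
    (hQ1 : ∀ t ∈ Icc 0 x, c₁ ≤ (p * Q t).re) (hw0 : w 0 = 0) :
    ‖w x‖ ^ 2 ≤ (p * (dw x * (starRingEnd ℂ) (w x))).re ∧
    c₁ * ∫ t in (0 : ℝ)..x, ‖w t‖ ^ 2 ≤ (p * (dw x * (starRingEnd ℂ) (w x))).re := by
  have hconj : ContinuousOn (fun t => (starRingEnd ℂ) (w t)) (Icc 0 x) :=
    Complex.continuous_conj.comp_continuousOn hw
  have hNc : ContinuousOn (fun t => (p * (dw t * (starRingEnd ℂ) (w t))).re) (Icc 0 x) :=
    Complex.continuous_re.comp_continuousOn (continuousOn_const.mul (hdw.mul hconj))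
  have hwc : ContinuousOn (fun t => ‖w t‖ ^ 2) (Icc 0 x) := hw.norm.pow 2
  constructor
  · have hmono : MonotoneOn (fun t => (p * (dw t * (starRingEnd ℂ) (w t))).re - ‖w t‖ ^ 2)
        (Icc 0 x) := by
      have hder : ∀ t ∈ Ioo 0 x,
          HasDerivAt (fun t => (p * (dw t * (starRingEnd ℂ) (w t))).re - ‖w t‖ ^ 2)
            (p.re * ‖dw t‖ ^ 2 + (p * Q t).re * ‖w t‖ ^ 2
              - 2 * (dw t * (starRingEnd ℂ) (w t)).re) t := fun t ht =>
        (hasDerivAt_N p (h1 t ht) (h2 t ht)).sub (hasDerivAt_normSq (h1 t ht))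
      refine monotoneOn_of_deriv_nonneg (convex_Icc 0 x) (hNc.sub hwc) ?_ ?_
      · rw [interior_Icc]
        intro t ht
        exact (hder t ht).differentiableAt.differentiableWithinAt
      · rw [interior_Icc]
        intro t ht
        rw [(hder t ht).deriv]
        have h3 := quad (u := ‖dw t‖) (v := ‖w t‖) h0 h01
        have h4 := (abs_le.1 (re_conj_le (dw t) (w t))).2
        have h5 : c₀ * ‖dw t‖ ^ 2 ≤ p.re * ‖dw t‖ ^ 2 :=
          mul_le_mul_of_nonneg_right hp (sq_nonneg _)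
        have h6 : c₁ * ‖w t‖ ^ 2 ≤ (p * Q t).re * ‖w t‖ ^ 2 :=
          mul_le_mul_of_nonneg_right (hQ1 t (Ioo_subset_Icc_self ht)) (sq_nonneg _)
        linarith
    have h3 := hmono (left_mem_Icc.2 hx) (right_mem_Icc.2 hx) hx
    simp only [hw0, map_zero, mul_zero, Complex.zero_re, norm_zero] at h3
    rw [show (0 : ℝ) - 0 ^ 2 = 0 by norm_num] at h3
    linarith
  · have hint : IntervalIntegrable (fun t => p.re * ‖dw t‖ ^ 2 + (p * Q t).re * ‖w t‖ ^ 2)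
        volume 0 x := by
      refine ContinuousOn.intervalIntegrable ?_
      rw [uIcc_of_le hx]
      exact (continuousOn_const.mul (hdw.norm.pow 2)).add
        ((Complex.continuous_re.comp_continuousOn (continuousOn_const.mul hQ)).mul hwc)
    have h3 := intervalIntegral.integral_eq_sub_of_hasDerivAt_of_le hx hNc
      (fun t ht => hasDerivAt_N p (h1 t ht) (h2 t ht)) hint
    simp only [hw0, map_zero, mul_zero, Complex.zero_re, sub_zero] at h3
    rw [← h3, ← intervalIntegral.integral_const_mul]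
    refine intervalIntegral.integral_mono_on hx ?_ hint ?_
    · refine ContinuousOn.intervalIntegrable ?_
      rw [uIcc_of_le hx]
      exact continuousOn_const.mul hwc
    · intro t ht
      have h6 : c₁ * ‖w t‖ ^ 2 ≤ (p * Q t).re * ‖w t‖ ^ 2 :=
        mul_le_mul_of_nonneg_right (hQ1 t ht) (sq_nonneg _)
      have h7 : 0 ≤ p.re * ‖dw t‖ ^ 2 := mul_nonneg (h0.le.trans hp) (sq_nonneg _)
      linarith

/-- the energy of a decaying solution -/
theorem energy_Y (hEN : Stmt_EN) {Q w dw : ℝ → ℂ} {B K γ c₀ c₁ : ℝ} {p : ℂ} (hγ : 0 < γ)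
    (h0 : 0 < c₀) (h01 : 1 ≤ c₀ * c₁) (hp : c₀ ≤ p.re)
    (hQ : ContinuousOn Q (Ici 0)) (hw : ContinuousOn w (Ici 0)) (hdw : ContinuousOn dw (Ici 0))
    (h1 : ∀ t : ℝ, 0 < t → HasDerivAt w (dw t) t)
    (h2 : ∀ t : ℝ, 0 < t → HasDerivAt dw (Q t * w t) t)
    (hQB : ∀ t : ℝ, 0 ≤ t → ‖Q t‖ ≤ B * (1 + t))
    (hwK : ∀ t : ℝ, 0 ≤ t → ‖w t‖ ≤ K * Real.exp (-(γ * t)))
    (hdwK : ∀ t : ℝ, 0 ≤ t → ‖dw t‖ ≤ K * Real.exp (-(γ * t)))
    (hQ1 : ∀ t : ℝ, 0 ≤ t → c₁ ≤ (p * Q t).re) :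
    IntegrableOn (fun t => ‖w t‖ ^ 2) (Ioi 0) ∧
    ‖w 0‖ ^ 2 ≤ -(p * (dw 0 * (starRingEnd ℂ) (w 0))).re ∧
    c₁ * ∫ t in Ioi (0 : ℝ), ‖w t‖ ^ 2 ≤ -(p * (dw 0 * (starRingEnd ℂ) (w 0))).re := by
  obtain ⟨hi1, hi2, hi3, hid⟩ := hEN Q w dw B K γ hγ hQ hw hdw h1 h2 hQB hwK hdwK
  refine ⟨hi2, ?_, ?_⟩
  · have hconj : ContinuousOn (fun t => (starRingEnd ℂ) (w t)) (Ici 0) :=
      Complex.continuous_conj.comp_continuousOn hw
    have hNc : ContinuousOn (fun t => (p * (dw t * (starRingEnd ℂ) (w t))).re) (Ici 0) :=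
      Complex.continuous_re.comp_continuousOn (continuousOn_const.mul (hdw.mul hconj))
    have hwc : ContinuousOn (fun t => ‖w t‖ ^ 2) (Ici 0) := hw.norm.pow 2
    have hmono : MonotoneOn (fun t => (p * (dw t * (starRingEnd ℂ) (w t))).re + ‖w t‖ ^ 2)
        (Ici 0) := by
      have hder : ∀ t ∈ Ioi (0 : ℝ),
          HasDerivAt (fun t => (p * (dw t * (starRingEnd ℂ) (w t))).re + ‖w t‖ ^ 2)
            (p.re * ‖dw t‖ ^ 2 + (p * Q t).re * ‖w t‖ ^ 2
              + 2 * (dw t * (starRingEnd ℂ) (w t)).re) t := fun t ht =>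
        (hasDerivAt_N p (h1 t ht) (h2 t ht)).add (hasDerivAt_normSq (h1 t ht))
      refine monotoneOn_of_deriv_nonneg (convex_Ici 0) (hNc.add hwc) ?_ ?_
      · rw [interior_Ici]
        intro t ht
        exact (hder t ht).differentiableAt.differentiableWithinAt
      · rw [interior_Ici]
        intro t ht
        rw [(hder t ht).deriv]
        have h3 := quad (u := ‖dw t‖) (v := ‖w t‖) h0 h01
        have h4 := (abs_le.1 (re_conj_le (dw t) (w t))).1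
        have h5 : c₀ * ‖dw t‖ ^ 2 ≤ p.re * ‖dw t‖ ^ 2 :=
          mul_le_mul_of_nonneg_right hp (sq_nonneg _)
        have h6 : c₁ * ‖w t‖ ^ 2 ≤ (p * Q t).re * ‖w t‖ ^ 2 :=
          mul_le_mul_of_nonneg_right (hQ1 t (le_of_lt ht)) (sq_nonneg _)
        linarith
    have hexp : Tendsto (fun t : ℝ => K * Real.exp (-(γ * t))) atTop (𝓝 0) := by
      have h3 : Tendsto (fun t : ℝ => -(γ * t)) atTop atBot :=
        tendsto_neg_atTop_atBot.comp (tendsto_id.const_mul_atTop hγ)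
      simpa using (Real.tendsto_exp_atBot.comp h3).const_mul K
    have hlim : Tendsto (fun t => (p * (dw t * (starRingEnd ℂ) (w t))).re + ‖w t‖ ^ 2) atTop
        (𝓝 0) := by
      have h3 : Tendsto (fun t : ℝ => ‖p‖ * ((K * Real.exp (-(γ * t))) * (K * Real.exp (-(γ * t))))
          + (K * Real.exp (-(γ * t))) ^ 2) atTop (𝓝 0) := by
        have := ((hexp.mul hexp).const_mul ‖p‖).add (hexp.pow 2)
        simpa using this
      refine squeeze_zero_norm' ?_ h3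
      filter_upwards [eventually_ge_atTop (0 : ℝ)] with t ht
      rw [Real.norm_eq_abs]
      refine (abs_add_le _ _).trans ?_
      have h4 : |(p * (dw t * (starRingEnd ℂ) (w t))).re| ≤ ‖p‖ * (‖dw t‖ * ‖w t‖) := by
        refine (Complex.abs_re_le_norm _).trans ?_
        rw [norm_mul, norm_mul, RCLike.norm_conj]
      have h5 : ‖dw t‖ * ‖w t‖ ≤ (K * Real.exp (-(γ * t))) * (K * Real.exp (-(γ * t))) :=
        mul_le_mul (hdwK t ht) (hwK t ht) (norm_nonneg _) ((norm_nonneg _).trans (hdwK t ht))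
      have h6 : |‖w t‖ ^ 2| ≤ (K * Real.exp (-(γ * t))) ^ 2 := by
        rw [abs_of_nonneg (sq_nonneg _)]
        exact pow_le_pow_left₀ (norm_nonneg _) (hwK t ht) 2
      have h7 := mul_le_mul_of_nonneg_left h5 (norm_nonneg p)
      linarith
    have h3 : (p * (dw 0 * (starRingEnd ℂ) (w 0))).re + ‖w 0‖ ^ 2 ≤ 0 := by
      refine ge_of_tendsto hlim ?_
      filter_upwards [eventually_ge_atTop (0 : ℝ)] with t ht
      exact hmono (mem_Ici.2 le_rfl) (mem_Ici.2 ht) ht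
    linarith
  · have h3 := congrArg (fun z => (p * z).re) hid
    simp only [mul_add, Complex.add_re] at h3
    have h4 : (p * ((∫ t in Ioi (0 : ℝ), ‖dw t‖ ^ 2 : ℝ) : ℂ)).re
        = p.re * ∫ t in Ioi (0 : ℝ), ‖dw t‖ ^ 2 := by
      rw [Complex.re_mul_ofReal]
    have h5 : (p * ∫ t in Ioi (0 : ℝ), Q t * ((‖w t‖ ^ 2 : ℝ) : ℂ)).re
        = ∫ t in Ioi (0 : ℝ), (p * Q t).re * ‖w t‖ ^ 2 := by
      rw [← integral_const_mul]
      have h6 : IntegrableOn (fun t => p * (Q t * ((‖w t‖ ^ 2 : ℝ) : ℂ))) (Ioi 0) :=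
        hi3.const_mul p
      have h7 := Complex.reCLM.integral_comp_comm h6
      simp only [Complex.reCLM_apply] at h7
      rw [← h7]
      refine integral_congr_ae (Eventually.of_forall fun t => ?_)
      simp only
      rw [← mul_assoc, Complex.re_mul_ofReal]
    rw [h4, h5] at h3
    have h6 : (p * -(dw 0 * (starRingEnd ℂ) (w 0))).re
        = -(p * (dw 0 * (starRingEnd ℂ) (w 0))).re := by
      rw [mul_neg, Complex.neg_re]
    rw [h6] at h3
    have h7 : 0 ≤ ∫ t in Ioi (0 : ℝ), ‖dw t‖ ^ 2 := integral_nonneg (fun t => sq_nonneg _)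
    have h8 : 0 ≤ p.re * ∫ t in Ioi (0 : ℝ), ‖dw t‖ ^ 2 := mul_nonneg (h0.le.trans hp) h7
    have h9 : c₁ * ∫ t in Ioi (0 : ℝ), ‖w t‖ ^ 2 ≤ ∫ t in Ioi (0 : ℝ), (p * Q t).re * ‖w t‖ ^ 2 := by
      rw [← integral_const_mul]
      refine setIntegral_mono_on (hi2.const_mul c₁) ?_ measurableSet_Ioi ?_
      · have h10 := Complex.reCLM.integrable_comp (hi3.const_mul p)
        refine h10.congr (Eventually.of_forall fun t => ?_)
        simp only [Complex.reCLM_apply]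
        rw [← mul_assoc, Complex.re_mul_ofReal]
      · intro t ht
        exact mul_le_mul_of_nonneg_right (hQ1 t (le_of_lt ht)) (sq_nonneg _)
    linarith

/-! ## the fundamental system on the real half-line -/

variable {α : ℝ}

theorem mem_Dom {t : ℝ} (ht : 0 ≤ t) : (t : ℂ) ∈ Dom := by
  rcases ht.eq_or_lt with h | h
  · left
    simp [← h]
  · right
    exact Complex.ofReal_mem_slitPlane.2 h

theorem cont_of {G : ℂ → ℂ → ℂ}
    (hG : ContinuousOn (fun p : ℂ × ℂ => G p.1 p.2) (Dom ×ˢ univ)) (l : ℂ) :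
    ContinuousOn (fun t : ℝ => G (t : ℂ) l) (Ici 0) := by
  have h : ContinuousOn (fun t : ℝ => ((t : ℂ), l)) (Ici 0) :=
    (Complex.continuous_ofReal.prodMk continuous_const).continuousOn
  exact hG.comp h (fun t ht => ⟨mem_Dom ht, mem_univ _⟩)

theorem cont_y (F : FS α) (a b l : ℂ) : ContinuousOn (fun t : ℝ => F.y a b l t) (Ici 0) := by
  unfold FS.y
  exact (continuousOn_const.mul (cont_of F.cC l)).add (continuousOn_const.mul (cont_of F.cS l))

theorem cont_dy (F : FS α) (a b l : ℂ) : ContinuousOn (fun t : ℝ => F.dy a b l t) (Ici 0) := by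
  unfold FS.dy
  exact (continuousOn_const.mul (cont_of F.cdC l)).add (continuousOn_const.mul (cont_of F.cdS l))

/-- the potential -/
noncomputable def Qf (α : ℝ) (l : ℂ) (t : ℝ) : ℂ := I * ((t ^ α : ℝ) : ℂ) - l

theorem cont_Qf (hα : 0 < α) (l : ℂ) : Continuous (Qf α l) := by
  unfold Qf
  have h : Continuous (fun t : ℝ => t ^ α) := Real.continuous_rpow_const hα.le
  exact (continuous_const.mul (Complex.continuous_ofReal.comp h)).sub continuous_const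

theorem deriv_y (F : FS α) (a b l : ℂ) {t : ℝ} (ht : 0 < t) :
    HasDerivAt (fun t : ℝ => F.y a b l t) (F.dy a b l t) t := by
  have hs : (t : ℂ) ∈ slitPlane := Complex.ofReal_mem_slitPlane.2 ht
  exact ((F.hC l t hs).comp_ofReal.const_mul a).add ((F.hS l t hs).comp_ofReal.const_mul b)

theorem deriv_dy (F : FS α) (a b l : ℂ) {t : ℝ} (ht : 0 < t) :
    HasDerivAt (fun t : ℝ => F.dy a b l t) (Qf α l t * F.y a b l t) t := by
  have hs : (t : ℂ) ∈ slitPlane := Complex.ofReal_mem_slitPlane.2 ht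
  have h := ((F.hdC l t hs).comp_ofReal.const_mul a).add ((F.hdS l t hs).comp_ofReal.const_mul b)
  refine h.congr_deriv ?_
  unfold Qf FS.y
  rw [Complex.ofReal_cpow ht.le]
  ring

theorem wronskian (F : FS α) (a b l : ℂ) {t : ℝ} (ht : 0 ≤ t) :
    F.y a b l t * F.dS t l - F.dy a b l t * F.S t l = a := by
  have h := F.wr t (mem_Dom ht) l
  unfold FS.y FS.dy
  linear_combination a * h

/-- the algebraic core -/
theorem alg {s ds Y dY a p : ℂ} (hW : Y * ds - dY * s = a)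
    (h1 : ‖s‖ ^ 2 ≤ (p * (ds * (starRingEnd ℂ) s)).re)
    (h2 : ‖Y‖ ^ 2 ≤ -(p * (dY * (starRingEnd ℂ) Y)).re) :
    2 * (‖s‖ * ‖Y‖) ^ 2 ≤ ‖p‖ * ‖a‖ * (‖s‖ * ‖Y‖) ∧
    ‖Y‖ ^ 2 * (p * (ds * (starRingEnd ℂ) s)).re ≤ (‖p‖ * ‖a‖) ^ 2 / 2 ∧
    ‖s‖ ^ 2 * -(p * (dY * (starRingEnd ℂ) Y)).re ≤ (‖p‖ * ‖a‖) ^ 2 / 2 := by
  set P := (p * (ds * (starRingEnd ℂ) s)).re with hP
  set N := -(p * (dY * (starRingEnd ℂ) Y)).re with hN
  have h3 : ‖Y‖ ^ 2 * P + ‖s‖ ^ 2 * N = (p * ((starRingEnd ℂ) s * (starRingEnd ℂ) Y * a)).re := by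
    rw [hP, hN, ← hW, ← Complex.normSq_eq_norm_sq, ← Complex.normSq_eq_norm_sq]
    simp only [Complex.normSq_apply, Complex.mul_re, Complex.mul_im, Complex.sub_re,
      Complex.sub_im, Complex.conj_re, Complex.conj_im]
    ring
  have h4 : ‖Y‖ ^ 2 * P + ‖s‖ ^ 2 * N ≤ ‖p‖ * ‖a‖ * (‖s‖ * ‖Y‖) := by
    rw [h3]
    refine (Complex.re_le_norm _).trans (le_of_eq ?_)
    rw [norm_mul, norm_mul, norm_mul, RCLike.norm_conj, RCLike.norm_conj]
    ring
  have h5 : ‖Y‖ ^ 2 * ‖s‖ ^ 2 ≤ ‖Y‖ ^ 2 * P := mul_le_mul_of_nonneg_left h1 (sq_nonneg _)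
  have h6 : ‖s‖ ^ 2 * ‖Y‖ ^ 2 ≤ ‖s‖ ^ 2 * N := mul_le_mul_of_nonneg_left h2 (sq_nonneg _)
  have h7 : 2 * (‖s‖ * ‖Y‖) ^ 2 ≤ ‖p‖ * ‖a‖ * (‖s‖ * ‖Y‖) := by
    have : 2 * (‖s‖ * ‖Y‖) ^ 2 = ‖Y‖ ^ 2 * ‖s‖ ^ 2 + ‖s‖ ^ 2 * ‖Y‖ ^ 2 := by ring
    linarith
  have h8 : 2 * (‖s‖ * ‖Y‖) ≤ ‖p‖ * ‖a‖ := by
    rcases (mul_nonneg (norm_nonneg s) (norm_nonneg Y)).eq_or_lt with h | h
    · rw [← h]
      simp only [mul_zero]
      positivity
    · have h9 : (2 * (‖s‖ * ‖Y‖)) * (‖s‖ * ‖Y‖) ≤ (‖p‖ * ‖a‖) * (‖s‖ * ‖Y‖) := by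
        have : (2 * (‖s‖ * ‖Y‖)) * (‖s‖ * ‖Y‖) = 2 * (‖s‖ * ‖Y‖) ^ 2 := by ring
        linarith
      exact le_of_mul_le_mul_right h9 h
  have h9 : ‖p‖ * ‖a‖ * (‖s‖ * ‖Y‖) ≤ (‖p‖ * ‖a‖) ^ 2 / 2 := by
    have h10 : 0 ≤ ‖p‖ * ‖a‖ := by positivity
    have h11 := mul_le_mul_of_nonneg_left h8 h10
    have : (‖p‖ * ‖a‖) ^ 2 = ‖p‖ * ‖a‖ * (‖p‖ * ‖a‖) := by ring
    linarith
  have h10 : 0 ≤ ‖Y‖ ^ 2 * ‖s‖ ^ 2 := by positivity
  refine ⟨h7, ?_, ?_⟩
  · have : ‖s‖ ^ 2 * ‖Y‖ ^ 2 = ‖Y‖ ^ 2 * ‖s‖ ^ 2 := by ring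
    linarith
  · linarith

/-- translation of half-line integrals -/
theorem integral_Ioi_shift (g : ℝ → ℝ) (x : ℝ) :
    ∫ t in Ioi x, g t = ∫ t in Ioi (0 : ℝ), g (x + t) := by
  have hm : MeasurePreserving (fun t : ℝ => x + t) volume volume :=
    measurePreserving_add_left volume x
  have he : MeasurableEmbedding (fun t : ℝ => x + t) := measurableEmbedding_addLeft x
  have h := hm.setIntegral_preimage_emb he g (Ioi x)
  rw [← h]
  congr 2
  ext t
  simp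

/-- all facts at a point `x > 0`. -/
theorem facts (hEN : Stmt_EN) (hDLY : Stmt_DLY) (hα : 0 < α) (hα' : α ≤ 2 / 3) (F : FS α)
    {a b l p : ℂ} (hY : IsY F a b l) {c₀ c₁ x : ℝ} (h0 : 0 < c₀) (h01 : 1 ≤ c₀ * c₁)
    (hp : c₀ ≤ p.re) (hQ1 : ∀ t : ℝ, 0 ≤ t → c₁ ≤ (p * Qf α l t).re) (hx : 0 ≤ x) :
    IntegrableOn (fun t : ℝ => ‖F.y a b l t‖ ^ 2) (Ioi x) ∧
    2 * (‖F.S x l‖ * ‖F.y a b l x‖) ^ 2 ≤ ‖p‖ * ‖a‖ * (‖F.S x l‖ * ‖F.y a b l x‖) ∧
    ‖F.y a b l x‖ ^ 2 * (c₁ * ∫ t in (0 : ℝ)..x, ‖F.S t l‖ ^ 2) ≤ (‖p‖ * ‖a‖) ^ 2 / 2 ∧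
    ‖F.S x l‖ ^ 2 * (c₁ * ∫ t in Ioi x, ‖F.y a b l t‖ ^ 2) ≤ (‖p‖ * ‖a‖) ^ 2 / 2 := by
  obtain ⟨K, γ, hγ, hK⟩ := hDLY α hα hα' F a b l hY x hx 0 (by linarith [Real.pi_pos]) le_rfl
  have hK' : ∀ t : ℝ, 0 ≤ t → ‖F.y a b l ((x + t : ℝ) : ℂ)‖ ≤ K * Real.exp (-(γ * t)) ∧
      ‖F.dy a b l ((x + t : ℝ) : ℂ)‖ ≤ K * Real.exp (-(γ * t)) := by
    intro t ht
    have h := hK t ht
    have e : (x : ℂ) + t * exp ((0 : ℝ) * I) = ((x + t : ℝ) : ℂ) := by
      push_cast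
      simp
    rw [e] at h
    exact h
  have hshift : ContinuousOn (fun t : ℝ => x + t) (Ici 0) := by fun_prop
  have hmaps : MapsTo (fun t : ℝ => x + t) (Ici 0) (Ici 0) := by
    intro t ht
    rw [mem_Ici] at ht ⊢
    linarith
  have hE := energy_Y hEN (Q := fun t => Qf α l (x + t)) (w := fun t => F.y a b l ((x + t : ℝ) : ℂ))
    (dw := fun t => F.dy a b l ((x + t : ℝ) : ℂ)) (B := 1 + x + ‖l‖) hγ h0 h01 hp
    ((cont_Qf hα l).continuousOn.comp hshift (mapsTo_univ _ _))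
    ((cont_y F a b l).comp hshift hmaps) ((cont_dy F a b l).comp hshift hmaps)
    (fun t ht => (deriv_y F a b l (t := x + t) (by linarith)).comp_const_add x t)
    (fun t ht => (deriv_dy F a b l (t := x + t) (by linarith)).comp_const_add x t)
    (by
      intro t ht
      have h1 : 0 ≤ x + t := by linarith
      have h2 : (x + t) ^ α ≤ 1 + (x + t) := by
        rcases le_or_gt (x + t) 1 with h | h
        · have := Real.rpow_le_one h1 h hα.le
          linarith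
        · have h3 := Real.rpow_le_rpow_of_exponent_le h.le (show α ≤ 1 by linarith)
          rw [Real.rpow_one] at h3
          linarith
      unfold Qf
      refine (norm_sub_le _ _).trans ?_
      rw [norm_mul, Complex.norm_I, one_mul, Complex.norm_real, Real.norm_eq_abs,
        abs_of_nonneg (Real.rpow_nonneg h1 _)]
      nlinarith [norm_nonneg l, mul_nonneg hx ht, mul_nonneg (norm_nonneg l) ht])
    (fun t ht => (hK' t ht).1) (fun t ht => (hK' t ht).2)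
    (fun t ht => hQ1 (x + t) (by linarith))
  simp only [add_zero] at hE
  obtain ⟨hi, hE1, hE2⟩ := hE
  have hS := energy_S (Q := Qf α l) (w := fun t => F.S t l) (dw := fun t => F.dS t l) (p := p)
    hx h0 h01 hp (cont_Qf hα l).continuousOn
    ((cont_of F.cS l).mono Icc_subset_Ici_self) ((cont_of F.cdS l).mono Icc_subset_Ici_self)
    (fun t ht => (F.hS l t (Complex.ofReal_mem_slitPlane.2 ht.1)).comp_ofReal)
    (fun t ht => by
      have := (F.hdS l t (Complex.ofReal_mem_slitPlane.2 ht.1)).comp_ofReal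
      refine this.congr_deriv ?_
      unfold Qf
      rw [Complex.ofReal_cpow ht.1.le])
    (fun t ht => hQ1 t ht.1) (by simpa using F.S0 l)
  obtain ⟨hS1, hS2⟩ := hS
  obtain ⟨h1, h2, h3⟩ := alg (wronskian F a b l hx) hS1 hE1
  refine ⟨?_, h1, ?_, ?_⟩
  · have hm : MeasurePreserving (fun t : ℝ => x + t) volume volume :=
      measurePreserving_add_left volume x
    have he : MeasurableEmbedding (fun t : ℝ => x + t) := measurableEmbedding_addLeft x
    have h4 := (hm.integrableOn_comp_preimage he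
      (f := fun t : ℝ => ‖F.y a b l t‖ ^ 2) (s := Ioi x)).1
    refine h4 ?_
    have h5 : (fun t : ℝ => x + t) ⁻¹' Ioi x = Ioi 0 := by
      ext t
      simp
    rw [h5]
    exact hi
  · exact (mul_le_mul_of_nonneg_left hS2 (sq_nonneg _)).trans h2
  · rw [integral_Ioi_shift (fun t => ‖F.y a b l t‖ ^ 2) x]
    exact (mul_le_mul_of_nonneg_left hE2 (sq_nonneg _)).trans h3

/-- the coefficient `a` of a decaying solution does not vanish -/
theorem a_ne_zero (hEN : Stmt_EN) (hDLY : Stmt_DLY) (hα : 0 < α) (hα' : α ≤ 2 / 3) (F : FS α)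
    {a b l p : ℂ} (hY : IsY F a b l) {c₀ c₁ : ℝ} (h0 : 0 < c₀) (h01 : 1 ≤ c₀ * c₁)
    (hp : c₀ ≤ p.re) (hQ1 : ∀ t : ℝ, 0 ≤ t → c₁ ≤ (p * Qf α l t).re) : a ≠ 0 := by
  rintro rfl
  have hb : b ≠ 0 := by
    obtain ⟨K, γ, x₀, h, -⟩ := hY
    rcases h with h | h
    · exact absurd rfl h
    · exact h
  have hS0 : ∀ x : ℝ, 0 ≤ x → F.S x l = 0 := by
    intro x hx
    have h := (facts hEN hDLY hα hα' F hY h0 h01 hp hQ1 hx).2.1
    rw [norm_zero, mul_zero, zero_mul] at h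
    have h2 : (‖F.S x l‖ * ‖F.y 0 b l x‖) ^ 2 = 0 :=
      le_antisymm (by linarith) (sq_nonneg _)
    have h3 : ‖F.S x l‖ * ‖F.y 0 b l x‖ = 0 := by
      rwa [sq_eq_zero_iff] at h2
    have h4 : F.y 0 b l x = b * F.S x l := by
      unfold FS.y
      ring
    rw [h4, norm_mul] at h3
    by_contra h5
    have h6 : ‖F.S x l‖ ≠ 0 := norm_ne_zero_iff.2 h5
    have h7 : ‖b‖ ≠ 0 := norm_ne_zero_iff.2 hb
    exact (mul_ne_zero h6 (mul_ne_zero h7 h6)) h3
  have hdS0 : F.dS (1 : ℝ) l = 0 := by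
    have h1 : HasDerivAt (fun t : ℝ => F.S t l) (F.dS (1 : ℝ) l) 1 :=
      (F.hS l (1 : ℝ) (Complex.ofReal_mem_slitPlane.2 one_pos)).comp_ofReal
    have h2 : HasDerivAt (fun t : ℝ => F.S t l) 0 1 := by
      refine (hasDerivAt_const (1 : ℝ) (0 : ℂ)).congr_of_eventuallyEq ?_
      filter_upwards [lt_mem_nhds (show (0 : ℝ) < 1 from one_pos)] with t ht
      exact hS0 t ht.le
    exact h1.unique h2
  have h := F.wr (1 : ℝ) (mem_Dom zero_le_one) l
  rw [hdS0, hS0 1 zero_le_one] at h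
  simp at h

/-- the representation of `u` -/
theorem a_mul_uf (F : FS α) (f : ℝ → ℂ) (hf : L2f f) {a b l : ℂ}
    (hYi : IntegrableOn (fun t : ℝ => ‖F.y a b l t‖ ^ 2) (Ioi 0))
    (horth : ∫ t in Ioi (0 : ℝ), f t * F.y a b l t = 0) {x : ℝ} (hx : 0 ≤ x) :
    a * uf F f l x = F.y a b l x * (∫ t in Ioc 0 x, f t * F.S t l)
      + F.S x l * ∫ t in Ioi x, f t * F.y a b l t := by
  have hmY : MemLp (fun t : ℝ => F.y a b l t) 2 (volume.restrict (Ioi (0 : ℝ))) := by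
    rw [memLp_two_iff_integrable_sq_norm]
    · exact hYi
    · exact ((cont_y F a b l).mono Ioi_subset_Ici_self).aestronglyMeasurable measurableSet_Ioi
  have hfY : IntegrableOn (fun t : ℝ => f t * F.y a b l t) (Ioi 0) := hf.integrable_mul hmY
  have hsub : Ioc 0 x ⊆ Ioi 0 := Ioc_subset_Ioi_self
  have hfx : MemLp f 2 (volume.restrict (Ioc 0 x)) :=
    hf.mono_measure (Measure.restrict_mono hsub le_rfl)
  have hmS : MemLp (fun t : ℝ => F.S t l) 2 (volume.restrict (Ioc 0 x)) := by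
    have hc : ContinuousOn (fun t : ℝ => F.S t l) (Icc 0 x) :=
      (cont_of F.cS l).mono Icc_subset_Ici_self
    rw [memLp_two_iff_integrable_sq_norm]
    · exact ((hc.norm.pow 2).integrableOn_Icc).mono_set Ioc_subset_Icc_self
    · exact (hc.mono Ioc_subset_Icc_self).aestronglyMeasurable measurableSet_Ioc
  have hfS : IntegrableOn (fun t : ℝ => f t * F.S t l) (Ioc 0 x) := hfx.integrable_mul hmS
  have hfY' : IntegrableOn (fun t : ℝ => f t * F.y a b l t) (Ioc 0 x) := hfY.mono_set hsub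
  have h1 : a * uf F f l x = F.y a b l x * (∫ t in Ioc 0 x, f t * F.S t l)
      - F.S x l * ∫ t in Ioc 0 x, f t * F.y a b l t := by
    unfold uf
    rw [intervalIntegral.integral_of_le hx, ← integral_const_mul, ← integral_const_mul,
      ← integral_const_mul, ← integral_sub (hfS.const_mul _) (hfY'.const_mul _)]
    refine integral_congr_ae (Eventually.of_forall fun t => ?_)
    simp only [FS.y]
    ring
  have h2 : ∫ t in Ioi (0 : ℝ), f t * F.y a b l t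
      = (∫ t in Ioc 0 x, f t * F.y a b l t) + ∫ t in Ioi x, f t * F.y a b l t := by
    rw [← Ioc_union_Ioi_eq_Ioi hx]
    refine setIntegral_union (Ioc_disjoint_Ioi le_rfl) measurableSet_Ioi hfY' ?_
    exact hfY.mono_set (Ioi_subset_Ioi hx)
  rw [horth] at h2
  rw [h1, eq_neg_of_add_eq_zero_left h2.symm]
  ring

/-- the bound of `u` -/
theorem uf_bound (hEN : Stmt_EN) (hDLY : Stmt_DLY) (hα : 0 < α) (hα' : α ≤ 2 / 3) (F : FS α)
    (f : ℝ → ℂ) (hf : L2f f) {a b l p : ℂ} (hY : IsY F a b l)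
    (horth : ∫ t in Ioi (0 : ℝ), f t * F.y a b l t = 0) {c₀ c₁ : ℝ} (h0 : 0 < c₀) (hc₁ : 0 < c₁)
    (h01 : 1 ≤ c₀ * c₁) (hp : c₀ ≤ p.re) (hQ1 : ∀ t : ℝ, 0 ≤ t → c₁ ≤ (p * Qf α l t).re)
    {x : ℝ} (hx : 0 ≤ x) :
    ‖uf F f l x‖ ≤ 2 * Real.sqrt (∫ t in Ioi (0 : ℝ), ‖f t‖ ^ 2) * ‖p‖ / Real.sqrt (2 * c₁) := by
  have ha := a_ne_zero hEN hDLY hα hα' F hY h0 h01 hp hQ1
  obtain ⟨hi0, -⟩ := facts hEN hDLY hα hα' F hY h0 h01 hp hQ1 (le_refl (0 : ℝ))
  obtain ⟨hix, -, hb1, hb2⟩ := facts hEN hDLY hα hα' F hY h0 h01 hp hQ1 hx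
  have hrep := a_mul_uf F f hf hi0 horth hx
  set G := Real.sqrt (∫ t in Ioi (0 : ℝ), ‖f t‖ ^ 2) with hG
  have hG0 : 0 ≤ G := Real.sqrt_nonneg _
  have hfi : IntegrableOn (fun t => ‖f t‖ ^ 2) (Ioi 0) :=
    (memLp_two_iff_integrable_sq_norm hf.1).1 hf
  have hsub : Ioc 0 x ⊆ Ioi 0 := Ioc_subset_Ioi_self
  have hsub2 : Ioi x ⊆ Ioi 0 := Ioi_subset_Ioi hx
  have hG1 : Real.sqrt (∫ t in Ioc 0 x, ‖f t‖ ^ 2) ≤ G :=
    Real.sqrt_le_sqrt (setIntegral_mono_set hfi (Eventually.of_forall fun t => sq_nonneg _)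
      (LE.le.eventuallyLE hsub))
  have hG2 : Real.sqrt (∫ t in Ioi x, ‖f t‖ ^ 2) ≤ G :=
    Real.sqrt_le_sqrt (setIntegral_mono_set hfi (Eventually.of_forall fun t => sq_nonneg _)
      (LE.le.eventuallyLE hsub2))
  have hmY : MemLp (fun t : ℝ => F.y a b l t) 2 (volume.restrict (Ioi x)) := by
    rw [memLp_two_iff_integrable_sq_norm]
    · exact hix
    · exact ((cont_y F a b l).mono (fun t ht => le_of_lt (lt_of_le_of_lt hx ht))).aestronglyMeasurable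
        measurableSet_Ioi
  have hmS : MemLp (fun t : ℝ => F.S t l) 2 (volume.restrict (Ioc 0 x)) := by
    have hc : ContinuousOn (fun t : ℝ => F.S t l) (Icc 0 x) :=
      (cont_of F.cS l).mono Icc_subset_Ici_self
    rw [memLp_two_iff_integrable_sq_norm]
    · exact ((hc.norm.pow 2).integrableOn_Icc).mono_set Ioc_subset_Icc_self
    · exact (hc.mono Ioc_subset_Icc_self).aestronglyMeasurable measurableSet_Ioc
  have hc1 := cs2 (hf.mono_measure (Measure.restrict_mono hsub le_rfl)) hmS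
  have hc2 := cs2 (hf.mono_measure (Measure.restrict_mono hsub2 le_rfl)) hmY
  set NS := ∫ t in Ioc 0 x, ‖F.S t l‖ ^ 2 with hNS
  set NY := ∫ t in Ioi x, ‖F.y a b l t‖ ^ 2 with hNY
  have hNS0 : 0 ≤ NS := integral_nonneg (fun t => sq_nonneg _)
  have hNY0 : 0 ≤ NY := integral_nonneg (fun t => sq_nonneg _)
  rw [intervalIntegral.integral_of_le hx] at hb1
  -- the two products
  have key : ∀ (z : ℂ) (N : ℝ), 0 ≤ N → ‖z‖ ^ 2 * (c₁ * N) ≤ (‖p‖ * ‖a‖) ^ 2 / 2 →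
      ‖z‖ * Real.sqrt N ≤ ‖p‖ * ‖a‖ / Real.sqrt (2 * c₁) := by
    intro z N hN hz
    have h2c : 0 < Real.sqrt (2 * c₁) := Real.sqrt_pos.2 (by linarith)
    rw [le_div_iff₀ h2c]
    refine (sq_le_sq₀ (by positivity) (by positivity)).1 ?_
    have e : (‖z‖ * Real.sqrt N * Real.sqrt (2 * c₁)) ^ 2 = ‖z‖ ^ 2 * N * (2 * c₁) := by
      rw [mul_pow, mul_pow, Real.sq_sqrt hN, Real.sq_sqrt (by linarith)]
    rw [e]
    nlinarith
  have hk1 := key _ _ hNS0 hb1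
  have hk2 := key _ _ hNY0 hb2
  have hn : ‖a‖ * ‖uf F f l x‖ ≤ ‖a‖ * (2 * G * ‖p‖ / Real.sqrt (2 * c₁)) := by
    rw [← norm_mul, hrep]
    refine (norm_add_le _ _).trans ?_
    rw [norm_mul, norm_mul]
    have h1 : ‖F.y a b l x‖ * ‖∫ t in Ioc 0 x, f t * F.S t l‖
        ≤ G * (‖p‖ * ‖a‖ / Real.sqrt (2 * c₁)) := by
      calc ‖F.y a b l x‖ * ‖∫ t in Ioc 0 x, f t * F.S t l‖
          ≤ ‖F.y a b l x‖ * (G * Real.sqrt NS) := by
            refine mul_le_mul_of_nonneg_left (hc1.trans ?_) (norm_nonneg _)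
            exact mul_le_mul_of_nonneg_right hG1 (Real.sqrt_nonneg _)
        _ = G * (‖F.y a b l x‖ * Real.sqrt NS) := by ring
        _ ≤ _ := mul_le_mul_of_nonneg_left hk1 hG0
    have h2 : ‖F.S x l‖ * ‖∫ t in Ioi x, f t * F.y a b l t‖
        ≤ G * (‖p‖ * ‖a‖ / Real.sqrt (2 * c₁)) := by
      calc ‖F.S x l‖ * ‖∫ t in Ioi x, f t * F.y a b l t‖
          ≤ ‖F.S x l‖ * (G * Real.sqrt NY) := by
            refine mul_le_mul_of_nonneg_left (hc2.trans ?_) (norm_nonneg _)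
            exact mul_le_mul_of_nonneg_right hG2 (Real.sqrt_nonneg _)
        _ = G * (‖F.S x l‖ * Real.sqrt NY) := by ring
        _ ≤ _ := mul_le_mul_of_nonneg_left hk2 hG0
    refine (add_le_add h1 h2).trans (le_of_eq ?_)
    ring
  exact le_of_mul_le_mul_left hn (norm_pos_iff.2 ha)

end U1

/-- U1 -/
theorem u1 (hEN : Stmt_EN) (hDLY : Stmt_DLY) (hY : Stmt_Y) : Stmt_U1 := by
  intro α hα hα' F f hf horth x hx δ hδ ε hε
  set G := Real.sqrt (∫ t in Ioi (0 : ℝ), ‖f t‖ ^ 2) with hG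
  have hG0 : 0 ≤ G := Real.sqrt_nonneg _
  -- constants
  set c₀ : ℝ := min 1 (δ / 2) with hc₀
  have hc₀0 : 0 < c₀ := lt_min one_pos (by linarith)
  set P : ℝ := 1 + δ / 2 + 1 with hP
  have hP0 : 0 < P := by positivity
  refine ⟨1 + 2 / (δ * c₀) + 2 * (2 * G * P / ε) ^ 2 / δ, ?_⟩
  intro l hl hcase
  have hl1 : 2 / (δ * c₀) ≤ ‖l‖ := by
    have : 0 ≤ 2 * (2 * G * P / ε) ^ 2 / δ := by positivity
    linarith
  have hl2 : 2 * (2 * G * P / ε) ^ 2 / δ ≤ ‖l‖ := by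
    have : 0 ≤ 2 / (δ * c₀) := by positivity
    linarith
  have hl0 : 0 < ‖l‖ := by
    have : 0 < 2 / (δ * c₀) := by positivity
    linarith
  set c₁ : ℝ := δ / 2 * ‖l‖ with hc₁
  have hc₁0 : 0 < c₁ := by positivity
  have h01 : 1 ≤ c₀ * c₁ := by
    rw [div_le_iff₀ (by positivity)] at hl1
    rw [hc₁]
    nlinarith
  -- a decaying solution
  obtain ⟨a, b, -, -, K, γ, x₀, hab⟩ := hY α hα hα' F (‖l‖ + 1) (by positivity)
  have hYl : IsY F (a l) (b l) l := ⟨K, γ, x₀, hab l (by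
    rw [Metric.mem_ball, dist_zero_right]
    linarith)⟩
  -- the multiplier
  have hmul : ∃ p : ℂ, c₀ ≤ p.re ∧ ‖p‖ ≤ P ∧ ∀ t : ℝ, 0 ≤ t → c₁ ≤ (p * U1.Qf α l t).re := by
    rcases hcase with h | h
    · refine ⟨1, ?_, ?_, ?_⟩
      · rw [Complex.one_re]
        exact min_le_left _ _
      · rw [norm_one, hP]
        linarith
      · intro t ht
        have e : (1 * U1.Qf α l t).re = -l.re := by
          unfold U1.Qf
          simp [Complex.mul_re]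
        rw [e, hc₁]
        nlinarith
    · refine ⟨((δ / 2 : ℝ) : ℂ) - I, ?_, ?_, ?_⟩
      · have e : (((δ / 2 : ℝ) : ℂ) - I).re = δ / 2 := by simp
        rw [e]
        exact min_le_right _ _
      · refine (norm_sub_le _ _).trans ?_
        rw [Complex.norm_I, Complex.norm_real, Real.norm_eq_abs, abs_of_pos (by linarith), hP]
        linarith
      · intro t ht
        have e : ((((δ / 2 : ℝ) : ℂ) - I) * U1.Qf α l t).re
            = t ^ α - δ / 2 * l.re - l.im := by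
          unfold U1.Qf
          simp only [Complex.mul_re, Complex.sub_re, Complex.sub_im, Complex.ofReal_re,
            Complex.ofReal_im, Complex.I_re, Complex.I_im, Complex.mul_im]
          ring
        rw [e, hc₁]
        have h1 : 0 ≤ t ^ α := Real.rpow_nonneg ht _
        have h2 : l.re ≤ ‖l‖ := Complex.re_le_norm l
        have h3 : δ / 2 * l.re ≤ δ / 2 * ‖l‖ := mul_le_mul_of_nonneg_left h2 (by linarith)
        linarith
  obtain ⟨p, hp1, hp2, hp3⟩ := hmul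
  have hb := U1.uf_bound hEN hDLY hα hα' F f hf hYl (horth l _ _ hYl) hc₀0 hc₁0 h01 hp1 hp3 hx
  rw [← hG] at hb
  refine hb.trans ?_
  have h2c : 0 < Real.sqrt (2 * c₁) := Real.sqrt_pos.2 (by linarith)
  rw [div_le_iff₀ h2c]
  have h3 : 2 * G * ‖p‖ ≤ 2 * G * P := mul_le_mul_of_nonneg_left hp2 (by positivity)
  refine h3.trans ?_
  have h4 : 2 * G * P / ε ≤ Real.sqrt (2 * c₁) := by
    refine Real.le_sqrt_of_sq_le ?_
    rw [div_le_iff₀ hδ] at hl2
    rw [hc₁]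
    nlinarith [sq_nonneg (2 * G * P / ε)]
  rw [div_le_iff₀ hε] at h4
  linarith

end Pool.Agent.CRV
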