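import Pool.Agent.CRV.DAN

/-! Module U4. -/

set_option autoImplicit false

open MeasureTheory Complex Set Filter Topology
open scoped Real

namespace Pool.Agent.CRV

theorem u4 : Stmt_U4 := by
  intro α _ _ F f hf hu
  set A : ℝ → ℂ := fun x => ∫ t in (0 : ℝ)..x, f t * F.S t 0 with hA
  set B : ℝ → ℂ := fun x => ∫ t in (0 : ℝ)..x, f t * F.C t 0 with hB
  have hiS : ∀ x : ℝ, 0 ≤ x → IntervalIntegrable (fun t => f t * F.S t 0) volume 0 x :=
    fun x hx => ker_intble hx (hf.integrableOn x) F.cS 0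
  have hiC : ∀ x : ℝ, 0 ≤ x → IntervalIntegrable (fun t => f t * F.C t 0) volume 0 x :=
    fun x hx => ker_intble hx (hf.integrableOn x) F.cC 0
  have hzero : ∀ x : ℝ, 0 ≤ x → F.C x 0 * A x - F.S x 0 * B x = 0 := by
    intro x hx
    refine Eq.trans ?_ (hu x hx)
    unfold uf
    rw [hA, hB]
    simp only
    rw [← intervalIntegral.integral_const_mul, ← intervalIntegral.integral_const_mul,
      ← intervalIntegral.integral_sub ((hiS x hx).const_mul _) ((hiC x hx).const_mul _)]
    refine intervalIntegral.integral_congr fun t _ => ?_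
    ring
  -- a.e. derivatives
  have hae : ∀ g : ℝ → ℂ, (∀ x : ℝ, 0 ≤ x → IntervalIntegrable g volume 0 x) →
      ∀ᵐ x, 0 < x → HasDerivAt (fun x => ∫ t in (0 : ℝ)..x, g t) (g x) x := by
    intro g hg
    have h : ∀ n : ℕ, ∀ᵐ x, x ∈ uIcc (0 : ℝ) n → ∀ c ∈ uIcc (0 : ℝ) n,
        HasDerivAt (fun x => ∫ t in c..x, g t) (g x) x := fun n =>
      (hg n (Nat.cast_nonneg n)).ae_hasDerivAt_integral
    filter_upwards [ae_all_iff.2 h] with x hx hx0
    obtain ⟨n, hn⟩ := exists_nat_ge x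
    refine hx n ?_ 0 ?_
    · rw [uIcc_of_le (Nat.cast_nonneg n)]; exact ⟨hx0.le, hn⟩
    · rw [uIcc_of_le (Nat.cast_nonneg n)]; exact ⟨le_rfl, Nat.cast_nonneg n⟩
  have haeA := hae _ hiS
  have haeB := hae _ hiC
  have hmain : ∀ᵐ x : ℝ, 0 < x → A x = 0 ∧ B x = 0 := by
    filter_upwards [haeA, haeB] with x h1 h2 hx
    have d1 : HasDerivAt A (f x * F.S x 0) x := h1 hx
    have d2 : HasDerivAt B (f x * F.C x 0) x := h2 hx
    have hsl : (x : ℂ) ∈ slitPlane := Complex.ofReal_mem_slitPlane.2 hx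
    have d3 : HasDerivAt (fun y : ℝ => F.C y 0) (F.dC x 0) x := (F.hC 0 x hsl).comp_ofReal
    have d4 : HasDerivAt (fun y : ℝ => F.S y 0) (F.dS x 0) x := (F.hS 0 x hsl).comp_ofReal
    have d5 := (d3.mul d1).sub (d4.mul d2)
    have d6 : HasDerivAt (fun y : ℝ => F.C y 0 * A y - F.S y 0 * B y) 0 x := by
      refine (hasDerivAt_const x (0 : ℂ)).congr_of_eventuallyEq ?_
      filter_upwards [lt_mem_nhds hx] with y hy
      exact hzero y hy.le
    have e1 := d5.unique d6
    have e0 := hzero x hx.le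
    have w := F.wr x (mem_Dom_of_nonneg hx.le) 0
    have e2 : F.dC x 0 * A x = F.dS x 0 * B x := by
      linear_combination e1
    have e3 : F.C x 0 * A x = F.S x 0 * B x := by linear_combination e0
    constructor
    · calc A x = (F.C x 0 * F.dS x 0 - F.dC x 0 * F.S x 0) * A x := by rw [w, one_mul]
        _ = F.dS x 0 * (F.C x 0 * A x) - F.S x 0 * (F.dC x 0 * A x) := by ring
        _ = 0 := by rw [e3, e2]; ring
    · calc B x = (F.C x 0 * F.dS x 0 - F.dC x 0 * F.S x 0) * B x := by rw [w, one_mul]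
        _ = F.C x 0 * (F.dS x 0 * B x) - F.dC x 0 * (F.S x 0 * B x) := by ring
        _ = 0 := by rw [← e3, ← e2]; ring
  -- continuity
  have hcont : ∀ g : ℝ → ℂ, (∀ x : ℝ, 0 ≤ x → IntervalIntegrable g volume 0 x) →
      ContinuousOn (fun x => ∫ t in (0 : ℝ)..x, g t) (Ioi 0) := by
    intro g hg x hx
    have hx' : (0 : ℝ) < x := hx
    have h1 := intervalIntegral.continuousOn_primitive_interval' (a := 0) (hg (x + 1) (by linarith))
      (by rw [uIcc_of_le (by linarith)]; exact ⟨le_rfl, by linarith⟩)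
    rw [uIcc_of_le (by linarith : (0 : ℝ) ≤ x + 1)] at h1
    exact ((h1 x ⟨hx'.le, by linarith⟩).continuousAt
      (Icc_mem_nhds hx' (by linarith))).continuousWithinAt
  have hA0 : EqOn A 0 (Ioi 0) := by
    refine MeasureTheory.Measure.eqOn_open_of_ae_eq (μ := volume) ?_ isOpen_Ioi (hcont _ hiS)
      continuousOn_const
    rw [Filter.EventuallyEq, ae_restrict_iff' measurableSet_Ioi]
    filter_upwards [hmain] with x hx h0
    exact (hx h0).1
  have hB0 : EqOn B 0 (Ioi 0) := by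
    refine MeasureTheory.Measure.eqOn_open_of_ae_eq (μ := volume) ?_ isOpen_Ioi (hcont _ hiC)
      continuousOn_const
    rw [Filter.EventuallyEq, ae_restrict_iff' measurableSet_Ioi]
    filter_upwards [hmain] with x hx h0
    exact (hx h0).2
  rw [Filter.EventuallyEq, ae_restrict_iff' measurableSet_Ioi]
  filter_upwards [haeA, haeB] with x h1 h2 hx
  have hx' : (0 : ℝ) < x := hx
  have z1 : HasDerivAt A 0 x := by
    refine (hasDerivAt_const x (0 : ℂ)).congr_of_eventuallyEq ?_
    filter_upwards [lt_mem_nhds hx'] with y hy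
    exact hA0 hy
  have z2 : HasDerivAt B 0 x := by
    refine (hasDerivAt_const x (0 : ℂ)).congr_of_eventuallyEq ?_
    filter_upwards [lt_mem_nhds hx'] with y hy
    exact hB0 hy
  have e1 := (h1 hx').unique z1
  have e2 := (h2 hx').unique z2
  have w := F.wr x (mem_Dom_of_nonneg hx'.le) 0
  show f x = 0
  calc f x = (F.C x 0 * F.dS x 0 - F.dC x 0 * F.S x 0) * f x := by rw [w, one_mul]
    _ = F.dS x 0 * (f x * F.C x 0) - F.dC x 0 * (f x * F.S x 0) := by ring
    _ = 0 := by rw [e1, e2]; ring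

end Pool.Agent.CRV
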