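import Pool.Agent.CRV.CS

set_option autoImplicit false

open MeasureTheory Complex Set Filter Topology
open scoped Real

namespace Pool.Agent.CRV

/-- the points `a + t e^{iη}` -/
private theorem ray_re (a η t : ℝ) : ((a : ℂ) + t * exp (η * I)).re = a + t * Real.cos η := by
  rw [add_re, ofReal_re, Complex.re_ofReal_mul, Complex.exp_ofReal_mul_I_re]

private theorem ray_im (a η t : ℝ) : ((a : ℂ) + t * exp (η * I)).im = t * Real.sin η := by
  rw [add_im, ofReal_im, Complex.im_ofReal_mul, Complex.exp_ofReal_mul_I_im, zero_add]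

private theorem ray_re_nonneg {a η t : ℝ} (ha : 0 ≤ a) (h1 : -(π / 2) ≤ η) (h2 : η ≤ π / 2)
    (ht : 0 ≤ t) : 0 ≤ ((a : ℂ) + t * exp (η * I)).re := by
  rw [ray_re]
  have := Real.cos_nonneg_of_neg_pi_div_two_le_of_le h1 h2
  positivity

private theorem ray_slit {a η t : ℝ} (ha : 0 ≤ a) (h1 : -(π / 2) ≤ η) (h2 : η ≤ π / 2)
    (ht : 0 < t) : ((a : ℂ) + t * exp (η * I)) ∈ slitPlane := by
  rcases (ray_re_nonneg ha h1 h2 ht.le).eq_or_lt with h | h
  · right
    rw [ray_im]
    rw [ray_re] at h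
    have hc0 := Real.cos_nonneg_of_neg_pi_div_two_le_of_le h1 h2
    have hc : Real.cos η = 0 := by
      have : t * Real.cos η ≤ 0 := by linarith
      nlinarith
    have hs := Real.sin_sq_add_cos_sq η
    rw [hc] at hs
    intro h0
    rcases mul_eq_zero.1 h0 with h' | h'
    · exact ht.ne' h'
    · rw [h'] at hs
      norm_num at hs
  · left
    exact h

private theorem ray_Dom {a η t : ℝ} (ha : 0 ≤ a) (h1 : -(π / 2) ≤ η) (h2 : η ≤ π / 2)
    (ht : 0 ≤ t) : ((a : ℂ) + t * exp (η * I)) ∈ Dom := by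
  rcases ht.eq_or_lt with h | h
  · rw [← h]
    simpa using ofReal_mem_Dom ha
  · right
    exact ray_slit ha h1 h2 h

private theorem FS.hasDerivAt_y_ray {α : ℝ} (F : FS α) (p q l : ℂ) {a η t : ℝ} (ha : 0 ≤ a)
    (h1 : -(π / 2) ≤ η) (h2 : η ≤ π / 2) (ht : 0 < t) :
    HasDerivAt (fun t : ℝ => F.y p q l (a + t * exp (η * I)))
      (exp (η * I) * F.dy p q l (a + t * exp (η * I))) t := by
  have hx : HasDerivAt (fun t : ℝ => (a : ℂ) + t * exp (η * I)) (exp (η * I)) t := by
    have := (Complex.ofRealCLM.hasDerivAt (x := t)).mul_const (exp (η * I))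
    simp only [ofRealCLM_apply, ofReal_one, one_mul] at this
    exact this.const_add _
  exact (HasDerivAt.comp t (F.hasDerivAt_y p q l _ (ray_slit ha h1 h2 ht)) hx).congr_deriv
    (mul_comm _ _)

private theorem FS.hasDerivAt_dy_ray {α : ℝ} (F : FS α) (p q l : ℂ) {a η t : ℝ} (ha : 0 ≤ a)
    (h1 : -(π / 2) ≤ η) (h2 : η ≤ π / 2) (ht : 0 < t) :
    HasDerivAt (fun t : ℝ => F.dy p q l (a + t * exp (η * I)))
      (exp (η * I) * ((I * (a + t * exp (η * I)) ^ (α : ℂ) - l) *
        F.y p q l (a + t * exp (η * I)))) t := by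
  have hx : HasDerivAt (fun t : ℝ => (a : ℂ) + t * exp (η * I)) (exp (η * I)) t := by
    have := (Complex.ofRealCLM.hasDerivAt (x := t)).mul_const (exp (η * I))
    simp only [ofRealCLM_apply, ofReal_one, one_mul] at this
    exact this.const_add _
  exact (HasDerivAt.comp t (F.hasDerivAt_dy p q l _ (ray_slit ha h1 h2 ht)) hx).congr_deriv
    (mul_comm _ _)

private theorem FS.continuousOn_y_ray {α : ℝ} (F : FS α) (p q l : ℂ) {a η : ℝ} (ha : 0 ≤ a)
    (h1 : -(π / 2) ≤ η) (h2 : η ≤ π / 2) :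
    ContinuousOn (fun t : ℝ => F.y p q l (a + t * exp (η * I))) (Ici 0) := by
  have hmap : MapsTo (fun t : ℝ => ((a : ℂ) + t * exp (η * I), l)) (Ici 0) (Dom ×ˢ univ) :=
    fun x hx => ⟨ray_Dom ha h1 h2 hx, mem_univ _⟩
  have hc : ContinuousOn (fun t : ℝ => ((a : ℂ) + t * exp (η * I), l)) (Ici 0) := by fun_prop
  unfold FS.y
  exact (continuousOn_const.mul (F.cC.comp hc hmap)).add
    (continuousOn_const.mul (F.cS.comp hc hmap))

private theorem FS.continuousOn_dy_ray {α : ℝ} (F : FS α) (p q l : ℂ) {a η : ℝ} (ha : 0 ≤ a)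
    (h1 : -(π / 2) ≤ η) (h2 : η ≤ π / 2) :
    ContinuousOn (fun t : ℝ => F.dy p q l (a + t * exp (η * I))) (Ici 0) := by
  have hmap : MapsTo (fun t : ℝ => ((a : ℂ) + t * exp (η * I), l)) (Ici 0) (Dom ×ˢ univ) :=
    fun x hx => ⟨ray_Dom ha h1 h2 hx, mem_univ _⟩
  have hc : ContinuousOn (fun t : ℝ => ((a : ℂ) + t * exp (η * I), l)) (Ici 0) := by fun_prop
  unfold FS.dy
  exact (continuousOn_const.mul (F.cdC.comp hc hmap)).add
    (continuousOn_const.mul (F.cdS.comp hc hmap))

theorem w (hHL : Stmt_HL) (hRL : Stmt_RL) : Stmt_W := by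
  intro α hα hα' F a η₁ η₂ ω c₀ c₁ R ha hη₁ hη₁₂ hη₂ hc₀ hc₁ hR hω U hU hUR hco
  obtain ⟨K, hK, γ, hγ, hHL⟩ := hHL c₀ c₁ (1 + a + R) hc₀ hc₁ (by linarith)
  have hb1 : ∀ η ∈ Icc η₁ η₂, -(π / 2) ≤ η := fun η hη => hη₁.trans hη.1
  have hb2 : ∀ η ∈ Icc η₁ η₂, η ≤ π / 2 := fun η hη => hη.2.trans hη₂
  -- the application of HL
  have hHL' : ∀ l ∈ U, ∀ η ∈ Icc η₁ η₂,
      (∀ t : ℝ, 0 < t → F.y (-F.S a l) (F.C a l) l (a + t * exp (η * I)) ≠ 0) ∧ ∃ m : ℂ,
      (∀ t : ℝ, 1 ≤ t → ‖F.y (F.dS a l) (-F.dC a l) l (a + t * exp (η * I)) /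
          F.y (-F.S a l) (F.C a l) l (a + t * exp (η * I)) + m‖ ≤ K * Real.exp (-(γ * t))) ∧
      (∀ t : ℝ, 0 ≤ t → ‖F.y (F.dS a l) (-F.dC a l) l (a + t * exp (η * I)) +
          m * F.y (-F.S a l) (F.C a l) l (a + t * exp (η * I))‖ ≤ K * Real.exp (-(γ * t)) ∧
        ‖exp (η * I) * F.dy (F.dS a l) (-F.dC a l) l (a + t * exp (η * I)) +
          m * (exp (η * I) * F.dy (-F.S a l) (F.C a l) l (a + t * exp (η * I)))‖ ≤
            K * Real.exp (-(γ * t))) := by
    intro l hl η hη
    have hwr := F.wr a (ofReal_mem_Dom ha) l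
    have e1 := hb1 η hη
    have e2 := hb2 η hη
    refine hHL (fun t => exp (2 * η * I) * (I * (a + t * exp (η * I)) ^ (α : ℂ) - l))
      (fun t => F.y (F.dS a l) (-F.dC a l) l (a + t * exp (η * I)))
      (fun t => exp (η * I) * F.dy (F.dS a l) (-F.dC a l) l (a + t * exp (η * I)))
      (fun t => F.y (-F.S a l) (F.C a l) l (a + t * exp (η * I)))
      (fun t => exp (η * I) * F.dy (-F.S a l) (F.C a l) l (a + t * exp (η * I)))
      (exp (η * I)) ω hω (Complex.norm_exp_ofReal_mul_I η) ?_ ?_ ?_ ?_ ?_ ?_ ?_ ?_ ?_ ?_ ?_ ?_ ?_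
      ?_ ?_
    · apply ContinuousOn.mul continuousOn_const
      apply ContinuousOn.sub _ continuousOn_const
      apply ContinuousOn.mul continuousOn_const
      intro t ht
      have hc : ContinuousAt (fun x : ℂ => x ^ (α : ℂ)) ((a : ℂ) + t * exp (η * I)) :=
        continuousAt_cpow_const_of_re_pos (Or.inl (ray_re_nonneg ha e1 e2 ht)) (by simpa using hα)
      have hx : ContinuousAt (fun t : ℝ => (a : ℂ) + t * exp (η * I)) t := by fun_prop
      exact (ContinuousAt.comp (f := fun t : ℝ => (a : ℂ) + t * exp (η * I))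
        (g := fun x : ℂ => x ^ (α : ℂ)) hc hx).continuousWithinAt
    · exact F.continuousOn_y_ray _ _ l ha e1 e2
    · exact continuousOn_const.mul (F.continuousOn_dy_ray _ _ l ha e1 e2)
    · exact F.continuousOn_y_ray _ _ l ha e1 e2
    · exact continuousOn_const.mul (F.continuousOn_dy_ray _ _ l ha e1 e2)
    · intro t ht
      exact F.hasDerivAt_y_ray _ _ l ha e1 e2 ht
    · intro t ht
      refine ((F.hasDerivAt_dy_ray _ _ l ha e1 e2 ht).const_mul (exp (η * I))).congr_deriv ?_
      have : exp (2 * η * I) = exp (η * I) * exp (η * I) := by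
        rw [← Complex.exp_add]
        congr 1
        ring
      rw [this]
      ring
    · intro t ht
      exact F.hasDerivAt_y_ray _ _ l ha e1 e2 ht
    · intro t ht
      refine ((F.hasDerivAt_dy_ray _ _ l ha e1 e2 ht).const_mul (exp (η * I))).congr_deriv ?_
      have : exp (2 * η * I) = exp (η * I) * exp (η * I) := by
        rw [← Complex.exp_add]
        congr 1
        ring
      rw [this]
      ring
    · simp only [ofReal_zero, zero_mul, add_zero, FS.y]
      linear_combination hwr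
    · simp only [ofReal_zero, zero_mul, add_zero, FS.dy]
      ring
    · simp only [ofReal_zero, zero_mul, add_zero, FS.y]
      ring
    · simp only [ofReal_zero, zero_mul, add_zero, FS.dy]
      linear_combination (exp (η * I)) * hwr
    · intro t ht
      exact hco l hl η hη t ht
    · intro t ht
      have hn : ‖(a : ℂ) + t * exp (η * I)‖ ≤ a + t := by
        refine (norm_add_le _ _).trans ?_
        rw [norm_mul, Complex.norm_exp_ofReal_mul_I, mul_one, Complex.norm_real,
          Complex.norm_real, Real.norm_of_nonneg ha, Real.norm_of_nonneg ht]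
      have h1 : ‖((a : ℂ) + t * exp (η * I)) ^ (α : ℂ)‖ ≤ 1 + a + t := by
        rw [Complex.norm_cpow_real]
        calc ‖(a : ℂ) + t * exp (η * I)‖ ^ α ≤ (1 + a + t) ^ α :=
              Real.rpow_le_rpow (norm_nonneg _) (by linarith) hα.le
          _ ≤ (1 + a + t) ^ (1 : ℝ) :=
              Real.rpow_le_rpow_of_exponent_le (by linarith) (by linarith)
          _ = 1 + a + t := Real.rpow_one _
      have h2 : ‖exp (2 * η * I)‖ = 1 := by
        have : (2 * η * I : ℂ) = ((2 * η : ℝ) : ℂ) * I := by push_cast; ring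
        rw [this, Complex.norm_exp_ofReal_mul_I]
      rw [norm_mul, h2, one_mul]
      refine (norm_sub_le _ _).trans ?_
      rw [norm_mul, Complex.norm_I, one_mul]
      have h3 := hUR l hl
      nlinarith
  -- choice of `m`
  choose! hne m hm1 hm2 using hHL'
  have hindep : ∀ l ∈ U, ∀ η ∈ Icc η₁ η₂, m l η = m l η₁ := by
    intro l hl η hη
    refine hRL (fun z => -(F.y (F.dS a l) (-F.dC a l) l (a + z) /
      F.y (-F.S a l) (F.C a l) l (a + z))) η₁ η₂ K γ (m l) hγ ?_ ?_ η hη η₁ ⟨le_rfl, hη₁₂⟩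
    · intro η hη t ht
      have ht0 : (0 : ℝ) < t := by linarith
      have hsl := ray_slit ha (hb1 η hη) (hb2 η hη) ht0
      have hadd : DifferentiableAt ℂ (fun z : ℂ => (a : ℂ) + z) (t * exp (η * I)) := by fun_prop
      have d1 := DifferentiableAt.comp (t * exp (η * I)) (f := fun z : ℂ => (a : ℂ) + z)
        (g := fun z => F.y (F.dS a l) (-F.dC a l) l z)
        (F.hasDerivAt_y _ _ l _ hsl).differentiableAt hadd
      have d2 := DifferentiableAt.comp (t * exp (η * I)) (f := fun z : ℂ => (a : ℂ) + z)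
        (g := fun z => F.y (-F.S a l) (F.C a l) l z)
        (F.hasDerivAt_y _ _ l _ hsl).differentiableAt hadd
      exact (d1.div d2 (hne l hl η hη t ht0)).neg
    · intro η hη t ht
      have h := hm1 l hl η hη t ht
      have e : -(F.y (F.dS a l) (-F.dC a l) l (a + t * exp (η * I)) /
          F.y (-F.S a l) (F.C a l) l (a + t * exp (η * I))) - m l η =
          -(F.y (F.dS a l) (-F.dC a l) l (a + t * exp (η * I)) /
          F.y (-F.S a l) (F.C a l) l (a + t * exp (η * I)) + m l η) := by ring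
      rw [← norm_neg, ← e] at h
      exact h
  -- holomorphy of `m`
  have hmem : η₁ ∈ Icc η₁ η₂ := ⟨le_rfl, hη₁₂⟩
  have hmdiff : DifferentiableOn ℂ (fun l => m l η₁) U := by
    have hlim : TendstoLocallyUniformlyOn
        (fun (n : ℕ) (l : ℂ) =>
          -(F.y (F.dS a l) (-F.dC a l) l (a + ((n + 1 : ℝ) : ℂ) * exp (η₁ * I)) /
          F.y (-F.S a l) (F.C a l) l (a + ((n + 1 : ℝ) : ℂ) * exp (η₁ * I))))
        (fun l => m l η₁) atTop U := by
      apply TendstoUniformlyOn.tendstoLocallyUniformlyOn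
      rw [Metric.tendstoUniformlyOn_iff]
      intro ε hε
      have hK' : Tendsto (fun n : ℕ => K * Real.exp (-(γ * (n + 1)))) atTop (𝓝 0) := by
        rw [show (0 : ℝ) = K * 0 by ring]
        apply Tendsto.const_mul
        apply Real.tendsto_exp_atBot.comp
        apply tendsto_neg_atTop_atBot.comp
        apply Tendsto.const_mul_atTop hγ
        exact tendsto_atTop_add_const_right _ _ tendsto_natCast_atTop_atTop
      filter_upwards [hK'.eventually (gt_mem_nhds hε)] with n hn l hl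
      rw [dist_eq_norm]
      have h := hm1 l hl η₁ hmem (n + 1) (by simp)
      refine lt_of_le_of_lt (le_of_eq ?_) (lt_of_le_of_lt h hn)
      congr 1
      ring
    refine hlim.differentiableOn (Eventually.of_forall ?_) hU
    intro n l hl
    have ht0 : (0 : ℝ) < n + 1 := by positivity
    have hD := ray_Dom ha (hb1 η₁ hmem) (hb2 η₁ hmem) ht0.le
    have haD := ofReal_mem_Dom ha
    have d1 : DifferentiableAt ℂ (fun l => F.y (F.dS a l) (-F.dC a l) l
        (a + ((n + 1 : ℝ) : ℂ) * exp (η₁ * I))) l := by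
      unfold FS.y
      exact (((F.adS a haD) l).mul ((F.aC _ hD) l)).add
        ((((F.adC a haD) l).neg).mul ((F.aS _ hD) l))
    have d2 : DifferentiableAt ℂ (fun l => F.y (-F.S a l) (F.C a l) l
        (a + ((n + 1 : ℝ) : ℂ) * exp (η₁ * I))) l := by
      unfold FS.y
      exact ((((F.aS a haD) l).neg).mul ((F.aC _ hD) l)).add
        (((F.aC a haD) l).mul ((F.aS _ hD) l))
    exact (d1.div d2 (hne l hl η₁ hmem _ ht0)).neg.differentiableWithinAt
  have haD := ofReal_mem_Dom ha
  refine ⟨fun l => F.dS a l - m l η₁ * F.S a l, fun l => -F.dC a l + m l η₁ * F.C a l, ?_, ?_, ?_,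
    K, γ, hγ, ?_⟩
  · exact (F.adS a haD).differentiableOn.sub (hmdiff.mul (F.aS a haD).differentiableOn)
  · exact (F.adC a haD).differentiableOn.neg.add (hmdiff.mul (F.aC a haD).differentiableOn)
  · intro l hl
    have hwr := F.wr a haD l
    simp only
    linear_combination hwr
  · intro l hl η hη t ht
    have h := hm2 l hl η hη t ht
    rw [hindep l hl η hη] at h
    constructor
    · refine le_trans (le_of_eq ?_) h.1
      congr 1
      unfold FS.y
      ring
    · refine le_trans (le_of_eq ?_) h.2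
      have e : exp (η * I) * F.dy (F.dS a l) (-F.dC a l) l (a + t * exp (η * I)) +
          m l η₁ * (exp (η * I) * F.dy (-F.S a l) (F.C a l) l (a + t * exp (η * I))) =
          exp (η * I) * F.dy (F.dS a l - m l η₁ * F.S a l) (-F.dC a l + m l η₁ * F.C a l) l
            (a + t * exp (η * I)) := by
        unfold FS.dy
        ring
      rw [e, norm_mul, Complex.norm_exp_ofReal_mul_I, one_mul]

end Pool.Agent.CRV
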