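import Pool.Agent.CRV.Y

/-!
# Module X: the solution decaying upwards (from W and XU)
-/

set_option autoImplicit false

open MeasureTheory Complex Set Filter Topology
open scoped Real

namespace Pool.Agent.CRV

/-- Coercivity in the directions `[π/2 - απ/8, π/2]`. -/
theorem x_coer {α : ℝ} (hα : 0 < α) (hα' : α ≤ 2 / 3) {l : ℂ} (hre : 0 < l.re) (him : 0 < l.im)
    {η t : ℝ} (h1 : π / 2 - α * π / 8 ≤ η) (h2 : η ≤ π / 2) (ht : 0 ≤ t) :
    Real.cos (π / 6) * l.re ≤
      (exp (((0 : ℝ) : ℂ) * I) * (exp (2 * η * I) *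
        (I * (((0 : ℝ) : ℂ) + t * exp (η * I)) ^ (α : ℂ) - l))).re := by
  have hπ := Real.pi_pos
  have hk0 : 0 ≤ π / 2 - η := by linarith
  have hk1 : 2 * (π / 2 - η) ≤ π / 6 := by nlinarith
  -- the `l` part
  have e1 : Real.cos (π / 6) * l.re ≤ -(exp (((0 : ℝ) : ℂ) * I) * (exp (2 * η * I) * l)).re := by
    have e2 : exp (2 * η * I) = exp (((2 * η : ℝ) : ℂ) * I) := by push_cast; rfl
    have e3 : exp (((0 : ℝ) : ℂ) * I) = 1 := by simp
    rw [e3, one_mul, e2, mul_re, exp_ofReal_mul_I_re, exp_ofReal_mul_I_im]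
    have e4 : Real.cos (2 * η) = -Real.cos (2 * (π / 2 - η)) := by
      rw [show 2 * (π / 2 - η) = π - 2 * η by ring, Real.cos_pi_sub, neg_neg]
    have e5 : Real.sin (2 * η) = Real.sin (2 * (π / 2 - η)) := by
      rw [show 2 * (π / 2 - η) = π - 2 * η by ring, Real.sin_pi_sub]
    rw [e4, e5]
    have e6 : Real.cos (π / 6) ≤ Real.cos (2 * (π / 2 - η)) :=
      Real.cos_le_cos_of_nonneg_of_le_pi (by linarith) (by linarith) hk1
    have e7 : 0 ≤ Real.sin (2 * (π / 2 - η)) :=
      Real.sin_nonneg_of_nonneg_of_le_pi (by linarith) (by linarith)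
    nlinarith [mul_le_mul_of_nonneg_right e6 hre.le, mul_nonneg e7 him.le]
  -- the potential part
  have e8 : 0 ≤ (exp (((0 : ℝ) : ℂ) * I) * (exp (2 * η * I) *
      (I * (((0 : ℝ) : ℂ) + t * exp (η * I)) ^ (α : ℂ)))).re := by
    rcases eq_or_lt_of_le ht with h | h
    · have hα0 : (α : ℂ) ≠ 0 := by exact_mod_cast hα.ne'
      rw [← h]
      simp [zero_cpow hα0]
    · set z : ℂ := ((0 : ℝ) : ℂ) + t * exp (η * I) with hz
      have hz' : z = (t : ℂ) * exp (η * I) := by rw [hz]; simp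
      have hz0 : z ≠ 0 := by
        rw [hz']
        exact mul_ne_zero (by exact_mod_cast h.ne') (exp_ne_zero _)
      have harg : arg z = η := by
        rw [hz', arg_real_mul _ h, arg_exp_mul_I, toIocMod_eq_self]
        constructor
        · nlinarith
        · linarith
      rw [ymod_re _ _ _ _ hz0, harg]
      refine mul_nonneg (Real.rpow_nonneg (norm_nonneg _) _) ?_
      have e9 : Real.cos (0 + 2 * η + π / 2 + α * η) =
          Real.sin (α * π / 2 - (α + 2) * (π / 2 - η)) := by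
        rw [show 0 + 2 * η + π / 2 + α * η =
          (α * π / 2 - (α + 2) * (π / 2 - η) - π / 2) + 2 * π by ring, Real.cos_add_two_pi,
          Real.cos_sub_pi_div_two]
      rw [e9]
      refine Real.sin_nonneg_of_nonneg_of_le_pi ?_ ?_
      · have : (α + 2) * (π / 2 - η) ≤ (8 / 3) * (α * π / 8) := by
          refine mul_le_mul (by linarith) (by linarith) hk0 (by norm_num)
        nlinarith [mul_pos hα hπ]
      · have : 0 ≤ (α + 2) * (π / 2 - η) := mul_nonneg (by linarith) hk0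
        nlinarith
  have e10 : exp (((0 : ℝ) : ℂ) * I) * (exp (2 * η * I) *
        (I * (((0 : ℝ) : ℂ) + t * exp (η * I)) ^ (α : ℂ) - l)) =
      exp (((0 : ℝ) : ℂ) * I) * (exp (2 * η * I) *
        (I * (((0 : ℝ) : ℂ) + t * exp (η * I)) ^ (α : ℂ))) -
      exp (((0 : ℝ) : ℂ) * I) * (exp (2 * η * I) * l) := by ring
  rw [e10, sub_re]
  linarith

theorem x_proof (hW : Stmt_W) (hXU : Stmt_XU) : Stmt_X := by
  intro α hα hα' F
  have hπ := Real.pi_pos
  -- the open sets
  let U : ℝ → Set ℂ := fun n => {l : ℂ | 1 / n < l.re ∧ 0 < l.im ∧ ‖l‖ < n}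
  have hUo : ∀ n, IsOpen (U n) := by
    intro n
    have o1 : IsOpen {l : ℂ | 1 / n < l.re} := isOpen_lt continuous_const continuous_re
    have o2 : IsOpen {l : ℂ | 0 < l.im} := isOpen_lt continuous_const continuous_im
    have o3 : IsOpen {l : ℂ | ‖l‖ < n} := isOpen_lt continuous_norm continuous_const
    exact o1.inter (o2.inter o3)
  have hex : ∀ n : ℝ, 0 < n → ∃ B : ℂ → ℂ, DifferentiableOn ℂ B (U n) ∧
      ∀ l ∈ U n, IsX F 1 (B l) l := by
    intro n hn
    have hcos : 0 < Real.cos (π / 6) := Real.cos_pos_of_mem_Ioo ⟨by linarith, by linarith⟩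
    obtain ⟨A, B, hA, hB, hAB, K, γ, hγ, hdec⟩ := hW α hα hα' F 0 (π / 2 - α * π / 8) (π / 2) 0
      1 (Real.cos (π / 6) * (1 / n)) n le_rfl (by nlinarith) (by nlinarith) le_rfl one_pos
      (by positivity) hn (by rw [Real.cos_zero]) (U n) (hUo n) (fun l hl => hl.2.2.le) (by
        intro l hl η hη t ht
        have hre : 0 < l.re := lt_trans (by positivity) hl.1
        refine le_trans ?_ (x_coer hα hα' hre hl.2.1 hη.1 hη.2 ht)
        exact mul_le_mul_of_nonneg_left hl.1.le hcos.le)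
    refine ⟨B, hB, fun l hl => ⟨Or.inl one_ne_zero, K, γ, α * π / 8, hγ, by positivity,
      by nlinarith, fun η hη t ht => ?_⟩⟩
    have hA1 : A l = 1 := by
      have := hAB l hl
      simpa [F.C0, F.S0] using this
    have := hdec l hl η hη t ht
    rw [hA1] at this
    simpa using this
  classical
  have hmem : ∀ l ∈ Q1, ∃ n : ℝ, 0 < n ∧ l ∈ U n := by
    intro l hl
    refine ⟨‖l‖ + 1 + 1 / l.re, ?_, ?_, hl.2, ?_⟩
    · have := hl.1
      positivity
    · have h1 := hl.1
      rw [one_div_lt (by positivity) h1]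
      have : 0 ≤ ‖l‖ := norm_nonneg _
      linarith
    · have h1 : 0 < 1 / l.re := one_div_pos.2 hl.1
      linarith
  refine ⟨fun l => if h : ∃ b, IsX F 1 b l then h.choose else 0, ?_, ?_⟩
  · intro l hl
    obtain ⟨n, hn, hln⟩ := hmem l hl
    obtain ⟨B, hB, hBX⟩ := hex n hn
    have heq : (fun l => if h : ∃ b, IsX F 1 b l then h.choose else 0) =ᶠ[𝓝 l] B := by
      filter_upwards [(hUo n).mem_nhds hln] with z hz
      have h : ∃ b, IsX F 1 b z := ⟨B z, hBX z hz⟩
      rw [dif_pos h]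
      have := hXU α hα hα' F z 1 _ 1 _ (hBX z hz) h.choose_spec
      rw [one_mul, one_mul] at this
      exact this
    exact ((hB.differentiableAt ((hUo n).mem_nhds hln)).congr_of_eventuallyEq
      heq).differentiableWithinAt
  · intro l hl
    obtain ⟨n, hn, hln⟩ := hmem l hl
    obtain ⟨B, hB, hBX⟩ := hex n hn
    have h : ∃ b, IsX F 1 b l := ⟨B l, hBX l hln⟩
    change IsX F 1 (if h : ∃ b, IsX F 1 b l then h.choose else 0) l
    rw [dif_pos h]
    exact h.choose_spec

end Pool.Agent.CRV
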