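import Pool.Agent.CRV.Stmts

set_option autoImplicit false

open MeasureTheory Complex Set Filter Topology
open scoped Real

namespace Pool.Agent.CRV

/-- The Wronskian of two solutions is constant. -/
theorem FS.wronskian_xy {α : ℝ} (F : FS α) (a b a' b' l x : ℂ) (hx : x ∈ Dom) :
    F.y a b l x * F.dy a' b' l x - F.dy a b l x * F.y a' b' l x = a * b' - a' * b := by
  have h := F.wr x hx l
  unfold FS.y FS.dy
  linear_combination (a * b' - a' * b) * h

/-- If a constant is bounded by `M exp(-g t)` for all large `t`, it is zero. -/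
theorem eq_zero_of_exp_bound (c : ℂ) (M g T : ℝ) (hg : 0 < g)
    (h : ∀ t : ℝ, T ≤ t → ‖c‖ ≤ M * Real.exp (-(g * t))) : c = 0 := by
  have h1 : Tendsto (fun t : ℝ => M * Real.exp (-(g * t))) atTop (𝓝 (M * 0)) := by
    apply Tendsto.const_mul
    apply Real.tendsto_exp_atBot.comp
    apply tendsto_neg_atTop_atBot.comp
    exact tendsto_id.const_mul_atTop hg
  rw [mul_zero] at h1
  have h2 : ‖c‖ ≤ 0 := ge_of_tendsto h1 (by
    filter_upwards [eventually_ge_atTop T] with t ht using h t ht)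
  exact norm_le_zero_iff.1 h2

theorem mem_Dom_of_re_pos {z : ℂ} (h : 0 < z.re) : z ∈ Dom := Or.inr (Or.inl h)

/-- The product bound. -/
theorem wr_bound_xy {α : ℝ} (F : FS α) (a b a' b' l x : ℂ) (hx : x ∈ Dom) (p q : ℝ)
    (h1 : ‖F.y a b l x‖ ≤ p) (h2 : ‖F.dy a b l x‖ ≤ p) (h3 : ‖F.y a' b' l x‖ ≤ q)
    (h4 : ‖F.dy a' b' l x‖ ≤ q) : ‖a * b' - a' * b‖ ≤ 2 * (p * q) := by
  rw [← F.wronskian_xy a b a' b' l x hx]
  have hp : 0 ≤ p := (norm_nonneg _).trans h1
  calc ‖F.y a b l x * F.dy a' b' l x - F.dy a b l x * F.y a' b' l x‖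
      ≤ ‖F.y a b l x * F.dy a' b' l x‖ + ‖F.dy a b l x * F.y a' b' l x‖ := norm_sub_le _ _
    _ = ‖F.y a b l x‖ * ‖F.dy a' b' l x‖ + ‖F.dy a b l x‖ * ‖F.y a' b' l x‖ := by
        rw [norm_mul, norm_mul]
    _ ≤ p * q + p * q := by
        gcongr
    _ = _ := by ring

theorem xu : Stmt_XU := by
  intro α _ _ F l a b a' b' h h'
  obtain ⟨_, K, γ, κ, hγ, hκ, hκ', hb⟩ := h
  obtain ⟨_, K', γ', κ', hγ', hκ1, hκ1', hb'⟩ := h'
  have hkey : a * b' - a' * b = 0 := by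
    refine eq_zero_of_exp_bound _ (2 * (K * K')) (γ + γ') 0 (by linarith) ?_
    intro t ht
    have hη : (π / 2) ∈ Icc (π / 2 - κ) (π / 2) := ⟨by linarith, le_rfl⟩
    have hη' : (π / 2) ∈ Icc (π / 2 - κ') (π / 2) := ⟨by linarith, le_rfl⟩
    obtain ⟨e1, e2⟩ := hb _ hη t ht
    obtain ⟨e3, e4⟩ := hb' _ hη' t ht
    have hx : (t : ℂ) * exp (((π / 2 : ℝ) : ℂ) * I) ∈ Dom := by
      have e : exp (((π / 2 : ℝ) : ℂ) * I) = I := by
        push_cast
        exact Complex.exp_pi_div_two_mul_I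
      rw [e]
      rcases ht.eq_or_lt with ht0 | ht0
      · left; rw [← ht0]; simp
      · right; right; simp; exact ht0.ne'
    have := wr_bound_xy F a b a' b' l _ hx _ _ e1 e2 e3 e4
    refine this.trans (le_of_eq ?_)
    have : Real.exp (-((γ + γ') * t)) = Real.exp (-(γ * t)) * Real.exp (-(γ' * t)) := by
      rw [← Real.exp_add]; congr 1; ring
    rw [this]; ring
  exact sub_eq_zero.1 hkey

theorem yu : Stmt_YU := by
  intro α _ _ F l a b a' b' h h'
  obtain ⟨K, γ, x₀, _, hγ, hx₀, hb⟩ := h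
  obtain ⟨K', γ', x₀', _, hγ', hx₀', hb'⟩ := h'
  have hkey : a * b' - a' * b = 0 := by
    refine eq_zero_of_exp_bound _ (2 * (K * K') * (Real.exp (γ * x₀) * Real.exp (γ' * x₀')))
      (γ + γ') (max 1 (max x₀ x₀')) (by linarith) ?_
    intro x hx
    have hx1 : 1 ≤ x := (le_max_left _ _).trans hx
    have hx2 : x₀ ≤ x := ((le_max_left _ _).trans (le_max_right _ _)).trans hx
    have hx3 : x₀' ≤ x := ((le_max_right _ _).trans (le_max_right _ _)).trans hx
    have hη : (0 : ℝ) ∈ Icc (-(π / 4)) (0 : ℝ) := ⟨by linarith [Real.pi_pos], le_rfl⟩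
    obtain ⟨e1, e2⟩ := hb 0 hη (x - x₀) (by linarith)
    obtain ⟨e3, e4⟩ := hb' 0 hη (x - x₀') (by linarith)
    have h1 : (x₀ : ℂ) + ((x - x₀ : ℝ) : ℂ) * exp (((0 : ℝ) : ℂ) * I) = x := by
      push_cast; simp
    have h2 : (x₀' : ℂ) + ((x - x₀' : ℝ) : ℂ) * exp (((0 : ℝ) : ℂ) * I) = x := by
      push_cast; simp
    rw [h1] at e1 e2
    rw [h2] at e3 e4
    have hD : (x : ℂ) ∈ Dom := mem_Dom_of_re_pos (by simpa using by linarith)
    have := wr_bound_xy F a b a' b' l _ hD _ _ e1 e2 e3 e4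
    refine this.trans (le_of_eq ?_)
    have e5 : Real.exp (-(γ * (x - x₀))) = Real.exp (-(γ * x)) * Real.exp (γ * x₀) := by
      rw [← Real.exp_add]; congr 1; ring
    have e6 : Real.exp (-(γ' * (x - x₀'))) = Real.exp (-(γ' * x)) * Real.exp (γ' * x₀') := by
      rw [← Real.exp_add]; congr 1; ring
    have e7 : Real.exp (-((γ + γ') * x)) = Real.exp (-(γ * x)) * Real.exp (-(γ' * x)) := by
      rw [← Real.exp_add]; congr 1; ring
    rw [e5, e6, e7]; ring
  exact sub_eq_zero.1 hkey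

end Pool.Agent.CRV
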