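import Pool.Agent.CRV.Stmts

/-!
# Module Y: the solution decaying at `+∞` (from W)
-/

set_option autoImplicit false

open MeasureTheory Complex Set Filter Topology
open scoped Real

namespace Pool.Agent.CRV

/-- The modulus of a product of unit exponentials with a power: real part. -/
theorem ymod_re (ω η α : ℝ) (z : ℂ) (hz : z ≠ 0) :
    (exp (ω * I) * (exp (2 * η * I) * (I * z ^ (α : ℂ)))).re =
      ‖z‖ ^ α * Real.cos (ω + 2 * η + π / 2 + α * arg z) := by
  have h1 : z ^ (α : ℂ) = ((‖z‖ ^ α : ℝ) : ℂ) * exp (((α * arg z : ℝ) : ℂ) * I) := by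
    rw [cpow_def_of_ne_zero hz]
    have h2 : log z = ((Real.log ‖z‖ : ℝ) : ℂ) + (arg z : ℂ) * I := rfl
    have h3 : ((‖z‖ ^ α : ℝ) : ℂ) = exp (((Real.log ‖z‖ * α : ℝ)) : ℂ) := by
      rw [Real.rpow_def_of_pos (norm_pos_iff.2 hz), ofReal_exp]
    rw [h2, h3, ← exp_add]
    congr 1
    push_cast
    ring
  have h4 : exp (ω * I) * (exp (2 * η * I) * (I * z ^ (α : ℂ))) =
      ((‖z‖ ^ α : ℝ) : ℂ) * exp (((ω + 2 * η + π / 2 + α * arg z : ℝ) : ℂ) * I) := by
    rw [h1]
    have h5 : I = exp ((π / 2 : ℂ) * I) := by rw [exp_pi_div_two_mul_I]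
    have h6 : exp (((ω + 2 * η + π / 2 + α * arg z : ℝ) : ℂ) * I) =
        exp (ω * I) * (exp (2 * η * I) * (exp ((π / 2 : ℂ) * I) * exp (((α * arg z : ℝ) : ℂ) * I))) := by
      rw [← exp_add, ← exp_add, ← exp_add]
      congr 1
      push_cast
      ring
    rw [h6, ← h5]
    ring
  rw [h4, re_ofReal_mul, exp_ofReal_mul_I_re]

theorem yarg {x₀ t η : ℝ} (hx₀ : 0 < x₀) (ht : 0 ≤ t) (h1 : -(π / 4) ≤ η) (h2 : η ≤ 0) :
    η ≤ arg (x₀ + t * exp (η * I)) ∧ arg (x₀ + t * exp (η * I)) ≤ 0 ∧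
      x₀ ≤ ‖(x₀ : ℂ) + t * exp (η * I)‖ := by
  have hπ := Real.pi_pos
  set z : ℂ := x₀ + t * exp (η * I) with hz
  have hcos : 0 ≤ Real.cos η := Real.cos_nonneg_of_mem_Icc ⟨by linarith, by linarith⟩
  have hsin : Real.sin η ≤ 0 := Real.sin_nonpos_of_nonpos_of_neg_pi_le h2 (by linarith)
  have hre : z.re = x₀ + t * Real.cos η := by
    rw [hz]; simp [exp_ofReal_mul_I_re]
  have him : z.im = t * Real.sin η := by
    rw [hz]; simp [exp_ofReal_mul_I_im]
  have hrepos : 0 < z.re := by rw [hre]; positivity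
  have himn : z.im ≤ 0 := by rw [him]; exact mul_nonpos_of_nonneg_of_nonpos ht hsin
  have hnorm : x₀ ≤ ‖z‖ := by
    refine le_trans ?_ (re_le_norm z)
    rw [hre]; nlinarith [mul_nonneg ht hcos]
  have harg1 : arg z ≤ 0 := by
    rcases lt_or_eq_of_le himn with h | h
    · exact (arg_neg_iff.2 h).le
    · rw [arg_eq_zero_iff.2 ⟨hrepos.le, h⟩]
  have harg2 : |arg z| < π / 2 := abs_arg_lt_pi_div_two_iff.2 (Or.inl hrepos)
  have hkey : ‖z‖ * Real.sin (arg z - η) = z.im * Real.cos η - z.re * Real.sin η := by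
    rw [Real.sin_sub]
    have e1 := norm_mul_cos_arg z
    have e2 := norm_mul_sin_arg z
    calc ‖z‖ * (Real.sin (arg z) * Real.cos η - Real.cos (arg z) * Real.sin η)
        = (‖z‖ * Real.sin (arg z)) * Real.cos η - (‖z‖ * Real.cos (arg z)) * Real.sin η := by ring
      _ = _ := by rw [e1, e2]
  have hkey2 : 0 ≤ ‖z‖ * Real.sin (arg z - η) := by
    rw [hkey, him, hre]
    nlinarith [mul_nonneg hx₀.le (neg_nonneg.2 hsin)]
  have hzpos : 0 < ‖z‖ := lt_of_lt_of_le hx₀ hnorm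
  have hsin2 : 0 ≤ Real.sin (arg z - η) := by
    by_contra hcon
    push Not at hcon
    nlinarith [mul_pos hzpos (neg_pos.2 hcon)]
  refine ⟨?_, harg1, hnorm⟩
  by_contra hcon
  push Not at hcon
  have h3 : Real.sin (arg z - η) < 0 := by
    refine Real.sin_neg_of_neg_of_neg_pi_lt (by linarith) ?_
    have := (abs_lt.1 harg2).1
    linarith
  linarith

theorem y_proof (hW : Stmt_W) : Stmt_Y := by
  intro α hα hα' F R hR
  have hπ := Real.pi_pos
  set x₀ : ℝ := (4 * R + 4) ^ (1 / α) with hx₀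
  have hx₀pos : 0 < x₀ := by rw [hx₀]; positivity
  have hx₀α : x₀ ^ α = 4 * R + 4 := by
    rw [hx₀, ← Real.rpow_mul (by positivity), one_div_mul_cancel hα.ne', Real.rpow_one]
  obtain ⟨A, B, hA, hB, hAB, K, γ, hγ, hdec⟩ := hW α hα hα' F x₀ (-(π / 4)) 0 (-(π / 6))
    (Real.cos (π / 6)) (R + 2) R hx₀pos.le (by linarith) (by linarith) (by linarith)
    (Real.cos_pos_of_mem_Ioo ⟨by linarith, by linarith⟩) (by linarith) hR
    (by rw [Real.cos_neg]) (Metric.ball 0 R) Metric.isOpen_ball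
    (fun l hl => (mem_ball_zero_iff.1 hl).le) (by
      intro l hl η hη t ht
      obtain ⟨g1, g2, g3⟩ := yarg hx₀pos ht hη.1 hη.2
      set z : ℂ := (x₀ : ℂ) + t * exp (η * I) with hz
      have hz0 : z ≠ 0 := by
        intro h
        rw [h, norm_zero] at g3
        linarith
      have e1 : exp (((-(π / 6) : ℝ) : ℂ) * I) * (exp (2 * η * I) * (I * z ^ (α : ℂ) - l)) =
          exp (((-(π / 6) : ℝ) : ℂ) * I) * (exp (2 * η * I) * (I * z ^ (α : ℂ))) -
          exp (((-(π / 6) : ℝ) : ℂ) * I) * (exp (2 * η * I) * l) := by ring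
      rw [e1, sub_re, ymod_re _ _ _ _ hz0]
      have e2 : (exp (((-(π / 6) : ℝ) : ℂ) * I) * (exp (2 * η * I) * l)).re ≤ R := by
        refine (re_le_norm _).trans ?_
        have e3 : exp (2 * η * I) = exp (((2 * η : ℝ) : ℂ) * I) := by push_cast; rfl
        rw [norm_mul, norm_mul, e3, norm_exp_ofReal_mul_I, norm_exp_ofReal_mul_I, one_mul, one_mul]
        exact (mem_ball_zero_iff.1 hl).le
      have e4 : 1 / 2 ≤ Real.cos (-(π / 6) + 2 * η + π / 2 + α * arg z) := by
        rw [← Real.cos_pi_div_three, ← Real.cos_abs (-(π / 6) + 2 * η + π / 2 + α * arg z)]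
        refine Real.cos_le_cos_of_nonneg_of_le_pi (abs_nonneg _) (by linarith) ?_
        rw [abs_le]
        have q1 : α * arg z ≤ 0 := mul_nonpos_of_nonneg_of_nonpos hα.le g2
        have q2 : α * η ≤ α * arg z := mul_le_mul_of_nonneg_left g1 hα.le
        have q3 : -(π / 6) ≤ α * η := by
          have := hη.1
          nlinarith
        constructor
        · have := hη.1
          linarith
        · have := hη.2
          linarith
      have e5 : 4 * R + 4 ≤ ‖z‖ ^ α := by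
        rw [← hx₀α]
        exact Real.rpow_le_rpow hx₀pos.le g3 hα.le
      nlinarith)
  refine ⟨A, B, hA, hB, K, γ, x₀, fun l hl => ⟨?_, hγ, hx₀pos.le, fun η hη t ht => hdec l hl η hη t ht⟩⟩
  by_contra hcon
  push Not at hcon
  have := hAB l hl
  rw [hcon.1, hcon.2] at this
  simp at this

end Pool.Agent.CRV
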