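import Pool.Agent.CRV.DLXDLY
import Pool.Agent.CRV.CS
import Pool.Agent.CRV.EN

set_option autoImplicit false

open MeasureTheory Complex Set Filter Topology
open scoped Real

namespace Pool.Agent.CRV

/-- `(∫₀¹ g)² ≤ ∫₀¹ g²`. -/
theorem sq_integral_le_zher (g : ℝ → ℝ) (hg : ContinuousOn g (Icc 0 1)) :
    (∫ t in (0 : ℝ)..1, g t) ^ 2 ≤ ∫ t in (0 : ℝ)..1, g t ^ 2 := by
  set c := ∫ t in (0 : ℝ)..1, g t with hc
  have hgi : IntervalIntegrable g volume 0 1 := by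
    apply ContinuousOn.intervalIntegrable
    rw [uIcc_of_le zero_le_one]; exact hg
  have hg2 : IntervalIntegrable (fun t => g t ^ 2) volume 0 1 := by
    apply ContinuousOn.intervalIntegrable
    rw [uIcc_of_le zero_le_one]; exact hg.pow 2
  have h0 : 0 ≤ ∫ t in (0 : ℝ)..1, (g t - c) ^ 2 :=
    intervalIntegral.integral_nonneg zero_le_one (fun t _ => sq_nonneg _)
  have h1 : ∫ t in (0 : ℝ)..1, (g t - c) ^ 2 = (∫ t in (0 : ℝ)..1, g t ^ 2) - c ^ 2 := by
    have e : ∀ t, (g t - c) ^ 2 = (g t ^ 2 - (2 * c) * g t) + c ^ 2 := by intro t; ring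
    simp_rw [e]
    rw [intervalIntegral.integral_add (hg2.sub (hgi.const_mul _)) intervalIntegrable_const,
      intervalIntegral.integral_sub hg2 (hgi.const_mul _), intervalIntegral.integral_const_mul,
      intervalIntegral.integral_const, ← hc]
    simp only [sub_zero, smul_eq_mul, one_mul]
    ring
  rw [h1] at h0
  linarith

/-- The abstract estimate behind `ZHER`. -/
theorem zher_abstract (α : ℝ) (hα : 0 < α) (hα' : α ≤ 2 / 3) (μ : ℂ) (w dw : ℝ → ℂ) (K γ : ℝ)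
    (hγ : 0 < γ)
    (hwc : ContinuousOn w (Ici 0)) (hdwc : ContinuousOn dw (Ici 0))
    (hw : ∀ t : ℝ, 0 < t → HasDerivAt w (dw t) t)
    (hdw : ∀ t : ℝ, 0 < t → HasDerivAt dw ((((t ^ α : ℝ) : ℂ) - μ) * w t) t)
    (hwb : ∀ t : ℝ, 0 ≤ t → ‖w t‖ ≤ K * Real.exp (-(γ * t)))
    (hdwb : ∀ t : ℝ, 0 ≤ t → ‖dw t‖ ≤ K * Real.exp (-(γ * t))) (hμ : μ.im ≠ 0) :
    ‖dw 0‖ ^ 2 ≤ 4 * (1 + ‖μ‖) ^ 2 * (1 + 1 / |μ.im|) * (‖w 0‖ * ‖dw 0‖) ∧
    ‖w 0‖ ^ 2 ≤ 4 * (1 + ‖μ‖) ^ 2 * (1 + 1 / |μ.im|) * (‖w 0‖ * ‖dw 0‖) := by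
  have hrp : ∀ t : ℝ, 0 ≤ t → t ^ α ≤ 1 + t := by
    intro t ht
    rcases le_or_gt t 1 with h | h
    · have := Real.rpow_le_one ht h hα.le
      linarith
    · have : t ^ α ≤ t ^ (1 : ℝ) := Real.rpow_le_rpow_of_exponent_le h.le (by linarith)
      rw [Real.rpow_one] at this
      linarith
  have hQc : ContinuousOn (fun t : ℝ => ((t ^ α : ℝ) : ℂ) - μ) (Ici 0) := by
    apply Continuous.continuousOn
    have : Continuous (fun t : ℝ => t ^ α) := Real.continuous_rpow_const hα.le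
    fun_prop
  have hQb : ∀ t : ℝ, 0 ≤ t → ‖((t ^ α : ℝ) : ℂ) - μ‖ ≤ (1 + ‖μ‖) * (1 + t) := by
    intro t ht
    refine (norm_sub_le _ _).trans ?_
    rw [Complex.norm_real, Real.norm_of_nonneg (Real.rpow_nonneg ht _)]
    have := hrp t ht
    nlinarith [norm_nonneg μ]
  obtain ⟨i1, i2, i3, i4⟩ := en (fun t : ℝ => ((t ^ α : ℝ) : ℂ) - μ) w dw (1 + ‖μ‖) K γ hγ hQc
    hwc hdwc hw hdw hQb hwb hdwb
  set A := ∫ t in Ioi (0 : ℝ), ‖w t‖ ^ 2 with hA
  set B := ∫ t in Ioi (0 : ℝ), ‖dw t‖ ^ 2 with hB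
  set J := ∫ t in Ioi (0 : ℝ), (((t ^ α : ℝ) : ℂ) - μ) * ((‖w t‖ ^ 2 : ℝ) : ℂ) with hJ
  set M := ‖w 0‖ * ‖dw 0‖ with hM
  have hA0 : 0 ≤ A := integral_nonneg (fun t => by positivity)
  have hB0 : 0 ≤ B := integral_nonneg (fun t => by positivity)
  have hM0 : 0 ≤ M := by positivity
  have hMn : ‖-(dw 0 * (starRingEnd ℂ) (w 0))‖ = M := by
    rw [norm_neg, norm_mul, RCLike.norm_conj, hM, mul_comm]
  have him : J.im = -(μ.im * A) := by
    have h1 : J.im = ∫ t in Ioi (0 : ℝ),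
        ((((t ^ α : ℝ) : ℂ) - μ) * ((‖w t‖ ^ 2 : ℝ) : ℂ)).im :=
      (Complex.imCLM.integral_comp_comm i3).symm
    rw [h1]
    have h2 : ∀ t : ℝ, ((((t ^ α : ℝ) : ℂ) - μ) * ((‖w t‖ ^ 2 : ℝ) : ℂ)).im =
        (-μ.im) * ‖w t‖ ^ 2 := by
      intro t
      rw [Complex.im_mul_ofReal, Complex.sub_im, Complex.ofReal_im, zero_sub]
    simp_rw [h2]
    rw [integral_const_mul, ← hA]; ring
  have hre : -(μ.re * A) ≤ J.re := by
    have h1 : J.re = ∫ t in Ioi (0 : ℝ),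
        ((((t ^ α : ℝ) : ℂ) - μ) * ((‖w t‖ ^ 2 : ℝ) : ℂ)).re :=
      (Complex.reCLM.integral_comp_comm i3).symm
    rw [h1]
    have h2 : -(μ.re * A) = ∫ t in Ioi (0 : ℝ), (-μ.re) * ‖w t‖ ^ 2 := by
      rw [integral_const_mul, ← hA]; ring
    rw [h2]
    refine setIntegral_mono_on (i2.const_mul _) ?_ measurableSet_Ioi ?_
    · exact (Complex.reCLM.integrable_comp i3)
    · intro t ht
      rw [Complex.re_mul_ofReal, Complex.sub_re, Complex.ofReal_re]
      have : 0 ≤ t ^ α := Real.rpow_nonneg (le_of_lt ht) _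
      have h3 : 0 ≤ ‖w t‖ ^ 2 := by positivity
      nlinarith
  have hAle : |μ.im| * A ≤ M := by
    have h1 := congrArg Complex.im i4
    rw [Complex.add_im, Complex.ofReal_im, zero_add, him] at h1
    have h2 := Complex.abs_im_le_norm (-(dw 0 * (starRingEnd ℂ) (w 0)))
    rw [hMn, ← h1, abs_neg, abs_mul, abs_of_nonneg hA0] at h2
    exact h2
  have hy : 0 < |μ.im| := abs_pos.2 hμ
  have hAle' : A ≤ M * (1 / |μ.im|) := by
    rw [mul_one_div, le_div_iff₀ hy, mul_comm]; exact hAle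
  have hBle : B ≤ M + ‖μ‖ * A := by
    have h1 := congrArg Complex.re i4
    rw [Complex.add_re, Complex.ofReal_re] at h1
    have h2 := (le_abs_self _).trans (Complex.abs_re_le_norm (-(dw 0 * (starRingEnd ℂ) (w 0))))
    rw [hMn, ← h1] at h2
    have h3 : μ.re * A ≤ ‖μ‖ * A :=
      mul_le_mul_of_nonneg_right ((le_abs_self _).trans (Complex.abs_re_le_norm μ)) hA0
    linarith
  -- restriction to `[0, 1]`
  have hIcc : Icc (0 : ℝ) 1 ⊆ Ici 0 := fun t ht => ht.1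
  have hsub : ∀ (g : ℝ → ℝ), (∀ t, 0 ≤ g t) → IntegrableOn g (Ioi 0) →
      ∫ t in (0 : ℝ)..1, g t ≤ ∫ t in Ioi (0 : ℝ), g t := by
    intro g hg0 hgi
    rw [intervalIntegral.integral_of_le zero_le_one]
    exact setIntegral_mono_set hgi (Eventually.of_forall hg0)
      (Ioc_subset_Ioi_self.eventuallyLE)
  have hA1 := hsub _ (fun t => by positivity) i2
  have hB1 := hsub _ (fun t => by positivity) i1
  rw [← hA] at hA1
  rw [← hB] at hB1
  have hwI : ContinuousOn w (Icc 0 1) := hwc.mono hIcc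
  have hdwI : ContinuousOn dw (Icc 0 1) := hdwc.mono hIcc
  have hQI : ContinuousOn (fun t : ℝ => ((t ^ α : ℝ) : ℂ) - μ) (Icc 0 1) := hQc.mono hIcc
  have hii : ∀ {E : Type} [NormedAddCommGroup E] {g : ℝ → E}, ContinuousOn g (Icc 0 1) →
      IntervalIntegrable g volume 0 1 := by
    intro E _ g hg
    apply ContinuousOn.intervalIntegrable
    rw [uIcc_of_le zero_le_one]; exact hg
  have iw2 : IntervalIntegrable (fun t => ‖w t‖ ^ 2) volume 0 1 := hii (by fun_prop)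
  have idw2 : IntervalIntegrable (fun t => ‖dw t‖ ^ 2) volume 0 1 := hii (by fun_prop)
  -- bound of `dw 0`
  have hb2 : ‖dw 0‖ ^ 2 ≤ 2 * B + 2 * (1 + ‖μ‖) ^ 2 * A := by
    have hF := intervalIntegral.integral_eq_sub_of_hasDerivAt_of_le (a := 0) (b := 1)
      (f := fun t : ℝ => ((1 - t : ℝ) : ℂ) * dw t)
      (f' := fun t : ℝ => -(1 : ℂ) * dw t + ((1 - t : ℝ) : ℂ) * ((((t ^ α : ℝ) : ℂ) - μ) * w t))
      zero_le_one (by fun_prop)
      (by
        intro t ht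
        have h1 : HasDerivAt (fun t : ℝ => ((1 - t : ℝ) : ℂ)) (-(1 : ℂ)) t := by
          have h2 : HasDerivAt (fun t : ℝ => (1 - t : ℝ)) (-1) t := by
            simpa using (hasDerivAt_id t).const_sub 1
          have := h2.ofReal_comp
          simpa using this
        exact h1.mul (hdw t ht.1))
      (hii (by fun_prop))
    have h3 : dw 0 = -(∫ t in (0 : ℝ)..1,
        (-(1 : ℂ) * dw t + ((1 - t : ℝ) : ℂ) * ((((t ^ α : ℝ) : ℂ) - μ) * w t))) := by
      rw [hF]; simp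
    have h4 : ‖dw 0‖ ≤ ∫ t in (0 : ℝ)..1, (‖dw t‖ + (1 + ‖μ‖) * ‖w t‖) := by
      rw [h3, norm_neg]
      refine intervalIntegral.norm_integral_le_of_norm_le zero_le_one ?_ (hii (by fun_prop))
      filter_upwards with t ht
      have ht0 : 0 ≤ t := ht.1.le
      refine (norm_add_le _ _).trans ?_
      rw [norm_mul, norm_neg, norm_one, one_mul, norm_mul, norm_mul, Complex.norm_real,
        Real.norm_of_nonneg (by linarith [ht.2])]
      have h5 : ‖((t ^ α : ℝ) : ℂ) - μ‖ ≤ 1 + ‖μ‖ := by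
        refine (norm_sub_le _ _).trans ?_
        rw [Complex.norm_real, Real.norm_of_nonneg (Real.rpow_nonneg ht0 _)]
        have := Real.rpow_le_one ht0 ht.2 hα.le
        linarith
      have h6 : (1 - t) * (‖((t ^ α : ℝ) : ℂ) - μ‖ * ‖w t‖) ≤
          1 * ((1 + ‖μ‖) * ‖w t‖) := by
        apply mul_le_mul (by linarith) _ (by positivity) zero_le_one
        exact mul_le_mul_of_nonneg_right h5 (norm_nonneg _)
      linarith
    have h7 := sq_integral_le_zher (fun t => ‖dw t‖ + (1 + ‖μ‖) * ‖w t‖) (by fun_prop)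
    have h8 : ∫ t in (0 : ℝ)..1, (‖dw t‖ + (1 + ‖μ‖) * ‖w t‖) ^ 2 ≤
        ∫ t in (0 : ℝ)..1, (2 * ‖dw t‖ ^ 2 + 2 * (1 + ‖μ‖) ^ 2 * ‖w t‖ ^ 2) := by
      refine intervalIntegral.integral_mono_on zero_le_one (hii (by fun_prop))
        (hii (by fun_prop)) ?_
      intro t _
      nlinarith [sq_nonneg (‖dw t‖ - (1 + ‖μ‖) * ‖w t‖)]
    have h9 : ∫ t in (0 : ℝ)..1, (2 * ‖dw t‖ ^ 2 + 2 * (1 + ‖μ‖) ^ 2 * ‖w t‖ ^ 2) =
        2 * (∫ t in (0 : ℝ)..1, ‖dw t‖ ^ 2) +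
          2 * (1 + ‖μ‖) ^ 2 * ∫ t in (0 : ℝ)..1, ‖w t‖ ^ 2 := by
      rw [intervalIntegral.integral_add (idw2.const_mul _) (iw2.const_mul _),
        intervalIntegral.integral_const_mul, intervalIntegral.integral_const_mul]
    have h10 : ‖dw 0‖ ^ 2 ≤ (∫ t in (0 : ℝ)..1, (‖dw t‖ + (1 + ‖μ‖) * ‖w t‖)) ^ 2 :=
      pow_le_pow_left₀ (norm_nonneg _) h4 2
    have h11 : 2 * (1 + ‖μ‖) ^ 2 * ∫ t in (0 : ℝ)..1, ‖w t‖ ^ 2 ≤ 2 * (1 + ‖μ‖) ^ 2 * A :=
      mul_le_mul_of_nonneg_left hA1 (by positivity)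
    linarith
  -- bound of `w 0`
  have ha2 : ‖w 0‖ ^ 2 ≤ 2 * A + B := by
    have hF := intervalIntegral.integral_eq_sub_of_hasDerivAt_of_le (a := 0) (b := 1)
      (f := fun t : ℝ => (1 - t) * ‖w t‖ ^ 2)
      (f' := fun t : ℝ => (-1) * ‖w t‖ ^ 2 + (1 - t) * (2 * inner ℝ (w t) (dw t)))
      zero_le_one (by fun_prop)
      (by
        intro t ht
        have h1 : HasDerivAt (fun t : ℝ => (1 - t : ℝ)) (-1) t := by
          simpa using (hasDerivAt_id t).const_sub 1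
        exact h1.mul ((hw t ht.1).norm_sq))
      (hii (by fun_prop))
    have h3 : ‖w 0‖ ^ 2 = -(∫ t in (0 : ℝ)..1,
        ((-1) * ‖w t‖ ^ 2 + (1 - t) * (2 * inner ℝ (w t) (dw t)))) := by
      rw [hF]; simp
    have h4 : ‖w 0‖ ^ 2 ≤ ∫ t in (0 : ℝ)..1, (2 * ‖w t‖ ^ 2 + ‖dw t‖ ^ 2) := by
      rw [h3, ← intervalIntegral.integral_neg]
      refine intervalIntegral.integral_mono_on zero_le_one (hii (by fun_prop))
        (hii (by fun_prop)) ?_
      intro t ht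
      have h5 : |inner ℝ (w t) (dw t)| ≤ ‖w t‖ * ‖dw t‖ := abs_real_inner_le_norm _ _
      have h6 := neg_abs_le (inner ℝ (w t) (dw t))
      have h7 : -(inner ℝ (w t) (dw t)) ≤ ‖w t‖ * ‖dw t‖ := by linarith
      have h8 : (1 - t) * (-(2 * inner ℝ (w t) (dw t))) ≤ 1 * (2 * (‖w t‖ * ‖dw t‖)) := by
        have h9 : 0 ≤ ‖w t‖ * ‖dw t‖ := by positivity
        have h10 : 0 ≤ 1 - t := by linarith [ht.2]
        have h11 : 1 - t ≤ 1 := by linarith [ht.1]
        calc (1 - t) * (-(2 * inner ℝ (w t) (dw t)))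
            ≤ (1 - t) * (2 * (‖w t‖ * ‖dw t‖)) :=
              mul_le_mul_of_nonneg_left (by linarith) h10
          _ ≤ 1 * (2 * (‖w t‖ * ‖dw t‖)) := mul_le_mul_of_nonneg_right h11 (by positivity)
      nlinarith [sq_nonneg (‖w t‖ - ‖dw t‖)]
    have h9 : ∫ t in (0 : ℝ)..1, (2 * ‖w t‖ ^ 2 + ‖dw t‖ ^ 2) =
        2 * (∫ t in (0 : ℝ)..1, ‖w t‖ ^ 2) + ∫ t in (0 : ℝ)..1, ‖dw t‖ ^ 2 := by
      rw [intervalIntegral.integral_add (iw2.const_mul _) idw2,
        intervalIntegral.integral_const_mul]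
    linarith
  have hp0 : 0 ≤ 1 / |μ.im| := by positivity
  set p := 1 / |μ.im| with hp
  have hm0 : 0 ≤ ‖μ‖ := norm_nonneg _
  set m := ‖μ‖ with hm
  have hmA : m * A ≤ m * (M * p) := mul_le_mul_of_nonneg_left hAle' hm0
  have hB2 : B ≤ M + m * (M * p) := by linarith
  have hMp : 0 ≤ M * p := by positivity
  constructor
  · have h1 : 2 * (1 + m) ^ 2 * A ≤ 2 * (1 + m) ^ 2 * (M * p) :=
      mul_le_mul_of_nonneg_left hAle' (by positivity)
    have h2 : ‖dw 0‖ ^ 2 ≤ 2 * (M + m * (M * p)) + 2 * (1 + m) ^ 2 * (M * p) := by linarith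
    refine h2.trans ?_
    have h3 : 4 * (1 + m) ^ 2 * (1 + p) * M - (2 * (M + m * (M * p)) + 2 * (1 + m) ^ 2 * (M * p))
        = 2 * M + 8 * m * M + 4 * m ^ 2 * M + (M * p) * (2 + 2 * m + 2 * m ^ 2) := by ring
    have h4 : 0 ≤ 2 * M + 8 * m * M + 4 * m ^ 2 * M + (M * p) * (2 + 2 * m + 2 * m ^ 2) := by
      positivity
    linarith
  · have h2 : ‖w 0‖ ^ 2 ≤ 2 * (M * p) + (M + m * (M * p)) := by linarith
    refine h2.trans ?_
    have h3 : 4 * (1 + m) ^ 2 * (1 + p) * M - (2 * (M * p) + (M + m * (M * p)))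
        = 3 * M + 8 * m * M + 4 * m ^ 2 * M + (M * p) * (2 + 7 * m + 4 * m ^ 2) := by ring
    have h4 : 0 ≤ 3 * M + 8 * m * M + 4 * m ^ 2 * M + (M * p) * (2 + 7 * m + 4 * m ^ 2) := by
      positivity
    linarith

theorem zher : Stmt_ZHER := by
  intro α hα hα' F a b l hY hμ
  have hπ := Real.pi_pos
  have hβ0 : 0 < beta α := by unfold beta; positivity
  have hβ4 : beta α < π / 4 := by
    unfold beta
    rw [div_lt_div_iff₀ (by positivity) (by norm_num)]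
    nlinarith
  have hβα : (2 + α) * beta α = π / 2 := by
    unfold beta
    field_simp
    ring
  obtain ⟨K, γ, hγ, hdec⟩ := dly α hα hα' F a b l hY 0 le_rfl (-(beta α)) (by linarith)
    (by linarith)
  set e : ℂ := exp (((-(beta α) : ℝ) : ℂ) * I) with he
  have hne : ‖e‖ = 1 := Complex.norm_exp_ofReal_mul_I _
  have he0 : e ≠ 0 := Complex.exp_ne_zero _
  have hcos : 0 < e.re := by
    rw [he, Complex.exp_ofReal_mul_I_re]
    exact Real.cos_pos_of_mem_Ioo ⟨by linarith, by linarith⟩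
  have hμe : l * exp (-(2 * beta α) * I) = l * e ^ 2 := by
    rw [he, ← Complex.exp_nat_mul]
    congr 2
    push_cast; ring
  rw [hμe] at hμ ⊢
  have hnμ : ‖l * e ^ 2‖ = ‖l‖ := by rw [norm_mul, norm_pow, hne, one_pow, mul_one]
  have hsl : ∀ t : ℝ, 0 < t → (t : ℂ) * e ∈ slitPlane := by
    intro t ht
    left
    rw [Complex.re_ofReal_mul]; positivity
  have hDom : ∀ t : ℝ, 0 ≤ t → (t : ℂ) * e ∈ Dom := by
    intro t ht
    rcases ht.eq_or_lt with h | h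
    · left; rw [← h]; simp
    · right; exact hsl t h
  have hQ : ∀ t : ℝ, 0 < t → e * (e * (I * ((t : ℂ) * e) ^ (α : ℂ) - l)) =
      ((t ^ α : ℝ) : ℂ) - l * e ^ 2 := by
    intro t ht
    have h1 : ((t : ℂ) * e) ^ (α : ℂ) = ((t ^ α : ℝ) : ℂ) * exp (((-(beta α) : ℝ) : ℂ) * I * α) := by
      rw [Complex.cpow_def_of_ne_zero (mul_ne_zero (by exact_mod_cast ht.ne') he0),
        Complex.log_ofReal_mul ht he0, he, Complex.log_exp, add_mul, Complex.exp_add]
      · congr 1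
        rw [Complex.ofReal_cpow ht.le, Complex.cpow_def_of_ne_zero (by exact_mod_cast ht.ne'),
          Complex.ofReal_log ht.le]
      · simp; linarith
      · simp; linarith
    have h2 : e * e * exp (((-(beta α) : ℝ) : ℂ) * I * α) = -I := by
      rw [he, ← Complex.exp_add, ← Complex.exp_add]
      have : ((-(beta α) : ℝ) : ℂ) * I + ((-(beta α) : ℝ) : ℂ) * I +
          ((-(beta α) : ℝ) : ℂ) * I * α = -(((π : ℝ) : ℂ) / 2 * I) := by
        have h3 : ((2 + α : ℝ) : ℂ) * ((beta α : ℝ) : ℂ) = ((π / 2 : ℝ) : ℂ) := by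
          rw [← Complex.ofReal_mul, hβα]
        push_cast at h3 ⊢
        linear_combination (-I) * h3
      rw [this, Complex.exp_neg, Complex.exp_pi_div_two_mul_I, Complex.inv_I]
    rw [h1]
    linear_combination (I * ((t ^ α : ℝ) : ℂ)) * h2 - ((t ^ α : ℝ) : ℂ) * Complex.I_mul_I
  have hlin : ∀ t : ℝ, HasDerivAt (fun t : ℝ => (t : ℂ) * e) e t := by
    intro t
    simpa using (Complex.ofRealCLM.hasDerivAt (x := t)).mul_const e
  have hcont : Continuous (fun t : ℝ => (t : ℂ) * e) := by fun_prop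
  have key := zher_abstract α hα hα' (l * e ^ 2) (fun t : ℝ => F.y a b l (t * e))
    (fun t : ℝ => F.dy a b l (t * e) * e) K γ hγ
    ((F.continuousOn_y_Dom a b l).comp hcont.continuousOn (fun t ht => hDom t ht))
    (((F.continuousOn_dy_Dom a b l).comp hcont.continuousOn (fun t ht => hDom t ht)).mul
      continuousOn_const)
    (fun t ht => HasDerivAt.comp (h₂ := fun z => F.y a b l z) (h := fun s : ℝ => (s : ℂ) * e) t
      (F.hasDerivAt_y a b l _ (hsl t ht)) (hlin t))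
    (fun t ht => by
      have := (HasDerivAt.comp (h₂ := fun z => F.dy a b l z) (h := fun s : ℝ => (s : ℂ) * e) t
        (F.hasDerivAt_dy a b l _ (hsl t ht)) (hlin t)).mul_const e
      refine this.congr_deriv ?_
      rw [← hQ t ht]; ring)
    (fun t ht => by
      have := (hdec t ht).1
      simpa using this)
    (fun t ht => by
      have := (hdec t ht).2
      rw [norm_mul, hne, mul_one]
      simpa using this) hμ
  simp only [Complex.ofReal_zero, zero_mul, FS.y_zero, FS.dy_zero, norm_mul, hne, mul_one] at key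
  rw [norm_pow, hne, one_pow, mul_one] at key
  obtain ⟨k1, k2⟩ := key
  set C := 4 * (1 + ‖l‖) ^ 2 * (1 + 1 / |(l * e ^ 2).im|) with hC
  have hC0 : 0 ≤ C := by positivity
  obtain ⟨_, _, _, hab, _⟩ := hY
  have ha : a ≠ 0 := by
    intro ha
    rcases hab with h | h
    · exact h ha
    · rw [ha, norm_zero, zero_mul, mul_zero] at k1
      exact h (norm_eq_zero.1 (pow_eq_zero_iff (n := 2) (by norm_num) |>.1
        (le_antisymm k1 (by positivity))))
  have hb : b ≠ 0 := by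
    intro hb
    rw [hb, norm_zero, mul_zero, mul_zero] at k2
    exact ha (norm_eq_zero.1 (pow_eq_zero_iff (n := 2) (by norm_num) |>.1
      (le_antisymm k2 (by positivity))))
  have hna : 0 < ‖a‖ := norm_pos_iff.2 ha
  have hnb : 0 < ‖b‖ := norm_pos_iff.2 hb
  have h8 : ∀ x : ℝ, 0 ≤ x → C * x ≤ 8 * (1 + ‖l‖) ^ 2 * (1 + 1 / |(l * e ^ 2).im|) * x := by
    intro x hx
    have : 8 * (1 + ‖l‖) ^ 2 * (1 + 1 / |(l * e ^ 2).im|) = 2 * C := by rw [hC]; ring
    rw [this]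
    nlinarith [mul_nonneg hC0 hx]
  refine ⟨ha, hb, ?_, ?_⟩
  · refine le_trans ?_ (h8 ‖a‖ hna.le)
    have : ‖b‖ * ‖b‖ ≤ (C * ‖a‖) * ‖b‖ := by nlinarith
    exact le_of_mul_le_mul_right this hnb
  · refine le_trans ?_ (h8 ‖b‖ hnb.le)
    have : ‖a‖ * ‖a‖ ≤ (C * ‖b‖) * ‖a‖ := by nlinarith
    exact le_of_mul_le_mul_right this hna

end Pool.Agent.CRV
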