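import Pool.Agent.CRV.ALLP
import Pool.Agent.CRV.APL
import Pool.Agent.CRV.APRI
import Pool.Agent.CRV.APRIE
import Pool.Agent.CRV.Base
import Pool.Agent.CRV.DAN
import Pool.Agent.CRV.DLXDLY
import Pool.Agent.CRV.EF
import Pool.Agent.CRV.EN
import Pool.Agent.CRV.EORD
import Pool.Agent.CRV.Ebd
import Pool.Agent.CRV.FIN
import Pool.Agent.CRV.FRZ
import Pool.Agent.CRV.FS
import Pool.Agent.CRV.GRON
import Pool.Agent.CRV.HL
import Pool.Agent.CRV.LogXY
import Pool.Agent.CRV.MPB
import Pool.Agent.CRV.NHOL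
import Pool.Agent.CRV.O1
import Pool.Agent.CRV.O2
import Pool.Agent.CRV.ORD
import Pool.Agent.CRV.OUT
import Pool.Agent.CRV.OUTE
import Pool.Agent.CRV.PAIR
import Pool.Agent.CRV.RL
import Pool.Agent.CRV.Step
import Pool.Agent.CRV.TAIL
import Pool.Agent.CRV.TG0
import Pool.Agent.CRV.U1
import Pool.Agent.CRV.U4
import Pool.Agent.CRV.W
import Pool.Agent.CRV.X
import Pool.Agent.CRV.XUYU
import Pool.Agent.CRV.Y
import Pool.Agent.CRV.ZHER
import Pool.Agent.CRV.ENT
import Pool.Agent.CRV.MPL2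
import Pool.Agent.CRV.TG12
import Pool.Agent.CRV.TSC3

/-!
Assembly of S15681.
-/

set_option autoImplicit false

open MeasureTheory Complex Set Filter Topology
open scoped Real

namespace Pool.Agent.CRV

/-- completeness of the root vectors of `-d²/dx² + i|x|^α`, `0 < α ≤ 2/3`. -/
theorem final : Stmt_S15681 := by
  have hW : Stmt_W := w hl rl
  have hY : Stmt_Y := y_proof hW
  have hX : Stmt_X := x_proof hW xu
  have hP : Stmt_PAIR := pair en
  have hO1 : Stmt_O1 := o1 hP dlx
  have hO2 : Stmt_O2 := o2 hP dly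
  have hLX := logx hO1
  have hLY := logy hO2
  have hT := tail gron en dly
  have hORD := ord en dly
  have hAPRI := apri gron hT hORD
  have hAPRIE := aprie hAPRI hORD zher hY
  have hEORD := eord hORD zher hY
  have hOUT := out_proof en dly
  have hOUTE := oute hOUT hORD hY
  have hMPB := mpb hO1 hLX
  have hMPL2 := mpl2 hO1 hMPB
  have hBASE := base hO1 hO2 hLX hLY gron hT hORD hY hMPB tsc tg1 tg3
  have hU := uniq_of (u1 en dly hY) u2 u3 u4
  have hSTEP : Stmt_STEP := step apl hAPRIE hEORD hMPB hMPL2 dan tsc tg1 tg2 tg3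
  exact FRZ_proof fs (EF_proof dly) (half_of hX (ent nhol hY yu zher) hEORD hOUTE hBASE tg1
    hSTEP allp (ebd hMPL2 tg1) fin hU)

end Pool.Agent.CRV
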