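import Pool.Agent.CRV.Stmts

/-!
# Common facts about the fundamental system along a ray `x + t e`, `‖e‖ = 1`, `Re e ≥ 0`.
-/

set_option autoImplicit false

open MeasureTheory Complex Set Filter Topology
open scoped Real

namespace Pool.Agent.CRV

noncomputable section

/-- admissible directions -/
structure Dir (e : ℂ) : Prop where
  norm : ‖e‖ = 1
  re : 0 ≤ e.re

theorem Dir.ne {e : ℂ} (he : Dir e) : e ≠ 0 := by
  intro h
  have := he.norm
  rw [h] at this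
  simp at this

theorem Dir.slit {e : ℂ} (he : Dir e) {x t : ℝ} (hx : 0 ≤ x) (ht : 0 < t) :
    (x : ℂ) + t * e ∈ slitPlane := by
  rw [mem_slitPlane_iff]
  rcases he.re.lt_or_eq with h | h
  · left
    simp
    positivity
  · right
    have hne : e.im ≠ 0 := by
      intro h2
      apply he.ne
      apply Complex.ext
      · simp [← h]
      · simp [h2]
    simp
    exact ⟨ht.ne', hne⟩

theorem slit_of_pos {x : ℝ} (hx : 0 < x) : (x : ℂ) ∈ slitPlane := by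
  rw [mem_slitPlane_iff]; left; simpa using hx

theorem Dir.slit' {e : ℂ} (he : Dir e) {x t : ℝ} (hx : 0 < x) (ht : 0 ≤ t) :
    (x : ℂ) + t * e ∈ slitPlane := by
  rw [mem_slitPlane_iff]
  left
  have := mul_nonneg ht he.re
  simp
  linarith

theorem Dir.dom {e : ℂ} (he : Dir e) {x t : ℝ} (hx : 0 ≤ x) (ht : 0 ≤ t) :
    (x : ℂ) + t * e ∈ Dom := by
  rcases ht.lt_or_eq with h | h
  · right; exact he.slit hx h
  · rcases hx.lt_or_eq with h' | h'
    · right; exact he.slit' h' ht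
    · left; rw [← h, ← h']; simp

theorem dom_real {x : ℝ} (hx : 0 ≤ x) : (x : ℂ) ∈ Dom := by
  rcases hx.lt_or_eq with h | h
  · right; exact slit_of_pos h
  · left; rw [← h]; simp

/-- Wronskian: a nontrivial solution does not vanish with its derivative. -/
theorem FS.nontriv {α : ℝ} (F : FS α) {a b l x : ℂ} (hx : x ∈ Dom) (hab : a ≠ 0 ∨ b ≠ 0) :
    F.y a b l x ≠ 0 ∨ F.dy a b l x ≠ 0 := by
  by_contra hcon
  push Not at hcon
  obtain ⟨h1, h2⟩ := hcon
  have hw := F.wr x hx l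
  unfold FS.y at h1
  unfold FS.dy at h2
  have ha : a = 0 := by
    calc a = a * (F.C x l * F.dS x l - F.dC x l * F.S x l) := by rw [hw, mul_one]
      _ = (a * F.C x l + b * F.S x l) * F.dS x l - (a * F.dC x l + b * F.dS x l) * F.S x l := by ring
      _ = 0 := by rw [h1, h2]; ring
  have hb : b = 0 := by
    calc b = b * (F.C x l * F.dS x l - F.dC x l * F.S x l) := by rw [hw, mul_one]
      _ = (a * F.dC x l + b * F.dS x l) * F.C x l - (a * F.C x l + b * F.S x l) * F.dC x l := by ring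
      _ = 0 := by rw [h1, h2]; ring
  rcases hab with h | h
  · exact h ha
  · exact h hb

theorem FS.y_zero {α : ℝ} (F : FS α) (a b l : ℂ) : F.y a b l 0 = a := by
  simp [FS.y, F.C0, F.S0]

theorem FS.dy_zero {α : ℝ} (F : FS α) (a b l : ℂ) : F.dy a b l 0 = b := by
  simp [FS.dy, F.dC0, F.dS0]

theorem FS.hasDeriv_y {α : ℝ} (F : FS α) (a b l : ℂ) {x : ℂ} (hx : x ∈ slitPlane) :
    HasDerivAt (fun z => F.y a b l z) (F.dy a b l x) x := by
  unfold FS.y FS.dy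
  exact ((F.hC l x hx).const_mul a).add ((F.hS l x hx).const_mul b)

theorem FS.hasDeriv_dy {α : ℝ} (F : FS α) (a b l : ℂ) {x : ℂ} (hx : x ∈ slitPlane) :
    HasDerivAt (fun z => F.dy a b l z) ((I * x ^ (α : ℂ) - l) * F.y a b l x) x := by
  have h := ((F.hdC l x hx).const_mul a).add ((F.hdS l x hx).const_mul b)
  have e : (I * x ^ (α : ℂ) - l) * F.y a b l x
      = a * ((I * x ^ (α : ℂ) - l) * F.C x l) + b * ((I * x ^ (α : ℂ) - l) * F.S x l) := by
    unfold FS.y; ring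
  rw [e]
  exact h

theorem FS.cont_y {α : ℝ} (F : FS α) (a b l : ℂ) : ContinuousOn (fun z => F.y a b l z) Dom := by
  have h1 : ContinuousOn (fun z : ℂ => F.C z l) Dom := by
    have := F.cC.comp (f := fun z : ℂ => (z, l)) (s := Dom) (by fun_prop) (fun z hz => ⟨hz, mem_univ _⟩)
    exact this
  have h2 : ContinuousOn (fun z : ℂ => F.S z l) Dom := by
    have := F.cS.comp (f := fun z : ℂ => (z, l)) (s := Dom) (by fun_prop) (fun z hz => ⟨hz, mem_univ _⟩)
    exact this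
  unfold FS.y
  exact (continuousOn_const.mul h1).add (continuousOn_const.mul h2)

theorem FS.cont_dy {α : ℝ} (F : FS α) (a b l : ℂ) : ContinuousOn (fun z => F.dy a b l z) Dom := by
  have h1 : ContinuousOn (fun z : ℂ => F.dC z l) Dom := by
    have := F.cdC.comp (f := fun z : ℂ => (z, l)) (s := Dom) (by fun_prop) (fun z hz => ⟨hz, mem_univ _⟩)
    exact this
  have h2 : ContinuousOn (fun z : ℂ => F.dS z l) Dom := by
    have := F.cdS.comp (f := fun z : ℂ => (z, l)) (s := Dom) (by fun_prop) (fun z hz => ⟨hz, mem_univ _⟩)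
    exact this
  unfold FS.dy
  exact (continuousOn_const.mul h1).add (continuousOn_const.mul h2)

theorem cpow_cont_ray {α : ℝ} (hα : 0 < α) {e : ℂ} (he : Dir e) {x : ℝ} (hx : 0 ≤ x) :
    ContinuousOn (fun t : ℝ => ((x : ℂ) + t * e) ^ (α : ℂ)) (Ici 0) := by
  intro t ht
  have hin : ContinuousAt (fun t : ℝ => (x : ℂ) + t * e) t := by fun_prop
  rcases he.dom hx ht with h | h
  · have : ContinuousAt (fun z : ℂ => z ^ (α : ℂ)) ((x : ℂ) + t * e) := by
      rw [h]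
      exact continuousAt_cpow_const_of_re_pos (by simp) (by simpa using hα)
    exact (ContinuousAt.comp (f := fun t : ℝ => (x : ℂ) + t * e) this hin).continuousWithinAt
  · have : ContinuousAt (fun z : ℂ => z ^ (α : ℂ)) ((x : ℂ) + t * e) :=
      continuousAt_cpow_const h
    exact (ContinuousAt.comp (f := fun t : ℝ => (x : ℂ) + t * e) this hin).continuousWithinAt

theorem hasDeriv_ray {x : ℝ} {e : ℂ} {t : ℝ} :
    HasDerivAt (fun t : ℝ => (x : ℂ) + t * e) e t := by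
  have h1 : HasDerivAt (fun t : ℝ => (t : ℂ)) 1 t := Complex.ofRealCLM.hasDerivAt
  have h2 := (h1.mul_const e).const_add (x : ℂ)
  simpa using h2

theorem hasDeriv_comp_ray {g : ℂ → ℂ} {g' : ℂ} {x : ℝ} {e : ℂ} {t : ℝ}
    (h : HasDerivAt g g' ((x : ℂ) + t * e)) :
    HasDerivAt (fun t : ℝ => g ((x : ℂ) + t * e)) (e * g') t := by
  have := HasDerivAt.scomp (h := fun t : ℝ => (x : ℂ) + t * e) t h (hasDeriv_ray (x := x) (e := e))
  simpa [Function.comp_def] using this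

theorem cpow_hasDeriv_ray {α : ℝ} {e : ℂ} (he : Dir e) {x t : ℝ} (hx : 0 ≤ x)
    (ht : 0 < t) : HasDerivAt (fun t : ℝ => ((x : ℂ) + t * e) ^ (α : ℂ))
      (e * ((α : ℂ) * ((x : ℂ) + t * e) ^ ((α : ℂ) - 1))) t := by
  have h := (hasDerivAt_id ((x : ℂ) + t * e)).cpow_const (c := (α : ℂ)) (he.slit hx ht)
  simp only [id, mul_one] at h
  exact hasDeriv_comp_ray (g := fun z => z ^ (α : ℂ)) h

theorem Dir.norm_ge {e : ℂ} (he : Dir e) {x t : ℝ} (hx : 0 ≤ x) (ht : 0 ≤ t) :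
    t ≤ ‖(x : ℂ) + t * e‖ := by
  have h1 : e.re ^ 2 + e.im ^ 2 = 1 := by
    have := he.norm
    rw [← Complex.sq_norm_sub_sq_re e] 
    rw [this]; ring
  have h2 : t ^ 2 ≤ ‖(x : ℂ) + t * e‖ ^ 2 := by
    rw [Complex.sq_norm, Complex.normSq_apply]
    simp
    nlinarith [mul_nonneg (mul_nonneg hx ht) he.re, sq_nonneg x]
  exact (pow_le_pow_iff_left₀ ht (norm_nonneg _) two_ne_zero).1 h2

/-- `|(x+te)^α - x^α| ≤ t^α`. -/
theorem cpow_ray_sub {α : ℝ} (hα : 0 < α) (hα1 : α ≤ 1) {e : ℂ} (he : Dir e) {x t : ℝ} (hx : 0 ≤ x)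
    (ht : 0 ≤ t) : ‖((x : ℂ) + t * e) ^ (α : ℂ) - (x : ℂ) ^ (α : ℂ)‖ ≤ t ^ α := by
  rcases ht.lt_or_eq with ht0 | ht0
  swap
  · rw [← ht0]
    simp
    positivity
  have key : ∀ δ : ℝ, 0 < δ → δ ≤ t →
      ‖((x : ℂ) + t * e) ^ (α : ℂ) - ((x : ℂ) + δ * e) ^ (α : ℂ)‖ ≤ t ^ α - δ ^ α := by
    intro δ hδ hδt
    have := image_norm_le_of_norm_deriv_right_le_deriv_boundary' (a := δ) (b := t)
      (f := fun s : ℝ => ((x : ℂ) + s * e) ^ (α : ℂ) - ((x : ℂ) + δ * e) ^ (α : ℂ))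
      (f' := fun s : ℝ => e * ((α : ℂ) * ((x : ℂ) + s * e) ^ ((α : ℂ) - 1)))
      (B := fun s : ℝ => s ^ α - δ ^ α) (B' := fun s : ℝ => α * s ^ (α - 1))
      ?_ ?_ ?_ ?_ ?_ ?_ (x := t) ⟨hδt, le_refl _⟩
    · exact this
    · refine ContinuousOn.sub ?_ continuousOn_const
      exact (cpow_cont_ray hα he hx).mono (fun s hs => le_trans hδ.le hs.1)
    · intro s hs
      have := (cpow_hasDeriv_ray (α := α) he hx (lt_of_lt_of_le hδ hs.1)).sub_const
        (((x : ℂ) + δ * e) ^ (α : ℂ))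
      exact this.hasDerivWithinAt
    · simp
    · refine ContinuousOn.sub ?_ continuousOn_const
      exact (Real.continuous_rpow_const hα.le).continuousOn
    · intro s hs
      have h0 : s ≠ 0 := (lt_of_lt_of_le hδ hs.1).ne'
      exact ((Real.hasDerivAt_rpow_const (Or.inl h0)).sub_const _).hasDerivWithinAt
    · intro s hs
      have hs0 : 0 < s := lt_of_lt_of_le hδ hs.1
      rw [norm_mul, he.norm, one_mul, norm_mul]
      have h1 : ‖(α : ℂ)‖ = α := by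
        rw [Complex.norm_real, Real.norm_of_nonneg hα.le]
      rw [h1]
      have hne : (x : ℂ) + s * e ≠ 0 := slitPlane_ne_zero (he.slit hx hs0)
      have h2 : ‖((x : ℂ) + s * e) ^ ((α : ℂ) - 1)‖ = ‖(x : ℂ) + s * e‖ ^ (α - 1) := by
        have : ((α : ℂ) - 1) = ((α - 1 : ℝ) : ℂ) := by push_cast; ring
        rw [this, Complex.norm_cpow_real]
      rw [h2]
      refine mul_le_mul_of_nonneg_left ?_ hα.le
      exact Real.rpow_le_rpow_of_nonpos hs0 (he.norm_ge hx hs0.le) (by linarith)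
  have hc : Tendsto (fun δ : ℝ => ‖((x : ℂ) + t * e) ^ (α : ℂ) - ((x : ℂ) + δ * e) ^ (α : ℂ)‖)
      (𝓝[>] 0) (𝓝 ‖((x : ℂ) + t * e) ^ (α : ℂ) - (x : ℂ) ^ (α : ℂ)‖) := by
    have h := (cpow_cont_ray hα he hx) 0 (mem_Ici.2 le_rfl)
    have h' : Tendsto (fun δ : ℝ => ((x : ℂ) + δ * e) ^ (α : ℂ)) (𝓝[>] 0) (𝓝 ((x : ℂ) ^ (α : ℂ))) := by
      have := h.tendsto
      simp at this
      exact this.mono_left (nhdsWithin_mono _ Ioi_subset_Ici_self)
    exact (tendsto_const_nhds.sub h').norm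
  refine le_of_tendsto hc ?_
  filter_upwards [Ioc_mem_nhdsGT ht0] with δ hδ
  refine (key δ hδ.1 hδ.2).trans ?_
  have := Real.rpow_nonneg hδ.1.le α
  linarith

theorem rpow_le_one_add {α t : ℝ} (hα : 0 < α) (hα1 : α ≤ 1) (ht : 0 ≤ t) : t ^ α ≤ 1 + t := by
  rcases le_total t 1 with h | h
  · have := Real.rpow_le_one ht h hα.le
    linarith
  · have := Real.rpow_le_rpow_of_exponent_le h hα1
    rw [Real.rpow_one] at this
    linarith

/-- PAIR applied along a ray. -/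
theorem pair_frame (hP : Stmt_PAIR) (c₁ c₂ : ℝ) (hc₁ : 0 < c₁) (hc₂ : 0 < c₂) :
    ∃ K > 0, ∃ L₀ > 0, ∀ (α : ℝ), 0 < α → α ≤ 2 / 3 → ∀ (F : FS α) (a b l e κ : ℂ)
      (x ω L K' γ : ℝ), Dir e → 0 ≤ x → L₀ ≤ L → 0 < γ →
      (∀ t : ℝ, 0 ≤ t → ‖F.y a b l (x + t * e)‖ ≤ K' * Real.exp (-(γ * t)) ∧
        ‖F.dy a b l (x + t * e)‖ ≤ K' * Real.exp (-(γ * t))) →
      0 ≤ Real.cos ω →
      (∀ t : ℝ, 0 ≤ t → c₁ * L ≤
        (exp (ω * I) * (e ^ 2 * (I * (x + t * e) ^ (α : ℂ) - l))).re) →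
      κ ^ 2 = e ^ 2 * (I * (x : ℂ) ^ (α : ℂ) - l) → c₂ * Real.sqrt L ≤ κ.re →
      ‖I * (x : ℂ) ^ (α : ℂ) - l‖ ≤ 3 * L → (a ≠ 0 ∨ b ≠ 0) →
      F.y a b l x ≠ 0 ∧
        ‖e * F.dy a b l x + κ * F.y a b l x‖ ≤ K / Real.sqrt L * ‖F.y a b l x‖ := by
  obtain ⟨K, hK, L₀, hL₀, H⟩ := hP c₁ c₂ hc₁ hc₂
  refine ⟨K, hK, L₀, hL₀, ?_⟩
  intro α hα hα' F a b l e κ x ω L K' γ he hx hL hγ hdec hω hQ hκ hκ' hn hab
  have hα1 : α ≤ 1 := by linarith
  have hQc : ContinuousOn (fun t : ℝ => e ^ 2 * (I * ((x : ℂ) + t * e) ^ (α : ℂ) - l)) (Ici 0) :=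
    continuousOn_const.mul ((continuousOn_const.mul (cpow_cont_ray hα he hx)).sub continuousOn_const)
  have hmap : ContinuousOn (fun t : ℝ => (x : ℂ) + t * e) (Ici 0) := by fun_prop
  have hmaps : MapsTo (fun t : ℝ => (x : ℂ) + t * e) (Ici 0) Dom := fun t ht => he.dom hx ht
  have hy : ContinuousOn (fun t : ℝ => F.y a b l ((x : ℂ) + t * e)) (Ici 0) :=
    (F.cont_y a b l).comp hmap hmaps
  have hdy : ContinuousOn (fun t : ℝ => e * F.dy a b l ((x : ℂ) + t * e)) (Ici 0) :=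
    continuousOn_const.mul ((F.cont_dy a b l).comp hmap hmaps)
  have main := H (fun t => e ^ 2 * (I * ((x : ℂ) + t * e) ^ (α : ℂ) - l))
    (fun t => F.y a b l ((x : ℂ) + t * e)) (fun t => e * F.dy a b l ((x : ℂ) + t * e))
    (‖l‖ + 1 + x) K' γ ω L κ hL hγ hQc hy hdy ?_ ?_ ?_ ?_ ?_ hω hQ ?_ hκ' ?_ ?_ ?_
  · simpa using main
  · intro t ht
    exact hasDeriv_comp_ray (g := fun z => F.y a b l z) (F.hasDeriv_y a b l (he.slit hx ht))
  · intro t ht
    have h1 := (hasDeriv_comp_ray (g := fun z => F.dy a b l z)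
      (F.hasDeriv_dy a b l (he.slit hx ht))).const_mul e
    refine h1.congr_deriv ?_
    ring
  · intro t ht
    rw [norm_mul, norm_pow, he.norm, one_pow, one_mul]
    have h1 : ‖((x : ℂ) + t * e) ^ (α : ℂ)‖ ≤ 1 + (x + t) := by
      rw [Complex.norm_cpow_real]
      have h2 : ‖(x : ℂ) + t * e‖ ≤ x + t := by
        refine (norm_add_le _ _).trans ?_
        rw [norm_mul, he.norm, Complex.norm_real, Complex.norm_real, Real.norm_of_nonneg hx,
          Real.norm_of_nonneg ht, mul_one]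
      exact (rpow_le_one_add hα hα1 (norm_nonneg _)).trans (by linarith)
    calc ‖I * ((x : ℂ) + t * e) ^ (α : ℂ) - l‖ ≤ ‖I * ((x : ℂ) + t * e) ^ (α : ℂ)‖ + ‖l‖ := norm_sub_le _ _
      _ = ‖((x : ℂ) + t * e) ^ (α : ℂ)‖ + ‖l‖ := by rw [norm_mul, Complex.norm_I, one_mul]
      _ ≤ (1 + (x + t)) + ‖l‖ := by linarith
      _ ≤ (‖l‖ + 1 + x) * (1 + t) := by nlinarith [norm_nonneg l, mul_nonneg (norm_nonneg l) ht, mul_nonneg hx ht]
  · intro t ht
    exact (hdec t ht).1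
  · intro t ht
    rw [norm_mul, he.norm, one_mul]
    exact (hdec t ht).2
  · simpa using hκ
  · simp only [ofReal_zero, zero_mul, add_zero]
    rw [norm_mul, norm_pow, he.norm, one_pow, one_mul]
    exact hn
  · intro t ht
    simp only [ofReal_zero, zero_mul, add_zero]
    have : e ^ 2 * (I * ((x : ℂ) + t * e) ^ (α : ℂ) - l) - e ^ 2 * (I * (x : ℂ) ^ (α : ℂ) - l)
        = e ^ 2 * I * (((x : ℂ) + t * e) ^ (α : ℂ) - (x : ℂ) ^ (α : ℂ)) := by ring
    rw [this, norm_mul, norm_mul, norm_pow, he.norm, Complex.norm_I, one_pow, one_mul, one_mul]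
    exact (cpow_ray_sub hα hα1 he hx ht).trans (rpow_le_one_add hα hα1 ht)
  · simp only [ofReal_zero, zero_mul, add_zero]
    rcases F.nontriv (l := l) (dom_real hx) hab with h | h
    · left; exact h
    · right; exact mul_ne_zero he.ne h

/-! ### principal square root -/

theorem half_sq (z : ℂ) : (z ^ (1 / 2 : ℂ)) ^ 2 = z := by
  have := Complex.cpow_nat_inv_pow z (n := 2) two_ne_zero
  simpa using this

theorem half_re_nonneg (z : ℂ) : 0 ≤ (z ^ (1 / 2 : ℂ)).re := by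
  by_cases hz : z = 0
  · rw [hz, Complex.zero_cpow (by norm_num)]
    simp
  · rw [Complex.cpow_def_of_ne_zero hz, Complex.exp_re]
    refine mul_nonneg (Real.exp_pos _).le (Real.cos_nonneg_of_mem_Icc ?_)
    have h1 : (Complex.log z * (1 / 2)).im = arg z / 2 := by
      have : (1 / 2 : ℂ) = ((1 / 2 : ℝ) : ℂ) := by push_cast; rfl
      rw [this, Complex.im_mul_ofReal, Complex.log_im]
      ring
    rw [h1]
    constructor
    · linarith [Complex.neg_pi_lt_arg z]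
    · linarith [Complex.arg_le_pi z]

theorem half_norm (z : ℂ) : ‖z ^ (1 / 2 : ℂ)‖ = Real.sqrt ‖z‖ := by
  have h := congrArg norm (half_sq z)
  rw [norm_pow] at h
  rw [← h, Real.sqrt_sq (norm_nonneg _)]

theorem half_re (z : ℂ) : (z ^ (1 / 2 : ℂ)).re ^ 2 - (z ^ (1 / 2 : ℂ)).im ^ 2 = z.re := by
  have h := congrArg Complex.re (half_sq z)
  rw [sq, Complex.mul_re] at h
  rw [← h]; ring

theorem half_im (z : ℂ) : 2 * (z ^ (1 / 2 : ℂ)).re * (z ^ (1 / 2 : ℂ)).im = z.im := by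
  have h := congrArg Complex.im (half_sq z)
  rw [sq, Complex.mul_im] at h
  rw [← h]; ring

theorem half_re_ge {z : ℂ} (hz : 0 ≤ z.re) : Real.sqrt z.re ≤ (z ^ (1 / 2 : ℂ)).re := by
  rw [Real.sqrt_le_left (half_re_nonneg z), ← half_re z]
  nlinarith [sq_nonneg (z ^ (1 / 2 : ℂ)).im]

theorem kf_sq (α : ℝ) (l : ℂ) (t : ℝ) : kf α l t ^ 2 = l - I * ((t ^ α : ℝ) : ℂ) := half_sq _

theorem kz_re (α : ℝ) (l : ℂ) (t : ℝ) : (l - I * ((t ^ α : ℝ) : ℂ)).re = l.re := by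
  simp

theorem kz_im (α : ℝ) (l : ℂ) (t : ℝ) : (l - I * ((t ^ α : ℝ) : ℂ)).im = l.im - t ^ α := by
  simp

theorem kf_re_ge {α : ℝ} {l : ℂ} (hl : 0 ≤ l.re) (t : ℝ) : Real.sqrt l.re ≤ (kf α l t).re := by
  have := half_re_ge (z := l - I * ((t ^ α : ℝ) : ℂ)) (by rw [kz_re]; exact hl)
  rw [kz_re] at this
  exact this

theorem kf_norm (α : ℝ) (l : ℂ) (t : ℝ) :
    ‖kf α l t‖ = Real.sqrt ‖l - I * ((t ^ α : ℝ) : ℂ)‖ := half_norm _

theorem kf_re (α : ℝ) (l : ℂ) (t : ℝ) : (kf α l t).re ^ 2 - (kf α l t).im ^ 2 = l.re := by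
  have := half_re (l - I * ((t ^ α : ℝ) : ℂ))
  rw [kz_re] at this
  exact this

theorem kf_im (α : ℝ) (l : ℂ) (t : ℝ) : 2 * (kf α l t).re * (kf α l t).im = l.im - t ^ α := by
  have := half_im (l - I * ((t ^ α : ℝ) : ℂ))
  rw [kz_im] at this
  exact this

theorem kf_cont {α : ℝ} (hα : 0 < α) {l : ℂ} (hl : 0 < l.re) : Continuous (kf α l) := by
  rw [continuous_iff_continuousAt]
  intro t
  unfold kf
  have h1 : ContinuousAt (fun z : ℂ => z ^ (1 / 2 : ℂ)) (l - I * ((t ^ α : ℝ) : ℂ)) := by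
    apply continuousAt_cpow_const
    rw [mem_slitPlane_iff]
    left
    rw [kz_re]; exact hl
  have h2 : ContinuousAt (fun t : ℝ => l - I * ((t ^ α : ℝ) : ℂ)) t := by
    have : Continuous (fun t : ℝ => t ^ α) := Real.continuous_rpow_const hα.le
    fun_prop
  exact ContinuousAt.comp (f := fun t : ℝ => l - I * ((t ^ α : ℝ) : ℂ)) h1 h2

/-- `Im (x+ti)^α ≥ 0`. -/
theorem cpow_im_nonneg {α : ℝ} (hα : 0 < α) (hα1 : α ≤ 1) {z : ℂ} (h1 : 0 ≤ z.im) :
    0 ≤ (z ^ (α : ℂ)).im := by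
  by_cases hz : z = 0
  · rw [hz, Complex.zero_cpow (by exact_mod_cast hα.ne')]
    simp
  · rw [Complex.cpow_def_of_ne_zero hz, Complex.exp_im]
    have h2 : (Complex.log z * (α : ℂ)).im = arg z * α := by
      rw [Complex.im_mul_ofReal, Complex.log_im]
    rw [h2]
    have h0 : 0 ≤ arg z := Complex.arg_nonneg_iff.2 h1
    have h3 : arg z * α ≤ π := by
      have := Complex.arg_le_pi z
      nlinarith [Real.pi_pos]
    exact mul_nonneg (Real.exp_pos _).le (Real.sin_nonneg_of_nonneg_of_le_pi (by positivity) h3)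

end

end Pool.Agent.CRV
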