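import Pool.Agent.CRV.Stmts

/-! A general lemma: holomorphic dependence of parametric integrals. -/

set_option autoImplicit false

open MeasureTheory Complex Set Filter Topology
open scoped Real

namespace Pool.Agent.CRV

/-- Holomorphic dependence of a dominated parametric integral. -/
theorem holPar {α : Type*} [MeasurableSpace α] {μ : Measure α} {U : Set ℂ} (hU : IsOpen U)
    (H : ℂ → α → ℂ) (bound : α → ℝ) (hb : Integrable bound μ)
    (hm : ∀ l ∈ U, AEStronglyMeasurable (H l) μ)
    (hd : ∀ᵐ t ∂μ, DifferentiableOn ℂ (fun l => H l t) U)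
    (hle : ∀ᵐ t ∂μ, ∀ l ∈ U, ‖H l t‖ ≤ bound t) :
    DifferentiableOn ℂ (fun l => ∫ t, H l t ∂μ) U := by
  intro l₀ hl₀
  obtain ⟨ε, hε, hball⟩ := Metric.isOpen_iff.1 hU l₀ hl₀
  set r : ℝ := ε / 3 with hr
  have hr0 : 0 < r := by positivity
  have hsub : ∀ l ∈ Metric.ball l₀ r, Metric.closedBall l r ⊆ U := by
    intro l hl z hz
    apply hball
    rw [Metric.mem_ball] at hl ⊢
    rw [Metric.mem_closedBall] at hz
    have := dist_triangle z l l₀
    linarith
  have hint : ∀ l ∈ U, Integrable (H l) μ := fun l hl =>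
    hb.mono' (hm l hl) (hle.mono fun t ht => ht l hl)
  have hderiv : ∀ᵐ t ∂μ, ∀ l ∈ Metric.ball l₀ r,
      HasDerivAt (fun z => H z t) (deriv (fun z => H z t) l) l := by
    filter_upwards [hd] with t ht l hl
    have hlU : l ∈ U := hsub l hl (Metric.mem_closedBall_self hr0.le)
    exact ((ht l hlU).differentiableAt (hU.mem_nhds hlU)).hasDerivAt
  have hmd : AEStronglyMeasurable (fun t => deriv (fun z => H z t) l₀) μ := by
    have hseq : ∀ n : ℕ, l₀ + ((r / (n + 2) : ℝ) : ℂ) ∈ U := by
      intro n
      apply hsub l₀ (Metric.mem_ball_self hr0)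
      rw [Metric.mem_closedBall, dist_eq_norm, add_sub_cancel_left, Complex.norm_real,
        Real.norm_of_nonneg (by positivity)]
      rw [div_le_iff₀ (by positivity)]
      nlinarith
    refine aestronglyMeasurable_of_tendsto_ae atTop
      (f := fun (n : ℕ) t => ((r / (n + 2) : ℝ) : ℂ)⁻¹ * (H (l₀ + ((r / (n + 2) : ℝ) : ℂ)) t - H l₀ t))
      (fun n => ((hm _ (hseq n)).sub (hm _ hl₀)).const_mul _) ?_
    filter_upwards [hderiv] with t ht
    have h1 := ht l₀ (Metric.mem_ball_self hr0)
    rw [hasDerivAt_iff_tendsto_slope_zero] at h1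
    have h2 : Tendsto (fun n : ℕ => ((r / (n + 2) : ℝ) : ℂ)) atTop (𝓝[≠] 0) := by
      rw [tendsto_nhdsWithin_iff]
      refine ⟨?_, Eventually.of_forall fun n => ?_⟩
      · have : Tendsto (fun n : ℕ => r / ((n : ℝ) + 2)) atTop (𝓝 0) := by
          apply Tendsto.div_atTop tendsto_const_nhds
          exact tendsto_atTop_add_const_right _ _ tendsto_natCast_atTop_atTop
        have h4 := (Complex.continuous_ofReal.tendsto 0).comp this
        rw [Complex.ofReal_zero] at h4
        exact h4
      · simp only [mem_compl_iff, mem_singleton_iff]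
        have : (r / ((n : ℝ) + 2)) ≠ 0 := by positivity
        exact_mod_cast this
    have h3 := h1.comp h2
    simpa [smul_eq_mul, Function.comp_def] using h3
  have key := hasDerivAt_integral_of_dominated_loc_of_deriv_le (μ := μ) (𝕜 := ℂ)
    (F := H) (x₀ := l₀) (s := Metric.ball l₀ r) (bound := fun t => bound t / r)
    (F' := fun l t => deriv (fun z => H z t) l)
    (Metric.ball_mem_nhds l₀ hr0)
    (by
      filter_upwards [hU.mem_nhds hl₀] with l hl
      exact hm l hl)
    (hint l₀ hl₀) hmd
    (by
      filter_upwards [hd, hle] with t ht ht' l hl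
      have hs := hsub l hl
      refine Complex.norm_deriv_le_of_forall_mem_sphere_norm_le hr0 ?_ ?_
      · refine (DifferentiableOn.diffContOnCl ?_)
        rw [closure_ball _ hr0.ne']
        exact ht.mono hs
      · intro z hz
        exact ht' z (hs (Metric.sphere_subset_closedBall hz)))
    (hb.div_const _) hderiv
  exact key.2.differentiableAt.differentiableWithinAt

end Pool.Agent.CRV
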