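import Pool.Agent.CRV.Stmts

/-!
# Basic facts on `k` and on the solutions along the positive real axis
-/

set_option autoImplicit false

open MeasureTheory Complex Set Filter Topology
open scoped Real

namespace Pool.Agent.CRV

noncomputable section

variable {α : ℝ}

theorem cont_rpow (hα : 0 < α) : Continuous fun x : ℝ => x ^ α :=
  continuous_id.rpow_const fun _ => Or.inr hα.le

theorem q_re (l : ℂ) (t : ℝ) : (l - I * ((t ^ α : ℝ) : ℂ)).re = l.re := by
  simp

theorem q_im (l : ℂ) (t : ℝ) : (l - I * ((t ^ α : ℝ) : ℂ)).im = l.im - t ^ α := by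
  simp

theorem kf_sqKB (l : ℂ) (t : ℝ) : kf α l t ^ 2 = l - I * ((t ^ α : ℝ) : ℂ) := by
  have h := Complex.cpow_nat_inv_pow (l - I * ((t ^ α : ℝ) : ℂ)) (n := 2) two_ne_zero
  rw [kf, one_div]
  exact_mod_cast h

theorem kf_norm_sq (l : ℂ) (t : ℝ) : ‖kf α l t‖ ^ 2 = ‖l - I * ((t ^ α : ℝ) : ℂ)‖ := by
  rw [← kf_sqKB, norm_pow]

theorem cont_q (hα : 0 < α) (l : ℂ) : Continuous fun t : ℝ => l - I * ((t ^ α : ℝ) : ℂ) :=
  continuous_const.sub (continuous_const.mul (continuous_ofReal.comp (cont_rpow hα)))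

theorem cont_kf (hα : 0 < α) {l : ℂ} (hl : 0 < l.re) : Continuous fun t : ℝ => kf α l t := by
  refine (cont_q hα l).cpow continuous_const fun t => ?_
  left
  rw [q_re]
  exact hl

theorem kf_re_pos {l : ℂ} (hl : 0 < l.re) (t : ℝ) : 0 < (kf α l t).re := by
  have h0 : 0 ≤ (kf α l t).re := by
    rw [kf, Complex.cpow_def_of_ne_zero]
    · rw [Complex.exp_re]
      refine mul_nonneg (Real.exp_nonneg _) (Real.cos_nonneg_of_mem_Icc ?_)
      have h1 := Complex.neg_pi_lt_log_im (l - I * ((t ^ α : ℝ) : ℂ))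
      have h2 := Complex.log_im_le_pi (l - I * ((t ^ α : ℝ) : ℂ))
      have h3 : (Complex.log (l - I * ((t ^ α : ℝ) : ℂ)) * (1 / 2 : ℂ)).im =
          (Complex.log (l - I * ((t ^ α : ℝ) : ℂ))).im / 2 := by
        rw [show (1 / 2 : ℂ) = ((1 / 2 : ℝ) : ℂ) by norm_num, Complex.im_mul_ofReal]
        ring
      rw [h3]
      constructor <;> linarith
    · intro h
      have := q_re (α := α) l t
      rw [h] at this
      simp at this
      linarith
  rcases h0.lt_or_eq with h | h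
  · exact h
  · exfalso
    have h1 := congrArg Complex.re (kf_sqKB (α := α) l t)
    rw [q_re, sq, Complex.mul_re, ← h] at h1
    nlinarith [sq_nonneg (kf α l t).im]

theorem kf_re_sq {l : ℂ} (t : ℝ) : l.re ≤ (kf α l t).re ^ 2 := by
  have h1 := congrArg Complex.re (kf_sqKB (α := α) l t)
  rw [q_re, sq, Complex.mul_re] at h1
  nlinarith [sq_nonneg (kf α l t).im]

theorem kf_re_geKB {l : ℂ} (hl : 0 < l.re) (t : ℝ) : Real.sqrt l.re ≤ (kf α l t).re := by
  rw [Real.sqrt_le_left (kf_re_pos hl t).le]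
  exact kf_re_sq t

theorem kf_imKB {l : ℂ} (t : ℝ) : 2 * (kf α l t).re * (kf α l t).im = l.im - t ^ α := by
  have h1 := congrArg Complex.im (kf_sqKB (α := α) l t)
  rw [q_im, sq, Complex.mul_im] at h1
  linarith

theorem kf_im_nonneg {l : ℂ} (hl : 0 < l.re) {t : ℝ} (ht : t ^ α ≤ l.im) : 0 ≤ (kf α l t).im := by
  have h1 := kf_imKB (α := α) (l := l) t
  have h2 := kf_re_pos (α := α) hl t
  by_contra h
  push Not at h
  nlinarith [mul_neg_of_pos_of_neg h2 h]

theorem re_le_norm_q (l : ℂ) (t : ℝ) : l.re ≤ ‖l - I * ((t ^ α : ℝ) : ℂ)‖ := by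
  have h := Complex.re_le_norm (l - I * ((t ^ α : ℝ) : ℂ))
  rwa [q_re] at h

theorem norm_sub_q (l : ℂ) (t : ℝ) :
    ‖((‖l - I * ((t ^ α : ℝ) : ℂ)‖ : ℝ) : ℂ) - (l - I * ((t ^ α : ℝ) : ℂ))‖ =
      2 * ‖kf α l t‖ * |(kf α l t).im| := by
  have h1 : ((‖l - I * ((t ^ α : ℝ) : ℂ)‖ : ℝ) : ℂ) - (l - I * ((t ^ α : ℝ) : ℂ)) =
      kf α l t * ((starRingEnd ℂ) (kf α l t) - kf α l t) := by
    rw [mul_sub, Complex.mul_conj, Complex.normSq_eq_norm_sq, kf_norm_sq, ← sq, kf_sqKB]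
  have h2 : (starRingEnd ℂ) (kf α l t) - kf α l t = ((-2 * (kf α l t).im : ℝ) : ℂ) * I := by
    apply Complex.ext <;> simp
    ring
  rw [h1, h2, norm_mul, norm_mul, Complex.norm_I, mul_one, Complex.norm_real, Real.norm_eq_abs,
    abs_mul]
  norm_num
  ring

theorem mem_Dom_of_nonnegKB {x : ℝ} (hx : 0 ≤ x) : (x : ℂ) ∈ Dom := by
  rcases hx.eq_or_lt with h | h
  · left
    rw [← h]
    simp
  · right
    left
    simpa using h

theorem ofReal_mem_slit {x : ℝ} (hx : 0 < x) : (x : ℂ) ∈ slitPlane := by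
  left
  simpa using hx

variable (F : FS α) (a b l : ℂ)

theorem hasDerivAt_y_real {x : ℝ} (hx : 0 < x) :
    HasDerivAt (fun t : ℝ => F.y a b l t) (F.dy a b l x) x := by
  have h1 := ((F.hC l x (ofReal_mem_slit hx)).const_mul a).add
    ((F.hS l x (ofReal_mem_slit hx)).const_mul b)
  exact h1.comp_ofReal

theorem hasDerivAt_dy_real {x : ℝ} (hx : 0 < x) :
    HasDerivAt (fun t : ℝ => F.dy a b l t) ((I * ((x ^ α : ℝ) : ℂ) - l) * F.y a b l x) x := by
  have h1 := ((F.hdC l x (ofReal_mem_slit hx)).const_mul a).add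
    ((F.hdS l x (ofReal_mem_slit hx)).const_mul b)
  have h2 := h1.comp_ofReal
  refine h2.congr_deriv ?_
  rw [FS.y, Complex.ofReal_cpow hx.le]
  ring

theorem contOn_y_real : ContinuousOn (fun t : ℝ => F.y a b l t) (Ici 0) := by
  have h : ContinuousOn (fun t : ℝ => ((t : ℂ), l)) (Ici 0) :=
    (continuous_ofReal.prodMk continuous_const).continuousOn
  have hm : MapsTo (fun t : ℝ => ((t : ℂ), l)) (Ici 0) (Dom ×ˢ univ) := fun t ht =>
    ⟨mem_Dom_of_nonnegKB ht, mem_univ _⟩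
  have h1 := F.cC.comp h hm
  have h2 := F.cS.comp h hm
  exact (continuousOn_const.mul h1).add (continuousOn_const.mul h2)

theorem contOn_dy_real : ContinuousOn (fun t : ℝ => F.dy a b l t) (Ici 0) := by
  have h : ContinuousOn (fun t : ℝ => ((t : ℂ), l)) (Ici 0) :=
    (continuous_ofReal.prodMk continuous_const).continuousOn
  have hm : MapsTo (fun t : ℝ => ((t : ℂ), l)) (Ici 0) (Dom ×ˢ univ) := fun t ht =>
    ⟨mem_Dom_of_nonnegKB ht, mem_univ _⟩
  have h1 := F.cdC.comp h hm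
  have h2 := F.cdS.comp h hm
  exact (continuousOn_const.mul h1).add (continuousOn_const.mul h2)

theorem contOn_PP (hα : 0 < α) : ContinuousOn (fun t : ℝ => PP F a b l t) (Ici 0) :=
  ((contOn_dy_real F a b l).norm.pow 2).add
    (((cont_q hα l).norm.continuousOn).mul ((contOn_y_real F a b l).norm.pow 2))

theorem PP_nonneg (x : ℝ) : 0 ≤ PP F a b l x := by
  unfold PP
  positivity

end

end Pool.Agent.CRV
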