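import Pool.Agent.CRV.CS

/-!
Elementary facts on `kf`, `If`.
-/

set_option autoImplicit false

open MeasureTheory Complex Set Filter Topology
open scoped Real

namespace Pool.Agent.CRV

namespace KF

/-! ### elementary facts on `kf` -/

theorem kf_sq (α : ℝ) (l : ℂ) (t : ℝ) : kf α l t ^ 2 = l - I * ((t ^ α : ℝ) : ℂ) := by
  unfold kf
  have h := Complex.cpow_nat_inv_pow (l - I * ((t ^ α : ℝ) : ℂ)) (n := 2) (by norm_num)
  have e : (1 / 2 : ℂ) = ((2 : ℕ) : ℂ)⁻¹ := by norm_num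
  rw [e]
  exact h

theorem norm_kf_sq (α : ℝ) (l : ℂ) (t : ℝ) : ‖kf α l t‖ ^ 2 = ‖l - I * ((t ^ α : ℝ) : ℂ)‖ := by
  rw [← norm_pow, kf_sq]

theorem re_arg (α : ℝ) (l : ℂ) (t : ℝ) : (l - I * ((t ^ α : ℝ) : ℂ)).re = l.re := by
  simp

theorem im_arg (α : ℝ) (l : ℂ) (t : ℝ) : (l - I * ((t ^ α : ℝ) : ℂ)).im = l.im - t ^ α := by
  simp

theorem mem_slit (α : ℝ) {l : ℂ} (hl : 0 < l.re) (t : ℝ) :
    l - I * ((t ^ α : ℝ) : ℂ) ∈ slitPlane := by
  left
  rw [re_arg]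
  exact hl

theorem kf_continuous {α : ℝ} (hα : 0 < α) {l : ℂ} (hl : 0 < l.re) :
    Continuous (fun t : ℝ => kf α l t) := by
  unfold kf
  have h1 : Continuous (fun t : ℝ => l - I * ((t ^ α : ℝ) : ℂ)) := by
    have : Continuous (fun t : ℝ => t ^ α) := Real.continuous_rpow_const hα.le
    fun_prop
  refine continuous_iff_continuousAt.2 fun t => ?_
  exact (h1.continuousAt).cpow continuousAt_const (mem_slit α hl t)

theorem kf_re_pos {α : ℝ} {l : ℂ} (hl : 0 < l.re) (t : ℝ) : 0 < (kf α l t).re := by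
  have hz := mem_slit α hl t
  have hne : l - I * ((t ^ α : ℝ) : ℂ) ≠ 0 := slitPlane_ne_zero hz
  unfold kf
  rw [Complex.cpow_def_of_ne_zero hne, Complex.exp_re]
  have harg : |arg (l - I * ((t ^ α : ℝ) : ℂ))| < π / 2 :=
    Complex.abs_arg_lt_pi_div_two_iff.2 (Or.inl (by rw [re_arg]; exact hl))
  have him : (Complex.log (l - I * ((t ^ α : ℝ) : ℂ)) * (1 / 2 : ℂ)).im =
      arg (l - I * ((t ^ α : ℝ) : ℂ)) / 2 := by
    have : (1 / 2 : ℂ) = ((1 / 2 : ℝ) : ℂ) := by push_cast; rfl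
    rw [this, Complex.im_mul_ofReal, Complex.log_im]
    ring
  rw [him]
  refine mul_pos (Real.exp_pos _) (Real.cos_pos_of_mem_Ioo ⟨?_, ?_⟩)
  · have := (abs_lt.1 harg).1
    have := Real.pi_pos
    linarith
  · have := (abs_lt.1 harg).2
    have := Real.pi_pos
    linarith

theorem kf_im_nonneg {α : ℝ} {l : ℂ} (hl : 0 < l.re) {t : ℝ} (ht : t ^ α ≤ l.im) :
    0 ≤ (kf α l t).im := by
  have h1 := kf_re_pos (α := α) hl t
  have h2 : (kf α l t ^ 2).im = l.im - t ^ α := by rw [kf_sq, im_arg]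
  have h3 : (kf α l t ^ 2).im = 2 * (kf α l t).re * (kf α l t).im := by
    rw [pow_two, Complex.mul_im]; ring
  by_contra hneg
  push Not at hneg
  have : 2 * (kf α l t).re * (kf α l t).im < 0 := by
    apply mul_neg_of_pos_of_neg
    · linarith
    · exact hneg
  linarith

theorem intervalIntegrable_im {α : ℝ} (hα : 0 < α) {l : ℂ} (hl : 0 < l.re) (u v : ℝ) :
    IntervalIntegrable (fun t => (kf α l t).im) volume u v :=
  (Complex.continuous_im.comp (kf_continuous hα hl)).intervalIntegrable u v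

/-- `If x₂ - If x₁ = ∫_{x₁}^{x₂} Im k`. -/
theorem If_sub {α : ℝ} (hα : 0 < α) {l : ℂ} (hl : 0 < l.re) (u v : ℝ) :
    If α l v - If α l u = ∫ t in u..v, (kf α l t).im := by
  unfold If
  exact intervalIntegral.integral_interval_sub_left (intervalIntegrable_im hα hl _ _)
    (intervalIntegrable_im hα hl _ _)

/-- monotonicity of `If` below `x_1`. -/
theorem If_mono {α : ℝ} (hα : 0 < α) {l : ℂ} (hl : 0 < l.re) {u v : ℝ} (hu : 0 ≤ u) (huv : u ≤ v)
    (hv : v ^ α ≤ l.im) : If α l u ≤ If α l v := by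
  have h := If_sub hα hl u v
  have h2 : 0 ≤ ∫ t in u..v, (kf α l t).im := by
    refine intervalIntegral.integral_nonneg huv fun t ht => ?_
    exact kf_im_nonneg hl ((Real.rpow_le_rpow (hu.trans ht.1) ht.2 hα.le).trans hv)
  linarith

/-- `‖l - i t^α‖ ≤ ‖l‖` for `0 ≤ t`, `t^α ≤ Im l`. -/
theorem norm_arg_le {α : ℝ} {l : ℂ} {t : ℝ} (ht : 0 ≤ t) (h : t ^ α ≤ l.im) :
    ‖l - I * ((t ^ α : ℝ) : ℂ)‖ ≤ ‖l‖ := by
  have h0 : 0 ≤ t ^ α := Real.rpow_nonneg ht α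
  rw [← Real.sqrt_sq (norm_nonneg (l - I * ((t ^ α : ℝ) : ℂ))), ← Real.sqrt_sq (norm_nonneg l)]
  apply Real.sqrt_le_sqrt
  rw [← Complex.normSq_eq_norm_sq, ← Complex.normSq_eq_norm_sq, Complex.normSq_apply,
    Complex.normSq_apply, re_arg, im_arg]
  nlinarith

end KF

end Pool.Agent.CRV
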