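import Pool.Agent.CRV.MPB

set_option autoImplicit false

open MeasureTheory Complex Set Filter Topology
open scoped Real

namespace Pool.Agent.CRV

noncomputable section

/-- `Im (y' conj y)` and its derivative `(t^α - Im l) |y|²`. -/
theorem imN_deriv {α : ℝ} (F : FS α) (a b l : ℂ) {t : ℝ} (ht : 0 < t) :
    HasDerivAt (fun t : ℝ => (F.dy a b l t * (starRingEnd ℂ) (F.y a b l t)).im)
      ((t ^ α - l.im) * ‖F.y a b l t‖ ^ 2) t := by
  have h1 := F.hasDeriv_dy_real a b l ht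
  have h2 : HasDerivAt (fun t : ℝ => (starRingEnd ℂ) (F.y a b l t))
      ((starRingEnd ℂ) (F.dy a b l t)) t := by
    have := (F.hasDeriv_y_real a b l ht)
    exact (Complex.conjCLE.toContinuousLinearMap.hasFDerivAt.comp_hasDerivAt t this)
  have h3 := Complex.imCLM.hasFDerivAt.comp_hasDerivAt t (h1.mul h2)
  refine HasDerivAt.congr_deriv (f := fun t : ℝ => (F.dy a b l t * (starRingEnd ℂ) (F.y a b l t)).im)
    h3 ?_
  rw [Complex.imCLM_apply, Complex.sq_norm, Complex.normSq_apply]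
  simp only [Complex.add_im, Complex.mul_im, Complex.mul_re, Complex.sub_re, Complex.sub_im,
    Complex.conj_re, Complex.conj_im, Complex.I_re, Complex.I_im, Complex.ofReal_re,
    Complex.ofReal_im]
  ring

/-- lower bound of `Im k` on `[0, x_{1/2}]`. -/
theorem imk_ge {α : ℝ} {l : ℂ} (hre : 0 < l.re) (him : 0 < l.im) {t : ℝ} (ht : 0 ≤ t)
    (h : t ^ α ≤ l.im / 2) : l.im / (4 * Real.sqrt ‖l‖) ≤ (kf α l t).im := by
  have hl0 : 0 < ‖l‖ := lt_of_lt_of_le hre ((le_abs_self _).trans (Complex.abs_re_le_norm l))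
  have ht0 : 0 ≤ t ^ α := Real.rpow_nonneg ht α
  have h1 : ‖l - I * ((t ^ α : ℝ) : ℂ)‖ ≤ ‖l‖ := by
    refine (pow_le_pow_iff_left₀ (norm_nonneg _) (norm_nonneg _) two_ne_zero).1 ?_
    rw [Complex.sq_norm, Complex.sq_norm, Complex.normSq_apply, Complex.normSq_apply, kz_re, kz_im]
    nlinarith
  have h2 : (kf α l t).re ≤ Real.sqrt ‖l‖ := by
    refine (Complex.re_le_norm _).trans ?_
    rw [kf_norm]
    exact Real.sqrt_le_sqrt h1
  have h3 : 0 < (kf α l t).re := lt_of_lt_of_le (Real.sqrt_pos.2 hre) (kf_re_ge hre.le t)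
  have h4 := kf_im α l t
  have hs0 : 0 < Real.sqrt ‖l‖ := Real.sqrt_pos.2 hl0
  have h5 : 0 ≤ (kf α l t).im := by
    by_contra hcon
    push Not at hcon
    have : 2 * (kf α l t).re * (kf α l t).im < 0 := by nlinarith
    linarith
  rw [div_le_iff₀ (by positivity)]
  nlinarith [mul_le_mul_of_nonneg_right h2 h5]

theorem imk_nonneg {α : ℝ} {l : ℂ} (hre : 0 < l.re) {t : ℝ} (h : t ^ α ≤ l.im) :
    0 ≤ (kf α l t).im := by
  have h3 : 0 < (kf α l t).re := lt_of_lt_of_le (Real.sqrt_pos.2 hre) (kf_re_ge hre.le t)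
  have h4 := kf_im α l t
  by_contra hcon
  push Not at hcon
  have : 2 * (kf α l t).re * (kf α l t).im < 0 := by nlinarith
  linarith

theorem If_mono {α : ℝ} (hα : 0 < α) {l : ℂ} (hre : 0 < l.re) {s t : ℝ} (hs : 0 ≤ s) (hst : s ≤ t)
    (h : t ^ α ≤ l.im) : If α l s ≤ If α l t := by
  have hc : Continuous (fun t => (kf α l t).im) := Complex.continuous_im.comp (kf_cont hα hre)
  have h1 : If α l t = If α l s + ∫ u in s..t, (kf α l u).im := by
    unfold If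
    rw [intervalIntegral.integral_add_adjacent_intervals] <;> exact hc.intervalIntegrable _ _
  rw [h1]
  have h2 : 0 ≤ ∫ u in s..t, (kf α l u).im := by
    apply intervalIntegral.integral_nonneg hst
    intro u hu
    exact imk_nonneg hre ((Real.rpow_le_rpow (hs.trans hu.1) hu.2 hα.le).trans h)
  linarith

/-- `If (x_{1/2}) ≥ c |l|^ρ`. -/
theorem If_half {α : ℝ} (hα : 0 < α) {l : ℂ} {σ : ℝ} (hσ : 0 < σ) (hre : 0 < l.re)
    (him : σ * ‖l‖ ≤ l.im) :
    (σ / 2) ^ (1 / α) * (σ / 4) * ‖l‖ ^ rho α ≤ If α l ((l.im / 2) ^ (1 / α)) := by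
  have hl0 : 0 < ‖l‖ := lt_of_lt_of_le hre ((le_abs_self _).trans (Complex.abs_re_le_norm l))
  have him0 : 0 < l.im := lt_of_lt_of_le (mul_pos hσ hl0) him
  have hs0 : 0 < Real.sqrt ‖l‖ := Real.sqrt_pos.2 hl0
  set xh : ℝ := (l.im / 2) ^ (1 / α) with hxh
  have hxh0 : 0 ≤ xh := by rw [hxh]; positivity
  have hxhα : xh ^ α = l.im / 2 := by
    rw [hxh, ← Real.rpow_mul (by positivity), one_div_mul_cancel hα.ne', Real.rpow_one]
  have hc : Continuous (fun t => (kf α l t).im) := Complex.continuous_im.comp (kf_cont hα hre)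
  have h1 : xh * (l.im / (4 * Real.sqrt ‖l‖)) ≤ If α l xh := by
    unfold If
    have : ∫ t in (0 : ℝ)..xh, (l.im / (4 * Real.sqrt ‖l‖)) ≤ ∫ t in (0 : ℝ)..xh, (kf α l t).im := by
      apply intervalIntegral.integral_mono_on hxh0 (by simp) (hc.intervalIntegrable _ _)
      intro t ht
      apply imk_ge hre him0 ht.1
      rw [← hxhα]
      exact Real.rpow_le_rpow ht.1 ht.2 hα.le
    rw [intervalIntegral.integral_const, sub_zero, smul_eq_mul] at this
    exact this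
  refine le_trans ?_ h1
  have h2 : σ * Real.sqrt ‖l‖ / 4 ≤ l.im / (4 * Real.sqrt ‖l‖) := by
    rw [le_div_iff₀ (by positivity)]
    have : Real.sqrt ‖l‖ * Real.sqrt ‖l‖ = ‖l‖ := Real.mul_self_sqrt hl0.le
    nlinarith
  have h3 : (σ / 2) ^ (1 / α) * ‖l‖ ^ (1 / α) ≤ xh := by
    rw [← Real.mul_rpow (by positivity) hl0.le, hxh]
    apply Real.rpow_le_rpow (by positivity) _ (by positivity)
    linarith
  calc (σ / 2) ^ (1 / α) * (σ / 4) * ‖l‖ ^ rho α
      = ((σ / 2) ^ (1 / α) * ‖l‖ ^ (1 / α)) * (σ * Real.sqrt ‖l‖ / 4) := by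
        have : ‖l‖ ^ rho α = ‖l‖ ^ (1 / α) * Real.sqrt ‖l‖ := by
          rw [Real.sqrt_eq_rpow, ← Real.rpow_add hl0]
          congr 1
          unfold rho
          ring
        rw [this]; ring
    _ ≤ xh * (l.im / (4 * Real.sqrt ‖l‖)) := mul_le_mul h3 h2 (by positivity) hxh0

theorem mP_cont {α : ℝ} (F : FS α) (Mp : ℂ → ℂ) (s : Bool) (l : ℂ) :
    ContinuousOn (fun x : ℝ => mP F Mp s l x) (Ici 0) := by
  unfold mP
  exact (F.cont_y_real 1 (Mp l) l).div_const _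

theorem mpl2 (h1 : Stmt_O1) (h2 : Stmt_MPB) : Stmt_MPL2 := by
  intro α hα hα' F Mp hM s ψ₁ ψ₂ hψ hψ' hψ₂
  have hc : 0 < Real.cos ψ₂ := Real.cos_pos_of_mem_Ioo ⟨by linarith, hψ₂⟩
  have hπ := Real.pi_pos
  have hσ : 0 < Real.sin ψ₁ := Real.sin_pos_of_pos_of_lt_pi hψ (by linarith)
  set σ : ℝ := Real.sin ψ₁ with hσdef
  obtain ⟨K, R, hK, hR, H⟩ := h1 α hα hα' F (Real.cos ψ₂) hc
  obtain ⟨K', R', hK', hR', H'⟩ := h2 α hα hα' F Mp hM s ψ₁ ψ₂ hψ hψ' hψ₂
  obtain ⟨R'', hR'', H''⟩ := mp_bound h1 hα hα' F Mp hM hψ hψ' hψ₂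
  set c₀ : ℝ := (σ / 2) ^ (1 / α) * (σ / 4) with hc₀
  have hc₀pos : 0 < c₀ := by rw [hc₀]; positivity
  refine ⟨4 / σ + 1 / c₀, max (max R R') (max R'' (max (K / Real.sqrt (Real.cos ψ₂)) (2 * K' / c₀))),
    by positivity, ?_, ?_⟩
  · exact hR.trans ((le_max_left _ _).trans (le_max_left _ _))
  intro l hl ha hb
  have hlR : R ≤ ‖l‖ := ((le_max_left _ _).trans (le_max_left _ _)).trans hl
  have hlR' : R' ≤ ‖l‖ := ((le_max_right _ _).trans (le_max_left _ _)).trans hl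
  have hlR'' : R'' ≤ ‖l‖ := ((le_max_left _ _).trans (le_max_right _ _)).trans hl
  have hlK : K / Real.sqrt (Real.cos ψ₂) ≤ ‖l‖ :=
    ((le_max_left _ _).trans ((le_max_right _ _).trans (le_max_right _ _))).trans hl
  have hlK' : 2 * K' / c₀ ≤ ‖l‖ :=
    ((le_max_right _ _).trans ((le_max_right _ _).trans (le_max_right _ _))).trans hl
  have hl1 : 1 ≤ ‖l‖ := hR.trans hlR
  have hl0 : 0 < ‖l‖ := lt_of_lt_of_le one_pos hl1
  obtain ⟨_, _, s2, s3⟩ := sector_re hψ hψ' hψ₂ ha hb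
  have hre : 0 < l.re := lt_of_lt_of_le (mul_pos hc hl0) s2
  have him : 0 < l.im := lt_of_lt_of_le (mul_pos hσ hl0) s3
  have hX := hM.2 l ⟨hre, him⟩
  have hO := H l hlR s2 him 1 (Mp l) hX
  obtain ⟨m1, m2⟩ := H'' l hlR'' ha hb
  obtain ⟨hbne, hB⟩ := H' l hlR' ha hb
  have hbdr : 1 ≤ ‖bdr s 1 (Mp l)‖ := by
    unfold bdr
    cases s
    · simpa using m1
    · simp
  have himl : l.im ≤ ‖l‖ := (le_abs_self _).trans (Complex.abs_im_le_norm l)
  have hsl : 0 < Real.sqrt ‖l‖ := Real.sqrt_pos.2 hl0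
  have hsl1 : Real.sqrt ‖l‖ ≤ ‖l‖ := by
    have : Real.sqrt ‖l‖ * Real.sqrt ‖l‖ = ‖l‖ := Real.mul_self_sqrt hl0.le
    have h1' : 1 ≤ Real.sqrt ‖l‖ := by
      rw [← Real.sqrt_one]; exact Real.sqrt_le_sqrt hl1
    nlinarith
  -- points
  set xh : ℝ := (l.im / 2) ^ (1 / α) with hxh
  have hxh0 : 0 ≤ xh := by rw [hxh]; positivity
  have hxhα : xh ^ α = l.im / 2 := by
    rw [hxh, ← Real.rpow_mul (by positivity), one_div_mul_cancel hα.ne', Real.rpow_one]
  have hx1α : x1 α l ^ α = l.im := by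
    unfold x1
    rw [← Real.rpow_mul him.le, one_div_mul_cancel hα.ne', Real.rpow_one]
  have hx10 : 0 ≤ x1 α l := by unfold x1; positivity
  have hxx : xh ≤ x1 α l := by
    rw [hxh]; unfold x1
    exact Real.rpow_le_rpow (by positivity) (by linarith) (by positivity)
  have hx1l : x1 α l ≤ ‖l‖ ^ (1 / α) := by
    unfold x1
    exact Real.rpow_le_rpow him.le himl (by positivity)
  -- first part
  have hycont : ContinuousOn (fun t : ℝ => F.y 1 (Mp l) l t) (Icc 0 xh) :=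
    (F.cont_y_real 1 (Mp l) l).mono Icc_subset_Ici_self
  have hdycont : ContinuousOn (fun t : ℝ => F.dy 1 (Mp l) l t) (Icc 0 xh) :=
    (F.cont_dy_real 1 (Mp l) l).mono Icc_subset_Ici_self
  have hrc : Continuous (fun t : ℝ => t ^ α) := Real.continuous_rpow_const hα.le
  have hNint : ∫ t in (0 : ℝ)..xh, ((t ^ α - l.im) * ‖F.y 1 (Mp l) l t‖ ^ 2)
      = (F.dy 1 (Mp l) l xh * (starRingEnd ℂ) (F.y 1 (Mp l) l xh)).im
        - (F.dy 1 (Mp l) l (0 : ℝ) * (starRingEnd ℂ) (F.y 1 (Mp l) l (0 : ℝ))).im := by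
    have hcN : ContinuousOn (fun t : ℝ => (F.dy 1 (Mp l) l t *
        (starRingEnd ℂ) (F.y 1 (Mp l) l t)).im) (Icc 0 xh) :=
      Complex.continuous_im.comp_continuousOn
        (hdycont.mul (Complex.continuous_conj.comp_continuousOn hycont))
    refine intervalIntegral.integral_eq_sub_of_hasDeriv_right_of_le hxh0 hcN ?_ ?_
    · intro t ht
      exact (imN_deriv F 1 (Mp l) l ht.1).hasDerivWithinAt
    · apply ContinuousOn.intervalIntegrable
      rw [uIcc_of_le hxh0]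
      exact ((hrc.sub continuous_const).continuousOn).mul (hycont.norm.pow 2)
  have hN0 : (F.dy 1 (Mp l) l (0 : ℝ) * (starRingEnd ℂ) (F.y 1 (Mp l) l (0 : ℝ))).im ≤ ‖Mp l‖ := by
    simp only [ofReal_zero, F.y_zero, F.dy_zero, map_one, mul_one]
    exact (le_abs_self _).trans (Complex.abs_im_le_norm _)
  have hNh : 0 ≤ (F.dy 1 (Mp l) l xh * (starRingEnd ℂ) (F.y 1 (Mp l) l xh)).im := by
    have hO' := (hO xh hxh0 (by rw [hxhα]; linarith)).2
    set yy := F.y 1 (Mp l) l xh with hyy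
    set dd := F.dy 1 (Mp l) l xh with hdd
    set kk := kf α l xh with hkk
    have e1 : (dd * (starRingEnd ℂ) yy).im = kk.re * ‖yy‖ ^ 2
        + ((dd - I * kk * yy) * (starRingEnd ℂ) yy).im := by
      rw [Complex.sq_norm, Complex.normSq_apply]
      simp only [Complex.sub_re, Complex.sub_im, Complex.mul_re, Complex.mul_im, Complex.conj_re,
        Complex.conj_im, Complex.I_re, Complex.I_im]
      ring
    have e2 : |((dd - I * kk * yy) * (starRingEnd ℂ) yy).im| ≤ K / Real.sqrt ‖l‖ * ‖yy‖ * ‖yy‖ := by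
      refine (Complex.abs_im_le_norm _).trans ?_
      rw [norm_mul, Complex.norm_conj]
      exact mul_le_mul_of_nonneg_right hO' (norm_nonneg _)
    have e3 : K / Real.sqrt ‖l‖ ≤ kk.re := by
      refine le_trans ?_ (kf_re_ge hre.le xh)
      refine le_trans ?_ (Real.sqrt_le_sqrt s2)
      rw [Real.sqrt_mul hc.le, div_le_iff₀ hsl, mul_assoc, Real.mul_self_sqrt hl0.le]
      rw [div_le_iff₀ (Real.sqrt_pos.2 hc)] at hlK
      linarith
    have e4 := neg_le_of_abs_le e2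
    rw [e1]
    have e5 := mul_le_mul_of_nonneg_right e3 (sq_nonneg ‖yy‖)
    nlinarith
  have hpart1 : ∫ t in (0 : ℝ)..xh, ‖F.y 1 (Mp l) l t‖ ^ 2 ≤ 4 / σ := by
    have hi1 : IntervalIntegrable (fun t : ℝ => l.im / 2 * ‖F.y 1 (Mp l) l t‖ ^ 2) volume 0 xh := by
      apply ContinuousOn.intervalIntegrable
      rw [uIcc_of_le hxh0]
      exact continuousOn_const.mul (hycont.norm.pow 2)
    have hi2 : IntervalIntegrable (fun t : ℝ => -((t ^ α - l.im) * ‖F.y 1 (Mp l) l t‖ ^ 2))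
        volume 0 xh := by
      apply ContinuousOn.intervalIntegrable
      rw [uIcc_of_le hxh0]
      exact (((hrc.sub continuous_const).continuousOn).mul (hycont.norm.pow 2)).neg
    have h3 := intervalIntegral.integral_mono_on hxh0 hi1 hi2 (fun t ht => by
      have : t ^ α ≤ l.im / 2 := by
        rw [← hxhα]; exact Real.rpow_le_rpow ht.1 ht.2 hα.le
      have h0 := sq_nonneg ‖F.y 1 (Mp l) l t‖
      nlinarith)
    rw [intervalIntegral.integral_const_mul, intervalIntegral.integral_neg, hNint] at h3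
    have h4 : l.im / 2 * ∫ t in (0 : ℝ)..xh, ‖F.y 1 (Mp l) l t‖ ^ 2 ≤ 2 * Real.sqrt ‖l‖ := by
      linarith
    rw [le_div_iff₀ hσ]
    have h5 : 0 ≤ ∫ t in (0 : ℝ)..xh, ‖F.y 1 (Mp l) l t‖ ^ 2 :=
      intervalIntegral.integral_nonneg hxh0 (fun t _ => sq_nonneg _)
    have h6 : (∫ t in (0 : ℝ)..xh, ‖F.y 1 (Mp l) l t‖ ^ 2) * (σ * ‖l‖)
        ≤ (∫ t in (0 : ℝ)..xh, ‖F.y 1 (Mp l) l t‖ ^ 2) * l.im :=
      mul_le_mul_of_nonneg_left s3 h5
    have h7 : (∫ t in (0 : ℝ)..xh, ‖F.y 1 (Mp l) l t‖ ^ 2) * (σ * ‖l‖) ≤ 4 * ‖l‖ := by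
      linarith
    have h8 : ((∫ t in (0 : ℝ)..xh, ‖F.y 1 (Mp l) l t‖ ^ 2) * σ) * ‖l‖ ≤ 4 * ‖l‖ := by
      linarith
    exact le_of_mul_le_mul_right h8 hl0
  have hmc : ContinuousOn (fun x : ℝ => ‖mP F Mp s l x‖ ^ 2) (Ici 0) :=
    (mP_cont F Mp s l).norm.pow 2
  have hii : ∀ u v : ℝ, 0 ≤ u → u ≤ v →
      IntervalIntegrable (fun x : ℝ => ‖mP F Mp s l x‖ ^ 2) volume u v := by
    intro u v hu huv
    apply ContinuousOn.intervalIntegrable
    rw [uIcc_of_le huv]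
    exact hmc.mono (fun t ht => hu.trans ht.1)
  have hpart1' : ∫ x in (0 : ℝ)..xh, ‖mP F Mp s l x‖ ^ 2 ≤ 4 / σ := by
    refine le_trans ?_ hpart1
    apply intervalIntegral.integral_mono_on hxh0 (hii 0 xh le_rfl hxh0)
    · apply ContinuousOn.intervalIntegrable
      rw [uIcc_of_le hxh0]
      exact hycont.norm.pow 2
    · intro t ht
      unfold mP
      rw [norm_div]
      exact pow_le_pow_left₀ (by positivity) (div_le_self (norm_nonneg _) hbdr) 2
  -- second part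
  have hpart2 : ∫ x in xh..x1 α l, ‖mP F Mp s l x‖ ^ 2 ≤ 1 / c₀ := by
    have hLρ : 0 < ‖l‖ ^ rho α := Real.rpow_pos_of_pos hl0 _
    have hbound : ∀ x ∈ Icc xh (x1 α l), ‖mP F Mp s l x‖ ^ 2 ≤ Real.exp (-(c₀ * ‖l‖ ^ rho α)) := by
      intro x hx
      have hx0 : 0 ≤ x := hxh0.trans hx.1
      have hxα : x ^ α ≤ l.im := by
        rw [← hx1α]; exact Real.rpow_le_rpow hx0 hx.2 hα.le
      have h3 := hB x hx0 (by linarith)
      have h4 : c₀ * ‖l‖ ^ rho α ≤ If α l x :=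
        (If_half hα hσ hre s3).trans (If_mono hα hre hxh0 hx.1 hxα)
      have h5 : K' * ‖l‖ ^ (rho α - 1) ≤ c₀ * ‖l‖ ^ rho α / 2 := by
        have e1 : ‖l‖ ^ rho α = ‖l‖ ^ (rho α - 1) * ‖l‖ := by
          rw [← Real.rpow_add_one hl0.ne']; congr 1; ring
        rw [e1]
        have e2 : 0 < ‖l‖ ^ (rho α - 1) := Real.rpow_pos_of_pos hl0 _
        rw [div_le_iff₀ hc₀pos] at hlK'
        have := mul_le_mul_of_nonneg_left hlK' e2.le
        linarith
      calc ‖mP F Mp s l x‖ ^ 2 ≤ (Real.exp (-If α l x + K' * ‖l‖ ^ (rho α - 1))) ^ 2 :=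
            pow_le_pow_left₀ (norm_nonneg _) h3 2
        _ = Real.exp (2 * (-If α l x + K' * ‖l‖ ^ (rho α - 1))) := by
            rw [← Real.exp_nat_mul]; norm_num
        _ ≤ _ := by
            apply Real.exp_le_exp.2
            linarith
    have h6 : ∫ x in xh..x1 α l, ‖mP F Mp s l x‖ ^ 2
        ≤ ∫ x in xh..x1 α l, Real.exp (-(c₀ * ‖l‖ ^ rho α)) := by
      apply intervalIntegral.integral_mono_on hxx (hii xh _ hxh0 hxx) (by simp) hbound
    rw [intervalIntegral.integral_const, smul_eq_mul] at h6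
    refine h6.trans ?_
    have h7 : x1 α l - xh ≤ ‖l‖ ^ rho α := by
      have e1 : ‖l‖ ^ (1 / α) ≤ ‖l‖ ^ rho α := by
        apply Real.rpow_le_rpow_of_exponent_le hl1
        unfold rho
        linarith
      linarith
    have h8 : c₀ * ‖l‖ ^ rho α ≤ Real.exp (c₀ * ‖l‖ ^ rho α) := by
      have := Real.add_one_le_exp (c₀ * ‖l‖ ^ rho α)
      linarith
    calc (x1 α l - xh) * Real.exp (-(c₀ * ‖l‖ ^ rho α))
        ≤ ‖l‖ ^ rho α * Real.exp (-(c₀ * ‖l‖ ^ rho α)) :=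
          mul_le_mul_of_nonneg_right h7 (Real.exp_pos _).le
      _ ≤ 1 / c₀ := by
          rw [Real.exp_neg, ← div_eq_mul_inv, div_le_div_iff₀ (Real.exp_pos _) hc₀pos]
          linarith
  rw [← intervalIntegral.integral_add_adjacent_intervals (hii 0 xh le_rfl hxh0)
    (hii xh _ hxh0 hxx)]
  linarith

end

end Pool.Agent.CRV
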