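import Pool.Agent.CRV.DAN

/-! Module NHOL. -/

set_option autoImplicit false

open MeasureTheory Complex Set Filter Topology
open scoped Real

namespace Pool.Agent.CRV

theorem expL2 {γ : ℝ} (hγ : 0 < γ) (D : ℝ) :
    MemLp (fun t : ℝ => D * Real.exp (-(γ * t))) 2 (volume.restrict (Ioi (0 : ℝ))) := by
  refine MemLp.const_mul ?_ D
  rw [memLp_two_iff_integrable_sq (by fun_prop)]
  have h := exp_neg_integrableOn_Ioi 0 (b := 2 * γ) (by positivity)
  refine h.congr (Eventually.of_forall fun t => ?_)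
  show Real.exp (-(2 * γ) * t) = Real.exp (-(γ * t)) ^ 2
  rw [← Real.exp_nat_mul]
  congr 1
  push_cast
  ring

theorem nhol : Stmt_NHOL := by
  intro α _ _ F f hf R K γ x₀ a b hR ha hb hdec
  have hmem0 : (0 : ℂ) ∈ Metric.ball (0 : ℂ) R := Metric.mem_ball_self hR
  have hγ : 0 < γ := (hdec 0 hmem0).2.1
  have hx₀ : 0 ≤ x₀ := (hdec 0 hmem0).2.2.1
  intro l₀ hl₀
  obtain ⟨ε, hε, hball⟩ := Metric.isOpen_iff.1 Metric.isOpen_ball l₀ hl₀
  have hcb : Metric.closedBall l₀ (ε / 2) ⊆ Metric.ball (0 : ℂ) R := by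
    refine subset_trans (fun z hz => ?_) hball
    rw [Metric.mem_closedBall] at hz
    rw [Metric.mem_ball]
    linarith
  obtain ⟨Ma, hMa⟩ := (isCompact_closedBall l₀ (ε / 2)).exists_bound_of_continuousOn
    (ha.continuousOn.mono hcb)
  obtain ⟨Mb, hMb⟩ := (isCompact_closedBall l₀ (ε / 2)).exists_bound_of_continuousOn
    (hb.continuousOn.mono hcb)
  obtain ⟨MC, hMC0, hMC⟩ := ker_bd F.cC x₀ l₀ (ε / 2)
  obtain ⟨MS, hMS0, hMS⟩ := ker_bd F.cS x₀ l₀ (ε / 2)
  set M0 : ℝ := Ma * MC + Mb * MS with hM0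
  set D : ℝ := (|M0| + |K|) * Real.exp (γ * x₀) with hD
  have hbound : ∀ l ∈ Metric.ball l₀ (ε / 2), ∀ t : ℝ, 0 < t →
      ‖F.y (a l) (b l) l t‖ ≤ D * Real.exp (-(γ * t)) := by
    intro l hl t ht
    have hlc := Metric.ball_subset_closedBall hl
    have hDt : D * Real.exp (-(γ * t)) = (|M0| + |K|) * Real.exp (-(γ * (t - x₀))) := by
      rw [hD, mul_assoc, ← Real.exp_add]
      congr 2
      ring
    rw [hDt]
    rcases le_or_gt t x₀ with h | h
    · have h1 : ‖F.y (a l) (b l) l t‖ ≤ M0 := by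
        unfold FS.y
        calc ‖a l * F.C t l + b l * F.S t l‖ ≤ ‖a l * F.C t l‖ + ‖b l * F.S t l‖ := norm_add_le _ _
          _ = ‖a l‖ * ‖F.C t l‖ + ‖b l‖ * ‖F.S t l‖ := by rw [norm_mul, norm_mul]
          _ ≤ Ma * MC + Mb * MS := by
            have e1 := hMa l hlc
            have e2 := hMb l hlc
            have e3 := hMC t ht.le h l hlc
            have e4 := hMS t ht.le h l hlc
            have := norm_nonneg (a l)
            have := norm_nonneg (b l)
            gcongr <;> linarith
      have h2 : 1 ≤ Real.exp (-(γ * (t - x₀))) := Real.one_le_exp (by nlinarith)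
      have h3 := le_abs_self M0
      have h4 := abs_nonneg K
      have h5 := abs_nonneg M0
      nlinarith
    · have h1 := (hdec l (hcb hlc)).2.2.2 0 ⟨by linarith [Real.pi_pos], le_rfl⟩ (t - x₀)
        (by linarith)
      have h2 : (x₀ : ℂ) + ((t - x₀ : ℝ) : ℂ) * Complex.exp ((0 : ℝ) * I) = (t : ℂ) := by
        push_cast; simp
      rw [h2] at h1
      refine h1.1.trans ?_
      have h3 := le_abs_self K
      have h5 := abs_nonneg M0
      have h6 := Real.exp_pos (-(γ * (t - x₀)))
      nlinarith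
  have hint : Integrable (fun t : ℝ => ‖f t‖ * (D * Real.exp (-(γ * t))))
      (volume.restrict (Ioi (0 : ℝ))) := by
    have := MemLp.integrable_mul (p := 2) (q := 2) hf.norm (expL2 hγ D)
    exact this
  have h := holPar (μ := volume.restrict (Ioi (0 : ℝ))) (U := Metric.ball l₀ (ε / 2))
    Metric.isOpen_ball (fun l t => f t * F.y (a l) (b l) l t) _ hint
    (fun l _ => by
      refine hf.aestronglyMeasurable.mul ?_
      have hc : ContinuousOn (fun t : ℝ => F.y (a l) (b l) l t) (Ici 0) :=
        ((ker_cont F.cC l).const_mul _).add ((ker_cont F.cS l).const_mul _)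
      exact (hc.mono (fun t ht => le_of_lt ht)).aestronglyMeasurable measurableSet_Ioi)
    (by
      filter_upwards [ae_restrict_mem measurableSet_Ioi] with t ht
      have htD := mem_Dom_of_nonneg (le_of_lt ht)
      have hs : Metric.ball l₀ (ε / 2) ⊆ Metric.ball (0 : ℂ) R :=
        Metric.ball_subset_closedBall.trans hcb
      exact (((ha.mono hs).mul (F.aC t htD).differentiableOn).add
        ((hb.mono hs).mul (F.aS t htD).differentiableOn)).const_mul (f t))
    (by
      filter_upwards [ae_restrict_mem measurableSet_Ioi] with t ht l hl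
      rw [norm_mul]
      exact mul_le_mul_of_nonneg_left (hbound l hl t ht) (norm_nonneg _))
  exact ((h l₀ (Metric.mem_ball_self (by positivity))).differentiableAt
    (Metric.isOpen_ball.mem_nhds (Metric.mem_ball_self (by positivity)))).differentiableWithinAt

end Pool.Agent.CRV
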