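import Pool.Agent.CRV.Defs

/-!
# Exact statements of the modules of S15681.  Every module file may ASSUME earlier statements
(e.g. `theorem X (h : Stmt_W) : Stmt_X`).
-/

set_option autoImplicit false

open MeasureTheory Complex Set Filter Topology
open scoped Real

namespace Pool.Agent.CRV

noncomputable section

/-! ## A. ODE -/

/-- FS: the fundamental system exists. -/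
def Stmt_FS : Prop := ∀ α : ℝ, 0 < α → α ≤ 2 / 3 → Nonempty (FS α)

/-- HL: abstract half-line lemma (coercive potential): a decaying solution exists. -/
def Stmt_HL : Prop := ∀ c₀ c₁ B : ℝ, 0 < c₀ → 0 < c₁ → 0 < B → ∃ K > 0, ∃ γ > 0,
  ∀ (Q c dc s ds : ℝ → ℂ) (e : ℂ) (ω : ℝ), c₀ ≤ Real.cos ω → ‖e‖ = 1 →
    ContinuousOn Q (Ici 0) → ContinuousOn c (Ici 0) → ContinuousOn dc (Ici 0) →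
    ContinuousOn s (Ici 0) → ContinuousOn ds (Ici 0) →
    (∀ t : ℝ, 0 < t → HasDerivAt c (dc t) t) → (∀ t : ℝ, 0 < t → HasDerivAt dc (Q t * c t) t) →
    (∀ t : ℝ, 0 < t → HasDerivAt s (ds t) t) → (∀ t : ℝ, 0 < t → HasDerivAt ds (Q t * s t) t) →
    c 0 = 1 → dc 0 = 0 → s 0 = 0 → ds 0 = e →
    (∀ t : ℝ, 0 ≤ t → c₁ ≤ (exp (ω * I) * Q t).re) → (∀ t : ℝ, 0 ≤ t → ‖Q t‖ ≤ B * (1 + t)) →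
    (∀ t : ℝ, 0 < t → s t ≠ 0) ∧ ∃ m : ℂ,
      (∀ t : ℝ, 1 ≤ t → ‖c t / s t + m‖ ≤ K * Real.exp (-(γ * t))) ∧
      (∀ t : ℝ, 0 ≤ t → ‖c t + m * s t‖ ≤ K * Real.exp (-(γ * t)) ∧
        ‖dc t + m * ds t‖ ≤ K * Real.exp (-(γ * t)))

/-- RL: radial limits, approached exponentially and uniformly, of a holomorphic function in a
sector do not depend on the direction. -/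
def Stmt_RL : Prop := ∀ (g : ℂ → ℂ) (η₁ η₂ K γ : ℝ) (M : ℝ → ℂ), 0 < γ →
  (∀ η ∈ Icc η₁ η₂, ∀ t : ℝ, 1 ≤ t → DifferentiableAt ℂ g (t * exp (η * I))) →
  (∀ η ∈ Icc η₁ η₂, ∀ t : ℝ, 1 ≤ t → ‖g (t * exp (η * I)) - M η‖ ≤ K * Real.exp (-(γ * t))) →
  ∀ η ∈ Icc η₁ η₂, ∀ η' ∈ Icc η₁ η₂, M η = M η'

/-- W: Weyl solutions in a coercive sector, holomorphic in `l`. -/
def Stmt_W : Prop := ∀ α : ℝ, 0 < α → α ≤ 2 / 3 → ∀ (F : FS α) (a η₁ η₂ ω c₀ c₁ R : ℝ),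
  0 ≤ a → -(π / 2) ≤ η₁ → η₁ ≤ η₂ → η₂ ≤ π / 2 → 0 < c₀ → 0 < c₁ → 0 < R → c₀ ≤ Real.cos ω →
  ∀ U : Set ℂ, IsOpen U → (∀ l ∈ U, ‖l‖ ≤ R) →
  (∀ l ∈ U, ∀ η ∈ Icc η₁ η₂, ∀ t : ℝ, 0 ≤ t →
    c₁ ≤ (exp (ω * I) * (exp (2 * η * I) * (I * (a + t * exp (η * I)) ^ (α : ℂ) - l))).re) →
  ∃ A B : ℂ → ℂ, DifferentiableOn ℂ A U ∧ DifferentiableOn ℂ B U ∧
    (∀ l ∈ U, A l * F.C a l + B l * F.S a l = 1) ∧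
    ∃ K γ : ℝ, 0 < γ ∧ ∀ l ∈ U, ∀ η ∈ Icc η₁ η₂, ∀ t : ℝ, 0 ≤ t →
      ‖F.y (A l) (B l) l (a + t * exp (η * I))‖ ≤ K * Real.exp (-(γ * t)) ∧
      ‖F.dy (A l) (B l) l (a + t * exp (η * I))‖ ≤ K * Real.exp (-(γ * t))

/-- XU, YU: uniqueness up to a factor. -/
def Stmt_XU : Prop := ∀ α : ℝ, 0 < α → α ≤ 2 / 3 → ∀ (F : FS α) (l a b a' b' : ℂ),
  IsX F a b l → IsX F a' b' l → a * b' = a' * b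

def Stmt_YU : Prop := ∀ α : ℝ, 0 < α → α ≤ 2 / 3 → ∀ (F : FS α) (l a b a' b' : ℂ),
  IsY F a b l → IsY F a' b' l → a * b' = a' * b

/-- X: the solution decaying upwards, `l` in the open first quadrant. -/
def Stmt_X : Prop := ∀ α : ℝ, 0 < α → α ≤ 2 / 3 → ∀ F : FS α, ∃ Mp : ℂ → ℂ, HX F Mp

/-- Y: the solution decaying at `+∞`, all `l`, locally holomorphic in `l`. -/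
def Stmt_Y : Prop := ∀ α : ℝ, 0 < α → α ≤ 2 / 3 → ∀ F : FS α, ∀ R : ℝ, 0 < R →
  ∃ a b : ℂ → ℂ, DifferentiableOn ℂ a (Metric.ball 0 R) ∧ DifferentiableOn ℂ b (Metric.ball 0 R) ∧
    ∃ K γ x₀ : ℝ, ∀ l ∈ Metric.ball (0 : ℂ) R, DecY F K γ x₀ (a l) (b l) l

/-- DLX: decay along vertical lines. -/
def Stmt_DLX : Prop := ∀ α : ℝ, 0 < α → α ≤ 2 / 3 → ∀ (F : FS α) (a b l : ℂ), IsX F a b l →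
  ∀ x : ℝ, 0 ≤ x → ∃ K γ : ℝ, 0 < γ ∧ ∀ t : ℝ, 0 ≤ t →
    ‖F.y a b l (x + t * I)‖ ≤ K * Real.exp (-(γ * t)) ∧
    ‖F.dy a b l (x + t * I)‖ ≤ K * Real.exp (-(γ * t))

/-- DLY: decay along lines of direction `η ∈ (-π/4, 0]` from any `x ≥ 0`. -/
def Stmt_DLY : Prop := ∀ α : ℝ, 0 < α → α ≤ 2 / 3 → ∀ (F : FS α) (a b l : ℂ), IsY F a b l →
  ∀ x : ℝ, 0 ≤ x → ∀ η : ℝ, -(π / 4) < η → η ≤ 0 → ∃ K γ : ℝ, 0 < γ ∧ ∀ t : ℝ, 0 ≤ t →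
    ‖F.y a b l (x + t * exp (η * I))‖ ≤ K * Real.exp (-(γ * t)) ∧
    ‖F.dy a b l (x + t * exp (η * I))‖ ≤ K * Real.exp (-(γ * t))

/-! ## B. energy and WKB estimates -/

/-- EN: energy identity on a half-line. -/
def Stmt_EN : Prop := ∀ (Q w dw : ℝ → ℂ) (B K γ : ℝ), 0 < γ →
  ContinuousOn Q (Ici 0) → ContinuousOn w (Ici 0) → ContinuousOn dw (Ici 0) →
  (∀ t : ℝ, 0 < t → HasDerivAt w (dw t) t) → (∀ t : ℝ, 0 < t → HasDerivAt dw (Q t * w t) t) →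
  (∀ t : ℝ, 0 ≤ t → ‖Q t‖ ≤ B * (1 + t)) →
  (∀ t : ℝ, 0 ≤ t → ‖w t‖ ≤ K * Real.exp (-(γ * t))) →
  (∀ t : ℝ, 0 ≤ t → ‖dw t‖ ≤ K * Real.exp (-(γ * t))) →
  IntegrableOn (fun t => ‖dw t‖ ^ 2) (Ioi 0) ∧ IntegrableOn (fun t => ‖w t‖ ^ 2) (Ioi 0) ∧
  IntegrableOn (fun t => Q t * ((‖w t‖ ^ 2 : ℝ) : ℂ)) (Ioi 0) ∧
  ((∫ t in Ioi (0 : ℝ), ‖dw t‖ ^ 2 : ℝ) : ℂ) + ∫ t in Ioi (0 : ℝ), Q t * ((‖w t‖ ^ 2 : ℝ) : ℂ)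
    = -(dw 0 * (starRingEnd ℂ) (w 0))

/-- PAIR: `w'(0)/w(0) = -κ + O(L^{-1/2})`. -/
def Stmt_PAIR : Prop := ∀ c₁ c₂ : ℝ, 0 < c₁ → 0 < c₂ → ∃ K > 0, ∃ L₀ > 0,
  ∀ (Q w dw : ℝ → ℂ) (B K' γ ω L : ℝ) (κ : ℂ), L₀ ≤ L → 0 < γ →
  ContinuousOn Q (Ici 0) → ContinuousOn w (Ici 0) → ContinuousOn dw (Ici 0) →
  (∀ t : ℝ, 0 < t → HasDerivAt w (dw t) t) → (∀ t : ℝ, 0 < t → HasDerivAt dw (Q t * w t) t) →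
  (∀ t : ℝ, 0 ≤ t → ‖Q t‖ ≤ B * (1 + t)) →
  (∀ t : ℝ, 0 ≤ t → ‖w t‖ ≤ K' * Real.exp (-(γ * t))) →
  (∀ t : ℝ, 0 ≤ t → ‖dw t‖ ≤ K' * Real.exp (-(γ * t))) →
  0 ≤ Real.cos ω → (∀ t : ℝ, 0 ≤ t → c₁ * L ≤ (exp (ω * I) * Q t).re) →
  κ ^ 2 = Q 0 → c₂ * Real.sqrt L ≤ κ.re → ‖Q 0‖ ≤ 3 * L →
  (∀ t : ℝ, 0 ≤ t → ‖Q t - Q 0‖ ≤ 1 + t) → (w 0 ≠ 0 ∨ dw 0 ≠ 0) →
  w 0 ≠ 0 ∧ ‖dw 0 + κ * w 0‖ ≤ K / Real.sqrt L * ‖w 0‖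

/-- O1: `X'/X = i k + O(|l|^{-1/2})` on the real line, `Re l ≥ c |l|`. -/
def Stmt_O1 : Prop := ∀ α : ℝ, 0 < α → α ≤ 2 / 3 → ∀ F : FS α, ∀ c > 0, ∃ K R : ℝ, 0 < K ∧ 1 ≤ R ∧
  ∀ l : ℂ, R ≤ ‖l‖ → c * ‖l‖ ≤ l.re → 0 < l.im → ∀ a b : ℂ, IsX F a b l →
    ∀ x : ℝ, 0 ≤ x → x ^ α ≤ 2 * ‖l‖ → F.y a b l x ≠ 0 ∧
      ‖F.dy a b l x - I * kf α l x * F.y a b l x‖ ≤ K / Real.sqrt ‖l‖ * ‖F.y a b l x‖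

/-- O2: `Y'/Y = i k + O(|l|^{-1/2})` for `arg l` slightly below `π/2` and `x^α ≤ q Im l`. -/
def Stmt_O2 : Prop := ∀ α : ℝ, 0 < α → α ≤ 2 / 3 → ∀ F : FS α, ∀ q : ℝ, 0 < q → q < 1 →
  ∃ κ K R : ℝ, 0 < κ ∧ κ < π / 4 ∧ 0 < K ∧ 1 ≤ R ∧
  ∀ l : ℂ, R ≤ ‖l‖ → π / 2 - κ ≤ arg l → arg l < π / 2 → ∀ a b : ℂ, IsY F a b l →
    ∀ x : ℝ, 0 ≤ x → x ^ α ≤ q * l.im → F.y a b l x ≠ 0 ∧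
      ‖F.dy a b l x - I * kf α l x * F.y a b l x‖ ≤ K / Real.sqrt ‖l‖ * ‖F.y a b l x‖

/-- GRON: growth of the WKB energy. -/
def Stmt_GRON : Prop := ∀ α : ℝ, 0 < α → α ≤ 2 / 3 → ∀ (F : FS α) (a b l : ℂ), 0 < l.re →
  ∀ x₁ x₂ : ℝ, 0 ≤ x₁ → x₁ ≤ x₂ →
    PP F a b l x₂ ≤ PP F a b l x₁ *
      Real.exp (2 * (∫ t in x₁..x₂, |(kf α l t).im|) + x₂ ^ α / l.re)

/-- LOGX -/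
def Stmt_LOGX : Prop := ∀ α : ℝ, 0 < α → α ≤ 2 / 3 → ∀ F : FS α, ∀ c > 0, ∃ K R : ℝ, 0 < K ∧ 1 ≤ R ∧
  ∀ l : ℂ, R ≤ ‖l‖ → c * ‖l‖ ≤ l.re → 0 < l.im → ∀ a b : ℂ, IsX F a b l → a ≠ 0 ∧
    ∀ x : ℝ, 0 ≤ x → x ^ α ≤ 2 * ‖l‖ →
      ‖a‖ * Real.exp (-If α l x - K * ‖l‖ ^ (rho α - 1)) ≤ ‖F.y a b l x‖ ∧
      ‖F.y a b l x‖ ≤ ‖a‖ * Real.exp (-If α l x + K * ‖l‖ ^ (rho α - 1))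

/-- LOGY -/
def Stmt_LOGY : Prop := ∀ α : ℝ, 0 < α → α ≤ 2 / 3 → ∀ F : FS α, ∀ q : ℝ, 0 < q → q < 1 →
  ∃ κ K R : ℝ, 0 < κ ∧ κ < π / 4 ∧ 0 < K ∧ 1 ≤ R ∧
  ∀ l : ℂ, R ≤ ‖l‖ → π / 2 - κ ≤ arg l → arg l < π / 2 → ∀ a b : ℂ, IsY F a b l → a ≠ 0 ∧
    ∀ x : ℝ, 0 ≤ x → x ^ α ≤ q * l.im →
      ‖a‖ * Real.exp (-If α l x - K * ‖l‖ ^ (rho α - 1)) ≤ ‖F.y a b l x‖ ∧
      ‖F.y a b l x‖ ≤ ‖a‖ * Real.exp (-If α l x + K * ‖l‖ ^ (rho α - 1))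

/-- TAIL: `L^2` norm of `Y` beyond `x_1`. -/
def Stmt_TAIL : Prop := ∀ α : ℝ, 0 < α → α ≤ 2 / 3 → ∀ F : FS α, ∀ ψ₁ ψ₂ : ℝ,
  0 < ψ₁ → ψ₁ ≤ ψ₂ → ψ₂ < π / 2 → ∀ ε > 0, ∃ R : ℝ, ∀ l : ℂ, R ≤ ‖l‖ → ψ₁ ≤ arg l → arg l ≤ ψ₂ →
    ∀ a b : ℂ, IsY F a b l →
      ∫ x in Ioi (x1 α l), ‖F.y a b l x‖ ^ 2 ≤
        Real.exp (ε * ‖l‖ ^ rho α) * PP F a b l (x1 α l)

/-- APRI: a priori bound of the `L^2` norm of `Y`. -/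
def Stmt_APRI : Prop := ∀ α : ℝ, 0 < α → α ≤ 2 / 3 → ∀ F : FS α, ∀ ψ₁ ψ₂ : ℝ,
  0 < ψ₁ → ψ₁ ≤ ψ₂ → ψ₂ < π / 2 → ∀ ε > 0, ∃ R : ℝ, ∀ l : ℂ, R ≤ ‖l‖ → ψ₁ ≤ arg l → arg l ≤ ψ₂ →
    ∀ a b : ℂ, IsY F a b l →
      ∫ x in Ioi (0 : ℝ), ‖F.y a b l x‖ ^ 2 ≤
        Real.exp (2 * Tf α l + ε * ‖l‖ ^ rho α) * (‖a‖ ^ 2 + ‖b‖ ^ 2)

/-- ZHER: off the ray `arg l = 2β` the Weyl function is finite, nonzero, and bounded. -/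
def Stmt_ZHER : Prop := ∀ α : ℝ, 0 < α → α ≤ 2 / 3 → ∀ (F : FS α) (a b l : ℂ), IsY F a b l →
  (l * exp (-(2 * beta α) * I)).im ≠ 0 → a ≠ 0 ∧ b ≠ 0 ∧
    ‖b‖ ≤ 8 * (1 + ‖l‖) ^ 2 * (1 + 1 / |(l * exp (-(2 * beta α) * I)).im|) * ‖a‖ ∧
    ‖a‖ ≤ 8 * (1 + ‖l‖) ^ 2 * (1 + 1 / |(l * exp (-(2 * beta α) * I)).im|) * ‖b‖

/-- OUT: outside the closed first quadrant. -/
def Stmt_OUT : Prop := ∀ α : ℝ, 0 < α → α ≤ 2 / 3 → ∀ F : FS α, ∀ δ > 0, ∃ K R : ℝ, 0 < K ∧ 1 ≤ R ∧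
  ∀ l : ℂ, R ≤ ‖l‖ → (l.re ≤ -(δ * ‖l‖) ∨ l.im ≤ -(δ * ‖l‖)) → ∀ a b : ℂ, IsY F a b l →
    ∀ s : Bool, bdr s a b ≠ 0 ∧
      ∫ x in Ioi (0 : ℝ), ‖F.y a b l x‖ ^ 2 ≤ K / Real.sqrt ‖l‖ * ‖bdr s a b‖ ^ 2

/-- ORD: crude bound for all `l`, with integrability. -/
def Stmt_ORD : Prop := ∀ α : ℝ, 0 < α → α ≤ 2 / 3 → ∀ F : FS α, ∃ K : ℝ,
  ∀ a b l : ℂ, IsY F a b l →
    IntegrableOn (fun x : ℝ => ‖F.y a b l x‖ ^ 2) (Ioi 0) ∧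
    ∫ x in Ioi (0 : ℝ), ‖F.y a b l x‖ ^ 2 ≤
      Real.exp (K * (1 + ‖l‖ ^ rho α)) * (‖a‖ ^ 2 + ‖b‖ ^ 2)

/-! ## C. the entire function `E` -/

/-- NHOL: `l ↦ ∫ f Y` is holomorphic. -/
def Stmt_NHOL : Prop := ∀ α : ℝ, 0 < α → α ≤ 2 / 3 → ∀ (F : FS α) (f : ℝ → ℂ), L2f f →
  ∀ (R K γ x₀ : ℝ) (a b : ℂ → ℂ), 0 < R → DifferentiableOn ℂ a (Metric.ball 0 R) →
  DifferentiableOn ℂ b (Metric.ball 0 R) →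
  (∀ l ∈ Metric.ball (0 : ℂ) R, DecY F K γ x₀ (a l) (b l) l) →
  DifferentiableOn ℂ (fun l => ∫ x in Ioi (0 : ℝ), f x * F.y (a l) (b l) l x) (Metric.ball 0 R)

/-- ENT: orthogonality to all eigenfunctions makes `E` entire. -/
def Stmt_ENT : Prop := ∀ α : ℝ, 0 < α → α ≤ 2 / 3 → ∀ (F : FS α) (s : Bool) (f : ℝ → ℂ), L2f f →
  (∀ l a b : ℂ, IsY F a b l → bdr s a b = 0 → ∫ x in Ioi (0 : ℝ), f x * F.y a b l x = 0) →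
  ∃ E : ℂ → ℂ, IsE F s f E

/-- EORD: `E` has order at most `ρ`, finite type. -/
def Stmt_EORD : Prop := ∀ α : ℝ, 0 < α → α ≤ 2 / 3 → ∀ (F : FS α) (s : Bool) (f : ℝ → ℂ)
  (E : ℂ → ℂ), L2f f → IsE F s f E → ∃ K : ℝ, ∀ l : ℂ, ‖E l‖ ≤ Real.exp (K * (1 + ‖l‖ ^ rho α))

/-- APRIE: a priori bound of `E` off the ray `2β`. -/
def Stmt_APRIE : Prop := ∀ α : ℝ, 0 < α → α ≤ 2 / 3 → ∀ (F : FS α) (s : Bool) (f : ℝ → ℂ)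
  (E : ℂ → ℂ), L2f f → IsE F s f E → ∀ ψ₁ ψ₂ : ℝ, 0 < ψ₁ → ψ₁ ≤ ψ₂ → ψ₂ < π / 2 →
  (2 * beta α < ψ₁ ∨ ψ₂ < 2 * beta α) → ∀ ε > 0, ∃ R : ℝ, ∀ l : ℂ, R ≤ ‖l‖ →
  ψ₁ ≤ arg l → arg l ≤ ψ₂ → ‖E l‖ ≤ Real.exp (Tf α l + ε * ‖l‖ ^ rho α)

/-- OUTE: `E → 0` outside the closed first quadrant. -/
def Stmt_OUTE : Prop := ∀ α : ℝ, 0 < α → α ≤ 2 / 3 → ∀ (F : FS α) (s : Bool) (f : ℝ → ℂ)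
  (E : ℂ → ℂ), L2f f → IsE F s f E → ∀ δ > 0, ∀ ε > 0, ∃ R : ℝ, ∀ l : ℂ, R ≤ ‖l‖ →
  (l.re ≤ -(δ * ‖l‖) ∨ l.im ≤ -(δ * ‖l‖)) → ‖E l‖ ≤ ε

/-- MPB: pointwise bound of `m^+`. -/
def Stmt_MPB : Prop := ∀ α : ℝ, 0 < α → α ≤ 2 / 3 → ∀ (F : FS α) (Mp : ℂ → ℂ), HX F Mp →
  ∀ (s : Bool) (ψ₁ ψ₂ : ℝ), 0 < ψ₁ → ψ₁ ≤ ψ₂ → ψ₂ < π / 2 → ∃ K R : ℝ, 0 < K ∧ 1 ≤ R ∧
  ∀ l : ℂ, R ≤ ‖l‖ → ψ₁ ≤ arg l → arg l ≤ ψ₂ → bdr s 1 (Mp l) ≠ 0 ∧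
    ∀ x : ℝ, 0 ≤ x → x ^ α ≤ 2 * ‖l‖ →
      ‖mP F Mp s l x‖ ≤ Real.exp (-If α l x + K * ‖l‖ ^ (rho α - 1))

/-- MPL2: `L^2` bound of `m^+` on `(0, x_1)`. -/
def Stmt_MPL2 : Prop := ∀ α : ℝ, 0 < α → α ≤ 2 / 3 → ∀ (F : FS α) (Mp : ℂ → ℂ), HX F Mp →
  ∀ (s : Bool) (ψ₁ ψ₂ : ℝ), 0 < ψ₁ → ψ₁ ≤ ψ₂ → ψ₂ < π / 2 → ∃ K R : ℝ, 0 < K ∧ 1 ≤ R ∧
  ∀ l : ℂ, R ≤ ‖l‖ → ψ₁ ≤ arg l → arg l ≤ ψ₂ →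
    ∫ x in (0 : ℝ)..x1 α l, ‖mP F Mp s l x‖ ^ 2 ≤ K

/-- DAN: `D_x` is holomorphic in `l`. -/
def Stmt_DAN : Prop := ∀ α : ℝ, 0 < α → α ≤ 2 / 3 → ∀ (F : FS α) (Mp : ℂ → ℂ), HX F Mp →
  ∀ (s : Bool) (f : ℝ → ℂ) (E : ℂ → ℂ), L2f f → Differentiable ℂ E → ∀ x : ℝ, 0 ≤ x →
  ∀ l ∈ Q1, bdr s 1 (Mp l) ≠ 0 → DifferentiableAt ℂ (fun z => Dx F Mp s f E z x) l

/-- BASE: `P_ε(φ)` for `φ` slightly below `π/2`. -/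
def Stmt_BASE : Prop := ∀ α : ℝ, 0 < α → α ≤ 2 / 3 → ∀ (F : FS α) (Mp : ℂ → ℂ), HX F Mp →
  ∀ (s : Bool) (f : ℝ → ℂ) (E : ℂ → ℂ), L2f f → IsE F s f E →
  ∀ ε > 0, ∃ κ > 0, ∀ φ : ℝ, π / 2 - κ < φ → φ < π / 2 → PE F Mp s f E ε φ

/-! ## D. geometry of `T` -/

/-- TSC: scaling. -/
def Stmt_TSC : Prop := ∀ α : ℝ, 0 < α → α ≤ 2 / 3 → ∀ l ∈ Q1,
  Tf α l = ‖l‖ ^ rho α * Th α (arg l)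

/-- TG0: derivatives of `Th`. -/
def Stmt_TG0 : Prop := ∀ α : ℝ, 0 < α → α ≤ 2 / 3 →
  ContinuousOn (Th α) (Icc 0 (π / 2)) ∧ ∃ T1 : ℝ → ℝ, ∀ ψ ∈ Ioo (0 : ℝ) (π / 2),
    HasDerivAt (Th α) (T1 ψ) ψ ∧ 0 < T1 ψ ∧
    HasDerivAt T1 (-(rho α ^ 2 * Th α ψ) +
      Real.sin ψ ^ (1 / α - 1) / (2 * α * Real.sqrt (Real.cos ψ))) ψ

/-- TG1: continuity and strict monotonicity. -/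
def Stmt_TG1 : Prop := ∀ α : ℝ, 0 < α → α ≤ 2 / 3 →
  ContinuousOn (Th α) (Icc 0 (π / 2)) ∧ StrictMonoOn (Th α) (Icc 0 (π / 2)) ∧ Th α 0 = 0

/-- TG2: tangent sinusoids (trigonometric convexity). -/
def Stmt_TG2 : Prop := ∀ α : ℝ, 0 < α → α ≤ 2 / 3 → ∀ φ ∈ Ioo (0 : ℝ) (π / 2), ∃ A : ℝ, 0 ≤ A ∧
  ∀ ψ ∈ Ioo (0 : ℝ) (π / 2), |ψ - φ| ≤ π / rho α →
    Th α φ * Real.cos (rho α * (ψ - φ)) + A * Real.sin (rho α * (ψ - φ)) ≤ Th α ψ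

/-- TG3: `I` near `x_1`. -/
def Stmt_TG3 : Prop := ∀ α : ℝ, 0 < α → α ≤ 2 / 3 → ∀ l ∈ Q1, ∀ x : ℝ, 0 ≤ x → x ^ α ≤ 2 * ‖l‖ →
  |If α l x - Tf α l| ≤ 2 * Real.sqrt ‖l‖ * |x - x1 α l|

/-! ## E. complex analysis -/

/-- APL: almost-analytic Phragmen-Lindelof principle in a half-strip. -/
def Stmt_APL : Prop := ∀ (ρ a b κ ξ₀ B : ℝ) (F : ℂ → ℂ), 0 < ρ → a < b → ρ * (b - a) < π → 0 < κ →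
  (∀ z : ℂ, a ≤ z.im → z.im ≤ b → ξ₀ ≤ z.re → ‖F z‖ ≤ Real.exp (B * Real.exp (ρ * z.re))) →
  (∀ z : ℂ, ξ₀ ≤ z.re → (a ≤ z.im ∧ z.im ≤ a + κ) ∨ (b - κ ≤ z.im ∧ z.im ≤ b) → ‖F z‖ ≤ 1) →
  (∀ z₀ : ℂ, a + κ ≤ z₀.im → z₀.im ≤ b - κ → ξ₀ + κ ≤ z₀.re →
    ∃ G : ℂ → ℂ, DifferentiableOn ℂ G (Metric.closedBall z₀ κ) ∧ G z₀ = F z₀ ∧
      ∀ z ∈ Metric.sphere z₀ κ, ‖G z - F z‖ ≤ κ ^ 2 / 4) →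
  ∃ K : ℝ, ∀ z : ℂ, a ≤ z.im → z.im ≤ b → ξ₀ ≤ z.re → ‖F z‖ ≤ K

/-- STEP. -/
def Stmt_STEP : Prop := ∀ α : ℝ, 0 < α → α ≤ 2 / 3 → ∀ (F : FS α) (Mp : ℂ → ℂ), HX F Mp →
  ∀ (s : Bool) (f : ℝ → ℂ) (E : ℂ → ℂ), L2f f → IsE F s f E →
  ∀ φa φt φm : ℝ, 0 < φa → φa ≠ 2 * beta α → φa < φt → φt < φm → φm ≤ π / 2 →
  rho α * (φm - φa) < π → Th α φa < -Real.cos (rho α * (φt - φa)) * Th α φt →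
  ∀ ε > 0, ∃ ε' > 0, ∀ φb : ℝ, φt < φb → φb < φm → PE F Mp s f E ε' φb → PE F Mp s f E ε φt

/-- ALLP: real induction. -/
def Stmt_ALLP : Prop := ∀ (ρ b2 : ℝ) (T : ℝ → ℝ) (P : ℝ → ℝ → Prop), 2 ≤ ρ →
  ContinuousOn T (Icc 0 (π / 2)) → StrictMonoOn T (Icc 0 (π / 2)) → T 0 = 0 →
  (∀ ε > 0, ∃ κ > 0, ∀ φ : ℝ, π / 2 - κ < φ → φ < π / 2 → P ε φ) →
  (∀ φa φt φm : ℝ, 0 < φa → φa ≠ b2 → φa < φt → φt < φm → φm ≤ π / 2 → ρ * (φm - φa) < π →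
    T φa < -Real.cos (ρ * (φt - φa)) * T φt →
    ∀ ε > 0, ∃ ε' > 0, ∀ φb : ℝ, φt < φb → φb < φm → P ε' φb → P ε φt) →
  ∃ φ₀ : ℝ, 0 < φ₀ ∧ φ₀ < π / ρ ∧ ∀ φ : ℝ, φ₀ ≤ φ → φ < π / 2 → ∀ ε > 0, P ε φ

/-- EBD: `P_ε(φ)` for all `ε` bounds `E` near the ray `φ`. -/
def Stmt_EBD : Prop := ∀ α : ℝ, 0 < α → α ≤ 2 / 3 → ∀ (F : FS α) (Mp : ℂ → ℂ), HX F Mp →
  ∀ (s : Bool) (f : ℝ → ℂ) (E : ℂ → ℂ), L2f f → IsE F s f E →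
  ∀ φ ∈ Ioo (0 : ℝ) (π / 2), (∀ ε > 0, PE F Mp s f E ε φ) →
  ∃ r > 0, ∃ K R : ℝ, ∀ l : ℂ, R ≤ ‖l‖ → |arg l - φ| ≤ r → ‖E l‖ ≤ K

/-- FIN: abstract conclusion. -/
def Stmt_FIN : Prop := ∀ (ρ K φ₀ : ℝ) (E : ℂ → ℂ), 2 ≤ ρ → Differentiable ℂ E →
  (∀ l : ℂ, ‖E l‖ ≤ Real.exp (K * (1 + ‖l‖ ^ ρ))) → 0 < φ₀ → φ₀ < π / ρ →
  (∀ φ : ℝ, φ₀ ≤ φ → φ < π / 2 →
    ∃ r > 0, ∃ K R : ℝ, ∀ l : ℂ, R ≤ ‖l‖ → |arg l - φ| ≤ r → ‖E l‖ ≤ K) →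
  (∀ δ > 0, ∀ ε > 0, ∃ R : ℝ, ∀ l : ℂ, R ≤ ‖l‖ →
    (l.re ≤ -(δ * ‖l‖) ∨ l.im ≤ -(δ * ‖l‖)) → ‖E l‖ ≤ ε) →
  ∀ l : ℂ, E l = 0

/-! ## F. uniqueness and assembly -/

/-- the solution of the inhomogeneous initial value problem -/
def uf {α : ℝ} (F : FS α) (f : ℝ → ℂ) (l : ℂ) (x : ℝ) : ℂ :=
  ∫ t in (0 : ℝ)..x, (F.C x l * F.S t l - F.S x l * F.C t l) * f t

/-- U1: `u → 0` outside the closed first quadrant. -/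
def Stmt_U1 : Prop := ∀ α : ℝ, 0 < α → α ≤ 2 / 3 → ∀ (F : FS α) (f : ℝ → ℂ), L2f f →
  (∀ l a b : ℂ, IsY F a b l → ∫ x in Ioi (0 : ℝ), f x * F.y a b l x = 0) →
  ∀ x : ℝ, 0 ≤ x → ∀ δ > 0, ∀ ε > 0, ∃ R : ℝ, ∀ l : ℂ, R ≤ ‖l‖ →
    (l.re ≤ -(δ * ‖l‖) ∨ l.im ≤ -(δ * ‖l‖)) → ‖uf F f l x‖ ≤ ε

/-- U2: `u(x, .)` is entire of order at most `1/2`. -/
def Stmt_U2 : Prop := ∀ α : ℝ, 0 < α → α ≤ 2 / 3 → ∀ (F : FS α) (f : ℝ → ℂ), L2f f →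
  ∀ x : ℝ, 0 ≤ x → Differentiable ℂ (fun l => uf F f l x) ∧
    ∃ K : ℝ, ∀ l : ℂ, ‖uf F f l x‖ ≤ Real.exp (K * (1 + Real.sqrt ‖l‖))

/-- U3: Phragmen-Lindelof for order `1/2`. -/
def Stmt_U3 : Prop := ∀ (K : ℝ) (g : ℂ → ℂ), Differentiable ℂ g →
  (∀ l : ℂ, ‖g l‖ ≤ Real.exp (K * (1 + Real.sqrt ‖l‖))) →
  (∀ δ > 0, ∀ ε > 0, ∃ R : ℝ, ∀ l : ℂ, R ≤ ‖l‖ →
    (l.re ≤ -(δ * ‖l‖) ∨ l.im ≤ -(δ * ‖l‖)) → ‖g l‖ ≤ ε) → ∀ l : ℂ, g l = 0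

/-- U4 -/
def Stmt_U4 : Prop := ∀ α : ℝ, 0 < α → α ≤ 2 / 3 → ∀ (F : FS α) (f : ℝ → ℂ), L2f f →
  (∀ x : ℝ, 0 ≤ x → uf F f 0 x = 0) → f =ᵐ[volume.restrict (Ioi (0 : ℝ))] 0

/-- UNIQ -/
def Stmt_UNIQ : Prop := ∀ α : ℝ, 0 < α → α ≤ 2 / 3 → ∀ (F : FS α) (f : ℝ → ℂ), L2f f →
  (∀ l a b : ℂ, IsY F a b l → ∫ x in Ioi (0 : ℝ), f x * F.y a b l x = 0) →
  f =ᵐ[volume.restrict (Ioi (0 : ℝ))] 0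

/-- HALF: completeness on the half-line. -/
def Stmt_HALF : Prop := ∀ α : ℝ, 0 < α → α ≤ 2 / 3 → ∀ (F : FS α) (s : Bool) (f : ℝ → ℂ), L2f f →
  (∀ l a b : ℂ, IsY F a b l → bdr s a b = 0 → ∫ x in Ioi (0 : ℝ), f x * F.y a b l x = 0) →
  f =ᵐ[volume.restrict (Ioi (0 : ℝ))] 0

/-- even / odd extension of `y` to the line (`s = true`: odd). -/
def ext {α : ℝ} (F : FS α) (s : Bool) (a b l : ℂ) (x : ℝ) : ℂ :=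
  (if s then ((Real.sign x : ℝ) : ℂ) else 1) * F.y a b l ((|x| : ℝ) : ℂ)

/-- EF: eigenfunctions on the line. -/
def Stmt_EF : Prop := ∀ α : ℝ, 0 < α → α ≤ 2 / 3 → ∀ (F : FS α) (s : Bool) (a b l : ℂ),
  IsY F a b l → bdr s a b = 0 →
  ContDiff ℝ 2 (ext F s a b l) ∧ MemLp (ext F s a b l) 2 (volume : Measure ℝ) ∧
  ∀ x : ℝ, -deriv (deriv (ext F s a b l)) x
    + Complex.I * (((|x| ^ α : ℝ)) : ℂ) * ext F s a b l x - l * ext F s a b l x = 0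

/-- the frozen statement S15681 (to be proved from `Stmt_FS`, `Stmt_EF`, `Stmt_HALF`) -/
def Stmt_S15681 : Prop := ∀ α : ℝ, 0 < α → α ≤ 2 / 3 →
      (Submodule.span ℂ
        {F : Lp ℂ 2 (volume : Measure ℝ) |
          ∃ (μ : ℂ) (n : ℕ) (φ : ℕ → ℝ → ℂ), φ 0 = 0 ∧
            (∀ k, k ≤ n → ContDiff ℝ 2 (φ k) ∧ MemLp (φ k) 2 (volume : Measure ℝ)) ∧
            (∀ k, k < n → ∀ x : ℝ,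
              -deriv (deriv (φ (k + 1))) x
                + Complex.I * (((|x| ^ α : ℝ)) : ℂ) * φ (k + 1) x
                - μ * φ (k + 1) x = φ k x) ∧
            (⇑F) =ᵐ[(volume : Measure ℝ)] φ n}).topologicalClosure = ⊤

/-- glue: UNIQ from U1-U4 -/
theorem uniq_of (h1 : Stmt_U1) (h2 : Stmt_U2) (h3 : Stmt_U3) (h4 : Stmt_U4) : Stmt_UNIQ := by
  intro α hα hα' F f hf horth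
  refine h4 α hα hα' F f hf ?_
  intro x hx
  obtain ⟨hd, K, hK⟩ := h2 α hα hα' F f hf x hx
  exact h3 K _ hd hK (h1 α hα hα' F f hf horth x hx) 0

/-- glue: HALF from the modules -/
theorem half_of (hFSX : Stmt_X) (hENT : Stmt_ENT) (hEORD : Stmt_EORD) (hOUTE : Stmt_OUTE)
    (hBASE : Stmt_BASE) (hTG1 : Stmt_TG1) (hSTEP : Stmt_STEP) (hALLP : Stmt_ALLP)
    (hEBD : Stmt_EBD) (hFIN : Stmt_FIN) (hUNIQ : Stmt_UNIQ) : Stmt_HALF := by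
  intro α hα hα' F s f hf horth
  obtain ⟨Mp, hMp⟩ := hFSX α hα hα' F
  obtain ⟨E, hE⟩ := hENT α hα hα' F s f hf horth
  obtain ⟨K, hK⟩ := hEORD α hα hα' F s f E hf hE
  have hρ : 2 ≤ rho α := by
    unfold rho
    have : (3 : ℝ) / 2 ≤ 1 / α := by
      rw [le_div_iff₀ hα]
      linarith
    linarith
  obtain ⟨hTc, hTm, hT0⟩ := hTG1 α hα hα'
  obtain ⟨φ₀, hφ₀, hφ₀', hP⟩ := hALLP (rho α) (2 * beta α) (Th α) (PE F Mp s f E) hρ hTc hTm hT0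
    (hBASE α hα hα' F Mp hMp s f E hf hE)
    (hSTEP α hα hα' F Mp hMp s f E hf hE)
  have hE0 : ∀ l : ℂ, E l = 0 := by
    refine hFIN (rho α) K φ₀ E hρ hE.1 hK hφ₀ hφ₀' ?_ (hOUTE α hα hα' F s f E hf hE)
    intro φ h1 h2
    exact hEBD α hα hα' F Mp hMp s f E hf hE φ ⟨lt_of_lt_of_le hφ₀ h1, h2⟩ (hP φ h1 h2)
  refine hUNIQ α hα hα' F f hf ?_
  intro l a b hY
  rw [← hE.2 l a b hY, hE0 l, zero_mul]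

end

end Pool.Agent.CRV
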