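import Pool.Agent.CRV.Stmts

/-!
Common small lemmas for the modules ORD, EORD, ENT, APRIE, OUTE.
-/

set_option autoImplicit false

open MeasureTheory Complex Set Filter Topology
open scoped Real

namespace Pool.Agent.CRV

noncomputable section

namespace U23

lemma real_mem_slit {x : ℝ} (hx : 0 < x) : (x : ℂ) ∈ slitPlane := by
  rw [Complex.ofReal_mem_slitPlane]
  exact hx

lemma real_mem_dom {x : ℝ} (hx : 0 ≤ x) : (x : ℂ) ∈ Dom := by
  rcases hx.eq_or_lt with h | h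
  · left
    rw [← h]
    simp
  · right
    exact real_mem_slit h

lemma cont_C {α : ℝ} (F : FS α) (l : ℂ) : ContinuousOn (fun x : ℝ => F.C x l) (Ici 0) := by
  have h := F.cC
  have hm : ContinuousOn (fun x : ℝ => ((x : ℂ), l)) (Ici 0) :=
    (Complex.continuous_ofReal.prodMk continuous_const).continuousOn
  exact h.comp hm (fun x hx => ⟨real_mem_dom hx, mem_univ _⟩)

lemma cont_S {α : ℝ} (F : FS α) (l : ℂ) : ContinuousOn (fun x : ℝ => F.S x l) (Ici 0) := by
  have h := F.cS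
  have hm : ContinuousOn (fun x : ℝ => ((x : ℂ), l)) (Ici 0) :=
    (Complex.continuous_ofReal.prodMk continuous_const).continuousOn
  exact h.comp hm (fun x hx => ⟨real_mem_dom hx, mem_univ _⟩)

lemma cont_dC {α : ℝ} (F : FS α) (l : ℂ) : ContinuousOn (fun x : ℝ => F.dC x l) (Ici 0) := by
  have h := F.cdC
  have hm : ContinuousOn (fun x : ℝ => ((x : ℂ), l)) (Ici 0) :=
    (Complex.continuous_ofReal.prodMk continuous_const).continuousOn
  exact h.comp hm (fun x hx => ⟨real_mem_dom hx, mem_univ _⟩)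

lemma cont_dS {α : ℝ} (F : FS α) (l : ℂ) : ContinuousOn (fun x : ℝ => F.dS x l) (Ici 0) := by
  have h := F.cdS
  have hm : ContinuousOn (fun x : ℝ => ((x : ℂ), l)) (Ici 0) :=
    (Complex.continuous_ofReal.prodMk continuous_const).continuousOn
  exact h.comp hm (fun x hx => ⟨real_mem_dom hx, mem_univ _⟩)

lemma cont_y {α : ℝ} (F : FS α) (a b l : ℂ) :
    ContinuousOn (fun x : ℝ => F.y a b l x) (Ici 0) := by
  unfold FS.y
  exact (continuousOn_const.mul (cont_C F l)).add (continuousOn_const.mul (cont_S F l))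

lemma cont_dy {α : ℝ} (F : FS α) (a b l : ℂ) :
    ContinuousOn (fun x : ℝ => F.dy a b l x) (Ici 0) := by
  unfold FS.dy
  exact (continuousOn_const.mul (cont_dC F l)).add (continuousOn_const.mul (cont_dS F l))

lemma hasDeriv_y {α : ℝ} (F : FS α) (a b l : ℂ) {x : ℂ} (hx : x ∈ slitPlane) :
    HasDerivAt (fun z => F.y a b l z) (F.dy a b l x) x := by
  unfold FS.y FS.dy
  exact ((F.hC l x hx).const_mul a).add ((F.hS l x hx).const_mul b)

lemma hasDeriv_dy {α : ℝ} (F : FS α) (a b l : ℂ) {x : ℂ} (hx : x ∈ slitPlane) :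
    HasDerivAt (fun z => F.dy a b l z) ((I * x ^ (α : ℂ) - l) * F.y a b l x) x := by
  have h := ((F.hdC l x hx).const_mul a).add ((F.hdS l x hx).const_mul b)
  refine (h.congr_deriv ?_)
  unfold FS.y
  ring

lemma y_zero {α : ℝ} (F : FS α) (a b l : ℂ) : F.y a b l 0 = a := by
  unfold FS.y
  rw [F.C0, F.S0]; ring

lemma dy_zero {α : ℝ} (F : FS α) (a b l : ℂ) : F.dy a b l 0 = b := by
  unfold FS.dy
  rw [F.dC0, F.dS0]; ring

/-- Cauchy-Schwarz on the half-line. -/
lemma cs (f g : ℝ → ℂ) (hf : L2f f) (hg : AEStronglyMeasurable g (volume.restrict (Ioi (0 : ℝ))))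
    (hgi : IntegrableOn (fun x : ℝ => ‖g x‖ ^ 2) (Ioi 0)) :
    ‖∫ x in Ioi (0 : ℝ), f x * g x‖ ≤
      Real.sqrt (∫ x in Ioi (0 : ℝ), ‖f x‖ ^ 2) * Real.sqrt (∫ x in Ioi (0 : ℝ), ‖g x‖ ^ 2) := by
  have hg2 : MemLp g 2 (volume.restrict (Ioi (0 : ℝ))) := by
    rw [memLp_two_iff_integrable_sq_norm hg]
    exact hgi
  have h1 : ‖∫ x in Ioi (0 : ℝ), f x * g x‖ ≤ ∫ x in Ioi (0 : ℝ), ‖f x‖ * ‖g x‖ := by
    refine (norm_integral_le_integral_norm _).trans (le_of_eq ?_)
    simp only [norm_mul]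
  refine h1.trans ?_
  have h2 := integral_mul_le_Lp_mul_Lq_of_nonneg (μ := volume.restrict (Ioi (0 : ℝ)))
    (p := 2) (q := 2) (f := fun x => ‖f x‖) (g := fun x => ‖g x‖)
    (Real.HolderConjugate.two_two)
    (Eventually.of_forall fun x => norm_nonneg _) (Eventually.of_forall fun x => norm_nonneg _)
    (by simpa using hf.norm) (by simpa using hg2.norm)
  refine h2.trans (le_of_eq ?_)
  rw [Real.sqrt_eq_rpow, Real.sqrt_eq_rpow]
  simp only [Real.rpow_two]

lemma meas_y {α : ℝ} (F : FS α) (a b l : ℂ) :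
    AEStronglyMeasurable (fun x : ℝ => F.y a b l x) (volume.restrict (Ioi (0 : ℝ))) :=
  ((cont_y F a b l).mono Ioi_subset_Ici_self).aestronglyMeasurable measurableSet_Ioi

/-- every `l` has a decaying solution -/
lemma exists_isY (hY : Stmt_Y) {α : ℝ} (h0 : 0 < α) (h1 : α ≤ 2 / 3) (F : FS α) (l : ℂ) :
    ∃ a b : ℂ, IsY F a b l := by
  obtain ⟨a, b, -, -, K, γ, x₀, h⟩ := hY α h0 h1 F (‖l‖ + 1) (by positivity)
  refine ⟨a l, b l, K, γ, x₀, h l ?_⟩
  rw [mem_ball_zero_iff]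
  linarith

lemma rho_ge_two {α : ℝ} (h0 : 0 < α) (h1 : α ≤ 2 / 3) : 2 ≤ rho α := by
  unfold rho
  have : (3 : ℝ) / 2 ≤ 1 / α := by
    rw [le_div_iff₀ h0]
    linarith
  linarith

end U23

end

end Pool.Agent.CRV
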